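import Pool.Agent.P.MP_6149fc_ag.V18.BaseH

/-! Statements: the parametrisation, the volume, normal forms, the global argument. -/

set_option autoImplicit false

namespace Pool.Agent.P.MP_6149fc_ag.V18

open scoped ENNReal
open MvPowerSeries (coeff X constantCoeff monomial)

/-! ### The parametrisation and the volume -/

-- deps:
-- imports: Pool.Agent.P.MP_6149fc_ag.Hensel
def S_IFTE : Prop :=
  ∀ (k C : Type) [Field k] [CommRing C] [Algebra k C] (J : Ideal C) [IsAdicComplete J C] (n : ℕ)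
    (F : Fin n → MvPolynomial (Fin n) k) (τ : Fin n → C),
    (∀ s, MvPolynomial.constantCoeff (F s) = 0) →
    (∀ v : Fin n → k,
      (∀ s, ∑ i, MvPolynomial.constantCoeff (MvPolynomial.pderiv i (F s)) * v i = 0) → v = 0) →
    (∀ s, τ s ∈ J) → ∃ ζ : Fin n → C, (∀ i, ζ i ∈ J) ∧ ∀ s, MvPolynomial.aeval ζ (F s) = τ s

-- deps:
def S_IFTU : Prop :=
  ∀ (k L : Type) [Field k] [Field L] [Algebra k L] (n : ℕ)
    (F : Fin n → MvPolynomial (Fin n) k) (ζ ζ' : Fin n → PowerSeries L),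
    (∀ v : Fin n → k,
      (∀ s, ∑ i, MvPolynomial.constantCoeff (MvPolynomial.pderiv i (F s)) * v i = 0) → v = 0) →
    (∀ i, PowerSeries.constantCoeff (ζ i) = 0) → (∀ i, PowerSeries.constantCoeff (ζ' i) = 0) →
    (∀ s, MvPolynomial.aeval ζ (F s) = MvPolynomial.aeval ζ' (F s)) → ζ = ζ'

-- deps:
def S_CHK : Prop :=
  (∀ (C : Type) [CommRing C] (ζ : Fin 5 → C), KK (psiv ζ)) ∧
  (∀ (C : Type) [CommRing C] (p : Fin 14 → C) (u : C), KK p → u * p 0 = 1 →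
    ∀ i, p i = p 0 * psiv ![u * p 1, u * p 2, u * p 3, u * p 4, u * p 6] i) ∧
  ∀ (κ : Type) [Field κ] (l : Fin 14 → κ),
    MvPolynomial.constantCoeff (dot l (psiv (MvPolynomial.X : Fin 5 → MvPolynomial (Fin 5) κ))) =
      l 0 ∧
    (∀ i, MvPolynomial.constantCoeff (MvPolynomial.pderiv i
      (dot l (psiv (MvPolynomial.X : Fin 5 → MvPolynomial (Fin 5) κ)))) = Lin l i) ∧
    ∀ (C : Type) [CommRing C] [Algebra κ C] (ζ : Fin 5 → C), MvPolynomial.aeval ζ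
      (dot l (psiv (MvPolynomial.X : Fin 5 → MvPolynomial (Fin 5) κ))) = dot l (psiv ζ)

-- deps: CHK
def S_VOLE : Prop :=
  ∀ (κ : Type) [Field κ] (l1 l2 : Fin 14 → κ) (δ1 δ2 : Fin 5 → κ) (ζ : Fin 5 → PS κ),
    (∀ i, constantCoeff (ζ i) = 0) → dot l1 (psiv ζ) = 0 → dot l2 (psiv ζ) = 0 →
    Lin l1 ⬝ᵥ δ1 = 1 → Lin l1 ⬝ᵥ δ2 = 0 → Lin l2 ⬝ᵥ δ1 = 0 → Lin l2 ⬝ᵥ δ2 = 1 →
    ∃ (η : Fin 5 → PowerSeries (Polynomial (PS κ))) (r1 r2 : PowerSeries (Polynomial (PS κ))),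
      (∀ i, PowerSeries.constantCoeff (η i) = Polynomial.C (ζ i)) ∧
      dot l1 (psiv η) = PowerSeries.X * (1 + PowerSeries.X * r1) ∧
      dot l2 (psiv η) = PowerSeries.X * (PowerSeries.C Polynomial.X + PowerSeries.X * r2)

-- deps:
def S_VOLI : Prop :=
  ∀ (κ R σ : Type) [Field κ] [CommRing R] [Algebra κ R] [Finite σ] (Ψ : σ → R)
    (Φ : σ → PowerSeries (Polynomial R)) (r1 r2 : PowerSeries (Polynomial R)),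
    (∀ i, PowerSeries.constantCoeff (Φ i) = Polynomial.C (Ψ i)) →
    PowerSeries.X * (1 + PowerSeries.X * r1) ∈ UU κ Φ 1 →
    PowerSeries.X * (PowerSeries.C Polynomial.X + PowerSeries.X * r2) ∈ UU κ Φ 1 →
    ∀ M, ∑ n ∈ Finset.range (M + 1), (M - n + 1) * Module.finrank κ (UU κ Ψ n) ≤
      Module.finrank κ (UU κ Φ M)

-- deps:
def S_GROBA : Prop :=
  ∀ (κ C : Type) [Field κ] [CommRing C] [Algebra κ C] (n : ℕ) (Φ : Fin n → C) (ω : Fin n → ℕ)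
    (bad : List (Fin n × Fin n)) (cl : List (List (Fin n))),
    (∀ p ∈ bad, p.1 ≠ p.2 ∧ Φ p.1 * Φ p.2 ∈
      Submodule.span κ {f | ∃ a b, ω a + ω b < ω p.1 + ω p.2 ∧ f = Φ a * Φ b}) →
    (∀ c ∈ cl, c.length = 6) →
    (∀ T : Fin n → Bool, (∀ p ∈ bad, T p.1 = false ∨ T p.2 = false) →
      ∃ c ∈ cl, ∀ i, T i = true → i ∈ c) →
    ∀ M, Module.finrank κ (UU κ Φ M) ≤ cl.length * (M + 5).choose 5

-- deps:
def S_GROBC : Prop :=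
  ∀ T : Fin 14 → Bool, (∀ p ∈ gBad, T p.1 = false ∨ T p.2 = false) →
    ∃ c ∈ gCl, ∀ i, T i = true → i ∈ c

-- deps: GROBA GROBC
def S_GROB : Prop :=
  ∀ (κ C : Type) [Field κ] [CommRing C] [Algebra κ C] (Φ : Fin 14 → C), KK Φ →
    ∀ M, Module.finrank κ (UU κ Φ M) ≤ 18 * (M + 5).choose 5

-- deps: CHK VOLE VOLI GROB VOLN
def S_VOL : Prop :=
  ∀ (κ : Type) [Field κ] (l1 l2 : Fin 14 → κ) (δ1 δ2 : Fin 5 → κ) (ζ : Fin 5 → PS κ),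
    (∀ i, constantCoeff (ζ i) = 0) → dot l1 (psiv ζ) = 0 → dot l2 (psiv ζ) = 0 →
    Lin l1 ⬝ᵥ δ1 = 1 → Lin l1 ⬝ᵥ δ2 = 0 → Lin l2 ⬝ᵥ δ1 = 0 → Lin l2 ⬝ᵥ δ2 = 1 →
    Vol (UU κ (psiv ζ)) 3

-- deps: IFTU CHK BC
def S_PARF : Prop :=
  ∀ (κ : Type) [Field κ] (l1 l2 : Fin 14 → κ) (m : Fin 3 → Fin 14 → κ) (ζ : Fin 5 → PS κ),
    (∀ j, m j 0 = 0) →
    (∀ v : Fin 5 → κ, Lin l1 ⬝ᵥ v = 0 → Lin l2 ⬝ᵥ v = 0 → (∀ j, Lin (m j) ⬝ᵥ v = 0) → v = 0) →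
    (∀ i, constantCoeff (ζ i) = 0) → dot l1 (psiv ζ) = 0 → dot l2 (psiv ζ) = 0 →
    (∀ j, dot (m j) (psiv ζ) = X j) →
    ∀ (L : Type) [Field L] [Algebra κ L] (p : Fin 14 → PowerSeries L), KK p → dot l1 p = 0 →
      dot l2 p = 0 → (∀ i, PowerSeries.constantCoeff (p i) = algebraMap κ L (e0 κ i)) →
      ∃ (u : PowerSeries L) (z : Fin 3 → PowerSeries L), Cen z ∧ ∀ i, p i = u * sub z (psiv ζ i)

-- deps: IFTE CHK VOL PARF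
def S_PARG : Prop :=
  ∀ (κ : Type) [Field κ] (l1 l2 : Fin 14 → κ) (m : Fin 3 → Fin 14 → κ), l1 0 = 0 → l2 0 = 0 →
    (∀ j, m j 0 = 0) →
    (∀ v : Fin 5 → κ, Lin l1 ⬝ᵥ v = 0 → Lin l2 ⬝ᵥ v = 0 → (∀ j, Lin (m j) ⬝ᵥ v = 0) → v = 0) →
    (∀ (p : P14 κ) (U : ℕ → Submodule κ (PS κ)) (V : ℝ), Ctx U V → p.Ok (U 1) →
      dot l1 p.vec = 0 → dot l2 p.vec = 0 → (∀ j, dot (m j) p.vec = X j) → Loc U V) →
    Goal l1 l2 (e0 κ)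

/-! ### Smoothness -/

-- deps:
def S_TAN6 : Prop :=
  ∀ (κ : Type) [Field κ] (l1 l2 l p : Fin 14 → κ) (r s : κ) (v : Fin 6 → Fin 14 → κ),
    Sm l1 l2 → p ≠ 0 → dot l1 p = 0 → dot l2 p = 0 → (r ≠ 0 ∨ s ≠ 0) →
    (∀ i, l i = r * l1 i + s * l2 i) → (∀ a, KK (dual p (v a)) ∧ dot l (v a) = 0) →
    ¬ LinearIndependent κ v

-- deps: TAN6
def S_SM0 : Prop :=
  ∀ (κ : Type) [Field κ] (l1 l2 : Fin 14 → κ) (r s : κ), Sm l1 l2 → l1 0 = 0 → l2 0 = 0 →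
    (r ≠ 0 ∨ s ≠ 0) → r • Lin l1 + s • Lin l2 ≠ 0

-- deps: TAN6
def S_SML : Prop :=
  ∀ (κ : Type) [Field κ] (l1 l2 l : Fin 14 → κ) (t u r s : κ), Sm l1 l2 → l1 0 = 0 → l2 0 = 0 →
    l1 1 + t * l1 2 + t ^ 2 * l1 3 + t ^ 3 * l1 4 = 0 →
    l2 1 + t * l2 2 + t ^ 2 * l2 3 + t ^ 3 * l2 4 = 0 → (r ≠ 0 ∨ s ≠ 0) →
    (∀ i, l i = r * l1 i + s * l2 i) → l 2 + 2 * t * l 3 + 3 * t ^ 2 * l 4 = 0 →
    u * l 3 + (l 5 + t * l 6 + 2 * t * l 7 - 2 * t ^ 2 * l 8) = 0 →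
    u * l 4 + (t * l 8 - l 7) = 0 →
    u * (l 6 + l 7) + (l 9 + t * l 10 + t ^ 2 * l 11 + t ^ 3 * l 12) = 0 → False

-- deps: TAN6
def S_SMW : Prop :=
  ∀ (κ : Type) [Field κ] (l1 l2 l : Fin 14 → κ) (u r s : κ), Sm l1 l2 → l1 0 = 0 → l2 0 = 0 →
    l1 4 = 0 → l2 4 = 0 → (r ≠ 0 ∨ s ≠ 0) → (∀ i, l i = r * l1 i + s * l2 i) → l 3 = 0 →
    u * l 2 + l 8 = 0 → u * l 1 + l 6 = 0 → u * (l 6 + l 7) + l 12 = 0 → False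

-- deps:
def S_EIG : Prop :=
  ∀ (κ : Type) [Field κ] [IsAlgClosed κ] (a b c d : κ), ∃ u r s : κ, (r ≠ 0 ∨ s ≠ 0) ∧
    u * r = r * a + s * c ∧ u * s = r * b + s * d

/-! ### The normal forms -/

-- deps: PARG LA0A LA0B
def S_QA0 : Prop :=
  ∀ (κ : Type) [Field κ] [IsAlgClosed κ] [CharZero κ],
    (∀ v0 v2 : κ, v2 ^ 3 ≠ v0 → QQ ![1, 0, 0, -v0, 0] ![0, 0, 1, -v2, 0]) ∧
    ∀ v0 : κ, QQ ![1, 0, -v0, 0, 0] ![0, 0, 0, 1, 0]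

-- deps: PARG LA1I LA1J SML
def S_QA1 : Prop :=
  ∀ (κ : Type) [Field κ] [IsAlgClosed κ] [CharZero κ] (ρ : κ),
    QQ ![0, 0, -ρ, 1, 0] ![0, 1, 0, 0, 0]

-- deps: PARG LA2 SML SMW
def S_QA2 : Prop :=
  ∀ (κ : Type) [Field κ] [IsAlgClosed κ] [CharZero κ],
    QQ (κ := κ) ![0, 1, 0, 0, 0] ![0, 0, 1, 0, 0]

-- deps: PARG LA3 SML EIG
def S_QA3 : Prop :=
  ∀ (κ : Type) [Field κ] [IsAlgClosed κ] [CharZero κ],
    QQ (κ := κ) ![0, 0, 1, 0, 0] ![0, 0, 0, 1, 0]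

-- deps: PARG LB1 SML SMW
def S_QB1 : Prop :=
  ∀ (κ : Type) [Field κ] [IsAlgClosed κ] [CharZero κ],
    QQ (κ := κ) ![0, 1, -1, 0, 0] ![0, 0, 0, 0, 1]

-- deps: PARG LB2 SML SMW EIG
def S_QB2 : Prop :=
  ∀ (κ : Type) [Field κ] [IsAlgClosed κ] [CharZero κ],
    QQ (κ := κ) ![0, 0, 1, 0, 0] ![0, 0, 0, 0, 1]

-- deps: PARG LB3A LB3B SML EIG
def S_QB3 : Prop :=
  ∀ (κ : Type) [Field κ] [IsAlgClosed κ] [CharZero κ],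
    QQ (κ := κ) ![0, 0, 0, 1, 0] ![0, 0, 0, 0, 1]

-- deps:
def S_NFE1 : Prop :=
  ∀ (κ : Type) [Field κ] [IsAlgClosed κ] [CharZero κ] (Q : (Fin 5 → κ) → (Fin 5 → κ) → Prop),
    Clo Q → NFs Q → ∀ a1 a2 a3 b1 b2 b3 : κ, Q ![0, a1, a2, a3, 0] ![0, b1, b2, b3, 0]

-- deps: NFE1
def S_NFE0 : Prop :=
  ∀ (κ : Type) [Field κ] [IsAlgClosed κ] [CharZero κ] (Q : (Fin 5 → κ) → (Fin 5 → κ) → Prop),
    Clo Q → NFs Q → ∀ a0 a1 a2 a3 b2 b3 : κ, Q ![a0, a1, a2, a3, 0] ![0, 0, b2, b3, 0]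

-- deps: NFE0
def S_NFA : Prop :=
  ∀ (κ : Type) [Field κ] [IsAlgClosed κ] [CharZero κ] (Q : (Fin 5 → κ) → (Fin 5 → κ) → Prop),
    Clo Q → NFs Q → ∀ a b : Fin 5 → κ, a 4 = 0 → b 4 = 0 → Q a b

-- deps:
def S_NFB : Prop :=
  ∀ (κ : Type) [Field κ] [IsAlgClosed κ] [CharZero κ] (Q : (Fin 5 → κ) → (Fin 5 → κ) → Prop),
    Clo Q → NFs Q → ∀ a0 a1 a2 a3 : κ, Q ![a0, a1, a2, a3, 0] ![0, 0, 0, 0, 1]

-- deps: NFA NFB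
def S_NF : Prop :=
  ∀ (κ : Type) [Field κ] [IsAlgClosed κ] [CharZero κ] (Q : (Fin 5 → κ) → (Fin 5 → κ) → Prop),
    Clo Q → NFs Q → ∀ a b : Fin 5 → κ, Q a b

/-! ### Automorphisms -/

-- deps:
def S_AUTG : Prop :=
  ∀ (κ : Type) [Field κ] (g : Fin 14 → Fin 14 → κ) (l1 l2 p0 : Fin 14 → κ), IsAut g →
    TT (pull g l1) (pull g l2) p0 → TT l1 l2 (act g p0)

-- deps:
def S_MOVD : Prop :=
  ∀ (κ : Type) [Field κ], (∀ c : κ, Mv (shf c)) ∧ Mv (swp (κ := κ)) ∧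
    (∀ s : κ, s ≠ 0 → Mv (tor s)) ∧ ∀ (i : Fin 4) (c : κ), Mv (hei i c)

-- deps: AUTG MOVD SM0
def S_CLO : Prop := ∀ (κ : Type) [Field κ], Clo (QQ (κ := κ))

-- deps:
def S_TRD : Prop :=
  ∀ (κ : Type) [Field κ], (∀ c : κ, Tr c 0 0 0 ∧ Tr 0 c 0 0 ∧ Tr 0 0 c 0 ∧ Tr 0 0 0 c ∧
    (∃ g : Fin 14 → Fin 14 → κ, IsAut g ∧ ∀ p : Fin 14 → κ, act g p 0 = p 0 ∧ act g p 1 = p 1 ∧
      act g p 2 = p 2 ∧ act g p 3 = p 3 ∧ act g p 4 = p 4 ∧ act g p 6 = p 6 + c * p 0) ∧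
    (c ≠ 0 → ∃ g : Fin 14 → Fin 14 → κ, IsAut g ∧ ∀ (p : Fin 14 → κ) i, act g p i = c * p i)) ∧
    ∀ i ∈ ([1, 4, 9, 12, 13] : List (Fin 14)), ∃ g : Fin 14 → Fin 14 → κ, IsAut g ∧
      ∀ p : Fin 14 → κ, p i ≠ 0 → act g p 0 ≠ 0

-- deps: TRD CHK
def S_TRANS : Prop :=
  ∀ (κ : Type) [Field κ] (p0 : Fin 14 → κ), p0 ≠ 0 → KK p0 →
    ∃ g : Fin 14 → Fin 14 → κ, IsAut g ∧ act g (e0 κ) = p0

-- deps: TRANS AUTG CLO NF QA0 QA1 QA2 QA3 QB1 QB2 QB3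
def S_MOVE0 : Prop :=
  ∀ (κ : Type) [Field κ] [IsAlgClosed κ] [CharZero κ] (l1 l2 p0 : Fin 14 → κ), p0 ≠ 0 → KK p0 →
    dot l1 p0 = 0 → dot l2 p0 = 0 → TT l1 l2 p0

/-! ### The bridge to the equations -/

-- deps:
def S_BR1 : Prop :=
  ∀ (l : Fin 2 → Fin 7 × Fin 7 → ℂ) (C : Type) [CommRing C] [Algebra ℂ C]
    (P : Fin 7 × Fin 7 → C), (∀ G ∈ equations l, MvPolynomial.aeval P G = 0) →
    KK (pr P) ∧ emb (pr P) = P ∧ ∀ s, ∑ i, algebraMap ℂ C (l s i) * P i = 0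

-- deps:
def S_BR2 : Prop :=
  ∀ (l : Fin 2 → Fin 7 × Fin 7 → ℂ) (C : Type) [CommRing C] [Algebra ℂ C] (p : Fin 14 → C),
    KK p → (∀ s, ∑ i, algebraMap ℂ C (l s i) * emb p i = 0) →
    ∀ G ∈ equations l, MvPolynomial.aeval (emb p) G = 0

-- deps:
def S_BR3 : Prop :=
  (∀ l : Fin 2 → Fin 7 × Fin 7 → ℂ, ∀ G ∈ equations l, ∃ d, G.IsHomogeneous d) ∧
  (∀ (C : Type) [CommRing C] (p : Fin 14 → C), pr (emb p) = p) ∧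
  (∀ (C C' : Type) [CommRing C] [CommRing C'] (φ : C →+ C'),
    (∀ (p : Fin 14 → C) i, φ (emb p i) = emb (fun a => φ (p a)) i) ∧
    ∀ (P : Fin 7 × Fin 7 → C) a, φ (pr P a) = pr (fun i => φ (P i)) a) ∧
  ∀ (κ C : Type) [Field κ] [Algebra ℂ κ] [CommRing C] [Algebra ℂ C] [Algebra κ C]
    [IsScalarTower ℂ κ C] (p : Fin 14 → C),
    (∀ l : Fin 7 × Fin 7 → ℂ, dot (l14 κ l) p = ∑ i, algebraMap ℂ C (l i) * emb p i) ∧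
    UU κ (emb p) = UU κ p

-- deps:
def S_NULL2 : Prop :=
  ∀ (σ : Type) [Fintype σ] (n : ℕ) (S : Set (MvPolynomial σ ℂ)), SmoothOfDim n S →
    ∀ (Ω : Type) [Field Ω] [Algebra ℂ Ω] (p : σ → Ω), p ≠ 0 →
    (∀ G ∈ S, MvPolynomial.aeval p G = 0) → Module.finrank Ω (tangentSpace S p) ≤ n + 1

-- deps:
def S_SEL : Prop :=
  ∀ (σ : Type) [Fintype σ] (n r : ℕ) (S : Set (MvPolynomial σ ℂ)) (Ω : Type) [Field Ω]
    [Algebra ℂ Ω] (p : σ → Ω), Fintype.card σ = n + r + 1 →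
    Module.finrank Ω (tangentSpace S p) ≤ n + 1 →
    ∃ F : Fin r → MvPolynomial σ ℂ, (∀ s, F s ∈ S) ∧
      LinearIndependent Ω fun s i => MvPolynomial.aeval p (MvPolynomial.pderiv i (F s))

-- deps: BR2 BR3
def S_SMB : Prop :=
  ∀ (l : Fin 2 → Fin 7 × Fin 7 → ℂ) (κ : Type) [Field κ] [Algebra ℂ κ],
    (∀ P : Fin 7 × Fin 7 → κ, P ≠ 0 → (∀ G ∈ equations l, MvPolynomial.aeval P G = 0) →
      Module.finrank κ (tangentSpace (equations l) P) ≤ 3 + 1) →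
    Sm (l14 κ (l 0)) (l14 κ (l 1))

/-! ### Arcs along the divisor -/

-- deps: RKA
def S_RKC : Prop :=
  ∀ (κ κ' L L' : Type) [Field κ] [Field κ'] [Field L] [Field L'] [Algebra κ κ']
    [Algebra.IsAlgebraic κ κ'] [Algebra κ L] [Algebra κ L'] [Algebra κ' L']
    [IsScalarTower κ κ' L'] (φ : L →ₐ[κ] L') (T : Set L), rk κ T ≤ rk κ' (φ '' T)

-- deps: RKA
-- imports: Pool.Agent.P.MP_6149fc_ag.All
def S_ARC1 : Prop :=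
  ∀ (σ : Type) [Fintype σ] [DecidableEq σ] (r : ℕ) (S : Set (MvPolynomial σ ℂ)) (K : Type)
    [Field K] [Algebra ℂ K] (ξ : σ → K) (j : σ) (v : AddValuation K (WithTop ℤ)),
    Fintype.card σ = 3 + r + 1 → (∀ G ∈ S, ∃ d, G.IsHomogeneous d) →
    (∀ (Ω : Type) [Field Ω] [Algebra ℂ Ω] (p : σ → Ω), p j = 1 →
      (∀ G ∈ S, MvPolynomial.aeval p G = 0) → ∃ F : Fin r → MvPolynomial σ ℂ, (∀ s, F s ∈ S) ∧
        LinearIndependent Ω fun s i => MvPolynomial.aeval p (MvPolynomial.pderiv i (F s))) →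
    ξ j = 1 → IntermediateField.adjoin ℂ (Set.range ξ) = ⊤ →
    (∀ G ∈ S, MvPolynomial.aeval ξ G = 0) → IsPrimeDivisor 3 v → (∀ i, 0 ≤ v (ξ i)) →
    ∃ (κ : Type) (_ : Field κ) (_ : Algebra ℂ κ) (x : σ → κ) (P : σ → PS κ), x j = 1 ∧
      (∀ G ∈ S, MvPolynomial.aeval x G = 0) ∧ Supply0 κ ξ v x j (logDiscrepancy 3 v ξ) P

-- deps: RKC BC JET2 ADM
def S_ARC2 : Prop :=
  ∀ (σ K κ : Type) [Field K] [Algebra ℂ K] [Field κ] [Algebra ℂ κ] (ξ : σ → K)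
    (v : AddValuation K (WithTop ℤ)) (x : σ → κ) (j : σ) (A : ℕ) (P : σ → PS κ),
    Supply0 κ ξ v x j A P →
    ∃ (κ' : Type) (_ : Field κ') (_ : Algebra ℂ κ') (φ : κ →ₐ[ℂ] κ'), IsAlgClosed κ' ∧
      Supply1 κ' ξ v (fun i => φ (x i)) j A ∧ Supply2 κ' ξ (fun i => φ (x i)) j

/-! ### The final argument -/

-- deps: RKA CFA
def S_FIN1 : Prop :=
  ∀ (σ κ L : Type) [Field κ] [Algebra ℂ κ] [Field L] [Algebra ℂ L] [Algebra κ L]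
    [IsScalarTower ℂ κ L] (Ψ : σ → PS κ) (p : σ → PowerSeries L) (u : PowerSeries L)
    (z : Fin 3 → PowerSeries L) (j : σ), Cen z → p j = 1 → (∀ i, p i = u * sub z (Ψ i)) →
    IsUnit u ∧ (∀ N, rk κ (cf p N) ≤ rk κ (cf z N)) ∧
    ∀ (G : MvPolynomial σ ℂ) (M : ℕ), G.IsHomogeneous M →
      MvPolynomial.aeval p G = u ^ M * sub z (MvPolynomial.aeval Ψ G)

-- deps: FIN1 JET2 ADM
def S_FIN2 : Prop :=
  ∀ (σ K κ : Type) [Field K] [Algebra ℂ K] [Field κ] [Algebra ℂ κ] (ξ : σ → K)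
    (v : AddValuation K (WithTop ℤ)) (x : σ → κ) (j : σ) (A : ℕ) (Ψ : σ → PS κ),
    Supply1 κ ξ v x j A → Supply2 κ ξ x j → Par ξ x j Ψ →
    (∀ (G : MvPolynomial σ ℂ) (M : ℕ), G.IsHomogeneous M → MvPolynomial.aeval ξ G = 0 →
      MvPolynomial.aeval Ψ G = 0) ∧
    ∀ (n M : ℕ) (G : Fin n → MvPolynomial σ ℂ), (∀ i, (G i).IsHomogeneous M) →
      LinearIndependent ℂ (fun i => MvPolynomial.aeval ξ (G i)) →
      LinearIndependent κ fun i => MvPolynomial.aeval Ψ (G i)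

-- deps: FIN1
def S_FINV : Prop :=
  ∀ (σ K κ : Type) [Field K] [Algebra ℂ K] [Field κ] [Algebra ℂ κ] (ξ : σ → K)
    (v : AddValuation K (WithTop ℤ)) (x : σ → κ) (j : σ) (A : ℕ) (Ψ : σ → PS κ),
    Supply1 κ ξ v x j A → Par ξ x j Ψ → ∀ (M lam μ : ℕ) (f : PS κ),
    f ∈ MainA.W v ξ κ Ψ M lam → JetB f μ → lam ≤ μ * A

-- deps:
def S_FINW : Prop :=
  ∀ (σ K κ : Type) [Fintype σ] [Field K] [Algebra ℂ K] [Field κ] [Algebra ℂ κ] (ξ : σ → K)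
    (v : AddValuation K (WithTop ℤ)) (Ψ : σ → PS κ), (∀ c : ℂ, 0 ≤ v (algebraMap ℂ K c)) →
    (∀ i, 0 ≤ v (ξ i)) → (∀ M, MainA.W v ξ κ Ψ M 0 = UU κ Ψ M) ∧
    ((∀ (n M : ℕ) (G : Fin n → MvPolynomial σ ℂ), (∀ i, (G i).IsHomogeneous M) →
      LinearIndependent ℂ (fun i => MvPolynomial.aeval ξ (G i)) →
      LinearIndependent κ fun i => MvPolynomial.aeval Ψ (G i)) →
    ∀ t : ℝ, 0 < t → ∀ M : ℕ, Module.finrank ℂ (vanishing v ξ t M) ≤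
      Module.finrank κ (MainA.W v ξ κ Ψ M ⌈t * M⌉₊))

-- deps:
def S_FINS : Prop :=
  ∀ (κ : Type) [Field κ] (W : ℕ → ℕ → Submodule κ (PS κ)) (G : Semi 3) (A : ℕ) (V : ℝ),
    (∀ M j γ, γ ∈ G.Γ M j ↔ ∃ f ∈ W M j, Init lexA f γ) →
    (∀ M M' j j' f g, f ∈ W M j → g ∈ W M' j' → f * g ∈ W (M + M') (j + j')) → 1 ∈ W 0 0 →
    (∀ M j, W M j ≤ W M 0) → 0 ≤ V → Loc (fun M => W M 0) V →
    (∀ M lam μ f, f ∈ W M lam → JetB f μ → lam ≤ μ * A) → ∀ M J : ℕ,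
    ((∑ j ∈ Finset.Icc 1 J, (G.Γ M j).card : ℕ) : ℝ) ≤ A * (V * ((M : ℝ) + 15) ^ 4 + 3)

-- deps: FIN2 FINV FINW FINS CONV2 ADM
def S_FIN : Prop :=
  ∀ (σ K κ : Type) [Fintype σ] [Field K] [Algebra ℂ K] [Field κ] [Algebra ℂ κ] (ξ : σ → K)
    (v : AddValuation K (WithTop ℤ)) (x : σ → κ) (j : σ) (A : ℕ) (Ψ : σ → PS κ),
    (∀ c : ℂ, 0 ≤ v (algebraMap ℂ K c)) → (∀ i, 0 ≤ v (ξ i)) → Supply1 κ ξ v x j A →
    Supply2 κ ξ x j → Par ξ x j Ψ → LocU Ψ → expectedOrder 3 v ξ ≤ A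

-- deps: BR1 BR3 SMB MOVE0
def S_PARB : Prop :=
  ∀ (l : Fin 2 → Fin 7 × Fin 7 → ℂ) (K κ : Type) [Field K] [Algebra ℂ K] [Field κ] [Algebra ℂ κ]
    [IsAlgClosed κ] (ξ : Fin 7 × Fin 7 → K) (x : Fin 7 × Fin 7 → κ) (j : Fin 7 × Fin 7),
    (∀ P : Fin 7 × Fin 7 → κ, P ≠ 0 → (∀ G ∈ equations l, MvPolynomial.aeval P G = 0) →
      Module.finrank κ (tangentSpace (equations l) P) ≤ 3 + 1) →
    (∀ G ∈ equations l, MvPolynomial.aeval ξ G = 0) → x j = 1 →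
    (∀ G ∈ equations l, MvPolynomial.aeval x G = 0) →
    ∃ Ψ : Fin 7 × Fin 7 → PS κ, LocU Ψ ∧ Par ξ x j Ψ

-- deps: BR3 NULL2 SEL ARC1 ARC2 PARB FIN
def S_MAIN : Prop :=
  ∀ l : Fin 2 → Fin 7 × Fin 7 → ℂ, SmoothOfDim 3 (equations l) →
    ValuativeCriterion 3 (Ideal.span (equations l)).radical

end Pool.Agent.P.MP_6149fc_ag.V18
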