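import Pool.Agent.P.MP_6149fc_ag.V18.BaseM
import Pool.Agent.P.MP_6149fc_ag.V18.IfaceG

section

/-! Step MOVD. -/

set_option autoImplicit false
set_option linter.unnecessarySeqFocus false
set_option linter.unusedSimpArgs false

namespace Pool.Agent.P.MP_6149fc_ag.V18

namespace MOVDx

def rSh : Fin 14 → Row :=
  ![[(1, 0, 0)], [(1, 0, 1)], [(1, 1, 1), (1, 0, 2)], [(1, 2, 1), (2, 1, 2), (1, 0, 3)], [(1, 3,
    1), (3, 2, 2), (3, 1, 3), (1, 0, 4)], [(1, 0, 5)], [(1, 1, 5), (1, 0, 6)], [(-1, 1, 5), (1, 0,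
    7)], [(1, 2, 5), (1, 1, 6), (-1, 1, 7), (1, 0, 8)], [(1, 0, 9)], [(1, 1, 9), (1, 0, 10)], [(1,
    2, 9), (2, 1, 10), (1, 0, 11)], [(1, 3, 9), (3, 2, 10), (3, 1, 11), (1, 0, 12)], [(1, 0, 13)]]

theorem eSh {C : Type} [CommRing C] (c : C) (p : Fin 14 → C) :
    Co (ap rSh c p) (p 0) (p 1) (p 2 + c * p 1) (p 3 + 2 * c * p 2 + c ^ 2 * p 1) (p 4 + 3 * c * p
      3 + 3 * c ^ 2 * p 2 + c ^ 3 * p 1) (p 5) (p 6 + c * p 5) (p 7 - c * p 5) (p 8 + c * p 6 - c
      * p 7 + c ^ 2 * p 5) (p 9) (p 10 + c * p 9) (p 11 + 2 * c * p 10 + c ^ 2 * p 9) (p 12 + 3 *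
      c * p 11 + 3 * c ^ 2 * p 10 + c ^ 3 * p 9) (p 13) := by
  refine ⟨?_, ?_, ?_, ?_, ?_, ?_, ?_, ?_, ?_, ?_, ?_, ?_, ?_, ?_⟩ <;>
    simp only [ap, rSh, Matrix.cons_val, lin] <;> ring

theorem kSh : Pres rSh := fun C _ c p h =>
  (eSh c p).kk (by linear_combination (h.q1 + c * h.q2 - c * h.q11 - c ^ 2 * h.q18))
    (by linear_combination (h.q2 - c * h.q18)) (by linear_combination (h.q3 - 2 * c * h.q4 + c *
    h.q21 + c ^ 2 * h.q23)) (by linear_combination (h.q4 - c * h.q23))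
    (by linear_combination (h.q5 + c * h.q7 + c * h.q14 + c ^ 2 * h.q16))
    (by linear_combination (h.q6)) (by linear_combination (h.q7 + c * h.q16))
    (by linear_combination (-(c * h.q7) + h.q8 - c * h.q14 - c ^ 2 * h.q16))
    (by linear_combination (c * h.q5 + c ^ 2 * h.q7 - c * h.q8 + h.q9 + 2 * c ^ 2 * h.q14 + c ^ 3
    * h.q16 + c * h.q28)) (by linear_combination (h.q10 + c ^ 2 * h.q17 + c * h.q27))
    (by linear_combination (h.q11 + c * h.q18)) (by linear_combination (-(c * h.q5) - 2 * c ^ 2 *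
    h.q7 + c * h.q8 + h.q12 - c ^ 2 * h.q14 - c ^ 3 * h.q16 + c * h.q25))
    (by linear_combination (c ^ 2 * h.q6 + h.q13 + c * h.q26)) (by linear_combination (h.q14 + c *
    h.q16)) (by linear_combination (2 * c ^ 2 * h.q5 + 2 * c ^ 3 * h.q7 - 2 * c ^ 2 * h.q8 + 2 * c
    * h.q9 - 2 * c * h.q12 + 2 * c ^ 3 * h.q14 + h.q15 + c ^ 4 * h.q16 - c ^ 2 * h.q25 + c ^ 2 *
    h.q28)) (by linear_combination (h.q16)) (by linear_combination (h.q17))
    (by linear_combination (h.q18)) (by linear_combination (2 * c * h.q4 + h.q19 - c ^ 2 * h.q23))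
    (by linear_combination (2 * c * h.q2 - c ^ 2 * h.q18 + h.q20)) (by linear_combination (h.q21))
    (by linear_combination (2 * c * h.q1 + 2 * c ^ 2 * h.q2 - c ^ 2 * h.q11 - c ^ 3 * h.q18 + c *
    h.q20 + h.q22)) (by linear_combination (h.q23)) (by linear_combination (-(2 * c * h.q3) + 3 *
    c ^ 2 * h.q4 + c * h.q19 - c ^ 2 * h.q21 - c ^ 3 * h.q23 + h.q24)) (by linear_combination (-(2
    * c * h.q7) - c ^ 2 * h.q16 + h.q25)) (by linear_combination (2 * c * h.q6 + h.q26))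
    (by linear_combination (2 * c * h.q17 + h.q27)) (by linear_combination (2 * c * h.q14 + c ^ 2
    * h.q16 + h.q28))

theorem aSh {κ : Type} [Field κ] (c : κ) : IsAut (mat rSh c) :=
  isAut_uni kSh (fun C _ c p => by
    obtain ⟨a0, a1, a2, a3, a4, a5, a6, a7, a8, a9, a10, a11, a12, a13⟩ := eSh c (ap rSh (-c) p)
    obtain ⟨b0, b1, b2, b3, b4, b5, b6, b7, b8, b9, b10, b11, b12, b13⟩ := eSh (-c) p
    refine ext14 ⟨?_, ?_, ?_, ?_, ?_, ?_, ?_, ?_, ?_, ?_, ?_, ?_, ?_, ?_⟩ <;>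
      simp only [a0, a1, a2, a3, a4, a5, a6, a7, a8, a9, a10, a11, a12, a13,
        b0, b1, b2, b3, b4, b5, b6, b7, b8, b9, b10, b11, b12, b13] <;> ring) c

def rH0 : Fin 14 → Row :=
  ![[(1, 0, 0), (-1, 1, 4)], [(1, 0, 1), (-1, 1, 6), (2, 1, 7), (-1, 2, 12)], [(1, 0, 2), (-1, 1,
    8)], [(1, 0, 3)], [(1, 0, 4)], [(1, 0, 5), (1, 1, 11)], [(1, 0, 6)], [(1, 0, 7), (-1, 1, 12)],
    [(1, 0, 8)], [(1, 0, 9), (1, 1, 13)], [(1, 0, 10)], [(1, 0, 11)], [(1, 0, 12)], [(1, 0, 13)]]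

theorem eH0 {C : Type} [CommRing C] (c : C) (p : Fin 14 → C) :
    Co (ap rH0 c p) (p 0 - c * p 4) (p 1 + 2 * c * p 7 - c * p 6 - c ^ 2 * p 12) (p 2 - c * p 8)
      (p 3) (p 4) (p 5 + c * p 11) (p 6) (p 7 - c * p 12) (p 8) (p 9 + c * p 13) (p 10) (p 11) (p
      12) (p 13) := by
  refine ⟨?_, ?_, ?_, ?_, ?_, ?_, ?_, ?_, ?_, ?_, ?_, ?_, ?_, ?_⟩ <;>
    simp only [ap, rH0, Matrix.cons_val, lin] <;> ring

theorem kH0 : Pres rH0 := fun C _ c p h =>
  (eH0 c p).kk (by linear_combination (h.q1)) (by linear_combination (h.q2 - c * h.q13))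
    (by linear_combination (h.q3 - c * h.q15)) (by linear_combination (h.q4 - c * h.q12))
    (by linear_combination (h.q5)) (by linear_combination (h.q6)) (by linear_combination (c * h.q1
    + h.q7)) (by linear_combination (h.q8 - c * h.q22)) (by linear_combination (h.q9))
    (by linear_combination (h.q10)) (by linear_combination (h.q11))
    (by linear_combination (h.q12)) (by linear_combination (h.q13)) (by linear_combination (-(c *
    h.q1) + h.q14 + c * h.q20)) (by linear_combination (h.q15)) (by linear_combination (2 * c *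
    h.q2 + c * h.q11 - c ^ 2 * h.q13 + h.q16)) (by linear_combination (2 * c * h.q3 - c ^ 2 *
    h.q15 + h.q17 + c * h.q19)) (by linear_combination (h.q18 + c * h.q26))
    (by linear_combination (h.q19)) (by linear_combination (h.q20)) (by linear_combination (-(c *
    h.q9) + h.q21)) (by linear_combination (h.q22)) (by linear_combination (c * h.q5 + 2 * c *
    h.q8 - c ^ 2 * h.q22 + h.q23 + c * h.q25)) (by linear_combination (h.q24))
    (by linear_combination (h.q25)) (by linear_combination (h.q26)) (by linear_combination (-(c *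
    h.q24) + h.q27)) (by linear_combination (-(c * h.q22) + h.q28))

theorem aH0 {κ : Type} [Field κ] (c : κ) : IsAut (mat rH0 c) :=
  isAut_uni kH0 (fun C _ c p => by
    obtain ⟨a0, a1, a2, a3, a4, a5, a6, a7, a8, a9, a10, a11, a12, a13⟩ := eH0 c (ap rH0 (-c) p)
    obtain ⟨b0, b1, b2, b3, b4, b5, b6, b7, b8, b9, b10, b11, b12, b13⟩ := eH0 (-c) p
    refine ext14 ⟨?_, ?_, ?_, ?_, ?_, ?_, ?_, ?_, ?_, ?_, ?_, ?_, ?_, ?_⟩ <;>
      simp only [a0, a1, a2, a3, a4, a5, a6, a7, a8, a9, a10, a11, a12, a13,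
        b0, b1, b2, b3, b4, b5, b6, b7, b8, b9, b10, b11, b12, b13] <;> ring) c

def rH1 : Fin 14 → Row :=
  ![[(1, 0, 0), (3, 1, 3), (-3, 2, 8), (-1, 3, 12)], [(1, 0, 1), (3, 1, 5), (-3, 2, 10), (-1, 3,
    13)], [(1, 0, 2), (1, 1, 7), (1, 2, 11)], [(1, 0, 3), (-2, 1, 8), (-1, 2, 12)], [(1, 0, 4)],
    [(1, 0, 5), (-2, 1, 10), (-1, 2, 13)], [(1, 0, 6), (1, 1, 11)], [(1, 0, 7), (2, 1, 11)], [(1,
    0, 8), (1, 1, 12)], [(1, 0, 9)], [(1, 0, 10), (1, 1, 13)], [(1, 0, 11)], [(1, 0, 12)], [(1, 0,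
    13)]]

theorem eH1 {C : Type} [CommRing C] (c : C) (p : Fin 14 → C) :
    Co (ap rH1 c p) (p 0 + 3 * c * p 3 - 3 * c ^ 2 * p 8 - c ^ 3 * p 12) (p 1 + 3 * c * p 5 - 3 *
      c ^ 2 * p 10 - c ^ 3 * p 13) (p 2 + c * p 7 + c ^ 2 * p 11) (p 3 - 2 * c * p 8 - c ^ 2 * p
      12) (p 4) (p 5 - 2 * c * p 10 - c ^ 2 * p 13) (p 6 + c * p 11) (p 7 + 2 * c * p 11) (p 8 + c
      * p 12) (p 9) (p 10 + c * p 13) (p 11) (p 12) (p 13) := by
  refine ⟨?_, ?_, ?_, ?_, ?_, ?_, ?_, ?_, ?_, ?_, ?_, ?_, ?_, ?_⟩ <;>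
    simp only [ap, rH1, Matrix.cons_val, lin] <;> ring

theorem kH1 : Pres rH1 := fun C _ c p h =>
  (eH1 c p).kk (by linear_combination (h.q1 - c * h.q13)) (by linear_combination (h.q2))
    (by linear_combination (h.q3 + c * h.q9)) (by linear_combination (-(c ^ 2 * h.q1) + h.q4 - 2 *
    c * h.q5 - c * h.q8 + c ^ 3 * h.q13 - c ^ 2 * h.q20)) (by linear_combination (h.q5 - c ^ 2 *
    h.q13 + c * h.q20)) (by linear_combination (h.q6)) (by linear_combination (c * h.q2 + h.q7 + 2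
    * c * h.q11 + c ^ 2 * h.q26)) (by linear_combination (2 * c * h.q1 + h.q8 - c ^ 2 * h.q13))
    (by linear_combination (h.q9)) (by linear_combination (h.q10 - c ^ 2 * h.q15 - c * h.q24))
    (by linear_combination (h.q11 + c * h.q26)) (by linear_combination (h.q12 - c * h.q22))
    (by linear_combination (h.q13)) (by linear_combination (c * h.q2 + h.q14))
    (by linear_combination (h.q15)) (by linear_combination (-(c ^ 2 * h.q6) + h.q16 + c * h.q18))
    (by linear_combination (2 * c * h.q4 - 3 * c ^ 2 * h.q5 + c ^ 4 * h.q13 + h.q17 - 2 * c ^ 3 *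
    h.q20 - 2 * c * h.q21 - c ^ 2 * h.q28)) (by linear_combination (-(2 * c * h.q6) + h.q18))
    (by linear_combination (-(2 * c * h.q12) + h.q19 + c ^ 2 * h.q22)) (by linear_combination (-(2
    * c * h.q13) + h.q20)) (by linear_combination (-(c ^ 2 * h.q1) + c * h.q5 - c * h.q8 - c ^ 3 *
    h.q13 + 2 * c ^ 2 * h.q20 + h.q21 + c * h.q28)) (by linear_combination (h.q22))
    (by linear_combination (2 * c ^ 2 * h.q2 + 3 * c * h.q7 + 3 * c ^ 2 * h.q11 + c * h.q14 +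
    h.q23 + c ^ 3 * h.q26)) (by linear_combination (2 * c * h.q15 + h.q24))
    (by linear_combination (-(2 * c * h.q1) + c ^ 2 * h.q13 + h.q25))
    (by linear_combination (h.q26)) (by linear_combination (2 * c * h.q3 + c ^ 2 * h.q9 - 3 * c ^
    2 * h.q12 + 3 * c * h.q19 + c ^ 3 * h.q22 + h.q27)) (by linear_combination (-(3 * c ^ 2 *
    h.q13) + 3 * c * h.q20 + h.q28))

theorem aH1 {κ : Type} [Field κ] (c : κ) : IsAut (mat rH1 c) :=
  isAut_uni kH1 (fun C _ c p => by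
    obtain ⟨a0, a1, a2, a3, a4, a5, a6, a7, a8, a9, a10, a11, a12, a13⟩ := eH1 c (ap rH1 (-c) p)
    obtain ⟨b0, b1, b2, b3, b4, b5, b6, b7, b8, b9, b10, b11, b12, b13⟩ := eH1 (-c) p
    refine ext14 ⟨?_, ?_, ?_, ?_, ?_, ?_, ?_, ?_, ?_, ?_, ?_, ?_, ?_, ?_⟩ <;>
      simp only [a0, a1, a2, a3, a4, a5, a6, a7, a8, a9, a10, a11, a12, a13,
        b0, b1, b2, b3, b4, b5, b6, b7, b8, b9, b10, b11, b12, b13] <;> ring) c

def rH2 : Fin 14 → Row :=
  ![[(1, 0, 0), (-3, 1, 2), (-3, 2, 5), (-1, 3, 9)], [(1, 0, 1)], [(1, 0, 2), (2, 1, 5), (1, 2,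
    9)], [(1, 0, 3), (1, 1, 6), (-1, 2, 10)], [(1, 0, 4), (-3, 1, 8), (3, 2, 11), (1, 3, 13)],
    [(1, 0, 5), (1, 1, 9)], [(1, 0, 6), (-2, 1, 10)], [(1, 0, 7), (-1, 1, 10)], [(1, 0, 8), (-2,
    1, 11), (-1, 2, 13)], [(1, 0, 9)], [(1, 0, 10)], [(1, 0, 11), (1, 1, 13)], [(1, 0, 12)], [(1,
    0, 13)]]

theorem eH2 {C : Type} [CommRing C] (c : C) (p : Fin 14 → C) :
    Co (ap rH2 c p) (p 0 - 3 * c * p 2 - 3 * c ^ 2 * p 5 - c ^ 3 * p 9) (p 1) (p 2 + 2 * c * p 5 +
      c ^ 2 * p 9) (p 3 + c * p 6 - c ^ 2 * p 10) (p 4 - 3 * c * p 8 + 3 * c ^ 2 * p 11 + c ^ 3 *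
      p 13) (p 5 + c * p 9) (p 6 - 2 * c * p 10) (p 7 - c * p 10) (p 8 - 2 * c * p 11 - c ^ 2 * p
      13) (p 9) (p 10) (p 11 + c * p 13) (p 12) (p 13) := by
  refine ⟨?_, ?_, ?_, ?_, ?_, ?_, ?_, ?_, ?_, ?_, ?_, ?_, ?_, ?_⟩ <;>
    simp only [ap, rH2, Matrix.cons_val, lin] <;> ring

theorem kH2 : Pres rH2 := fun C _ c p h =>
  (eH2 c p).kk (by linear_combination (h.q1)) (by linear_combination (h.q2 + c * h.q6))
    (by linear_combination (-(c ^ 2 * h.q2) + h.q3 + 2 * c * h.q5 - c ^ 3 * h.q6 + c * h.q8 + c ^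
    2 * h.q11)) (by linear_combination (h.q4 - c * h.q7)) (by linear_combination (h.q5 - c ^ 2 *
    h.q6 + c * h.q11)) (by linear_combination (h.q6)) (by linear_combination (h.q7))
    (by linear_combination (-(2 * c * h.q2) - c ^ 2 * h.q6 + h.q8)) (by linear_combination (-(c *
    h.q1) + h.q9 + 2 * c * h.q20 + c ^ 2 * h.q26)) (by linear_combination (-(3 * c ^ 2 * h.q5) + c
    ^ 4 * h.q6 + h.q10 - 2 * c ^ 3 * h.q11 + 2 * c * h.q19 + c ^ 2 * h.q25))
    (by linear_combination (-(2 * c * h.q6) + h.q11)) (by linear_combination (c * h.q1 + h.q12))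
    (by linear_combination (h.q13)) (by linear_combination (h.q14 + c * h.q18))
    (by linear_combination (-(c ^ 2 * h.q13) + h.q15 + c * h.q22)) (by linear_combination (h.q16))
    (by linear_combination (-(c ^ 2 * h.q16) + h.q17 + c * h.q23)) (by linear_combination (h.q18))
    (by linear_combination (-(3 * c * h.q5) + 2 * c ^ 3 * h.q6 - 3 * c ^ 2 * h.q11 + h.q19 + c *
    h.q25)) (by linear_combination (h.q20 + c * h.q26)) (by linear_combination (-(c * h.q7) - 2 *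
    c * h.q14 - c ^ 2 * h.q18 + h.q21)) (by linear_combination (-(2 * c * h.q13) + h.q22))
    (by linear_combination (-(2 * c * h.q16) + h.q23)) (by linear_combination (2 * c ^ 2 * h.q1 -
    3 * c * h.q9 + c * h.q12 - 3 * c ^ 2 * h.q20 + h.q24 - c ^ 3 * h.q26))
    (by linear_combination (3 * c ^ 2 * h.q6 - 3 * c * h.q11 + h.q25))
    (by linear_combination (h.q26)) (by linear_combination (c * h.q4 + c ^ 2 * h.q7 + 3 * c ^ 2 *
    h.q14 + c ^ 3 * h.q18 - 3 * c * h.q21 + h.q27)) (by linear_combination (-(2 * c * h.q2) - c ^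
    2 * h.q6 + h.q28))

theorem aH2 {κ : Type} [Field κ] (c : κ) : IsAut (mat rH2 c) :=
  isAut_uni kH2 (fun C _ c p => by
    obtain ⟨a0, a1, a2, a3, a4, a5, a6, a7, a8, a9, a10, a11, a12, a13⟩ := eH2 c (ap rH2 (-c) p)
    obtain ⟨b0, b1, b2, b3, b4, b5, b6, b7, b8, b9, b10, b11, b12, b13⟩ := eH2 (-c) p
    refine ext14 ⟨?_, ?_, ?_, ?_, ?_, ?_, ?_, ?_, ?_, ?_, ?_, ?_, ?_, ?_⟩ <;>
      simp only [a0, a1, a2, a3, a4, a5, a6, a7, a8, a9, a10, a11, a12, a13,
        b0, b1, b2, b3, b4, b5, b6, b7, b8, b9, b10, b11, b12, b13] <;> ring) c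

def rH3 : Fin 14 → Row :=
  ![[(1, 0, 0), (1, 1, 1)], [(1, 0, 1)], [(1, 0, 2)], [(1, 0, 3), (1, 1, 5)], [(1, 0, 4), (2, 1,
    6), (-1, 1, 7), (1, 2, 9)], [(1, 0, 5)], [(1, 0, 6), (1, 1, 9)], [(1, 0, 7)], [(1, 0, 8), (1,
    1, 10)], [(1, 0, 9)], [(1, 0, 10)], [(1, 0, 11)], [(1, 0, 12), (1, 1, 13)], [(1, 0, 13)]]

theorem eH3 {C : Type} [CommRing C] (c : C) (p : Fin 14 → C) :
    Co (ap rH3 c p) (p 0 + c * p 1) (p 1) (p 2) (p 3 + c * p 5) (p 4 + 2 * c * p 6 - c * p 7 + c ^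
      2 * p 9) (p 5) (p 6 + c * p 9) (p 7) (p 8 + c * p 10) (p 9) (p 10) (p 11) (p 12 + c * p 13)
      (p 13) := by
  refine ⟨?_, ?_, ?_, ?_, ?_, ?_, ?_, ?_, ?_, ?_, ?_, ?_, ?_, ?_⟩ <;>
    simp only [ap, rH3, Matrix.cons_val, lin] <;> ring

theorem kH3 : Pres rH3 := fun C _ c p h =>
  (eH3 c p).kk (by linear_combination (h.q1 + c * h.q6)) (by linear_combination (h.q2))
    (by linear_combination (h.q3 - c * h.q14)) (by linear_combination (h.q4 + c * h.q16))
    (by linear_combination (h.q5)) (by linear_combination (h.q6)) (by linear_combination (h.q7))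
    (by linear_combination (h.q8 - c * h.q18)) (by linear_combination (-(c * h.q2) + h.q9))
    (by linear_combination (-(c * h.q4) + h.q10 - c ^ 2 * h.q16 - c * h.q21))
    (by linear_combination (h.q11)) (by linear_combination (-(c * h.q2) - c * h.q11 + h.q12))
    (by linear_combination (h.q13)) (by linear_combination (h.q14)) (by linear_combination (-(2 *
    c * h.q1) - c ^ 2 * h.q6 + h.q15 + c * h.q20)) (by linear_combination (h.q16))
    (by linear_combination (h.q17)) (by linear_combination (h.q18)) (by linear_combination (c *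
    h.q7 + c * h.q14 + h.q19)) (by linear_combination (h.q20)) (by linear_combination (c * h.q16 +
    h.q21)) (by linear_combination (h.q22 + c * h.q26)) (by linear_combination (h.q23))
    (by linear_combination (-(c * h.q5) - 2 * c * h.q8 + c ^ 2 * h.q18 + h.q24 + c * h.q28))
    (by linear_combination (c * h.q18 + h.q25)) (by linear_combination (h.q26))
    (by linear_combination (c * h.q23 + h.q27)) (by linear_combination (h.q28))

theorem aH3 {κ : Type} [Field κ] (c : κ) : IsAut (mat rH3 c) :=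
  isAut_uni kH3 (fun C _ c p => by
    obtain ⟨a0, a1, a2, a3, a4, a5, a6, a7, a8, a9, a10, a11, a12, a13⟩ := eH3 c (ap rH3 (-c) p)
    obtain ⟨b0, b1, b2, b3, b4, b5, b6, b7, b8, b9, b10, b11, b12, b13⟩ := eH3 (-c) p
    refine ext14 ⟨?_, ?_, ?_, ?_, ?_, ?_, ?_, ?_, ?_, ?_, ?_, ?_, ?_, ?_⟩ <;>
      simp only [a0, a1, a2, a3, a4, a5, a6, a7, a8, a9, a10, a11, a12, a13,
        b0, b1, b2, b3, b4, b5, b6, b7, b8, b9, b10, b11, b12, b13] <;> ring) c

def rSw : Fin 14 → Row :=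
  ![[(1, 0, 0)], [(1, 0, 4)], [(1, 0, 3)], [(1, 0, 2)], [(1, 0, 1)], [(1, 0, 8)], [(-1, 0, 7)],
    [(-1, 0, 6)], [(1, 0, 5)], [(-1, 0, 12)], [(-1, 0, 11)], [(-1, 0, 10)], [(-1, 0, 9)], [(1, 0,
    13)]]

theorem eSw {C : Type} [CommRing C] (c : C) (p : Fin 14 → C) :
    Co (ap rSw c p) (p 0) (p 4) (p 3) (p 2) (p 1) (p 8) (-p 7) (-p 6) (p 5) (-p 12) (-p 11) (-p
      10) (-p 9) (p 13) := by
  refine ⟨?_, ?_, ?_, ?_, ?_, ?_, ?_, ?_, ?_, ?_, ?_, ?_, ?_, ?_⟩ <;>
    simp only [ap, rSw, Matrix.cons_val, lin] <;> ring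

theorem kSw : Pres rSw := fun C _ c p h =>
  (eSw c p).kk (by linear_combination (h.q2)) (by linear_combination (h.q1))
    (by linear_combination (h.q4)) (by linear_combination (h.q3)) (by linear_combination (h.q5))
    (by linear_combination (h.q13)) (by linear_combination (h.q9)) (by linear_combination (h.q8))
    (by linear_combination (h.q7)) (by linear_combination (h.q17))
    (by linear_combination (-h.q20)) (by linear_combination (-h.q14))
    (by linear_combination (h.q6)) (by linear_combination (-h.q12))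
    (by linear_combination (h.q16)) (by linear_combination (h.q15))
    (by linear_combination (h.q10)) (by linear_combination (-h.q22)) (by linear_combination (-h.q4
    + h.q21)) (by linear_combination (-h.q11)) (by linear_combination (h.q3 + h.q19))
    (by linear_combination (-h.q18)) (by linear_combination (h.q24))
    (by linear_combination (h.q23)) (by linear_combination (-h.q28))
    (by linear_combination (h.q26)) (by linear_combination (h.q27))
    (by linear_combination (-h.q25))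

theorem iSw (C : Type) [CommRing C] (c d : C) (p : Fin 14 → C) (_h : c * d = 1) :
    ap rSw c (ap rSw d p) = p := by
  obtain ⟨a0, a1, a2, a3, a4, a5, a6, a7, a8, a9, a10, a11, a12, a13⟩ := eSw c (ap rSw d p)
  obtain ⟨b0, b1, b2, b3, b4, b5, b6, b7, b8, b9, b10, b11, b12, b13⟩ := eSw d p
  refine ext14 ⟨?_, ?_, ?_, ?_, ?_, ?_, ?_, ?_, ?_, ?_, ?_, ?_, ?_, ?_⟩ <;>
    simp only [a0, a1, a2, a3, a4, a5, a6, a7, a8, a9, a10, a11, a12, a13,
      b0, b1, b2, b3, b4, b5, b6, b7, b8, b9, b10, b11, b12, b13, neg_neg,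
      sub_neg_eq_add, sub_add_cancel, sub_sub_cancel, neg_sub, sub_add_sub_cancel, add_sub_cancel_right,
      neg_add_cancel_comm, sub_sub_cancel_left, add_sub_cancel_left]

theorem aSw {κ : Type} [Field κ] {c : κ} (hc : c ≠ 0) : IsAut (mat rSw c) :=
  isAut_mul kSw kSw iSw iSw hc

def rTo : Fin 14 → Row :=
  ![[(1, 0, 0)], [(1, 0, 1)], [(1, 1, 2)], [(1, 2, 3)], [(1, 3, 4)], [(1, 2, 5)], [(1, 3, 6)],
    [(1, 3, 7)], [(1, 4, 8)], [(1, 3, 9)], [(1, 4, 10)], [(1, 5, 11)], [(1, 6, 12)], [(1, 6, 13)]]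

theorem eTo {C : Type} [CommRing C] (c : C) (p : Fin 14 → C) :
    Co (ap rTo c p) (p 0) (p 1) (c * p 2) (c ^ 2 * p 3) (c ^ 3 * p 4) (c ^ 2 * p 5) (c ^ 3 * p 6)
      (c ^ 3 * p 7) (c ^ 4 * p 8) (c ^ 3 * p 9) (c ^ 4 * p 10) (c ^ 5 * p 11) (c ^ 6 * p 12) (c ^
      6 * p 13) := by
  refine ⟨?_, ?_, ?_, ?_, ?_, ?_, ?_, ?_, ?_, ?_, ?_, ?_, ?_, ?_⟩ <;>
    simp only [ap, rTo, Matrix.cons_val, lin] <;> ring

theorem kTo : Pres rTo := fun C _ c p h =>
  (eTo c p).kk (by linear_combination (c ^ 8 * h.q1)) (by linear_combination (c ^ 7 * h.q2))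
    (by linear_combination (c ^ 5 * h.q3)) (by linear_combination (c ^ 4 * h.q4))
    (by linear_combination (c ^ 6 * h.q5)) (by linear_combination (c ^ 8 * h.q6))
    (by linear_combination (c ^ 5 * h.q7)) (by linear_combination (c ^ 6 * h.q8))
    (by linear_combination (c ^ 7 * h.q9)) (by linear_combination (c ^ 4 * h.q10))
    (by linear_combination (c ^ 7 * h.q11)) (by linear_combination (c ^ 7 * h.q12))
    (by linear_combination (c ^ 10 * h.q13)) (by linear_combination (c ^ 5 * h.q14))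
    (by linear_combination (c ^ 8 * h.q15)) (by linear_combination (c ^ 4 * h.q16))
    (by linear_combination (c ^ 2 * h.q17)) (by linear_combination (c ^ 6 * h.q18))
    (by linear_combination (c ^ 5 * h.q19)) (by linear_combination (c ^ 8 * h.q20))
    (by linear_combination (c ^ 4 * h.q21)) (by linear_combination (c ^ 9 * h.q22))
    (by linear_combination (c ^ 3 * h.q23)) (by linear_combination (c ^ 6 * h.q24))
    (by linear_combination (c ^ 6 * h.q25)) (by linear_combination (c ^ 9 * h.q26))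
    (by linear_combination (c ^ 3 * h.q27)) (by linear_combination (c ^ 6 * h.q28))

theorem iTo (C : Type) [CommRing C] (c d : C) (p : Fin 14 → C) (h : c * d = 1) :
    ap rTo c (ap rTo d p) = p := by
  obtain ⟨a0, a1, a2, a3, a4, a5, a6, a7, a8, a9, a10, a11, a12, a13⟩ := eTo c (ap rTo d p)
  obtain ⟨b0, b1, b2, b3, b4, b5, b6, b7, b8, b9, b10, b11, b12, b13⟩ := eTo d p
  have hn : ∀ (n : ℕ) (x : C), c ^ n * (d ^ n * x) = x := fun n x => by
    rw [← mul_assoc, ← mul_pow, h, one_pow, one_mul]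
  have h1 : ∀ x : C, c * (d * x) = x := fun x => by rw [← mul_assoc, h, one_mul]
  refine ext14 ⟨?_, ?_, ?_, ?_, ?_, ?_, ?_, ?_, ?_, ?_, ?_, ?_, ?_, ?_⟩ <;>
    simp only [a0, a1, a2, a3, a4, a5, a6, a7, a8, a9, a10, a11, a12, a13,
      b0, b1, b2, b3, b4, b5, b6, b7, b8, b9, b10, b11, b12, b13, hn, h1, neg_neg,
      sub_neg_eq_add, sub_add_cancel, sub_sub_cancel, neg_sub, sub_add_sub_cancel, add_sub_cancel_right,
      neg_add_cancel_comm, sub_sub_cancel_left, add_sub_cancel_left]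

theorem aTo {κ : Type} [Field κ] {c : κ} (hc : c ≠ 0) : IsAut (mat rTo c) :=
  isAut_mul kTo kTo iTo iTo hc

theorem mv {κ : Type} [Field κ] {R : Fin 14 → Row} {c : κ} {φ : (Fin 5 → κ) → Fin 5 → κ}
    (h : IsAut (mat R c)) (h0 : ap R c (e0 κ) = e0 κ)
    (hl : ∀ l : Fin 14 → κ, l 0 = 0 → pull (mat R c) l 1 = φ (Lin l) 0 ∧
      pull (mat R c) l 2 = φ (Lin l) 1 ∧ pull (mat R c) l 3 = φ (Lin l) 2 ∧
      pull (mat R c) l 4 = φ (Lin l) 3 ∧
      pull (mat R c) l 6 + pull (mat R c) l 7 = φ (Lin l) 4) : Mv φ :=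
  ⟨_, h, (act_mat' _ _ _).trans h0, fun l h1 => by
    obtain ⟨a0, a1, a2, a3, a4⟩ := hl l h1
    funext i
    fin_cases i <;> assumption⟩

theorem mSh {κ : Type} [Field κ] (c : κ) : Mv (shf c) := by
  refine mv (aSh c) ?_ fun l h0 => ?_
  · obtain ⟨a0, a1, a2, a3, a4, a5, a6, a7, a8, a9, a10, a11, a12, a13⟩ := eSh c (e0 κ)
    refine ext14 ⟨?_, ?_, ?_, ?_, ?_, ?_, ?_, ?_, ?_, ?_, ?_, ?_, ?_, ?_⟩ <;>
      simp only [a0, a1, a2, a3, a4, a5, a6, a7, a8, a9, a10, a11, a12, a13] <;> simp [e0]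
  · have e := fun p : Fin 14 → κ => eSh c p
    simp only [Co, forall_and] at e
    obtain ⟨a0, a1, a2, a3, a4, a5, a6, a7, a8, a9, a10, a11, a12, a13⟩ := e
    refine ⟨?_, ?_, ?_, ?_, ?_⟩ <;>
      simp only [pull_mat, sum14, a0, a1, a2, a3, a4, a5, a6, a7, a8, a9, a10, a11, a12, a13, h0] <;>
      simp [shf, Lin] <;> ring

theorem mH0 {κ : Type} [Field κ] (c : κ) : Mv (hei 0 c) := by
  refine mv (aH0 c) ?_ fun l h0 => ?_
  · obtain ⟨a0, a1, a2, a3, a4, a5, a6, a7, a8, a9, a10, a11, a12, a13⟩ := eH0 c (e0 κ)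
    refine ext14 ⟨?_, ?_, ?_, ?_, ?_, ?_, ?_, ?_, ?_, ?_, ?_, ?_, ?_, ?_⟩ <;>
      simp only [a0, a1, a2, a3, a4, a5, a6, a7, a8, a9, a10, a11, a12, a13] <;> simp [e0]
  · have e := fun p : Fin 14 → κ => eH0 c p
    simp only [Co, forall_and] at e
    obtain ⟨a0, a1, a2, a3, a4, a5, a6, a7, a8, a9, a10, a11, a12, a13⟩ := e
    refine ⟨?_, ?_, ?_, ?_, ?_⟩ <;>
      simp only [pull_mat, sum14, a0, a1, a2, a3, a4, a5, a6, a7, a8, a9, a10, a11, a12, a13, h0] <;>
      simp [hei, Lin] <;> ring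

theorem mH1 {κ : Type} [Field κ] (c : κ) : Mv (hei 1 c) := by
  refine mv (aH1 c) ?_ fun l h0 => ?_
  · obtain ⟨a0, a1, a2, a3, a4, a5, a6, a7, a8, a9, a10, a11, a12, a13⟩ := eH1 c (e0 κ)
    refine ext14 ⟨?_, ?_, ?_, ?_, ?_, ?_, ?_, ?_, ?_, ?_, ?_, ?_, ?_, ?_⟩ <;>
      simp only [a0, a1, a2, a3, a4, a5, a6, a7, a8, a9, a10, a11, a12, a13] <;> simp [e0]
  · have e := fun p : Fin 14 → κ => eH1 c p
    simp only [Co, forall_and] at e
    obtain ⟨a0, a1, a2, a3, a4, a5, a6, a7, a8, a9, a10, a11, a12, a13⟩ := e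
    refine ⟨?_, ?_, ?_, ?_, ?_⟩ <;>
      simp only [pull_mat, sum14, a0, a1, a2, a3, a4, a5, a6, a7, a8, a9, a10, a11, a12, a13, h0] <;>
      simp [hei, Lin] <;> ring

theorem mH2 {κ : Type} [Field κ] (c : κ) : Mv (hei 2 c) := by
  refine mv (aH2 c) ?_ fun l h0 => ?_
  · obtain ⟨a0, a1, a2, a3, a4, a5, a6, a7, a8, a9, a10, a11, a12, a13⟩ := eH2 c (e0 κ)
    refine ext14 ⟨?_, ?_, ?_, ?_, ?_, ?_, ?_, ?_, ?_, ?_, ?_, ?_, ?_, ?_⟩ <;>
      simp only [a0, a1, a2, a3, a4, a5, a6, a7, a8, a9, a10, a11, a12, a13] <;> simp [e0]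
  · have e := fun p : Fin 14 → κ => eH2 c p
    simp only [Co, forall_and] at e
    obtain ⟨a0, a1, a2, a3, a4, a5, a6, a7, a8, a9, a10, a11, a12, a13⟩ := e
    refine ⟨?_, ?_, ?_, ?_, ?_⟩ <;>
      simp only [pull_mat, sum14, a0, a1, a2, a3, a4, a5, a6, a7, a8, a9, a10, a11, a12, a13, h0] <;>
      simp [hei, Lin] <;> ring

theorem mH3 {κ : Type} [Field κ] (c : κ) : Mv (hei 3 c) := by
  refine mv (aH3 c) ?_ fun l h0 => ?_
  · obtain ⟨a0, a1, a2, a3, a4, a5, a6, a7, a8, a9, a10, a11, a12, a13⟩ := eH3 c (e0 κ)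
    refine ext14 ⟨?_, ?_, ?_, ?_, ?_, ?_, ?_, ?_, ?_, ?_, ?_, ?_, ?_, ?_⟩ <;>
      simp only [a0, a1, a2, a3, a4, a5, a6, a7, a8, a9, a10, a11, a12, a13] <;> simp [e0]
  · have e := fun p : Fin 14 → κ => eH3 c p
    simp only [Co, forall_and] at e
    obtain ⟨a0, a1, a2, a3, a4, a5, a6, a7, a8, a9, a10, a11, a12, a13⟩ := e
    refine ⟨?_, ?_, ?_, ?_, ?_⟩ <;>
      simp only [pull_mat, sum14, a0, a1, a2, a3, a4, a5, a6, a7, a8, a9, a10, a11, a12, a13, h0] <;>
      simp [hei, Lin] <;> ring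

theorem mSw {κ : Type} [Field κ] (c : κ) (hc : c ≠ 0) : Mv (swp (κ := κ)) := by
  refine mv (aSw hc) ?_ fun l h0 => ?_
  · obtain ⟨a0, a1, a2, a3, a4, a5, a6, a7, a8, a9, a10, a11, a12, a13⟩ := eSw c (e0 κ)
    refine ext14 ⟨?_, ?_, ?_, ?_, ?_, ?_, ?_, ?_, ?_, ?_, ?_, ?_, ?_, ?_⟩ <;>
      simp only [a0, a1, a2, a3, a4, a5, a6, a7, a8, a9, a10, a11, a12, a13] <;> simp [e0]
  · have e := fun p : Fin 14 → κ => eSw c p
    simp only [Co, forall_and] at e
    obtain ⟨a0, a1, a2, a3, a4, a5, a6, a7, a8, a9, a10, a11, a12, a13⟩ := e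
    refine ⟨?_, ?_, ?_, ?_, ?_⟩ <;>
      simp only [pull_mat, sum14, a0, a1, a2, a3, a4, a5, a6, a7, a8, a9, a10, a11, a12, a13, h0] <;>
      simp [swp, Lin] <;> ring

theorem mTo {κ : Type} [Field κ] (c : κ) (hc : c ≠ 0) : Mv (tor c) := by
  refine mv (aTo hc) ?_ fun l h0 => ?_
  · obtain ⟨a0, a1, a2, a3, a4, a5, a6, a7, a8, a9, a10, a11, a12, a13⟩ := eTo c (e0 κ)
    refine ext14 ⟨?_, ?_, ?_, ?_, ?_, ?_, ?_, ?_, ?_, ?_, ?_, ?_, ?_, ?_⟩ <;>
      simp only [a0, a1, a2, a3, a4, a5, a6, a7, a8, a9, a10, a11, a12, a13] <;> simp [e0]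
  · have e := fun p : Fin 14 → κ => eTo c p
    simp only [Co, forall_and] at e
    obtain ⟨a0, a1, a2, a3, a4, a5, a6, a7, a8, a9, a10, a11, a12, a13⟩ := e
    refine ⟨?_, ?_, ?_, ?_, ?_⟩ <;>
      simp only [pull_mat, sum14, a0, a1, a2, a3, a4, a5, a6, a7, a8, a9, a10, a11, a12, a13, h0] <;>
      simp [tor, Lin] <;> ring

end MOVDx

open MOVDx in
theorem p_MOVD :
    S_MOVD := by
  intro κ _
  refine ⟨mSh, mSw 1 one_ne_zero, mTo, fun i c => ?_⟩
  fin_cases i
  exacts [mH0 c, mH1 c, mH2 c, mH3 c]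

end Pool.Agent.P.MP_6149fc_ag.V18

end

section

/-! Step TRD. -/

set_option autoImplicit false
set_option linter.unnecessarySeqFocus false
set_option linter.unusedSimpArgs false

namespace Pool.Agent.P.MP_6149fc_ag.V18

namespace TRDx

def rTx : Fin 14 → Row :=
  ![[(1, 0, 0)], [(1, 1, 0), (1, 0, 1)], [(1, 0, 2)], [(1, 0, 3)], [(1, 0, 4)], [(1, 1, 3), (1, 0,
    5)], [(1, 1, 4), (1, 0, 6)], [(1, 0, 7)], [(1, 0, 8)], [(1, 2, 4), (2, 1, 6), (-1, 1, 7), (1,
    0, 9)], [(1, 1, 8), (1, 0, 10)], [(1, 0, 11)], [(1, 0, 12)], [(1, 1, 12), (1, 0, 13)]]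

theorem eTx {C : Type} [CommRing C] (c : C) (p : Fin 14 → C) :
    Co (ap rTx c p) (p 0) (p 1 + c * p 0) (p 2) (p 3) (p 4) (p 5 + c * p 3) (p 6 + c * p 4) (p 7)
      (p 8) (p 9 + 2 * c * p 6 - c * p 7 + c ^ 2 * p 4) (p 10 + c * p 8) (p 11) (p 12) (p 13 + c *
      p 12) := by
  refine ⟨?_, ?_, ?_, ?_, ?_, ?_, ?_, ?_, ?_, ?_, ?_, ?_, ?_, ?_⟩ <;>
    simp only [ap, rTx, Matrix.cons_val, lin] <;> ring

theorem kTx : Pres rTx := fun C _ c p h =>
  (eTx c p).kk (by linear_combination (h.q1 - c * h.q15)) (by linear_combination (h.q2 - c *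
    h.q9)) (by linear_combination (h.q3)) (by linear_combination (h.q4 - c * h.q10))
    (by linear_combination (h.q5)) (by linear_combination (2 * c * h.q1 + h.q6 - c ^ 2 * h.q15 - c
    * h.q20)) (by linear_combination (c * h.q3 + h.q7 + c * h.q19)) (by linear_combination (h.q8 -
    c * h.q24)) (by linear_combination (h.q9)) (by linear_combination (h.q10))
    (by linear_combination (c * h.q9 + h.q11 - c * h.q12)) (by linear_combination (h.q12))
    (by linear_combination (h.q13)) (by linear_combination (-(c * h.q3) + h.q14))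
    (by linear_combination (h.q15)) (by linear_combination (c * h.q4 - c ^ 2 * h.q10 + h.q16 + c *
    h.q21)) (by linear_combination (h.q17)) (by linear_combination (-(c * h.q5) - 2 * c * h.q8 +
    h.q18 + c ^ 2 * h.q24 + c * h.q28)) (by linear_combination (h.q19))
    (by linear_combination (h.q20)) (by linear_combination (-(c * h.q10) + h.q21))
    (by linear_combination (h.q22)) (by linear_combination (h.q23 + c * h.q27))
    (by linear_combination (h.q24)) (by linear_combination (c * h.q24 + h.q25))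
    (by linear_combination (c * h.q22 + h.q26)) (by linear_combination (h.q27))
    (by linear_combination (h.q28))

theorem aTx {κ : Type} [Field κ] (c : κ) : IsAut (mat rTx c) :=
  isAut_uni kTx (fun C _ c p => by
    obtain ⟨a0, a1, a2, a3, a4, a5, a6, a7, a8, a9, a10, a11, a12, a13⟩ := eTx c (ap rTx (-c) p)
    obtain ⟨b0, b1, b2, b3, b4, b5, b6, b7, b8, b9, b10, b11, b12, b13⟩ := eTx (-c) p
    refine ext14 ⟨?_, ?_, ?_, ?_, ?_, ?_, ?_, ?_, ?_, ?_, ?_, ?_, ?_, ?_⟩ <;>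
      simp only [a0, a1, a2, a3, a4, a5, a6, a7, a8, a9, a10, a11, a12, a13,
        b0, b1, b2, b3, b4, b5, b6, b7, b8, b9, b10, b11, b12, b13] <;> ring) c

def rTy : Fin 14 → Row :=
  ![[(1, 0, 0)], [(1, 0, 1)], [(1, 1, 0), (1, 0, 2)], [(1, 0, 3)], [(1, 0, 4)], [(-1, 2, 0), (-2,
    1, 2), (1, 0, 5)], [(-2, 1, 3), (1, 0, 6)], [(-1, 1, 3), (1, 0, 7)], [(1, 1, 4), (1, 0, 8)],
    [(1, 3, 0), (3, 2, 2), (-3, 1, 5), (1, 0, 9)], [(-1, 2, 3), (1, 1, 6), (1, 0, 10)], [(1, 2,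
    4), (2, 1, 8), (1, 0, 11)], [(1, 0, 12)], [(-1, 3, 4), (-3, 2, 8), (-3, 1, 11), (1, 0, 13)]]

theorem eTy {C : Type} [CommRing C] (c : C) (p : Fin 14 → C) :
    Co (ap rTy c p) (p 0) (p 1) (p 2 + c * p 0) (p 3) (p 4) (p 5 - 2 * c * p 2 - c ^ 2 * p 0) (p 6
      - 2 * c * p 3) (p 7 - c * p 3) (p 8 + c * p 4) (p 9 - 3 * c * p 5 + 3 * c ^ 2 * p 2 + c ^ 3
      * p 0) (p 10 + c * p 6 - c ^ 2 * p 3) (p 11 + 2 * c * p 8 + c ^ 2 * p 4) (p 12) (p 13 - 3 *
      c * p 11 - 3 * c ^ 2 * p 8 - c ^ 3 * p 4) := by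
  refine ⟨?_, ?_, ?_, ?_, ?_, ?_, ?_, ?_, ?_, ?_, ?_, ?_, ?_, ?_⟩ <;>
    simp only [ap, rTy, Matrix.cons_val, lin] <;> ring

theorem kTy : Pres rTy := fun C _ c p h =>
  (eTy c p).kk (by linear_combination (h.q1 - c * h.q12)) (by linear_combination (h.q2 - c ^ 2 *
    h.q3 + 2 * c * h.q5 + c * h.q8 - c ^ 3 * h.q10 + c ^ 2 * h.q19)) (by linear_combination (h.q3
    + c * h.q10)) (by linear_combination (h.q4)) (by linear_combination (h.q5 - c ^ 2 * h.q10 + c
    * h.q19)) (by linear_combination (-(3 * c ^ 2 * h.q5) + h.q6 + c ^ 4 * h.q10 + 2 * c * h.q11 -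
    2 * c ^ 3 * h.q19 + c ^ 2 * h.q25)) (by linear_combination (c * h.q4 + h.q7))
    (by linear_combination (-(2 * c * h.q3) + h.q8 - c ^ 2 * h.q10)) (by linear_combination (h.q9
    + c * h.q24)) (by linear_combination (h.q10)) (by linear_combination (-(3 * c * h.q5) + 2 * c
    ^ 3 * h.q10 + h.q11 - 3 * c ^ 2 * h.q19 + c * h.q25)) (by linear_combination (h.q12))
    (by linear_combination (h.q13 - c ^ 2 * h.q15 + c * h.q22)) (by linear_combination (-(c *
    h.q4) + h.q14 + 2 * c * h.q21 + c ^ 2 * h.q27)) (by linear_combination (h.q15))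
    (by linear_combination (h.q16 - c ^ 2 * h.q17 + c * h.q23)) (by linear_combination (h.q17))
    (by linear_combination (c ^ 2 * h.q4 - c * h.q7 - 3 * c * h.q14 + h.q18 - 3 * c ^ 2 * h.q21 -
    c ^ 3 * h.q27)) (by linear_combination (-(2 * c * h.q10) + h.q19)) (by linear_combination (-(2
    * c * h.q9) + h.q20 - c ^ 2 * h.q24)) (by linear_combination (h.q21 + c * h.q27))
    (by linear_combination (-(2 * c * h.q15) + h.q22)) (by linear_combination (-(2 * c * h.q17) +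
    h.q23)) (by linear_combination (h.q24)) (by linear_combination (3 * c ^ 2 * h.q10 - 3 * c *
    h.q19 + h.q25)) (by linear_combination (2 * c * h.q1 + 3 * c ^ 2 * h.q9 - c ^ 2 * h.q12 - 3 *
    c * h.q20 + c ^ 3 * h.q24 + h.q26)) (by linear_combination (h.q27))
    (by linear_combination (-(2 * c * h.q3) - c ^ 2 * h.q10 + h.q28))

theorem aTy {κ : Type} [Field κ] (c : κ) : IsAut (mat rTy c) :=
  isAut_uni kTy (fun C _ c p => by
    obtain ⟨a0, a1, a2, a3, a4, a5, a6, a7, a8, a9, a10, a11, a12, a13⟩ := eTy c (ap rTy (-c) p)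
    obtain ⟨b0, b1, b2, b3, b4, b5, b6, b7, b8, b9, b10, b11, b12, b13⟩ := eTy (-c) p
    refine ext14 ⟨?_, ?_, ?_, ?_, ?_, ?_, ?_, ?_, ?_, ?_, ?_, ?_, ?_, ?_⟩ <;>
      simp only [a0, a1, a2, a3, a4, a5, a6, a7, a8, a9, a10, a11, a12, a13,
        b0, b1, b2, b3, b4, b5, b6, b7, b8, b9, b10, b11, b12, b13] <;> ring) c

def rTz : Fin 14 → Row :=
  ![[(1, 0, 0)], [(1, 0, 1)], [(1, 0, 2)], [(1, 1, 0), (1, 0, 3)], [(1, 0, 4)], [(1, 1, 1), (1, 0,
    5)], [(1, 1, 2), (1, 0, 6)], [(2, 1, 2), (1, 0, 7)], [(-1, 2, 0), (-2, 1, 3), (1, 0, 8)], [(1,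
    0, 9)], [(-1, 2, 1), (-2, 1, 5), (1, 0, 10)], [(1, 2, 2), (1, 1, 7), (1, 0, 11)], [(-1, 3, 0),
    (-3, 2, 3), (3, 1, 8), (1, 0, 12)], [(-1, 3, 1), (-3, 2, 5), (3, 1, 10), (1, 0, 13)]]

theorem eTz {C : Type} [CommRing C] (c : C) (p : Fin 14 → C) :
    Co (ap rTz c p) (p 0) (p 1) (p 2) (p 3 + c * p 0) (p 4) (p 5 + c * p 1) (p 6 + c * p 2) (p 7 +
      2 * c * p 2) (p 8 - 2 * c * p 3 - c ^ 2 * p 0) (p 9) (p 10 - 2 * c * p 5 - c ^ 2 * p 1) (p
      11 + c * p 7 + c ^ 2 * p 2) (p 12 + 3 * c * p 8 - 3 * c ^ 2 * p 3 - c ^ 3 * p 0) (p 13 + 3 *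
      c * p 10 - 3 * c ^ 2 * p 5 - c ^ 3 * p 1) := by
  refine ⟨?_, ?_, ?_, ?_, ?_, ?_, ?_, ?_, ?_, ?_, ?_, ?_, ?_, ?_⟩ <;>
    simp only [ap, rTz, Matrix.cons_val, lin] <;> ring

theorem kTz : Pres rTz := fun C _ c p h =>
  (eTz c p).kk (by linear_combination (h.q1 - 2 * c ^ 2 * h.q4 + 2 * c * h.q5 + c * h.q8 - c ^ 3 *
    h.q17 + c ^ 2 * h.q21)) (by linear_combination (h.q2 + c * h.q14))
    (by linear_combination (h.q3)) (by linear_combination (h.q4 + c * h.q17))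
    (by linear_combination (-(c * h.q4) + h.q5 - c ^ 2 * h.q17 + c * h.q21))
    (by linear_combination (h.q6 - c ^ 2 * h.q16 - c * h.q18)) (by linear_combination (h.q7 + c *
    h.q23)) (by linear_combination (-(2 * c * h.q4) + h.q8 - c ^ 2 * h.q17))
    (by linear_combination (c * h.q3 + h.q9)) (by linear_combination (h.q10))
    (by linear_combination (2 * c * h.q7 + h.q11 + c ^ 2 * h.q23)) (by linear_combination (-(c *
    h.q3) + h.q12 - 2 * c * h.q19 - c ^ 2 * h.q27)) (by linear_combination (2 * c ^ 3 * h.q4 - 3 *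
    c ^ 2 * h.q5 + h.q13 + c ^ 4 * h.q17 - 2 * c * h.q20 - 2 * c ^ 3 * h.q21 - c ^ 2 * h.q28))
    (by linear_combination (h.q14)) (by linear_combination (-(c ^ 2 * h.q10) + h.q15 + c * h.q24))
    (by linear_combination (h.q16)) (by linear_combination (h.q17)) (by linear_combination (2 * c
    * h.q16 + h.q18)) (by linear_combination (h.q19 + c * h.q27)) (by linear_combination (-(3 * c
    ^ 2 * h.q4) + 3 * c * h.q5 - 2 * c ^ 3 * h.q17 + h.q20 + 3 * c ^ 2 * h.q21 + c * h.q28))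
    (by linear_combination (-(c * h.q17) + h.q21)) (by linear_combination (2 * c ^ 2 * h.q3 + c *
    h.q9 - 3 * c * h.q12 + 3 * c ^ 2 * h.q19 + h.q22 + c ^ 3 * h.q27))
    (by linear_combination (h.q23)) (by linear_combination (-(2 * c * h.q10) + h.q24))
    (by linear_combination (2 * c * h.q4 + c ^ 2 * h.q17 + h.q25)) (by linear_combination (2 * c *
    h.q2 + 3 * c ^ 2 * h.q7 + 3 * c * h.q11 + c ^ 2 * h.q14 + c ^ 3 * h.q23 + h.q26))
    (by linear_combination (h.q27)) (by linear_combination (-(3 * c * h.q4) - 3 * c ^ 2 * h.q17 +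
    3 * c * h.q21 + h.q28))

theorem aTz {κ : Type} [Field κ] (c : κ) : IsAut (mat rTz c) :=
  isAut_uni kTz (fun C _ c p => by
    obtain ⟨a0, a1, a2, a3, a4, a5, a6, a7, a8, a9, a10, a11, a12, a13⟩ := eTz c (ap rTz (-c) p)
    obtain ⟨b0, b1, b2, b3, b4, b5, b6, b7, b8, b9, b10, b11, b12, b13⟩ := eTz (-c) p
    refine ext14 ⟨?_, ?_, ?_, ?_, ?_, ?_, ?_, ?_, ?_, ?_, ?_, ?_, ?_, ?_⟩ <;>
      simp only [a0, a1, a2, a3, a4, a5, a6, a7, a8, a9, a10, a11, a12, a13,
        b0, b1, b2, b3, b4, b5, b6, b7, b8, b9, b10, b11, b12, b13] <;> ring) c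

def rTw : Fin 14 → Row :=
  ![[(1, 0, 0)], [(1, 0, 1)], [(1, 0, 2)], [(1, 0, 3)], [(1, 1, 0), (1, 0, 4)], [(1, 0, 5)], [(1,
    0, 6)], [(-1, 1, 1), (1, 0, 7)], [(1, 1, 2), (1, 0, 8)], [(1, 0, 9)], [(1, 0, 10)], [(-1, 1,
    5), (1, 0, 11)], [(-1, 2, 1), (-1, 1, 6), (2, 1, 7), (1, 0, 12)], [(-1, 1, 9), (1, 0, 13)]]

theorem eTw {C : Type} [CommRing C] (c : C) (p : Fin 14 → C) :
    Co (ap rTw c p) (p 0) (p 1) (p 2) (p 3) (p 4 + c * p 0) (p 5) (p 6) (p 7 - c * p 1) (p 8 + c *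
      p 2) (p 9) (p 10) (p 11 - c * p 5) (p 12 + 2 * c * p 7 - c * p 6 - c ^ 2 * p 1) (p 13 - c *
      p 9) := by
  refine ⟨?_, ?_, ?_, ?_, ?_, ?_, ?_, ?_, ?_, ?_, ?_, ?_, ?_, ?_⟩ <;>
    simp only [ap, rTw, Matrix.cons_val, lin] <;> ring

theorem kTw : Pres rTw := fun C _ c p h =>
  (eTw c p).kk (by linear_combination (h.q1 - c * h.q7)) (by linear_combination (h.q2 - c *
    h.q16)) (by linear_combination (h.q3 - c * h.q17)) (by linear_combination (h.q4))
    (by linear_combination (h.q5)) (by linear_combination (h.q6)) (by linear_combination (h.q7))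
    (by linear_combination (h.q8 - c * h.q23)) (by linear_combination (h.q9 + c * h.q21))
    (by linear_combination (h.q10)) (by linear_combination (h.q11)) (by linear_combination (c *
    h.q4 + h.q12)) (by linear_combination (2 * c * h.q2 + c * h.q11 + h.q13 - c ^ 2 * h.q16))
    (by linear_combination (h.q14)) (by linear_combination (2 * c * h.q3 + h.q15 - c ^ 2 * h.q17 +
    c * h.q19)) (by linear_combination (h.q16)) (by linear_combination (h.q17))
    (by linear_combination (h.q18)) (by linear_combination (h.q19)) (by linear_combination (-(c *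
    h.q7) - c * h.q14 + h.q20)) (by linear_combination (h.q21)) (by linear_combination (c * h.q5 +
    2 * c * h.q8 + h.q22 - c ^ 2 * h.q23 + c * h.q25)) (by linear_combination (h.q23))
    (by linear_combination (h.q24 + c * h.q27)) (by linear_combination (h.q25))
    (by linear_combination (-(c * h.q18) + h.q26)) (by linear_combination (h.q27))
    (by linear_combination (-(c * h.q23) + h.q28))

theorem aTw {κ : Type} [Field κ] (c : κ) : IsAut (mat rTw c) :=
  isAut_uni kTw (fun C _ c p => by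
    obtain ⟨a0, a1, a2, a3, a4, a5, a6, a7, a8, a9, a10, a11, a12, a13⟩ := eTw c (ap rTw (-c) p)
    obtain ⟨b0, b1, b2, b3, b4, b5, b6, b7, b8, b9, b10, b11, b12, b13⟩ := eTw (-c) p
    refine ext14 ⟨?_, ?_, ?_, ?_, ?_, ?_, ?_, ?_, ?_, ?_, ?_, ?_, ?_, ?_⟩ <;>
      simp only [a0, a1, a2, a3, a4, a5, a6, a7, a8, a9, a10, a11, a12, a13,
        b0, b1, b2, b3, b4, b5, b6, b7, b8, b9, b10, b11, b12, b13] <;> ring) c

def rTA : Fin 14 → Row :=
  ![[(1, 0, 0)], [(1, 0, 1)], [(1, 0, 2)], [(1, 0, 3)], [(1, 0, 4)], [(1, 0, 5)], [(1, 1, 0), (1,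
    0, 6)], [(1, 1, 0), (1, 0, 7)], [(1, 0, 8)], [(1, 1, 1), (1, 0, 9)], [(1, 1, 2), (1, 0, 10)],
    [(1, 1, 3), (1, 0, 11)], [(1, 1, 4), (1, 0, 12)], [(1, 2, 0), (1, 1, 6), (1, 1, 7), (1, 0,
    13)]]

theorem eTA {C : Type} [CommRing C] (c : C) (p : Fin 14 → C) :
    Co (ap rTA c p) (p 0) (p 1) (p 2) (p 3) (p 4) (p 5) (p 6 + c * p 0) (p 7 + c * p 0) (p 8) (p 9
      + c * p 1) (p 10 + c * p 2) (p 11 + c * p 3) (p 12 + c * p 4) (p 13 + c * p 6 + c * p 7 + c
      ^ 2 * p 0) := by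
  refine ⟨?_, ?_, ?_, ?_, ?_, ?_, ?_, ?_, ?_, ?_, ?_, ?_, ?_, ?_⟩ <;>
    simp only [ap, rTA, Matrix.cons_val, lin] <;> ring

theorem kTA : Pres rTA := fun C _ c p h =>
  (eTA c p).kk (by linear_combination (h.q1 - c * h.q3)) (by linear_combination (h.q2 + c * h.q4))
    (by linear_combination (h.q3)) (by linear_combination (h.q4)) (by linear_combination (h.q5))
    (by linear_combination (h.q6 - c * h.q7 + c * h.q14 + c ^ 2 * h.q17))
    (by linear_combination (h.q7 - c * h.q17)) (by linear_combination (h.q8))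
    (by linear_combination (h.q9 + c * h.q10)) (by linear_combination (h.q10))
    (by linear_combination (-(c * h.q4) + h.q11 + c * h.q21)) (by linear_combination (c * h.q10 +
    h.q12)) (by linear_combination (c * h.q9 + c ^ 2 * h.q10 + c * h.q12 + h.q13))
    (by linear_combination (h.q14 + c * h.q17)) (by linear_combination (h.q15))
    (by linear_combination (h.q16)) (by linear_combination (h.q17)) (by linear_combination (h.q18
    + c * h.q23)) (by linear_combination (h.q19)) (by linear_combination (c * h.q19 + h.q20))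
    (by linear_combination (h.q21)) (by linear_combination (h.q22 + c * h.q24))
    (by linear_combination (h.q23)) (by linear_combination (h.q24)) (by linear_combination (h.q25
    + c * h.q27)) (by linear_combination (c * h.q25 + h.q26 + c ^ 2 * h.q27 + c * h.q28))
    (by linear_combination (h.q27)) (by linear_combination (c * h.q27 + h.q28))

theorem aTA {κ : Type} [Field κ] (c : κ) : IsAut (mat rTA c) :=
  isAut_uni kTA (fun C _ c p => by
    obtain ⟨a0, a1, a2, a3, a4, a5, a6, a7, a8, a9, a10, a11, a12, a13⟩ := eTA c (ap rTA (-c) p)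
    obtain ⟨b0, b1, b2, b3, b4, b5, b6, b7, b8, b9, b10, b11, b12, b13⟩ := eTA (-c) p
    refine ext14 ⟨?_, ?_, ?_, ?_, ?_, ?_, ?_, ?_, ?_, ?_, ?_, ?_, ?_, ?_⟩ <;>
      simp only [a0, a1, a2, a3, a4, a5, a6, a7, a8, a9, a10, a11, a12, a13,
        b0, b1, b2, b3, b4, b5, b6, b7, b8, b9, b10, b11, b12, b13] <;> ring) c

def rSc : Fin 14 → Row :=
  ![[(1, 1, 0)], [(1, 1, 1)], [(1, 1, 2)], [(1, 1, 3)], [(1, 1, 4)], [(1, 1, 5)], [(1, 1, 6)],
    [(1, 1, 7)], [(1, 1, 8)], [(1, 1, 9)], [(1, 1, 10)], [(1, 1, 11)], [(1, 1, 12)], [(1, 1, 13)]]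

theorem eSc {C : Type} [CommRing C] (c : C) (p : Fin 14 → C) :
    Co (ap rSc c p) (c * p 0) (c * p 1) (c * p 2) (c * p 3) (c * p 4) (c * p 5) (c * p 6) (c * p
      7) (c * p 8) (c * p 9) (c * p 10) (c * p 11) (c * p 12) (c * p 13) := by
  refine ⟨?_, ?_, ?_, ?_, ?_, ?_, ?_, ?_, ?_, ?_, ?_, ?_, ?_, ?_⟩ <;>
    simp only [ap, rSc, Matrix.cons_val, lin] <;> ring

theorem kSc : Pres rSc := fun C _ c p h =>
  (eSc c p).kk (by linear_combination (c ^ 2 * h.q1)) (by linear_combination (c ^ 2 * h.q2))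
    (by linear_combination (c ^ 2 * h.q3)) (by linear_combination (c ^ 2 * h.q4))
    (by linear_combination (c ^ 2 * h.q5)) (by linear_combination (c ^ 2 * h.q6))
    (by linear_combination (c ^ 2 * h.q7)) (by linear_combination (c ^ 2 * h.q8))
    (by linear_combination (c ^ 2 * h.q9)) (by linear_combination (c ^ 2 * h.q10))
    (by linear_combination (c ^ 2 * h.q11)) (by linear_combination (c ^ 2 * h.q12))
    (by linear_combination (c ^ 2 * h.q13)) (by linear_combination (c ^ 2 * h.q14))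
    (by linear_combination (c ^ 2 * h.q15)) (by linear_combination (c ^ 2 * h.q16))
    (by linear_combination (c ^ 2 * h.q17)) (by linear_combination (c ^ 2 * h.q18))
    (by linear_combination (c ^ 2 * h.q19)) (by linear_combination (c ^ 2 * h.q20))
    (by linear_combination (c ^ 2 * h.q21)) (by linear_combination (c ^ 2 * h.q22))
    (by linear_combination (c ^ 2 * h.q23)) (by linear_combination (c ^ 2 * h.q24))
    (by linear_combination (c ^ 2 * h.q25)) (by linear_combination (c ^ 2 * h.q26))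
    (by linear_combination (c ^ 2 * h.q27)) (by linear_combination (c ^ 2 * h.q28))

theorem iSc (C : Type) [CommRing C] (c d : C) (p : Fin 14 → C) (h : c * d = 1) :
    ap rSc c (ap rSc d p) = p := by
  obtain ⟨a0, a1, a2, a3, a4, a5, a6, a7, a8, a9, a10, a11, a12, a13⟩ := eSc c (ap rSc d p)
  obtain ⟨b0, b1, b2, b3, b4, b5, b6, b7, b8, b9, b10, b11, b12, b13⟩ := eSc d p
  have hn : ∀ (n : ℕ) (x : C), c ^ n * (d ^ n * x) = x := fun n x => by
    rw [← mul_assoc, ← mul_pow, h, one_pow, one_mul]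
  have h1 : ∀ x : C, c * (d * x) = x := fun x => by rw [← mul_assoc, h, one_mul]
  refine ext14 ⟨?_, ?_, ?_, ?_, ?_, ?_, ?_, ?_, ?_, ?_, ?_, ?_, ?_, ?_⟩ <;>
    simp only [a0, a1, a2, a3, a4, a5, a6, a7, a8, a9, a10, a11, a12, a13,
      b0, b1, b2, b3, b4, b5, b6, b7, b8, b9, b10, b11, b12, b13, hn, h1, neg_neg,
      sub_neg_eq_add, sub_add_cancel, sub_sub_cancel, neg_sub, sub_add_sub_cancel, add_sub_cancel_right,
      neg_add_cancel_comm, sub_sub_cancel_left, add_sub_cancel_left]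

theorem aSc {κ : Type} [Field κ] {c : κ} (hc : c ≠ 0) : IsAut (mat rSc c) :=
  isAut_mul kSc kSc iSc iSc hc

def rW1 : Fin 14 → Row :=
  ![[(1, 0, 1)], [(1, 0, 0)], [(1, 0, 2)], [(-1, 0, 5)], [(1, 0, 9)], [(-1, 0, 3)], [(1, 0, 6),
    (-1, 0, 7)], [(-1, 0, 7)], [(1, 0, 10)], [(1, 0, 4)], [(1, 0, 8)], [(1, 0, 11)], [(-1, 0,
    13)], [(-1, 0, 12)]]

theorem eW1 {C : Type} [CommRing C] (c : C) (p : Fin 14 → C) :
    Co (ap rW1 c p) (p 1) (p 0) (p 2) (-p 5) (p 9) (-p 3) (p 6 - p 7) (-p 7) (p 10) (p 4) (p 8) (p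
      11) (-p 13) (-p 12) := by
  refine ⟨?_, ?_, ?_, ?_, ?_, ?_, ?_, ?_, ?_, ?_, ?_, ?_, ?_, ?_⟩ <;>
    simp only [ap, rW1, Matrix.cons_val, lin] <;> ring

theorem kW1 : Pres rW1 := fun C _ c p h =>
  (eW1 c p).kk (by linear_combination (h.q1 - h.q20)) (by linear_combination (h.q9))
    (by linear_combination (-h.q14)) (by linear_combination (h.q21))
    (by linear_combination (h.q5)) (by linear_combination (-h.q15)) (by linear_combination (h.q3 +
    h.q19)) (by linear_combination (-h.q5 - h.q8 + h.q28)) (by linear_combination (h.q2))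
    (by linear_combination (-h.q16)) (by linear_combination (-h.q9 + h.q12))
    (by linear_combination (h.q2 + h.q11)) (by linear_combination (h.q13))
    (by linear_combination (-h.q3)) (by linear_combination (-h.q6))
    (by linear_combination (-h.q10)) (by linear_combination (h.q17))
    (by linear_combination (-h.q24)) (by linear_combination (h.q7 + h.q14))
    (by linear_combination (-h.q20)) (by linear_combination (h.q4))
    (by linear_combination (h.q26)) (by linear_combination (-h.q27))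
    (by linear_combination (-h.q18)) (by linear_combination (h.q5 + 2 * h.q8 + h.q25 - h.q28))
    (by linear_combination (h.q22)) (by linear_combination (-h.q23))
    (by linear_combination (h.q28))

theorem iW1 (C : Type) [CommRing C] (c d : C) (p : Fin 14 → C) (_h : c * d = 1) :
    ap rW1 c (ap rW1 d p) = p := by
  obtain ⟨a0, a1, a2, a3, a4, a5, a6, a7, a8, a9, a10, a11, a12, a13⟩ := eW1 c (ap rW1 d p)
  obtain ⟨b0, b1, b2, b3, b4, b5, b6, b7, b8, b9, b10, b11, b12, b13⟩ := eW1 d p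
  refine ext14 ⟨?_, ?_, ?_, ?_, ?_, ?_, ?_, ?_, ?_, ?_, ?_, ?_, ?_, ?_⟩ <;>
    simp only [a0, a1, a2, a3, a4, a5, a6, a7, a8, a9, a10, a11, a12, a13,
      b0, b1, b2, b3, b4, b5, b6, b7, b8, b9, b10, b11, b12, b13, neg_neg,
      sub_neg_eq_add, sub_add_cancel, sub_sub_cancel, neg_sub, sub_add_sub_cancel, add_sub_cancel_right,
      neg_add_cancel_comm, sub_sub_cancel_left, add_sub_cancel_left]

theorem aW1 {κ : Type} [Field κ] {c : κ} (hc : c ≠ 0) : IsAut (mat rW1 c) :=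
  isAut_mul kW1 kW1 iW1 iW1 hc

def rW4 : Fin 14 → Row :=
  ![[(1, 0, 4)], [(1, 0, 12)], [(-1, 0, 8)], [(-1, 0, 3)], [(1, 0, 0)], [(-1, 0, 11)], [(1, 0,
    6)], [(1, 0, 6), (-1, 0, 7)], [(-1, 0, 2)], [(1, 0, 13)], [(-1, 0, 10)], [(-1, 0, 5)], [(1, 0,
    1)], [(1, 0, 9)]]

theorem eW4 {C : Type} [CommRing C] (c : C) (p : Fin 14 → C) :
    Co (ap rW4 c p) (p 4) (p 12) (-p 8) (-p 3) (p 0) (-p 11) (p 6) (p 6 - p 7) (-p 2) (p 13) (-p
      10) (-p 5) (p 1) (p 9) := by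
  refine ⟨?_, ?_, ?_, ?_, ?_, ?_, ?_, ?_, ?_, ?_, ?_, ?_, ?_, ?_⟩ <;>
    simp only [ap, rW4, Matrix.cons_val, lin] <;> ring

theorem kW4 : Pres rW4 := fun C _ c p h =>
  (eW4 c p).kk (by linear_combination (-h.q7)) (by linear_combination (h.q2 + h.q11))
    (by linear_combination (h.q3 + h.q19)) (by linear_combination (-h.q12))
    (by linear_combination (h.q5)) (by linear_combination (h.q6)) (by linear_combination (-h.q1))
    (by linear_combination (-h.q5 - h.q8 - h.q25)) (by linear_combination (-h.q21))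
    (by linear_combination (h.q10)) (by linear_combination (-h.q11))
    (by linear_combination (-h.q4)) (by linear_combination (-h.q16)) (by linear_combination (h.q1
    - h.q20)) (by linear_combination (-h.q17)) (by linear_combination (-h.q13))
    (by linear_combination (-h.q15)) (by linear_combination (h.q26))
    (by linear_combination (-h.q19)) (by linear_combination (-h.q7 - h.q14))
    (by linear_combination (-h.q9)) (by linear_combination (h.q23))
    (by linear_combination (h.q22)) (by linear_combination (h.q27))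
    (by linear_combination (h.q25)) (by linear_combination (h.q18))
    (by linear_combination (h.q24)) (by linear_combination (-h.q5 - 2 * h.q8 - h.q25 + h.q28))

theorem iW4 (C : Type) [CommRing C] (c d : C) (p : Fin 14 → C) (_h : c * d = 1) :
    ap rW4 c (ap rW4 d p) = p := by
  obtain ⟨a0, a1, a2, a3, a4, a5, a6, a7, a8, a9, a10, a11, a12, a13⟩ := eW4 c (ap rW4 d p)
  obtain ⟨b0, b1, b2, b3, b4, b5, b6, b7, b8, b9, b10, b11, b12, b13⟩ := eW4 d p
  refine ext14 ⟨?_, ?_, ?_, ?_, ?_, ?_, ?_, ?_, ?_, ?_, ?_, ?_, ?_, ?_⟩ <;>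
    simp only [a0, a1, a2, a3, a4, a5, a6, a7, a8, a9, a10, a11, a12, a13,
      b0, b1, b2, b3, b4, b5, b6, b7, b8, b9, b10, b11, b12, b13, neg_neg,
      sub_neg_eq_add, sub_add_cancel, sub_sub_cancel, neg_sub, sub_add_sub_cancel, add_sub_cancel_right,
      neg_add_cancel_comm, sub_sub_cancel_left, add_sub_cancel_left]

theorem aW4 {κ : Type} [Field κ] {c : κ} (hc : c ≠ 0) : IsAut (mat rW4 c) :=
  isAut_mul kW4 kW4 iW4 iW4 hc

def rW9 : Fin 14 → Row :=
  ![[(1, 0, 9)], [(1, 0, 1)], [(-1, 0, 5)], [(-1, 0, 10)], [(1, 0, 13)], [(-1, 0, 2)], [(1, 0,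
    6)], [(1, 0, 6), (-1, 0, 7)], [(-1, 0, 11)], [(1, 0, 0)], [(-1, 0, 3)], [(-1, 0, 8)], [(1, 0,
    12)], [(1, 0, 4)]]

theorem eW9 {C : Type} [CommRing C] (c : C) (p : Fin 14 → C) :
    Co (ap rW9 c p) (p 9) (p 1) (-p 5) (-p 10) (p 13) (-p 2) (p 6) (p 6 - p 7) (-p 11) (p 0) (-p
      3) (-p 8) (p 12) (p 4) := by
  refine ⟨?_, ?_, ?_, ?_, ?_, ?_, ?_, ?_, ?_, ?_, ?_, ?_, ?_, ?_⟩ <;>
    simp only [ap, rW9, Matrix.cons_val, lin] <;> ring

theorem kW9 : Pres rW9 := fun C _ c p h =>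
  (eW9 c p).kk (by linear_combination (h.q12)) (by linear_combination (h.q3 + h.q19))
    (by linear_combination (h.q2 + h.q11)) (by linear_combination (h.q7))
    (by linear_combination (h.q5)) (by linear_combination (h.q10)) (by linear_combination (h.q4))
    (by linear_combination (-h.q5 - h.q8 - h.q25)) (by linear_combination (h.q1 - h.q20))
    (by linear_combination (h.q6)) (by linear_combination (-h.q19)) (by linear_combination (h.q1))
    (by linear_combination (-h.q15)) (by linear_combination (-h.q21))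
    (by linear_combination (-h.q13)) (by linear_combination (-h.q17))
    (by linear_combination (-h.q16)) (by linear_combination (h.q27))
    (by linear_combination (-h.q11)) (by linear_combination (-h.q9 + h.q12))
    (by linear_combination (-h.q14)) (by linear_combination (h.q22))
    (by linear_combination (h.q23)) (by linear_combination (h.q26))
    (by linear_combination (h.q25)) (by linear_combination (h.q24))
    (by linear_combination (h.q18)) (by linear_combination (-h.q5 - 2 * h.q8 - h.q25 + h.q28))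

theorem iW9 (C : Type) [CommRing C] (c d : C) (p : Fin 14 → C) (_h : c * d = 1) :
    ap rW9 c (ap rW9 d p) = p := by
  obtain ⟨a0, a1, a2, a3, a4, a5, a6, a7, a8, a9, a10, a11, a12, a13⟩ := eW9 c (ap rW9 d p)
  obtain ⟨b0, b1, b2, b3, b4, b5, b6, b7, b8, b9, b10, b11, b12, b13⟩ := eW9 d p
  refine ext14 ⟨?_, ?_, ?_, ?_, ?_, ?_, ?_, ?_, ?_, ?_, ?_, ?_, ?_, ?_⟩ <;>
    simp only [a0, a1, a2, a3, a4, a5, a6, a7, a8, a9, a10, a11, a12, a13,
      b0, b1, b2, b3, b4, b5, b6, b7, b8, b9, b10, b11, b12, b13, neg_neg,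
      sub_neg_eq_add, sub_add_cancel, sub_sub_cancel, neg_sub, sub_add_sub_cancel, add_sub_cancel_right,
      neg_add_cancel_comm, sub_sub_cancel_left, add_sub_cancel_left]

theorem aW9 {κ : Type} [Field κ] {c : κ} (hc : c ≠ 0) : IsAut (mat rW9 c) :=
  isAut_mul kW9 kW9 iW9 iW9 hc

def rW12 : Fin 14 → Row :=
  ![[(1, 0, 12)], [(-1, 0, 13)], [(1, 0, 11)], [(1, 0, 8)], [(1, 0, 4)], [(-1, 0, 10)], [(-1, 0,
    6), (1, 0, 7)], [(1, 0, 7)], [(1, 0, 3)], [(1, 0, 9)], [(-1, 0, 5)], [(1, 0, 2)], [(1, 0, 0)],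
    [(-1, 0, 1)]]

theorem eW12 {C : Type} [CommRing C] (c : C) (p : Fin 14 → C) :
    Co (ap rW12 c p) (p 12) (-p 13) (p 11) (p 8) (p 4) (-p 10) (p 7 - p 6) (p 7) (p 3) (p 9) (-p
      5) (p 2) (p 0) (-p 1) := by
  refine ⟨?_, ?_, ?_, ?_, ?_, ?_, ?_, ?_, ?_, ?_, ?_, ?_, ?_, ?_⟩ <;>
    simp only [ap, rW12, Matrix.cons_val, lin] <;> ring

theorem kW12 : Pres rW12 := fun C _ c p h =>
  (eW12 c p).kk (by linear_combination (h.q21)) (by linear_combination (h.q14))
    (by linear_combination (-h.q9)) (by linear_combination (h.q1 - h.q20))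
    (by linear_combination (h.q5)) (by linear_combination (-h.q16)) (by linear_combination (-h.q2
    - h.q11)) (by linear_combination (-h.q5 - h.q8 + h.q28)) (by linear_combination (-h.q3))
    (by linear_combination (-h.q15)) (by linear_combination (-h.q7 - h.q14))
    (by linear_combination (-h.q3 - h.q19)) (by linear_combination (h.q17))
    (by linear_combination (h.q2)) (by linear_combination (-h.q10))
    (by linear_combination (-h.q6)) (by linear_combination (h.q13))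
    (by linear_combination (h.q18)) (by linear_combination (h.q9 - h.q12))
    (by linear_combination (-h.q4 + h.q21)) (by linear_combination (h.q1))
    (by linear_combination (h.q27)) (by linear_combination (-h.q26))
    (by linear_combination (h.q24)) (by linear_combination (h.q5 + 2 * h.q8 + h.q25 - h.q28))
    (by linear_combination (-h.q23)) (by linear_combination (h.q22))
    (by linear_combination (h.q28))

theorem iW12 (C : Type) [CommRing C] (c d : C) (p : Fin 14 → C) (_h : c * d = 1) :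
    ap rW12 c (ap rW12 d p) = p := by
  obtain ⟨a0, a1, a2, a3, a4, a5, a6, a7, a8, a9, a10, a11, a12, a13⟩ := eW12 c (ap rW12 d p)
  obtain ⟨b0, b1, b2, b3, b4, b5, b6, b7, b8, b9, b10, b11, b12, b13⟩ := eW12 d p
  refine ext14 ⟨?_, ?_, ?_, ?_, ?_, ?_, ?_, ?_, ?_, ?_, ?_, ?_, ?_, ?_⟩ <;>
    simp only [a0, a1, a2, a3, a4, a5, a6, a7, a8, a9, a10, a11, a12, a13,
      b0, b1, b2, b3, b4, b5, b6, b7, b8, b9, b10, b11, b12, b13, neg_neg,
      sub_neg_eq_add, sub_add_cancel, sub_sub_cancel, neg_sub, sub_add_sub_cancel, add_sub_cancel_right,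
      neg_add_cancel_comm, sub_sub_cancel_left, add_sub_cancel_left]

theorem aW12 {κ : Type} [Field κ] {c : κ} (hc : c ≠ 0) : IsAut (mat rW12 c) :=
  isAut_mul kW12 kW12 iW12 iW12 hc

def rW13 : Fin 14 → Row :=
  ![[(1, 0, 13)], [(1, 0, 12)], [(1, 0, 11)], [(1, 0, 10)], [(1, 0, 9)], [(1, 0, 8)], [(1, 0, 6)],
    [(1, 0, 7)], [(1, 0, 5)], [(1, 0, 4)], [(1, 0, 3)], [(1, 0, 2)], [(1, 0, 1)], [(1, 0, 0)]]

theorem eW13 {C : Type} [CommRing C] (c : C) (p : Fin 14 → C) :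
    Co (ap rW13 c p) (p 13) (p 12) (p 11) (p 10) (p 9) (p 8) (p 6) (p 7) (p 5) (p 4) (p 3) (p 2)
      (p 1) (p 0) := by
  refine ⟨?_, ?_, ?_, ?_, ?_, ?_, ?_, ?_, ?_, ?_, ?_, ?_, ?_, ?_⟩ <;>
    simp only [ap, rW13, Matrix.cons_val, lin] <;> ring

theorem kW13 : Pres rW13 := fun C _ c p h =>
  (eW13 c p).kk (by linear_combination (-h.q4)) (by linear_combination (h.q3))
    (by linear_combination (h.q2)) (by linear_combination (-h.q1)) (by linear_combination (h.q5))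
    (by linear_combination (h.q10)) (by linear_combination (-h.q12))
    (by linear_combination (h.q8)) (by linear_combination (h.q14)) (by linear_combination (h.q6))
    (by linear_combination (h.q19)) (by linear_combination (-h.q7))
    (by linear_combination (h.q17)) (by linear_combination (h.q9)) (by linear_combination (h.q16))
    (by linear_combination (h.q15)) (by linear_combination (h.q13))
    (by linear_combination (h.q24)) (by linear_combination (h.q11)) (by linear_combination (-h.q4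
    + h.q21)) (by linear_combination (-h.q1 + h.q20)) (by linear_combination (h.q23))
    (by linear_combination (h.q22)) (by linear_combination (h.q18))
    (by linear_combination (h.q25)) (by linear_combination (h.q27))
    (by linear_combination (h.q26)) (by linear_combination (h.q28))

theorem iW13 (C : Type) [CommRing C] (c d : C) (p : Fin 14 → C) (_h : c * d = 1) :
    ap rW13 c (ap rW13 d p) = p := by
  obtain ⟨a0, a1, a2, a3, a4, a5, a6, a7, a8, a9, a10, a11, a12, a13⟩ := eW13 c (ap rW13 d p)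
  obtain ⟨b0, b1, b2, b3, b4, b5, b6, b7, b8, b9, b10, b11, b12, b13⟩ := eW13 d p
  refine ext14 ⟨?_, ?_, ?_, ?_, ?_, ?_, ?_, ?_, ?_, ?_, ?_, ?_, ?_, ?_⟩ <;>
    simp only [a0, a1, a2, a3, a4, a5, a6, a7, a8, a9, a10, a11, a12, a13,
      b0, b1, b2, b3, b4, b5, b6, b7, b8, b9, b10, b11, b12, b13, neg_neg,
      sub_neg_eq_add, sub_add_cancel, sub_sub_cancel, neg_sub, sub_add_sub_cancel, add_sub_cancel_right,
      neg_add_cancel_comm, sub_sub_cancel_left, add_sub_cancel_left]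

theorem aW13 {κ : Type} [Field κ] {c : κ} (hc : c ≠ 0) : IsAut (mat rW13 c) :=
  isAut_mul kW13 kW13 iW13 iW13 hc

end TRDx

open TRDx in
theorem p_TRD :
    S_TRD := by
  intro κ _
  refine ⟨fun c => ⟨⟨_, aTx c, fun p => ?_⟩, ⟨_, aTy c, fun p => ?_⟩, ⟨_, aTz c, fun p => ?_⟩,
    ⟨_, aTw c, fun p => ?_⟩, ⟨_, aTA c, fun p => ?_⟩, fun hc => ⟨_, aSc hc, fun p i => ?_⟩⟩, ?_⟩
  · obtain ⟨a0, a1, a2, a3, a4, -, a6, -⟩ := eTx c p
    simp only [act_mat', a0, a1, a2, a3, a4, a6, zero_mul, add_zero, and_self]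
  · obtain ⟨a0, a1, a2, a3, a4, -, a6, -⟩ := eTy c p
    simp only [act_mat', a0, a1, a2, a3, a4, a6, zero_mul, add_zero, and_self]
  · obtain ⟨a0, a1, a2, a3, a4, -, a6, -⟩ := eTz c p
    simp only [act_mat', a0, a1, a2, a3, a4, a6, zero_mul, add_zero, and_self]
  · obtain ⟨a0, a1, a2, a3, a4, -, a6, -⟩ := eTw c p
    simp only [act_mat', a0, a1, a2, a3, a4, a6, zero_mul, add_zero, and_self]
  · obtain ⟨a0, a1, a2, a3, a4, -, a6, -⟩ := eTA c p
    simp only [act_mat', a0, a1, a2, a3, a4, a6, zero_mul, add_zero, and_self]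
  · rw [act_mat']
    exact congrFun (ext14 (q := fun i => c * p i) (eSc c p)) i
  · simp only [List.forall_mem_cons, List.not_mem_nil, false_imp_iff, implies_true, and_true]
    exact ⟨⟨_, aW1 one_ne_zero, fun p h => by rwa [act_mat', (eW1 1 p).1]⟩, ⟨_, aW4 one_ne_zero,
      fun p h => by rwa [act_mat', (eW4 1 p).1]⟩, ⟨_, aW9 one_ne_zero,
      fun p h => by rwa [act_mat', (eW9 1 p).1]⟩, ⟨_, aW12 one_ne_zero,
      fun p h => by rwa [act_mat', (eW12 1 p).1]⟩, ⟨_, aW13 one_ne_zero,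
      fun p h => by rwa [act_mat', (eW13 1 p).1]⟩⟩

end Pool.Agent.P.MP_6149fc_ag.V18

end

section

/-! Step BR1. -/

set_option autoImplicit false

namespace Pool.Agent.P.MP_6149fc_ag.V18

open MvPolynomial

namespace BR1x

theorem con {C : Type} [CommRing C] [Algebra ℂ C] (P : Fin 7 × Fin 7 → C) :
    aeval P (contraction 0) = P (1, 2) + P (3, 6) ∧ aeval P (contraction 1) = P (2, 0) + P (4, 6)
    ∧ aeval P (contraction 2) = P (0, 1) + P (5, 6) ∧
    aeval P (contraction 3) = P (4, 5) + P (6, 0) ∧ aeval P (contraction 4) = P (5, 3) + P (6, 1)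
    ∧ aeval P (contraction 5) = P (3, 4) + P (6, 2) ∧
    aeval P (contraction 6) = P (0, 3) + P (1, 4) + P (2, 5) := by
  refine ⟨?_, ?_, ?_, ?_, ?_, ?_, ?_⟩ <;> simp [contraction, triples, add_assoc]

theorem emb_pr {C : Type} [CommRing C] (P : Fin 7 × Fin 7 → C)
    (sk : ∀ i j, P (i, j) + P (j, i) = 0) (dg : ∀ i, 0 = P (i, i))
    (c0 : P (1, 2) + P (3, 6) = 0)
    (c1 : P (2, 0) + P (4, 6) = 0)
    (c2 : P (0, 1) + P (5, 6) = 0)
    (c3 : P (4, 5) + P (6, 0) = 0)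
    (c4 : P (5, 3) + P (6, 1) = 0)
    (c5 : P (3, 4) + P (6, 2) = 0)
    (c6 : P (0, 3) + P (1, 4) + P (2, 5) = 0) :
    emb (pr P) = P := by
  funext ⟨a, b⟩
  fin_cases a <;> fin_cases b
  · exact dg 0
  · exact neg_neg _
  · exact neg_neg _
  · rfl
  · rfl
  · exact neg_neg _
  · exact neg_neg _
  · change (-P (0, 1)) = P (1, 0)
    linear_combination -sk 0 1
  · exact dg 1
  · rfl
  · exact neg_neg _
  · exact neg_neg _
  · rfl
  · rfl
  · change (-P (0, 2)) = P (2, 0)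
    linear_combination -sk 0 2
  · change -P (1, 2) = P (2, 1)
    linear_combination -sk 1 2
  · exact dg 2
  · rfl
  · rfl
  · change (-P (1, 4)) - P (0, 3) = P (2, 5)
    linear_combination -c6
  · change -(-P (3, 4)) = P (2, 6)
    linear_combination c5 - sk 2 6
  · change -P (0, 3) = P (3, 0)
    linear_combination -sk 0 3
  · change (-P (1, 3)) = P (3, 1)
    linear_combination -sk 1 3
  · change -P (2, 3) = P (3, 2)
    linear_combination -sk 2 3
  · exact dg 3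
  · exact neg_neg _
  · change -P (1, 6) = P (3, 5)
    linear_combination c4 - sk 1 6 - sk 3 5
  · change -P (1, 2) = P (3, 6)
    linear_combination -c0
  · change -P (0, 4) = P (4, 0)
    linear_combination -sk 0 4
  · change (-P (1, 4)) = P (4, 1)
    linear_combination -sk 1 4
  · change -P (2, 4) = P (4, 2)
    linear_combination -sk 2 4
  · change (-P (3, 4)) = P (4, 3)
    linear_combination -sk 3 4
  · exact dg 4
  · change -(-P (0, 6)) = P (4, 5)
    linear_combination -c3 + sk 0 6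
  · change -(-P (0, 2)) = P (4, 6)
    linear_combination -c1 + sk 0 2
  · change (-P (0, 5)) = P (5, 0)
    linear_combination -sk 0 5
  · change -P (1, 5) = P (5, 1)
    linear_combination -sk 1 5
  · change P (0, 3) - (-P (1, 4)) = P (5, 2)
    linear_combination -sk 2 5 + c6
  · change P (1, 6) = P (5, 3)
    linear_combination -c4 + sk 1 6
  · change (-P (0, 6)) = P (5, 4)
    linear_combination -sk 4 5 + c3 - sk 0 6
  · exact dg 5
  · change (-P (0, 1)) = P (5, 6)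
    linear_combination -c2
  · change (-P (0, 6)) = P (6, 0)
    linear_combination -sk 0 6
  · change -P (1, 6) = P (6, 1)
    linear_combination -sk 1 6
  · change (-P (3, 4)) = P (6, 2)
    linear_combination -c5
  · change P (1, 2) = P (6, 3)
    linear_combination -sk 3 6 + c0
  · change (-P (0, 2)) = P (6, 4)
    linear_combination -sk 4 6 + c1 - sk 0 2
  · change -(-P (0, 1)) = P (6, 5)
    linear_combination -sk 5 6 + c2
  · exact dg 6

theorem kk_of {C : Type} [CommRing C] (p : Fin 14 → C) (pl : ∀ i j k m, i < j → j < k → k < m →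
    emb p (i, j) * emb p (k, m) - emb p (i, k) * emb p (j, m) + emb p (i, m) * emb p (j, k) = 0) :
    KK p := by
  have h0123 : (-p 8) * p 9 - (-p 2) * (-p 13) + p 6 * p 10 = 0 :=
    pl 0 1 2 3 (by decide) (by decide) (by decide)
  have h0124 : (-p 8) * p 1 - (-p 2) * (-p 7) + p 0 * p 10 = 0 :=
    pl 0 1 2 4 (by decide) (by decide) (by decide)
  have h0125 : (-p 8) * (p 7 - p 6) - (-p 2) * p 12 + (-p 4) * p 10 = 0 :=
    pl 0 1 2 5 (by decide) (by decide) (by decide)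
  have h0126 : (-p 8) * (-p 5) - (-p 2) * p 11 + (-p 3) * p 10 = 0 :=
    pl 0 1 2 6 (by decide) (by decide) (by decide)
  have h0134 : (-p 8) * (-p 5) - p 6 * (-p 7) + p 0 * (-p 13) = 0 :=
    pl 0 1 3 4 (by decide) (by decide) (by decide)
  have h0135 : (-p 8) * (-p 11) - p 6 * p 12 + (-p 4) * (-p 13) = 0 :=
    pl 0 1 3 5 (by decide) (by decide) (by decide)
  have h0136 : (-p 8) * (-p 10) - p 6 * p 11 + (-p 3) * (-p 13) = 0 :=
    pl 0 1 3 6 (by decide) (by decide) (by decide)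
  have h0145 : (-p 8) * (-p 3) - p 0 * p 12 + (-p 4) * (-p 7) = 0 :=
    pl 0 1 4 5 (by decide) (by decide) (by decide)
  have h0146 : (-p 8) * (-p 2) - p 0 * p 11 + (-p 3) * (-p 7) = 0 :=
    pl 0 1 4 6 (by decide) (by decide) (by decide)
  have h0156 : (-p 8) * p 8 - (-p 4) * p 11 + (-p 3) * p 12 = 0 :=
    pl 0 1 5 6 (by decide) (by decide) (by decide)
  have h0234 : (-p 2) * (-p 5) - p 6 * p 1 + p 0 * p 9 = 0 :=
    pl 0 2 3 4 (by decide) (by decide) (by decide)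
  have h0235 : (-p 2) * (-p 11) - p 6 * (p 7 - p 6) + (-p 4) * p 9 = 0 :=
    pl 0 2 3 5 (by decide) (by decide) (by decide)
  have h0236 : (-p 2) * (-p 10) - p 6 * (-p 5) + (-p 3) * p 9 = 0 :=
    pl 0 2 3 6 (by decide) (by decide) (by decide)
  have h0245 : (-p 2) * (-p 3) - p 0 * (p 7 - p 6) + (-p 4) * p 1 = 0 :=
    pl 0 2 4 5 (by decide) (by decide) (by decide)
  have h0246 : (-p 2) * (-p 2) - p 0 * (-p 5) + (-p 3) * p 1 = 0 :=
    pl 0 2 4 6 (by decide) (by decide) (by decide)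
  have h0256 : (-p 2) * p 8 - (-p 4) * (-p 5) + (-p 3) * (p 7 - p 6) = 0 :=
    pl 0 2 5 6 (by decide) (by decide) (by decide)
  have h0346 : p 6 * (-p 2) - p 0 * (-p 10) + (-p 3) * (-p 5) = 0 :=
    pl 0 3 4 6 (by decide) (by decide) (by decide)
  have h0356 : p 6 * p 8 - (-p 4) * (-p 10) + (-p 3) * (-p 11) = 0 :=
    pl 0 3 5 6 (by decide) (by decide) (by decide)
  have h0456 : p 0 * p 8 - (-p 4) * (-p 2) + (-p 3) * (-p 3) = 0 :=
    pl 0 4 5 6 (by decide) (by decide) (by decide)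
  have h1234 : p 10 * (-p 5) - (-p 13) * p 1 + (-p 7) * p 9 = 0 :=
    pl 1 2 3 4 (by decide) (by decide) (by decide)
  have h1235 : p 10 * (-p 11) - (-p 13) * (p 7 - p 6) + p 12 * p 9 = 0 :=
    pl 1 2 3 5 (by decide) (by decide) (by decide)
  have h1236 : p 10 * (-p 10) - (-p 13) * (-p 5) + p 11 * p 9 = 0 :=
    pl 1 2 3 6 (by decide) (by decide) (by decide)
  have h1245 : p 10 * (-p 3) - (-p 7) * (p 7 - p 6) + p 12 * p 1 = 0 :=
    pl 1 2 4 5 (by decide) (by decide) (by decide)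
  have h1246 : p 10 * (-p 2) - (-p 7) * (-p 5) + p 11 * p 1 = 0 :=
    pl 1 2 4 6 (by decide) (by decide) (by decide)
  have h1256 : p 10 * p 8 - p 12 * (-p 5) + p 11 * (p 7 - p 6) = 0 :=
    pl 1 2 5 6 (by decide) (by decide) (by decide)
  have h1346 : (-p 13) * (-p 2) - (-p 7) * (-p 10) + p 11 * (-p 5) = 0 :=
    pl 1 3 4 6 (by decide) (by decide) (by decide)
  have h1356 : (-p 13) * p 8 - p 12 * (-p 10) + p 11 * (-p 11) = 0 :=
    pl 1 3 5 6 (by decide) (by decide) (by decide)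
  have h2346 : p 9 * (-p 2) - p 1 * (-p 10) + (-p 5) * (-p 5) = 0 :=
    pl 2 3 4 6 (by decide) (by decide) (by decide)
  exact ⟨by linear_combination -h0136, by linear_combination -h1346, by linear_combination h0146,
    by linear_combination h0346, by linear_combination h0126, by linear_combination h1236,
    by linear_combination h0236, by linear_combination h0134 - h0126,
    by linear_combination -h0356 + h0125, by linear_combination -h0456,
    by linear_combination -h0123, by linear_combination -h0356, by linear_combination h1356,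
    by linear_combination h1246, by linear_combination -h0156, by linear_combination h2346,
    by linear_combination -h0246, by linear_combination h1234,
    by linear_combination -h0256 - h0146, by linear_combination h1256 - h0136,
    by linear_combination -h0124 + h0346, by linear_combination -h0135,
    by linear_combination -h0234, by linear_combination -h0145,
    by linear_combination -h0235 - h0134 + h0126, by linear_combination h1235,
    by linear_combination -h0245, by linear_combination h1245 + h0134 - h0126⟩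

end BR1x

open BR1x in
theorem p_BR1 :
    S_BR1 := by
  intro l C _ _ P h
  have sk : ∀ i j, P (i, j) + P (j, i) = 0 := fun i j => by
    simpa using h _ (Or.inl ⟨i, j, rfl⟩)
  have dg : ∀ i, 0 = P (i, i) := fun i => by
    have h1 : (2⁻¹ : ℂ) • (P (i, i) + P (i, i)) = P (i, i) := by
      rw [← two_smul ℂ, smul_smul]; simp
    rw [← h1, sk, smul_zero]
  have hc : ∀ k, aeval P (contraction k) = 0 := fun k => h _ (Or.inr (Or.inr (Or.inl ⟨k, rfl⟩)))
  obtain ⟨c0, c1, c2, c3, c4, c5, c6⟩ := con P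
  have e := emb_pr P sk dg (c0 ▸ hc 0) (c1 ▸ hc 1) (c2 ▸ hc 2) (c3 ▸ hc 3) (c4 ▸ hc 4) (c5 ▸ hc 5)
    (c6 ▸ hc 6)
  refine ⟨kk_of _ fun i j k m h1 h2 h3 => ?_, e, fun s => ?_⟩
  · rw [e]
    simpa using h _ (Or.inr (Or.inl ⟨i, j, k, m, h1, h2, h3, rfl⟩))
  · simpa using h _ (Or.inr (Or.inr (Or.inr ⟨s, rfl⟩)))

end Pool.Agent.P.MP_6149fc_ag.V18

end

section

/-! Step BR2. -/

set_option autoImplicit false

namespace Pool.Agent.P.MP_6149fc_ag.V18

open MvPolynomial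

namespace BR2x

theorem con {C : Type} [CommRing C] [Algebra ℂ C] (P : Fin 7 × Fin 7 → C) :
    aeval P (contraction 0) = P (1, 2) + P (3, 6) ∧ aeval P (contraction 1) = P (2, 0) + P (4, 6)
    ∧ aeval P (contraction 2) = P (0, 1) + P (5, 6) ∧
    aeval P (contraction 3) = P (4, 5) + P (6, 0) ∧ aeval P (contraction 4) = P (5, 3) + P (6, 1)
    ∧ aeval P (contraction 5) = P (3, 4) + P (6, 2) ∧
    aeval P (contraction 6) = P (0, 3) + P (1, 4) + P (2, 5) := by
  refine ⟨?_, ?_, ?_, ?_, ?_, ?_, ?_⟩ <;> simp [contraction, triples, add_assoc]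

theorem sk {C : Type} [CommRing C] (p : Fin 14 → C) (a b : Fin 7) :
    emb p (a, b) + emb p (b, a) = 0 := by
  fin_cases a <;> fin_cases b <;> simp [emb]

theorem quad : ∀ i j k m : Fin 7, i < j → j < k → k < m → (i, j, k, m) ∈
    ([(0, 1, 2, 3), (0, 1, 2, 4), (0, 1, 2, 5), (0, 1, 2, 6), (0, 1, 3, 4), (0, 1, 3, 5),
      (0, 1, 3, 6), (0, 1, 4, 5), (0, 1, 4, 6), (0, 1, 5, 6), (0, 2, 3, 4), (0, 2, 3, 5),
      (0, 2, 3, 6), (0, 2, 4, 5), (0, 2, 4, 6), (0, 2, 5, 6), (0, 3, 4, 5), (0, 3, 4, 6),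
      (0, 3, 5, 6), (0, 4, 5, 6), (1, 2, 3, 4), (1, 2, 3, 5), (1, 2, 3, 6), (1, 2, 4, 5),
      (1, 2, 4, 6), (1, 2, 5, 6), (1, 3, 4, 5), (1, 3, 4, 6), (1, 3, 5, 6), (1, 4, 5, 6),
      (2, 3, 4, 5), (2, 3, 4, 6), (2, 3, 5, 6), (2, 4, 5, 6), (3, 4, 5, 6)] : List (Fin 7 × Fin 7
      × Fin 7 × Fin 7)) := by
  decide +kernel

theorem pl {C : Type} [CommRing C] {p : Fin 14 → C} (h : KK p) (i j k m : Fin 7) (h1 : i < j)
    (h2 : j < k) (h3 : k < m) :
    emb p (i, j) * emb p (k, m) - emb p (i, k) * emb p (j, m) + emb p (i, m) * emb p (j, k) = 0 := by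
  have := quad i j k m h1 h2 h3
  simp only [List.mem_cons, Prod.mk.injEq, List.not_mem_nil, or_false] at this
  rcases this with ⟨rfl, rfl, rfl, rfl⟩ | ⟨rfl, rfl, rfl, rfl⟩ | ⟨rfl, rfl, rfl, rfl⟩ |
    ⟨rfl, rfl, rfl, rfl⟩ | ⟨rfl, rfl, rfl, rfl⟩ | ⟨rfl, rfl, rfl, rfl⟩ | ⟨rfl, rfl, rfl, rfl⟩ |
    ⟨rfl, rfl, rfl, rfl⟩ | ⟨rfl, rfl, rfl, rfl⟩ | ⟨rfl, rfl, rfl, rfl⟩ | ⟨rfl, rfl, rfl, rfl⟩ |
    ⟨rfl, rfl, rfl, rfl⟩ | ⟨rfl, rfl, rfl, rfl⟩ | ⟨rfl, rfl, rfl, rfl⟩ | ⟨rfl, rfl, rfl, rfl⟩ |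
    ⟨rfl, rfl, rfl, rfl⟩ | ⟨rfl, rfl, rfl, rfl⟩ | ⟨rfl, rfl, rfl, rfl⟩ | ⟨rfl, rfl, rfl, rfl⟩ |
    ⟨rfl, rfl, rfl, rfl⟩ | ⟨rfl, rfl, rfl, rfl⟩ | ⟨rfl, rfl, rfl, rfl⟩ | ⟨rfl, rfl, rfl, rfl⟩ |
    ⟨rfl, rfl, rfl, rfl⟩ | ⟨rfl, rfl, rfl, rfl⟩ | ⟨rfl, rfl, rfl, rfl⟩ | ⟨rfl, rfl, rfl, rfl⟩ |
    ⟨rfl, rfl, rfl, rfl⟩ | ⟨rfl, rfl, rfl, rfl⟩ | ⟨rfl, rfl, rfl, rfl⟩ | ⟨rfl, rfl, rfl, rfl⟩ |
    ⟨rfl, rfl, rfl, rfl⟩ | ⟨rfl, rfl, rfl, rfl⟩ | ⟨rfl, rfl, rfl, rfl⟩ | ⟨rfl, rfl, rfl, rfl⟩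
  · change (-p 8) * p 9 - (-p 2) * (-p 13) + p 6 * p 10 = 0
    linear_combination -h.q11
  · change (-p 8) * p 1 - (-p 2) * (-p 7) + p 0 * p 10 = 0
    linear_combination h.q4 - h.q21
  · change (-p 8) * (p 7 - p 6) - (-p 2) * p 12 + (-p 4) * p 10 = 0
    linear_combination h.q9 - h.q12
  · change (-p 8) * (-p 5) - (-p 2) * p 11 + (-p 3) * p 10 = 0
    linear_combination h.q5
  · change (-p 8) * (-p 5) - p 6 * (-p 7) + p 0 * (-p 13) = 0
    linear_combination h.q5 + h.q8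
  · change (-p 8) * (-p 11) - p 6 * p 12 + (-p 4) * (-p 13) = 0
    linear_combination -h.q22
  · change (-p 8) * (-p 10) - p 6 * p 11 + (-p 3) * (-p 13) = 0
    linear_combination -h.q1
  · change (-p 8) * (-p 3) - p 0 * p 12 + (-p 4) * (-p 7) = 0
    linear_combination -h.q24
  · change (-p 8) * (-p 2) - p 0 * p 11 + (-p 3) * (-p 7) = 0
    linear_combination h.q3
  · change (-p 8) * p 8 - (-p 4) * p 11 + (-p 3) * p 12 = 0
    linear_combination -h.q15
  · change (-p 2) * (-p 5) - p 6 * p 1 + p 0 * p 9 = 0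
    linear_combination -h.q23
  · change (-p 2) * (-p 11) - p 6 * (p 7 - p 6) + (-p 4) * p 9 = 0
    linear_combination -h.q8 - h.q25
  · change (-p 2) * (-p 10) - p 6 * (-p 5) + (-p 3) * p 9 = 0
    linear_combination h.q7
  · change (-p 2) * (-p 3) - p 0 * (p 7 - p 6) + (-p 4) * p 1 = 0
    linear_combination -h.q27
  · change (-p 2) * (-p 2) - p 0 * (-p 5) + (-p 3) * p 1 = 0
    linear_combination -h.q17
  · change (-p 2) * p 8 - (-p 4) * (-p 5) + (-p 3) * (p 7 - p 6) = 0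
    linear_combination -h.q3 - h.q19
  · change p 6 * (-p 3) - p 0 * (-p 11) + (-p 4) * (-p 5) = 0
    linear_combination h.q19
  · change p 6 * (-p 2) - p 0 * (-p 10) + (-p 3) * (-p 5) = 0
    linear_combination h.q4
  · change p 6 * p 8 - (-p 4) * (-p 10) + (-p 3) * (-p 11) = 0
    linear_combination -h.q12
  · change p 0 * p 8 - (-p 4) * (-p 2) + (-p 3) * (-p 3) = 0
    linear_combination -h.q10
  · change p 10 * (-p 5) - (-p 13) * p 1 + (-p 7) * p 9 = 0
    linear_combination h.q18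
  · change p 10 * (-p 11) - (-p 13) * (p 7 - p 6) + p 12 * p 9 = 0
    linear_combination h.q26
  · change p 10 * (-p 10) - (-p 13) * (-p 5) + p 11 * p 9 = 0
    linear_combination h.q6
  · change p 10 * (-p 3) - (-p 7) * (p 7 - p 6) + p 12 * p 1 = 0
    linear_combination -h.q8 + h.q28
  · change p 10 * (-p 2) - (-p 7) * (-p 5) + p 11 * p 1 = 0
    linear_combination h.q14
  · change p 10 * p 8 - p 12 * (-p 5) + p 11 * (p 7 - p 6) = 0
    linear_combination -h.q1 + h.q20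
  · change (-p 13) * (-p 3) - (-p 7) * (-p 11) + p 12 * (-p 5) = 0
    linear_combination -h.q20
  · change (-p 13) * (-p 2) - (-p 7) * (-p 10) + p 11 * (-p 5) = 0
    linear_combination -h.q2
  · change (-p 13) * p 8 - p 12 * (-p 10) + p 11 * (-p 11) = 0
    linear_combination h.q13
  · change (-p 7) * p 8 - p 12 * (-p 2) + p 11 * (-p 3) = 0
    linear_combination h.q9
  · change p 9 * (-p 3) - p 1 * (-p 11) + (p 7 - p 6) * (-p 5) = 0
    linear_combination h.q7 + h.q14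
  · change p 9 * (-p 2) - p 1 * (-p 10) + (-p 5) * (-p 5) = 0
    linear_combination h.q16
  · change p 9 * p 8 - (p 7 - p 6) * (-p 10) + (-p 5) * (-p 11) = 0
    linear_combination h.q2 + h.q11
  · change p 1 * p 8 - (p 7 - p 6) * (-p 2) + (-p 5) * (-p 3) = 0
    linear_combination h.q21
  · change (-p 5) * p 8 - (-p 11) * (-p 2) + (-p 10) * (-p 3) = 0
    linear_combination -h.q5

end BR2x

open BR2x in
theorem p_BR2 :
    S_BR2 := by
  intro l C _ _ p h hl G hG
  rcases hG with ⟨i, j, rfl⟩ | ⟨i, j, k, m, h1, h2, h3, rfl⟩ | ⟨k, rfl⟩ | ⟨s, rfl⟩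
  · simpa using sk p i j
  · simpa using pl h i j k m h1 h2 h3
  · obtain ⟨c0, c1, c2, c3, c4, c5, c6⟩ := con (emb p)
    fin_cases k
    · refine c0.trans ?_
      change p 10 + (-p 10) = 0
      ring
    · refine c1.trans ?_
      change p 2 + (-p 2) = 0
      ring
    · refine c2.trans ?_
      change (-p 8) + p 8 = 0
      ring
    · refine c3.trans ?_
      change (-p 3) + p 3 = 0
      ring
    · refine c4.trans ?_
      change p 11 + (-p 11) = 0
      ring
    · refine c5.trans ?_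
      change (-p 5) + p 5 = 0
      ring
    · refine c6.trans ?_
      change p 6 + (-p 7) + (p 7 - p 6) = 0
      ring
  · simpa using hl s

end Pool.Agent.P.MP_6149fc_ag.V18

end

section

/-! Step BR3. -/

set_option autoImplicit false
set_option linter.unusedSectionVars false

namespace Pool.Agent.P.MP_6149fc_ag.V18

open scoped ENNReal
open MvPowerSeries (coeff X constantCoeff monomial)

namespace BR3x

theorem map_emb {C C' : Type} [CommRing C] [CommRing C'] (φ : C →+ C') (p : Fin 14 → C)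
    (i : Fin 7 × Fin 7) : φ (emb p i) = emb (fun a => φ (p a)) i := by
  obtain ⟨a, b⟩ := i
  fin_cases a <;> fin_cases b <;>
    first
    | rfl
    | exact map_zero φ
    | exact map_neg φ _
    | exact map_sub φ _ _

theorem pr_emb {C : Type} [CommRing C] (p : Fin 14 → C) : pr (emb p) = p := by
  funext a
  fin_cases a <;>
    first
    | rfl
    | exact neg_neg _

theorem emb_eq {κ C : Type} [Field κ] [CommRing C] [Algebra κ C] (p : Fin 14 → C)
    (i : Fin 7 × Fin 7) : emb p i = ∑ b, emb (Pi.single b (1 : κ)) i • p b := by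
  let φ : (Fin 14 → C) →+ C := ∑ b, Pi.evalAddMonoidHom (fun _ => C) b
  have hφ : ∀ x, φ x = ∑ b, x b := fun x => by simp [φ]
  have h1 := map_emb φ (fun a => Pi.single a (p a)) i
  have h2 : (fun a => φ (Pi.single a (p a))) = p := funext fun a => by simp [hφ]
  rw [h2, hφ] at h1
  rw [← h1]
  refine Finset.sum_congr rfl fun b _ => ?_
  have h3 := map_emb (Pi.evalAddMonoidHom (fun _ : Fin 14 => C) b) (fun a => Pi.single a (p a)) i
  have h4 := map_emb (LinearMap.toSpanSingleton κ C (p b)).toAddMonoidHom (Pi.single b (1 : κ)) i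
  refine h3.trans (Eq.trans ?_ h4.symm)
  congr 1
  funext a
  by_cases e : a = b
  · subst e; simp
  · simp [e, Ne.symm e]

theorem contr_hom (k : Fin 7) : (contraction k).IsHomogeneous 1 := by
  refine list_sum_mem (S := MvPolynomial.homogeneousSubmodule (Fin 7 × Fin 7) ℂ 1) ?_
  intro G hG
  obtain ⟨t, -, rfl⟩ := List.mem_map.1 hG
  refine add_mem (add_mem ?_ ?_) ?_ <;> split_ifs <;>
    first
    | exact zero_mem _
    | exact MvPolynomial.isHomogeneous_X _ _

end BR3x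

open BR3x in
theorem p_BR3 :
    S_BR3 := by
  refine ⟨fun l G hG => ?_, fun C _ p => pr_emb p, fun C C' _ _ φ => ⟨map_emb φ, fun P a => ?_⟩,
    fun κ C _ _ _ _ _ _ p => ⟨fun l => ?_, ?_⟩⟩
  · have hX := fun i : Fin 7 × Fin 7 => MvPolynomial.isHomogeneous_X ℂ i
    rcases hG with ⟨i, j, rfl⟩ | ⟨i, j, k, m, -, -, -, rfl⟩ | ⟨k, rfl⟩ | ⟨s, rfl⟩
    · exact ⟨1, (hX _).add (hX _)⟩
    · exact ⟨1 + 1, (((hX _).mul (hX _)).sub ((hX _).mul (hX _))).add ((hX _).mul (hX _))⟩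
    · exact ⟨1, contr_hom k⟩
    · exact ⟨1, MvPolynomial.IsHomogeneous.sum _ _ _ fun i _ => (hX i).C_mul _⟩
  · fin_cases a <;>
      first
      | rfl
      | exact map_neg φ _
  · simp only [dot, l14, Finset.sum_smul, emb_eq (κ := κ) p, Finset.mul_sum]
    rw [Finset.sum_comm]
    refine Finset.sum_congr rfl fun i _ => Finset.sum_congr rfl fun b _ => ?_
    rw [mul_smul, algebraMap_smul, Algebra.smul_def]
  · have : Submodule.span κ (Set.range (emb p)) = Submodule.span κ (Set.range p) := by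
      refine le_antisymm (Submodule.span_le.2 ?_) (Submodule.span_le.2 ?_)
      · rintro _ ⟨i, rfl⟩
        rw [SetLike.mem_coe, emb_eq (κ := κ)]
        exact Submodule.sum_mem _ fun b _ =>
          Submodule.smul_mem _ _ (Submodule.subset_span ⟨b, rfl⟩)
      · rintro _ ⟨a, rfl⟩
        rw [SetLike.mem_coe, ← congrFun (pr_emb p) a]
        fin_cases a <;>
          first
          | exact neg_mem (Submodule.subset_span ⟨_, rfl⟩)
          | exact Submodule.subset_span ⟨(0, 4), rfl⟩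
          | exact Submodule.subset_span ⟨(2, 4), rfl⟩
          | exact Submodule.subset_span ⟨(0, 3), rfl⟩
          | exact Submodule.subset_span ⟨(2, 3), rfl⟩
          | exact Submodule.subset_span ⟨(1, 2), rfl⟩
          | exact Submodule.subset_span ⟨(1, 6), rfl⟩
          | exact Submodule.subset_span ⟨(1, 5), rfl⟩
    funext M
    rw [UU, UU, this]

end Pool.Agent.P.MP_6149fc_ag.V18

end
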