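import Pool.Agent.P.MP_6149fc_ag.V18.IfaceA

section

/-! Step CHIND. -/

set_option autoImplicit false
set_option linter.unusedSectionVars false

namespace Pool.Agent.P.MP_6149fc_ag.V18

open scoped ENNReal
open MvPowerSeries (coeff X constantCoeff monomial)

namespace CHINDx

theorem poly {κ : Type} [Field κ] {k : ℕ} {g : PS κ} (h : Hm w3 k g) :
    ∃ p : MvPolynomial (Fin 3) κ, g = p := by
  classical
  refine ⟨MvPowerSeries.trunc' κ (ex k k k) g, MvPowerSeries.ext fun α => ?_⟩
  rw [MvPolynomial.coeff_coe, MvPowerSeries.coeff_trunc']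
  split_ifs with h1
  · rfl
  · by_contra h2
    have h3 : wt w3 α = k := h α h2
    have e0 : w3 0 = 1 := rfl
    have e1 : w3 1 = 2 := rfl
    have e2 : w3 2 = 3 := rfl
    unfold wt at h3
    rw [e0, e1, e2] at h3
    refine h1 fun j => ?_
    fin_cases j
    · show α 0 ≤ k
      omega
    · show α 1 ≤ k
      omega
    · show α 2 ≤ k
      omega

theorem sub_eq {κ κ' : Type} [Field κ] [Field κ'] [Algebra κ κ']
    (q : Fin 3 → MvPolynomial (Fin 3) κ') (p : MvPolynomial (Fin 3) κ) :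
    (MvPowerSeries.subst (fun j => (q j : PS κ')) (p : PS κ) : PS κ') =
      ((MvPolynomial.aeval q (MvPolynomial.map (algebraMap κ κ') p) :
        MvPolynomial (Fin 3) κ') : PS κ') := by
  rw [MvPowerSeries.subst_coe]
  induction p using MvPolynomial.induction_on with
  | C a => simp [MvPowerSeries.algebraMap_apply]
  | add p p' h h' => simp only [map_add, h, h', MvPolynomial.coe_add]
  | mul_X p j h =>
    simp only [map_mul, h, MvPolynomial.coe_mul, MvPolynomial.aeval_X, MvPolynomial.map_X]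

theorem map_eq {κ κ' : Type} [Field κ] [Field κ'] [Algebra κ κ'] (p : MvPolynomial (Fin 3) κ) :
    MvPowerSeries.map (algebraMap κ κ') (p : PS κ) =
      ((MvPolynomial.map (algebraMap κ κ') p : MvPolynomial (Fin 3) κ') : PS κ') := by
  ext α
  simp [MvPolynomial.coeff_map]

theorem coe_comb {κ : Type} [Field κ] {ι : Type} (s : Finset ι) (c : ι → κ)
    (p : ι → MvPolynomial (Fin 3) κ) :
    ((∑ i ∈ s, c i • p i : MvPolynomial (Fin 3) κ) : PS κ) = ∑ i ∈ s, c i • (p i : PS κ) := by
  ext α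
  simp [MvPolynomial.coeff_sum]

theorem inj {κ : Type} [Field κ] [Infinite κ] (q : Fin 3 → MvPolynomial (Fin 3) κ)
    (hq : ∀ a : Fin 3 → κ, (∀ j, a j ≠ 0) → ∃ u : Fin 3 → κ,
      ∀ j, MvPolynomial.eval u (q j) = a j) (p : MvPolynomial (Fin 3) κ)
    (hp : MvPolynomial.aeval q p = 0) : p = 0 := by
  have h1 : p * (MvPolynomial.X 0 * MvPolynomial.X 1 * MvPolynomial.X 2) = 0 := by
    apply MvPolynomial.funext
    intro a
    by_cases ha : ∀ j, a j ≠ 0
    · obtain ⟨u, hu⟩ := hq a ha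
      have h2 : MvPolynomial.eval u (MvPolynomial.aeval q p) = MvPolynomial.eval a p := by
        have e : a = fun j => MvPolynomial.eval u (q j) := funext fun j => (hu j).symm
        rw [e]
        clear hp
        induction p using MvPolynomial.induction_on with
        | C c => simp
        | add p p' h h' => simp only [map_add, h, h']
        | mul_X p j h => simp only [map_mul, h, MvPolynomial.aeval_X, MvPolynomial.eval_X]
      rw [hp, map_zero] at h2
      rw [map_mul, ← h2, zero_mul, map_zero]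
    · push Not at ha
      obtain ⟨j, hj⟩ := ha
      fin_cases j <;> simp_all
  rcases mul_eq_zero.1 h1 with h | h
  · exact h
  · exact absurd h (mul_ne_zero (mul_ne_zero (MvPolynomial.X_ne_zero _)
      (MvPolynomial.X_ne_zero _)) (MvPolynomial.X_ne_zero _))

end CHINDx

theorem p_CHIND (hBC : S_BC) :
    S_CHIND := by
  intro κ κ' _ _ _ _ θ n g k hθ hg hli
  obtain ⟨-, q, hq, hs⟩ := hθ
  have e : θ = fun j => (q j : PS κ') := funext hq
  subst e
  choose p hp using fun i => CHINDx.poly (hg i)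
  have h0 := (hBC κ κ').1 _ g hli
  rw [linearIndependent_iff'] at h0 ⊢
  intro s c hc
  apply h0 s c
  simp only [hp, CHINDx.sub_eq] at hc
  rw [← CHINDx.coe_comb, MvPolynomial.coe_eq_zero_iff] at hc
  have h1 : ∑ i ∈ s, c i • MvPolynomial.map (algebraMap κ κ') (p i) = 0 := by
    apply CHINDx.inj q hs
    rw [map_sum]
    simp only [map_smul]
    exact hc
  simp only [hp, CHINDx.map_eq]
  rw [← CHINDx.coe_comb, h1, MvPolynomial.coe_zero]

end Pool.Agent.P.MP_6149fc_ag.V18

end

section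

/-! Step PULL. -/

set_option autoImplicit false
set_option linter.unusedSectionVars false

namespace Pool.Agent.P.MP_6149fc_ag.V18

open scoped ENNReal
open MvPowerSeries (coeff X constantCoeff monomial)

namespace PULLx

variable {κ κ' : Type} [Field κ] [Field κ'] [Algebra κ κ']

theorem span_eq (φ : PS κ →ₐ[κ] PS κ') (W : Submodule κ (PS κ)) {ι : Type}
    (b : Module.Basis ι κ W) :
    Submodule.span κ' (φ '' (W : Set (PS κ))) = Submodule.span κ' (Set.range fun i => φ (b i)) := by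
  refine le_antisymm (Submodule.span_le.2 ?_) (Submodule.span_mono ?_)
  · rintro _ ⟨f, hf, rfl⟩
    have h1 : ∀ g ∈ Submodule.span κ (Set.range b),
        φ (g : PS κ) ∈ Submodule.span κ' (Set.range fun i => φ (b i)) := by
      intro g hg
      induction hg using Submodule.span_induction with
      | mem x hx =>
        obtain ⟨i, rfl⟩ := hx
        exact Submodule.subset_span ⟨i, rfl⟩
      | zero => simp
      | add x y _ _ hx hy =>
        rw [Submodule.coe_add, map_add]
        exact Submodule.add_mem _ hx hy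
      | smul c x _ hx =>
        rw [Submodule.coe_smul, map_smul, ← algebraMap_smul κ']
        exact Submodule.smul_mem _ _ hx
    exact h1 ⟨f, hf⟩ (by rw [b.span_eq]; trivial)
  · rintro _ ⟨i, rfl⟩
    exact ⟨_, (b i).2, rfl⟩

end PULLx

theorem p_PULL :
    S_PULL := by
  intro κ κ' _ _ _ θ hθ
  have h0 : ∀ j, constantCoeff (θ j) = 0 := fun j => by
    by_contra h
    have := hθ j 0 (by simpa using h)
    fin_cases j <;> simp [wt, w3] at this
  have hs : MvPowerSeries.HasSubst θ := MvPowerSeries.hasSubst_of_constantCoeff_zero h0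
  let φ : PS κ →ₐ[κ] PS κ' := MvPowerSeries.substAlgHom hs
  have hφ : (fun f : PS κ => (MvPowerSeries.subst θ f : PS κ')) = φ :=
    (MvPowerSeries.coe_substAlgHom hs).symm
  refine ⟨h0, fun U hU => ?_, fun g k hg α hα => ?_⟩
  · have hP : ∀ M, Pull κ' θ U M = Submodule.span κ' (φ '' (U M : Set (PS κ))) := fun M => by
      rw [Pull, hφ]
    have hB : ∀ M, Pull κ' θ U M = Submodule.span κ' (Set.range fun i =>
        φ (@Module.finBasis κ (U M) _ _ _ _ _ (hU.fin M) i)) := fun M => by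
      rw [hP, PULLx.span_eq]
    have h1 : ∀ M, 1 ∈ U M → 1 ∈ Pull κ' θ U M := fun M h => by
      rw [hP]
      exact Submodule.subset_span ⟨1, h, map_one φ⟩
    refine ⟨⟨fun M => ?_, fun M M' f g hf hg => ?_, h1 _ hU.one0, h1 _ hU.one1⟩, fun M => ?_⟩
    · rw [hB]
      exact FiniteDimensional.span_of_finite _ (Set.finite_range _)
    · rw [hP] at hf hg ⊢
      have h2 := Submodule.mul_mem_mul hf hg
      rw [Submodule.span_mul_span] at h2
      refine Submodule.span_mono ?_ h2
      rintro _ ⟨_, ⟨a, ha, rfl⟩, _, ⟨b, hb, rfl⟩, rfl⟩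
      exact ⟨a * b, hU.mul _ _ _ _ ha hb, map_mul φ a b⟩
    · rw [hB]
      exact (finrank_range_le_card _).trans (Fintype.card_fin _).le
  · rw [MvPowerSeries.coeff_subst hs] at hα
    by_contra hc
    refine hα (finsum_eq_zero_of_forall_eq_zero fun d => ?_)
    by_cases h1 : coeff d g = 0
    · rw [h1, zero_smul]
    · have h2 : Hm e1 k (d.prod fun s e => θ s ^ e) := by
        rw [Finsupp.prod_fintype _ _ (fun _ => pow_zero _), ← hg d h1]
        have h3 := Hm.prod Finset.univ fun j => (hθ j).pow (d j)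
        rwa [show ∑ j, d j * w3 j = wt w3 d by rw [Fin.sum_univ_three, wt]; ring] at h3
      have h3 : coeff α (d.prod fun s e => θ s ^ e) = 0 := by
        by_contra h4
        exact hc (h2 α h4)
      rw [h3, smul_zero]

end Pool.Agent.P.MP_6149fc_ag.V18

end

section

/-! Step KB0. -/

set_option autoImplicit false
set_option linter.unusedSectionVars false

namespace Pool.Agent.P.MP_6149fc_ag.V18

open scoped ENNReal
open MvPowerSeries (coeff X constantCoeff monomial)

theorem p_KB0 (hCHIND : S_CHIND) (hPULL : S_PULL) (hTWO2 : S_TWO2) :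
    S_KB0 := by
  classical
  intro κ _ _ θ A G V hθ hA hF hS M n g k hg
  obtain ⟨hm, hh, hi⟩ := hg
  have hind := hCHIND κ κ θ n g k hθ hh hi
  have hH : ∀ i, Hm e1 (k i) (MvPowerSeries.subst θ (g i) : PS κ) := fun i =>
    (hPULL κ κ θ hθ.1).2.2 (g i) (k i) (hh i)
  obtain ⟨f', g', γ, hγ, h⟩ := hTWO2 κ A (row1 e1) (Fin n) ℕ (Pull κ θ G M)
    (fun i => MvPowerSeries.subst θ (g i)) (fun i => MvPowerSeries.subst θ (g i))
    (fun i => toLex (((k i : ℕ) : ℤ), toLex (0, 0))) (fun _ => 0) hA hF.refines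
    (fun i => Submodule.subset_span ⟨g i, hm i, rfl⟩) (fun i => (hH i).ld.leadK) hind
  have hk : ∀ i, γ i 0 = k i := fun i => by
    have h1 := (h i).2.2.2.2.2
    rw [kk_row1, toLex_inj, Prod.mk.injEq] at h1
    have h2 : wt e1 (γ i) = k i := Int.ofNat_inj.1 h1.1
    simpa [wt, e1] using h2
  have h3 := hS M (Finset.univ.image γ) (fun η hη => by
    obtain ⟨i, -, rfl⟩ := Finset.mem_image.1 hη
    exact ⟨f' i, (h i).1, (h i).2.2.2.2.1⟩)
  rw [Finset.sum_image (fun i _ j _ e => hγ e)] at h3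
  simpa only [hk] using h3

end Pool.Agent.P.MP_6149fc_ag.V18

end

section

/-! Step CHJET. -/

set_option autoImplicit false
set_option linter.unusedSectionVars false

namespace Pool.Agent.P.MP_6149fc_ag.V18

open scoped ENNReal
open MvPowerSeries (coeff X constantCoeff monomial)

namespace CHJETx

/-- A lower bound for the order along an arc passes to the span. -/
theorem order_span {κ L : Type} [Field κ] [Field L] [Algebra κ L]
    (ψ : PS κ →ₐ[κ] PowerSeries L) (S : Set (PS κ)) (r : ℕ∞)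
    (hS : ∀ f ∈ S, r ≤ (ψ f).order) {f : PS κ} (hf : f ∈ Submodule.span κ S) :
    r ≤ (ψ f).order := by
  induction hf using Submodule.span_induction with
  | mem x hx => exact hS x hx
  | zero => rw [map_zero, PowerSeries.order_zero]; exact le_top
  | add x y _ _ hx hy =>
    rw [map_add]
    exact (le_min hx hy).trans (PowerSeries.min_order_le_order_add _ _)
  | smul c x _ hx =>
    rw [map_smul, ← algebraMap_smul L c]
    exact hx.trans PowerSeries.le_order_smul

/-- The sum of a coordinate of distinct initial exponents. -/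
theorem sum_le {κ : Type} [Field κ] {A : Rows} {U : ℕ → Submodule κ (PS κ)} {j : Fin 3} {V : ℝ}
    (h : SumLe A U j 1 V) {M μ n : ℕ} (hb : Big V M μ) {γ : Fin n → Ex}
    (hγ : Function.Injective γ) (hp : ∀ i, Pt A U M (γ i)) : (∑ i, γ i) j + 2 ≤ μ := by
  classical
  have h1 := h M (Finset.univ.image γ) fun β hβ => by
    obtain ⟨i, -, rfl⟩ := Finset.mem_image.1 hβ
    exact hp i
  rw [Finset.sum_image fun a _ b _ e => hγ e, one_mul] at h1
  rw [Finsupp.finsetSum_apply]
  unfold Big at hb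
  have h2 : (((∑ i, γ i j : ℕ) : ℝ)) + 2 ≤ μ := by linarith
  exact_mod_cast h2

end CHJETx

theorem p_CHJET (hCHIND : S_CHIND) (hPULL : S_PULL) (hTWO2 : S_TWO2) (hREGION : S_REGION) (hSUBC : S_SUBC) (hBC : S_BC) :
    S_CHJET := by
  intro κ κ' L _ _ _ _ _ _ _ _ G V θ A M μ n g k z z' N N' a a' e hch hA hF h1 h2 _hV hs1 hs2 hK
    hbig hfam hz hz' hord he hcong hdvd hcod ha hN hN' heN h3e
  classical
  obtain ⟨hθ0, -, hHm⟩ := hPULL κ κ' θ hch.1
  let F : Fin n → PS κ' := fun i => MvPowerSeries.subst θ (g i)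
  have hFm : ∀ i, F i ∈ Pull κ' θ G M := fun i => Submodule.subset_span ⟨g i, hfam.1 i, rfl⟩
  have hFh : ∀ i, Hm e1 (k i) (F i) := fun i => hHm (g i) (k i) (hfam.2.1 i)
  have hFi : LinearIndependent κ' F := hCHIND κ κ' θ n g k hch hfam.2.1 hfam.2.2
  obtain ⟨ψ, hψ, -⟩ := exists_subHom (κ := κ') hz'
  obtain ⟨f', g', γ, hγ, hp⟩ := hTWO2 κ' A (row1 e1) (Fin n) ℕ∞ (Pull κ' θ G M) F F
    (fun i => toLex ((k i : ℤ), toLex (0, 0))) (fun i => (ψ (F i)).order) hA hF.refines hFm
    (fun i => (hFh i).ld.leadK) hFi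
  have hg'h : ∀ i, Hm e1 (k i) (g' i) := fun i => (hp i).2.1.ld.1
  have hg'o : ∀ i, (ψ (F i)).order ≤ (ψ (g' i)).order := fun i =>
    CHJETx.order_span ψ _ _ (by rintro _ ⟨j, hj, rfl⟩; exact hj.2) (hp i).2.2.1
  -- the product of the pulled back series vanishes to order `N`
  have hcen : Cen fun j => sub z' (θ j) := fun j => by
    rw [((hBC κ' κ').2 L z' hz').2.1 (θ j), hθ0 j, map_zero]
  have hprod : (MvPowerSeries.subst θ (∏ i, g i) : PS κ') = ∏ i, F i := by
    have hs : MvPowerSeries.HasSubst θ := MvPowerSeries.hasSubst_of_constantCoeff_zero hθ0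
    rw [← MvPowerSeries.substAlgHom_apply hs, map_prod]
    exact Finset.prod_congr rfl fun i _ => MvPowerSeries.substAlgHom_apply hs _
  have hd1 : PowerSeries.X ^ N ∣ ψ (∏ i, F i) := by
    rw [hψ, ← hprod, ((hBC κ κ').2 L z' hz').2.2 θ _ hθ0]
    have h3 := hSUBC κ L z (fun j => sub z' (θ j)) N (∏ i, g i) hz hcen hcong
    have h4 := dvd_sub hdvd h3
    rwa [sub_sub_cancel] at h4
  have hd2 : PowerSeries.X ^ N' ∣ sub z' (∏ i, g' i) := by
    refine (pow_dvd_pow _ hN').trans ?_
    rw [← hψ, dvd_iff_le_order]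
    refine (dvd_iff_le_order.1 hd1).trans ?_
    rw [map_prod, map_prod, PowerSeries.order_prod, PowerSeries.order_prod]
    exact Finset.sum_le_sum fun i _ => hg'o i
  have hpt : ∀ i, Pt A (Pull κ' θ G) M (γ i) := fun i => ⟨f' i, (hp i).1, (hp i).2.2.2.2.1⟩
  have b1 := CHJETx.sum_le hs1 hbig hγ hpt
  have b2 := CHJETx.sum_le hs2 hbig hγ hpt
  have bk : ∑ i, k i + 12 ≤ 6 * μ := by
    have h3 := hK M n g k hfam
    unfold Big at hbig
    have h4 : ((∑ i, k i : ℕ) : ℝ) + 12 ≤ 6 * μ := by linarith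
    exact_mod_cast h4
  obtain ⟨m, rfl⟩ : ∃ m, μ = m + 1 := ⟨μ - 1, by omega⟩
  have key := hREGION κ' L A e1 0 5 (∑ i, k i) m N' a' e (∏ i, g' i) (∑ i, γ i) z' hF h1 h2
    (by decide) (Hm.prod _ hg'h) (Init.prod _ fun i => (hp i).2.2.2.1) (by omega)
    (by
      have h3 : e1 0 + e1 1 + e1 2 + 5 * e1 0 = 6 := by decide
      rw [h3]; omega)
    (fun j hj => by
      fin_cases j
      · exact absurd rfl hj
      · exact (by omega : (∑ i, γ i) 1 ≤ m)
      · exact (by omega : (∑ i, γ i) 2 ≤ m))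
    hord he heN
    (fun j hj l hl => by
      have h3 : e1 j = 0 := by
        fin_cases j
        · exact absurd rfl hj
        · rfl
        · rfl
      have h4 : e1 0 = 1 := rfl
      rw [h3, h4] at hl
      have h5 : l = 0 := by omega
      rw [h5, PowerSeries.coeff_zero_eq_constantCoeff_apply]
      exact hz' j)
    hd2 hcod
  have h5 : m * (a' + 1 + 5 * e) ≤ m * (a + 3) := Nat.mul_le_mul_left _ (by omega)
  rw [Nat.succ_mul]
  omega

end Pool.Agent.P.MP_6149fc_ag.V18

end

section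

/-! Step REGF. -/

set_option autoImplicit false
set_option linter.unusedSectionVars false

namespace Pool.Agent.P.MP_6149fc_ag.V18

open scoped ENNReal
open MvPowerSeries (coeff X constantCoeff monomial)

theorem p_REGF (hTWO2 : S_TWO2) (hREGION : S_REGION) :
    S_REGF := by
  classical
  intro κ L _ _ _ G V A i0 M μ n g k z N a o hA hF h1 h2 hV hS hK hB hg hz ho hd hc
  obtain ⟨f', g', γ, hinj, H⟩ := hTWO2 κ A (row1 w3) (Fin n) ℕ∞ (G M) g g
    (fun i => toLex ((k i : ℤ), toLex (0, 0))) (fun i => (sub z (g i)).order) hA hF.refines hg.1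
    (fun i => (hg.2.1 i).ld.leadK) hg.2.2
  obtain ⟨ψ, hψ, -⟩ := exists_subHom (κ := κ) hz.1
  have e1 : ∀ i, (sub z (g i)).order ≤ (sub z (g' i)).order := fun i => by
    refine PowerSeries.le_order _ _ fun l hl => ?_
    rw [← hψ]
    refine Submodule.span_induction (p := fun f _ => PowerSeries.coeff l (ψ f) = 0) ?_ (by simp)
      (fun x y _ _ hx hy => by rw [map_add, map_add, hx, hy, add_zero])
      (fun c x _ hx => by rw [map_smul, LinearMap.map_smul_of_tower, hx, smul_zero]) (H i).2.2.1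
    rintro _ ⟨j, hj, rfl⟩
    rw [hψ]
    exact PowerSeries.coeff_of_lt_order l (hl.trans_le hj.2)
  have e2 : PowerSeries.X ^ N ∣ sub z (∏ i, g' i) := by
    rw [dvd_iff_le_order, ← hψ, map_prod, PowerSeries.order_prod] at hd ⊢
    exact hd.trans (Finset.sum_le_sum fun i _ => by rw [hψ, hψ]; exact e1 i)
  have hp : 0 ≤ V * ((M : ℝ) + 15) ^ 4 := by positivity
  have hB' : V * ((M : ℝ) + 15) ^ 4 + 2 ≤ μ := hB
  have e3 : 1 ≤ μ := by
    have : (1 : ℝ) ≤ μ := by linarith
    exact_mod_cast this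
  have e4 : ∑ i, k i ≤ 6 * μ := by
    have : ((∑ i, k i : ℕ) : ℝ) ≤ 6 * μ := by linarith [hK M n g k hg]
    exact_mod_cast this
  have e5 : ∀ j, j ≠ i0 → (∑ i, γ i) j ≤ μ := fun j hj => by
    have := hS j hj M (Finset.univ.image γ) fun η hη => by
      obtain ⟨i, -, rfl⟩ := Finset.mem_image.1 hη
      exact ⟨f' i, (H i).1, (H i).2.2.2.2.1⟩
    rw [Finset.sum_image fun x _ y _ e => hinj e] at this
    rw [Finsupp.finset_sum_apply]
    have h : ((∑ i, γ i j : ℕ) : ℝ) ≤ μ := by linarith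
    exact_mod_cast h
  have w0 : 0 < w3 i0 := by fin_cases i0 <;> simp [w3]
  have := hREGION κ L A w3 i0 0 (∑ i, k i) μ N a (o i0) (∏ i, g' i) (∑ i, γ i) z hF h1 h2 w0
    (Hm.prod _ fun i => (H i).2.1.ld.1) (Init.prod _ fun i => (H i).2.2.2.1) e3
    (by simpa [w3] using e4) e5 (hz.2 i0).1 (hz.2 i0).2.1 (hz.2 i0).2.2.1
    (fun j hj l hl => PowerSeries.coeff_of_lt_order l (by
      rw [(hz.2 j).1]
      exact_mod_cast Nat.lt_of_mul_lt_mul_left (hl.trans_lt (ho j hj)))) e2 hc
  exact this.trans (Nat.mul_le_mul_left _ (by omega))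

end Pool.Agent.P.MP_6149fc_ag.V18

end

section

/-! Step ARCX. -/

set_option autoImplicit false
set_option linter.unusedSectionVars false

namespace Pool.Agent.P.MP_6149fc_ag.V18

open scoped ENNReal
open MvPowerSeries (coeff X constantCoeff monomial)

namespace ARCXx

theorem cf_mono {κ L : Type} [Field κ] [Field L] [Algebra κ L] {F : IntermediateField κ L}
    {n m : ℕ} {f : PowerSeries L} (h : CF F n f) (hm : m ≤ n) : CF F m f :=
  fun l hl => h l (hl.trans_le hm)

theorem exists_unit {L : Type} [Field L] {f : PowerSeries L} {e : ℕ} (h : f.order = e) :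
    ∃ u v : PowerSeries L, f = PowerSeries.X ^ e * u ∧ u * v = 1 := by
  obtain ⟨u, hu⟩ := dvd_iff_le_order.2 h.ge
  have h1 : PowerSeries.constantCoeff u ≠ 0 := fun h0 => by
    obtain ⟨w, hw⟩ := PowerSeries.X_dvd_iff.2 h0
    have h2 : PowerSeries.X ^ (e + 1) ∣ f := ⟨w, by rw [hu, hw]; ring⟩
    have h3 := dvd_iff_le_order.1 h2
    rw [h, Nat.cast_le] at h3
    omega
  exact ⟨u, u⁻¹, hu, PowerSeries.mul_inv_cancel u h1⟩

end ARCXx

theorem p_ARCX (hRKA : S_RKA) (hCFA : S_CFA) :
    S_ARCX := by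
  classical
  intro κ L _ _ _ z N a e hC h0 h1 h2 hN ha
  obtain ⟨u, v, hu, huv⟩ := ARCXx.exists_unit h0
  obtain ⟨y, hy⟩ := h1
  obtain ⟨s, hs⟩ := h2
  have e1 : z 1 = PowerSeries.X ^ (2 * e) * (u ^ 2 * (y * v ^ 2)) := by
    rw [hy]
    linear_combination (-PowerSeries.X ^ (2 * e) * y * (u * v + 1)) * huv
  have e2 : z 2 = PowerSeries.X ^ (3 * e) * (u ^ 3 * (s * v ^ 3)) := by
    rw [hs]
    linear_combination (-PowerSeries.X ^ (3 * e) * s * ((u * v) ^ 2 + u * v + 1)) * huv
  generalize y * v ^ 2 = Y at e1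
  generalize s * v ^ 3 = Z at e2
  refine ⟨Y, Z, by rw [e1, hu]; ring, by rw [e2, hu]; ring, ?_⟩
  obtain ⟨n, rfl⟩ := Nat.exists_eq_add_of_le' hN
  obtain ⟨b, rfl⟩ := Nat.exists_eq_add_of_le' ha
  rw [Nat.add_sub_cancel, Nat.add_sub_cancel]
  obtain ⟨r1, r2, -⟩ := hRKA κ L
  let t : Finset L := (Finset.Ico n (n + 3 * e)).image (fun l => PowerSeries.coeff l (z 0)) ∪
    (Finset.Ico n (n + e)).image fun l => PowerSeries.coeff l Y
  have ht : t.card ≤ 4 * e := by
    refine (Finset.card_union_le _ _).trans ((Nat.add_le_add Finset.card_image_le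
      Finset.card_image_le).trans ?_)
    simp only [Nat.card_Ico]
    omega
  let F := IntermediateField.adjoin κ (cf ![z 0, Y, Z] n ∪ (t : Set L))
  obtain ⟨c1, c2, c3, -⟩ := hCFA κ L F
  have m : ∀ x ∈ cf ![z 0, Y, Z] n ∪ (t : Set L), x ∈ F := fun x hx =>
    IntermediateField.subset_adjoin _ _ hx
  have a0 : CF F (n + 3 * e) (z 0) := fun l hl => m _ (by
    by_cases h : l < n
    · exact .inl ⟨0, l, h, rfl⟩
    · exact .inr (Finset.mem_union_left _
        (Finset.mem_image_of_mem _ (Finset.mem_Ico.2 ⟨not_lt.1 h, hl⟩))))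
  have aY : CF F (n + e) Y := fun l hl => m _ (by
    by_cases h : l < n
    · exact .inl ⟨1, l, h, rfl⟩
    · exact .inr (Finset.mem_union_right _
        (Finset.mem_image_of_mem _ (Finset.mem_Ico.2 ⟨not_lt.1 h, hl⟩))))
  have aZ : CF F n Z := fun l hl => m _ (.inl ⟨2, l, hl, rfl⟩)
  have au : CF F (n + 2 * e) u := (c3 _ e u).2 (hu ▸ ARCXx.cf_mono a0 (by omega))
  have a1 : CF F (n + 3 * e) (z 1) := e1 ▸ ARCXx.cf_mono ((c3 _ (2 * e) _).1
    (c1 _ _ _ (c2 _ 2 u (ARCXx.cf_mono au (by omega))) aY)) (by omega)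
  have a2 : CF F (n + 3 * e) (z 2) := e2 ▸ (c3 _ (3 * e) _).1
    (c1 _ _ _ (c2 _ 3 u (ARCXx.cf_mono au (by omega))) aZ)
  have h3 : rk κ (cf z (n + 3 * e)) ≤ rk κ (cf ![z 0, Y, Z] n) + (4 * e : ℕ) := by
    refine (r1 _ _ ?_).trans ((r2 _ t).trans (by gcongr))
    rintro x ⟨j, l, hl, rfl⟩
    fin_cases j
    exacts [a0 l hl, a1 l hl, a2 l hl]
  have h4 := le_trans hC (add_le_add_left h3 _)
  unfold Cod
  generalize rk κ (cf ![z 0, Y, Z] n) = r at h4 ⊢
  induction r using ENat.recTopCoe with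
  | top => simp
  | coe r =>
    norm_cast at h4 ⊢
    omega

end Pool.Agent.P.MP_6149fc_ag.V18

end

section

/-! Step ARCT. -/

set_option autoImplicit false
set_option linter.unusedSectionVars false

namespace Pool.Agent.P.MP_6149fc_ag.V18

open scoped ENNReal
open MvPowerSeries (coeff X constantCoeff monomial)

namespace ARCTx

theorem order_split {L : Type} [Field L] (f : PowerSeries L) (n : ℕ) (h : f.order = (n : ℕ)) :
    ∃ u : PowerSeries L, PowerSeries.constantCoeff u ≠ 0 ∧ f = PowerSeries.X ^ n * u := by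
  have h' := PowerSeries.order_eq_nat.1 h
  have hd : PowerSeries.X ^ n ∣ f := PowerSeries.X_pow_dvd_iff.2 h'.2
  obtain ⟨u, hu⟩ := hd
  refine ⟨u, ?_, hu⟩
  have h1 := h'.1
  rw [hu] at h1
  have h2 : PowerSeries.coeff (0 + n) (PowerSeries.X ^ n * u) = PowerSeries.coeff 0 u :=
    PowerSeries.coeff_X_pow_mul u n 0
  rw [zero_add] at h2
  rw [h2, PowerSeries.coeff_zero_eq_constantCoeff_apply] at h1
  exact h1

theorem order_unit {L : Type} [Field L] (u : PowerSeries L) (n : ℕ)
    (h : PowerSeries.constantCoeff u ≠ 0) :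
    PowerSeries.order (PowerSeries.X ^ n * u) = (n : ℕ∞) := by
  rw [PowerSeries.order_eq_nat]
  refine ⟨?_, ?_⟩
  · have h2 : PowerSeries.coeff (0 + n) (PowerSeries.X ^ n * u) = PowerSeries.coeff 0 u :=
      PowerSeries.coeff_X_pow_mul u n 0
    rw [zero_add] at h2
    rw [h2, PowerSeries.coeff_zero_eq_constantCoeff_apply]
    exact h
  · intro i hi
    exact PowerSeries.X_pow_dvd_iff.1 (dvd_mul_right _ _) i hi

theorem fin_step (r : ℕ∞) (N a e : ℕ) (_h1 : 3 * e < N) (h2 : 5 * e ≤ a)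
    (h : ((3 * N : ℕ) : ℕ∞) ≤ r + (e : ℕ) + a) :
    ((3 * (N - 2 * e) : ℕ) : ℕ∞) ≤ r + ((a - 5 * e : ℕ) : ℕ∞) := by
  induction r using ENat.recTopCoe with
  | top => simp
  | coe r =>
    have h3 : 3 * N ≤ r + e + a := by exact_mod_cast h
    have h4 : 3 * (N - 2 * e) ≤ r + (a - 5 * e) := by omega
    exact_mod_cast h4

end ARCTx

theorem p_ARCT (hRKA : S_RKA) (hCFA : S_CFA) :
    S_ARCT := by
  classical
  intro κ L _ _ _ z N a e hcod h0 h1 h2 hN ha
  obtain ⟨s, hs⟩ := h0
  obtain ⟨u1, hu1, hz1⟩ := ARCTx.order_split _ _ h1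
  obtain ⟨u2, hu2, hz2⟩ := ARCTx.order_split _ _ h2
  set v0 : PowerSeries L := u2 * u1⁻¹ with hv0
  have hv0c : PowerSeries.constantCoeff v0 ≠ 0 := by
    rw [hv0, map_mul, PowerSeries.constantCoeff_inv]
    exact mul_ne_zero hu2 (inv_ne_zero hu1)
  have hu12 : u1 * v0 = u2 := by
    rw [hv0, mul_comm u2, ← mul_assoc, PowerSeries.mul_inv_cancel _ hu1, one_mul]
  set u : PowerSeries L := ((PowerSeries.trunc (N - 3 * e) v0 : Polynomial L) : PowerSeries L)
    with hu
  have hucoeff : ∀ l, PowerSeries.coeff l u =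
      if l < N - 3 * e then PowerSeries.coeff l v0 else 0 := by
    intro l
    rw [hu, Polynomial.coeff_coe, PowerSeries.coeff_trunc]
  have huc : PowerSeries.constantCoeff u ≠ 0 := by
    rw [← PowerSeries.coeff_zero_eq_constantCoeff_apply, hucoeff, if_pos (by omega),
      PowerSeries.coeff_zero_eq_constantCoeff_apply]
    exact hv0c
  have huu : u * u⁻¹ = 1 := PowerSeries.mul_inv_cancel _ huc
  set η : PowerSeries L := PowerSeries.X ^ e * u with hη
  set X' : PowerSeries L := PowerSeries.X * s * u⁻¹ with hX'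
  set W : PowerSeries L := u1 * u⁻¹ ^ 2 with hW
  have e0 : z 0 = PowerSeries.X ^ e * (u * X') := by
    rw [hs, hX']
    linear_combination (-(PowerSeries.X ^ (e + 1) * s)) * huu
  have e1' : u ^ 2 * W = u1 := by
    rw [hW]
    linear_combination (u1 * (u * u⁻¹ + 1)) * huu
  have e1 : z 1 = PowerSeries.X ^ (2 * e) * (u ^ 2 * W) := by
    rw [e1', hz1]
  have e2 : z 2 - η ^ 3 * W = PowerSeries.X ^ (3 * e) * (u1 * (v0 - u)) := by
    rw [hz2, hη, ← hu12]
    linear_combination (-(PowerSeries.X ^ (3 * e) * u)) * e1'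
  have hdv : PowerSeries.X ^ (N - 3 * e) ∣ v0 - u := by
    rw [PowerSeries.X_pow_dvd_iff]
    intro m hm
    rw [map_sub, hucoeff, if_pos hm, sub_self]
  have hdv2 : PowerSeries.X ^ N ∣ z 2 - η ^ 3 * W := by
    rw [e2]
    have : (PowerSeries.X : PowerSeries L) ^ N =
        PowerSeries.X ^ (3 * e) * PowerSeries.X ^ (N - 3 * e) := by
      rw [← pow_add]; congr 1; omega
    rw [this]
    exact mul_dvd_mul_left _ (Dvd.dvd.mul_left hdv _)
  have e13 : η ^ 3 * W = η * z 1 := by
    rw [e1, hη]; ring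
  refine ⟨η, X', W, ARCTx.order_unit u e huc, ?_, ?_, ?_, ?_, hdv2, ?_⟩
  · rw [hX', map_mul, map_mul, PowerSeries.constantCoeff_X, zero_mul, zero_mul]
  · rw [hW, map_mul, map_pow, PowerSeries.constantCoeff_inv]
    exact mul_ne_zero hu1 (pow_ne_zero _ (inv_ne_zero huc))
  · rw [e0, hη]; ring
  · rw [e1, hη]; ring
  · set T : Set L := cf ![η, X', W] (N - 2 * e) with hT
    set S : Finset L := (Finset.Ico (N - 2 * e) (N - e)).image
      (fun l => PowerSeries.coeff l X') with hS
    have hScard : S.card ≤ e := by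
      refine Finset.card_image_le.trans ?_
      rw [Nat.card_Ico]; omega
    set F : IntermediateField κ L := IntermediateField.adjoin κ (T ∪ (S : Set L)) with hF
    have hTF : ∀ c ∈ T, c ∈ F := fun c hc =>
      IntermediateField.subset_adjoin κ _ (Or.inl hc)
    have hSF : ∀ c ∈ S, c ∈ F := fun c hc =>
      IntermediateField.subset_adjoin κ _ (Or.inr (Finset.mem_coe.2 hc))
    obtain ⟨cmul, cpow, cshift, -, -⟩ := hCFA κ L F
    have cη : ∀ n, CF F n η := by
      intro n l _
      by_cases hl : l < N - 2 * e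
      · exact hTF _ ⟨0, l, hl, rfl⟩
      · have : PowerSeries.coeff l η = 0 := by
          rw [hη, PowerSeries.coeff_X_pow_mul', hucoeff]
          split_ifs with h3 h4
          · omega
          · rfl
          · rfl
        rw [this]; exact F.zero_mem
    have cu : ∀ n, CF F n u := fun n => (cshift n e u).2 (cη _)
    have cX : CF F (N - e) X' := by
      intro l hl
      by_cases hl' : l < N - 2 * e
      · exact hTF _ ⟨1, l, hl', rfl⟩
      · exact hSF _ (Finset.mem_image.2 ⟨l, Finset.mem_Ico.2 ⟨by omega, hl⟩, rfl⟩)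
    have cW : CF F (N - 2 * e) W := fun l hl => hTF _ ⟨2, l, hl, rfl⟩
    have c0 : CF F N (z 0) := by
      have := (cshift (N - e) e _).1 (cmul _ _ _ (cu _) cX)
      rw [show N - e + e = N by omega, ← e0] at this
      exact this
    have c1 : CF F N (z 1) := by
      have := (cshift (N - 2 * e) (2 * e) _).1 (cmul _ _ _ (cpow _ 2 _ (cu _)) cW)
      rw [show N - 2 * e + 2 * e = N by omega, ← e1] at this
      exact this
    have c2 : CF F N (z 2) := by
      intro l hl
      have h5 := PowerSeries.X_pow_dvd_iff.1 hdv2 l hl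
      rw [map_sub, sub_eq_zero, e13] at h5
      rw [h5]
      exact cmul _ _ _ (cη _) c1 l hl
    have hsub : cf z N ⊆ (F : Set L) := by
      rintro c ⟨j, l, hl, rfl⟩
      fin_cases j
      · exact c0 l hl
      · exact c1 l hl
      · exact c2 l hl
    obtain ⟨r1, r2, -, -⟩ := hRKA κ L
    have k1 : rk κ (cf z N) ≤ rk κ T + (e : ℕ) :=
      (r1 _ _ hsub).trans ((r2 T S).trans (add_le_add le_rfl (by exact_mod_cast hScard)))
    refine ARCTx.fin_step _ N a e hN ha ?_
    exact le_trans hcod (add_le_add k1 le_rfl)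

end Pool.Agent.P.MP_6149fc_ag.V18

end

section

/-! Step RECEN. -/

set_option autoImplicit false
set_option linter.unusedSectionVars false

namespace Pool.Agent.P.MP_6149fc_ag.V18

open scoped ENNReal
open MvPowerSeries (coeff X constantCoeff monomial)

theorem p_RECEN (hRKA : S_RKA) (hRKB : S_RKB) (hCFA : S_CFA) :
    S_RECEN := by
  intro κ L _ _ _ s z ζ η n a hζ hz hc
  have h1 := hRKB κ L (cf z n) s
  have h2 : rk (IntermediateField.adjoin κ (s : Set L)) (cf z n) ≤
      rk (IntermediateField.adjoin κ (s : Set L)) (cf ζ n) := by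
    refine (hRKA _ L).1 _ _ ?_
    rintro c ⟨j, l, hl, rfl⟩
    rw [hz j]
    exact (hCFA _ L (IntermediateField.adjoin (IntermediateField.adjoin κ (s : Set L))
      (cf ζ n))).2.2.2.2 n ζ (η j) hζ
      (fun i m hm => IntermediateField.subset_adjoin _ _ ⟨i, m, hm, rfl⟩) l hl
  unfold Cod at hc ⊢
  refine hc.trans ?_
  push_cast
  calc rk κ (cf z n) + (a : ℕ∞)
      ≤ rk (IntermediateField.adjoin κ (s : Set L)) (cf ζ n) + s.card + a := by
        gcongr
        exact h1.trans (by gcongr)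
    _ = _ := by rw [add_assoc, add_comm (s.card : ℕ∞)]

end Pool.Agent.P.MP_6149fc_ag.V18

end
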