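import Pool.Agent.P.MP_6149fc_ag.V18.IfaceB
import Pool.Agent.P.MP_6149fc_ag.Cube
import Pool.Agent.P.MP_6149fc_ag.Bary
import Pool.Agent.P.MP_6149fc_ag.Bm
import Pool.Agent.P.MP_6149fc_ag.Conv

section

/-! Step BODY0. -/

set_option autoImplicit false
set_option linter.unusedSectionVars false

namespace Pool.Agent.P.MP_6149fc_ag.V18

open scoped ENNReal Pointwise
open MeasureTheory

namespace BODY0x

/-- A graded semigroup of exponents. -/
structure Sg (Γ : ℕ → Finset Ex) : Prop where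
  add : ∀ M M' a b, a ∈ Γ M → b ∈ Γ M' → a + b ∈ Γ (M + M')
  zero0 : 0 ∈ Γ 0
  zero1 : 0 ∈ Γ 1

variable {Γ : ℕ → Finset Ex}

theorem nsmul_mem (G : Sg Γ) {M : ℕ} {a : Ex} (h : a ∈ Γ M) (k : ℕ) : k • a ∈ Γ (k * M) := by
  induction k with
  | zero => simpa using G.zero0
  | succ k ih =>
    rw [succ_nsmul, Nat.succ_mul]
    exact G.add _ _ _ _ ih h

theorem sum_mem (G : Sg Γ) {ι : Type} (s : Finset ι) {f : ι → Ex} {M : ι → ℕ}
    (h : ∀ i, f i ∈ Γ (M i)) : ∑ i ∈ s, f i ∈ Γ (∑ i ∈ s, M i) := by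
  classical
  induction s using Finset.induction_on with
  | empty => simpa using G.zero0
  | insert a s ha ih =>
    rw [Finset.sum_insert ha, Finset.sum_insert ha]
    exact G.add _ _ _ _ (h a) ih

theorem pad (G : Sg Γ) {M M' : ℕ} {a : Ex} (h : a ∈ Γ M) (hM : M ≤ M') : a ∈ Γ M' := by
  obtain ⟨k, rfl⟩ := Nat.exists_eq_add_of_le hM
  simpa using G.add _ _ _ _ h (nsmul_mem G G.zero1 k)

theorem shift_mem (G : Sg Γ) {M0 : ℕ} {γ0 : Ex} (h0 : γ0 ∈ Γ M0)
    (h1 : ∀ i, γ0 + Finsupp.single i 1 ∈ Γ M0) (r : Ex) {R : ℕ} (hR : ∑ i, r i ≤ R) :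
    r + R • γ0 ∈ Γ (R * M0) := by
  obtain ⟨k, rfl⟩ := Nat.exists_eq_add_of_le hR
  have h := G.add _ _ _ _ (sum_mem G Finset.univ fun i => nsmul_mem G (h1 i) (r i))
    (nsmul_mem G h0 k)
  have e1 : ∑ i, r i • (γ0 + Finsupp.single i 1) + k • γ0 = r + (∑ i, r i + k) • γ0 := by
    simp only [smul_add, Finset.sum_add_distrib, Finsupp.smul_single, smul_eq_mul, mul_one,
      Finsupp.univ_sum_single, add_smul, Finset.sum_smul]
    abel
  have e2 : ∑ i, r i * M0 + k * M0 = (∑ i, r i + k) * M0 := by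
    rw [add_mul, Finset.sum_mul]
  rwa [e1, e2] at h

variable (Γ)

/-- The generators. -/
abbrev T : Type := {a : ℕ × Ex // a.2 ∈ Γ a.1}

/-- The polytope spanned by finitely many generators. -/
def Ply (F : Finset (T Γ)) : Set (Fin 3 → ℝ) :=
  {p | ∃ l : T Γ → ℝ, (∀ a, l a ∈ Set.Icc (0 : ℝ) 1) ∧ ∑ a ∈ F, l a * a.1.1 ≤ 1 ∧
    ∀ i, p i = ∑ a ∈ F, l a * a.1.2 i}

theorem P_compact (F : Finset (T Γ)) : IsCompact (Ply Γ F) := by
  have h1 : IsCompact (Set.univ.pi fun _ : T Γ => Set.Icc (0 : ℝ) 1) :=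
    isCompact_univ_pi fun _ => isCompact_Icc
  have h2 : IsClosed {q : T Γ → ℝ | ∑ a ∈ F, q a * a.1.1 ≤ 1} :=
    isClosed_le (by fun_prop) continuous_const
  have h3 := (h1.inter_right h2).image (f := fun q : T Γ → ℝ =>
    ((fun i => ∑ a ∈ F, q a * a.1.2 i) : Fin 3 → ℝ)) (by fun_prop)
  refine (congrArg IsCompact (Set.Subset.antisymm ?_ ?_)).mp h3
  · rintro _ ⟨q, ⟨h4, h6⟩, rfl⟩
    exact ⟨q, fun a => h4 a trivial, h6, fun _ => rfl⟩
  · rintro p ⟨l, h4, h5, h8⟩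
    exact ⟨l, ⟨fun a _ => h4 a, h5⟩, funext fun i => (h8 i).symm⟩

theorem P_mono : Monotone (Ply Γ) := by
  classical
  rintro F F' h p ⟨l, h1, h2, h5⟩
  have key : ∀ c : T Γ → ℝ, ∑ a ∈ F', (if a ∈ F then l a else 0) * c a = ∑ a ∈ F, l a * c a :=
    fun c => by
      simp only [ite_mul, zero_mul, Finset.sum_ite_mem, Finset.inter_eq_right.2 h]
  refine ⟨fun a => if a ∈ F then l a else 0, fun a => ?_, by rwa [key],
    fun i => by rw [key, h5]⟩
  beta_reduce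
  split_ifs
  exacts [h1 a, ⟨le_rfl, zero_le_one⟩]

theorem P_convex (F : Finset (T Γ)) : Convex ℝ (Ply Γ F) := by
  rintro p ⟨l, h1, h2, h5⟩ p' ⟨l', h1', h2', h5'⟩ u v hu hv huv
  have key : ∀ c : T Γ → ℝ, ∑ a ∈ F, (u * l a + v * l' a) * c a =
      u * ∑ a ∈ F, l a * c a + v * ∑ a ∈ F, l' a * c a := fun c => by
    simp only [add_mul, Finset.sum_add_distrib, Finset.mul_sum, mul_assoc]
  refine ⟨fun a => u * l a + v * l' a, fun a => convex_Icc 0 1 (h1 a) (h1' a) hu hv huv,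
    ?_, fun i => ?_⟩
  · rw [key]
    nlinarith
  · rw [key, ← h5, ← h5']
    rfl

variable {Γ}

theorem near (G : Sg Γ) {M0 : ℕ} {γ0 : Ex} (hγ : γ0 ∈ Γ M0)
    (hγ1 : ∀ i, γ0 + Finsupp.single i 1 ∈ Γ M0) (F : Finset (T Γ)) {θ : ℝ} (h0 : 0 < θ)
    (h1 : θ < 1) :
    ∃ R : ℕ, ∀ᶠ M : ℕ in Filter.atTop, ∀ p ∈ Ply Γ F, ∃ g ∈ Γ M,
      ∀ i, (g i : ℝ) ≤ θ * M * p i + R * γ0 i ∧ θ * M * p i + R * γ0 i < g i + 1 := by
  obtain ⟨R, hR⟩ : ∃ R : ℕ, R = ∑ i, ∑ a ∈ F, a.1.2 i := ⟨_, rfl⟩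
  refine ⟨R, ?_⟩
  filter_upwards [Filter.eventually_ge_atTop ⌈((R * M0 : ℕ) : ℝ) / (1 - θ)⌉₊] with M hM
  rw [Nat.ceil_le, div_le_iff₀ (by linarith)] at hM
  rintro p ⟨l, h2, h3, h6⟩
  have hθ : 0 ≤ θ * M := by positivity
  have hμ : ∀ a, 0 ≤ θ * M * l a := fun a => mul_nonneg hθ (h2 a).1
  have lo : ∀ c : T Γ → ℕ, ((∑ a ∈ F, ⌊θ * M * l a⌋₊ * c a : ℕ) : ℝ) ≤
      θ * M * ∑ a ∈ F, l a * c a := fun c => by
    rw [Finset.mul_sum]
    push_cast
    refine Finset.sum_le_sum fun a _ => ?_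
    rw [← mul_assoc]
    exact mul_le_mul_of_nonneg_right (Nat.floor_le (hμ a)) (Nat.cast_nonneg _)
  have hi : ∀ c : T Γ → ℕ, θ * M * ∑ a ∈ F, l a * c a ≤
      ((∑ a ∈ F, ⌊θ * M * l a⌋₊ * c a : ℕ) : ℝ) + ∑ a ∈ F, (c a : ℝ) := fun c => by
    rw [Finset.mul_sum]
    push_cast
    rw [← Finset.sum_add_distrib]
    refine Finset.sum_le_sum fun a _ => ?_
    rw [← mul_assoc, ← add_one_mul]
    exact mul_le_mul_of_nonneg_right (Nat.lt_floor_add_one _).le (Nat.cast_nonneg _)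
  have hx : ∀ i, 0 ≤ θ * M * p i := fun i => by
    rw [h6]
    exact (Nat.cast_nonneg _).trans (lo fun a => a.1.2 i)
  have hg := sum_mem G F fun a => nsmul_mem G a.2 ⌊θ * M * l a⌋₊
  obtain ⟨g, hg0⟩ : ∃ g, g = ∑ a ∈ F, ⌊θ * M * l a⌋₊ • a.1.2 := ⟨_, rfl⟩
  rw [← hg0] at hg
  have hgi : ∀ i, g i = ∑ a ∈ F, ⌊θ * M * l a⌋₊ * a.1.2 i := fun i => by
    simp [hg0, Finsupp.finsetSum_apply]
  have hle : ∀ i, g i ≤ ⌊θ * M * p i⌋₊ := fun i =>
    Nat.le_floor (by rw [hgi, h6]; exact lo fun a => a.1.2 i)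
  obtain ⟨r, hr⟩ : ∃ r : Ex, ∀ i, g i + r i = ⌊θ * M * p i⌋₊ :=
    ⟨Finsupp.equivFunOnFinite.symm fun i => ⌊θ * M * p i⌋₊ - g i,
      fun i => Nat.add_sub_of_le (hle i)⟩
  have hr' : ∀ i, r i ≤ ∑ a ∈ F, a.1.2 i := fun i => by
    have e1 := Nat.floor_le (hx i)
    have e2 := hi fun a => a.1.2 i
    rw [← hr, Nat.cast_add] at e1
    rw [← h6, ← hgi] at e2
    rw [← Nat.cast_le (α := ℝ), Nat.cast_sum]
    linarith
  have hrR : ∑ i, r i ≤ R := hR ▸ Finset.sum_le_sum fun i _ => hr' i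
  refine ⟨g + (r + R • γ0), pad G (G.add _ _ _ _ hg (shift_mem G hγ hγ1 r hrR)) ?_, fun i => ?_⟩
  · have e1 := (lo fun a => a.1.1).trans (mul_le_of_le_one_right hθ h3)
    rw [← Nat.cast_le (α := ℝ), Nat.cast_add]
    linarith
  · rw [← add_assoc, Finsupp.add_apply, Finsupp.add_apply, hr, Finsupp.smul_apply, smul_eq_mul]
    have e1 := Nat.floor_le (hx i)
    have e2 := Nat.lt_floor_add_one (θ * M * p i)
    push_cast
    constructor <;> linarith

end BODY0x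

open BODY0x in
theorem p_BODY0 :
    S_BODY0 := by
  intro Γ M0 γ0 hadd h00 h01 hγ hγ1
  have G : Sg Γ := ⟨hadd, h00, h01⟩
  have hdir : Directed (· ⊆ ·) (Ply Γ) := (P_mono Γ).directed_le
  refine ⟨⋃ F, Ply Γ F, MeasurableSet.iUnion fun F => (P_compact Γ F).measurableSet,
    hdir.convex_iUnion (P_convex Γ), fun p hp i => ?_, fun M γ hM hγ => ?_,
    fun θ h0 h1 b hb => ?_⟩
  · obtain ⟨F, l, h1, -, h5⟩ := Set.mem_iUnion.1 hp
    rw [h5]
    exact Finset.sum_nonneg fun a _ => mul_nonneg (h1 a).1 (Nat.cast_nonneg _)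
  · have hM' : (1 : ℝ) ≤ M := by exact_mod_cast hM
    refine Set.mem_iUnion.2 ⟨{⟨(M, γ), hγ⟩}, fun _ => (M : ℝ)⁻¹,
      fun _ => ⟨by positivity, inv_le_one_of_one_le₀ hM'⟩, ?_, fun i => ?_⟩
    · rw [Finset.sum_singleton, inv_mul_cancel₀ (by positivity)]
    · rw [Finset.sum_singleton, ← div_eq_inv_mul]
  · rw [hdir.measure_iUnion, lt_iSup_iff] at hb
    obtain ⟨F, hF⟩ := hb
    obtain ⟨R, hC⟩ := near G hγ hγ1 F h0 h1
    filter_upwards [hC] with M hM
    have hθ : 0 ≤ θ * M := by positivity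
    refine (mul_le_mul_right hF.le _).trans (le_trans (le_of_eq ?_)
      ((p_CUBE 3).2.1 (Γ M)
        ((fun x => (fun i => -((R : ℝ) * γ0 i)) + x) ⁻¹' ((θ * M) • Ply Γ F)) ?_))
    · rw [measure_preimage_add, Measure.addHaar_smul_of_nonneg _ hθ, Module.finrank_fin_fun,
        ENNReal.ofReal_pow hθ]
    · rintro x ⟨y, hy, hxy⟩
      obtain ⟨g, hg, h4⟩ := hM _ hy
      refine ⟨g, hg, fun i => ?_⟩
      have e := congrFun hxy i
      simp only [Pi.smul_apply, smul_eq_mul, Pi.add_apply] at e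
      have e1 := h4 i
      constructor <;> linarith [e1.1, e1.2]

end Pool.Agent.P.MP_6149fc_ag.V18

end

section

/-! Step SLICE1. -/

set_option autoImplicit false
set_option linter.unusedSectionVars false

namespace Pool.Agent.P.MP_6149fc_ag.V18

open scoped ENNReal
open MeasureTheory

theorem p_SLICE1 :
    S_SLICE1 := by
  intro B i hB
  have hp := (volume_preserving_piFinSuccAbove (fun _ : Fin 3 => ℝ) i).symm
  set e := (MeasurableEquiv.piFinSuccAbove (fun _ : Fin 3 => ℝ) i).symm with he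
  have h1 : ∀ t y, e (t, y) = (Fin.insertNth i t y : Fin 3 → ℝ) := fun t y => rfl
  have hS : MeasurableSet (e ⁻¹' B) := e.measurable hB
  have h2 : ∀ t, sl B i t = Prod.mk t ⁻¹' (e ⁻¹' B) := fun t => rfl
  have h3 : ∀ t, MeasurableSet (sl B i t) := fun t => measurable_prodMk_left hS
  refine ⟨h3, measurable_measure_prodMk_left hS, ?_, ?_⟩
  · rw [← hp.measure_preimage hB.nullMeasurableSet, Measure.volume_eq_prod, Measure.prod_apply hS]
    rfl
  · have hf : Measurable (B.indicator fun x : Fin 3 → ℝ => ENNReal.ofReal (x i)) :=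
      (ENNReal.measurable_ofReal.comp (measurable_pi_apply i)).indicator hB
    have hg : Measurable fun a => B.indicator (fun x : Fin 3 → ℝ => ENNReal.ofReal (x i)) (e a) :=
      hf.comp e.measurable
    rw [← lintegral_indicator hB, ← hp.lintegral_comp hf, Measure.volume_eq_prod,
      lintegral_prod _ hg.aemeasurable]
    refine lintegral_congr fun t => ?_
    rw [← setLIntegral_const, ← lintegral_indicator (h3 t)]
    refine lintegral_congr fun y => ?_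
    by_cases hy : y ∈ sl B i t
    · rw [Set.indicator_of_mem hy, Set.indicator_of_mem (show e (t, y) ∈ B from hy), h1,
        Fin.insertNth_apply_same]
    · rw [Set.indicator_of_notMem hy, Set.indicator_of_notMem (show e (t, y) ∉ B from hy)]

end Pool.Agent.P.MP_6149fc_ag.V18

end

section

/-! Step SLICE2. -/

set_option autoImplicit false
set_option linter.unusedSectionVars false

namespace Pool.Agent.P.MP_6149fc_ag.V18

open scoped ENNReal
open MeasureTheory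

namespace SLICE2x

theorem one_le {n : ℕ} {a : ℝ} (ha : 0 < a) {A : Set (Fin n → ℝ)}
    (h : ENNReal.ofReal (a ^ n) ≤ volume A) : 1 ≤ volume ((a • ·) ⁻¹' A) := by
  rw [← BaryA.vol_smul ha A] at h
  exact (ENNReal.mul_le_mul_iff_right (ENNReal.ofReal_pos.2 (by positivity)).ne'
    ENNReal.ofReal_ne_top).1 ((mul_one _).le.trans h)

theorem bm {n : ℕ} {A B C : Set (Fin n → ℝ)} (hA : MeasurableSet A)
    (hB : MeasurableSet B) (hC : MeasurableSet C) {t a b : ℝ} (h0 : 0 < t) (h1 : t < 1)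
    (h : ∀ x ∈ A, ∀ y ∈ B, (1 - t) • x + t • y ∈ C) (ha : 0 < a) (hb : 0 < b)
    (vA : ENNReal.ofReal (a ^ n) ≤ volume A) (vB : ENNReal.ofReal (b ^ n) ≤ volume B) :
    ENNReal.ofReal (((1 - t) * a + t * b) ^ n) ≤ volume C := by
  have e1 : 0 < (1 - t) * a := mul_pos (sub_pos.2 h1) ha
  have e2 : 0 < t * b := mul_pos h0 hb
  have hc : 0 < (1 - t) * a + t * b := add_pos e1 e2
  have k0 : 0 < t * b / ((1 - t) * a + t * b) := by positivity
  have k1 : t * b / ((1 - t) * a + t * b) < 1 := (div_lt_one hc).2 (by linarith)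
  have := p_BM n ((a • ·) ⁻¹' A) ((b • ·) ⁻¹' B) ((((1 - t) * a + t * b) • ·) ⁻¹' C)
    (t * b / ((1 - t) * a + t * b)) (measurable_const_smul a hA) (measurable_const_smul b hB)
    (measurable_const_smul _ hC) k0 k1
    fun x hx y hy => by
      have := h _ hx _ hy
      have e3 : ((1 - t) * a + t * b) * (1 - t * b / ((1 - t) * a + t * b)) = (1 - t) * a := by
        field_simp
        ring
      have e4 : ((1 - t) * a + t * b) * (t * b / ((1 - t) * a + t * b)) = t * b := by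
        field_simp
      simp only [Set.mem_preimage, smul_add, smul_smul, e3, e4] at this ⊢
      exact this
  rw [← BaryA.vol_smul hc C]
  refine le_mul_of_one_le_right' (le_trans ?_ this)
  exact one_le_mul (ENNReal.one_le_rpow (one_le ha vA) (sub_pos.2 k1))
    (ENNReal.one_le_rpow (one_le hb vB) k0)

theorem side {n : ℕ} {A C : Set (Fin n → ℝ)} {c a : ℝ} (hc : 0 < c) (z : Fin n → ℝ)
    (h : ∀ x ∈ A, c • x + z ∈ C) (vA : ENNReal.ofReal (a ^ n) ≤ volume A) :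
    ENNReal.ofReal ((c * a) ^ n) ≤ volume C := by
  rw [← measure_preimage_add_right volume z C, ← BaryA.vol_smul hc, mul_pow,
    ENNReal.ofReal_mul (by positivity)]
  exact mul_le_mul_right (vA.trans (measure_mono fun x hx => h x hx)) _

end SLICE2x

theorem p_SLICE2 :
    S_SLICE2 := by
  intro B i hB hm
  refine ⟨fun s hs => nonempty_of_measure_ne_zero hs, ?_⟩
  rintro s ⟨x0, hx0⟩ t ⟨y0, hy0⟩ a b θ ha hb h0 h1 vA vB
  rcases h0.eq_or_lt with rfl | h0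
  · simpa using vA
  rcases h1.eq_or_lt with rfl | h1
  · simpa using vB
  have h2 : 0 < 1 - θ := sub_pos.2 h1
  have key : ∀ x ∈ sl B i s, ∀ y ∈ sl B i t,
      (1 - θ) • x + θ • y ∈ sl B i ((1 - θ) * s + θ * t) := fun x hx y hy => by
    have := hB hx hy h2.le h0.le (by ring)
    have e : (Fin.insertNth i ((1 - θ) * s + θ * t) ((1 - θ) • x + θ • y) : Fin 3 → ℝ) =
        (1 - θ) • (Fin.insertNth i s x : Fin 3 → ℝ) + θ • (Fin.insertNth i t y : Fin 3 → ℝ) := by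
      ext j
      refine Fin.succAboveCases i ?_ (fun k => ?_) j <;> simp
    show _ ∈ B
    rw [e]; exact this
  rcases hb.eq_or_lt with rfl | hb
  · simpa using SLICE2x.side h2 (θ • y0) (fun x hx => key x hx y0 hy0) vA
  rcases ha.eq_or_lt with rfl | ha
  · simpa using SLICE2x.side h0 ((1 - θ) • x0)
      (fun y hy => by rw [add_comm (θ • y)]; exact key x0 hx0 y hy) vB
  exact SLICE2x.bm (hm s) (hm t) (hm _) h0 h1 key ha hb vA vB

end Pool.Agent.P.MP_6149fc_ag.V18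

end

section

/-! Step TRAP1. -/

set_option autoImplicit false
set_option linter.unusedSectionVars false

namespace Pool.Agent.P.MP_6149fc_ag.V18

open scoped ENNReal
open MeasureTheory

namespace TRAP1x

theorem seg {S : Set (Fin 2 → ℝ)} (hS : Convex ℝ S) {a b c d t x y : ℝ} (h1 : ![a, b] ∈ S)
    (h2 : ![c, d] ∈ S) (h0 : 0 ≤ t) (ht : t ≤ 1) (hx : x = (1 - t) * a + t * c)
    (hy : y = (1 - t) * b + t * d) : ![x, y] ∈ S := by
  have h := hS h1 h2 (sub_nonneg.mpr ht) h0 (by ring)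
  have e : (1 - t) • (![a, b] : Fin 2 → ℝ) + t • ![c, d] = ![x, y] := by
    ext i
    fin_cases i <;> simp [hx, hy]
  rwa [e] at h

theorem intAff (u u' a b : ℝ) (h : u ≤ u') :
    ∫ x in Set.Ico u u', (a + (x - u) * b) = (u' - u) * a + (u' - u) ^ 2 / 2 * b := by
  rw [integral_Ico_eq_integral_Ioc, ← intervalIntegral.integral_of_le h]
  have hd : ∀ x ∈ Set.uIcc u u', HasDerivAt (fun x : ℝ => a * x + (x - u) ^ 2 / 2 * b)
      (a + (x - u) * b) x := by
    intro x _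
    have h1 : HasDerivAt (fun x : ℝ => a * x) (a * 1) x := (hasDerivAt_id x).const_mul a
    have h2 : HasDerivAt (fun x : ℝ => (x - u) ^ 2 / 2 * b)
        ((((2 : ℕ) : ℝ) * (x - u) ^ (2 - 1) * 1) / 2 * b) x :=
      ((((hasDerivAt_id x).sub_const u).fun_pow 2).div_const 2).mul_const b
    refine (h1.fun_add h2).congr_deriv ?_
    push_cast
    ring
  rw [intervalIntegral.integral_eq_sub_of_hasDerivAt hd
    ((by fun_prop : Continuous fun x : ℝ => a + (x - u) * b).intervalIntegrable _ _)]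
  ring

end TRAP1x

theorem p_TRAP1 :
    S_TRAP1 := by
  intro S u u' lo hi lo' hi' hS hu hl hl' h1 h2 h3 h4
  rcases hu.eq_or_lt with rfl | hlt
  · simp
  have hp : 0 < u' - u := sub_pos.mpr hlt
  set L : ℝ → ℝ := fun x => lo + (x - u) * ((lo' - lo) / (u' - u)) with hL
  set H : ℝ → ℝ := fun x => hi + (x - u) * ((hi' - hi) / (u' - u)) with hH
  have cL : Continuous L := by rw [hL]; fun_prop
  have cH : Continuous H := by rw [hH]; fun_prop
  have hLe : ∀ x, L x = (1 - (x - u) / (u' - u)) * lo + (x - u) / (u' - u) * lo' := by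
    intro x; simp only [hL]; field_simp; ring
  have hHe : ∀ x, H x = (1 - (x - u) / (u' - u)) * hi + (x - u) / (u' - u) * hi' := by
    intro x; simp only [hH]; field_simp; ring
  have ht : ∀ x ∈ Set.Ico u u', 0 ≤ (x - u) / (u' - u) ∧ (x - u) / (u' - u) ≤ 1 := by
    intro x hx
    exact ⟨div_nonneg (sub_nonneg.mpr hx.1) hp.le, (div_le_one hp).mpr (by linarith [hx.2])⟩
  have hLH : ∀ x ∈ Set.Ico u u', L x ≤ H x := by
    intro x hx
    obtain ⟨t0, t1⟩ := ht x hx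
    rw [hLe, hHe]
    have := mul_le_mul_of_nonneg_left hl (sub_nonneg.mpr t1)
    have := mul_le_mul_of_nonneg_left hl' t0
    linarith
  have hvol : (volume : Measure (ℝ × ℝ)) (regionBetween L H (Set.Ico u u')) =
      ENNReal.ofReal ((u' - u) * ((hi - lo) + (hi' - lo')) / 2) := by
    rw [Measure.volume_eq_prod, volume_regionBetween_eq_integral
      ((cL.integrableOn_Icc (a := u) (b := u')).mono_set Set.Ico_subset_Icc_self)
      ((cH.integrableOn_Icc (a := u) (b := u')).mono_set Set.Ico_subset_Icc_self)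
      measurableSet_Ico hLH]
    congr 1
    have e : (H - L) = fun x => (hi - lo) + (x - u) * (((hi' - hi) - (lo' - lo)) / (u' - u)) := by
      funext x; simp only [Pi.sub_apply, hL, hH]; ring
    rw [e, TRAP1x.intAff u u' _ _ hu]
    field_simp
    ring
  rw [← hvol, ← (volume_preserving_finTwoArrow ℝ).measure_preimage_equiv]
  refine measure_mono ?_
  intro y hy
  have hy' : y 0 ∈ Set.Ico u u' ∧ y 1 ∈ Set.Ioo (L (y 0)) (H (y 0)) := hy
  obtain ⟨hx, hz⟩ := hy'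
  refine ⟨?_, hx.1, hx.2⟩
  obtain ⟨t0, t1⟩ := ht _ hx
  have hxe : y 0 = (1 - (y 0 - u) / (u' - u)) * u + (y 0 - u) / (u' - u) * u' := by
    field_simp; ring
  have a1 : ![y 0, L (y 0)] ∈ S := TRAP1x.seg hS h1 h3 t0 t1 hxe (hLe _)
  have a2 : ![y 0, H (y 0)] ∈ S := TRAP1x.seg hS h2 h4 t0 t1 hxe (hHe _)
  have hq : 0 < H (y 0) - L (y 0) := by linarith [hz.1, hz.2]
  have a3 : ![y 0, y 1] ∈ S := by
    refine TRAP1x.seg hS a1 a2 (t := (y 1 - L (y 0)) / (H (y 0) - L (y 0)))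
      (div_nonneg (by linarith [hz.1]) hq.le) ((div_le_one hq).mpr (by linarith [hz.2]))
      (by ring) ?_
    field_simp
    ring
  have e : y = ![y 0, y 1] := by
    ext i; fin_cases i <;> rfl
  rw [e]; exact a3

end Pool.Agent.P.MP_6149fc_ag.V18

end

section

/-! Step TRAP. -/

set_option autoImplicit false
set_option linter.unusedSectionVars false

namespace Pool.Agent.P.MP_6149fc_ag.V18

open scoped ENNReal
open MeasureTheory

theorem p_TRAP (hTRAP1 : S_TRAP1) :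
    S_TRAP := by
  intro S l hS hm
  have key : ∀ (l : List Q3) (a : Q3), incr (a :: l) = true →
      (∀ q ∈ a :: l, q.2.1 ≤ q.2.2 ∧ ![(q.1 : ℝ), (q.2.1 : ℝ)] ∈ S ∧
        ![(q.1 : ℝ), (q.2.2 : ℝ)] ∈ S) →
      ENNReal.ofReal (trap (a :: l) : ℝ) ≤ volume (S ∩ {y | (a.1 : ℝ) ≤ y 0}) := by
    intro l
    induction l with
    | nil => intro a _ _; simp [trap]
    | cons b l ih =>
      intro a h1 h2
      simp only [incr, Bool.and_eq_true, decide_eq_true_eq] at h1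
      have hab : (a.1 : ℝ) ≤ b.1 := by exact_mod_cast h1.1
      have ha := h2 a (by simp)
      have hb := h2 b (by simp)
      have h3 := hTRAP1 S a.1 b.1 a.2.1 a.2.2 b.2.1 b.2.2 hS hab (by exact_mod_cast ha.1)
        (by exact_mod_cast hb.1) ha.2.1 ha.2.2 hb.2.1 hb.2.2
      have h4 := ih b h1.2 fun q hq => h2 q (List.mem_cons_of_mem _ hq)
      rw [trap]
      push_cast
      refine ENNReal.ofReal_add_le.trans ((add_le_add h3 h4).trans ?_)
      rw [← measure_union _ (hm.inter (measurableSet_le measurable_const (measurable_pi_apply 0)))]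
      · refine measure_mono ?_
        rintro y (h | h)
        · exact ⟨h.1, h.2.1⟩
        · exact ⟨h.1, hab.trans h.2⟩
      · exact Set.disjoint_left.2 fun y h h' => not_lt.2 h'.2 h.2.2
  intro h1 h2
  cases l with
  | nil => simp [trap]
  | cons a l => exact (key l a h1 h2).trans (measure_mono Set.inter_subset_left)

end Pool.Agent.P.MP_6149fc_ag.V18

end

section

/-! Step SB1. -/

set_option autoImplicit false
set_option linter.unusedSectionVars false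

namespace Pool.Agent.P.MP_6149fc_ag.V18

open scoped ENNReal
open MeasureTheory

namespace SB1x

theorem comb {B : Set (Fin 3 → ℝ)} (hc : Convex ℝ B) (h0 : (0 : Fin 3 → ℝ) ∈ B)
    {p q a b c : Fin 3 → ℝ} (hp : p ∈ B) (hq : q ∈ B) (ha : a ∈ B) (hb : b ∈ B) (hc' : c ∈ B)
    {w0 w1 w2 w3 w4 : ℝ} (h1 : 0 ≤ w0) (h2 : 0 ≤ w1) (h3 : 0 ≤ w2) (h4 : 0 ≤ w3) (h5 : 0 ≤ w4)
    (hs : w0 + w1 + w2 + w3 + w4 ≤ 1) :
    w0 • p + w1 • q + w2 • a + w3 • b + w4 • c ∈ B := by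
  have h := hc.sum_mem (t := Finset.univ)
    (w := ![w0, w1, w2, w3, w4, 1 - (w0 + w1 + w2 + w3 + w4)]) (z := ![p, q, a, b, c, 0])
    (fun i _ => by fin_cases i <;> simp <;> linarith)
    (by simp [Fin.sum_univ_six])
    (fun i _ => by fin_cases i <;> simpa)
  simpa [Fin.sum_univ_six] using h

end SB1x

theorem p_SB1 :
    S_SB1 := by
  classical
  intro B M0 M γ0 Λ i hB hc h0 hM0 hM5 hM hγ0 hl hΛ
  have hN : M + 15 ≠ 0 := by omega
  rw [← ConvA.int_scale hB hN i]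
  have hm : Measurable fun x : Fin 3 → ℝ => ((M + 15 : ℕ) : ℝ)⁻¹ • x := measurable_const_smul _
  refine le_trans ?_ (((p_CUBE 3).1 (Λ.image fun γ => γ + 3 • γ0) _ (hm hB) ?_).2 i)
  · rw [Finset.sum_image fun a _ b _ h => add_right_cancel h]
    exact_mod_cast Finset.sum_le_sum fun γ _ => by simp
  · intro γ' hγ' x hx
    obtain ⟨γ, hγ, rfl⟩ := Finset.mem_image.1 hγ'
    have a0 : (1 : ℝ) ≤ M0 := by exact_mod_cast hM0
    have a5 : (M0 : ℝ) ≤ 5 := by exact_mod_cast hM5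
    have a1 : (1 : ℝ) ≤ M := by exact_mod_cast hM
    have hx' : ∀ j, (γ j : ℝ) + 3 * γ0 j ≤ x j ∧ x j < γ j + 3 * γ0 j + 1 := fun j => by
      simpa using hx j
    let y : Fin 3 → ℝ := fun j => x j - γ j - 3 * γ0 j
    have y0 : ∀ j, 0 ≤ y j := fun j => by simp only [y]; linarith [(hx' j).1]
    have y1 : ∀ j, y j ≤ 1 := fun j => by simp only [y]; linarith [(hx' j).2]
    have hN' : (0 : ℝ) < M + 15 := by positivity
    have h := SB1x.comb hc h0 (hΛ γ hγ) hγ0 (hl 0) (hl 1) (hl 2)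
      (w0 := M / (M + 15)) (w1 := (3 - y 0 - y 1 - y 2) * M0 / (M + 15))
      (w2 := y 0 * M0 / (M + 15)) (w3 := y 1 * M0 / (M + 15)) (w4 := y 2 * M0 / (M + 15))
      (by positivity)
      (div_nonneg (mul_nonneg (by linarith [y1 0, y1 1, y1 2]) (by positivity)) hN'.le)
      (by positivity [y0 0]) (by positivity [y0 1]) (by positivity [y0 2])
      (by
        rw [← add_div, ← add_div, ← add_div, ← add_div, div_le_one hN']
        nlinarith)
    rw [Set.mem_preimage]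
    refine Set.mem_of_eq_of_mem (funext fun j => ?_) h
    have hM0' : (M0 : ℝ) ≠ 0 := by positivity
    have hM' : (M : ℝ) ≠ 0 := by positivity
    fin_cases j <;> simp [y] <;> field_simp <;> ring

end Pool.Agent.P.MP_6149fc_ag.V18

end

section

/-! Step SB. -/

set_option autoImplicit false
set_option linter.unusedSectionVars false

namespace Pool.Agent.P.MP_6149fc_ag.V18

open scoped ENNReal
open MeasureTheory

namespace SBx

theorem zero_of_fin (S : Finset Ex) (h0 : 0 ∈ S) (hadd : ∀ a b, a ∈ S → b ∈ S → a + b ∈ S)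
    {γ : Ex} (hγ : γ ∈ S) (i : Fin 3) : γ i = 0 := by
  by_contra hne
  have hm : ∀ n : ℕ, n • γ ∈ S := fun n => by
    induction n with
    | zero => simpa using h0
    | succ n ih => rw [succ_nsmul]; exact hadd _ _ ih hγ
  have h1 := Finset.le_sup (f := fun a : Ex => a i) (hm (S.sup (fun a : Ex => a i) + 1))
  simp only [Finsupp.smul_apply, smul_eq_mul] at h1
  have h2 : 1 ≤ γ i := Nat.one_le_iff_ne_zero.2 hne
  nlinarith

theorem vol_le (d : ℕ → ℕ) (V : ℝ) (v : ℝ≥0∞) (hV : VolN d V)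
    (h : ∀ θ : ℝ, 0 < θ → θ < 1 → ∀ b < v, ∀ᶠ M : ℕ in Filter.atTop,
      ENNReal.ofReal (θ * M) ^ 3 * b ≤ (d M : ℝ≥0∞)) : v ≤ ENNReal.ofReal V := by
  by_contra hc
  obtain ⟨r, hr0, h1, h2⟩ := ENNReal.lt_iff_exists_real_btwn.1 (not_le.1 hc)
  have hV0 := hV.nonneg
  have hVr : V < r := (ENNReal.ofReal_lt_ofReal_iff_of_nonneg hV0).1 h1
  have hr : 0 < r := lt_of_le_of_lt hV0 hVr
  set δ : ℝ := (r - V) / (6 * r) with hδ
  have hδ0 : 0 < δ := div_pos (by linarith) (by linarith)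
  have hδr : δ * r = (r - V) / 6 := by rw [hδ]; field_simp
  have hδ1 : δ < 1 := by rw [hδ, div_lt_one (by linarith)]; linarith
  have hle : (1 - δ) ^ 3 * r ≤ V := by
    refine hV _ ((h (1 - δ) (by linarith) (by linarith) _ h2).mono fun M hM => ?_)
    have hM0 : (0 : ℝ) ≤ (1 - δ) * M := mul_nonneg (by linarith) (Nat.cast_nonneg M)
    rw [← ENNReal.ofReal_pow hM0, ← ENNReal.ofReal_mul (pow_nonneg hM0 3),
      ← ENNReal.ofReal_natCast, ENNReal.ofReal_le_ofReal_iff (Nat.cast_nonneg _)] at hM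
    calc (1 - δ) ^ 3 * r * (M : ℝ) ^ 3 = ((1 - δ) * M) ^ 3 * r := by ring
      _ ≤ _ := hM
  have hb : 1 - 3 * δ ≤ (1 - δ) ^ 3 := by nlinarith [mul_pos hδ0 hδ0, mul_pos hδ0 (mul_pos hδ0 hδ0)]
  have := mul_le_mul_of_nonneg_right hb hr.le
  nlinarith

end SBx

theorem p_SB (hBODY0 : S_BODY0) (hSB1 : S_SB1) :
    S_SB := by
  intro κ _ A U V P i τ hA hU hG hV hV3 hP hP1 hτ hB
  have hc : ∀ M, ∃ Λ : Finset Ex, Λ.card = Module.finrank κ (U M) ∧ ∀ γ, γ ∈ Λ ↔ Pt A U M γ :=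
    fun M => by
      have := hU.fin M
      exact init_count hA (U M)
  choose Γ hcard hΓ using hc
  have hadd : ∀ M M' a b, a ∈ Γ M → b ∈ Γ M' → a + b ∈ Γ (M + M') := fun M M' a b ha hb => by
    obtain ⟨f, hf, hfa⟩ := (hΓ M a).1 ha
    obtain ⟨g, hg, hgb⟩ := (hΓ M' b).1 hb
    exact (hΓ _ _).2 ⟨f * g, hU.mul _ _ _ _ hf hg, hfa.mul hgb⟩
  have h00 : 0 ∈ Γ 0 := (hΓ _ _).2 ⟨1, hU.one0, init_one⟩
  have h01 : 0 ∈ Γ 1 := (hΓ _ _).2 ⟨1, hU.one1, init_one⟩
  obtain ⟨M0, γ0, hM1, hM5, hγ0, hγl⟩ := hG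
  obtain ⟨B, hBm, hBc, hB0, hBΓ, hBv⟩ := hBODY0 Γ M0 γ0 hadd h00 h01 ((hΓ _ _).2 hγ0)
    fun l => (hΓ _ _).2 (hγl l)
  have hV0 : 0 ≤ V := VolN.nonneg hV
  have hτ' : (0 : ℝ) ≤ τ := by exact_mod_cast hτ
  have hvol : volume B ≤ ENNReal.ofReal V :=
    SBx.vol_le _ V _ hV fun θ h0 h1 b hb => (hBv θ h0 h1 b hb).mono fun M hM => by
      rw [← hcard M]; exact hM
  have hz : (0 : Fin 3 → ℝ) ∈ B := by
    have := hBΓ 1 0 le_rfl h01
    convert this using 1
    funext j; simp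
  have hbary := hB B hBc hBm hB0 (hvol.trans (by
    rw [← ENNReal.ofReal_ofNat 3]; exact ENNReal.ofReal_le_ofReal hV3)) hz fun p hp => by
      have := hBΓ p.1 _ (hP1 p hp) ((hΓ _ _).2 (hP p hp))
      convert this using 1
      funext j; fin_cases j <;> rfl
  intro M Λ hΛ
  rcases Nat.eq_zero_or_pos M with rfl | hM
  · have : ∑ γ ∈ Λ, γ i = 0 := Finset.sum_eq_zero fun γ hγ =>
      SBx.zero_of_fin (Γ 0) h00 (fun a b ha hb => hadd 0 0 a b ha hb) ((hΓ _ _).2 (hΛ γ hγ)) i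
    rw [this, Nat.cast_zero]
    positivity
  · have h1 := hSB1 B M0 M γ0 Λ i hBm hBc hz hM1 hM5 hM (hBΓ M0 γ0 hM1 ((hΓ _ _).2 hγ0))
      (fun l => hBΓ M0 _ hM1 ((hΓ _ _).2 (hγl l))) fun γ hγ => hBΓ M γ hM ((hΓ _ _).2 (hΛ γ hγ))
    have h2 : ((∑ γ ∈ Λ, γ i : ℕ) : ℝ≥0∞) ≤
        ((M + 15 : ℕ) : ℝ≥0∞) ^ 4 * (ENNReal.ofReal (τ : ℝ) * ENNReal.ofReal V) :=
      h1.trans (mul_le_mul_right (hbary.trans (mul_le_mul_right hvol _)) _)
    rw [← ENNReal.ofReal_natCast, ← ENNReal.ofReal_natCast (M + 15),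
      ← ENNReal.ofReal_pow (Nat.cast_nonneg _), ← ENNReal.ofReal_mul hτ',
      ← ENNReal.ofReal_mul (pow_nonneg (Nat.cast_nonneg _) 4),
      ENNReal.ofReal_le_ofReal_iff (by positivity)] at h2
    calc _ ≤ _ := h2
      _ = _ := by push_cast; ring

end Pool.Agent.P.MP_6149fc_ag.V18

end

section

/-! Step VOLN. -/

set_option autoImplicit false
set_option linter.unusedSectionVars false

namespace Pool.Agent.P.MP_6149fc_ag.V18

open scoped ENNReal
open MeasureTheory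

namespace VOLNx

lemma s3 (M : ℕ) : ∑ n ∈ Finset.range (M + 1), (n : ℝ) ^ 3 = ((M : ℝ) * (M + 1) / 2) ^ 2 := by
  induction M with
  | zero => simp
  | succ M ih => rw [Finset.sum_range_succ, ih]; push_cast; ring

lemma s4 (M : ℕ) : ∑ n ∈ Finset.range (M + 1), (n : ℝ) ^ 4 =
    (M : ℝ) * (M + 1) * (2 * M + 1) * (3 * M ^ 2 + 3 * M - 1) / 30 := by
  induction M with
  | zero => simp
  | succ M ih => rw [Finset.sum_range_succ, ih]; push_cast; ring

lemma s5 (M : ℕ) :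
    (M : ℝ) ^ 5 / 20 ≤ ∑ n ∈ Finset.range (M + 1), ((M : ℝ) - n + 1) * (n : ℝ) ^ 3 := by
  have e : ∑ n ∈ Finset.range (M + 1), ((M : ℝ) - n + 1) * (n : ℝ) ^ 3 =
      (M + 1) * ∑ n ∈ Finset.range (M + 1), (n : ℝ) ^ 3 -
        ∑ n ∈ Finset.range (M + 1), (n : ℝ) ^ 4 := by
    rw [Finset.mul_sum, ← Finset.sum_sub_distrib]
    exact Finset.sum_congr rfl fun n _ => by ring
  rw [e, s3, s4]
  have h : (0 : ℝ) ≤ M := Nat.cast_nonneg M
  have : ((M : ℝ) + 1) * ((M : ℝ) * (M + 1) / 2) ^ 2 -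
      (M : ℝ) * (M + 1) * (2 * M + 1) * (3 * M ^ 2 + 3 * M - 1) / 30 =
      (M : ℝ) ^ 5 / 20 + (15 * M ^ 4 + 25 * M ^ 3 + 15 * M ^ 2 + 2 * M) / 60 := by ring
  rw [this]
  have : (0 : ℝ) ≤ (15 * M ^ 4 + 25 * M ^ 3 + 15 * M ^ 2 + 2 * M) / 60 := by positivity
  linarith

lemma ch (M : ℕ) (hM : 1 ≤ M) :
    (((M + 5).choose 5 : ℕ) : ℝ) ≤ ((M : ℝ) ^ 5 + 7775 * M ^ 4) / 120 := by
  have h := Nat.choose_le_pow_div (α := ℝ) 5 (M + 5)
  have h1 : (1 : ℝ) ≤ M := by exact_mod_cast hM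
  have f : ((Nat.factorial 5 : ℕ) : ℝ) = 120 := by norm_num [Nat.factorial]
  rw [f] at h
  push_cast at h
  refine h.trans (div_le_div_of_nonneg_right ?_ (by norm_num))
  have a3 : (M : ℝ) ^ 3 ≤ M ^ 4 := pow_le_pow_right₀ h1 (by norm_num)
  have a2 : (M : ℝ) ^ 2 ≤ M ^ 4 := pow_le_pow_right₀ h1 (by norm_num)
  have a1 : (M : ℝ) ^ 1 ≤ M ^ 4 := pow_le_pow_right₀ h1 (by norm_num)
  have a0 : (M : ℝ) ^ 0 ≤ M ^ 4 := pow_le_pow_right₀ h1 (by norm_num)
  have : ((M : ℝ) + 5) ^ 5 =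
      M ^ 5 + 25 * M ^ 4 + 250 * M ^ 3 + 1250 * M ^ 2 + 3125 * M ^ 1 + 3125 * M ^ 0 := by ring
  rw [this]
  linarith

lemma ind (M M1 : ℕ) (K : ℝ) (hK : 0 ≤ K) :
    ∑ n ∈ Finset.range (M + 1), (if n < M1 then K else 0) ≤ M1 * K := by
  rw [← Finset.sum_filter, Finset.sum_const, nsmul_eq_mul]
  refine mul_le_mul_of_nonneg_right ?_ hK
  have : (Finset.range (M + 1)).filter (· < M1) ⊆ Finset.range M1 := fun n hn =>
    Finset.mem_range.2 (Finset.mem_filter.1 hn).2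
  exact_mod_cast (Finset.card_le_card this).trans_eq (Finset.card_range M1)

end VOLNx

open VOLNx in
theorem p_VOLN :
    S_VOLN := by
  intro d hd c hc
  by_contra h3
  rw [not_le] at h3
  obtain ⟨M1, h1⟩ := Filter.eventually_atTop.1 hc
  have c0 : (0 : ℝ) ≤ c := by linarith
  obtain ⟨M, hM⟩ := exists_nat_gt (max 1 ((3 * 7775 + 40 * c * (M1 : ℝ) ^ 4) / (c - 3)))
  have m1 : (1 : ℝ) < M := (le_max_left _ _).trans_lt hM
  have m2 : 3 * 7775 + 40 * c * (M1 : ℝ) ^ 4 < M * (c - 3) :=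
    (div_lt_iff₀ (by linarith)).1 ((le_max_right _ _).trans_lt hM)
  have hM1 : 1 ≤ M := by exact_mod_cast m1.le
  have key : c * ∑ n ∈ Finset.range (M + 1), ((M : ℝ) - n + 1) * (n : ℝ) ^ 3 ≤
      ((∑ n ∈ Finset.range (M + 1), (M - n + 1) * d n : ℕ) : ℝ) +
        ∑ n ∈ Finset.range (M + 1), (if n < M1 then ((M : ℝ) + 1) * (c * M1 ^ 3) else 0) := by
    rw [Nat.cast_sum, Finset.mul_sum, ← Finset.sum_add_distrib]
    refine Finset.sum_le_sum fun n hn => ?_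
    have hn' : n ≤ M := Nat.lt_succ_iff.1 (Finset.mem_range.1 hn)
    have hnr : (n : ℝ) ≤ M := by exact_mod_cast hn'
    have n0 : (0 : ℝ) ≤ n := Nat.cast_nonneg n
    rw [Nat.cast_mul, Nat.cast_add, Nat.cast_sub hn', Nat.cast_one]
    have d0 : (0 : ℝ) ≤ ((M : ℝ) - n + 1) * d n := mul_nonneg (by linarith) (Nat.cast_nonneg _)
    split_ifs with h
    · have a : (n : ℝ) ^ 3 ≤ (M1 : ℝ) ^ 3 := pow_le_pow_left₀ n0 (by exact_mod_cast h.le) 3
      have b : ((M : ℝ) - n + 1) * (c * n ^ 3) ≤ ((M : ℝ) + 1) * (c * M1 ^ 3) :=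
        mul_le_mul (by linarith) (mul_le_mul_of_nonneg_left a c0) (by positivity) (by positivity)
      linarith
    · have b := mul_le_mul_of_nonneg_left (h1 n (not_lt.1 h)) (by linarith : 0 ≤ (M : ℝ) - n + 1)
      linarith
  have k1 := mul_le_mul_of_nonneg_left (s5 M) c0
  have k2 : ((∑ n ∈ Finset.range (M + 1), (M - n + 1) * d n : ℕ) : ℝ) ≤
      18 * (((M + 5).choose 5 : ℕ) : ℝ) := by exact_mod_cast hd M
  have k3 := ch M hM1
  have k4 := ind M M1 (((M : ℝ) + 1) * (c * M1 ^ 3)) (by positivity)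
  have a1 : (M : ℝ) ^ 1 ≤ M ^ 4 := pow_le_pow_right₀ m1.le (by norm_num)
  have k5 : (M1 : ℝ) * (((M : ℝ) + 1) * (c * M1 ^ 3)) ≤ 2 * M ^ 4 * (c * M1 ^ 4) := by
    have : (M1 : ℝ) * (((M : ℝ) + 1) * (c * M1 ^ 3)) = ((M : ℝ) + 1) * (c * M1 ^ 4) := by ring
    rw [this]
    exact mul_le_mul_of_nonneg_right (by linarith) (by positivity)
  have k6 := mul_lt_mul_of_pos_left m2 (by positivity : (0 : ℝ) < (M : ℝ) ^ 4)
  nlinarith

end Pool.Agent.P.MP_6149fc_ag.V18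

end
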