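import Pool.Agent.P.MP_6149fc_ag.V18.IfaceB
import Pool.Agent.P.MP_6149fc_ag.Cube
import Pool.Agent.P.MP_6149fc_ag.Body
import Pool.Agent.P.MP_6149fc_ag.Conv

section

/-! Step CRA. -/

set_option autoImplicit false
set_option linter.unusedSectionVars false

namespace Pool.Agent.P.MP_6149fc_ag.V18

open scoped ENNReal
open MeasureTheory

namespace CRAx

theorem integ {s t p0 p1 p2 p3 R : ℝ} {f : ℝ → ℝ} {g : ℝ → ℝ≥0∞} (hst : s ≤ t)
    (hf : ∀ u, f u = p0 + p1 * (u - s) + p2 * (u - s) ^ 2 + p3 * (u - s) ^ 3)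
    (h0 : ∀ u ∈ Set.Ioc s t, 0 ≤ f u) (hg : ∀ u ∈ Set.Ioc s t, ENNReal.ofReal (f u) ≤ g u)
    (hR : R = p0 * (t - s) + p1 / 2 * (t - s) ^ 2 + p2 / 3 * (t - s) ^ 3 + p3 / 4 * (t - s) ^ 4) :
    ENNReal.ofReal R ≤ ∫⁻ u in Set.Ioc s t, g u := by
  refine le_trans (le_of_eq ?_) (setLIntegral_mono' measurableSet_Ioc hg)
  have hc : Continuous f := by rw [funext hf]; fun_prop
  rw [← ofReal_integral_eq_lintegral_ofReal (hc.integrableOn_Icc.mono_set Set.Ioc_subset_Icc_self),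
    ← intervalIntegral.integral_of_le hst,
    intervalIntegral.integral_eq_sub_of_hasDerivAt
      (f := fun u => p0 * (u - s) + p1 / 2 * (u - s) ^ 2 + p2 / 3 * (u - s) ^ 3 +
        p3 / 4 * (u - s) ^ 4) (fun u _ => ?_) (hc.intervalIntegrable _ _)]
  · simp [hR]
  · have h1 : HasDerivAt (fun u : ℝ => u - s) 1 u := (hasDerivAt_id' u).sub_const s
    refine ((((h1.const_mul p0).fun_add ((h1.fun_pow 2).const_mul (p1 / 2))).fun_add
      ((h1.fun_pow 3).const_mul (p2 / 3))).fun_add ((h1.fun_pow 4).const_mul (p3 / 4))).congr_deriv ?_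
    rw [hf]
    push_cast
    ring
  · filter_upwards [ae_restrict_mem measurableSet_Ioc] with u hu using h0 u hu

end CRAx

open CRAx in
theorem p_CRA :
    S_CRA := by
  intro g N s t c a b hC hs ht hst htc ha hb hga hgb
  rcases hst.eq_or_lt with rfl | hlt
  · simp
  have hh : 0 < t - s := sub_pos.2 hlt
  obtain ⟨m, hm⟩ : ∃ m, b = a + m * (t - s) := ⟨(b - a) / (t - s), by field_simp; ring⟩
  have key : ∀ u ∈ Set.Ioc s t, ENNReal.ofReal ((a + m * (u - s)) ^ 2) ≤ g u := fun u hu => by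
    have := hC.2 s hs t ht a b ((u - s) / (t - s)) ha hb (div_nonneg (sub_nonneg.2 hu.1.le) hh.le)
      ((div_le_one hh).2 (sub_le_sub_right hu.2 s)) hga hgb
    have e1 : (1 - (u - s) / (t - s)) * s + (u - s) / (t - s) * t = u := by field_simp; ring
    have e2 : (1 - (u - s) / (t - s)) * a + (u - s) / (t - s) * b = a + m * (u - s) := by
      rw [hm]; field_simp; ring
    rwa [e1, e2] at this
  constructor
  · refine integ (f := fun u => (a + m * (u - s)) ^ 2) (p0 := a ^ 2) (p1 := 2 * a * m)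
      (p2 := m ^ 2) (p3 := 0) hst (fun u => by ring) (fun u _ => sq_nonneg _) key ?_
    rw [hm]; ring
  · refine integ (f := fun u => (c - u) * (a + m * (u - s)) ^ 2) (p0 := (c - s) * a ^ 2)
      (p1 := 2 * a * m * (c - s) - a ^ 2) (p2 := m ^ 2 * (c - s) - 2 * a * m) (p3 := -m ^ 2) hst
      (fun u => by ring) (fun u hu => mul_nonneg (sub_nonneg.2 (hu.2.trans htc)) (sq_nonneg _))
      (fun u hu => ?_) ?_
    · rw [ENNReal.ofReal_mul (sub_nonneg.2 (hu.2.trans htc))]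
      exact mul_le_mul_right (key u hu) _
    · rw [hm]; ring

end Pool.Agent.P.MP_6149fc_ag.V18

end

section

/-! Step CRT. -/

set_option autoImplicit false
set_option linter.unusedSectionVars false

namespace Pool.Agent.P.MP_6149fc_ag.V18

open scoped ENNReal
open MeasureTheory

namespace CRTx

lemma rearr {x y p q : ℝ≥0∞} (h1 : x ≤ y) (h2 : p ≤ q) : x * q + y * p ≤ x * p + y * q := by
  obtain ⟨d, rfl⟩ := exists_add_of_le h1
  obtain ⟨e, rfl⟩ := exists_add_of_le h2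
  calc _ ≤ x * (p + e) + (x + d) * p + d * e := le_self_add
    _ = _ := by ring

lemma lint {f F : ℝ → ℝ} {s t : ℝ} (hst : s ≤ t) (hc : Continuous f)
    (h0 : ∀ u ∈ Set.Ioc s t, 0 ≤ f u) (hF : ∀ u, HasDerivAt F (f u) u) :
    ∫⁻ u in Set.Ioc s t, ENNReal.ofReal (f u) = ENNReal.ofReal (F t - F s) := by
  rw [← ofReal_integral_eq_lintegral_ofReal
      (hc.integrableOn_Icc.mono_set Set.Ioc_subset_Icc_self)
      ((ae_restrict_mem measurableSet_Ioc).mono h0),
    ← intervalIntegral.integral_of_le hst,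
    intervalIntegral.integral_eq_sub_of_hasDerivAt (fun u _ => hF u) (hc.intervalIntegrable _ _)]

lemma mass {A c L : ℝ} (hA : 0 ≤ A) (hL : 0 ≤ L) :
    ∫⁻ u in Set.Ioc c (c + L), ENNReal.ofReal (A * (1 - (u - c) / L) ^ 2) =
      ENNReal.ofReal (A * L / 3) := by
  rcases hL.eq_or_lt with rfl | hL
  · simp
  rw [lint (F := fun u => -(A * L / 3) * (1 - (u - c) / L) ^ 3) (by linarith) (by fun_prop)
    (fun u _ => by positivity) (fun u => ?_)]
  · congr 1
    simp [hL.ne']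
  · refine ((((((hasDerivAt_id' u).sub_const c).div_const L).const_sub 1).fun_pow 3).const_mul
      _).congr_deriv ?_
    simp only [Nat.add_one_sub_one]
    push_cast
    field_simp

lemma mom {A c L : ℝ} (hA : 0 ≤ A) (hL : 0 ≤ L) :
    ∫⁻ u in Set.Ioc c (c + L), ENNReal.ofReal ((u - c) * (A * (1 - (u - c) / L) ^ 2)) =
      ENNReal.ofReal (A * L ^ 2 / 12) := by
  rcases hL.eq_or_lt with rfl | hL
  · simp
  rw [lint (F := fun u => (A / 2) * (u - c) ^ 2 - (2 * A / (3 * L)) * (u - c) ^ 3 +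
      (A / (4 * L ^ 2)) * (u - c) ^ 4) (by linarith) (by fun_prop)
    (fun u hu => mul_nonneg (sub_pos.2 hu.1).le (by positivity)) (fun u => ?_)]
  · congr 1
    simp only [add_sub_cancel_left, sub_self]
    field_simp
    ring
  · have h := (hasDerivAt_id' u).sub_const c
    refine ((((h.fun_pow 2).const_mul _).fun_sub ((h.fun_pow 3).const_mul _)).fun_add
      ((h.fun_pow 4).const_mul _)).congr_deriv ?_
    field_simp
    push_cast
    ring

end CRTx

open CRTx in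
theorem p_CRT :
    S_CRT := by
  intro g N c AA W hg hC hA hW hc hI
  have hcN : c ∈ N := hC.1 c (lt_of_lt_of_le (ENNReal.ofReal_pos.2 hA) hc).ne'
  have ha : √AA ^ 2 = AA := Real.sq_sqrt hA.le
  -- chord inequality
  have K : ∀ s, c < s → g s ≠ 0 → ∀ M : ℝ, s - c ≤ M →
      ENNReal.ofReal (AA * (1 - (s - c) / M) ^ 2) ≤ g s → ∀ u, c < u → u ≤ s →
      ENNReal.ofReal (AA * (1 - (u - c) / M) ^ 2) ≤ g u := by
    intro s hs hs0 M hM hb u hu hus
    have hsc : 0 < s - c := sub_pos.2 hs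
    have hM0 : 0 < M := hsc.trans_le hM
    have h := hC.2 c hcN s (hC.1 s hs0) (√AA) (√AA * (1 - (s - c) / M)) ((u - c) / (s - c))
      (Real.sqrt_nonneg _)
      (mul_nonneg (Real.sqrt_nonneg _) (sub_nonneg.2 ((div_le_one hM0).2 hM)))
      (div_nonneg (sub_pos.2 hu).le hsc.le) ((div_le_one hsc).2 (by linarith))
      (by rwa [ha]) (by rwa [mul_pow, ha])
    have e1 : (1 - (u - c) / (s - c)) * c + (u - c) / (s - c) * s = u := by
      field_simp; ring
    have e2 : (1 - (u - c) / (s - c)) * √AA + (u - c) / (s - c) * (√AA * (1 - (s - c) / M)) =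
        √AA * (1 - (u - c) / M) := by
      field_simp; ring
    rwa [e1, e2, mul_pow, ha] at h
  set L : ℝ := 3 * W / AA with hL
  have hL0 : 0 ≤ L := by positivity
  have B : ∀ s, c < s → g s ≠ 0 → s - c ≤ L := by
    intro s hs hs0
    have hsc : 0 < s - c := sub_pos.2 hs
    have h1 := mass (A := AA) (c := c) hA.le hsc.le
    have h2 : ENNReal.ofReal (AA * (s - c) / 3) ≤ ENNReal.ofReal W := by
      rw [← h1]
      refine le_trans (le_trans (setLIntegral_mono' measurableSet_Ioc fun u hu => ?_)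
        (lintegral_mono_set Set.Ioc_subset_Ioi_self)) hI
      exact K s hs hs0 (s - c) le_rfl (by simp [hsc.ne']) u hu.1 (by linarith [hu.2])
    rw [ENNReal.ofReal_le_ofReal_iff hW] at h2
    rw [hL, le_div_iff₀ hA]
    linarith
  set k : ℝ → ℝ≥0∞ := (Set.Ioc c (c + L)).indicator
    fun u => ENNReal.ofReal (AA * (1 - (u - c) / L) ^ 2) with hk
  have hkm : Measurable k := Measurable.indicator (by fun_prop) measurableSet_Ioc
  set T : Set ℝ := insert c {s | c < s ∧ k s < g s} with hT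
  have hTb : BddAbove T := ⟨c + L, by
    rintro s (rfl | hs)
    · linarith
    · linarith [B s hs.1 (pos_of_gt hs.2).ne']⟩
  have P : ∀ u ∈ Set.Ioi c, ENNReal.ofReal (u - c) * g u + ENNReal.ofReal (sSup T - c) * k u ≤
      ENNReal.ofReal (u - c) * k u + ENNReal.ofReal (sSup T - c) * g u := by
    intro u hu
    have hu' : c < u := hu
    rcases lt_trichotomy u (sSup T) with h | h | h
    · refine rearr (ENNReal.ofReal_le_ofReal (by linarith)) ?_
      obtain ⟨s, hs, hus⟩ := exists_lt_of_lt_csSup (Set.insert_nonempty _ _) h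
      rcases hs with rfl | hs
      · exact absurd hus hu'.not_gt
      have hs0 : g s ≠ 0 := (pos_of_gt hs.2).ne'
      have hb := B s hs.1 hs0
      have h2 := hs.2
      rw [hk, Set.indicator_of_mem (show s ∈ Set.Ioc c (c + L) from ⟨hs.1, by linarith⟩)] at h2
      rw [hk, Set.indicator_of_mem (show u ∈ Set.Ioc c (c + L) from ⟨hu', by linarith⟩)]
      exact K s hs.1 hs0 L hb h2.le u hu' hus.le
    · rw [← h, add_comm]
    · have h2 : g u ≤ k u := by
        by_contra h3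
        exact (le_csSup hTb (Or.inr ⟨hu', not_le.1 h3⟩)).not_gt h
      have h3 := rearr (ENNReal.ofReal_le_ofReal (show sSup T - c ≤ u - c by linarith)) h2
      exact (add_comm _ _).trans_le (h3.trans_eq (add_comm _ _))
  have hint : ∀ f : ℝ → ℝ≥0∞, ∫⁻ u in Set.Ioi c, (Set.Ioc c (c + L)).indicator f u =
      ∫⁻ u in Set.Ioc c (c + L), f u := by
    intro f
    rw [lintegral_indicator measurableSet_Ioc, Measure.restrict_restrict measurableSet_Ioc,
      Set.inter_eq_left.2 Set.Ioc_subset_Ioi_self]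
  have I1 : ∫⁻ u in Set.Ioi c, k u = ENNReal.ofReal W := by
    rw [hk, hint, mass hA.le hL0, hL]
    congr 1
    field_simp
  have I2 : ∫⁻ u in Set.Ioi c, ENNReal.ofReal (u - c) * k u =
      ENNReal.ofReal (3 / 4 * W ^ 2 / AA) := by
    have : ENNReal.ofReal (3 / 4 * W ^ 2 / AA) = ENNReal.ofReal (AA * L ^ 2 / 12) := by
      congr 1
      rw [hL]
      field_simp
      ring
    rw [this, ← mom (c := c) hA.le hL0, ← hint]
    refine setLIntegral_congr_fun measurableSet_Ioi fun u hu => ?_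
    by_cases h : u ∈ Set.Ioc c (c + L)
    · simp only [hk, Set.indicator_of_mem h]
      rw [ENNReal.ofReal_mul (sub_pos.2 h.1).le]
    · simp only [hk, Set.indicator_of_notMem h, mul_zero]
  have hm : Measurable fun u : ℝ => ENNReal.ofReal (u - c) := by fun_prop
  have F := setLIntegral_mono' (μ := volume) measurableSet_Ioi P
  rw [lintegral_add_left (hm.fun_mul hg), lintegral_add_left (hm.fun_mul hkm),
    lintegral_const_mul _ hkm, lintegral_const_mul _ hg, I1, I2] at F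
  exact (ENNReal.add_le_add_iff_right
    (ENNReal.mul_ne_top ENNReal.ofReal_ne_top ENNReal.ofReal_ne_top)).1
    (F.trans (add_le_add le_rfl (mul_le_mul_right hI _)))

end Pool.Agent.P.MP_6149fc_ag.V18

end

section

/-! Step CRL. -/

set_option autoImplicit false
set_option linter.unusedSectionVars false

namespace Pool.Agent.P.MP_6149fc_ag.V18

open scoped ENNReal
open MeasureTheory

namespace CRLx

theorem split (f : ℝ → ℝ≥0∞) (s t c : ℝ) (h1 : s ≤ t) (h2 : t ≤ c) :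
    ∫⁻ u in Set.Ioc s c, f u = (∫⁻ u in Set.Ioc s t, f u) + ∫⁻ u in Set.Ioc t c, f u := by
  rw [← Set.Ioc_union_Ioc_eq_Ioc h1 h2]
  refine lintegral_union measurableSet_Ioc ?_
  rw [Set.disjoint_left]
  intro x hx hx'
  exact absurd hx'.1 (not_lt.mpr hx.2)

theorem aux (hCRA : S_CRA) (g : ℝ → ℝ≥0∞) (N : Set ℝ) (c : ℚ) (hg : Conc g N) :
    ∀ (l : List (ℚ × ℚ)) (a : ℚ × ℚ), incr (a :: l) = true →
    (∀ x ∈ a :: l, (x.1 : ℝ) ∈ N ∧ x.1 ≤ c ∧ 0 ≤ x.2 ∧
      ENNReal.ofReal ((x.2 : ℝ) ^ 2) ≤ g x.1) →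
    0 ≤ v0 (a :: l) ∧ 0 ≤ m0 c (a :: l) ∧
      ENNReal.ofReal (v0 (a :: l) : ℝ) ≤ ∫⁻ u in Set.Ioc (a.1 : ℝ) (c : ℝ), g u ∧
      ENNReal.ofReal (m0 c (a :: l) : ℝ) ≤
        ∫⁻ u in Set.Ioc (a.1 : ℝ) (c : ℝ), ENNReal.ofReal (c - u) * g u := by
  intro l
  induction l with
  | nil =>
    intro a _ _
    simp [v0, m0]
  | cons b l ih =>
    intro a hinc hall
    simp only [incr, Bool.and_eq_true, decide_eq_true_eq] at hinc
    obtain ⟨hab, hinc⟩ := hinc
    obtain ⟨haN, hac, ha0, hag⟩ := hall a (by simp)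
    obtain ⟨hbN, hbc, hb0, hbg⟩ := hall b (by simp)
    obtain ⟨h1, h2, h3, h4⟩ := ih b hinc (fun x hx => hall x (List.mem_cons_of_mem _ hx))
    have habR : (a.1 : ℝ) ≤ b.1 := by exact_mod_cast hab
    have hbcR : (b.1 : ℝ) ≤ c := by exact_mod_cast hbc
    have ha0R : (0 : ℝ) ≤ a.2 := by exact_mod_cast ha0
    have hb0R : (0 : ℝ) ≤ b.2 := by exact_mod_cast hb0
    obtain ⟨k1, k2⟩ := hCRA g N a.1 b.1 c a.2 b.2 hg haN hbN habR hbcR ha0R hb0R hag hbg
    have hd : 0 ≤ b.1 - a.1 := sub_nonneg.mpr hab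
    have hca : 0 ≤ c - a.1 := sub_nonneg.mpr hac
    have hcb : 0 ≤ c - b.1 := sub_nonneg.mpr hbc
    refine ⟨?_, ?_, ?_, ?_⟩
    · simp only [v0]
      positivity
    · simp only [m0]
      positivity
    · rw [split g a.1 b.1 c habR hbcR]
      simp only [v0]
      push_cast
      exact le_trans ENNReal.ofReal_add_le (add_le_add k1 h3)
    · rw [split (fun u => ENNReal.ofReal (c - u) * g u) a.1 b.1 c habR hbcR]
      simp only [m0]
      push_cast
      exact le_trans ENNReal.ofReal_add_le (add_le_add k2 h4)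

end CRLx

theorem p_CRL (hCRA : S_CRA) :
    S_CRL := by
  intro g N c L hg hinc hall
  cases L with
  | nil => simp [v0, m0]
  | cons a l =>
    obtain ⟨h1, h2, h3, h4⟩ := CRLx.aux hCRA g N c hg l a hinc hall
    exact ⟨h1, h2, h3.trans (lintegral_mono_set Set.Ioc_subset_Iic_self),
      h4.trans (lintegral_mono_set Set.Ioc_subset_Iic_self)⟩

end Pool.Agent.P.MP_6149fc_ag.V18

end

section

/-! Step CRIT. -/

set_option autoImplicit false
set_option linter.unusedSectionVars false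

namespace Pool.Agent.P.MP_6149fc_ag.V18

open scoped ENNReal
open MeasureTheory

namespace CRITx

theorem real_ineq (c τ AA V0 M0 V W : ℝ) (hAA : 0 < AA) (hV0 : 0 ≤ V0) (hM0 : 0 ≤ M0)
    (hW : 0 ≤ W) (hWV : V0 + W ≤ V) (hV : V ≤ 3)
    (h : 3 / 4 * (3 - V0) ^ 2 ≤ AA * (M0 - 3 * (c - τ))) :
    3 / 4 * W ^ 2 ≤ AA * (M0 - V * (c - τ)) := by
  have hx0 : 0 ≤ V - V0 := by linarith
  have hW2 : W ^ 2 ≤ (V - V0) ^ 2 := pow_le_pow_left₀ hW (by linarith) 2
  suffices hs : 3 / 4 * (V - V0) ^ 2 ≤ AA * (M0 - V * (c - τ)) by linarith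
  rcases le_total τ c with hc | hc
  · have h1 : (V - V0) ^ 2 ≤ (3 - V0) ^ 2 := pow_le_pow_left₀ hx0 (by linarith) 2
    have h2 : V * (c - τ) ≤ 3 * (c - τ) := mul_le_mul_of_nonneg_right hV (by linarith)
    have h3 : AA * (M0 - 3 * (c - τ)) ≤ AA * (M0 - V * (c - τ)) :=
      mul_le_mul_of_nonneg_left (by linarith) hAA.le
    linarith
  · obtain ⟨δ, hδ, rfl⟩ : ∃ δ, 0 ≤ δ ∧ τ = c + δ := ⟨τ - c, by linarith, by ring⟩
    obtain ⟨x, hx, rfl⟩ : ∃ x, 0 ≤ x ∧ V = V0 + x := ⟨V - V0, hx0, by ring⟩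
    obtain ⟨D, hD⟩ : ∃ D, D = 3 - V0 := ⟨_, rfl⟩
    have hxD : x ≤ D := by linarith
    have hK : 0 ≤ AA * (M0 + V0 * δ) := by positivity
    have h' : 3 / 4 * D ^ 2 ≤ AA * (M0 + V0 * δ) + AA * δ * D := by
      have e : AA * (M0 - 3 * (c - (c + δ))) = AA * (M0 + V0 * δ) + AA * δ * D := by
        rw [hD]; ring
      rw [← e, hD]; exact h
    have e1 : V0 + x - V0 = x := by ring
    have e2 : AA * (M0 - (V0 + x) * (c - (c + δ))) = AA * (M0 + V0 * δ) + AA * δ * x := by ring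
    rw [e1, e2]
    obtain ⟨K, hK'⟩ : ∃ K, K = AA * (M0 + V0 * δ) := ⟨_, rfl⟩
    rw [← hK'] at hK h' ⊢
    obtain ⟨B, hB⟩ : ∃ B, B = AA * δ := ⟨_, rfl⟩
    rw [← hB] at h' ⊢
    rcases (hx.trans hxD).eq_or_lt with h0 | h0
    · have hx' : x = 0 := le_antisymm (h0 ▸ hxD) hx
      subst hx'
      simpa using hK
    · have h1 : x * (3 / 4 * D ^ 2) ≤ x * (K + B * D) := mul_le_mul_of_nonneg_left h' hx
      have h2 : x * K ≤ D * K := mul_le_mul_of_nonneg_right hxD hK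
      have h3 : x * x * D ≤ x * D * D :=
        mul_le_mul_of_nonneg_right (mul_le_mul_of_nonneg_left hxD hx) h0.le
      have h4 : D * (3 / 4 * x ^ 2) ≤ D * (K + B * x) := by nlinarith
      exact le_of_mul_le_mul_left h4 h0

theorem pt (c t : ℝ) (hc : 0 ≤ c) (ht : 0 ≤ t) :
    ENNReal.ofReal t + ENNReal.ofReal (c - t) = ENNReal.ofReal (t - c) + ENNReal.ofReal c := by
  rcases le_total t c with h | h
  · rw [← ENNReal.ofReal_add ht (by linarith), ENNReal.ofReal_of_nonpos (by linarith : t - c ≤ 0),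
      zero_add]
    congr 1; ring
  · rw [← ENNReal.ofReal_add (by linarith) hc, ENNReal.ofReal_of_nonpos (by linarith : c - t ≤ 0),
      add_zero]
    congr 1; ring

end CRITx

open CRITx in
theorem p_CRIT (hCRT : S_CRT) :
    S_CRIT := by
  intro g N c τ AA V0 M0 hg hconc hneg hV3 hAA hAc hτ hV0 hM0 hV0' hM0' h
  have hc : 0 ≤ c := by
    by_contra hc
    have h0 := hneg c (not_le.mp hc)
    rw [h0] at hAc
    have := ENNReal.ofReal_pos.mpr hAA
    exact absurd hAc (not_le.mpr this)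
  have hsplit : ∀ f : ℝ → ℝ≥0∞,
      (∫⁻ u in Set.Iic c, f u) + ∫⁻ u in Set.Ioi c, f u = ∫⁻ u, f u := by
    intro f
    have := lintegral_add_compl (μ := volume) f (measurableSet_Iic (a := c))
    rwa [Set.compl_Iic] at this
  have hVtop : (∫⁻ t, g t) ≠ ⊤ := ne_top_of_le_ne_top (by simp) hV3
  have hWle : (∫⁻ u in Set.Ioi c, g u) ≤ ∫⁻ t, g t := by
    rw [← hsplit g]; exact le_add_self
  have hWtop : (∫⁻ u in Set.Ioi c, g u) ≠ ⊤ := ne_top_of_le_ne_top hVtop hWle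
  obtain ⟨W, hW0, hW⟩ : ∃ W : ℝ, 0 ≤ W ∧ (∫⁻ u in Set.Ioi c, g u) = ENNReal.ofReal W :=
    ⟨_, ENNReal.toReal_nonneg, (ENNReal.ofReal_toReal hWtop).symm⟩
  obtain ⟨V, hVn, hV⟩ : ∃ V : ℝ, 0 ≤ V ∧ (∫⁻ u, g u) = ENNReal.ofReal V :=
    ⟨_, ENNReal.toReal_nonneg, (ENNReal.ofReal_toReal hVtop).symm⟩
  have hV3' : V ≤ 3 := by
    rw [hV] at hV3
    have e : (3 : ℝ≥0∞) = ENNReal.ofReal 3 := by simp
    rw [e] at hV3
    exact (ENNReal.ofReal_le_ofReal_iff (by norm_num)).mp hV3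
  have hWV : V0 + W ≤ V := by
    have h1 : ENNReal.ofReal V0 + ENNReal.ofReal W ≤ ENNReal.ofReal V := by
      rw [← hV, ← hsplit g, hW]
      exact add_le_add hV0' le_rfl
    rw [← ENNReal.ofReal_add hV0 hW0] at h1
    exact (ENNReal.ofReal_le_ofReal_iff hVn).mp h1
  have hT := hCRT g N c AA W hg hconc hAA hW0 hAc hW.le
  have hm1 : Measurable fun t : ℝ => ENNReal.ofReal t * g t :=
    (ENNReal.measurable_ofReal.comp measurable_id).mul hg
  have hm3 : Measurable fun t : ℝ => ENNReal.ofReal (t - c) * g t :=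
    (ENNReal.measurable_ofReal.comp (measurable_id.sub_const c)).mul hg
  have hid : (∫⁻ t, ENNReal.ofReal t * g t) + ∫⁻ t, ENNReal.ofReal (c - t) * g t =
      (∫⁻ t, ENNReal.ofReal (t - c) * g t) + ENNReal.ofReal c * ∫⁻ t, g t := by
    rw [← lintegral_add_left hm1, ← lintegral_const_mul _ hg, ← lintegral_add_left hm3]
    refine lintegral_congr fun t => ?_
    rcases lt_or_ge t 0 with ht | ht
    · simp [hneg t ht]
    · rw [← add_mul, ← add_mul, pt c t hc ht]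
  have h2 : ENNReal.ofReal M0 ≤ ∫⁻ t, ENNReal.ofReal (c - t) * g t :=
    hM0'.trans (setLIntegral_le_lintegral _ _)
  have h3 : (∫⁻ t, ENNReal.ofReal (t - c) * g t) ≤ ENNReal.ofReal (3 / 4 * W ^ 2 / AA) := by
    rw [← hsplit fun t => ENNReal.ofReal (t - c) * g t]
    have h0 : (∫⁻ u in Set.Iic c, ENNReal.ofReal (u - c) * g u) = 0 := by
      rw [setLIntegral_congr_fun (g := fun _ => 0) measurableSet_Iic]
      · simp
      · intro u hu
        have : u - c ≤ 0 := sub_nonpos.mpr hu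
        simp [ENNReal.ofReal_of_nonpos this]
    rw [h0, zero_add]
    exact hT
  have hr := real_ineq c τ AA V0 M0 V W hAA hV0 hM0 hW0 hWV hV3' h
  have hq : 0 ≤ 3 / 4 * W ^ 2 / AA := by positivity
  have hr' : 3 / 4 * W ^ 2 / AA + c * V ≤ τ * V + M0 := by
    have : 3 / 4 * W ^ 2 / AA ≤ M0 - V * (c - τ) := by
      rw [div_le_iff₀ hAA]; linarith
    linarith
  have h4 : (∫⁻ t, ENNReal.ofReal t * g t) + ENNReal.ofReal M0 ≤
      ENNReal.ofReal τ * (∫⁻ t, g t) + ENNReal.ofReal M0 := by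
    calc (∫⁻ t, ENNReal.ofReal t * g t) + ENNReal.ofReal M0
        ≤ (∫⁻ t, ENNReal.ofReal t * g t) + ∫⁻ t, ENNReal.ofReal (c - t) * g t :=
          add_le_add le_rfl h2
      _ = (∫⁻ t, ENNReal.ofReal (t - c) * g t) + ENNReal.ofReal c * ∫⁻ t, g t := hid
      _ ≤ ENNReal.ofReal (3 / 4 * W ^ 2 / AA) + ENNReal.ofReal c * ENNReal.ofReal V := by
          rw [hV]; exact add_le_add h3 le_rfl
      _ = ENNReal.ofReal (3 / 4 * W ^ 2 / AA + c * V) := by
          rw [← ENNReal.ofReal_mul hc, ← ENNReal.ofReal_add hq (mul_nonneg hc hVn)]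
      _ ≤ ENNReal.ofReal (τ * V + M0) := ENNReal.ofReal_le_ofReal hr'
      _ = ENNReal.ofReal τ * (∫⁻ t, g t) + ENNReal.ofReal M0 := by
          rw [hV, ← ENNReal.ofReal_mul hτ, ← ENNReal.ofReal_add (mul_nonneg hτ hVn) hM0]
  exact (ENNReal.add_le_add_iff_right ENNReal.ofReal_ne_top).mp h4

end Pool.Agent.P.MP_6149fc_ag.V18

end

section

/-! Step CERT1. -/

set_option autoImplicit false
set_option linter.unusedSectionVars false

namespace Pool.Agent.P.MP_6149fc_ag.V18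

open scoped ENNReal
open MeasureTheory

namespace CERT1x

open Pointwise

/-- The real point of a rational point. -/
def toR (q : Q3) : Fin 3 → ℝ := ![(q.1 : ℝ), (q.2.1 : ℝ), (q.2.2 : ℝ)]

lemma toR_pq (p : PT) : toR (pq p) = pR p := by
  simp [toR, pq, pR]

lemma cone {P : List PT} {B : Set (Fin 3 → ℝ)} (hB : Convex ℝ B) (h0 : (0 : Fin 3 → ℝ) ∈ B)
    (hP : ∀ p ∈ P, pR p ∈ B) (w : Wt) (hw : ∀ a ∈ w, 0 ≤ a.2) :
    0 ≤ (w.map Prod.snd).sum ∧ toR (comb P w) ∈ (((w.map Prod.snd).sum : ℚ) : ℝ) • B := by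
  induction w with
  | nil => exact ⟨le_rfl, 0, h0, by ext j; fin_cases j <;> simp [toR, comb]⟩
  | cons a l ih =>
    obtain ⟨h1, h2⟩ := ih fun b hb => hw b (List.mem_cons_of_mem _ hb)
    have ha := hw a List.mem_cons_self
    have hq : pR (P.getD a.1 (1, 0, 0, 0)) ∈ B := by
      rcases lt_or_ge a.1 P.length with h | h
      · rw [List.getD_eq_getElem _ _ h]
        exact hP _ (List.getElem_mem h)
      · rw [List.getD_eq_default _ _ h]
        convert h0
        ext j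
        fin_cases j <;> simp [pR]
    rw [List.map_cons, List.sum_cons]
    refine ⟨add_nonneg ha h1, ?_⟩
    rw [Rat.cast_add, hB.add_smul (by exact_mod_cast ha) (by exact_mod_cast h1)]
    refine ⟨_, Set.smul_mem_smul_set hq, _, h2, ?_⟩
    rw [← toR_pq]
    ext j
    fin_cases j <;> simp [toR, comb]

lemma mem {P : List PT} {B : Set (Fin 3 → ℝ)} (hB : Convex ℝ B) (h0 : (0 : Fin 3 → ℝ) ∈ B)
    (hP : ∀ p ∈ P, pR p ∈ B) {w : Wt} (hw : okW w = true) : toR (comb P w) ∈ B := by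
  simp only [okW, Bool.and_eq_true, List.all_eq_true, decide_eq_true_eq] at hw
  obtain ⟨h1, y, hy, e⟩ := cone hB h0 hP w hw.1
  rw [← e]
  exact hB.smul_mem_of_zero_mem h0 hy ⟨by exact_mod_cast h1, by exact_mod_cast hw.2⟩

lemma ins (i : Fin 3) (q : Q3) :
    (Fin.insertNth i ((co i q).1 : ℝ) ![((co i q).2.1 : ℝ), ((co i q).2.2 : ℝ)] : Fin 3 → ℝ) =
      toR q := by
  fin_cases i <;> ext j <;> fin_cases j <;> rfl

lemma conv {B : Set (Fin 3 → ℝ)} (hB : Convex ℝ B) (i : Fin 3) (t : ℝ) : Convex ℝ (sl B i t) := by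
  intro x hx y hy a b ha hb hab
  have := hB hx hy ha hb hab
  change _ ∈ B
  convert this using 1
  refine funext (i.succAboveCases ?_ fun j => ?_)
  · simp [← add_mul, hab]
  · simp

end CERT1x

open CERT1x in
theorem p_CERT1 (hTRAP : S_TRAP) :
    S_CERT1 := by
  intro P i t S B hB hm h0 hP hS
  simp only [okS, Bool.and_eq_true, List.all_eq_true, decide_eq_true_eq] at hS
  obtain ⟨⟨h1, h2⟩, h3⟩ := hS
  have key : ∀ q ∈ chainOf P i S, q.2.1 ≤ q.2.2 ∧ ![(q.1 : ℝ), (q.2.1 : ℝ)] ∈ sl B i t ∧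
      ![(q.1 : ℝ), (q.2.2 : ℝ)] ∈ sl B i t := by
    intro q hq
    obtain ⟨s, hs, rfl⟩ := List.mem_map.1 hq
    obtain ⟨⟨⟨⟨⟨a1, a2⟩, a3⟩, a4⟩, a5⟩, a6⟩ := h3 s hs
    refine ⟨a6, ?_, ?_⟩
    · have := mem hB h0 hP a1
      rw [← ins i, a3] at this
      exact this
    · have := mem hB h0 hP a2
      rw [← ins i, a4, ← a5] at this
      exact this
  refine ⟨?_, hTRAP _ _ (conv hB i t) hm h2 key⟩
  cases S with
  | nil => simp at h1
  | cons s l => exact ⟨_, (key _ (List.mem_map.2 ⟨s, List.mem_cons_self, rfl⟩)).2.1⟩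

end Pool.Agent.P.MP_6149fc_ag.V18

end

section

/-! Step CERT. -/

set_option autoImplicit false
set_option linter.unusedSectionVars false

namespace Pool.Agent.P.MP_6149fc_ag.V18

open scoped ENNReal
open MeasureTheory

theorem CERTx.incr_map {α β : Type} (f : α → β) :
    ∀ L : List (ℚ × α), incr (L.map fun l => (l.1, f l.2)) = incr L
  | [] => rfl
  | [_] => rfl
  | a :: b :: l => by
    have := CERTx.incr_map f (b :: l)
    simp only [List.map_cons, incr] at this ⊢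
    rw [this]

theorem p_CERT (hCERT1 : S_CERT1) (hSLICE1 : S_SLICE1) (hSLICE2 : S_SLICE2) (hCRL : S_CRL) (hCRIT : S_CRIT) :
    S_CERT := by
  intro P i τ L c S h B hc hm h0 hv hz hP
  simp only [chk, Bool.and_eq_true, List.all_eq_true, decide_eq_true_eq] at h
  obtain ⟨⟨⟨⟨⟨h1, h2⟩, h3⟩, h4⟩, h5⟩, h6⟩ := h
  obtain ⟨s1, s2, s3, s4⟩ := hSLICE1 B i hm
  have s5 := hSLICE2 B i hc s1
  obtain ⟨r1, r2, r3, r4⟩ := hCRL _ _ c (L.map fun l => (l.1, l.2.1)) s5
    ((CERTx.incr_map Prod.fst L).trans h2) (by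
      intro l' hl'
      obtain ⟨l, hl, rfl⟩ := List.mem_map.1 hl'
      obtain ⟨⟨⟨e1, e2⟩, e3⟩, e4⟩ := h5 l hl
      obtain ⟨e5, e6⟩ := hCERT1 P i l.1 l.2.2 B hc (s1 _) hz hP e1
      exact ⟨e5, e2, e3, (ENNReal.ofReal_le_ofReal (by exact_mod_cast e4)).trans e6⟩)
  rw [s4, s3]
  refine hCRIT _ _ c τ _ _ _ s2 s5 (fun t ht => ?_) (s3 ▸ hv) (by exact_mod_cast h4)
    (hCERT1 P i c S B hc (s1 _) hz hP h3).2 (by exact_mod_cast h1) (by exact_mod_cast r1)
    (by exact_mod_cast r2) r3 r4 ?_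
  · have e : sl B i t = ∅ := Set.eq_empty_of_forall_notMem fun y hy => by
      have := h0 _ hy i
      rw [Fin.insertNth_apply_same] at this
      linarith
    rw [e, measure_empty]
  · have := (Rat.cast_le (K := ℝ)).2 h6
    push_cast at this
    exact this

end Pool.Agent.P.MP_6149fc_ag.V18

end

section

/-! Step CONV2. -/

set_option autoImplicit false
set_option linter.unusedSectionVars false

namespace Pool.Agent.P.MP_6149fc_ag.V18

open scoped ENNReal
open MeasureTheory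

namespace CONV2x

open ConvA Filter Topology

theorem key (A : ℕ) (d : ℕ → ℕ) (s : ℕ → ℕ → ℕ) (V W : ℝ≥0∞) (h3 : VolN d 3)
    (hA : ∀ V : ℝ, VolN d V → V ≤ 3 → ∀ M J : ℕ,
      ((s M J : ℕ) : ℝ) ≤ A * (V * ((M : ℝ) + 15) ^ 4 + 3))
    (hlow0 : ∀ θ : ℝ, 0 < θ → θ < 1 → ∀ b < V, ∀ᶠ M : ℕ in atTop,
      ENNReal.ofReal (θ * M) ^ 3 * b ≤ d M)
    (hcard : ∀ M, 1 ≤ M → (d M : ℝ≥0∞) ≤ ((M + 3 : ℕ) : ℝ≥0∞) ^ 3 * V)
    (hlowB : ∀ θ : ℝ, 0 < θ → θ < 1 → ∀ b < W, ∃ C : ℕ, ∀ᶠ M : ℕ in atTop, ∃ J : ℕ,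
      ENNReal.ofReal (θ * M) ^ (3 + 1) * b ≤ ((s M J + C * d M : ℕ) : ℝ≥0∞)) :
    W ≤ A * V := by
  have hre : ∀ (θ β : ℝ) (M k N : ℕ), 0 < θ → 0 ≤ β →
      ENNReal.ofReal (θ * M) ^ k * ENNReal.ofReal β ≤ (N : ℝ≥0∞) →
      θ ^ k * β * (M : ℝ) ^ k ≤ N := by
    intro θ β M k N h0 hβ h
    rw [← ENNReal.ofReal_pow (by positivity), ← ENNReal.ofReal_mul (by positivity),
      ← ENNReal.ofReal_natCast, ENNReal.ofReal_le_ofReal_iff (Nat.cast_nonneg _)] at h
    calc _ = (θ * M) ^ k * β := by ring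
      _ ≤ _ := h
  have h1 : V ≤ ENNReal.ofReal 3 := by
    refine le_of_forall_lt_imp_le_of_dense fun b hb => le_of_theta 3 fun θ h0 h1 => ?_
    have hl := hlow0 θ h0 h1 b hb
    rw [← ENNReal.ofReal_toReal hb.ne_top] at hl ⊢
    rw [← ENNReal.ofReal_pow h0.le, ← ENNReal.ofReal_mul (by positivity)]
    exact ENNReal.ofReal_le_ofReal (h3 _ (hl.mono fun M hM =>
      hre θ _ M 3 _ h0 ENNReal.toReal_nonneg hM))
  have hVt : V ≠ ⊤ := ne_top_of_le_ne_top ENNReal.ofReal_ne_top h1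
  obtain ⟨v, hv0, rfl⟩ : ∃ v : ℝ, 0 ≤ v ∧ V = ENNReal.ofReal v :=
    ⟨V.toReal, ENNReal.toReal_nonneg, (ENNReal.ofReal_toReal hVt).symm⟩
  have hv3 : v ≤ 3 := (ENNReal.ofReal_le_ofReal_iff (by norm_num)).1 h1
  have hcR : ∀ M : ℕ, 1 ≤ M → (d M : ℝ) ≤ ((M : ℝ) + 3) ^ 3 * v := fun M hM => by
    have := hcard M hM
    rw [← ENNReal.ofReal_natCast, ← ENNReal.ofReal_natCast (M + 3),
      ← ENNReal.ofReal_pow (by positivity), ← ENNReal.ofReal_mul (by positivity),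
      ENNReal.ofReal_le_ofReal_iff (by positivity)] at this
    exact_mod_cast this
  have hu : Tendsto (fun M : ℕ => (M : ℝ)⁻¹) atTop (𝓝 0) := tendsto_inv_atTop_nhds_zero_nat
  have hvol : VolN d v := fun c hc => by
    have hg : Continuous fun u : ℝ => (1 + 3 * u) ^ 3 * v := by fun_prop
    have ht := (hg.tendsto 0).comp hu
    simp only [mul_zero, add_zero, one_pow, one_mul] at ht
    refine ge_of_tendsto ht ?_
    filter_upwards [hc, eventually_ge_atTop 1] with M hM hM1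
    have hMR : (0 : ℝ) < M := by exact_mod_cast hM1
    refine le_of_mul_le_mul_right ((hM.trans (hcR M hM1)).trans_eq ?_) (pow_pos hMR 3)
    simp only [Function.comp]
    field_simp
  refine le_of_forall_lt_imp_le_of_dense fun b hb => le_of_theta (3 + 1) fun θ h0 h1 => ?_
  obtain ⟨C, hC⟩ := hlowB θ h0 h1 b hb
  rw [← ENNReal.ofReal_toReal hb.ne_top] at hC ⊢
  rw [← ENNReal.ofReal_pow h0.le, ← ENNReal.ofReal_mul (by positivity), ← ENNReal.ofReal_natCast,
    ← ENNReal.ofReal_mul (by positivity)]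
  refine ENNReal.ofReal_le_ofReal ?_
  have hg : Continuous fun u : ℝ =>
      A * (v * (1 + 15 * u) ^ 4 + 3 * u ^ 4) + C * ((1 + 3 * u) ^ 3 * v) * u := by fun_prop
  have ht := (hg.tendsto 0).comp hu
  simp only [mul_zero, add_zero, one_pow, mul_one, ne_eq, OfNat.ofNat_ne_zero, not_false_eq_true,
    zero_pow] at ht
  refine ge_of_tendsto ht ?_
  filter_upwards [hC, eventually_ge_atTop 1] with M ⟨J, hJ⟩ hM1
  have hMR : (0 : ℝ) < M := by exact_mod_cast hM1
  have h5 := hre θ _ M (3 + 1) _ h0 ENNReal.toReal_nonneg hJ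
  rw [Nat.cast_add, Nat.cast_mul] at h5
  have h6 := add_le_add (hA v hvol hv3 M J)
    (mul_le_mul_of_nonneg_left (hcR M hM1) (Nat.cast_nonneg C))
  refine le_of_mul_le_mul_right ((h5.trans h6).trans_eq ?_) (pow_pos hMR (3 + 1))
  simp only [Function.comp]
  field_simp
  ring

theorem core (n A : ℕ) (G : Semi n) (hn : 1 ≤ n)
    (H : ∀ V W : ℝ≥0∞, (∀ θ : ℝ, 0 < θ → θ < 1 → ∀ b < V, ∀ᶠ M : ℕ in atTop,
        ENNReal.ofReal (θ * M) ^ n * b ≤ (G.Γ M 0).card) →
      (∀ M, 1 ≤ M → ((G.Γ M 0).card : ℝ≥0∞) ≤ ((M + n : ℕ) : ℝ≥0∞) ^ n * V) →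
      (∀ θ : ℝ, 0 < θ → θ < 1 → ∀ b < W, ∃ C : ℕ, ∀ᶠ M : ℕ in atTop, ∃ J : ℕ,
        ENNReal.ofReal (θ * M) ^ (n + 1) * b ≤
          ((∑ j ∈ Finset.Icc 1 J, (G.Γ M j).card + C * (G.Γ M 0).card : ℕ) : ℝ≥0∞)) →
      W ≤ A * V) :
    ∫⁻ t in Set.Ioi (0 : ℝ), limsup (fun M : ℕ =>
        (n.factorial * (G.Γ M ⌈t * M⌉₊).card : ℝ≥0∞) / (M : ℝ≥0∞) ^ n) atTop ≤
      A * limsup (fun M : ℕ =>
        (n.factorial * (G.Γ M 0).card : ℝ≥0∞) / (M : ℝ≥0∞) ^ n) atTop := by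
  obtain ⟨B, hBm, hBc, -, hdown, hmem, hlow0, hlowB⟩ := p_BODY p_CUBE n G
  obtain ⟨hc1, -⟩ := p_CUBE n
  let sl : ℝ → Set (Fin n → ℝ) := fun s => Prod.mk s ⁻¹' B
  have hslm : ∀ s, MeasurableSet (sl s) := fun s => measurable_prodMk_left hBm
  have hDc : Convex ℝ (sl 0) := by
    intro x hx y hy a b ha hb hab
    have := hBc hx hy ha hb hab
    simpa [sl] using this
  have hD0 : (0 : Fin n → ℝ) ∈ sl 0 := by
    have := hmem 1 0 0 le_rfl G.zero1
    simp only [Nat.cast_zero, Finsupp.coe_zero, Pi.zero_apply, zero_div] at this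
    exact this
  have hDs : ∀ (M : ℕ) (a : Fin n) (k : ℕ), 1 ≤ M → Finsupp.single a k ∈ G.Γ M 0 →
      Pi.single a ((k : ℝ) / M) ∈ sl 0 := by
    intro M a k hM h
    have := hmem M 0 _ hM h
    simp only [Nat.cast_zero, zero_div] at this
    change (0, _) ∈ B
    convert this using 2
    ext j
    by_cases hj : j = a
    · subst hj; simp
    · simp [hj]
  have hD1 : ∀ i, Pi.single i (1 : ℝ) ∈ sl 0 := fun i => by
    simpa using hDs 1 i 1 le_rfl (G.single1 i)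
  have hsim := simplex_sub hDc hD0 hD1
  have hnR : (0 : ℝ) < n := by exact_mod_cast hn
  have hcube : ∀ (M j : ℕ) (γ : Fin n →₀ ℕ), 1 ≤ M → γ ∈ G.Γ M j → ∀ x : Fin n → ℝ,
      (∀ i, (γ i : ℝ) ≤ x i ∧ x i < γ i + 1) →
      (((M + n : ℕ) : ℝ)⁻¹ • x) ∈ sl (j / ((M : ℝ) + n)) := by
    intro M j γ hM hγ x hx
    have hMR : (0 : ℝ) < M := by exact_mod_cast hM
    have hq : (fun i => (x i - γ i) / n) ∈ simplex n := by
      refine ⟨fun i => div_nonneg (by linarith [(hx i).1]) hnR.le, ?_⟩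
      rw [← Finset.sum_div, div_le_one hnR]
      calc ∑ i, (x i - γ i) ≤ ∑ _i : Fin n, (1 : ℝ) :=
            Finset.sum_le_sum fun i _ => by linarith [(hx i).2]
        _ = n := by simp
    have := hBc (hmem M j γ hM hγ) (hsim hq) (a := M / (M + n)) (b := n / (M + n))
      (by positivity) (by positivity) (by field_simp)
    change (_, _) ∈ B
    convert this using 1
    ext i
    · simp only [Prod.fst_add, Prod.smul_fst, smul_eq_mul]
      field_simp
      ring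
    · simp only [Prod.snd_add, Prod.smul_snd, Pi.add_apply, Pi.smul_apply, smul_eq_mul]
      push_cast
      field_simp
      ring
  set V := volume (sl 0) with hV
  have hMn : ∀ M : ℕ, M + n ≠ 0 := fun M => by omega
  have hsc : ∀ (M : ℕ) (s : ℝ), MeasurableSet
      ((fun x : Fin n → ℝ => ((M + n : ℕ) : ℝ)⁻¹ • x) ⁻¹' sl s) := fun M s =>
    measurable_const_smul _ (hslm s)
  have h4 : volume B ≤ A * V := by
    refine H V _ hlow0 (fun M hM => ?_) hlowB
    rw [hV, ← vol_scale _ (hMn M)]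
    refine (hc1 _ _ (hsc M _) fun γ hγ x hx => ?_).1
    simpa using hcube M 0 γ hM hγ x hx
  have h5 : ∀ θ : ℝ, 0 < θ → θ < 1 → ∀ t : ℝ, 0 < t → ENNReal.ofReal θ ^ n *
      limsup (fun M : ℕ => (n.factorial * (G.Γ M ⌈t * M⌉₊).card : ℝ≥0∞) / (M : ℝ≥0∞) ^ n) atTop ≤
      n.factorial * volume (sl (θ * t)) := by
    intro θ h0 h1 t ht
    have hT0 : ENNReal.ofReal θ ^ n ≠ 0 := pow_ne_zero _ (by simpa using h0)
    have hTt : ENNReal.ofReal θ ^ n ≠ ⊤ := ENNReal.pow_ne_top ENNReal.ofReal_ne_top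
    rw [mul_comm, ← ENNReal.le_div_iff_mul_le (Or.inl hT0) (Or.inl hTt)]
    refine limsup_le_of_le (by isBoundedDefault) ?_
    filter_upwards [ev_theta n h1] with M ⟨hM, hθ⟩
    rw [ENNReal.le_div_iff_mul_le (Or.inl hT0) (Or.inl hTt), mul_comm, ← mul_div_assoc]
    refine ENNReal.div_le_of_le_mul ?_
    have hc : ((G.Γ M ⌈t * M⌉₊).card : ℝ≥0∞) ≤
        ((M + n : ℕ) : ℝ≥0∞) ^ n * volume (sl (θ * t)) := by
      rw [← vol_scale _ (hMn M)]
      refine (hc1 _ _ (hsc M _) fun γ hγ x hx => ?_).1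
      refine hdown _ _ _ (hcube M _ γ hM hγ x hx) (by positivity) ?_
      rw [le_div_iff₀ (by positivity)]
      have := Nat.le_ceil (t * M)
      nlinarith [mul_le_mul_of_nonneg_left hθ ht.le]
    calc _ ≤ ENNReal.ofReal θ ^ n *
            (n.factorial * (((M + n : ℕ) : ℝ≥0∞) ^ n * volume (sl (θ * t)))) := by gcongr
      _ = n.factorial * volume (sl (θ * t)) * (ENNReal.ofReal θ * ((M + n : ℕ) : ℝ≥0∞)) ^ n := by
          ring
      _ ≤ _ := mul_le_mul_right (pow_le_pow_left' (theta_en h0 hθ) n) _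
  have h6 : n.factorial * V ≤
      limsup (fun M : ℕ => (n.factorial * (G.Γ M 0).card : ℝ≥0∞) / (M : ℝ≥0∞) ^ n) atTop := by
    refine ENNReal.mul_le_of_forall_lt fun a ha b hb => le_of_theta n fun θ h0 h1 => ?_
    refine le_limsup_of_frequently_le' (Eventually.frequently ?_)
    filter_upwards [hlow0 θ h0 h1 b hb, eventually_ge_atTop 1] with M hM hM1
    have hz : (M : ℝ≥0∞) ^ n ≠ 0 := pow_ne_zero _ (by exact_mod_cast (by omega : M ≠ 0))
    rw [ENNReal.le_div_iff_mul_le (Or.inl hz)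
      (Or.inl (ENNReal.pow_ne_top (ENNReal.natCast_ne_top _)))]
    rw [ENNReal.ofReal_mul h0.le, ENNReal.ofReal_natCast] at hM
    calc _ = a * ((ENNReal.ofReal θ * M) ^ n * b) := by ring
      _ ≤ _ := mul_le_mul' ha.le hM
  refine le_of_theta (n + 1) fun θ h0 h1 => ?_
  have hsig : Measurable fun s => volume (sl s) := measurable_measure_prodMk_left hBm
  have hvol : volume B = ∫⁻ s, volume (sl s) := by
    rw [Measure.volume_eq_prod, Measure.prod_apply hBm]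
  calc _ = ENNReal.ofReal θ * ∫⁻ t in Set.Ioi (0 : ℝ), ENNReal.ofReal θ ^ n * limsup (fun M : ℕ =>
        (n.factorial * (G.Γ M ⌈t * M⌉₊).card : ℝ≥0∞) / (M : ℝ≥0∞) ^ n) atTop := by
        rw [lintegral_const_mul' _ _ (ENNReal.pow_ne_top ENNReal.ofReal_ne_top)]
        ring
    _ ≤ ENNReal.ofReal θ * ∫⁻ t in Set.Ioi (0 : ℝ), n.factorial * volume (sl (θ * t)) :=
        mul_le_mul_right (setLIntegral_mono' measurableSet_Ioi fun t ht => h5 θ h0 h1 t ht) _
    _ = n.factorial * (ENNReal.ofReal θ * ∫⁻ t in Set.Ioi (0 : ℝ), volume (sl (θ * t))) := by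
        rw [lintegral_const_mul' _ _ (ENNReal.natCast_ne_top _)]
        ring
    _ ≤ n.factorial * (A * V) :=
        mul_le_mul_right ((int_sig hsig h0).trans (hvol ▸ h4)) _
    _ = A * (n.factorial * V) := by ring
    _ ≤ _ := mul_le_mul_right h6 _

end CONV2x

theorem p_CONV2 :
    S_CONV2 := fun A G h3 hA =>
  CONV2x.core 3 A G (by norm_num) fun V W h1 h2 h4 =>
    CONV2x.key A (fun M => (G.Γ M 0).card) (fun M J => ∑ j ∈ Finset.Icc 1 J, (G.Γ M j).card)
      V W h3 hA h1 h2 h4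

end Pool.Agent.P.MP_6149fc_ag.V18

end
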