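import Pool.Agent.P.MP_6149fc_ag.V18.IfaceA

section

/-! Step COUNT. -/

set_option autoImplicit false
set_option linter.unusedSectionVars false

namespace Pool.Agent.P.MP_6149fc_ag.V18

open scoped ENNReal
open MvPowerSeries (coeff X constantCoeff monomial)

theorem p_COUNT (hRKA : S_RKA) :
    S_COUNT := by
  intro κ L β _ _ _ _ dg x K r hd hsp
  classical
  by_contra hc
  obtain ⟨S, hr, hS⟩ := ((hRKA κ L).2.2.2 β x r).1 (not_lt.1 hc)
  subst hr
  have hw : ∀ m : β →₀ ℕ, Finsupp.weight dg m = ((∑ b, m b * (dg b).toNat : ℕ) : ℤ) := by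
    intro m
    rw [Finsupp.weight_apply, Finsupp.sum_fintype _ _ (by simp), Nat.cast_sum]
    refine Finset.sum_congr rfl fun b _ => ?_
    rw [Nat.cast_mul, Int.toNat_of_nonneg (hd b).le, nsmul_eq_mul]
  set c : ℕ := ∑ b, (dg b).toNat with hcc
  set G : Finset (Finset β) := Finset.univ.filter fun T => T.card < S.card with hG
  set D : ℕ := G.card * (K + 1) ^ Fintype.card β * (c + 1) ^ S.card with hD
  set D1 : ℕ := D * (c + 1) with hD1
  set Sm : Finset (β → ℕ) := G.biUnion fun T =>
    Fintype.piFinset fun b => Finset.range (if b ∈ T then D1 + 1 else K + 1) with hSm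
  set W : Finset L := Sm.image fun m => ∏ b, x b ^ m b with hW
  have h1 : ∀ m : β →₀ ℕ, ∑ b, m b * (dg b).toNat ≤ D1 →
      MvPolynomial.aeval x (MvPolynomial.monomial m (1 : κ)) ∈ Submodule.span κ (W : Set L) := by
    intro m hm
    refine Submodule.span_mono ?_ (hsp m)
    rintro _ ⟨u, hu, hu', rfl⟩
    rw [MvPolynomial.aeval_monomial, map_one, one_mul, Finsupp.prod_fintype _ _ (by simp)]
    refine Finset.mem_coe.2 (Finset.mem_image.2 ⟨u, Finset.mem_biUnion.2
      ⟨Finset.univ.filter fun b => K ≤ u b, ?_, Fintype.mem_piFinset.2 fun b => ?_⟩, rfl⟩)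
    · exact Finset.mem_filter.2 ⟨Finset.mem_univ _, hu'⟩
    · rw [hw, hw, Nat.cast_inj] at hu
      have e1 : u b * (dg b).toNat ≤ ∑ b, u b * (dg b).toNat :=
        Finset.single_le_sum (f := fun b => u b * (dg b).toNat) (fun _ _ => Nat.zero_le _)
          (Finset.mem_univ b)
      have e2 : u b ≤ u b * (dg b).toNat :=
        Nat.le_mul_of_pos_right _ (by have := hd b; omega)
      simp only [Finset.mem_range, Finset.mem_filter, Finset.mem_univ, true_and]
      split_ifs <;> omega
  have h2 : W.card * (D1 + 1) ≤ G.card * (K + 1) ^ Fintype.card β * (D1 + 1) ^ S.card := by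
    have h3 : W.card ≤ ∑ T ∈ G, ∏ b, if b ∈ T then D1 + 1 else K + 1 := by
      refine Finset.card_image_le.trans (Finset.card_biUnion_le.trans (le_of_eq ?_))
      simp only [Fintype.card_piFinset, Finset.card_range]
    refine (Nat.mul_le_mul_right _ h3).trans ?_
    rw [Finset.sum_mul, mul_assoc, ← smul_eq_mul]
    refine Finset.sum_le_card_nsmul _ _ _ fun T hT => ?_
    have h4 : T.card + 1 ≤ S.card := (Finset.mem_filter.1 hT).2
    rw [Finset.prod_ite, Finset.prod_const, Finset.prod_const, Finset.filter_mem_eq_inter,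
      Finset.univ_inter, mul_comm ((D1 + 1) ^ _), mul_assoc, ← pow_succ]
    exact Nat.mul_le_mul (Nat.pow_le_pow_right (by omega) (Finset.card_le_univ _))
      (Nat.pow_le_pow_right (by omega) h4)
  have h3 : LinearIndependent κ fun e : S → Fin (D + 1) =>
      MvPolynomial.aeval (fun b : S => x b) (MvPolynomial.monomial
        (Finsupp.equivFunOnFinite.symm fun b => (e b : ℕ)) (1 : κ)) := by
    have h4 := ((MvPolynomial.basisMonomials S κ).linearIndependent.map'
      (MvPolynomial.aeval fun b : S => x b).toLinearMap (LinearMap.ker_eq_bot.2 hS)).comp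
      (fun e : S → Fin (D + 1) => Finsupp.equivFunOnFinite.symm fun b => (e b : ℕ))
      fun e e' h => funext fun b => Fin.ext (congrFun (Finsupp.equivFunOnFinite.symm.injective h) b)
    rw [MvPolynomial.coe_basisMonomials] at h4
    exact h4
  have h4 := linearIndependent_le_span_aux' _ h3 (W : Set L) (by
    rintro _ ⟨e, rfl⟩
    set m : S →₀ ℕ := Finsupp.equivFunOnFinite.symm fun b => (e b : ℕ) with hm
    have h5 := h1 (m.mapDomain Subtype.val) (by
      have e1 : ∀ b, (m.mapDomain Subtype.val) b ≤ D := by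
        intro b
        by_cases hb : b ∈ S
        · have := Finsupp.mapDomain_apply Subtype.val_injective m ⟨b, hb⟩
          exact this.le.trans (Nat.lt_succ_iff.1 (e ⟨b, hb⟩).2)
        · rw [Finsupp.mapDomain_of_notMem_range _ _ (by simpa using hb)]
          exact Nat.zero_le _
      refine (Finset.sum_le_sum fun b _ => Nat.mul_le_mul_right _ (e1 b)).trans ?_
      rw [← Finset.mul_sum, ← hcc, hD1]
      exact Nat.mul_le_mul_left _ (Nat.le_succ _))
    rw [← MvPolynomial.rename_monomial, MvPolynomial.aeval_rename] at h5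
    exact h5)
  simp only [Fintype.card_fun, Fintype.card_fin, Fintype.card_coe, Finset.coe_sort_coe] at h4
  have h5 : (D1 + 1) ^ S.card ≤ (c + 1) ^ S.card * (D + 1) ^ S.card := by
    rw [← mul_pow]
    exact Nat.pow_le_pow_left (by rw [hD1]; nlinarith) _
  have h6 : (D + 1) ^ S.card * (D1 + 1) ≤ (D + 1) ^ S.card * D := by
    calc _ ≤ W.card * (D1 + 1) := Nat.mul_le_mul_right _ h4
      _ ≤ G.card * (K + 1) ^ Fintype.card β * ((c + 1) ^ S.card * (D + 1) ^ S.card) :=
        h2.trans (Nat.mul_le_mul_left _ h5)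
      _ = _ := by rw [← mul_assoc, ← hD, mul_comm]
  have h7 := Nat.le_of_mul_le_mul_left h6 (by positivity)
  have h8 : D ≤ D1 := Nat.le_mul_of_pos_right _ (by omega)
  omega

end Pool.Agent.P.MP_6149fc_ag.V18

end

section

/-! Step REDUCE. -/

set_option autoImplicit false
set_option linter.unusedSectionVars false

namespace Pool.Agent.P.MP_6149fc_ag.V18

open scoped ENNReal
open MvPowerSeries (coeff X constantCoeff monomial)

namespace REDUCEx

variable {κ L β ι : Type} [Field κ] [Field L] [Algebra κ L]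

lemma supp_mem (x : β → L) (V : Submodule κ L) (q : MvPolynomial β κ)
    (h : ∀ m ∈ q.support, MvPolynomial.aeval x (MvPolynomial.monomial m (1 : κ)) ∈ V) :
    MvPolynomial.aeval x q ∈ V := by
  rw [q.as_sum, map_sum]
  refine V.sum_mem fun u hu => ?_
  have h1 : MvPolynomial.monomial u (MvPolynomial.coeff u q) =
      MvPolynomial.coeff u q • MvPolynomial.monomial u (1 : κ) := by
    rw [MvPolynomial.smul_monomial, smul_eq_mul, mul_one]
  rw [h1, map_smul]
  exact V.smul_mem _ (h u hu)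

lemma weight_pair (dg : β → ℤ) (ky : β → Key) (m : β →₀ ℕ) :
    Finsupp.weight (fun b => (dg b, ky b)) m = (Finsupp.weight dg m, Finsupp.weight ky m) := by
  induction m using Finsupp.induction_linear with
  | zero => simp only [map_zero]; rfl
  | add f g hf hg => simp only [map_add, hf, hg, Prod.mk_add_mk]
  | single a n => simp only [Finsupp.weight_single]; rfl

lemma mon_mul (u : β →₀ ℕ) (q : MvPolynomial β κ) {m : β →₀ ℕ}
    (h : MvPolynomial.coeff m (MvPolynomial.monomial u (1 : κ) * q) ≠ 0) :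
    ∃ m', m = u + m' ∧ MvPolynomial.coeff m' q ≠ 0 := by
  classical
  rw [MvPolynomial.coeff_monomial_mul'] at h
  split_ifs at h with h1
  · exact ⟨m - u, (add_tsub_cancel_of_le h1).symm, by simpa using h⟩
  · exact absurd rfl h

lemma comp (dg : β → ℤ) (ky : β → Key) (x : β → L) (P Q : ι → MvPolynomial β κ) (d : ι → ℤ)
    (k : ι → Key) (h1 : ∀ s, (P s).IsWeightedHomogeneous dg (d s))
    (h2 : ∀ s, (Q s).IsWeightedHomogeneous dg (d s))
    (h3 : ∀ s, (P s).IsWeightedHomogeneous ky (k s))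
    (h4 : ∀ s u, MvPolynomial.coeff u (Q s) ≠ 0 → k s < Finsupp.weight ky u)
    (h5 : ∀ s, MvPolynomial.aeval x (P s + Q s) = 0) (V : Submodule κ L) (c : ℤ × Key)
    (hV : ∀ m, Finsupp.weight dg m = c.1 → c.2 < Finsupp.weight ky m →
      MvPolynomial.aeval x (MvPolynomial.monomial m (1 : κ)) ∈ V)
    {p : MvPolynomial β κ} (hp : p ∈ Ideal.span (Set.range P)) (u : β →₀ ℕ) :
    MvPolynomial.aeval x (MvPolynomial.weightedHomogeneousComponent (fun b => (dg b, ky b)) c
      (MvPolynomial.monomial u (1 : κ) * p)) ∈ V := by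
  induction hp using Submodule.span_induction generalizing u with
  | mem p hp =>
    obtain ⟨s, rfl⟩ := hp
    have hP : (P s).IsWeightedHomogeneous (fun b => (dg b, ky b)) (d s, k s) := fun m hm => by
      rw [weight_pair, h1 s hm, h3 s hm]
    have h6 := (MvPolynomial.isWeightedHomogeneous_monomial (fun b => (dg b, ky b)) u (1 : κ)
      rfl).mul hP
    by_cases hc : Finsupp.weight (fun b => (dg b, ky b)) u + (d s, k s) = c
    · rw [hc] at h6
      rw [h6.weightedHomogeneousComponent_same]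
      have h7 : MvPolynomial.aeval x (MvPolynomial.monomial u (1 : κ) * P s) =
          -MvPolynomial.aeval x (MvPolynomial.monomial u (1 : κ) * Q s) := by
        have := h5 s
        rw [map_add] at this
        rw [map_mul, map_mul, eq_neg_of_add_eq_zero_left this, mul_neg]
      rw [h7]
      refine V.neg_mem (supp_mem x V _ fun m hm => ?_)
      obtain ⟨m', rfl, hm'⟩ := mon_mul u _ (MvPolynomial.mem_support_iff.1 hm)
      rw [weight_pair, Prod.mk_add_mk] at hc
      refine hV _ ?_ ?_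
      · rw [map_add, h2 s hm', ← hc]
      · rw [map_add, ← hc]
        exact add_lt_add_right (h4 s m' hm') _
    · rw [h6.weightedHomogeneousComponent_ne c (Ne.symm hc), map_zero]
      exact V.zero_mem
  | zero => simp
  | add p q _ _ hp hq =>
    rw [mul_add, map_add, map_add]
    exact V.add_mem (hp u) (hq u)
  | smul a p _ hp =>
    rw [smul_eq_mul]
    induction a using MvPolynomial.induction_on' with
    | monomial u' a =>
      have h6 : MvPolynomial.monomial u (1 : κ) * (MvPolynomial.monomial u' a * p) =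
          a • (MvPolynomial.monomial (u + u') (1 : κ) * p) := by
        rw [← mul_assoc, MvPolynomial.monomial_mul, one_mul, ← smul_mul_assoc,
          MvPolynomial.smul_monomial, smul_eq_mul, mul_one]
      rw [h6, map_smul, map_smul]
      exact V.smul_mem _ (hp _)
    | add a b ha hb =>
      rw [add_mul, mul_add, map_add, map_add]
      exact V.add_mem ha hb

lemma fin_deg [Fintype β] (dg : β → ℤ) (h : ∀ b, 0 < dg b) (D : ℤ) :
    {m : β →₀ ℕ | Finsupp.weight dg m = D}.Finite := by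
  refine (Finsupp.finite_of_degree_le D.toNat).subset fun m hm => ?_
  have h1 : ((Finsupp.degree m : ℕ) : ℤ) ≤ Finsupp.weight dg m := by
    rw [Finsupp.weight_apply, Finsupp.degree_apply, Finsupp.sum]
    push_cast
    refine Finset.sum_le_sum fun b _ => ?_
    have := h b
    rw [nsmul_eq_mul]
    nlinarith [Nat.cast_nonneg (α := ℤ) (m b)]
  have h2 : Finsupp.weight dg m = D := hm
  change Finsupp.degree m ≤ D.toNat
  omega

end REDUCEx

open REDUCEx in
theorem p_REDUCE :
    S_REDUCE := by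
  intro κ L β ι _ _ _ _ dg ky x P Q d k r h0 h1 h2 h3 h4 h5 hT
  classical
  let _ : LinearOrder β := LinearOrder.lift' (Fintype.equivFin β) (Equiv.injective _)
  have hT' : ∀ T : Finset β, ∃ m : β →₀ ℕ, T.card = r → ∃ p ∈ Ideal.span (Set.range P),
      MvPolynomial.coeff m p ≠ 0 ∧ (∀ m' ∈ p.support, toLex m ≤ toLex m') ∧
        ∀ b, m b ≠ 0 → b ∈ T := by
    intro T
    by_cases hc : T.card = r
    · obtain ⟨p, hp, hp0, hs⟩ := hT T hc
      obtain ⟨m, hm, hmin⟩ := Finset.exists_min_image p.support (fun m => toLex m)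
        (MvPolynomial.support_nonempty.2 hp0)
      exact ⟨m, fun _ => ⟨p, hp, MvPolynomial.mem_support_iff.1 hm, hmin, hs m hm⟩⟩
    · exact ⟨0, fun h => absurd h hc⟩
  choose mT hmT using hT'
  obtain ⟨K, hK⟩ : ∃ K : ℕ, ∀ T b, mT T b ≤ K :=
    ⟨Finset.univ.sup fun z : Finset β × β => mT z.1 z.2, fun T b =>
      Finset.le_sup (f := fun z : Finset β × β => mT z.1 z.2) (Finset.mem_univ (T, b))⟩
  refine ⟨K, fun u0 => ?_⟩
  generalize hD : Finsupp.weight dg u0 = D
  set V := Submodule.span κ {y | ∃ m : β →₀ ℕ, Finsupp.weight dg m = D ∧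
    (Finset.univ.filter fun b => K ≤ m b).card < r ∧
    y = MvPolynomial.aeval x (MvPolynomial.monomial m (1 : κ))} with hV
  by_contra hc
  obtain ⟨u, ⟨hu1, hu2⟩, hmax⟩ := Set.exists_max_image
    {m : β →₀ ℕ | Finsupp.weight dg m = D ∧
      MvPolynomial.aeval x (MvPolynomial.monomial m (1 : κ)) ∉ V}
    (fun m => toLex (Finsupp.weight ky m, toLex m))
    ((fin_deg dg h0 D).subset fun m hm => hm.1) ⟨u0, hD, hc⟩
  have hbig : ∀ m, Finsupp.weight dg m = D → (Finsupp.weight ky u < Finsupp.weight ky m ∨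
      Finsupp.weight ky u = Finsupp.weight ky m ∧ toLex u < toLex m) →
      MvPolynomial.aeval x (MvPolynomial.monomial m (1 : κ)) ∈ V := by
    intro m hm hl
    by_contra hn
    exact absurd (hmax m ⟨hm, hn⟩) (not_le.2 (Prod.Lex.toLex_lt_toLex.2 hl))
  apply hu2
  by_cases hcard : (Finset.univ.filter fun b => K ≤ u b).card < r
  · exact Submodule.subset_span ⟨u, hu1, hcard, rfl⟩
  obtain ⟨T, hTs, hTc⟩ := Finset.exists_subset_card_eq (not_lt.1 hcard)
  obtain ⟨p, hp, hp0, hmin, hs⟩ := hmT T hTc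
  have hle : mT T ≤ u := fun b => by
    by_cases hb : mT T b = 0
    · rw [hb]; exact Nat.zero_le _
    · exact (hK T b).trans (Finset.mem_filter.1 (hTs (hs b hb))).2
  obtain ⟨u', hu'⟩ : ∃ u', u = u' + mT T := ⟨u - mT T, (tsub_add_cancel_of_le hle).symm⟩
  have hq := comp dg ky x P Q d k h1 h2 h3 h4 h5 V (D, Finsupp.weight ky u)
    (fun m a b => hbig m a (Or.inl b)) hp u'
  set q := MvPolynomial.weightedHomogeneousComponent (fun b => (dg b, ky b))
    (D, Finsupp.weight ky u) (MvPolynomial.monomial u' (1 : κ) * p) with hqd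
  have hco : ∀ m, MvPolynomial.coeff m q =
      if Finsupp.weight (fun b => (dg b, ky b)) m = (D, Finsupp.weight ky u) then
        MvPolynomial.coeff m (MvPolynomial.monomial u' (1 : κ) * p) else 0 := fun m => by
    rw [hqd, MvPolynomial.coeff_weightedHomogeneousComponent]
  have hqu : MvPolynomial.coeff u q ≠ 0 := by
    rw [hco, if_pos (by rw [weight_pair, hu1])]
    rw [hu', MvPolynomial.coeff_monomial_mul, one_mul]
    exact hp0
  have hr : MvPolynomial.aeval x (q - MvPolynomial.monomial u (MvPolynomial.coeff u q)) ∈ V := by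
    refine supp_mem x V _ fun m hm => ?_
    have hm1 := MvPolynomial.mem_support_iff.1 hm
    rw [MvPolynomial.coeff_sub, MvPolynomial.coeff_monomial] at hm1
    have hne : u ≠ m := by
      rintro rfl
      simp at hm1
    rw [if_neg hne, sub_zero, hco] at hm1
    split_ifs at hm1 with hw
    swap
    · exact absurd rfl hm1
    rw [weight_pair, Prod.mk.injEq] at hw
    obtain ⟨m', rfl, hm'⟩ := mon_mul u' p hm1
    refine hbig _ hw.1 (Or.inr ⟨hw.2.symm, lt_of_le_of_ne ?_ fun e => hne (toLex.injective e)⟩)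
    rw [hu']
    have := hmin m' (MvPolynomial.mem_support_iff.2 hm')
    exact add_le_add_right (α := Lex (β →₀ ℕ)) this (toLex u')
  have h6 : MvPolynomial.monomial u (MvPolynomial.coeff u q) =
      MvPolynomial.coeff u q • MvPolynomial.monomial u (1 : κ) := by
    rw [MvPolynomial.smul_monomial, smul_eq_mul, mul_one]
  rw [map_sub, h6, map_smul] at hr
  have h7 := V.sub_mem hq hr
  rw [sub_sub_cancel] at h7
  exact (V.smul_mem_iff hqu).1 h7

end Pool.Agent.P.MP_6149fc_ag.V18

end

section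

/-! Step DEG0B. -/

set_option autoImplicit false
set_option linter.unusedSectionVars false

namespace Pool.Agent.P.MP_6149fc_ag.V18

open scoped ENNReal
open MvPowerSeries (coeff X constantCoeff monomial)

namespace DEG0Bx

theorem supp_rename {κ β : Type} [Field κ] (T : Finset β) (q : MvPolynomial T κ)
    (m : β →₀ ℕ) (hm : m ∈ (MvPolynomial.rename (Subtype.val : T → β) q).support) (b : β)
    (hb : m b ≠ 0) : b ∈ T := by
  classical
  have h1 : b ∈ (MvPolynomial.rename (Subtype.val : T → β) q).vars :=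
    (MvPolynomial.mem_vars_iff_mem_support b).2 ⟨m, hm, Finsupp.mem_support_iff.2 hb⟩
  obtain ⟨j, -, hj⟩ := MvPolynomial.mem_vars_rename _ _ h1
  rw [← hj]
  exact j.2

end DEG0Bx

theorem p_DEG0B :
    S_DEG0B := by
  classical
  intro κ β _ I T hI
  let φ : MvPolynomial T κ →ₐ[κ] MvPolynomial β κ := MvPolynomial.rename (Subtype.val : T → β)
  have hφ : Function.Injective φ := MvPolynomial.rename_injective _ Subtype.val_injective
  let S : Submonoid (MvPolynomial β κ) := (nonZeroDivisors (MvPolynomial T κ)).map φ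
  have hdis : Disjoint (I : Set (MvPolynomial β κ)) S := by
    rw [Set.disjoint_left]
    rintro p hp ⟨q, hq, rfl⟩
    have h0 : φ q = 0 := hI _ hp (fun m hm b hb => DEG0Bx.supp_rename T q m hm b hb)
    have hq0 : q = 0 := hφ (by rw [h0, map_zero])
    exact (nonZeroDivisors.ne_zero hq) hq0
  obtain ⟨p, hp, hIp, hpS⟩ := Ideal.exists_le_prime_disjoint I S hdis
  have := hp
  let R := MvPolynomial β κ ⧸ p
  let L' := FractionRing R
  let ψ : MvPolynomial β κ →ₐ[κ] L' :=
    (IsScalarTower.toAlgHom κ R L').comp (Ideal.Quotient.mkₐ κ p)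
  have hψ : ∀ f, ψ f = 0 ↔ f ∈ p := by
    intro f
    change algebraMap R L' (Ideal.Quotient.mk p f) = 0 ↔ f ∈ p
    rw [map_eq_zero_iff _ (IsFractionRing.injective R L'), Ideal.Quotient.eq_zero_iff_mem]
  have hev : (MvPolynomial.aeval (fun b => ψ (MvPolynomial.X b)) : MvPolynomial β κ →ₐ[κ] L') = ψ := by
    apply MvPolynomial.algHom_ext
    intro b
    rw [MvPolynomial.aeval_X]
  refine ⟨L', inferInstance, inferInstance, fun b => ψ (MvPolynomial.X b), ?_, ?_⟩
  · intro f hf
    rw [hev, hψ]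
    exact hIp hf
  · rw [algebraicIndependent_iff]
    intro q hq
    have h1 : ψ (φ q) = 0 := by
      rw [← hev]
      change MvPolynomial.aeval _ (MvPolynomial.rename (Subtype.val : T → β) q) = 0
      rw [MvPolynomial.aeval_rename]
      exact hq
    by_contra hne
    have h2 : φ q ∈ S := ⟨q, mem_nonZeroDivisors_of_ne_zero hne, rfl⟩
    exact Set.disjoint_left.1 hpS ((hψ _).1 h1) h2

end Pool.Agent.P.MP_6149fc_ag.V18

end

section

/-! Step DEG0. -/

set_option autoImplicit false
set_option linter.unusedSectionVars false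

namespace Pool.Agent.P.MP_6149fc_ag.V18

open scoped ENNReal
open MvPowerSeries (coeff X constantCoeff monomial)

theorem p_DEG0 (hCOUNT : S_COUNT) (hREDUCE : S_REDUCE) (hDEG0B : S_DEG0B) (hRKA : S_RKA) :
    S_DEG0 := by
  classical
  intro κ L β ι _ _ _ _ dg ky x P Q d k h1 h2 h3 h4 h5 h6
  have hfin : rk κ (Set.range x) ≠ ⊤ := by
    have := (hRKA κ L).2.2.1 (Finset.univ.image x)
    rw [Finset.coe_image, Finset.coe_univ, Set.image_univ] at this
    exact ne_top_of_le_ne_top (ENat.natCast_ne_top _) this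
  obtain ⟨r, hr⟩ := ENat.ne_top_iff_exists.1 hfin
  by_cases h : ∀ T : Finset β, T.card = r → ∃ p ∈ Ideal.span (Set.range P), p ≠ 0 ∧
      ∀ m ∈ p.support, ∀ b, m b ≠ 0 → b ∈ T
  · obtain ⟨K, hK⟩ := hREDUCE κ L β ι dg ky x P Q d k r h1 h2 h3 h4 h5 h6 h
    exact absurd (hCOUNT κ L β dg x K r h1 hK) (by rw [hr]; exact lt_irrefl _)
  · obtain ⟨T, hT⟩ := not_forall.1 h
    obtain ⟨hT1, hT2⟩ := Classical.not_imp.1 hT
    obtain ⟨L', i1, i2, x', h7, h8⟩ := hDEG0B κ β (Ideal.span (Set.range P)) T fun p hp hm => by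
      by_contra h0
      exact hT2 ⟨p, hp, h0, hm⟩
    refine ⟨L', i1, i2, x', fun s => h7 _ (Ideal.subset_span ⟨s, rfl⟩), ?_⟩
    rw [← hr]
    exact ((hRKA κ L').2.2.2 β x' r).2 ⟨T, hT1, h8⟩

end Pool.Agent.P.MP_6149fc_ag.V18

end

section

/-! Step DEGR. -/

set_option autoImplicit false
set_option linter.unusedSectionVars false

namespace Pool.Agent.P.MP_6149fc_ag.V18

open scoped ENNReal
open MvPowerSeries (coeff X constantCoeff monomial)

namespace DEGRx

section hom
variable {κ β M : Type} [Field κ] [AddCommMonoid M] {v : β → M} {ψ : M}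

/-- All coefficients are homogeneous. -/
def HH (v : β → M) (ψ : M) (F : PowerSeries (MvPolynomial β κ)) (c : M) : Prop :=
  ∀ s, (PowerSeries.coeff s F).IsWeightedHomogeneous v (c + s • ψ)

theorem HH.mul {F G : PowerSeries (MvPolynomial β κ)} {c d : M} (hF : HH v ψ F c)
    (hG : HH v ψ G d) : HH v ψ (F * G) (c + d) := by
  intro s
  rw [PowerSeries.coeff_mul]
  refine MvPolynomial.IsWeightedHomogeneous.sum _ _ _ fun p hp => ?_
  have := (hF p.1).mul (hG p.2)
  rwa [add_add_add_comm, ← add_nsmul, Finset.HasAntidiagonal.mem_antidiagonal.1 hp] at this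

theorem hh_one : HH v ψ (1 : PowerSeries (MvPolynomial β κ)) 0 := by
  intro s
  rw [PowerSeries.coeff_one]
  split_ifs with h
  · subst h
    simpa using MvPolynomial.isWeightedHomogeneous_one κ v
  · exact MvPolynomial.isWeightedHomogeneous_zero κ _ _

theorem HH.pow {F : PowerSeries (MvPolynomial β κ)} {c : M} (hF : HH v ψ F c) (k : ℕ) :
    HH v ψ (F ^ k) (k • c) := by
  induction k with
  | zero => simpa using hh_one
  | succ k ih => rw [pow_succ, succ_nsmul]; exact ih.mul hF

theorem hh_prod {Z : Fin 3 → PowerSeries (MvPolynomial β κ)} {φ : Fin 3 → M}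
    (h : ∀ j, HH v ψ (Z j) (φ j)) (α : Ex) : HH v ψ (∏ j, Z j ^ α j) (∑ j, α j • φ j) := by
  rw [Fin.prod_univ_three, Fin.sum_univ_three]
  exact (((h 0).pow _).mul ((h 1).pow _)).mul ((h 2).pow _)

end hom

theorem kk_nsmul (A : Rows) (n : ℕ) (α : Ex) : kk A (n • α) = n • kk A α := by
  induction n with
  | zero => simpa using kk_zero A
  | succ n ih => rw [succ_nsmul, succ_nsmul, kk_add, ih]

theorem kk_eq (A : Rows) (α : Ex) : ∑ j, α j • kk A (Finsupp.single j 1) = kk A α := by
  simp only [← kk_nsmul, ← kk_sum, Finsupp.smul_single, smul_eq_mul, mul_one,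
    Finsupp.univ_sum_single]

/-- The free coefficients. -/
abbrev Bt (w : Fin 3 → ℕ) (w0 e N : ℕ) : Type := {p : Fin 3 × Fin N // w p.1 * e < w0 * p.2}

variable {κ : Type} [Field κ] (w : Fin 3 → ℕ) (w0 e N : ℕ) (c : Fin 3 → κ)

/-- The universal arc. -/
noncomputable def Z (j : Fin 3) : PowerSeries (MvPolynomial (Bt w w0 e N) κ) :=
  PowerSeries.mk fun l => if h : l < N ∧ w j * e < w0 * l then
    MvPolynomial.X ⟨(j, ⟨l, h.1⟩), h.2⟩ else if w0 * l = w j * e then MvPolynomial.C (c j) else 0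

/-- The universal coefficients of a substitution. -/
noncomputable def Pol (h : PS κ) (s : ℕ) : MvPolynomial (Bt w w0 e N) κ :=
  ∑ α ∈ (Finsupp.finite_of_degree_le (σ := Fin 3) N).toFinset,
    coeff α h • PowerSeries.coeff s (∏ j, Z w w0 e N c j ^ α j)

/-- A specialisation of the universal arc. -/
noncomputable def ev {L : Type} [Field L] [Algebra κ L] (x : Bt w w0 e N → L) (j : Fin 3) :
    PowerSeries L :=
  PowerSeries.map (MvPolynomial.aeval x : MvPolynomial _ κ →ₐ[κ] L).toRingHom (Z w w0 e N c j)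

variable {w w0 e N c} {L : Type} [Field L] [Algebra κ L]

theorem coeff_ev (x : Bt w w0 e N → L) (j : Fin 3) (l : ℕ) :
    PowerSeries.coeff l (ev w w0 e N c x j) = if h : l < N ∧ w j * e < w0 * l then
      x ⟨(j, ⟨l, h.1⟩), h.2⟩ else if w0 * l = w j * e then algebraMap κ L (c j) else 0 := by
  rw [ev, PowerSeries.coeff_map, Z, PowerSeries.coeff_mk]
  split_ifs <;> simp

theorem typ_ev (x : Bt w w0 e N → L) : Typ w w0 e c (ev w w0 e N c x) := fun j l => by
  rw [coeff_ev]
  exact ⟨fun h => by rw [dif_neg (by omega), if_neg h.ne],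
    fun h => by rw [dif_neg (by omega), if_pos h]⟩

theorem cen_of {z : Fin 3 → PowerSeries L} (hc : ∀ j, w j * e = 0 → c j = 0)
    (h : Typ w w0 e c z) : Cen z := fun j => by
  rw [← PowerSeries.coeff_zero_eq_constantCoeff_apply]
  rcases Nat.eq_zero_or_pos (w j * e) with h0 | h0
  · rw [(h j 0).2 h0.symm, hc j h0, map_zero]
  · exact (h j 0).1 h0

theorem sub_ev (hc : ∀ j, w j * e = 0 → c j = 0) (x : Bt w w0 e N → L) (h : PS κ) {s : ℕ}
    (hs : s < N) : PowerSeries.coeff s (sub (ev w w0 e N c x) h) =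
      MvPolynomial.aeval x (Pol w w0 e N c h s) := by
  rw [coeff_sub (cen_of hc (typ_ev x)) h s (Finsupp.finite_of_degree_le (σ := Fin 3) N).toFinset
    fun α hα => (Set.Finite.mem_toFinset _).2 (hα.trans hs.le), Pol, map_sum]
  refine Finset.sum_congr rfl fun α _ => ?_
  simp only [ev, ← map_pow, ← map_prod, PowerSeries.coeff_map, map_smul]
  rfl

theorem pol_hom {M : Type} [AddCommMonoid M] {v : Bt w w0 e N → M} {ψ d : M} {φ : Fin 3 → M}
    (hZ : ∀ j, HH v ψ (Z w w0 e N c j) (φ j)) {h : PS κ} {s : ℕ}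
    (hd : ∀ α, coeff α h ≠ 0 → ∑ j, α j • φ j + s • ψ = d) :
    (Pol w w0 e N c h s).IsWeightedHomogeneous v d := by
  refine MvPolynomial.IsWeightedHomogeneous.sum _ _ _ fun α _ => ?_
  by_cases h0 : coeff α h = 0
  · rw [h0, zero_smul]
    exact MvPolynomial.isWeightedHomogeneous_zero κ _ _
  · intro u hu
    rw [MvPolynomial.coeff_smul] at hu
    exact (hh_prod hZ α s (right_ne_zero_of_smul hu)).trans (hd α h0)

theorem hh_dg (j : Fin 3) :
    HH (fun b : Bt w w0 e N => (w0 * (b.1.2 : ℕ) : ℤ) - w b.1.1 * e) (w0 : ℤ) (Z w w0 e N c j)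
      (-(w j * e)) := fun l => by
  rw [Z, PowerSeries.coeff_mk]
  split_ifs with h1 h2
  · convert MvPolynomial.isWeightedHomogeneous_X κ _ _ using 1
    simp only [nsmul_eq_mul]
    ring
  · convert MvPolynomial.isWeightedHomogeneous_C _ (c j) using 1
    have : (w0 * l : ℤ) = w j * e := by exact_mod_cast h2
    rw [nsmul_eq_mul]
    linarith
  · exact MvPolynomial.isWeightedHomogeneous_zero κ _ _

theorem hh_ky {A : Rows} (hA : ∀ j, c j ≠ 0 → ∀ r, A r j = 0) (j : Fin 3) :
    HH (fun b : Bt w w0 e N => kk A (Finsupp.single b.1.1 1)) 0 (Z w w0 e N c j)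
      (kk A (Finsupp.single j 1)) := fun l => by
  rw [Z, PowerSeries.coeff_mk, nsmul_zero, add_zero]
  split_ifs with h1 h2
  · exact MvPolynomial.isWeightedHomogeneous_X κ _ _
  · by_cases h0 : c j = 0
    · rw [h0, map_zero]
      exact MvPolynomial.isWeightedHomogeneous_zero κ _ _
    · have : kk A (Finsupp.single j 1) = 0 := by
        have := hA j h0
        rw [← kk_zero A, kk_eq_iff]
        fin_cases j <;> simp_all [dt]
      rw [this]
      exact MvPolynomial.isWeightedHomogeneous_C _ _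
  · exact MvPolynomial.isWeightedHomogeneous_zero κ _ _

end DEGRx

open DEGRx in
theorem p_DEGR (hDEG0 : S_DEG0) (hSUBC : S_SUBC) (hRKA : S_RKA) :
    S_DEGR := by
  intro κ L _ _ _ A k f g w w0 e kw N c z _ hc hA hf hl hz hd
  let x : Bt w w0 e N → L := fun b => PowerSeries.coeff b.1.2 (z b.1.1)
  have hx : ∀ j, ∀ l < N, PowerSeries.coeff l (ev w w0 e N c x j) = PowerSeries.coeff l (z j) := by
    intro j l hl
    rw [coeff_ev]
    split_ifs with h1 h2
    · rfl
    · exact ((hz j l).2 h2).symm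
    · exact ((hz j l).1 (by omega)).symm
  have g1 : ∀ α, coeff α g ≠ 0 → coeff α f ≠ 0 := fun α h h0 =>
    (hl.2 α (by rwa [map_sub, h0, zero_sub, neg_ne_zero])).ne' (hl.1 α h)
  have g2 : ∀ α, coeff α (f - g) ≠ 0 → coeff α f ≠ 0 := fun α h h0 =>
    g1 α (by rwa [map_sub, h0, zero_sub, neg_ne_zero] at h) h0
  have g3 : ∀ (s : ℕ) α, coeff α f ≠ 0 →
      ∑ j, α j • (-(w j * e) : ℤ) + s • (w0 : ℤ) = w0 * s - kw * e := fun s α h => by
    rw [← hf α h, Fin.sum_univ_three, wt]
    simp only [nsmul_eq_mul]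
    push_cast
    ring
  have h0 : PowerSeries.X ^ N ∣ sub (ev w w0 e N c x) f := by
    have := hSUBC κ L (ev w w0 e N c x) z N f (cen_of hc (typ_ev x)) (cen_of hc hz) fun j =>
      PowerSeries.X_pow_dvd_iff.2 fun l hl => by rw [map_sub, hx j l hl, sub_self]
    simpa using this.add hd
  obtain ⟨L', _, _, x', h1, h2⟩ := hDEG0 κ L (Bt w w0 e N) (Fin N)
    (fun b => (w0 * (b.1.2 : ℕ) : ℤ) - w b.1.1 * e) (fun b => kk A (Finsupp.single b.1.1 1)) x
    (fun s => Pol w w0 e N c g s) (fun s => Pol w w0 e N c (f - g) s)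
    (fun s => w0 * (s : ℕ) - kw * e) (fun _ => k)
    (fun b => sub_pos.2 (by exact_mod_cast b.2))
    (fun s => pol_hom hh_dg fun α h => g3 s α (g1 α h))
    (fun s => pol_hom hh_dg fun α h => g3 s α (g2 α h))
    (fun s => pol_hom (hh_ky hA) fun α h => by rw [nsmul_zero, add_zero, kk_eq, hl.1 α h])
    (fun s u hu => by
      rw [Pol, MvPolynomial.coeff_sum] at hu
      obtain ⟨α, -, hα⟩ := Finset.exists_ne_zero_of_sum_ne_zero hu
      rw [MvPolynomial.coeff_smul] at hα
      rw [hh_prod (hh_ky hA) α s (right_ne_zero_of_smul hα), nsmul_zero, add_zero, kk_eq]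
      exact hl.2 α (left_ne_zero_of_smul hα))
    (fun s => by
      have : Pol w w0 e N c g s + Pol w w0 e N c (f - g) s = Pol w w0 e N c f s := by
        simp only [Pol, ← Finset.sum_add_distrib, ← add_smul, map_sub, add_sub_cancel]
      rw [this, ← sub_ev hc x f s.2]
      exact PowerSeries.X_pow_dvd_iff.1 h0 s s.2)
  refine ⟨L', inferInstance, inferInstance, ev w w0 e N c x', typ_ev x',
    PowerSeries.X_pow_dvd_iff.2 fun s hs => (sub_ev hc x' g hs).trans (h1 ⟨s, hs⟩),
    ((hRKA κ L).1 _ _ ?_).trans (h2.trans (Matroid.eRk_mono _ ?_))⟩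
  · rintro _ ⟨j, l, hl, rfl⟩
    rw [← hx j l hl, coeff_ev]
    split_ifs
    · exact IntermediateField.subset_adjoin _ _ ⟨_, rfl⟩
    · exact IntermediateField.algebraMap_mem _ _
    · exact zero_mem _
  · rintro _ ⟨b, rfl⟩
    exact ⟨b.1.1, b.1.2, b.1.2.2, by rw [coeff_ev, dif_pos ⟨b.1.2.2, b.2⟩]⟩

end Pool.Agent.P.MP_6149fc_ag.V18

end

section

/-! Step DEG. -/

set_option autoImplicit false
set_option linter.unusedSectionVars false

namespace Pool.Agent.P.MP_6149fc_ag.V18

open scoped ENNReal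
open MvPowerSeries (coeff X constantCoeff monomial)

namespace DEGx

theorem typ_iff {κ L : Type} [Field κ] [Field L] [Algebra κ L] (z : Fin 3 → PowerSeries L) :
    Typ (κ := κ) (fun _ => 0) 1 0 (fun _ => 0) z ↔ Cen z := by
  constructor
  · intro h j
    have := (h j 0).2 (by simp)
    simpa using this
  · intro h j l
    refine ⟨fun hl => absurd hl (by simp), fun hl => ?_⟩
    have hl0 : l = 0 := by simpa using hl
    subst hl0
    simpa using h j

end DEGx

theorem p_DEG (hDEGR : S_DEGR) :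
    S_DEG := by
  intro κ _ A k f g μ hl hg L _ _ z N a hc hd hcod
  obtain ⟨L', _, _, z', h1, h2, h3⟩ := hDEGR κ L A k f g (fun _ => 0) 1 0 0 N (fun _ => 0) z
    Nat.one_pos (fun _ _ => rfl) (fun _ h => absurd rfl h) (fun α _ => by simp [wt]) hl
    ((DEGx.typ_iff z).2 hc) hd
  exact hg L' z' N a ((DEGx.typ_iff z').1 h1) h2 (le_trans hcod (add_le_add_left h3 _))

end Pool.Agent.P.MP_6149fc_ag.V18

end

section

/-! Step JET2. -/

set_option autoImplicit false
set_option linter.unusedSectionVars false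

namespace Pool.Agent.P.MP_6149fc_ag.V18

open scoped ENNReal
open MvPowerSeries (coeff X constantCoeff monomial)

theorem p_JET2 (hDEG : S_DEG) (hMONO : S_MONO) (hORD : S_ORD) :
    S_JET2 := by
  intro κ _ A f γ μ hI hγ
  refine hDEG κ A _ f _ μ hI.leadK ?_
  intro L _ _ z N a hc hd hcod
  obtain ⟨o, ho, hN⟩ := hMONO κ L z N γ _ hc hI.1 hd
  have h1 := hORD κ L z N a o hcod fun j => ⟨(ho j).1, (ho j).2.1⟩
  have a0 := Nat.mul_le_mul_right (o 0) (hγ 0)
  have a1 := Nat.mul_le_mul_right (o 1) (hγ 1)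
  have a2 := Nat.mul_le_mul_right (o 2) (hγ 2)
  have a3 : μ * (o 0 + o 1 + o 2) ≤ μ * (a + 3) := Nat.mul_le_mul_left _ (by omega)
  nlinarith

end Pool.Agent.P.MP_6149fc_ag.V18

end

section

/-! Step REGION. -/

set_option autoImplicit false
set_option linter.unusedSectionVars false

namespace Pool.Agent.P.MP_6149fc_ag.V18

open scoped ENNReal
open MvPowerSeries (coeff X constantCoeff monomial)

namespace REGIONx

theorem arith {w o : Fin 3 → ℕ} {γ : Ex} {w0 e kw μ N g b : ℕ} (h0 : 0 < w0)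
    (ht : ∀ j, ∃ t, w0 * o j = w j * e + t ∧ γ j * t ≤ μ * t) (hk : wt w γ = kw)
    (hkw : kw ≤ (w 0 + w 1 + w 2 + g * w0) * μ) (hN : N ≤ γ 0 * o 0 + γ 1 * o 1 + γ 2 * o 2)
    (hb : o 0 + o 1 + o 2 ≤ b) : N ≤ μ * (b + g * e) := by
  obtain ⟨t0, a0, b0⟩ := ht 0
  obtain ⟨t1, a1, b1⟩ := ht 1
  obtain ⟨t2, a2, b2⟩ := ht 2
  refine Nat.le_of_mul_le_mul_left ?_ h0
  have h1 := Nat.mul_le_mul_left w0 hN
  have h2 : w0 * (γ 0 * o 0 + γ 1 * o 1 + γ 2 * o 2) =
      e * kw + (γ 0 * t0 + γ 1 * t1 + γ 2 * t2) := by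
    rw [← hk, wt]
    calc _ = γ 0 * (w0 * o 0) + γ 1 * (w0 * o 1) + γ 2 * (w0 * o 2) := by ring
      _ = _ := by rw [a0, a1, a2]; ring
  have h3 := Nat.mul_le_mul_left e hkw
  have h4 : e * ((w 0 + w 1 + w 2 + g * w0) * μ) + (μ * t0 + μ * t1 + μ * t2) =
      w0 * (μ * (o 0 + o 1 + o 2 + g * e)) := by
    calc _ = μ * ((w 0 * e + t0) + (w 1 * e + t1) + (w 2 * e + t2)) + w0 * (μ * (g * e)) := by ring
      _ = _ := by rw [← a0, ← a1, ← a2]; ring
  have h5 : w0 * (μ * (o 0 + o 1 + o 2 + g * e)) ≤ w0 * (μ * (b + g * e)) := by gcongr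
  omega

theorem init_row {κ : Type} [Field κ] {A : Rows} {w : Fin 3 → ℕ} {kw : ℕ} {f : PS κ} {γ : Ex}
    (hA : First A w) (hf : Hm w kw f) (h : Init A f γ) : Init ![0, A 1, A 2] f γ := by
  refine ⟨h.1, fun α hα e => ?_⟩
  have := h.2 α hα e
  rw [kk_lt_iff, hA.dt, hA.dt, hf α hα, hf γ h.1] at this
  rw [kk_lt_iff]
  exact Or.inr ⟨by simp [dt], (this.resolve_left (lt_irrefl _)).2⟩

end REGIONx

theorem p_REGION (hDEGR : S_DEGR) (hMONO : S_MONO) (hORD : S_ORD) (hRKB : S_RKB) (hBC : S_BC) :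
    S_REGION := by
  intro κ L _ _ _ A w i0 g kw μ N a e f γ z hA a1 a2 hw hf hI hμ hkw hγ ho he heN hz hd hC
  classical
  obtain ⟨hc0, hlt⟩ := PowerSeries.order_eq_nat.1 ho
  set c0 := PowerSeries.coeff e (z i0) with hc
  let K := IntermediateField.adjoin κ (({c0} : Finset L) : Set L)
  have hm : c0 ∈ K := IntermediateField.subset_adjoin _ _ (by simp)
  let c : Fin 3 → K := fun j => if j = i0 then ⟨c0, hm⟩ else 0
  have cn : ∀ j, j ≠ i0 → c j = 0 := fun j hj => if_neg hj
  have ci : c i0 = ⟨c0, hm⟩ := if_pos rfl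
  have ci0 : c i0 ≠ 0 := by
    rw [ci]
    exact fun h => hc0 (congrArg Subtype.val h)
  let f' : PS K := MvPowerSeries.map (algebraMap κ K) f
  have cf' : ∀ α, coeff α f' ≠ 0 ↔ coeff α f ≠ 0 := fun α => by
    simp only [f', MvPowerSeries.coeff_map, ne_eq, map_eq_zero]
  have hf' : Hm w kw f' := fun α hα => hf α ((cf' α).1 hα)
  have hI' : Init ![0, A 1, A 2] f' γ := REGIONx.init_row hA hf'
    ⟨(cf' γ).2 hI.1, fun α hα => hI.2 α ((cf' α).1 hα)⟩
  have cen : ∀ {L' : Type} [Field L'] [Algebra K L'] {z' : Fin 3 → PowerSeries L'},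
      Typ w (w i0) e c z' → Cen z' := by
    intro L' _ _ z' hT j
    rw [← PowerSeries.coeff_zero_eq_constantCoeff_apply]
    rcases Nat.eq_zero_or_pos (w j * e) with h | h
    · have hj : j ≠ i0 := by
        rintro rfl
        exact (Nat.mul_pos hw he).ne' h
      rw [(hT j 0).2 (by omega), cn j hj, map_zero]
    · exact (hT j 0).1 (by omega)
  have hT : Typ w (w i0) e c z := by
    intro j l
    by_cases hj : j = i0
    · subst hj
      refine ⟨fun h => hlt l (Nat.lt_of_mul_lt_mul_left h), fun h => ?_⟩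
      rw [Nat.eq_of_mul_eq_mul_left hw h, ci]
      rfl
    · exact ⟨fun h => hz j hj l h.le, fun h => by rw [cn j hj, map_zero]; exact hz j hj l h.le⟩
  obtain ⟨L', _, _, z', hT', hd', hr⟩ := hDEGR K L ![0, A 1, A 2] _ f' _ w (w i0) e kw N c z hw
    (fun j h => cn j (by
      rintro rfl
      exact (Nat.mul_pos hw he).ne' h))
    (fun j h r => by
      have : j = i0 := by_contra fun hj => h (cn j hj)
      subst this
      fin_cases r <;> simp [a1, a2])
    hf' hI'.leadK hT (by rw [((hBC κ K).2 L z (cen hT)).1 f]; exact hd)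
  have hC' : Cod K z' N (a + 1) := by
    have h1 := hRKB κ L (cf z N) {c0}
    rw [Finset.card_singleton] at h1
    calc ((3 * N : ℕ) : ℕ∞) ≤ rk κ (cf z N) + a := hC
      _ ≤ rk K (cf z' N) + (1 : ℕ) + a := by
        gcongr
        exact h1.trans (by gcongr)
      _ = _ := by push_cast; ring
  obtain ⟨o, h1, h2⟩ := hMONO K L' z' N γ _ (cen hT') hI'.1 hd'
  have h3 := hORD K L' z' N (a + 1) o hC' fun j => ⟨(h1 j).1, (h1 j).2.1⟩
  by_cases hN : ∃ j, o j = N
  · obtain ⟨j, hj⟩ := hN
    have : o j ≤ o 0 + o 1 + o 2 := by fin_cases j <;> simp <;> omega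
    calc N ≤ 1 * (a + 1 + g * e) := by omega
      _ ≤ _ := Nat.mul_le_mul_right _ hμ
  · refine REGIONx.arith hw (fun j => ?_) (hf γ hI.1) hkw h2 h3
    obtain ⟨n1, n2⟩ := PowerSeries.order_eq_nat.1
      ((h1 j).2.2.resolve_left fun h => hN ⟨j, h⟩)
    have le : w j * e ≤ w i0 * o j := not_lt.1 fun h => n1 ((hT' j _).1 h)
    by_cases hj : j = i0
    · subst hj
      have : ¬ e < o j := fun h => ci0 (by
        have := n2 e h
        rwa [(hT' j e).2 rfl, map_eq_zero] at this)
      refine ⟨0, ?_, by simp⟩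
      have := Nat.mul_le_mul_left (w j) (not_lt.1 this)
      omega
    · obtain ⟨t, ht⟩ := Nat.exists_eq_add_of_le le
      exact ⟨t, ht, Nat.mul_le_mul_right _ (hγ j hj)⟩

end Pool.Agent.P.MP_6149fc_ag.V18

end

section

/-! Step ENGS. -/

set_option autoImplicit false
set_option linter.unusedSectionVars false

namespace Pool.Agent.P.MP_6149fc_ag.V18

open scoped ENNReal
open MvPowerSeries (coeff X constantCoeff monomial)

theorem p_ENGS (hRED : S_RED) (hJET2 : S_JET2) :
    S_ENGS := by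
  classical
  intro κ _ A U V hA hS
  refine hRED κ A U V hA ?_
  intro M μ n f γ hB hf hI hγ
  refine hJET2 κ A _ _ μ (Init.prod Finset.univ hI) fun i => ?_
  have h := hS i M (Finset.univ.image γ) fun η hη => by
    obtain ⟨j, -, rfl⟩ := Finset.mem_image.1 hη
    exact ⟨f j, hf j, hI j⟩
  rw [Finset.sum_image fun a _ b _ hab => hγ hab, one_mul] at h
  rw [Finsupp.finsetSum_apply]
  have h2 : ((∑ j, γ j i : ℕ) : ℝ) ≤ μ := by
    unfold Big at hB
    linarith
  exact_mod_cast h2

end Pool.Agent.P.MP_6149fc_ag.V18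

end
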