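import Pool.Agent.P.MP_6149fc_ag.V18.Base

/-! Statements: orders, transcendence degrees, degeneration of arcs, the three engines. -/

set_option autoImplicit false

namespace Pool.Agent.P.MP_6149fc_ag.V18

open scoped ENNReal
open MvPowerSeries (coeff X constantCoeff monomial)

-- deps:
def S_ADM : Prop := ∀ A : Rows, admB A → Adm A

-- deps:
def S_TWOFLAG : Prop :=
  ∀ (κ : Type) [Field κ] (A : Rows) (ι Λ C : Type) [Fintype ι] [LinearOrder Λ] (f : ι → PS κ)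
    (r : ι → Λ) (cl : ι → C), Adm A → LinearIndependent κ f →
    ∃ (g : ι → PS κ) (γ : ι → Ex),
      (∀ i, g i ∈ Submodule.span κ (f '' {j | cl j = cl i ∧ r i ≤ r j}) ∧ Init A (g i) (γ i)) ∧
      ∀ i j, cl i = cl j → γ i = γ j → i = j

-- deps: TWOFLAG
def S_TWO2 : Prop :=
  ∀ (κ : Type) [Field κ] (A B : Rows) (ι Λ : Type) [Fintype ι] [LinearOrder Λ]
    (W : Submodule κ (PS κ)) (f g : ι → PS κ) (k : ι → Key) (r : ι → Λ),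
    Adm A → Refines A B → (∀ i, f i ∈ W) → (∀ i, LeadK B (k i) (f i) (g i)) →
    LinearIndependent κ g →
    ∃ (f' g' : ι → PS κ) (γ : ι → Ex), Function.Injective γ ∧ ∀ i, f' i ∈ W ∧
      LeadK B (k i) (f' i) (g' i) ∧
      g' i ∈ Submodule.span κ (g '' {j | k j = k i ∧ r i ≤ r j}) ∧
      Init A (g' i) (γ i) ∧ Init A (f' i) (γ i) ∧ kk B (γ i) = k i

-- deps: TWOFLAG
def S_RED : Prop :=
  ∀ (κ : Type) [Field κ] (A : Rows) (U : ℕ → Submodule κ (PS κ)) (V : ℝ),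
    Adm A → DistB A U V → Loc U V

-- deps:
def S_RKA : Prop :=
  ∀ (κ L : Type) [Field κ] [Field L] [Algebra κ L],
    (∀ T T' : Set L, T ⊆ (IntermediateField.adjoin κ T' : Set L) → rk κ T ≤ rk κ T') ∧
    (∀ (T : Set L) (s : Finset L), rk κ (T ∪ (s : Set L)) ≤ rk κ T + s.card) ∧
    (∀ s : Finset L, rk κ (s : Set L) ≤ s.card) ∧
    (∀ (β : Type) [Fintype β] (x : β → L) (r : ℕ), (r : ℕ∞) ≤ rk κ (Set.range x) ↔
      ∃ S : Finset β, S.card = r ∧ AlgebraicIndependent κ fun b : S => x b)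

-- deps: RKA
def S_RKB : Prop :=
  ∀ (κ L : Type) [Field κ] [Field L] [Algebra κ L] (T : Set L) (s : Finset L),
    rk κ T ≤ rk (IntermediateField.adjoin κ (s : Set L)) T + s.card

-- deps:
def S_CFA : Prop :=
  ∀ (κ L : Type) [Field κ] [Field L] [Algebra κ L] (F : IntermediateField κ L),
    (∀ n (f g : PowerSeries L), CF F n f → CF F n g → CF F n (f * g)) ∧
    (∀ n k (f : PowerSeries L), CF F n f → CF F n (f ^ k)) ∧
    (∀ n e (f : PowerSeries L), CF F n f ↔ CF F (n + e) (PowerSeries.X ^ e * f)) ∧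
    (∀ n (u v h : PowerSeries L), PowerSeries.constantCoeff u ≠ 0 → CF F n u → CF F n h →
      PowerSeries.X ^ n ∣ u * v - h → CF F n v) ∧
    (∀ n (z : Fin 3 → PowerSeries L) (θ : PS κ), Cen z → (∀ j, CF F n (z j)) →
      CF F n (sub z θ))

-- deps:
def S_SUBC : Prop :=
  ∀ (κ L : Type) [Field κ] [Field L] [Algebra κ L] (z z' : Fin 3 → PowerSeries L) (N : ℕ)
    (f : PS κ), Cen z → Cen z' → (∀ j, PowerSeries.X ^ N ∣ z j - z' j) →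
    PowerSeries.X ^ N ∣ sub z f - sub z' f

-- deps:
def S_BC : Prop :=
  ∀ (κ κ' : Type) [Field κ] [Field κ'] [Algebra κ κ'],
    (∀ (ι : Type) (f : ι → PS κ), LinearIndependent κ f →
      LinearIndependent κ' fun i => MvPowerSeries.map (algebraMap κ κ') (f i)) ∧
    (∀ (L : Type) [Field L] [Algebra κ L] [Algebra κ' L] [IsScalarTower κ κ' L]
      (z : Fin 3 → PowerSeries L), Cen z →
      (∀ f : PS κ, sub z (MvPowerSeries.map (algebraMap κ κ') f) = sub z f) ∧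
      (∀ f : PS κ, PowerSeries.constantCoeff (sub z f) = algebraMap κ L (constantCoeff f)) ∧
      ∀ (θ : Fin 3 → PS κ') (f : PS κ), (∀ j, constantCoeff (θ j) = 0) →
        sub z (MvPowerSeries.subst θ f : PS κ') = sub (fun j => sub z (θ j)) f)

-- deps: RKA
def S_ORD : Prop :=
  ∀ (κ L : Type) [Field κ] [Field L] [Algebra κ L] (z : Fin 3 → PowerSeries L) (N a : ℕ)
    (o : Fin 3 → ℕ), Cod κ z N a → (∀ j, o j ≤ N ∧ PowerSeries.X ^ o j ∣ z j) →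
    o 0 + o 1 + o 2 ≤ a

-- deps:
def S_MONO : Prop :=
  ∀ (κ L : Type) [Field κ] [Field L] [Algebra κ L] (z : Fin 3 → PowerSeries L) (N : ℕ) (γ : Ex)
    (c : κ), Cen z → c ≠ 0 → PowerSeries.X ^ N ∣ sub z (monomial γ c : PS κ) →
    ∃ o : Fin 3 → ℕ, (∀ j, o j ≤ N ∧ PowerSeries.X ^ o j ∣ z j ∧
      (o j = N ∨ (z j).order = o j)) ∧ N ≤ γ 0 * o 0 + γ 1 * o 1 + γ 2 * o 2

-- deps: SUBC ORD
def S_TRUNC : Prop :=
  ∀ (κ : Type) [Field κ] (f : PS κ) (μ : ℕ),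
    (∀ (L : Type) [Field L] [Algebra κ L] (z : Fin 3 → PowerSeries L) (N a : ℕ) (o : Fin 3 → ℕ),
      Nrm z N o → PowerSeries.X ^ N ∣ sub z f → Cod κ z N a → o 0 + o 1 + o 2 ≤ a →
      N ≤ μ * (a + 3)) → JetB f μ

-- deps: RKA
def S_COUNT : Prop :=
  ∀ (κ L β : Type) [Field κ] [Field L] [Algebra κ L] [Fintype β] (dg : β → ℤ) (x : β → L)
    (K r : ℕ), (∀ b, 0 < dg b) →
    (∀ u : β →₀ ℕ, MvPolynomial.aeval x (MvPolynomial.monomial u (1 : κ)) ∈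
      Submodule.span κ {y | ∃ m : β →₀ ℕ, Finsupp.weight dg m = Finsupp.weight dg u ∧
        (Finset.univ.filter fun b => K ≤ m b).card < r ∧
        y = MvPolynomial.aeval x (MvPolynomial.monomial m (1 : κ))}) →
    rk κ (Set.range x) < r

-- deps:
def S_REDUCE : Prop :=
  ∀ (κ L β ι : Type) [Field κ] [Field L] [Algebra κ L] [Fintype β] (dg : β → ℤ) (ky : β → Key)
    (x : β → L) (P Q : ι → MvPolynomial β κ) (d : ι → ℤ) (k : ι → Key) (r : ℕ),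
    (∀ b, 0 < dg b) → (∀ s, (P s).IsWeightedHomogeneous dg (d s)) →
    (∀ s, (Q s).IsWeightedHomogeneous dg (d s)) → (∀ s, (P s).IsWeightedHomogeneous ky (k s)) →
    (∀ s u, MvPolynomial.coeff u (Q s) ≠ 0 → k s < Finsupp.weight ky u) →
    (∀ s, MvPolynomial.aeval x (P s + Q s) = 0) →
    (∀ T : Finset β, T.card = r → ∃ p ∈ Ideal.span (Set.range P), p ≠ 0 ∧
      ∀ m ∈ p.support, ∀ b, m b ≠ 0 → b ∈ T) →
    ∃ K : ℕ, ∀ u : β →₀ ℕ, MvPolynomial.aeval x (MvPolynomial.monomial u (1 : κ)) ∈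
      Submodule.span κ {y | ∃ m : β →₀ ℕ, Finsupp.weight dg m = Finsupp.weight dg u ∧
        (Finset.univ.filter fun b => K ≤ m b).card < r ∧
        y = MvPolynomial.aeval x (MvPolynomial.monomial m (1 : κ))}

-- deps:
def S_DEG0B : Prop :=
  ∀ (κ β : Type) [Field κ] (I : Ideal (MvPolynomial β κ)) (T : Finset β),
    (∀ p ∈ I, (∀ m ∈ p.support, ∀ b, m b ≠ 0 → b ∈ T) → p = 0) →
    ∃ (L' : Type) (_ : Field L') (_ : Algebra κ L') (x' : β → L'),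
      (∀ p ∈ I, MvPolynomial.aeval x' p = 0) ∧ AlgebraicIndependent κ fun b : T => x' b

-- deps: COUNT REDUCE DEG0B RKA
def S_DEG0 : Prop :=
  ∀ (κ L β ι : Type) [Field κ] [Field L] [Algebra κ L] [Fintype β] (dg : β → ℤ) (ky : β → Key)
    (x : β → L) (P Q : ι → MvPolynomial β κ) (d : ι → ℤ) (k : ι → Key),
    (∀ b, 0 < dg b) → (∀ s, (P s).IsWeightedHomogeneous dg (d s)) →
    (∀ s, (Q s).IsWeightedHomogeneous dg (d s)) → (∀ s, (P s).IsWeightedHomogeneous ky (k s)) →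
    (∀ s u, MvPolynomial.coeff u (Q s) ≠ 0 → k s < Finsupp.weight ky u) →
    (∀ s, MvPolynomial.aeval x (P s + Q s) = 0) →
    ∃ (L' : Type) (_ : Field L') (_ : Algebra κ L') (x' : β → L'),
      (∀ s, MvPolynomial.aeval x' (P s) = 0) ∧ rk κ (Set.range x) ≤ rk κ (Set.range x')

-- deps: DEG0 SUBC RKA
def S_DEGR : Prop :=
  ∀ (κ L : Type) [Field κ] [Field L] [Algebra κ L] (A : Rows) (k : Key) (f g : PS κ)
    (w : Fin 3 → ℕ) (w0 e kw N : ℕ) (c : Fin 3 → κ) (z : Fin 3 → PowerSeries L),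
    0 < w0 → (∀ j, w j * e = 0 → c j = 0) → (∀ j, c j ≠ 0 → ∀ r, A r j = 0) → Hm w kw f →
    LeadK A k f g → Typ w w0 e c z → PowerSeries.X ^ N ∣ sub z f →
    ∃ (L' : Type) (_ : Field L') (_ : Algebra κ L') (z' : Fin 3 → PowerSeries L'),
      Typ w w0 e c z' ∧ PowerSeries.X ^ N ∣ sub z' g ∧ rk κ (cf z N) ≤ rk κ (cf z' N)

-- deps: DEGR
def S_DEG : Prop :=
  ∀ (κ : Type) [Field κ] (A : Rows) (k : Key) (f g : PS κ) (μ : ℕ),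
    LeadK A k f g → JetB g μ → JetB f μ

-- deps: DEG MONO ORD
def S_JET2 : Prop :=
  ∀ (κ : Type) [Field κ] (A : Rows) (f : PS κ) (γ : Ex) (μ : ℕ),
    Init A f γ → (∀ i, γ i ≤ μ) → JetB f μ

-- deps: DEGR MONO ORD RKB BC
def S_REGION : Prop :=
  ∀ (κ L : Type) [Field κ] [Field L] [Algebra κ L] (A : Rows) (w : Fin 3 → ℕ) (i0 : Fin 3)
    (g kw μ N a e : ℕ) (f : PS κ) (γ : Ex) (z : Fin 3 → PowerSeries L),
    First A w → A 1 i0 = 0 → A 2 i0 = 0 → 0 < w i0 → Hm w kw f → Init A f γ → 1 ≤ μ →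
    kw ≤ (w 0 + w 1 + w 2 + g * w i0) * μ → (∀ j, j ≠ i0 → γ j ≤ μ) →
    (z i0).order = e → 1 ≤ e → e ≤ N →
    (∀ j, j ≠ i0 → ∀ l, w i0 * l ≤ w j * e → PowerSeries.coeff l (z j) = 0) →
    PowerSeries.X ^ N ∣ sub z f → Cod κ z N a → N ≤ μ * (a + 1 + g * e)

-- deps: RED JET2
def S_ENGS : Prop :=
  ∀ (κ : Type) [Field κ] (A : Rows) (U : ℕ → Submodule κ (PS κ)) (V : ℝ),
    Adm A → (∀ i, SumLe A U i 1 V) → Loc U V

-- deps: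
def S_JC1 : Prop :=
  ∀ (κ : Type) [Field κ] (d : ℕ) (g : PS κ) (γ σ : Ex), (d = 1 ∨ d = 2) →
    (∀ α, coeff α g ≠ 0 → kk (WC d 0) α = kk (WC d 0) γ) → Init (WC d 1) g γ →
    Init (WC d (-1)) g σ →
    ∃ (m : ℕ) (c : ℕ → κ), c 0 ≠ 0 ∧ c m ≠ 0 ∧ σ 1 + 2 * m = γ 1 ∧ g = wallP d γ m c

-- deps:
def S_JC2 : Prop :=
  ∀ (κ L : Type) [Field κ] [Field L] [Algebra κ L] (d m μ N : ℕ) (γ : Ex) (c : ℕ → κ)
    (z : Fin 3 → PowerSeries L) (o : Fin 3 → ℕ), (d = 1 ∨ d = 2) → c 0 ≠ 0 → c m ≠ 0 →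
    2 * m ≤ γ 1 → γ 0 ≤ μ → γ 2 ≤ μ → 2 * γ 0 + d * γ 1 ≤ (2 + d) * μ → γ 1 + 2 * γ 2 ≤ 3 * μ →
    γ 1 ≤ μ + 2 * m → Cen z → (∀ j, (z j).order = o j) → d * o 0 + o 2 ≠ 2 * o 1 →
    PowerSeries.X ^ N ∣ sub z (wallP d γ m c) → N ≤ μ * (o 0 + o 1 + o 2)

-- deps:
def S_JC3A : Prop :=
  ∀ (κ L : Type) [Field κ] [IsAlgClosed κ] [Field L] [Algebra κ L] (d m N : ℕ) (γ : Ex)
    (c : ℕ → κ) (z u : Fin 3 → PowerSeries L) (o : Fin 3 → ℕ), c 0 ≠ 0 → 2 * m ≤ γ 1 → Cen z →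
    (∀ j, z j = PowerSeries.X ^ o j * u j ∧ PowerSeries.constantCoeff (u j) ≠ 0) →
    d * o 0 + o 2 = 2 * o 1 → PowerSeries.X ^ N ∣ sub z (wallP d γ m c) →
    ∃ (r : κ) (e : ℕ), PowerSeries.X ^ e ∣ u 0 ^ d * u 2 - r • u 1 ^ 2 ∧
      N ≤ γ 0 * o 0 + γ 1 * o 1 + γ 2 * o 2 + m * e

-- deps: JC3A RKA CFA
def S_JC3 : Prop :=
  ∀ (κ L : Type) [Field κ] [IsAlgClosed κ] [Field L] [Algebra κ L] (d m μ N a : ℕ) (γ : Ex)
    (c : ℕ → κ) (z : Fin 3 → PowerSeries L) (o : Fin 3 → ℕ), c 0 ≠ 0 → 2 * m ≤ γ 1 → m ≤ μ →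
    1 ≤ μ → 2 * γ 0 + d * γ 1 ≤ (2 + d) * μ → γ 1 + 2 * γ 2 ≤ 3 * μ → Nrm z N o →
    d * o 0 + o 2 = 2 * o 1 → PowerSeries.X ^ N ∣ sub z (wallP d γ m c) → Cod κ z N a →
    N ≤ μ * a

-- deps: JC1 JC2 JC3 TRUNC
def S_JC : Prop :=
  ∀ (κ : Type) [Field κ] [IsAlgClosed κ] (d μ : ℕ) (g : PS κ) (γ σ : Ex), (d = 1 ∨ d = 2) →
    (∀ α, coeff α g ≠ 0 → kk (WC d 0) α = kk (WC d 0) γ) → Init (WC d 1) g γ →
    Init (WC d (-1)) g σ → 1 ≤ μ → γ 0 ≤ μ → γ 2 ≤ μ → 2 * γ 0 + d * γ 1 ≤ (2 + d) * μ →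
    γ 1 + 2 * γ 2 ≤ 3 * μ → γ 1 ≤ 2 * μ → σ 1 ≤ μ → JetB g μ

-- deps: TWO2 ADM
def S_ENGY : Prop :=
  ∀ (κ : Type) [Field κ] (d M n : ℕ) (U : ℕ → Submodule κ (PS κ)) (V : ℝ) (f g : Fin n → PS κ)
    (k : Fin n → Key) (σ : Fin n → Ex), (d = 1 ∨ d = 2) → SumLe (WC d (-1)) U 1 1 V →
    (∀ i, f i ∈ U M) → (∀ i, LeadK (WC d 0) (k i) (f i) (g i)) → LinearIndependent κ g →
    (∀ i, Init (WC d (-1)) (g i) (σ i)) → ((∑ i, σ i 1 : ℕ) : ℝ) ≤ V * ((M : ℝ) + 15) ^ 4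

-- deps: RED ENGY DEG JC ADM
def S_ENGC : Prop :=
  ∀ (κ : Type) [Field κ] [IsAlgClosed κ] (d : ℕ) (U : ℕ → Submodule κ (PS κ))
    (V τ0 τ1 τ2 : ℝ), (d = 1 ∨ d = 2) → 0 ≤ V → SumLe (WC d 1) U 0 τ0 V →
    SumLe (WC d 1) U 1 τ1 V → SumLe (WC d 1) U 2 τ2 V → SumLe (WC d (-1)) U 1 1 V →
    τ0 ≤ 1 → τ2 ≤ 1 → 2 * τ0 + d * τ1 ≤ 2 + d → τ1 + 2 * τ2 ≤ 3 → τ1 ≤ 2 → Loc U V

-- deps:
def S_GR : Prop :=
  ∀ (κ : Type) [Field κ] (w : Fin 3 → ℕ) (U : ℕ → Submodule κ (PS κ)), Sys U →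
    Sys (Gr w U) ∧ ∀ M, Module.finrank κ (Gr w U M) ≤ Module.finrank κ (U M)

-- deps: RED DEG
def S_GRED : Prop :=
  ∀ (κ : Type) [Field κ] (A : Rows) (w : Fin 3 → ℕ) (U : ℕ → Submodule κ (PS κ)) (V : ℝ),
    Adm A → First A w → HomB w (Gr w U) V → Loc U V

-- deps: BC
def S_CHIND : Prop :=
  ∀ (κ κ' : Type) [Field κ] [Field κ'] [Algebra κ κ'] [Infinite κ'] (θ : Fin 3 → PS κ')
    (n : ℕ) (g : Fin n → PS κ) (k : Fin n → ℕ), IsChart θ → (∀ i, Hm w3 (k i) (g i)) →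
    LinearIndependent κ g →
    LinearIndependent κ' fun i => (MvPowerSeries.subst θ (g i) : PS κ')

-- deps:
def S_PULL : Prop :=
  ∀ (κ κ' : Type) [Field κ] [Field κ'] [Algebra κ κ'] (θ : Fin 3 → PS κ'),
    (∀ j, Hm e1 (w3 j) (θ j)) → (∀ j, constantCoeff (θ j) = 0) ∧
    (∀ U : ℕ → Submodule κ (PS κ), Sys U → Sys (Pull κ' θ U) ∧
      ∀ M, Module.finrank κ' (Pull κ' θ U M) ≤ Module.finrank κ (U M)) ∧
    ∀ (g : PS κ) (k : ℕ), Hm w3 k g → Hm e1 k (MvPowerSeries.subst θ g : PS κ')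

-- deps: CHIND PULL TWO2
def S_KB0 : Prop :=
  ∀ (κ : Type) [Field κ] [Infinite κ] (θ : Fin 3 → PS κ) (A : Rows)
    (G : ℕ → Submodule κ (PS κ)) (V : ℝ), IsChart θ → Adm A → First A e1 →
    SumLe A (Pull κ θ G) 0 6 V → KBd G V

-- deps: CHIND PULL TWO2 REGION SUBC BC
def S_CHJET : Prop :=
  ∀ (κ κ' L : Type) [Field κ] [Field κ'] [Field L] [Algebra κ κ'] [Algebra κ L] [Algebra κ' L]
    [IsScalarTower κ κ' L] [Infinite κ'] (G : ℕ → Submodule κ (PS κ)) (V : ℝ)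
    (θ : Fin 3 → PS κ') (A : Rows) (M μ n : ℕ) (g : Fin n → PS κ) (k : Fin n → ℕ)
    (z z' : Fin 3 → PowerSeries L) (N N' a a' e : ℕ),
    IsChart θ → Adm A → First A e1 → A 1 0 = 0 → A 2 0 = 0 → 0 ≤ V →
    SumLe A (Pull κ' θ G) 1 1 V → SumLe A (Pull κ' θ G) 2 1 V → KBd G V → Big V M μ →
    Fam w3 G M g k → Cen z → Cen z' → (z' 0).order = e → 1 ≤ e →
    (∀ j, PowerSeries.X ^ N ∣ z j - sub z' (θ j)) → PowerSeries.X ^ N ∣ sub z (∏ i, g i) →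
    Cod κ' z' N' a' → a' + 5 * e ≤ a + 2 → N ≤ N' + 3 * e → N' ≤ N → e ≤ N' → 3 * e ≤ a →
    N ≤ μ * (a + 3)

-- deps: TWO2 REGION
def S_REGF : Prop :=
  ∀ (κ L : Type) [Field κ] [Field L] [Algebra κ L] (G : ℕ → Submodule κ (PS κ)) (V : ℝ)
    (A : Rows) (i0 : Fin 3) (M μ n : ℕ) (g : Fin n → PS κ) (k : Fin n → ℕ)
    (z : Fin 3 → PowerSeries L) (N a : ℕ) (o : Fin 3 → ℕ),
    Adm A → First A w3 → A 1 i0 = 0 → A 2 i0 = 0 → 0 ≤ V →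
    (∀ j, j ≠ i0 → SumLe A G j 1 V) → KBd G V → Big V M μ → Fam w3 G M g k → Nrm z N o →
    (∀ j, j ≠ i0 → w3 j * o i0 < w3 i0 * o j) → PowerSeries.X ^ N ∣ sub z (∏ i, g i) →
    Cod κ z N a → N ≤ μ * (a + 3)

-- deps: RKA CFA
def S_ARCX : Prop :=
  ∀ (κ L : Type) [Field κ] [Field L] [Algebra κ L] (z : Fin 3 → PowerSeries L) (N a e : ℕ),
    Cod κ z N a → (z 0).order = e → PowerSeries.X ^ (2 * e) ∣ z 1 →
    PowerSeries.X ^ (3 * e) ∣ z 2 → 3 * e ≤ N → 5 * e ≤ a →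
    ∃ Y Z : PowerSeries L, z 1 = z 0 ^ 2 * Y ∧ z 2 = z 0 ^ 3 * Z ∧
      Cod κ ![z 0, Y, Z] (N - 3 * e) (a - 5 * e)

-- deps: RKA CFA
def S_ARCT : Prop :=
  ∀ (κ L : Type) [Field κ] [Field L] [Algebra κ L] (z : Fin 3 → PowerSeries L) (N a e : ℕ),
    Cod κ z N a → PowerSeries.X ^ (e + 1) ∣ z 0 → (z 1).order = (2 * e : ℕ) →
    (z 2).order = (3 * e : ℕ) → 3 * e < N → 5 * e ≤ a →
    ∃ η X' W : PowerSeries L, η.order = e ∧ PowerSeries.constantCoeff X' = 0 ∧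
      PowerSeries.constantCoeff W ≠ 0 ∧ z 0 = η * X' ∧ z 1 = η ^ 2 * W ∧
      PowerSeries.X ^ N ∣ z 2 - η ^ 3 * W ∧ Cod κ ![η, X', W] (N - 2 * e) (a - 5 * e)

-- deps: RKA RKB CFA
def S_RECEN : Prop :=
  ∀ (κ L : Type) [Field κ] [Field L] [Algebra κ L] (s : Finset L)
    (z ζ : Fin 3 → PowerSeries L) (η : Fin 3 → PS (IntermediateField.adjoin κ (s : Set L)))
    (n a : ℕ), Cen ζ → (∀ j, z j = sub ζ (η j)) → Cod κ z n a →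
    Cod (IntermediateField.adjoin κ (s : Set L)) ζ n (a + s.card)

end Pool.Agent.P.MP_6149fc_ag.V18
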