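import Pool.Agent.P.MP_6149fc_ag.V18.BaseC

/-! Statements: convex geometry. -/

set_option autoImplicit false

namespace Pool.Agent.P.MP_6149fc_ag.V18

open scoped ENNReal
open MeasureTheory

-- deps:
-- imports: Pool.Agent.P.MP_6149fc_ag.Cube
def S_BODY0 : Prop :=
  ∀ (Γ : ℕ → Finset Ex) (M0 : ℕ) (γ0 : Ex),
    (∀ M M' a b, a ∈ Γ M → b ∈ Γ M' → a + b ∈ Γ (M + M')) → 0 ∈ Γ 0 → 0 ∈ Γ 1 → γ0 ∈ Γ M0 →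
    (∀ i, γ0 + Finsupp.single i 1 ∈ Γ M0) →
    ∃ B : Set (Fin 3 → ℝ), MeasurableSet B ∧ Convex ℝ B ∧ (∀ x ∈ B, ∀ i, 0 ≤ x i) ∧
      (∀ M γ, 1 ≤ M → γ ∈ Γ M → (fun i => (γ i : ℝ) / M) ∈ B) ∧
      ∀ θ : ℝ, 0 < θ → θ < 1 → ∀ b < volume B, ∀ᶠ M : ℕ in Filter.atTop,
        ENNReal.ofReal (θ * M) ^ 3 * b ≤ (Γ M).card

-- deps:
def S_SLICE1 : Prop :=
  ∀ (B : Set (Fin 3 → ℝ)) (i : Fin 3), MeasurableSet B →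
    (∀ t, MeasurableSet (sl B i t)) ∧ Measurable (fun t => volume (sl B i t)) ∧
    volume B = ∫⁻ t, volume (sl B i t) ∧
    ∫⁻ x in B, ENNReal.ofReal (x i) = ∫⁻ t, ENNReal.ofReal t * volume (sl B i t)

-- deps:
-- imports: Pool.Agent.P.MP_6149fc_ag.Bary Pool.Agent.P.MP_6149fc_ag.Bm
def S_SLICE2 : Prop :=
  ∀ (B : Set (Fin 3 → ℝ)) (i : Fin 3), Convex ℝ B → (∀ t, MeasurableSet (sl B i t)) →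
    Conc (fun t => volume (sl B i t)) {t | (sl B i t).Nonempty}

-- deps:
def S_TRAP1 : Prop :=
  ∀ (S : Set (Fin 2 → ℝ)) (u u' lo hi lo' hi' : ℝ), Convex ℝ S → u ≤ u' → lo ≤ hi → lo' ≤ hi' →
    ![u, lo] ∈ S → ![u, hi] ∈ S → ![u', lo'] ∈ S → ![u', hi'] ∈ S →
    ENNReal.ofReal ((u' - u) * ((hi - lo) + (hi' - lo')) / 2) ≤
      volume (S ∩ {y | u ≤ y 0 ∧ y 0 < u'})

-- deps: TRAP1
def S_TRAP : Prop :=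
  ∀ (S : Set (Fin 2 → ℝ)) (l : List Q3), Convex ℝ S → MeasurableSet S → incr l = true →
    (∀ q ∈ l, q.2.1 ≤ q.2.2 ∧ ![(q.1 : ℝ), (q.2.1 : ℝ)] ∈ S ∧ ![(q.1 : ℝ), (q.2.2 : ℝ)] ∈ S) →
    ENNReal.ofReal (trap l : ℝ) ≤ volume S

-- deps:
def S_CRA : Prop :=
  ∀ (g : ℝ → ℝ≥0∞) (N : Set ℝ) (s t c a b : ℝ), Conc g N → s ∈ N → t ∈ N → s ≤ t → t ≤ c →
    0 ≤ a → 0 ≤ b → ENNReal.ofReal (a ^ 2) ≤ g s → ENNReal.ofReal (b ^ 2) ≤ g t →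
    ENNReal.ofReal ((t - s) * (a ^ 2 + a * b + b ^ 2) / 3) ≤ ∫⁻ u in Set.Ioc s t, g u ∧
    ENNReal.ofReal ((t - s) * ((c - s) * (3 * a ^ 2 + 2 * a * b + b ^ 2) +
      (c - t) * (a ^ 2 + 2 * a * b + 3 * b ^ 2)) / 12) ≤
      ∫⁻ u in Set.Ioc s t, ENNReal.ofReal (c - u) * g u

-- deps:
def S_CRT : Prop :=
  ∀ (g : ℝ → ℝ≥0∞) (N : Set ℝ) (c AA W : ℝ), Measurable g → Conc g N → 0 < AA → 0 ≤ W →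
    ENNReal.ofReal AA ≤ g c → ∫⁻ u in Set.Ioi c, g u ≤ ENNReal.ofReal W →
    ∫⁻ u in Set.Ioi c, ENNReal.ofReal (u - c) * g u ≤ ENNReal.ofReal (3 / 4 * W ^ 2 / AA)

-- deps: CRA
def S_CRL : Prop :=
  ∀ (g : ℝ → ℝ≥0∞) (N : Set ℝ) (c : ℚ) (L : List (ℚ × ℚ)), Conc g N → incr L = true →
    (∀ l ∈ L, (l.1 : ℝ) ∈ N ∧ l.1 ≤ c ∧ 0 ≤ l.2 ∧ ENNReal.ofReal ((l.2 : ℝ) ^ 2) ≤ g l.1) →
    0 ≤ v0 L ∧ 0 ≤ m0 c L ∧ ENNReal.ofReal (v0 L : ℝ) ≤ ∫⁻ u in Set.Iic (c : ℝ), g u ∧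
      ENNReal.ofReal (m0 c L : ℝ) ≤ ∫⁻ u in Set.Iic (c : ℝ), ENNReal.ofReal (c - u) * g u

-- deps: CRT
def S_CRIT : Prop :=
  ∀ (g : ℝ → ℝ≥0∞) (N : Set ℝ) (c τ AA V0 M0 : ℝ), Measurable g → Conc g N →
    (∀ t < 0, g t = 0) → ∫⁻ t, g t ≤ 3 → 0 < AA → ENNReal.ofReal AA ≤ g c → 0 ≤ τ →
    0 ≤ V0 → 0 ≤ M0 → ENNReal.ofReal V0 ≤ ∫⁻ u in Set.Iic c, g u →
    ENNReal.ofReal M0 ≤ ∫⁻ u in Set.Iic c, ENNReal.ofReal (c - u) * g u →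
    3 / 4 * (3 - V0) ^ 2 ≤ AA * (M0 - 3 * (c - τ)) →
    ∫⁻ t, ENNReal.ofReal t * g t ≤ ENNReal.ofReal τ * ∫⁻ t, g t

-- deps: TRAP
def S_CERT1 : Prop :=
  ∀ (P : List PT) (i : Fin 3) (t : ℚ) (S : List (Wt × Wt)) (B : Set (Fin 3 → ℝ)), Convex ℝ B →
    MeasurableSet (sl B i t) → (0 : Fin 3 → ℝ) ∈ B → (∀ p ∈ P, pR p ∈ B) → okS P i t S = true →
    (sl B i t).Nonempty ∧ ENNReal.ofReal (trap (chainOf P i S) : ℝ) ≤ volume (sl B i t)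

-- deps: CERT1 SLICE1 SLICE2 CRL CRIT
def S_CERT : Prop :=
  ∀ (P : List PT) (i : Fin 3) (τ : ℚ) (L : List (ℚ × ℚ × List (Wt × Wt))) (c : ℚ)
    (S : List (Wt × Wt)), chk P i τ L c S = true → Bary P i τ

-- deps:
-- imports: Pool.Agent.P.MP_6149fc_ag.Cube Pool.Agent.P.MP_6149fc_ag.Conv
def S_SB1 : Prop :=
  ∀ (B : Set (Fin 3 → ℝ)) (M0 M : ℕ) (γ0 : Ex) (Λ : Finset Ex) (i : Fin 3), MeasurableSet B →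
    Convex ℝ B → (0 : Fin 3 → ℝ) ∈ B → 1 ≤ M0 → M0 ≤ 5 → 1 ≤ M →
    (fun j => (γ0 j : ℝ) / M0) ∈ B →
    (∀ l, (fun j => ((γ0 + Finsupp.single l 1 : Ex) j : ℝ) / M0) ∈ B) →
    (∀ γ ∈ Λ, (fun j => (γ j : ℝ) / M) ∈ B) →
    ((∑ γ ∈ Λ, γ i : ℕ) : ℝ≥0∞) ≤ ((M + 15 : ℕ) : ℝ≥0∞) ^ 4 * ∫⁻ x in B, ENNReal.ofReal (x i)

-- deps: BODY0 SB1
def S_SB : Prop :=
  ∀ (κ : Type) [Field κ] (A : Rows) (U : ℕ → Submodule κ (PS κ)) (V : ℝ) (P : List PT)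
    (i : Fin 3) (τ : ℚ), Adm A → Sys U → Gen A U → Vol U V → V ≤ 3 → Pts A U P →
    (∀ p ∈ P, 1 ≤ p.1) → 0 ≤ τ → Bary P i τ → SumLe A U i τ V

-- deps:
def S_VOLN : Prop :=
  ∀ d : ℕ → ℕ, (∀ M, ∑ n ∈ Finset.range (M + 1), (M - n + 1) * d n ≤ 18 * (M + 5).choose 5) →
    VolN d 3

-- deps:
-- imports: Pool.Agent.P.MP_6149fc_ag.Cube Pool.Agent.P.MP_6149fc_ag.Body Pool.Agent.P.MP_6149fc_ag.Conv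
def S_CONV2 : Prop :=
  ∀ (A : ℕ) (G : Semi 3), VolN (fun M => (G.Γ M 0).card) 3 →
    (∀ V : ℝ, VolN (fun M => (G.Γ M 0).card) V → V ≤ 3 → ∀ M J : ℕ,
      ((∑ j ∈ Finset.Icc 1 J, (G.Γ M j).card : ℕ) : ℝ) ≤ A * (V * ((M : ℝ) + 15) ^ 4 + 3)) →
    ∫⁻ t in Set.Ioi (0 : ℝ), Filter.limsup (fun M : ℕ =>
        ((Nat.factorial 3) * (G.Γ M ⌈t * M⌉₊).card : ℝ≥0∞) / (M : ℝ≥0∞) ^ 3) Filter.atTop ≤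
      A * Filter.limsup (fun M : ℕ =>
        ((Nat.factorial 3) * (G.Γ M 0).card : ℝ≥0∞) / (M : ℝ≥0∞) ^ 3) Filter.atTop

end Pool.Agent.P.MP_6149fc_ag.V18
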