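import Pool.Agent.P.MP_6149fc_ag.V18.IfaceG
import Pool.Agent.P.MP_6149fc_ag.V18.IfaceA
import Pool.Agent.P.MP_6149fc_ag.All
import Pool.Agent.P.MP_6149fc_ag.V18.IfaceB

section

/-! Step NULL2. -/

set_option autoImplicit false
set_option linter.unusedSectionVars false

namespace Pool.Agent.P.MP_6149fc_ag.V18

open scoped ENNReal
open MvPowerSeries (coeff X constantCoeff monomial)

namespace NULL2x

theorem spec {τ : Type} [Finite τ] {Ω : Type} [Field Ω] [Algebra ℂ Ω] (a : τ → Ω) :
    ∃ b : τ → ℂ, ∀ G : MvPolynomial τ ℂ, MvPolynomial.aeval a G = 0 →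
      MvPolynomial.aeval b G = 0 := by
  have hne : RingHom.ker (MvPolynomial.aeval (R := ℂ) a) ≠ ⊤ := RingHom.ker_ne_top _
  obtain ⟨M, hM, hle⟩ := Ideal.exists_le_maximal _ hne
  obtain ⟨b, hb⟩ := MvPolynomial.isMaximal_iff_eq_vanishingIdeal_singleton.1 hM
  refine ⟨b, fun G hG => ?_⟩
  have h1 : G ∈ M := hle (RingHom.mem_ker.2 hG)
  rw [hb] at h1
  exact (MvPolynomial.mem_vanishingIdeal_singleton_iff b G).1 h1

theorem leftInv {σ Ω : Type} [Fintype σ] [Field Ω] {m : ℕ} (V : Fin m → σ → Ω)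
    (hV : LinearIndependent Ω V) :
    ∃ W : Fin m → σ → Ω, ∀ a b, ∑ i, W b i * V a i = if a = b then 1 else 0 := by
  classical
  have hinj : LinearMap.ker (Fintype.linearCombination Ω V) = ⊥ := by
    rw [LinearMap.ker_eq_bot']
    intro c hc
    funext i
    exact Fintype.linearIndependent_iff.1 hV c (by simpa [Fintype.linearCombination_apply] using hc) i
  obtain ⟨g, hg⟩ := LinearMap.exists_leftInverse_of_injective _ hinj
  refine ⟨fun b i => g (Pi.single i 1) b, fun a b => ?_⟩
  have h1 : g (V a) = Pi.single a 1 := by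
    have := LinearMap.congr_fun hg (Pi.single a 1)
    simpa [Fintype.linearCombination_apply_single] using this
  have h2 : V a = ∑ i, V a i • (Pi.single i 1 : σ → Ω) := by
    funext k
    simp [Finset.sum_apply, Pi.single_apply]
  have h3 : g (V a) b = ∑ i, g (Pi.single i 1) b * V a i := by
    conv_lhs => rw [h2]
    simp only [map_sum, map_smul, Finset.sum_apply, Pi.smul_apply, smul_eq_mul, mul_comm]
  rw [← h3, h1, Pi.single_apply]
  by_cases h : a = b
  · simp [h]
  · simp [h, Ne.symm h]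

theorem indep_of {σ Ω : Type} [Fintype σ] [Field Ω] {m : ℕ} (V W : Fin m → σ → Ω)
    (h : ∀ a b, ∑ i, W b i * V a i = if a = b then 1 else 0) : LinearIndependent Ω V := by
  classical
  rw [Fintype.linearIndependent_iff]
  intro c hc b
  have h1 : ∑ i, W b i * (∑ a, c a • V a) i = 0 := by rw [hc]; simp
  have h2 : ∑ i, W b i * (∑ a, c a • V a) i = ∑ a, c a * ∑ i, W b i * V a i := by
    simp only [Finset.sum_apply, Pi.smul_apply, smul_eq_mul, Finset.mul_sum]
    rw [Finset.sum_comm]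
    exact Finset.sum_congr rfl fun a _ => Finset.sum_congr rfl fun i _ => by ring
  rw [h2] at h1
  simpa [h] using h1

end NULL2x

open NULL2x in
theorem p_NULL2 :
    S_NULL2 := by
  classical
  intro σ _ n S hS Ω _ _ p hp hG
  by_contra hlt
  have hle : n + 2 ≤ Module.finrank Ω (tangentSpace S p) := by omega
  obtain ⟨V0, hV0⟩ := exists_linearIndependent_of_le_finrank hle
  have hV : LinearIndependent Ω fun a => ((V0 a : tangentSpace S p) : σ → Ω) :=
    hV0.map' (tangentSpace S p).subtype (Submodule.ker_subtype _)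
  obtain ⟨W, hW⟩ := leftInv _ hV
  obtain ⟨j, hj⟩ := Function.ne_iff.1 hp
  have hj' : p j ≠ 0 := hj
  let a : σ ⊕ ((Fin (n + 2) × σ) ⊕ ((Fin (n + 2) × σ) ⊕ Unit)) → Ω :=
    Sum.elim p (Sum.elim (fun x => (V0 x.1 : σ → Ω) x.2)
      (Sum.elim (fun x => W x.1 x.2) fun _ => (p j)⁻¹))
  obtain ⟨b, hb⟩ := spec a
  have e1 : b (Sum.inl j) * b (Sum.inr (Sum.inr (Sum.inr ()))) - 1 = 0 := by
    have := hb (MvPolynomial.X (Sum.inl j) * MvPolynomial.X (Sum.inr (Sum.inr (Sum.inr ()))) - 1)
      (by simp [a, hj'])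
    simpa using this
  have hp' : (b ∘ Sum.inl) ≠ 0 := fun h => by
    have h0 : b (Sum.inl j) = 0 := congrFun h j
    rw [h0] at e1
    simp at e1
  have e2 : ∀ G ∈ S, MvPolynomial.aeval (b ∘ Sum.inl) G = 0 := fun G hGS => by
    have := hb (MvPolynomial.rename Sum.inl G) (by
      rw [MvPolynomial.aeval_rename]
      exact hG G hGS)
    rwa [MvPolynomial.aeval_rename] at this
  have e3 : ∀ x : Fin (n + 2), (fun i => b (Sum.inr (Sum.inl (x, i)))) ∈
      tangentSpace S (b ∘ Sum.inl) := fun x G hGS => by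
    have := hb (∑ i, MvPolynomial.rename Sum.inl (MvPolynomial.pderiv i G) *
      MvPolynomial.X (Sum.inr (Sum.inl (x, i)))) (by
        simp only [map_sum, map_mul, MvPolynomial.aeval_rename, MvPolynomial.aeval_X]
        exact (V0 x).2 G hGS)
    simp only [map_sum, map_mul, MvPolynomial.aeval_rename, MvPolynomial.aeval_X] at this
    exact this
  have e4 : ∀ x y : Fin (n + 2), ∑ i, b (Sum.inr (Sum.inr (Sum.inl (y, i)))) *
      b (Sum.inr (Sum.inl (x, i))) = if x = y then 1 else 0 := fun x y => by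
    have := hb (∑ i, MvPolynomial.X (Sum.inr (Sum.inr (Sum.inl (y, i)))) *
      MvPolynomial.X (Sum.inr (Sum.inl (x, i))) - if x = y then 1 else 0) (by
        have h0 := hW x y
        simp only [map_sub, map_sum, map_mul, MvPolynomial.aeval_X]
        rw [sub_eq_zero]
        refine h0.trans ?_
        split_ifs <;> simp)
    simp only [map_sub, map_sum, map_mul, MvPolynomial.aeval_X] at this
    rw [sub_eq_zero] at this
    refine this.trans ?_
    split_ifs <;> simp
  have hI := indep_of (fun x i => b (Sum.inr (Sum.inl (x, i))))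
    (fun y i => b (Sum.inr (Sum.inr (Sum.inl (y, i))))) e4
  have hI2 : LinearIndependent ℂ fun x : Fin (n + 2) =>
      (⟨_, e3 x⟩ : tangentSpace S (b ∘ Sum.inl)) :=
    LinearIndependent.of_comp (tangentSpace S (b ∘ Sum.inl)).subtype hI
  have h5 := hI2.fintype_card_le_finrank
  have h6 := hS _ hp' e2
  rw [Fintype.card_fin] at h5
  omega

end Pool.Agent.P.MP_6149fc_ag.V18

end

section

/-! Step SEL. -/

set_option autoImplicit false
set_option linter.unusedSectionVars false

namespace Pool.Agent.P.MP_6149fc_ag.V18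

open scoped ENNReal
open MvPowerSeries (coeff X constantCoeff monomial)

namespace SELx

/-- pairing with the vectors of a set -/
def pairTo {σ Ω : Type} [Fintype σ] [Field Ω] (b : Set (σ → Ω)) : (σ → Ω) →ₗ[Ω] (b → Ω) where
  toFun q w := ∑ i, w.1 i * q i
  map_add' q q' := by
    funext w
    simp only [Pi.add_apply, mul_add, Finset.sum_add_distrib]
  map_smul' c q := by
    funext w
    simp only [Pi.smul_apply, smul_eq_mul, mul_left_comm _ c, ← Finset.mul_sum, RingHom.id_apply]

theorem orth {σ Ω : Type} [Fintype σ] [Field Ω] (b : Set (σ → Ω)) (q : σ → Ω)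
    (hq : pairTo b q = 0) (w : σ → Ω) (hw : w ∈ Submodule.span Ω b) : ∑ i, w i * q i = 0 := by
  induction hw using Submodule.span_induction with
  | mem x hx => exact congrFun hq ⟨x, hx⟩
  | zero => simp
  | add x y _ _ hx hy => simp only [Pi.add_apply, add_mul, Finset.sum_add_distrib, hx, hy, add_zero]
  | smul c x _ hx =>
    simp only [Pi.smul_apply, smul_eq_mul, mul_assoc, ← Finset.mul_sum, hx, mul_zero]

end SELx

theorem p_SEL :
    S_SEL := by
  intro σ _ n r S Ω _ _ p hσ hT
  classical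
  let g : MvPolynomial σ ℂ → σ → Ω := fun G i => MvPolynomial.aeval p (MvPolynomial.pderiv i G)
  obtain ⟨b, hbA, hsp, hli⟩ := exists_linearIndependent Ω (g '' S)
  have hfin : Finite b := hli.finite
  let _ : Fintype b := Fintype.ofFinite b
  have hker : LinearMap.ker (SELx.pairTo b) ≤ tangentSpace S p := by
    intro q hq G hG
    refine SELx.orth b q (LinearMap.mem_ker.1 hq) (g G) ?_
    rw [hsp]
    exact Submodule.subset_span ⟨G, hG, rfl⟩
  have h1 := LinearMap.finrank_range_add_finrank_ker (SELx.pairTo b)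
  have h2 : Module.finrank Ω (LinearMap.range (SELx.pairTo b)) ≤ Fintype.card b := by
    refine (Submodule.finrank_le _).trans ?_
    rw [Module.finrank_fintype_fun_eq_card]
  have h3 := Submodule.finrank_mono hker
  rw [Module.finrank_fintype_fun_eq_card] at h1
  have h4 : Fintype.card (Fin r) ≤ Fintype.card b := by
    rw [Fintype.card_fin]; omega
  obtain ⟨e⟩ := Function.Embedding.nonempty_of_card_le h4
  have h5 : ∀ s : Fin r, ∃ G ∈ S, g G = (e s).1 := fun s => hbA (e s).2
  choose F hF hgF using h5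
  refine ⟨F, hF, ?_⟩
  have h6 := hli.comp e e.injective
  have h7 : (fun s i => MvPolynomial.aeval p (MvPolynomial.pderiv i (F s))) =
      ((↑) : b → σ → Ω) ∘ e := funext fun s => hgF s
  rw [h7]
  exact h6

end Pool.Agent.P.MP_6149fc_ag.V18

end

section

/-! Step SMB. -/

set_option autoImplicit false
set_option linter.unusedSectionVars false

namespace Pool.Agent.P.MP_6149fc_ag.V18

open scoped ENNReal
open MvPowerSeries (coeff X constantCoeff monomial)

namespace SMBx

open TrivSqZeroExt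

theorem eval_dual {σ κ : Type} [Fintype σ] [Field κ] [Algebra ℂ κ] (Q : σ → DualNumber κ)
    (G : MvPolynomial σ ℂ) :
    fst (MvPolynomial.aeval Q G) = MvPolynomial.aeval (fun i => fst (Q i)) G ∧
    snd (MvPolynomial.aeval Q G) =
      ∑ i, MvPolynomial.aeval (fun i => fst (Q i)) (MvPolynomial.pderiv i G) * snd (Q i) := by
  classical
  induction G using MvPolynomial.induction_on with
  | C a =>
    refine ⟨?_, ?_⟩
    · simp [algebraMap_eq_inl']
    · simp [algebraMap_eq_inl']
  | add p q hp hq =>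
    refine ⟨?_, ?_⟩
    · simp only [map_add, fst_add, hp.1, hq.1]
    · simp only [map_add, snd_add, hp.2, hq.2, add_mul, Finset.sum_add_distrib]
  | mul_X p j hp =>
    refine ⟨?_, ?_⟩
    · simp only [map_mul, MvPolynomial.aeval_X, fst_mul, hp.1]
    · simp only [map_mul, MvPolynomial.aeval_X, DualNumber.snd_mul, hp.1, hp.2,
        Derivation.leibniz, smul_eq_mul, map_add, add_mul, Finset.sum_add_distrib,
        MvPolynomial.pderiv_X]
      congr 1
      · rw [Finset.sum_eq_single j]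
        · simp
        · intro b _ hb
          simp [Pi.single_eq_of_ne (Ne.symm hb)]
        · simp
      · rw [Finset.sum_mul]
        exact Finset.sum_congr rfl fun i _ => by ring

theorem dot_dual {κ : Type} [Field κ] (l p v : Fin 14 → κ) (hp : dot l p = 0)
    (hv : dot l v = 0) : dot l (dual p v) = 0 := by
  unfold dot at *
  ext
  · simpa [dual, fst_sum] using hp
  · simpa [dual, snd_sum] using hv

end SMBx

open TrivSqZeroExt in
theorem p_SMB (hBR2 : S_BR2) (hBR3 : S_BR3) :
    S_SMB := by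
  intro l κ _ _ hsm p hp0 h1 h2 v hv hli
  obtain ⟨-, hpr, hadd, hdot⟩ := hBR3
  have hfst : ∀ a i, fst (dual p (v a) i) = p i := fun a i => by simp [dual]
  have hsnd : ∀ a i, snd (dual p (v a) i) = v a i := fun a i => by simp [dual]
  have hKp : KK p := by
    have h := KK.map (fstHom κ κ κ).toRingHom (hv 0).1
    have e : (fun i => (fstHom κ κ κ).toRingHom (dual p (v 0) i)) = p := funext fun i => hfst 0 i
    rwa [e] at h
  have hP0 : emb p ≠ 0 := fun h => hp0 (by
    rw [← hpr κ p, h]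
    funext a
    exact ((hadd κ κ (0 : κ →+ κ)).2 0 a).symm)
  have hE : ∀ G ∈ equations l, MvPolynomial.aeval (emb p) G = 0 := by
    refine hBR2 l κ p hKp fun s => ?_
    rw [← (hdot κ κ p).1]
    fin_cases s
    · exact h1
    · exact h2
  have hT : ∀ a, emb (v a) ∈ tangentSpace (equations l) (emb p) := by
    intro a G hG
    have hD : MvPolynomial.aeval (emb (dual p (v a))) G = 0 := by
      refine hBR2 l (DualNumber κ) _ (hv a).1 (fun s => ?_) G hG
      rw [← (hdot κ (DualNumber κ) _).1]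
      fin_cases s
      · exact SMBx.dot_dual _ _ _ h1 (hv a).2.1
      · exact SMBx.dot_dual _ _ _ h2 (hv a).2.2
    have h := (SMBx.eval_dual (emb (dual p (v a))) G).2
    rw [hD, snd_zero] at h
    have e1 : (fun i => fst (emb (dual p (v a)) i)) = emb p := by
      funext i
      have := (hadd (DualNumber κ) κ (fstHom κ κ κ).toRingHom.toAddMonoidHom).1 (dual p (v a)) i
      refine this.trans ?_
      congr 1
      exact funext fun j => hfst a j
    have e2 : ∀ i, snd (emb (dual p (v a)) i) = emb (v a) i := by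
      intro i
      have := (hadd (DualNumber κ) κ (sndHom κ κ).toAddMonoidHom).1 (dual p (v a)) i
      refine this.trans ?_
      congr 1
      exact funext fun j => hsnd a j
    rw [e1] at h
    simp only [e2] at h
    exact h.symm
  let π : (Fin 7 × Fin 7 → κ) →ₗ[κ] (Fin 14 → κ) :=
    { toFun := pr
      map_add' := fun P Q => by
        funext a
        fin_cases a <;> simp [pr, add_comm]
      map_smul' := fun c P => by
        funext a
        exact ((hadd κ κ (AddMonoidHom.mulLeft c)).2 P a).symm }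
  let w : Fin 5 → tangentSpace (equations l) (emb p) := fun a => ⟨emb (v a), hT a⟩
  have hw : LinearIndependent κ w := by
    refine LinearIndependent.of_comp (π ∘ₗ (tangentSpace (equations l) (emb p)).subtype) ?_
    have e : (π ∘ₗ (tangentSpace (equations l) (emb p)).subtype) ∘ w = v :=
      funext fun a => hpr κ (v a)
    rwa [e]
  have h5 := hw.fintype_card_le_finrank
  have h4 := hsm _ hP0 hE
  rw [Fintype.card_fin] at h5
  omega

end Pool.Agent.P.MP_6149fc_ag.V18

end

section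

/-! Step RKC. -/

set_option autoImplicit false
set_option linter.unusedSectionVars false

namespace Pool.Agent.P.MP_6149fc_ag.V18

open scoped ENNReal
open MvPowerSeries (coeff X constantCoeff monomial)

theorem p_RKC (hRKA : S_RKA) :
    S_RKC := by
  intro κ κ' L L' _ _ _ _ _ _ _ _ _ _ φ T
  have hφ : Function.Injective φ := φ.toRingHom.injective
  obtain ⟨I, hIT, hI, hc⟩ := Matroid.le_eRk_iff.1 (le_refl (rk κ T))
  refine Matroid.le_eRk_iff.2 ⟨φ '' I, Set.image_mono hIT, ?_, ?_⟩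
  · have h1 : AlgebraicIndependent κ' (φ ∘ fun x : I => (x : L)) :=
      (AlgebraicIndependent.map' (AlgebraicIndependent.matroid_indep_iff.1 hI) hφ).extendScalars κ'
    have h2 := h1.to_subtype_range
    rw [Set.range_comp, Subtype.range_coe] at h2
    exact h2
  · rw [hφ.encard_image, hc]

end Pool.Agent.P.MP_6149fc_ag.V18

end

section

/-! Step ARC1. -/

set_option autoImplicit false
set_option linter.unusedSectionVars false

namespace Pool.Agent.P.MP_6149fc_ag.V18

open scoped ENNReal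
open MvPowerSeries (coeff X constantCoeff monomial)

theorem p_ARC1 (hRKA : S_RKA) :
    S_ARC1 := by
  intro σ _ _ r S K _ _ ξ j v hσ hS hsm hj hgen hξS hv hξ
  obtain ⟨F₀, hF₀, hl₀⟩ := hsm K ξ hj hξS
  obtain ⟨κ, _, _, ⟨D⟩⟩ := t_TRB 2 r σ F₀ K ξ j v hσ hj hgen (fun s => hξS _ (hF₀ s))
    (fun s => hS _ (hF₀ s)) hl₀ hv
  let ξ' : σ → D.O := fun i => ⟨ξ i, (D.mem _).2 (hξ i)⟩
  have h1 : ξ' j = 1 := Subtype.ext hj
  have hco : ∀ G : MvPolynomial σ ℂ,
      ((MvPolynomial.aeval ξ' G : D.O) : K) = MvPolynomial.aeval ξ G := fun G => ValA.coe_aeval G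
  have h0 : ∀ G : MvPolynomial σ ℂ, MvPolynomial.aeval ξ G = 0 → MvPolynomial.aeval ξ' G = 0 :=
    fun G h => Subtype.ext ((hco G).trans h)
  have hx1 : D.res (ξ' j) = 1 := by rw [h1, map_one]
  have hxS : ∀ G ∈ S, MvPolynomial.aeval (fun i => D.res (ξ' i)) G = 0 := fun G hG => by
    rw [← MvPolynomial.comp_aeval_apply _ D.res, h0 G (hξS G hG), map_zero]
  obtain ⟨F, hF, hl⟩ := hsm κ _ hx1 hxS
  obtain ⟨c⟩ := t_CHART σ r F 3 κ j _ hσ hx1 (fun s => hxS _ (hF s)) (fun s => hS _ (hF s)) hl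
  obtain ⟨y, hy⟩ := t_PARAM σ r F 3 κ j _ c
  have hF' : ∀ s, MvPolynomial.aeval ξ' (F s) = 0 := fun s => h0 _ (hξS _ (hF s))
  refine ⟨κ, inferInstance, inferInstance, _, c.pt X y, hx1, hxS, fun n G hG => ?_,
    fun q N hq hN => ?_⟩
  · refine t_INDEP σ r F 3 κ j _ c y hy _ G ?_
    rw [Fintype.linearIndependent_iff] at hG ⊢
    intro a ha
    refine hG a ?_
    have := (t_VAL 2 r σ F K v κ D ξ' j c y hy h1 hF' hgen).1 (∑ i, a i • G i)
      (by simpa only [map_sum, map_smul] using ha)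
    simpa only [map_sum, map_smul] using this
  obtain ⟨L, _, _, _, _, ⟨g⟩⟩ := t_GENARC 2 K v κ D q N hq hN
  obtain ⟨hz, ψ, hsub, hψ⟩ := ValA.arc_id t_TAN c hy h1 hF' g _ fun _ => rfl
  have hφ : ∀ G : MvPolynomial σ ℂ, g.φ (MvPolynomial.aeval ξ' G) =
      MvPolynomial.aeval (fun i => g.φ (ξ' i)) G := fun G => MvPolynomial.comp_aeval_apply _ g.φ G
  have hI := t_INTEG 2 K v κ D
  obtain ⟨T, hT, hind⟩ := t_TRDEG 2 r σ F K v κ D ξ' j c q N _ L g h1 hF' hI
    (t_LOGD 2 K v κ D σ ξ (fun i => (ξ' i).2) hgen hI)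
  refine ⟨L, inferInstance, inferInstance, inferInstance, inferInstance, fun i => g.φ (ξ' i), _,
    ⟨by simp only [h1, map_one], fun i => g.const _, fun G hG => by
      rw [← hφ, h0 G hG, map_zero]⟩, hz, fun G lam hG => ?_, fun G => ?_, ?_, ?_⟩
  · rw [← hφ]
    exact ValA.dvd_of_le g _ lam (by rwa [hco])
  · rw [← hφ, ← hψ, hsub]
  · have h2 := ((hRKA κ L).2.2.2 (Fin 3 × Fin N) (fun b => PowerSeries.coeff (b.2 : ℕ)
      (∑ i, algebraMap κ (PowerSeries L) (c.cz b.1 i) * g.φ (ξ' i))) T.card).2 ⟨T, rfl, hind⟩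
    refine le_trans ?_ (add_le_add_left (h2.trans (Matroid.eRk_mono _ ?_)) _)
    · exact_mod_cast hT
    · rintro _ ⟨b, rfl⟩
      exact ⟨b.1, b.2, b.2.2, rfl⟩
  · refine (hRKA κ L).1 _ _ ?_
    rintro _ ⟨a, l, hl, rfl⟩
    rw [map_sum]
    refine sum_mem fun i _ => ?_
    rw [PowerSeries.algebraMap_apply, PowerSeries.coeff_C_mul]
    exact mul_mem (IntermediateField.algebraMap_mem _ _)
      (IntermediateField.subset_adjoin _ _ ⟨i, l, hl, rfl⟩)

end Pool.Agent.P.MP_6149fc_ag.V18

end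

section

/-! Step ARC2. -/

set_option autoImplicit false
set_option linter.unusedSectionVars false

namespace Pool.Agent.P.MP_6149fc_ag.V18

open scoped ENNReal
open MvPowerSeries (coeff X constantCoeff monomial)

namespace ARC2x

theorem sub_map {κ L L' : Type} [Field κ] [Field L] [Field L'] [Algebra κ L] [Algebra κ L']
    (φ : L →ₐ[κ] L') {z : Fin 3 → PowerSeries L} (hz : Cen z)
    (hz' : Cen fun j => PowerSeries.map (φ : L →+* L') (z j)) (f : PS κ) :
    sub (fun j => PowerSeries.map (φ : L →+* L') (z j)) f =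
      PowerSeries.map (φ : L →+* L') (sub z f) := by
  ext s
  have hA : ∀ α : Fin 3 →₀ ℕ, Finsupp.degree α ≤ s →
      α ∈ (Finsupp.finite_of_degree_le (σ := Fin 3) s).toFinset := fun α h => by simpa using h
  rw [PowerSeries.coeff_map, coeff_sub hz f s _ hA, coeff_sub hz' f s _ hA, map_sum]
  refine Finset.sum_congr rfl fun α _ => ?_
  simp only [← map_pow, ← map_prod, PowerSeries.coeff_map]
  exact (map_smul φ _ _).symm

theorem cf_map {σ L L' : Type} [Field L] [Field L'] (φ : L →+* L') (p : σ → PowerSeries L)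
    (N : ℕ) : cf (fun j => PowerSeries.map φ (p j)) N = φ '' cf p N := by
  ext c
  simp only [cf, PowerSeries.coeff_map, Set.mem_ofPred_eq, Set.mem_image]
  constructor
  · rintro ⟨j, l, hl, rfl⟩
    exact ⟨_, ⟨j, l, hl, rfl⟩, rfl⟩
  · rintro ⟨_, ⟨j, l, hl, rfl⟩, rfl⟩
    exact ⟨j, l, hl, rfl⟩

theorem aeval_map {σ L L' : Type} [Field L] [Field L'] [Algebra ℂ L] [Algebra ℂ L']
    (φ : L →ₐ[ℂ] L') (p : σ → PowerSeries L) (G : MvPolynomial σ ℂ) :
    MvPolynomial.aeval (fun j => PowerSeries.map (φ : L →+* L') (p j)) G =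
      PowerSeries.map (φ : L →+* L') (MvPolynomial.aeval p G) :=
  (MvPolynomial.comp_aeval_apply p (PowerSeries.mapAlgHom φ) G).symm

theorem up (hRKC : S_RKC) (hBC : S_BC) {σ K κ κ' : Type} [Field K] [Algebra ℂ K] [Field κ]
    [Algebra ℂ κ] [Field κ'] [Algebra ℂ κ'] [Algebra κ κ'] [IsScalarTower ℂ κ κ']
    [Algebra.IsAlgebraic κ κ'] {ξ : σ → K} {v : AddValuation K (WithTop ℤ)} {x : σ → κ} {j : σ}
    {A : ℕ} {P : σ → PS κ} (h : Supply0 κ ξ v x j A P) (q N : ℕ) (hq : 1 ≤ q) (hN : 1 ≤ N) :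
    ∃ (L : Type) (_ : Field L) (_ : Algebra ℂ L) (_ : Algebra κ' L) (_ : IsScalarTower ℂ κ' L)
      (p : σ → PowerSeries L) (z : Fin 3 → PowerSeries L),
      IsArc ξ (fun i => algebraMap κ κ' (x i)) j p ∧ Cen z ∧
      (∀ (G : MvPolynomial σ ℂ) (lam : ℕ), ((lam : ℤ) : WithTop ℤ) ≤ v (MvPolynomial.aeval ξ G) →
        PowerSeries.X ^ (q * lam) ∣ MvPolynomial.aeval p G) ∧
      (∀ G : MvPolynomial σ ℂ, sub z (MvPowerSeries.map (algebraMap κ κ')
        (MvPolynomial.aeval P G)) = MvPolynomial.aeval p G) ∧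
      Cod κ' z N (q * A + 2) ∧ ((3 * N : ℕ) : ℕ∞) ≤ rk κ' (cf p N) + (q * A + 2 : ℕ) := by
  obtain ⟨L, _, _, _, _, p, z, ⟨a1, a2, a3⟩, hz, hd, hs, hc, hr⟩ := h.2 q N hq hN
  let lf : κ' →ₐ[κ] AlgebraicClosure L := IsAlgClosed.lift
  let _ : Algebra κ' (AlgebraicClosure L) := lf.toRingHom.toAlgebra
  have : IsScalarTower κ κ' (AlgebraicClosure L) :=
    IsScalarTower.of_algebraMap_eq fun c => (lf.commutes c).symm
  have : IsScalarTower ℂ κ' (AlgebraicClosure L) := IsScalarTower.of_algebraMap_eq fun c => by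
    rw [IsScalarTower.algebraMap_apply ℂ κ κ', ← IsScalarTower.algebraMap_apply κ κ',
      IsScalarTower.algebraMap_apply κ L, ← IsScalarTower.algebraMap_apply ℂ κ L,
      ← IsScalarTower.algebraMap_apply ℂ L]
  let φ : L →ₐ[κ] AlgebraicClosure L := IsScalarTower.toAlgHom κ L _
  have hae : ∀ G : MvPolynomial σ ℂ,
      MvPolynomial.aeval (fun j => PowerSeries.map (φ : L →+* AlgebraicClosure L) (p j)) G =
        PowerSeries.map (φ : L →+* AlgebraicClosure L) (MvPolynomial.aeval p G) :=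
    aeval_map (IsScalarTower.toAlgHom ℂ L (AlgebraicClosure L)) p
  have hz' : Cen fun j => PowerSeries.map (φ : L →+* AlgebraicClosure L) (z j) := fun j => by
    rw [← PowerSeries.coeff_zero_eq_constantCoeff_apply, PowerSeries.coeff_map,
      PowerSeries.coeff_zero_eq_constantCoeff_apply, hz j, map_zero]
  refine ⟨AlgebraicClosure L, inferInstance, inferInstance, inferInstance, inferInstance,
    fun j => PowerSeries.map (φ : L →+* AlgebraicClosure L) (p j),
    fun j => PowerSeries.map (φ : L →+* AlgebraicClosure L) (z j),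
    ⟨by simp only [a1, map_one], fun i => ?_, fun G hG => by rw [hae, a3 G hG, map_zero]⟩, hz',
    fun G lam hG => ?_, fun G => ?_, ?_, ?_⟩
  · rw [← PowerSeries.coeff_zero_eq_constantCoeff_apply, PowerSeries.coeff_map,
      PowerSeries.coeff_zero_eq_constantCoeff_apply, a2 i, ← IsScalarTower.algebraMap_apply]
    exact φ.commutes _
  · have := map_dvd (PowerSeries.map (φ : L →+* AlgebraicClosure L)) (hd G lam hG)
    rwa [map_pow, PowerSeries.map_X, ← hae] at this
  · rw [((hBC κ κ').2 _ _ hz').1, sub_map φ hz hz', hs, hae]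
  · refine le_trans hc (add_le_add_left ?_ _)
    rw [cf_map]
    exact hRKC κ κ' L _ φ _
  · refine le_trans hc (add_le_add_left (hr.trans ?_) _)
    rw [cf_map]
    exact hRKC κ κ' L _ φ _

end ARC2x

open ARC2x in
theorem p_ARC2 (hRKC : S_RKC) (hBC : S_BC) (hJET2 : S_JET2) (hADM : S_ADM) :
    S_ARC2 := by
  intro σ K κ _ _ _ _ ξ v x j A P h
  refine ⟨AlgebraicClosure κ, inferInstance, inferInstance, IsScalarTower.toAlgHom ℂ κ _,
    inferInstance, fun q N hq hN => ?_, fun n G c hG hc => ?_⟩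
  · obtain ⟨L, _, _, _, _, p, z, h1, -, h2, -, -, h3⟩ :=
      up (κ' := AlgebraicClosure κ) hRKC hBC h q N hq hN
    exact ⟨L, inferInstance, inferInstance, inferInstance, inferInstance, p, h1, h2, h3⟩
  · have hf : ∑ i, c i • MvPowerSeries.map (algebraMap κ (AlgebraicClosure κ))
        (MvPolynomial.aeval P (G i)) ≠ 0 := fun e => hc (funext
      (Fintype.linearIndependent_iff.1 ((hBC κ (AlgebraicClosure κ)).1 _ _ (h.1 n G hG)) c e))
    obtain ⟨γ, hγ⟩ := exists_init (hADM lexA (by decide)) hf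
    have hJ := hJET2 _ lexA _ γ (γ 0 + γ 1 + γ 2) hγ fun i => by
      fin_cases i <;> simp <;> omega
    obtain ⟨L, _, _, _, _, p, z, h1, hz, -, h2, h3, -⟩ := up (κ' := AlgebraicClosure κ) hRKC hBC h
      1 ((γ 0 + γ 1 + γ 2) * (1 * A + 2 + 3) + 1) le_rfl (by omega)
    refine ⟨L, inferInstance, inferInstance, inferInstance, inferInstance, p, h1, fun e => ?_⟩
    obtain ⟨ψ, hψ, -⟩ := exists_subHom (κ := AlgebraicClosure κ) hz
    have := hJ L z _ _ hz (by
      rw [← hψ, map_sum]
      simp only [map_smul]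
      simp only [hψ, h2, e, dvd_zero]) h3
    omega

end Pool.Agent.P.MP_6149fc_ag.V18

end

section

/-! Step FIN1. -/

set_option autoImplicit false
set_option linter.unusedSectionVars false

namespace Pool.Agent.P.MP_6149fc_ag.V18

open scoped ENNReal
open MvPowerSeries (coeff X constantCoeff monomial)

namespace FIN1x

theorem scal {σ C : Type} [CommRing C] [Algebra ℂ C] (u : C) (q : σ → C) {G : MvPolynomial σ ℂ}
    {M : ℕ} (h : G.IsHomogeneous M) :
    MvPolynomial.aeval (fun i => u * q i) G = u ^ M * MvPolynomial.aeval q G := by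
  conv_lhs => rw [G.as_sum]
  conv_rhs => rw [G.as_sum]
  rw [map_sum, map_sum, Finset.mul_sum]
  refine Finset.sum_congr rfl fun d hd => ?_
  have e : ∑ i ∈ d.support, d i = M := by
    have := h (MvPolynomial.mem_support_iff.1 hd)
    simpa [Finsupp.weight_apply, Finsupp.sum] using this
  rw [MvPolynomial.aeval_monomial, MvPolynomial.aeval_monomial, Finsupp.prod, Finsupp.prod, ← e]
  simp only [mul_pow, Finset.prod_mul_distrib, Finset.prod_pow_eq_pow_sum]
  ring

end FIN1x

theorem p_FIN1 (hRKA : S_RKA) (hCFA : S_CFA) :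
    S_FIN1 := by
  intro σ κ L _ _ _ _ _ _ Ψ p u z j hz hj hp
  have h1 : sub z (Ψ j) * u = 1 := by rw [mul_comm, ← hp, hj]
  refine ⟨IsUnit.of_mul_eq_one_right _ h1, fun N => (hRKA κ L).1 _ _ ?_, fun G M hG => ?_⟩
  · obtain ⟨c1, -, -, c4, c5⟩ := hCFA κ L (IntermediateField.adjoin κ (cf z N))
    have a1 : ∀ i, CF (IntermediateField.adjoin κ (cf z N)) N (sub z (Ψ i)) := fun i =>
      c5 N z _ hz fun a l hl => IntermediateField.subset_adjoin κ _ ⟨a, l, hl, rfl⟩
    have a2 : CF (IntermediateField.adjoin κ (cf z N)) N u :=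
      c4 N (sub z (Ψ j)) u 1 (fun e => by simpa [e] using congrArg PowerSeries.constantCoeff h1)
        (a1 j) (fun l _ => by
          rw [PowerSeries.coeff_one]
          split_ifs
          · exact one_mem _
          · exact zero_mem _) (by rw [h1, sub_self]; exact dvd_zero _)
    rintro _ ⟨i, l, hl, rfl⟩
    rw [hp]
    exact c1 N _ _ a2 (a1 i) l hl
  · obtain ⟨ψ, hψ, -⟩ := exists_subHom (κ := κ) hz
    rw [show p = fun i => u * ψ (Ψ i) from funext fun i => by rw [hψ, hp], FIN1x.scal u _ hG,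
      ← hψ]
    exact congrArg _ (MvPolynomial.comp_aeval_apply Ψ (ψ.restrictScalars ℂ) G).symm

end Pool.Agent.P.MP_6149fc_ag.V18

end

section

/-! Step FIN2. -/

set_option autoImplicit false
set_option linter.unusedSectionVars false

namespace Pool.Agent.P.MP_6149fc_ag.V18

open scoped ENNReal
open MvPowerSeries (coeff X constantCoeff monomial)

theorem p_FIN2 (hFIN1 : S_FIN1) (hJET2 : S_JET2) (hADM : S_ADM) :
    S_FIN2 := by
  intro σ K κ _ _ _ _ ξ v x j A Ψ h1 h2 hP
  refine ⟨fun G M hG h0 => ?_, fun n M G hG li => ?_⟩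
  · by_contra ne
    obtain ⟨γ, hγ⟩ := exists_init (hADM lexA (by decide)) ne
    have hJ := hJET2 κ _ _ γ (γ 0 + γ 1 + γ 2) hγ fun i => by
      fin_cases i
      · exact (Nat.le_add_right _ _).trans (Nat.le_add_right _ _)
      · exact (Nat.le_add_left _ _).trans (Nat.le_add_right _ _)
      · exact Nat.le_add_left _ _
    obtain ⟨L, _, _, _, _, p, hp, -, hr⟩ :=
      h1 1 ((γ 0 + γ 1 + γ 2) * (1 * A + 2 + 3) + 1) le_rfl (by omega)
    obtain ⟨u, z, hz, e⟩ := hP L p hp
    obtain ⟨hu, r, hG'⟩ := hFIN1 σ κ L Ψ p u z j hz hp.1 e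
    have z0 : sub z (MvPolynomial.aeval Ψ G) = 0 := by
      have := hG' G M hG
      rw [hp.2.2 G h0] at this
      exact (hu.pow M).mul_right_eq_zero.1 this.symm
    have := hJ L z _ (1 * A + 2) hz (z0 ▸ dvd_zero _) (hr.trans (add_le_add (r _) le_rfl))
    omega
  · rw [Fintype.linearIndependent_iff]
    intro c hc
    by_contra ne
    obtain ⟨L, _, _, _, _, p, hp, hs⟩ := h2 n G c li fun e => ne (congrFun e)
    obtain ⟨u, z, hz, e⟩ := hP L p hp
    obtain ⟨ψ, hψ, -⟩ := exists_subHom (κ := κ) hz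
    have h3 := congrArg (fun f => u ^ M * ψ f) hc
    simp only [map_sum, map_smul, map_zero, mul_zero, Finset.mul_sum, mul_smul_comm] at h3
    refine hs (Eq.trans (Finset.sum_congr rfl fun i _ => ?_) h3)
    rw [(hFIN1 σ κ L Ψ p u z j hz hp.1 e).2.2 _ M (hG i), hψ]

end Pool.Agent.P.MP_6149fc_ag.V18

end

section

/-! Step FINV. -/

set_option autoImplicit false
set_option linter.unusedSectionVars false

namespace Pool.Agent.P.MP_6149fc_ag.V18

open scoped ENNReal
open MvPowerSeries (coeff X constantCoeff monomial)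

theorem p_FINV (hFIN1 : S_FIN1) :
    S_FINV := by
  intro σ K κ _ _ _ _ ξ v x j A Ψ hS hP M lam μ f hf hJ
  rcases Nat.eq_zero_or_pos lam with h0 | h0
  · rw [h0]; exact Nat.zero_le _
  obtain ⟨L, _, _, _, _, p, harc, hdvd, hrk⟩ :=
    hS (5 * μ + 1) ((5 * μ + 1) * lam) (by omega) (Nat.mul_pos (by omega) h0)
  obtain ⟨u, z, hz, hp⟩ := hP L p harc
  obtain ⟨hu, hr, hG⟩ := hFIN1 σ κ L Ψ p u z j hz harc.1 hp
  obtain ⟨ψ, hψ, -⟩ := exists_subHom (κ := κ) (z := z) hz
  have hd : PowerSeries.X ^ ((5 * μ + 1) * lam) ∣ sub z f := by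
    clear hJ
    rw [← hψ]
    induction hf using Submodule.span_induction with
    | mem h hh =>
      obtain ⟨G, hGM, hv, rfl⟩ := hh
      have h1 := hdvd G lam hv
      rw [hG G M hGM] at h1
      rw [hψ]
      exact ((hu.pow M).dvd_mul_left).1 h1
    | zero => simp
    | add a b _ _ ha hb => rw [map_add]; exact dvd_add ha hb
    | smul c a _ ha => rw [map_smul, Algebra.smul_def]; exact Dvd.dvd.mul_left ha _
  have hC : Cod κ z ((5 * μ + 1) * lam) ((5 * μ + 1) * A + 2) :=
    hrk.trans (add_le_add_left (hr _) _)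
  have h := hJ L z _ _ hz hd hC
  by_contra hc
  have h1 : μ * A + 1 ≤ lam := by omega
  have h2 := Nat.mul_le_mul_left (5 * μ + 1) h1
  nlinarith

end Pool.Agent.P.MP_6149fc_ag.V18

end

section

/-! Step FINW. -/

set_option autoImplicit false
set_option linter.unusedSectionVars false

namespace Pool.Agent.P.MP_6149fc_ag.V18

open scoped ENNReal
open MvPowerSeries (coeff X constantCoeff monomial)

namespace FINWx

theorem prod_mem {σ κ C : Type} [Field κ] [CommRing C] [Algebra κ C] (Ψ : σ → C) (d : σ → ℕ)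
    (s : Finset σ) : ∏ i ∈ s, Ψ i ^ d i ∈ UU κ Ψ (∑ i ∈ s, d i) := by
  classical
  induction s using Finset.induction_on with
  | empty => simpa using UU_zero Ψ
  | insert a s ha ih =>
    rw [Finset.prod_insert ha, Finset.sum_insert ha]
    exact UU_mul (Submodule.pow_mem_pow _ (Submodule.subset_span (Set.mem_range_self a)) _) ih

theorem aeval_mem {σ κ : Type} [Field κ] [Algebra ℂ κ] (Ψ : σ → PS κ) {M : ℕ}
    {G : MvPolynomial σ ℂ} (hG : G.IsHomogeneous M) : MvPolynomial.aeval Ψ G ∈ UU κ Ψ M := by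
  rw [← G.support_sum_monomial_coeff, map_sum]
  refine Submodule.sum_mem _ fun d hd => ?_
  have h : d.degree = M := by
    by_contra h
    exact MvPolynomial.mem_support_iff.1 hd (hG.coeff_eq_zero h)
  rw [MvPolynomial.aeval_monomial, ← Algebra.smul_def, ← algebraMap_smul κ, ← h]
  exact Submodule.smul_mem _ _ (prod_mem Ψ d d.support)

end FINWx

theorem p_FINW :
    S_FINW := by
  intro σ K κ _ _ _ _ _ ξ v Ψ hc hξ
  have h0 : ∀ M, MainA.W v ξ κ Ψ M 0 = UU κ Ψ M := by
    intro M
    refine le_antisymm (Submodule.span_le.2 ?_) ?_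
    · rintro _ ⟨G, hG, -, rfl⟩
      exact FINWx.aeval_mem Ψ hG
    · induction M with
      | zero =>
        rw [UU, pow_zero]
        exact Submodule.one_le.2 MainA.one_mem_W
      | succ M ih =>
        have h1 : Submodule.span κ (Set.range Ψ) ≤ MainA.W v ξ κ Ψ 1 0 := by
          refine Submodule.span_mono ?_
          rintro _ ⟨i, rfl⟩
          exact ⟨MvPolynomial.X i, MvPolynomial.isHomogeneous_X _ _, by simpa using hξ i, by simp⟩
        rw [UU, pow_succ]
        exact Submodule.mul_le.2 fun f hf g hg =>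
          MainA.W_mul (j := 0) (j' := 0) (ih hf) (h1 hg)
  refine ⟨h0, fun hind t ht M => ?_⟩
  have hf := UU_fin (κ := κ) Ψ M
  have : FiniteDimensional κ (MainA.W v ξ κ Ψ M ⌈t * M⌉₊) :=
    Submodule.finiteDimensional_of_le ((MainA.W_anti (Nat.zero_le _)).trans (h0 M).le)
  have hmem : ∀ g ∈ vanishing v ξ t M,
      g ∈ sections ξ M ∧ ((⌈t * M⌉ : ℤ) : WithTop ℤ) ≤ v g := by
    intro g hg
    induction hg using Submodule.span_induction with
    | mem g hg => exact hg
    | zero => exact ⟨Submodule.zero_mem _, by simp⟩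
    | add a b _ _ ha hb => exact ⟨Submodule.add_mem _ ha.1 hb.1, v.map_le_add ha.2 hb.2⟩
    | smul c a _ ha =>
      refine ⟨Submodule.smul_mem _ _ ha.1, ?_⟩
      rw [Algebra.smul_def, AddValuation.map_mul]
      exact le_add_of_nonneg_of_le (hc c) ha.2
  obtain ⟨b, hb⟩ := exists_linearIndependent_of_le_finrank (R := ℂ) (M := vanishing v ξ t M) le_rfl
  choose G hG hGb using fun i => Submodule.mem_map.1 (hmem _ (b i).2).1
  have hb' : LinearIndependent ℂ fun i => (b i : K) := hb.map' (Submodule.subtype _) (by simp)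
  have h1 : LinearIndependent ℂ fun i => MvPolynomial.aeval ξ (G i) := by
    simpa only [← hGb, AlgHom.toLinearMap_apply] using hb'
  have h2 : ∀ i, MvPolynomial.aeval Ψ (G i) ∈ MainA.W v ξ κ Ψ M ⌈t * M⌉₊ := fun i =>
    Submodule.subset_span ⟨G i, hG i, by
      rw [Int.natCast_ceil_eq_ceil (by positivity)]
      have := (hmem _ (b i).2).2
      rwa [← hGb] at this, rfl⟩
  have h3 : LinearIndependent κ fun i => (⟨_, h2 i⟩ : MainA.W v ξ κ Ψ M ⌈t * M⌉₊) :=
    LinearIndependent.of_comp (Submodule.subtype _) (hind _ M G hG h1)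
  simpa using h3.fintype_card_le_finrank

end Pool.Agent.P.MP_6149fc_ag.V18

end

section

/-! Step FINS. -/

set_option autoImplicit false
set_option linter.unusedSectionVars false

namespace Pool.Agent.P.MP_6149fc_ag.V18

open scoped ENNReal
open MvPowerSeries (coeff X constantCoeff monomial)

theorem p_FINS :
    S_FINS := by
  classical
  intro κ _ W G A V hΓ hmul h1 hle hV hloc hb M J
  let lam : Ex → ℕ := fun γ => ((Finset.Icc 1 J).filter fun j => γ ∈ G.Γ M j).card
  have e1 : ∑ j ∈ Finset.Icc 1 J, (G.Γ M j).card = ∑ γ ∈ G.Γ M 0, lam γ := by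
    simp only [lam, Finset.card_filter]
    rw [Finset.sum_comm]
    refine Finset.sum_congr rfl fun j _ => ?_
    rw [← Finset.card_filter, Finset.filter_mem_eq_inter,
      Finset.inter_eq_right.2 (G.anti M 0 j (Nat.zero_le j))]
  have e2 : ∀ γ ∈ G.Γ M 0, γ ∈ G.Γ M (lam γ) := fun γ hγ => by
    rcases ((Finset.Icc 1 J).filter fun j => γ ∈ G.Γ M j).eq_empty_or_nonempty with h | h
    · simp only [lam]; rw [h]; exact hγ
    · obtain ⟨j, hj, hmax⟩ := Finset.exists_max_image _ id h
      refine G.anti M _ j ?_ (Finset.mem_filter.1 hj).2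
      calc _ ≤ (Finset.Icc 1 j).card := Finset.card_le_card fun i hi =>
              Finset.mem_Icc.2 ⟨(Finset.mem_Icc.1 (Finset.mem_filter.1 hi).1).1, hmax i hi⟩
        _ = j := by simp
  let e := (G.Γ M 0).equivFin.symm
  choose f hf hi using fun i => (hΓ M _ _).1 (e2 _ (e i).2)
  have li := indep_of_init hi (Subtype.val_injective.comp e.injective)
  have hp : ∀ s : Finset _, ∏ i ∈ s, f i ∈ W (s.card * M) (∑ i ∈ s, lam (e i)) := fun s => by
    induction s using Finset.induction_on with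
    | empty => simpa using h1
    | insert a s ha ih =>
      rw [Finset.prod_insert ha, Finset.sum_insert ha, Finset.card_insert_of_notMem ha,
        Nat.succ_mul, add_comm _ M]
      exact hmul _ _ _ _ _ _ (hf a) ih
  have hs : ∑ i, lam (e i) = ∑ γ ∈ G.Γ M 0, lam γ := by
    rw [← Finset.sum_coe_sort (G.Γ M 0)]
    exact e.sum_comp fun x => lam x
  have h2 := hb _ _ ⌈V * ((M : ℝ) + 15) ^ 4 + 2⌉₊ _ (hp Finset.univ)
    (hloc M _ _ f (Nat.le_ceil _) (fun i => hle _ _ (hf i)) li)
  have h3 := Nat.ceil_lt_add_one (a := V * ((M : ℝ) + 15) ^ 4 + 2) (by positivity)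
  rw [e1, ← hs]
  refine (Nat.cast_le.2 h2).trans ?_
  rw [Nat.cast_mul, mul_comm]
  exact mul_le_mul_of_nonneg_left (by linarith) (Nat.cast_nonneg A)

end Pool.Agent.P.MP_6149fc_ag.V18

end

section

/-! Step FIN. -/

set_option autoImplicit false
set_option linter.unusedSectionVars false

namespace Pool.Agent.P.MP_6149fc_ag.V18

open scoped ENNReal
open MvPowerSeries (coeff X constantCoeff monomial)

theorem p_FIN (hFIN2 : S_FIN2) (hFINV : S_FINV) (hFINW : S_FINW) (hFINS : S_FINS) (hCONV2 : S_CONV2) (hADM : S_ADM) :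
    S_FIN := by
  intro σ K κ _ _ _ _ _ ξ v x j A Ψ hc hξ h1 h2 hpar hloc
  obtain ⟨hker, hind⟩ := hFIN2 σ K κ ξ v x j A Ψ h1 h2 hpar
  obtain ⟨hW0, hlow⟩ := hFINW σ K κ ξ v Ψ hc hξ
  obtain ⟨hone, hX, hvol, hL⟩ := hloc
  have hup := MainA.W_upper (v := v) (κ := κ) hker
  choose Γ hcard hΓ using fun M j =>
    @init_count κ _ lexA (hADM lexA (by decide)) (MainA.W v ξ κ Ψ M j) (hup M j).1
  let G : Semi 3 :=
    { Γ := Γ
      add := fun M M' j j' a b ha hb => by
        obtain ⟨f, hf, hfa⟩ := (hΓ _ _ _).1 ha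
        obtain ⟨g, hg, hgb⟩ := (hΓ _ _ _).1 hb
        exact (hΓ _ _ _).2 ⟨f * g, MainA.W_mul hf hg, hfa.mul hgb⟩
      anti := fun M j j' h a ha => by
        obtain ⟨f, hf, hfa⟩ := (hΓ _ _ _).1 ha
        exact (hΓ _ _ _).2 ⟨f, MainA.W_anti h hf, hfa⟩
      zero0 := (hΓ _ _ _).2 ⟨1, MainA.one_mem_W, init_one⟩
      zero1 := (hΓ _ _ _).2 ⟨1, by rw [hW0]; exact hone, init_one⟩
      single1 := fun a => (hΓ _ _ _).2 ⟨X a, by rw [hW0]; exact hX a,
        init_monomial _ one_ne_zero⟩ }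
  have hc0 : (fun M => (G.Γ M 0).card) = fun M => Module.finrank κ (UU κ Ψ M) :=
    funext fun M => by rw [← hW0]; exact hcard M 0
  have hWU : (fun M => MainA.W v ξ κ Ψ M 0) = UU κ Ψ := funext hW0
  have hconv := hCONV2 A G (by rw [hc0]; exact hvol) fun V hV hV3 =>
    hFINS κ (MainA.W v ξ κ Ψ) G A V hΓ (fun _ _ _ _ _ _ => MainA.W_mul) MainA.one_mem_W
      (fun M j => MainA.W_anti (Nat.zero_le j)) hV.nonneg
      (by rw [hWU]; exact hL V (by rw [hc0] at hV; exact hV) hV3)
      (hFINV σ K κ ξ v x j A Ψ h1 hpar)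
  refine ENNReal.div_le_of_le_mul (le_trans ?_ (hconv.trans ?_))
  · refine MeasureTheory.setLIntegral_mono' measurableSet_Ioi fun t ht => ?_
    refine Filter.limsup_le_limsup (Filter.Eventually.of_forall fun M => ?_)
    have h3 := (hlow hind t ht M).trans (hcard M _).ge
    dsimp only
    gcongr
  · refine mul_le_mul_right (Filter.limsup_le_limsup (Filter.Eventually.of_forall fun M => ?_)) _
    have h3 := (hcard M 0).le.trans (hup M 0).2
    gcongr

end Pool.Agent.P.MP_6149fc_ag.V18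

end

section

/-! Step PARB. -/

set_option autoImplicit false
set_option linter.unusedSectionVars false

namespace Pool.Agent.P.MP_6149fc_ag.V18

open scoped ENNReal
open MvPowerSeries (coeff X constantCoeff monomial)

theorem p_PARB (hBR1 : S_BR1) (hBR3 : S_BR3) (hSMB : S_SMB) (hMOVE0 : S_MOVE0) :
    S_PARB := by
  intro l K κ _ _ _ _ _ ξ x j hT hξ hj hx
  have : CharZero κ := charZero_of_injective_algebraMap (algebraMap ℂ κ).injective
  obtain ⟨-, -, h3, h4⟩ := hBR3
  obtain ⟨k1, k2, k3⟩ := hBR1 l κ x hx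
  have hne : pr x ≠ 0 := by
    intro h0
    have h1 := (h3 κ κ 0).1 (pr x) j
    have h2 : (fun a => (0 : κ →+ κ) (pr x a)) = pr x := by
      rw [h0]; rfl
    rw [h2, k2, hj] at h1
    exact zero_ne_one h1
  have hd : ∀ s, dot (l14 κ (l s)) (pr x) = 0 := fun s => by
    rw [(h4 κ κ (pr x)).1, k2]; exact k3 s
  obtain ⟨Ψ, hL, hG⟩ := hMOVE0 κ _ _ (pr x) hne k1 (hd 0) (hd 1) (hSMB l κ hT)
  refine ⟨emb Ψ, ?_, ?_⟩
  · unfold LocU at hL ⊢
    rw [(h4 κ (PS κ) Ψ).2]
    exact hL
  · intro L _ _ _ _ p hp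
    obtain ⟨-, p2, p3⟩ := hp
    obtain ⟨m1, m2, m3⟩ := hBR1 l (PowerSeries L) p fun G hG' => p3 G (hξ G hG')
    have hd' : ∀ s, dot (l14 κ (l s)) (pr p) = 0 := fun s => by
      rw [(h4 κ (PowerSeries L) (pr p)).1, m2]; exact m3 s
    have hc : ∀ i, PowerSeries.constantCoeff (pr p i) = algebraMap κ L (pr x i) := fun i => by
      have a1 := (h3 (PowerSeries L) L (PowerSeries.constantCoeff (R := L)).toAddMonoidHom).2 p i
      have a2 := (h3 κ L (algebraMap κ L).toAddMonoidHom).2 x i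
      refine a1.trans (Eq.trans ?_ a2.symm)
      congr 1
      funext a
      exact p2 a
    obtain ⟨u, z, hz, hu⟩ := hG L (pr p) m1 (hd' 0) (hd' 1) hc
    refine ⟨u, z, hz, fun i => ?_⟩
    obtain ⟨ψ, hψ, -⟩ := exists_subHom (κ := κ) hz
    have a1 := (h3 (PS κ) (PowerSeries L)
      ((AddMonoidHom.mulLeft u).comp ψ.toRingHom.toAddMonoidHom)).1 Ψ i
    have a2 : (fun a => ((AddMonoidHom.mulLeft u).comp ψ.toRingHom.toAddMonoidHom) (Ψ a)) =
        pr p := by
      funext a
      rw [hu a, ← hψ]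
      rfl
    rw [a2, m2] at a1
    rw [← a1, ← hψ]
    rfl

end Pool.Agent.P.MP_6149fc_ag.V18

end

section

/-! Step MAIN. -/

set_option autoImplicit false
set_option linter.unusedSectionVars false

namespace Pool.Agent.P.MP_6149fc_ag.V18

open scoped ENNReal
open MvPowerSeries (coeff X constantCoeff monomial)

theorem p_MAIN (hBR3 : S_BR3) (hNULL2 : S_NULL2) (hSEL : S_SEL) (hARC1 : S_ARC1) (hARC2 : S_ARC2) (hPARB : S_PARB) (hFIN : S_FIN) :
    S_MAIN := by
  intro l hsm K _ _ ξ j hgp v hv hξ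
  have hhom : ∀ G ∈ equations l, ∃ d, G.IsHomogeneous d := hBR3.1 l
  have hvan : ∀ G ∈ equations l, MvPolynomial.aeval ξ G = 0 := by
    intro G hG
    obtain ⟨d, hd⟩ := hhom G hG
    exact (hgp.vanishes_iff G d hd).2 (Ideal.le_radical (Ideal.subset_span hG))
  have hcard : Fintype.card (Fin 7 × Fin 7) = 3 + 45 + 1 := by simp
  obtain ⟨κ, _, _, x, P, hxj, hx, hS0⟩ := hARC1 (Fin 7 × Fin 7) 45 (equations l) K ξ j v hcard hhom
    (fun Ω _ _ p hp hG => hSEL (Fin 7 × Fin 7) 3 45 (equations l) Ω p hcard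
      (hNULL2 (Fin 7 × Fin 7) 3 (equations l) hsm Ω p
        (fun h => by rw [h] at hp; exact zero_ne_one hp) hG))
    hgp.chart hgp.generates hvan hv hξ
  obtain ⟨κ', _, _, φ, hac, hS1, hS2⟩ := hARC2 _ K κ ξ v x j _ P hS0
  have hφx : ∀ G ∈ equations l, MvPolynomial.aeval (fun i => φ (x i)) G = 0 := by
    intro G hG
    rw [← MvPolynomial.comp_aeval_apply, hx G hG, map_zero]
  obtain ⟨Ψ, hL, hP⟩ := hPARB l K κ' ξ (fun i => φ (x i)) j
    (fun Q hQ hG => hNULL2 (Fin 7 × Fin 7) 3 (equations l) hsm κ' Q hQ hG) hvan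
    (by simp [hxj]) hφx
  exact hFIN _ K κ' ξ v (fun i => φ (x i)) j _ Ψ hv.const hξ hS1 hS2 hP hL

end Pool.Agent.P.MP_6149fc_ag.V18

end
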