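import Pool.Agent.P.MP_6149fc_ag.V18.BaseP
import Pool.Agent.P.MP_6149fc_ag.V18.IfaceB

/-! Barycentre certificates. -/

set_option autoImplicit false

namespace Pool.Agent.P.MP_6149fc_ag.V18

theorem c_a0a_0 (h : S_CERT) : Bary (unitP ++ P_a0a) 0 (1) :=
  h _ _ _
    []
    (0) [([], [(4, 1)]), ([(6, 1)], [(6, 1)])]
    (by decide +kernel)

theorem c_a0a_1 (h : S_CERT) : Bary (unitP ++ P_a0a) 1 (1) :=
  h _ _ _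
    [(0, 707/500, [([], [(4, 1)]), ([(3, 1)], [(3, 1)])]),
      (1/2, 677/500, [([(1, 1/2)], [(4, 5/6), (6, 1/6)]), ([(1, 1/4), (3, 1/4), (5, 1/4)], [(4, 1/2), (5, 1/2)]), ([(3, 1/2), (5, 1/2)], [(3, 1/2), (5, 1/2)])])]
    (1/2) [([(1, 1/2)], [(4, 5/6), (6, 1/6)]), ([(1, 1/4), (3, 1/4), (5, 1/4)], [(4, 1/2), (5, 1/2)]), ([(3, 1/2), (5, 1/2)], [(3, 1/2), (5, 1/2)])]
    (by decide +kernel)

theorem c_a0a_2 (h : S_CERT) : Bary (unitP ++ P_a0a) 2 (1) :=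
  h _ _ _
    []
    (0) [([], [(6, 1)]), ([(3, 1)], [(5, 1)])]
    (by decide +kernel)

theorem c_a0b_0 (h : S_CERT) : Bary (unitP ++ P_a0b) 0 (1) :=
  h _ _ _
    []
    (0) [([], [(3, 1)]), ([(4, 1)], [(4, 1)])]
    (by decide +kernel)

theorem c_a0b_1 (h : S_CERT) : Bary (unitP ++ P_a0b) 1 (1) :=
  h _ _ _
    []
    (0) [([], [(3, 1)]), ([(5, 1)], [(5, 1)])]
    (by decide +kernel)

theorem c_a0b_2 (h : S_CERT) : Bary (unitP ++ P_a0b) 2 (1) :=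
  h _ _ _
    []
    (0) [([], [(4, 1)]), ([(5, 1)], [(5, 1)])]
    (by decide +kernel)

theorem c_a1i_0 (h : S_CERT) : Bary (unitP ++ P_a1i) 0 (1) :=
  h _ _ _
    []
    (0) [([], [(6, 1)]), ([(7, 1)], [(7, 1)])]
    (by decide +kernel)

theorem c_a1i_1 (h : S_CERT) : Bary (unitP ++ P_a1i) 1 (1) :=
  h _ _ _
    [(0, 153/125, [([], [(6, 1)]), ([(0, 1)], [(4, 1)])]),
      (1/3, 329/250, [([(1, 1/3)], [(6, 13/15), (7, 2/15)]), ([(0, 1/6), (1, 1/4), (3, 1/12)], [(5, 1/3), (6, 2/3)]), ([(0, 2/3), (3, 1/3)], [(3, 1/3), (4, 2/3)])]),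
      (2/3, 1329/1000, [([(1, 2/3)], [(6, 11/15), (7, 4/15)]), ([(0, 2/15), (1, 2/5), (3, 4/15)], [(5, 2/3), (6, 1/3)]), ([(0, 1/3), (3, 2/3)], [(3, 2/3), (4, 1/3)])]),
      (1, 158/125, [([(1, 1)], [(6, 3/5), (7, 2/5)]), ([(1, 1/2), (3, 1/2)], [(5, 1)]), ([(3, 1)], [(3, 1)])])]
    (1) [([(1, 1)], [(6, 3/5), (7, 2/5)]), ([(1, 1/2), (3, 1/2)], [(5, 1)]), ([(3, 1)], [(3, 1)])]
    (by decide +kernel)

theorem c_a1i_2 (h : S_CERT) : Bary (unitP ++ P_a1i) 2 (1) :=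
  h _ _ _
    []
    (0) [([], [(7, 1)]), ([(0, 1)], [(3, 1/2), (7, 1/2)]), ([(3, 1)], [(3, 1)])]
    (by decide +kernel)

theorem c_a1j_0 (h : S_CERT) : Bary (unitP ++ P_a1j) 0 (1) :=
  h _ _ _
    [(0, 7/5, [([], [(6, 1)]), ([(4, 1)], [(4, 1)])]),
      (1, 61/50, [([(0, 1)], [(3, 1/2), (6, 1/2)]), ([(5, 1)], [(5, 1)])])]
    (1) [([(0, 1)], [(3, 1/2), (6, 1/2)]), ([(5, 1)], [(5, 1)])]
    (by decide +kernel)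

theorem c_a1j_1 (h : S_CERT) : Bary (unitP ++ P_a1j) 1 (1) :=
  h _ _ _
    []
    (0) [([], [(6, 1)]), ([(0, 1)], [(3, 1/2), (6, 1/2)]), ([(3, 1)], [(3, 1)])]
    (by decide +kernel)

theorem c_a1j_2 (h : S_CERT) : Bary (unitP ++ P_a1j) 2 (1) :=
  h _ _ _
    [(0, 7/5, [([], [(4, 1)]), ([(0, 1)], [(5, 1)])]),
      (1/2, 71/50, [([(2, 1/2)], [(4, 3/4), (6, 1/4)]), ([(0, 1/4), (2, 1/4), (3, 1/4)], [(5, 3/4), (6, 1/4)]), ([(0, 1/2), (3, 1/2)], [(3, 1/2), (5, 1/2)])])]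
    (1/2) [([(2, 1/2)], [(4, 3/4), (6, 1/4)]), ([(0, 1/4), (2, 1/4), (3, 1/4)], [(5, 3/4), (6, 1/4)]), ([(0, 1/2), (3, 1/2)], [(3, 1/2), (5, 1/2)])]
    (by decide +kernel)

theorem c_a21_0 (h : S_CERT) : Bary (unitP ++ P_a21) 0 (1) :=
  h _ _ _
    [(0, 153/125, [([], [(7, 1)]), ([(1, 1)], [(6, 1)])]),
      (1/3, 329/250, [([(0, 1/3)], [(4, 1/3), (7, 2/3)]), ([(0, 17/60), (1, 1/10), (3, 1/20)], [(7, 13/15), (8, 2/15)]), ([(0, 1/4), (1, 1/6), (3, 1/12)], [(5, 1/3), (7, 2/3)]), ([(1, 2/3), (3, 1/3)], [(3, 1/3), (6, 2/3)])]),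
      (2/3, 1329/1000, [([(0, 2/3)], [(4, 2/3), (7, 1/3)]), ([(0, 38/75), (1, 2/25), (3, 4/25)], [(7, 11/15), (8, 4/15)]), ([(0, 2/5), (1, 2/15), (3, 4/15)], [(5, 2/3), (7, 1/3)]), ([(1, 1/3), (3, 2/3)], [(3, 2/3), (6, 1/3)])]),
      (1, 158/125, [([(0, 1)], [(4, 1)]), ([(0, 7/10), (3, 3/10)], [(7, 3/5), (8, 2/5)]), ([(0, 1/2), (3, 1/2)], [(5, 1)]), ([(3, 1)], [(3, 1)])])]
    (1) [([(0, 1)], [(4, 1)]), ([(0, 7/10), (3, 3/10)], [(7, 3/5), (8, 2/5)]), ([(0, 1/2), (3, 1/2)], [(5, 1)]), ([(3, 1)], [(3, 1)])]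
    (by decide +kernel)

theorem c_a21_1 (h : S_CERT) : Bary (unitP ++ P_a21) 1 (1) :=
  h _ _ _
    [(0, 61/50, [([], [(7, 1)]), ([(0, 1)], [(4, 1)])]),
      (1/2, 34/25, [([(1, 1/2)], [(6, 1/2), (7, 1/2)]), ([(0, 2/9), (1, 1/3), (8, 1/9)], [(5, 1/2), (7, 1/2)]), ([(0, 10/27), (1, 2/9), (8, 5/27)], [(7, 2/3), (8, 1/3)]), ([(0, 2/3), (8, 1/3)], [(4, 2/3), (8, 1/3)])]),
      (1, 13/10, [([(1, 1)], [(6, 1)]), ([(0, 1/6), (1, 1/2), (8, 1/3)], [(5, 1)]), ([(0, 5/18), (1, 1/6), (8, 5/9)], [(7, 1/3), (8, 2/3)]), ([(0, 1/3), (8, 2/3)], [(4, 1/3), (8, 2/3)])])]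
    (1) [([(1, 1)], [(6, 1)]), ([(0, 1/6), (1, 1/2), (8, 1/3)], [(5, 1)]), ([(0, 5/18), (1, 1/6), (8, 5/9)], [(7, 1/3), (8, 2/3)]), ([(0, 1/3), (8, 2/3)], [(4, 1/3), (8, 2/3)])]
    (by decide +kernel)

theorem c_a21_2 (h : S_CERT) : Bary (unitP ++ P_a21) 2 (1) :=
  h _ _ _
    []
    (0) [([], [(1, 1)]), ([(0, 1)], [(3, 1)]), ([(8, 1)], [(8, 1)])]
    (by decide +kernel)

theorem c_a22_0 (h : S_CERT) : Bary (unitP ++ P_a22) 0 (1) :=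
  h _ _ _
    [(0, 1, [([], [(2, 1)]), ([(1, 1)], [(6, 1)])]),
      (1/2, 661/500, [([(0, 1/2)], [(2, 1/2), (5, 1/2)]), ([(0, 1/3), (1, 1/6), (4, 1/6)], [(5, 1/2), (6, 1/2)]), ([(1, 1/2), (4, 1/2)], [(4, 1/2), (6, 1/2)])]),
      (1, 707/500, [([(0, 1)], [(5, 1)]), ([(4, 1)], [(4, 1)])])]
    (1) [([(0, 1)], [(5, 1)]), ([(4, 1)], [(4, 1)])]
    (by decide +kernel)

theorem c_a22_1 (h : S_CERT) : Bary (unitP ++ P_a22) 1 (1) :=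
  h _ _ _
    []
    (0) [([], [(2, 1)]), ([(0, 1)], [(5, 1)]), ([(3, 1)], [(3, 1)])]
    (by decide +kernel)

theorem c_a22_2 (h : S_CERT) : Bary (unitP ++ P_a22) 2 (1) :=
  h _ _ _
    [(0, 153/125, [([], [(1, 1)]), ([(0, 1)], [(4, 1)])]),
      (1/2, 707/500, [([(2, 1/2)], [(1, 1/2), (6, 1/2)]), ([(0, 1/6), (2, 1/3), (3, 1/6)], [(4, 1/2), (6, 1/2)]), ([(0, 1/3), (2, 1/6), (3, 1/3)], [(4, 3/4), (5, 1/4)]), ([(0, 1/2), (3, 1/2)], [(3, 1/2), (4, 1/2)])])]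
    (1/2) [([(2, 1/2)], [(1, 1/2), (6, 1/2)]), ([(0, 1/6), (2, 1/3), (3, 1/6)], [(4, 1/2), (6, 1/2)]), ([(0, 1/3), (2, 1/6), (3, 1/3)], [(4, 3/4), (5, 1/4)]), ([(0, 1/2), (3, 1/2)], [(3, 1/2), (4, 1/2)])]
    (by decide +kernel)

theorem c_a23_0 (h : S_CERT) : Bary (unitP ++ P_a23) 0 (1) :=
  h _ _ _
    []
    (0) [([], [(2, 1)]), ([(1, 1)], [(6, 1)]), ([(4, 1)], [(4, 1)])]
    (by decide +kernel)

theorem c_a23_1 (h : S_CERT) : Bary (unitP ++ P_a23) 1 (1) :=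
  h _ _ _
    [(0, 1, [([], [(2, 1)]), ([(0, 1)], [(5, 1)])]),
      (1/2, 661/500, [([(1, 1/2)], [(2, 1/2), (6, 1/2)]), ([(0, 1/6), (1, 1/3), (3, 1/6)], [(5, 1/2), (6, 1/2)]), ([(0, 1/2), (3, 1/2)], [(3, 1/2), (5, 1/2)])]),
      (1, 707/500, [([(1, 1)], [(6, 1)]), ([(3, 1)], [(3, 1)])])]
    (1) [([(1, 1)], [(6, 1)]), ([(3, 1)], [(3, 1)])]
    (by decide +kernel)

theorem c_a23_2 (h : S_CERT) : Bary (unitP ++ P_a23) 2 (1) :=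
  h _ _ _
    [(0, 153/125, [([], [(1, 1)]), ([(0, 1)], [(1, 1/2), (3, 1/2)]), ([(3, 1)], [(3, 1)])]),
      (1/2, 707/500, [([(2, 1/2)], [(1, 1/2), (4, 1/2)]), ([(0, 1/2), (5, 1/2)], [(3, 1/2), (4, 1/2)]), ([(3, 1/2), (5, 1/2)], [(3, 3/4), (6, 1/4)])])]
    (1/2) [([(2, 1/2)], [(1, 1/2), (4, 1/2)]), ([(0, 1/2), (5, 1/2)], [(3, 1/2), (4, 1/2)]), ([(3, 1/2), (5, 1/2)], [(3, 3/4), (6, 1/4)])]
    (by decide +kernel)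

theorem c_a24_0 (h : S_CERT) : Bary (unitP ++ P_a24) 0 (1) :=
  h _ _ _
    [(0, 153/125, [([], [(2, 1)]), ([(1, 1)], [(2, 1/2), (5, 1/2)]), ([(5, 1)], [(5, 1)])]),
      (1/2, 707/500, [([(0, 1/2)], [(2, 1/2), (6, 1/2)]), ([(1, 1/2), (3, 1/2)], [(5, 1/2), (6, 1/2)]), ([(3, 1/2), (5, 1/2)], [(4, 1/4), (5, 3/4)])])]
    (1/2) [([(0, 1/2)], [(2, 1/2), (6, 1/2)]), ([(1, 1/2), (3, 1/2)], [(5, 1/2), (6, 1/2)]), ([(3, 1/2), (5, 1/2)], [(4, 1/4), (5, 3/4)])]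
    (by decide +kernel)

theorem c_a24_1 (h : S_CERT) : Bary (unitP ++ P_a24) 1 (1) :=
  h _ _ _
    []
    (0) [([], [(2, 1)]), ([(0, 1)], [(6, 1)]), ([(4, 1)], [(4, 1)])]
    (by decide +kernel)

theorem c_a24_2 (h : S_CERT) : Bary (unitP ++ P_a24) 2 (1) :=
  h _ _ _
    [(0, 1, [([], [(1, 1)]), ([(0, 1)], [(3, 1)])]),
      (1/2, 661/500, [([(2, 1/2)], [(1, 1/2), (5, 1/2)]), ([(0, 1/6), (2, 1/3), (4, 1/6)], [(3, 1/2), (5, 1/2)]), ([(0, 1/2), (4, 1/2)], [(3, 1/2), (4, 1/2)])]),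
      (1, 707/500, [([(2, 1)], [(5, 1)]), ([(4, 1)], [(4, 1)])])]
    (1) [([(2, 1)], [(5, 1)]), ([(4, 1)], [(4, 1)])]
    (by decide +kernel)

theorem c_a25_0 (h : S_CERT) : Bary (unitP ++ P_a25) 0 (1) :=
  h _ _ _
    [(0, 1, [([], [(4, 1)]), ([(1, 1)], [(1, 1)])]),
      (1/2, 661/500, [([(0, 1/2)], [(4, 1/2), (5, 1/2)]), ([(0, 1/6), (1, 1/3), (7, 1/3)], [(4, 1/2), (7, 1/2)]), ([(1, 1/2), (7, 1/2)], [(1, 1/2), (7, 1/2)])]),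
      (1, 707/500, [([(0, 1)], [(5, 1)]), ([(7, 1)], [(7, 1)])])]
    (1) [([(0, 1)], [(5, 1)]), ([(7, 1)], [(7, 1)])]
    (by decide +kernel)

theorem c_a25_1 (h : S_CERT) : Bary (unitP ++ P_a25) 1 (1) :=
  h _ _ _
    []
    (0) [([], [(4, 1)]), ([(0, 1)], [(5, 1)]), ([(3, 1)], [(3, 1)])]
    (by decide +kernel)

theorem c_a25_2 (h : S_CERT) : Bary (unitP ++ P_a25) 2 (1) :=
  h _ _ _
    [(0, 61/50, [([], [(1, 1)]), ([(0, 1)], [(7, 1)])]),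
      (1, 34/25, [([(2, 1)], [(1, 1/2), (4, 1/2)]), ([(2, 3/4), (3, 1/4)], [(4, 1/2), (7, 1/2)]), ([(3, 1)], [(6, 1)])])]
    (1) [([(2, 1)], [(1, 1/2), (4, 1/2)]), ([(2, 3/4), (3, 1/4)], [(4, 1/2), (7, 1/2)]), ([(3, 1)], [(6, 1)])]
    (by decide +kernel)

theorem c_a31_0 (h : S_CERT) : Bary (unitP ++ P_a31) 0 (1) :=
  h _ _ _
    []
    (0) [([], [(4, 1)]), ([(3, 1)], [(6, 1)])]
    (by decide +kernel)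

theorem c_a31_1 (h : S_CERT) : Bary (unitP ++ P_a31) 1 (1) :=
  h _ _ _
    []
    (0) [([], [(4, 1)]), ([(0, 1)], [(4, 1/2), (5, 1/2)]), ([(5, 1)], [(5, 1)])]
    (by decide +kernel)

theorem c_a31_2 (h : S_CERT) : Bary (unitP ++ P_a31) 2 (1) :=
  h _ _ _
    [(0, 1, [([], [(3, 1)]), ([(0, 1)], [(0, 1)])]),
      (1/2, 661/500, [([(2, 1/2)], [(3, 1/2), (6, 1/2)]), ([(0, 1/3), (2, 1/6), (5, 1/3)], [(3, 1/2), (5, 1/2)]), ([(0, 1/2), (5, 1/2)], [(0, 1/2), (5, 1/2)])]),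
      (1, 707/500, [([(2, 1)], [(6, 1)]), ([(5, 1)], [(5, 1)])])]
    (1) [([(2, 1)], [(6, 1)]), ([(5, 1)], [(5, 1)])]
    (by decide +kernel)

theorem c_a32_0 (h : S_CERT) : Bary (unitP ++ P_a32) 0 (1) :=
  h _ _ _
    []
    (0) [([], [(4, 1)]), ([(3, 1)], [(6, 1)])]
    (by decide +kernel)

theorem c_a32_1 (h : S_CERT) : Bary (unitP ++ P_a32) 1 (1) :=
  h _ _ _
    [(0, 707/500, [([], [(4, 1)]), ([(0, 1)], [(7, 1)])]),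
      (1/2, 1311/1000, [([(1, 1/2)], [(4, 3/4), (6, 1/4)]), ([(0, 9/16), (1, 1/8), (5, 3/16)], [(6, 1/4), (7, 3/4)]), ([(0, 3/4), (5, 1/4)], [(5, 1/4), (7, 3/4)])]),
      (1, 293/250, [([(1, 1)], [(4, 1/2), (6, 1/2)]), ([(0, 1/4), (1, 1/2), (5, 1/4)], [(6, 1/2), (7, 1/2)]), ([(0, 1/2), (5, 1/2)], [(5, 1/2), (7, 1/2)])]),
      (3/2, 123/125, [([(3, 3/4)], [(4, 1/4), (6, 3/4)]), ([(0, 1/16), (3, 9/16), (5, 3/16)], [(6, 3/4), (7, 1/4)]), ([(0, 1/4), (5, 3/4)], [(5, 3/4), (7, 1/4)])])]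
    (3/2) [([(3, 3/4)], [(4, 1/4), (6, 3/4)]), ([(0, 1/16), (3, 9/16), (5, 3/16)], [(6, 3/4), (7, 1/4)]), ([(0, 1/4), (5, 3/4)], [(5, 3/4), (7, 1/4)])]
    (by decide +kernel)

theorem c_a32_2 (h : S_CERT) : Bary (unitP ++ P_a32) 2 (1) :=
  h _ _ _
    [(0, 7/5, [([], [(3, 1)]), ([(0, 1)], [(5, 1)])]),
      (1, 61/50, [([(2, 1)], [(6, 1)]), ([(0, 1/2), (7, 1/2)], [(5, 1/2), (7, 1/2)])])]
    (1) [([(2, 1)], [(6, 1)]), ([(0, 1/2), (7, 1/2)], [(5, 1/2), (7, 1/2)])]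
    (by decide +kernel)

theorem c_a33_0 (h : S_CERT) : Bary (unitP ++ P_a33) 0 (1) :=
  h _ _ _
    [(0, 7/5, [([], [(4, 1)]), ([(3, 1)], [(3, 1)])]),
      (1, 61/50, [([(0, 1)], [(4, 1/2), (5, 1/2)]), ([(6, 1)], [(6, 1)])])]
    (1) [([(0, 1)], [(4, 1/2), (5, 1/2)]), ([(6, 1)], [(6, 1)])]
    (by decide +kernel)

theorem c_a33_1 (h : S_CERT) : Bary (unitP ++ P_a33) 1 (1) :=
  h _ _ _
    []
    (0) [([], [(4, 1)]), ([(0, 1)], [(4, 1/2), (5, 1/2)]), ([(5, 1)], [(5, 1)])]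
    (by decide +kernel)

theorem c_a33_2 (h : S_CERT) : Bary (unitP ++ P_a33) 2 (1) :=
  h _ _ _
    [(0, 1, [([], [(3, 1)]), ([(0, 1)], [(0, 1)])]),
      (1, 79/50, [([(2, 1)], [(3, 1/2), (4, 1/2)]), ([(2, 1/2), (5, 1/2)], [(6, 1)]), ([(5, 1)], [(5, 1)])])]
    (1) [([(2, 1)], [(3, 1/2), (4, 1/2)]), ([(2, 1/2), (5, 1/2)], [(6, 1)]), ([(5, 1)], [(5, 1)])]
    (by decide +kernel)

theorem c_a3W_0 (h : S_CERT) : Bary (unitP ++ P_a3W) 0 (3/4) :=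
  h _ _ _
    []
    (0) [([], [(4, 1)]), ([(6, 1)], [(6, 1)])]
    (by decide +kernel)

theorem c_a3W_1 (h : S_CERT) : Bary (unitP ++ P_a3W) 1 (3/2) :=
  h _ _ _
    []
    (0) [([], [(4, 1)]), ([(0, 1)], [(3, 1)])]
    (by decide +kernel)

theorem c_a3W_2 (h : S_CERT) : Bary (unitP ++ P_a3W) 2 (3/4) :=
  h _ _ _
    []
    (0) [([], [(6, 1)]), ([(0, 1)], [(5, 1)])]
    (by decide +kernel)

theorem c_a3Y_1 (h : S_CERT) : Bary (unitP ++ P_a3Y) 1 (1) :=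
  h _ _ _
    []
    (0) [([], [(3, 1)]), ([(0, 1)], [(3, 1/2), (4, 1/2)]), ([(4, 1)], [(4, 1)])]
    (by decide +kernel)

theorem c_b21_0 (h : S_CERT) : Bary (unitP ++ P_b21) 0 (1) :=
  h _ _ _
    [(0, 7/5, [([], [(2, 1)]), ([(3, 1)], [(5, 1)])]),
      (1/2, 71/50, [([(0, 1/2)], [(2, 1/2), (6, 1/2)]), ([(0, 1/2), (3, 1/2)], [(5, 1/2), (6, 1/2)]), ([(3, 3/4), (4, 1/4)], [(4, 1/4), (5, 3/4)])])]
    (1/2) [([(0, 1/2)], [(2, 1/2), (6, 1/2)]), ([(0, 1/2), (3, 1/2)], [(5, 1/2), (6, 1/2)]), ([(3, 3/4), (4, 1/4)], [(4, 1/4), (5, 3/4)])]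
    (by decide +kernel)

theorem c_b21_1 (h : S_CERT) : Bary (unitP ++ P_b21) 1 (1) :=
  h _ _ _
    []
    (0) [([], [(2, 1)]), ([(0, 1)], [(6, 1)]), ([(4, 1)], [(4, 1)])]
    (by decide +kernel)

theorem c_b21_2 (h : S_CERT) : Bary (unitP ++ P_b21) 2 (1) :=
  h _ _ _
    [(0, 1, [([], [(3, 1)]), ([(0, 1)], [(0, 1)])]),
      (1/2, 661/500, [([(2, 1/2)], [(3, 1/2), (5, 1/2)]), ([(0, 1/3), (2, 1/6), (4, 1/3)], [(3, 1/2), (4, 1/2)]), ([(0, 1/2), (4, 1/2)], [(0, 1/2), (4, 1/2)])]),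
      (1, 707/500, [([(2, 1)], [(5, 1)]), ([(4, 1)], [(4, 1)])])]
    (1) [([(2, 1)], [(5, 1)]), ([(4, 1)], [(4, 1)])]
    (by decide +kernel)

theorem c_b22_0 (h : S_CERT) : Bary (unitP ++ P_b22) 0 (1) :=
  h _ _ _
    []
    (0) [([], [(2, 1)]), ([(3, 1/2)], [(6, 1)]), ([(3, 1)], [(5, 1)])]
    (by decide +kernel)

theorem c_b22_1 (h : S_CERT) : Bary (unitP ++ P_b22) 1 (1) :=
  h _ _ _
    [(0, 61/50, [([], [(2, 1)]), ([(0, 1)], [(2, 1/2), (4, 1/2)]), ([(4, 1)], [(4, 1)])]),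
      (1, 34/25, [([(1, 1)], [(6, 1)]), ([(0, 1/2), (3, 1/2)], [(6, 1/2), (7, 1/2)]), ([(3, 1/2), (4, 1/2)], [(7, 1)])])]
    (1) [([(1, 1)], [(6, 1)]), ([(0, 1/2), (3, 1/2)], [(6, 1/2), (7, 1/2)]), ([(3, 1/2), (4, 1/2)], [(7, 1)])]
    (by decide +kernel)

theorem c_b22_2 (h : S_CERT) : Bary (unitP ++ P_b22) 2 (1) :=
  h _ _ _
    [(0, 1, [([], [(3, 1)]), ([(0, 1)], [(0, 1)])]),
      (1/2, 661/500, [([(2, 1/2)], [(3, 1/2), (5, 1/2)]), ([(0, 1/3), (2, 1/6), (4, 1/3)], [(3, 1/2), (4, 1/2)]), ([(0, 1/2), (4, 1/2)], [(0, 1/2), (4, 1/2)])]),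
      (1, 707/500, [([(2, 1)], [(5, 1)]), ([(4, 1)], [(4, 1)])])]
    (1) [([(2, 1)], [(5, 1)]), ([(4, 1)], [(4, 1)])]
    (by decide +kernel)

theorem c_b2W_0 (h : S_CERT) : Bary (unitP ++ P_b2W) 0 (3/4) :=
  h _ _ _
    [(0, 79/50, [([], [(2, 1)]), ([(4, 2/3)], [(5, 1)]), ([(4, 1)], [(4, 1)])]),
      (1, 7/5, [([(0, 1)], [(3, 1)]), ([(6, 1)], [(6, 1)])])]
    (1) [([(0, 1)], [(3, 1)]), ([(6, 1)], [(6, 1)])]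
    (by decide +kernel)

theorem c_b2W_1 (h : S_CERT) : Bary (unitP ++ P_b2W) 1 (5/4) :=
  h _ _ _
    [(0, 153/125, [([], [(2, 1)]), ([(0, 1)], [(3, 1)])]),
      (1/2, 1203/1000, [([(1, 1/2)], [(2, 3/4), (5, 1/4)]), ([(0, 3/4), (1, 1/20), (4, 3/20)], [(3, 3/4), (5, 1/4)]), ([(0, 5/6), (4, 1/6)], [(3, 3/4), (5, 1/6), (6, 1/12)]), ([(0, 3/4), (6, 1/4)], [(3, 3/4), (6, 1/4)])]),
      (1, 142/125, [([(1, 1)], [(2, 1/2), (5, 1/2)]), ([(0, 1/2), (1, 1/4), (4, 1/4)], [(3, 1/2), (5, 1/2)]), ([(0, 2/3), (4, 1/3)], [(3, 1/2), (5, 1/3), (6, 1/6)]), ([(0, 1/2), (6, 1/2)], [(3, 1/2), (6, 1/2)])])]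
    (1) [([(1, 1)], [(2, 1/2), (5, 1/2)]), ([(0, 1/2), (1, 1/4), (4, 1/4)], [(3, 1/2), (5, 1/2)]), ([(0, 2/3), (4, 1/3)], [(3, 1/2), (5, 1/3), (6, 1/6)]), ([(0, 1/2), (6, 1/2)], [(3, 1/2), (6, 1/2)])]
    (by decide +kernel)

theorem c_b2W_2 (h : S_CERT) : Bary (unitP ++ P_b2W) 2 (7/8) :=
  h _ _ _
    [(0, 61/50, [([], [(4, 1)]), ([(0, 1)], [(0, 1)])]),
      (1/2, 36/25, [([(2, 1/2)], [(4, 1/2), (5, 1/2)]), ([(0, 3/8), (2, 1/4), (3, 1/8)], [(4, 1/2), (6, 1/2)]), ([(0, 3/4), (3, 1/4)], [(0, 1/2), (6, 1/2)])]),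
      (1, 7/5, [([(2, 1)], [(5, 1)]), ([(0, 1/2), (3, 1/2)], [(6, 1)])])]
    (1) [([(2, 1)], [(5, 1)]), ([(0, 1/2), (3, 1/2)], [(6, 1)])]
    (by decide +kernel)

theorem c_b2Y_1 (h : S_CERT) : Bary (unitP ++ P_b2Y) 1 (1) :=
  h _ _ _
    []
    (0) [([], [(2, 1)]), ([(0, 1)], [(2, 2/3), (3, 1/3)]), ([(3, 1)], [(3, 1)])]
    (by decide +kernel)

theorem c_b3W_0 (h : S_CERT) : Bary (unitP ++ P_b3W) 0 (1/2) :=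
  h _ _ _
    [(0, 2, [([], [(3, 1)]), ([(4, 1)], [(4, 1)])]),
      (1/2, 43/25, [([(0, 1/2)], [(0, 1/2), (3, 1/2)]), ([(0, 1/4), (4, 1/4), (5, 1/4)], [(3, 1/2), (5, 1/2)]), ([(4, 1/2), (5, 1/2)], [(4, 1/2), (5, 1/2)])])]
    (1/2) [([(0, 1/2)], [(0, 1/2), (3, 1/2)]), ([(0, 1/4), (4, 1/4), (5, 1/4)], [(3, 1/2), (5, 1/2)]), ([(4, 1/2), (5, 1/2)], [(4, 1/2), (5, 1/2)])]
    (by decide +kernel)

theorem c_b3W_1 (h : S_CERT) : Bary (unitP ++ P_b3W) 1 (37/20) :=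
  h _ _ _
    [(0, 1, [([], [(3, 1)]), ([(0, 1)], [(0, 1)])]),
      (1, 121/125, [([(1, 1)], [(3, 3/4), (4, 1/4)]), ([(0, 3/16), (1, 3/4), (5, 1/16)], [(3, 3/4), (5, 1/4)]), ([(0, 3/4), (5, 1/4)], [(0, 3/4), (5, 1/4)])]),
      (2, 433/500, [([(4, 1/2)], [(3, 1/2), (4, 1/2)]), ([(0, 1/4), (4, 1/4), (5, 1/4)], [(3, 1/2), (5, 1/2)]), ([(0, 1/2), (5, 1/2)], [(0, 1/2), (5, 1/2)])])]
    (2) [([(4, 1/2)], [(3, 1/2), (4, 1/2)]), ([(0, 1/4), (4, 1/4), (5, 1/4)], [(3, 1/2), (5, 1/2)]), ([(0, 1/2), (5, 1/2)], [(0, 1/2), (5, 1/2)])]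
    (by decide +kernel)

theorem c_b3W_2 (h : S_CERT) : Bary (unitP ++ P_b3W) 2 (23/40) :=
  h _ _ _
    []
    (0) [([], [(4, 1)]), ([(0, 1)], [(5, 1)])]
    (by decide +kernel)

theorem c_b3Y_1 (h : S_CERT) : Bary (unitP ++ P_b3Y) 1 (1) :=
  h _ _ _
    []
    (0) [([], [(2, 1)]), ([(0, 1)], [(2, 2/3), (3, 1/3)]), ([(3, 1)], [(3, 1)])]
    (by decide +kernel)

theorem c_eZ_0 (h : S_CERT) : Bary (unitP ++ P_eZ) 0 (1) :=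
  h _ _ _
    []
    (0) [([], [(4, 1)]), ([(1, 1)], [(3, 1)])]
    (by decide +kernel)

theorem c_eZ_1 (h : S_CERT) : Bary (unitP ++ P_eZ) 1 (1) :=
  h _ _ _
    []
    (0) [([], [(4, 1)]), ([(0, 1)], [(5, 1)])]
    (by decide +kernel)

theorem c_eY_0 (h : S_CERT) : Bary (unitP ++ P_eY) 0 (1) :=
  h _ _ _
    []
    (0) [([], [(2, 1)]), ([(3, 1)], [(3, 1)])]
    (by decide +kernel)

theorem c_eY_2 (h : S_CERT) : Bary (unitP ++ P_eY) 2 (1) :=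
  h _ _ _
    []
    (0) [([], [(3, 1)]), ([(0, 1)], [(0, 1)])]
    (by decide +kernel)

theorem c_eT_1 (h : S_CERT) : Bary P_eT 1 (1) :=
  h _ _ _
    []
    (0) [([], []), ([(0, 1)], [(1, 1)])]
    (by decide +kernel)

theorem c_eT_2 (h : S_CERT) : Bary P_eT 2 (1) :=
  h _ _ _
    []
    (0) [([], []), ([(0, 1/6)], [(2, 1)]), ([(0, 1)], [(0, 1)])]
    (by decide +kernel)

theorem c_eP0_0 (h : S_CERT) : Bary P_eP0 0 (6) :=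
  h _ _ _
    [(0, 0, [([], [])]),
      (1, 36/125, [([(0, 1)], [(3, 1/4)]), ([(2, 1/3)], [(2, 1/3)])]),
      (2, 483/1000, [([(0, 4/5), (5, 1/5)], [(3, 1/2)]), ([(1, 1)], [(2, 1/2), (3, 1/8)]), ([(2, 2/3)], [(2, 2/3)])]),
      (3, 591/1000, [([(0, 3/5), (5, 2/5)], [(3, 3/4)]), ([(2, 1)], [(2, 1)])]),
      (4, 79/125, [([(0, 2/5), (5, 3/5)], [(3, 1)]), ([(2, 4/5), (8, 1/5)], [(2, 4/5), (8, 1/5)])]),
      (5, 79/125, [([(0, 1/5), (5, 4/5)], [(3, 4/5), (9, 1/5)]), ([(2, 3/5), (8, 2/5)], [(2, 3/5), (8, 2/5)])]),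
      (6, 79/125, [([(5, 1)], [(3, 3/5), (9, 2/5)]), ([(2, 2/5), (8, 3/5)], [(2, 2/5), (8, 3/5)])])]
    (6) [([(5, 1)], [(3, 3/5), (9, 2/5)]), ([(2, 2/5), (8, 3/5)], [(2, 2/5), (8, 3/5)])]
    (by decide +kernel)

theorem c_eP0_1 (h : S_CERT) : Bary P_eP0 1 (1) :=
  h _ _ _
    []
    (0) [([], []), ([(0, 1)], [(3, 1/4)]), ([(0, 2/5), (5, 3/5)], [(3, 1)]), ([(5, 1)], [(3, 3/5), (9, 2/5)]), ([(5, 1/4), (10, 3/4)], [(9, 1)]), ([(10, 1)], [(10, 1)])]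
    (by decide +kernel)

theorem c_eP0_2 (h : S_CERT) : Bary P_eP0 2 (1) :=
  h _ _ _
    [(0, 1, [([], []), ([(0, 1)], [(2, 1/3)]), ([(2, 1)], [(2, 1)])]),
      (1/2, 661/500, [([(3, 1/2)], [(3, 1/2)]), ([(0, 1/2), (5, 1/2)], [(2, 1/2), (3, 1/2)]), ([(2, 1/2), (8, 1/2)], [(2, 1/2), (8, 1/2)])]),
      (1, 707/500, [([(3, 1)], [(3, 1)]), ([(5, 1)], [(3, 1/2), (8, 1/2)]), ([(8, 1)], [(8, 1)])])]
    (1) [([(3, 1)], [(3, 1)]), ([(5, 1)], [(3, 1/2), (8, 1/2)]), ([(8, 1)], [(8, 1)])]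
    (by decide +kernel)

theorem c_eP1_0 (h : S_CERT) : Bary P_eP1 0 (6) :=
  h _ _ _
    [(0, 0, [([], [])]),
      (1, 7/25, [([(0, 1)], [(3, 1/4)]), ([(2, 1/3)], [(2, 1/3)])]),
      (2, 12/25, [([(0, 4/5), (5, 1/5)], [(3, 1/2)]), ([(1, 1)], [(2, 1/2), (3, 1/8)]), ([(2, 2/3)], [(2, 2/3)])]),
      (3, 29/50, [([(0, 3/5), (5, 2/5)], [(3, 3/4)]), ([(2, 1)], [(2, 1)])]),
      (4, 16/25, [([(0, 2/5), (5, 3/5)], [(3, 1)]), ([(2, 5/6), (9, 1/6)], [(2, 5/6), (9, 1/6)])]),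
      (5, 17/25, [([(0, 1/5), (5, 4/5)], [(4, 1)]), ([(0, 13/70), (2, 1/21), (5, 26/35), (9, 1/42)], [(3, 5/6), (10, 1/6)]), ([(2, 2/3), (9, 1/3)], [(2, 2/3), (9, 1/3)])])]
    (5) [([(0, 1/5), (5, 4/5)], [(4, 1)]), ([(0, 13/70), (2, 1/21), (5, 26/35), (9, 1/42)], [(3, 5/6), (10, 1/6)]), ([(2, 2/3), (9, 1/3)], [(2, 2/3), (9, 1/3)])]
    (by decide +kernel)

theorem c_eP1_1 (h : S_CERT) : Bary P_eP1 1 (1) :=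
  h _ _ _
    [(0, 61/50, [([], []), ([(0, 1)], [(3, 1/4)]), ([(0, 2/5), (5, 3/5)], [(3, 1)]), ([(5, 1)], [(5, 1)])]),
      (1/2, 69/50, [([(2, 1/4)], [(2, 1/4)]), ([(0, 1/2), (1, 1/2)], [(2, 1/4), (3, 3/16)]), ([(0, 11/40), (1, 11/40), (5, 9/40), (7, 9/40)], [(2, 1/4), (3, 3/4)]), ([(5, 1/2), (7, 1/2)], [(2, 1/26), (3, 7/13), (10, 11/26)]), ([(5, 1/2), (7, 1/3), (10, 1/6)], [(3, 1/2), (10, 1/2)]), ([(5, 1/2), (10, 1/2)], [(5, 1/2), (10, 1/2)])]),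
      (1, 63/50, [([(2, 1/2)], [(2, 1/2)]), ([(1, 1)], [(2, 1/2), (3, 1/8)]), ([(1, 7/10), (7, 3/10)], [(2, 1/2), (3, 1/2)]), ([(7, 1)], [(2, 3/13), (3, 3/13), (10, 7/13)]), ([(10, 1)], [(10, 1)])])]
    (1) [([(2, 1/2)], [(2, 1/2)]), ([(1, 1)], [(2, 1/2), (3, 1/8)]), ([(1, 7/10), (7, 3/10)], [(2, 1/2), (3, 1/2)]), ([(7, 1)], [(2, 3/13), (3, 3/13), (10, 7/13)]), ([(10, 1)], [(10, 1)])]
    (by decide +kernel)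

theorem c_eP1_2 (h : S_CERT) : Bary P_eP1 2 (1) :=
  h _ _ _
    [(0, 1, [([], []), ([(0, 1)], [(2, 1/3)]), ([(2, 1)], [(2, 1)])]),
      (1, 43/25, [([(3, 1)], [(3, 1)]), ([(5, 1)], [(3, 3/5), (9, 2/5)]), ([(9, 1)], [(9, 1)])])]
    (1) [([(3, 1)], [(3, 1)]), ([(5, 1)], [(3, 3/5), (9, 2/5)]), ([(9, 1)], [(9, 1)])]
    (by decide +kernel)

theorem c_eL9a_1 (h : S_CERT) : Bary P_eL9a 1 (1) :=
  h _ _ _
    []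
    (0) [([], []), ([(0, 1/6)], [(2, 1)]), ([(0, 1)], [(0, 1)])]
    (by decide +kernel)

theorem c_eL9a_2 (h : S_CERT) : Bary P_eL9a 2 (1) :=
  h _ _ _
    []
    (0) [([], []), ([(0, 1/9)], [(1, 1)]), ([(0, 1)], [(0, 1)])]
    (by decide +kernel)

theorem c_eL9b_1 (h : S_CERT) : Bary P_eL9b 1 (1) :=
  h _ _ _
    []
    (0) [([], []), ([(0, 1/3)], [(2, 1)]), ([(0, 1)], [(0, 1)])]
    (by decide +kernel)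

theorem c_eL9b_2 (h : S_CERT) : Bary P_eL9b 2 (1) :=
  h _ _ _
    []
    (0) [([], []), ([(0, 1/9)], [(1, 1)]), ([(0, 1)], [(0, 1)])]
    (by decide +kernel)

theorem c_eL10a_1 (h : S_CERT) : Bary P_eL10a 1 (1) :=
  h _ _ _
    []
    (0) [([], []), ([(0, 3/20)], [(2, 1)]), ([(0, 1)], [(0, 1)])]
    (by decide +kernel)

theorem c_eL10a_2 (h : S_CERT) : Bary P_eL10a 2 (1) :=
  h _ _ _
    []
    (0) [([], []), ([(0, 1/10)], [(1, 1)]), ([(0, 1)], [(0, 1)])]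
    (by decide +kernel)

theorem c_eL10b_1 (h : S_CERT) : Bary P_eL10b 1 (1) :=
  h _ _ _
    []
    (0) [([], []), ([(0, 3/10)], [(2, 1)]), ([(0, 1)], [(0, 1)])]
    (by decide +kernel)

theorem c_eL10b_2 (h : S_CERT) : Bary P_eL10b 2 (1) :=
  h _ _ _
    []
    (0) [([], []), ([(0, 1/10)], [(1, 1)]), ([(0, 1)], [(0, 1)])]
    (by decide +kernel)

theorem c_eS3_1 (h : S_CERT) : Bary P_eS3 1 (1) :=
  h _ _ _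
    []
    (0) [([], []), ([(0, 1/6)], [(3, 1)]), ([(0, 1)], [(0, 1)])]
    (by decide +kernel)

theorem c_eS3_2 (h : S_CERT) : Bary P_eS3 2 (1) :=
  h _ _ _
    []
    (0) [([], []), ([(0, 1)], [(1, 1)]), ([(2, 1)], [(2, 1)])]
    (by decide +kernel)

theorem c_eS4_1 (h : S_CERT) : Bary P_eS4 1 (1) :=
  h _ _ _
    []
    (0) [([], []), ([(0, 1/6)], [(3, 1)]), ([(0, 1)], [(0, 1)])]
    (by decide +kernel)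

theorem c_eS4_2 (h : S_CERT) : Bary P_eS4 2 (1) :=
  h _ _ _
    []
    (0) [([], []), ([(0, 1)], [(1, 1)]), ([(2, 1)], [(2, 1)])]
    (by decide +kernel)

theorem c_b1000_0 (h : S_CERT) : Bary (unitP ++ P_b1000) 0 (1) :=
  h _ _ _
    [(0, 1, [([], [(2, 1)]), ([(1, 1)], [(4, 1)])]),
      (1/2, 661/500, [([(0, 1/2)], [(2, 1/2), (9, 1/2)]), ([(0, 1/3), (1, 1/6), (8, 1/6)], [(4, 1/2), (9, 1/2)]), ([(1, 1/2), (8, 1/2)], [(4, 1/2), (8, 1/2)])]),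
      (1, 707/500, [([(0, 1)], [(9, 1)]), ([(8, 1)], [(8, 1)])])]
    (1) [([(0, 1)], [(9, 1)]), ([(8, 1)], [(8, 1)])]
    (by decide +kernel)

theorem c_b1000_1 (h : S_CERT) : Bary (unitP ++ P_b1000) 1 (1) :=
  h _ _ _
    [(0, 153/125, [([], [(2, 1)]), ([(0, 1)], [(9, 1)])]),
      (1/2, 707/500, [([(1, 1/2)], [(2, 1/2), (4, 1/2)]), ([(0, 1/6), (1, 1/3), (7, 1/6)], [(4, 1/2), (9, 1/2)]), ([(0, 1/3), (1, 1/6), (7, 1/3)], [(6, 1/2), (9, 1/2)]), ([(0, 1/2), (7, 1/2)], [(7, 1/2), (9, 1/2)])])]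
    (1/2) [([(1, 1/2)], [(2, 1/2), (4, 1/2)]), ([(0, 1/6), (1, 1/3), (7, 1/6)], [(4, 1/2), (9, 1/2)]), ([(0, 1/3), (1, 1/6), (7, 1/3)], [(6, 1/2), (9, 1/2)]), ([(0, 1/2), (7, 1/2)], [(7, 1/2), (9, 1/2)])]
    (by decide +kernel)

theorem c_b1000_2 (h : S_CERT) : Bary (unitP ++ P_b1000) 2 (1) :=
  h _ _ _
    []
    (0) [([], [(1, 1)]), ([(0, 1)], [(8, 1)]), ([(7, 1)], [(7, 1)])]
    (by decide +kernel)

theorem c_b1001_0 (h : S_CERT) : Bary (unitP ++ P_b1001) 0 (1) :=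
  h _ _ _
    [(0, 153/125, [([], [(2, 1)]), ([(1, 1)], [(9, 1)])]),
      (1/2, 707/500, [([(0, 1/2)], [(2, 1/2), (3, 1/2)]), ([(0, 1/3), (1, 1/6), (8, 1/6)], [(3, 1/2), (9, 1/2)]), ([(0, 1/6), (1, 1/3), (8, 1/3)], [(6, 1/2), (9, 1/2)]), ([(1, 1/2), (8, 1/2)], [(8, 1/2), (9, 1/2)])])]
    (1/2) [([(0, 1/2)], [(2, 1/2), (3, 1/2)]), ([(0, 1/3), (1, 1/6), (8, 1/6)], [(3, 1/2), (9, 1/2)]), ([(0, 1/6), (1, 1/3), (8, 1/3)], [(6, 1/2), (9, 1/2)]), ([(1, 1/2), (8, 1/2)], [(8, 1/2), (9, 1/2)])]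
    (by decide +kernel)

theorem c_b1001_1 (h : S_CERT) : Bary (unitP ++ P_b1001) 1 (1) :=
  h _ _ _
    [(0, 1, [([], [(2, 1)]), ([(0, 1)], [(3, 1)])]),
      (1/2, 661/500, [([(1, 1/2)], [(2, 1/2), (9, 1/2)]), ([(0, 1/6), (1, 1/3), (7, 1/6)], [(3, 1/2), (9, 1/2)]), ([(0, 1/2), (7, 1/2)], [(3, 1/2), (7, 1/2)])]),
      (1, 707/500, [([(1, 1)], [(9, 1)]), ([(7, 1)], [(7, 1)])])]
    (1) [([(1, 1)], [(9, 1)]), ([(7, 1)], [(7, 1)])]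
    (by decide +kernel)

theorem c_b1001_2 (h : S_CERT) : Bary (unitP ++ P_b1001) 2 (1) :=
  h _ _ _
    []
    (0) [([], [(1, 1)]), ([(0, 1)], [(8, 1)]), ([(7, 1)], [(7, 1)])]
    (by decide +kernel)

theorem c_b1010_0 (h : S_CERT) : Bary (unitP ++ P_b1010) 0 (1) :=
  h _ _ _
    [(0, 61/50, [([], [(2, 1)]), ([(1, 1)], [(2, 1/2), (8, 1/2)]), ([(8, 1)], [(8, 1)])]),
      (1/2, 71/50, [([(0, 1/2)], [(2, 1/2), (9, 1/2)]), ([(1, 1/2), (5, 1/2)], [(8, 1/2), (9, 1/2)]), ([(7, 1/4), (8, 3/4)], [(7, 1/4), (8, 3/4)])])]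
    (1/2) [([(0, 1/2)], [(2, 1/2), (9, 1/2)]), ([(1, 1/2), (5, 1/2)], [(8, 1/2), (9, 1/2)]), ([(7, 1/4), (8, 3/4)], [(7, 1/4), (8, 3/4)])]
    (by decide +kernel)

theorem c_b1010_1 (h : S_CERT) : Bary (unitP ++ P_b1010) 1 (1) :=
  h _ _ _
    [(0, 61/50, [([], [(2, 1)]), ([(0, 1)], [(9, 1)])]),
      (1/2, 71/50, [([(1, 1/2)], [(2, 1/2), (4, 1/2)]), ([(0, 1/4), (1, 1/4), (7, 1/4)], [(8, 1/4), (9, 3/4)]), ([(0, 1/2), (7, 1/2)], [(7, 1/2), (9, 1/2)])])]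
    (1/2) [([(1, 1/2)], [(2, 1/2), (4, 1/2)]), ([(0, 1/4), (1, 1/4), (7, 1/4)], [(8, 1/4), (9, 3/4)]), ([(0, 1/2), (7, 1/2)], [(7, 1/2), (9, 1/2)])]
    (by decide +kernel)

theorem c_b1010_2 (h : S_CERT) : Bary (unitP ++ P_b1010) 2 (1) :=
  h _ _ _
    [(0, 61/50, [([], [(1, 1)]), ([(0, 1)], [(1, 1/2), (7, 1/2)]), ([(7, 1)], [(7, 1)])]),
      (1/2, 71/50, [([(2, 1/2)], [(1, 1/2), (8, 1/2)]), ([(0, 1/2), (3, 1/2)], [(7, 1/2), (8, 1/2)]), ([(7, 3/4), (9, 1/4)], [(7, 3/4), (9, 1/4)])])]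
    (1/2) [([(2, 1/2)], [(1, 1/2), (8, 1/2)]), ([(0, 1/2), (3, 1/2)], [(7, 1/2), (8, 1/2)]), ([(7, 3/4), (9, 1/4)], [(7, 3/4), (9, 1/4)])]
    (by decide +kernel)

theorem c_b1011_0 (h : S_CERT) : Bary (unitP ++ P_b1011) 0 (1) :=
  h _ _ _
    []
    (0) [([], [(2, 1)]), ([(1, 1)], [(9, 1)]), ([(8, 1)], [(8, 1)])]
    (by decide +kernel)

theorem c_b1011_1 (h : S_CERT) : Bary (unitP ++ P_b1011) 1 (1) :=
  h _ _ _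
    [(0, 1, [([], [(2, 1)]), ([(0, 1)], [(3, 1)])]),
      (1/2, 661/500, [([(1, 1/2)], [(2, 1/2), (9, 1/2)]), ([(0, 1/6), (1, 1/3), (7, 1/6)], [(3, 1/2), (9, 1/2)]), ([(0, 1/2), (7, 1/2)], [(3, 1/2), (7, 1/2)])]),
      (1, 707/500, [([(1, 1)], [(9, 1)]), ([(7, 1)], [(7, 1)])])]
    (1) [([(1, 1)], [(9, 1)]), ([(7, 1)], [(7, 1)])]
    (by decide +kernel)

theorem c_b1011_2 (h : S_CERT) : Bary (unitP ++ P_b1011) 2 (1) :=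
  h _ _ _
    [(0, 153/125, [([], [(1, 1)]), ([(0, 1)], [(1, 1/2), (7, 1/2)]), ([(7, 1)], [(7, 1)])]),
      (1/2, 707/500, [([(2, 1/2)], [(1, 1/2), (8, 1/2)]), ([(0, 1/2), (3, 1/2)], [(7, 1/2), (8, 1/2)]), ([(3, 1/2), (7, 1/2)], [(6, 1/2), (7, 1/2)])])]
    (1/2) [([(2, 1/2)], [(1, 1/2), (8, 1/2)]), ([(0, 1/2), (3, 1/2)], [(7, 1/2), (8, 1/2)]), ([(3, 1/2), (7, 1/2)], [(6, 1/2), (7, 1/2)])]
    (by decide +kernel)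

theorem c_b1100_0 (h : S_CERT) : Bary (unitP ++ P_b1100) 0 (1) :=
  h _ _ _
    [(0, 1, [([], [(2, 1)]), ([(1, 1)], [(4, 1)])]),
      (1/2, 661/500, [([(0, 1/2)], [(2, 1/2), (9, 1/2)]), ([(0, 1/3), (1, 1/6), (8, 1/6)], [(4, 1/2), (9, 1/2)]), ([(1, 1/2), (8, 1/2)], [(4, 1/2), (8, 1/2)])]),
      (1, 707/500, [([(0, 1)], [(9, 1)]), ([(8, 1)], [(8, 1)])])]
    (1) [([(0, 1)], [(9, 1)]), ([(8, 1)], [(8, 1)])]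
    (by decide +kernel)

theorem c_b1100_1 (h : S_CERT) : Bary (unitP ++ P_b1100) 1 (1) :=
  h _ _ _
    []
    (0) [([], [(2, 1)]), ([(0, 1)], [(9, 1)]), ([(7, 1)], [(7, 1)])]
    (by decide +kernel)

theorem c_b1100_2 (h : S_CERT) : Bary (unitP ++ P_b1100) 2 (1) :=
  h _ _ _
    [(0, 153/125, [([], [(1, 1)]), ([(0, 1)], [(8, 1)])]),
      (1/2, 707/500, [([(2, 1/2)], [(1, 1/2), (4, 1/2)]), ([(0, 1/6), (2, 1/3), (7, 1/6)], [(4, 1/2), (8, 1/2)]), ([(0, 1/3), (2, 1/6), (7, 1/3)], [(6, 1/2), (8, 1/2)]), ([(0, 1/2), (7, 1/2)], [(7, 1/2), (8, 1/2)])])]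
    (1/2) [([(2, 1/2)], [(1, 1/2), (4, 1/2)]), ([(0, 1/6), (2, 1/3), (7, 1/6)], [(4, 1/2), (8, 1/2)]), ([(0, 1/3), (2, 1/6), (7, 1/3)], [(6, 1/2), (8, 1/2)]), ([(0, 1/2), (7, 1/2)], [(7, 1/2), (8, 1/2)])]
    (by decide +kernel)

theorem c_b1101_0 (h : S_CERT) : Bary (unitP ++ P_b1101) 0 (1) :=
  h _ _ _
    [(0, 61/50, [([], [(2, 1)]), ([(1, 1)], [(9, 1)])]),
      (1/2, 71/50, [([(0, 1/2)], [(2, 1/2), (3, 1/2)]), ([(0, 1/4), (1, 1/4), (8, 1/4)], [(7, 1/4), (9, 3/4)]), ([(1, 1/2), (8, 1/2)], [(8, 1/2), (9, 1/2)])])]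
    (1/2) [([(0, 1/2)], [(2, 1/2), (3, 1/2)]), ([(0, 1/4), (1, 1/4), (8, 1/4)], [(7, 1/4), (9, 3/4)]), ([(1, 1/2), (8, 1/2)], [(8, 1/2), (9, 1/2)])]
    (by decide +kernel)

theorem c_b1101_1 (h : S_CERT) : Bary (unitP ++ P_b1101) 1 (1) :=
  h _ _ _
    [(0, 61/50, [([], [(2, 1)]), ([(0, 1)], [(2, 1/2), (7, 1/2)]), ([(7, 1)], [(7, 1)])]),
      (1/2, 71/50, [([(1, 1/2)], [(2, 1/2), (9, 1/2)]), ([(0, 1/2), (5, 1/2)], [(7, 1/2), (9, 1/2)]), ([(7, 3/4), (8, 1/4)], [(7, 3/4), (8, 1/4)])])]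
    (1/2) [([(1, 1/2)], [(2, 1/2), (9, 1/2)]), ([(0, 1/2), (5, 1/2)], [(7, 1/2), (9, 1/2)]), ([(7, 3/4), (8, 1/4)], [(7, 3/4), (8, 1/4)])]
    (by decide +kernel)

theorem c_b1101_2 (h : S_CERT) : Bary (unitP ++ P_b1101) 2 (1) :=
  h _ _ _
    [(0, 61/50, [([], [(1, 1)]), ([(0, 1)], [(8, 1)])]),
      (1/2, 71/50, [([(2, 1/2)], [(1, 1/2), (4, 1/2)]), ([(0, 1/4), (2, 1/4), (7, 1/4)], [(8, 3/4), (9, 1/4)]), ([(0, 1/2), (7, 1/2)], [(7, 1/2), (8, 1/2)])])]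
    (1/2) [([(2, 1/2)], [(1, 1/2), (4, 1/2)]), ([(0, 1/4), (2, 1/4), (7, 1/4)], [(8, 3/4), (9, 1/4)]), ([(0, 1/2), (7, 1/2)], [(7, 1/2), (8, 1/2)])]
    (by decide +kernel)

theorem c_b1110_0 (h : S_CERT) : Bary (unitP ++ P_b1110) 0 (1) :=
  h _ _ _
    [(0, 153/125, [([], [(2, 1)]), ([(1, 1)], [(2, 1/2), (8, 1/2)]), ([(8, 1)], [(8, 1)])]),
      (1/2, 707/500, [([(0, 1/2)], [(2, 1/2), (9, 1/2)]), ([(1, 1/2), (5, 1/2)], [(8, 1/2), (9, 1/2)]), ([(5, 1/2), (8, 1/2)], [(6, 1/2), (8, 1/2)])])]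
    (1/2) [([(0, 1/2)], [(2, 1/2), (9, 1/2)]), ([(1, 1/2), (5, 1/2)], [(8, 1/2), (9, 1/2)]), ([(5, 1/2), (8, 1/2)], [(6, 1/2), (8, 1/2)])]
    (by decide +kernel)

theorem c_b1110_1 (h : S_CERT) : Bary (unitP ++ P_b1110) 1 (1) :=
  h _ _ _
    []
    (0) [([], [(2, 1)]), ([(0, 1)], [(9, 1)]), ([(7, 1)], [(7, 1)])]
    (by decide +kernel)

theorem c_b1110_2 (h : S_CERT) : Bary (unitP ++ P_b1110) 2 (1) :=
  h _ _ _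
    [(0, 1, [([], [(1, 1)]), ([(0, 1)], [(5, 1)])]),
      (1/2, 661/500, [([(2, 1/2)], [(1, 1/2), (8, 1/2)]), ([(0, 1/6), (2, 1/3), (7, 1/6)], [(5, 1/2), (8, 1/2)]), ([(0, 1/2), (7, 1/2)], [(5, 1/2), (7, 1/2)])]),
      (1, 707/500, [([(2, 1)], [(8, 1)]), ([(7, 1)], [(7, 1)])])]
    (1) [([(2, 1)], [(8, 1)]), ([(7, 1)], [(7, 1)])]
    (by decide +kernel)

theorem c_b1111_0 (h : S_CERT) : Bary (unitP ++ P_b1111) 0 (1) :=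
  h _ _ _
    []
    (0) [([], [(2, 1)]), ([(1, 1)], [(9, 1)]), ([(8, 1)], [(8, 1)])]
    (by decide +kernel)

theorem c_b1111_1 (h : S_CERT) : Bary (unitP ++ P_b1111) 1 (1) :=
  h _ _ _
    [(0, 153/125, [([], [(2, 1)]), ([(0, 1)], [(2, 1/2), (7, 1/2)]), ([(7, 1)], [(7, 1)])]),
      (1/2, 707/500, [([(1, 1/2)], [(2, 1/2), (9, 1/2)]), ([(0, 1/2), (5, 1/2)], [(7, 1/2), (9, 1/2)]), ([(5, 1/2), (7, 1/2)], [(6, 1/2), (7, 1/2)])])]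
    (1/2) [([(1, 1/2)], [(2, 1/2), (9, 1/2)]), ([(0, 1/2), (5, 1/2)], [(7, 1/2), (9, 1/2)]), ([(5, 1/2), (7, 1/2)], [(6, 1/2), (7, 1/2)])]
    (by decide +kernel)

theorem c_b1111_2 (h : S_CERT) : Bary (unitP ++ P_b1111) 2 (1) :=
  h _ _ _
    [(0, 1, [([], [(1, 1)]), ([(0, 1)], [(5, 1)])]),
      (1/2, 661/500, [([(2, 1/2)], [(1, 1/2), (8, 1/2)]), ([(0, 1/6), (2, 1/3), (7, 1/6)], [(5, 1/2), (8, 1/2)]), ([(0, 1/2), (7, 1/2)], [(5, 1/2), (7, 1/2)])]),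
      (1, 707/500, [([(2, 1)], [(8, 1)]), ([(7, 1)], [(7, 1)])])]
    (1) [([(2, 1)], [(8, 1)]), ([(7, 1)], [(7, 1)])]
    (by decide +kernel)

end Pool.Agent.P.MP_6149fc_ag.V18
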