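import Pool.Agent.P.MP_6149fc_ag.V18.IfaceC
import Pool.Agent.P.MP_6149fc_ag.V18.IfaceA
import Pool.Agent.P.MP_6149fc_ag.V18.IfaceB
import Pool.Agent.P.MP_6149fc_ag.V18.BaseCert

section

/-! Step SUMS. -/

set_option autoImplicit false
set_option linter.unusedSectionVars false

namespace Pool.Agent.P.MP_6149fc_ag.V18

open scoped ENNReal
open MvPowerSeries (coeff X constantCoeff monomial)

namespace SUMSx

theorem sb (hADM : S_ADM) (hSB : S_SB) {κ : Type} [Field κ] {A : Rows}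
    {U : ℕ → Submodule κ (PS κ)} {V : ℝ} {P : List PT} (hA : admB A) (c : Ctx U V) (g : Gen A U)
    (hP : Pts A U P) (h1 : ∀ p ∈ P, 1 ≤ p.1) {i : Fin 3} :
    (Bary P i 1 → SumLe A U i 1 V) ∧ (Bary P i 6 → SumLe A U i 6 V) :=
  ⟨fun b => by simpa using hSB κ A U V P i 1 (hADM A hA) c.sys g c.vol c.le hP h1 zero_le_one b,
    fun b => by
      simpa using hSB κ A U V P i 6 (hADM A hA) c.sys g c.vol c.le hP h1 (by norm_num) b⟩

theorem unit {κ : Type} [Field κ] {A : Rows} {U : ℕ → Submodule κ (PS κ)} {P : List PT}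
    (hX : ∀ j, X j ∈ U 1) (hP : Pts A U P) : Pts A U (unitP ++ P) := by
  intro p hp
  rcases List.mem_append.1 hp with h | h
  · simp only [unitP, List.mem_cons, List.not_mem_nil, or_false] at h
    rcases h with rfl | rfl | rfl
    · exact ⟨X 0, hX 0, by simpa [mon] using init_mon (κ := κ) (A := A) 1 0 0⟩
    · exact ⟨X 1, hX 1, by simpa [mon] using init_mon (κ := κ) (A := A) 0 1 0⟩
    · exact ⟨X 2, hX 2, by simpa [mon] using init_mon (κ := κ) (A := A) 0 0 1⟩
  · exact hP p h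

end SUMSx

theorem p_SUMS (hADM : S_ADM) (hSB : S_SB) (hCERT : S_CERT) (hPULL : S_PULL) (hPULLB : S_PULLB) (hCHARTS : S_CHARTS) (hPTYZ : S_PTYZ) (hPTT : S_PTT) (hPTP : S_PTP) (hPTL : S_PTL) (hPTS : S_PTS) :
    S_SUMS := by
  intro κ _ a G V h
  have hX : ∀ j, X j ∈ G 1 := fun j => by
    fin_cases j
    exacts [h.mem.hx, h.mem.hy, h.mem.hz]
  have g := fun A => gen_of_X (A := A) h.ctx.sys hX
  obtain ⟨pZ, pY⟩ := hPTYZ κ a G h.ne h.mem
  have sZ := fun i => (SUMSx.sb hADM hSB (by decide) h.ctx (g AZ) (SUMSx.unit hX pZ) (by decide)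
    (i := i)).1
  have sY := fun i => (SUMSx.sb hADM hSB (by decide) h.ctx (g AY) (SUMSx.unit hX pY) (by decide)
    (i := i)).1
  refine ⟨⟨sZ _ (c_eZ_0 hCERT), sZ _ (c_eZ_1 hCERT)⟩, ⟨sY _ (c_eY_0 hCERT), sY _ (c_eY_2 hCERT)⟩,
    fun κ' _ _ => ?_⟩
  have key : ∀ θ : Fin 3 → PS κ', IsChart θ → Ctx (Pull κ' θ G) V ∧
      B3in (algebraMap κ κ' a) (Pull κ' θ G 1) (θ 0) (θ 1) (θ 2) := fun θ c => by
    obtain ⟨p1, p2, -⟩ := hPULL κ κ' θ c.1
    exact ⟨⟨(p2 G h.ctx.sys).1, VolN.mono h.ctx.vol (p2 G h.ctx.sys).2, h.ctx.le⟩,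
      hPULLB κ κ' a θ G p1 h.mem⟩
  obtain ⟨cP, cL, cS, cT⟩ := hCHARTS κ'
  have inj := (algebraMap κ κ').injective
  have a0 : algebraMap κ κ' a ≠ 0 := fun e => h.ne (inj (by rw [e, map_zero]))
  refine ⟨?_, fun c hc => ?_, fun c d h1 h2 => ?_, fun t h1 h2 h3 => ?_⟩
  · obtain ⟨k1, k2⟩ := key _ cP
    obtain ⟨q1, q2 | q2⟩ := hPTP κ' _ _ k1.sys a0 k2
    all_goals have s := fun i => SUMSx.sb hADM hSB (by decide) k1 q1 q2 (by decide) (i := i)
    · exact ⟨(s _).2 (c_eP0_0 hCERT), (s _).1 (c_eP0_1 hCERT), (s _).1 (c_eP0_2 hCERT)⟩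
    · exact ⟨(s _).2 (c_eP1_0 hCERT), (s _).1 (c_eP1_1 hCERT), (s _).1 (c_eP1_2 hCERT)⟩
  · obtain ⟨k1, k2⟩ := key _ (cT c)
    obtain ⟨q1, q2⟩ := hPTT κ' _ c _ k1.sys hc k2
    have s := fun i => (SUMSx.sb hADM hSB (by decide) k1 q1 q2 (by decide) (i := i)).1
    exact ⟨s _ (c_eT_1 hCERT), s _ (c_eT_2 hCERT)⟩
  · obtain ⟨k1, k2⟩ := key _ (cL c d)
    obtain ⟨q1, q2 | q2 | q2 | q2⟩ := hPTL κ' _ c d _ k1.sys a0 h1
      (h2.imp_left fun k e => k (inj (by rw [e, map_one]))) k2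
    all_goals have s := fun i => (SUMSx.sb hADM hSB (by decide) k1 q1 q2 (by decide) (i := i)).1
    · exact ⟨s _ (c_eL9a_1 hCERT), s _ (c_eL9a_2 hCERT)⟩
    · exact ⟨s _ (c_eL9b_1 hCERT), s _ (c_eL9b_2 hCERT)⟩
    · exact ⟨s _ (c_eL10a_1 hCERT), s _ (c_eL10a_2 hCERT)⟩
    · exact ⟨s _ (c_eL10b_1 hCERT), s _ (c_eL10b_2 hCERT)⟩
  · obtain ⟨k1, k2⟩ := key _ (cS t)
    rw [h1, map_one] at k2
    obtain ⟨q1, q2 | q2⟩ := hPTS κ' t _ k1.sys h2 h3 k2
    all_goals have s := fun i => (SUMSx.sb hADM hSB (by decide) k1 q1 q2 (by decide) (i := i)).1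
    · exact ⟨s _ (c_eS3_1 hCERT), s _ (c_eS3_2 hCERT)⟩
    · exact ⟨s _ (c_eS4_1 hCERT), s _ (c_eS4_2 hCERT)⟩

end Pool.Agent.P.MP_6149fc_ag.V18

end

section

/-! Step EYZ. -/

set_option autoImplicit false
set_option linter.unusedSectionVars false

namespace Pool.Agent.P.MP_6149fc_ag.V18

open scoped ENNReal
open MvPowerSeries (coeff X constantCoeff monomial)

theorem p_EYZ (hADM : S_ADM) (hREGF : S_REGF) (hSUMS : S_SUMS) :
    S_EYZ := by
  intro κ _ a G V hB hK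
  obtain ⟨⟨hz0, hz1⟩, ⟨hy0, hy2⟩, -⟩ := hSUMS κ a G V hB
  have hV : 0 ≤ V := hB.ctx.vol.nonneg
  constructor
  · intro M μ n g k L _ _ z N b o hBig hFam hN hR hd hC _
    refine hREGF κ L G V AZ 2 M μ n g k z N b o (hADM _ (by decide)) (by decide) (by decide)
      (by decide) hV (fun j hj => ?_) hK hBig hFam hN (fun j hj => ?_) hd hC
    · fin_cases j
      · exact hz0
      · exact hz1
      · exact absurd rfl hj
    · fin_cases j
      · simpa [w3] using hR.1
      · simpa [w3] using hR.2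
      · exact absurd rfl hj
  · intro M μ n g k L _ _ z N b o hBig hFam hN hR hd hC _
    refine hREGF κ L G V AY 1 M μ n g k z N b o (hADM _ (by decide)) (by decide) (by decide)
      (by decide) hV (fun j hj => ?_) hK hBig hFam hN (fun j hj => ?_) hd hC
    · fin_cases j
      · exact hy0
      · exact absurd rfl hj
      · exact hy2
    · fin_cases j
      · simpa [w3] using hR.1
      · exact absurd rfl hj
      · simpa [w3] using hR.2

end Pool.Agent.P.MP_6149fc_ag.V18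

end

section

/-! Step ET. -/

set_option autoImplicit false
set_option linter.unusedSectionVars false

namespace Pool.Agent.P.MP_6149fc_ag.V18

open scoped ENNReal
open MvPowerSeries (coeff X constantCoeff monomial)

namespace ETx

theorem subC {κ L : Type} [Field κ] [Field L] [Algebra κ L] {ζ : Fin 3 → PowerSeries L}
    (hζ : Cen ζ) : ∃ ψ : PS κ →+* PowerSeries L, (∀ f, ψ f = sub ζ f) ∧ (∀ a, ψ (X a) = ζ a) ∧
      ∀ c : κ, ψ (MvPowerSeries.C c) = PowerSeries.C (algebraMap κ L c) := by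
  obtain ⟨ψ, hψ, hψX⟩ := exists_subHom (κ := κ) hζ
  refine ⟨ψ.toRingHom, hψ, hψX, fun c => ?_⟩
  have h1 : (MvPowerSeries.C c : PS κ) = algebraMap κ (PS κ) c := rfl
  change ψ _ = _
  rw [h1, AlgHom.commutes]
  exact PowerSeries.algebraMap_apply

end ETx

theorem p_ET (hADM : S_ADM) (hARCT : S_ARCT) (hRECEN : S_RECEN) (hCHJET : S_CHJET) (hSUMS : S_SUMS) (hCHARTS : S_CHARTS) :
    S_ET := by
  intro κ _ _ a0 G V hB hK M μ n g k L _ _ z N a o hBig hFam hN hRg hdvd hCod hoa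
  obtain ⟨h32, h12⟩ := hRg
  obtain ⟨hCen, hord⟩ := hN
  have hV : 0 ≤ V := VolN.nonneg hB.ctx.vol
  have hμ : 1 ≤ μ := by
    have h1 : (0 : ℝ) ≤ V * ((M : ℝ) + 15) ^ 4 := by positivity
    have h2 : (1 : ℝ) ≤ μ := by unfold Big at hBig; linarith
    exact_mod_cast h2
  obtain ⟨e, he1, he2⟩ : ∃ e, o 1 = 2 * e ∧ o 2 = 3 * e := ⟨o 1 / 2, by omega, by omega⟩
  have h1e : 1 ≤ e := by have := (hord 1).2.1; omega
  have h0e : e + 1 ≤ o 0 := by omega
  have h6 : 6 * e ≤ a := by omega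
  by_cases hN3 : N ≤ 3 * e
  · calc N ≤ 1 * (a + 3) := by omega
      _ ≤ μ * (a + 3) := Nat.mul_le_mul_right _ hμ
  have hz0 : PowerSeries.X ^ (e + 1) ∣ z 0 := by
    rw [dvd_iff_le_order, (hord 0).1]; exact_mod_cast h0e
  obtain ⟨η, X', W, hη, hX', hW, e0, e1', e2, hC⟩ := hARCT κ L z N a e hCod hz0
    (by rw [(hord 1).1, he1]) (by rw [(hord 2).1, he2]) (by omega) (by omega)
  classical
  set c := PowerSeries.constantCoeff W with hc
  let s : Finset L := {c}
  let κ' := IntermediateField.adjoin κ (s : Set L)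
  have hcm : c ∈ κ' := IntermediateField.subset_adjoin κ _ (by simp [s])
  let c' : κ' := ⟨c, hcm⟩
  have hc' : c' ≠ 0 := fun h => hW (congrArg Subtype.val h)
  let ζ : Fin 3 → PowerSeries L := ![η, X', W - PowerSeries.C c]
  have hη0 : PowerSeries.constantCoeff η = 0 := by
    have : PowerSeries.coeff 0 η = 0 :=
      PowerSeries.coeff_of_lt_order 0 (by rw [hη]; exact_mod_cast h1e)
    simpa using this
  have hζ : Cen ζ := by
    intro j
    fin_cases j
    · exact hη0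
    · exact hX'
    · simp [ζ, hc]
  obtain ⟨ψ, hψ, hψX, hψC0⟩ := ETx.subC (κ := κ') hζ
  have hψC : ψ (MvPowerSeries.C c') = PowerSeries.C c := hψC0 c'
  have hW' : ψ (MvPowerSeries.C c' + X 2) = W := by
    rw [map_add, hψC, hψX]; simp [ζ]
  have hCod' := hRECEN κ L s ![η, X', W] ζ ![X 0, X 1, MvPowerSeries.C c' + X 2]
    (N - 2 * e) (a - 5 * e) hζ (by
      intro j
      rw [← hψ]
      fin_cases j
      · exact (hψX 0).symm
      · exact (hψX 1).symm
      · exact hW'.symm) hC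
  have hcard : s.card = 1 := by simp [s]
  rw [hcard] at hCod'
  have : CharZero κ' := charZero_of_injective_algebraMap (algebraMap κ κ').injective
  have : Infinite κ' := Infinite.of_injective _ Nat.cast_injective
  have hS := ((hSUMS κ a0 G V hB).2.2 κ').2.1 c' hc'
  refine hCHJET κ κ' L G V (thT c') lexA M μ n g k z ζ N (N - 2 * e) a (a - 5 * e + 1) e
    ((hCHARTS κ').2.2.2 c') (hADM lexA (by decide)) (by intro j; fin_cases j <;> rfl) rfl rfl hV
    hS.1 hS.2 hK hBig hFam hCen hζ hη h1e ?_ hdvd hCod' (by omega) (by omega) (by omega)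
    (by omega) (by omega)
  intro j
  rw [← hψ]
  fin_cases j
  · have : ψ (thT c' 0) = η * X' := by
      change ψ (X 0 * X 1) = _
      rw [map_mul, hψX, hψX]; rfl
    change _ ∣ z 0 - ψ (thT c' 0)
    rw [this, e0, sub_self]; exact dvd_zero _
  · have : ψ (thT c' 1) = η ^ 2 * W := by
      change ψ (X 0 ^ 2 * (MvPowerSeries.C c' + X 2)) = _
      rw [map_mul, map_pow, hψX, hW']; rfl
    change _ ∣ z 1 - ψ (thT c' 1)
    rw [this, e1', sub_self]; exact dvd_zero _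
  · have : ψ (thT c' 2) = η ^ 3 * W := by
      change ψ (X 0 ^ 3 * (MvPowerSeries.C c' + X 2)) = _
      rw [map_mul, map_pow, hψX, hW']; rfl
    change _ ∣ z 2 - ψ (thT c' 2)
    rw [this]; exact e2

end Pool.Agent.P.MP_6149fc_ag.V18

end

section

/-! Step EX. -/

set_option autoImplicit false
set_option linter.unusedSectionVars false

namespace Pool.Agent.P.MP_6149fc_ag.V18

open scoped ENNReal
open MvPowerSeries (coeff X constantCoeff monomial)

theorem p_EX (hARCX : S_ARCX) :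
    S_EX := by
  intro κ _ G V hV hX M μ n g k L _ _ z N a o hB hF hN ho hd hC ha
  have hμ : 1 ≤ μ := by
    have h1 : 0 ≤ V * ((M : ℝ) + 15) ^ 4 := by positivity
    have h2 : (1 : ℝ) ≤ μ := by unfold Big at hB; linarith
    exact_mod_cast h2
  obtain ⟨h1, h2⟩ := ho
  by_cases h4 : 4 * o 0 ≤ N
  · have d1 : PowerSeries.X ^ (2 * o 0) ∣ z 1 := by
      rw [dvd_iff_le_order, (hN.2 1).1]; exact_mod_cast h1
    have d2 : PowerSeries.X ^ (3 * o 0) ∣ z 2 := by
      rw [dvd_iff_le_order, (hN.2 2).1]; exact_mod_cast h2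
    obtain ⟨Y, Z, e1, e2, hC'⟩ := hARCX κ L z N a (o 0) hC (hN.2 0).1 d1 d2 (by omega) (by omega)
    exact hX M μ n g k L z Y Z N a (o 0) hB hF hN.1 (hN.2 0).1 (hN.2 0).2.1 e1 e2 trivial hd hC'
      h4 (by omega)
  · calc N ≤ 1 * (a + 3) := by omega
      _ ≤ μ * (a + 3) := Nat.mul_le_mul_right _ hμ

end Pool.Agent.P.MP_6149fc_ag.V18

end

section

/-! Step EXG. -/

set_option autoImplicit false
set_option linter.unusedSectionVars false

namespace Pool.Agent.P.MP_6149fc_ag.V18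

open scoped ENNReal
open MvPowerSeries (coeff X constantCoeff monomial)

theorem p_EXG (hRECEN : S_RECEN) (hCHJET : S_CHJET) :
    S_EXG := by
  intro κ L _ _ _ _ s G V θ η1 η2 A M μ n g k z Y Z ζ1 ζ2 N a e hs hθ t0 t1 t2 hA hF a1 a2 hV s1 s2
    hK hB hf hz ho he z1 z2 c1 c2 hY hZ hN hC h4 h6
  have hc : Cen ![z 0, ζ1, ζ2] := fun j => by
    fin_cases j
    · exact hz 0
    · exact c1
    · exact c2
  obtain ⟨ψ, p1, p2⟩ := exists_subHom (κ := IntermediateField.adjoin κ (s : Set L)) hc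
  have p0 : ψ (X 0) = z 0 := p2 0
  have : CharZero (IntermediateField.adjoin κ (s : Set L)) :=
    charZero_of_injective_algebraMap (algebraMap κ _).injective
  have h1 := hRECEN κ L s ![z 0, Y, Z] ![z 0, ζ1, ζ2] ![X 0, η1, η2] _ _ hc (fun j => by
    fin_cases j
    · exact p0.symm.trans (p1 _)
    · exact hY
    · exact hZ) hC
  refine hCHJET κ _ L G V θ A M μ n g k z _ N _ a _ e hθ hA hF a1 a2 hV s1 s2 hK hB hf hz hc ho he
    (fun j => ?_) hN h1 (by omega) (by omega) (by omega) (by omega) (by omega)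
  have h2 : z j = sub ![z 0, ζ1, ζ2] (θ j) := by
    rw [← p1]
    fin_cases j
    · exact (t0 ▸ p0 : ψ (θ 0) = z 0).symm
    · change z 1 = ψ (θ 1)
      rw [t1, map_mul, map_pow, p0, p1, ← hY, z1]
    · change z 2 = ψ (θ 2)
      rw [t2, map_mul, map_pow, p0, p1, ← hZ, z2]
  rw [← h2, sub_self]
  exact dvd_zero _

end Pool.Agent.P.MP_6149fc_ag.V18

end

section

/-! Step EXP. -/

set_option autoImplicit false
set_option linter.unusedSectionVars false

namespace Pool.Agent.P.MP_6149fc_ag.V18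

open scoped ENNReal
open MvPowerSeries (coeff X constantCoeff monomial)

namespace EXPx

theorem cen3 {L : Type} [Field L] {x y z : PowerSeries L} (hx : PowerSeries.constantCoeff x = 0)
    (hy : PowerSeries.constantCoeff y = 0) (hz : PowerSeries.constantCoeff z = 0) :
    ∀ a, PowerSeries.constantCoeff ((![x, y, z] : Fin 3 → PowerSeries L) a) = 0 := by
  intro a
  fin_cases a
  · exact hx
  · exact hy
  · exact hz

theorem subP {F L : Type} [Field F] [Field L] [Algebra F L] {x y z : PowerSeries L}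
    (hx : PowerSeries.constantCoeff x = 0) (hy : PowerSeries.constantCoeff y = 0)
    (hz : PowerSeries.constantCoeff z = 0) :
    sub ![x, y, z] (X 1 : PS F) = y ∧ sub ![x, y, z] (X 2 + X 1 ^ 2 : PS F) = z + y ^ 2 := by
  obtain ⟨ψ, hψ, hX⟩ := exists_subHom (κ := F) (cen3 hx hy hz)
  refine ⟨?_, ?_⟩
  · rw [← hψ, hX]; rfl
  · rw [← hψ, map_add, map_pow, hX, hX]; rfl

theorem subL {F L : Type} [Field F] [Field L] [Algebra F L] {x y z : PowerSeries L}
    (hx : PowerSeries.constantCoeff x = 0) (hy : PowerSeries.constantCoeff y = 0)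
    (hz : PowerSeries.constantCoeff z = 0) (c : F) :
    sub ![x, y, z] (MvPowerSeries.C c + X 1 : PS F) = PowerSeries.C (algebraMap F L c) + y ∧
      sub ![x, y, z] (MvPowerSeries.C c + X 2 : PS F) = PowerSeries.C (algebraMap F L c) + z := by
  obtain ⟨ψ, hψ, hX⟩ := exists_subHom (κ := F) (cen3 hx hy hz)
  have hC : ψ (MvPowerSeries.C c) = PowerSeries.C (algebraMap F L c) := by
    have : (MvPowerSeries.C c : PS F) = algebraMap F (PS F) c := rfl
    rw [this, ψ.commutes, PowerSeries.algebraMap_apply]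
  refine ⟨?_, ?_⟩
  · rw [← hψ, map_add, hC, hX]; rfl
  · rw [← hψ, map_add, hC, hX]; rfl

theorem map_bK {F L : Type} [Field F] [Field L] [Algebra F L] (c d : F) :
    algebraMap F L (bK 1 c d) = bK 1 (algebraMap F L c) (algebraMap F L d) := by
  simp only [bK, bq, map_sub, map_mul, map_pow, map_one]

end EXPx

theorem p_EXP (hADM : S_ADM) (hEXG : S_EXG) (hSUMS : S_SUMS) (hCHARTS : S_CHARTS) :
    S_EXP := by
  intro κ _ _ a G V hB hK
  have hV : 0 ≤ V := VolN.nonneg hB.ctx.vol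
  obtain ⟨-, -, hS⟩ := hSUMS κ a G V hB
  refine ⟨?_, ?_⟩
  · intro M μ n g k L _ _ z Y Z N a' e hBig hFam hCen hord he h1 h2 hR hdvd hCod h4 h6
    obtain ⟨hc, hd⟩ := hR
    have hZ : PowerSeries.constantCoeff (Z - Y ^ 2) = 0 := by
      rw [map_sub, map_pow, hc, hd]; simp
    obtain ⟨⟨-, s1, s2⟩, -⟩ := hS (IntermediateField.adjoin κ (((∅ : Finset L)) : Set L))
    obtain ⟨e1', e2'⟩ := EXPx.subP
      (F := IntermediateField.adjoin κ (((∅ : Finset L)) : Set L)) (hCen 0) hc hZ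
    exact hEXG κ L ∅ G V (thP _) (X 1) (X 2 + X 1 ^ 2) AP M μ n g k z Y Z Y (Z - Y ^ 2) N a' e
      (by simp) (hCHARTS _).1 rfl rfl rfl (hADM AP (by decide)) (by decide) rfl rfl hV s1 s2 hK
      hBig hFam hCen hord he h1 h2 hc hZ e1'.symm (by rw [e2']; ring) hdvd hCod h4 h6
  · intro M μ n g k L _ _ z Y Z N a' e hBig hFam hCen hord he h1 h2 hR hdvd hCod h4 h6
    classical
    obtain ⟨hne, hbK⟩ := hR
    set c := PowerSeries.constantCoeff Y with hc
    set d := PowerSeries.constantCoeff Z with hd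
    let s : Finset L := {c, d}
    let c' : IntermediateField.adjoin κ (s : Set L) :=
      ⟨c, IntermediateField.subset_adjoin κ _ (by simp [s])⟩
    let d' : IntermediateField.adjoin κ (s : Set L) :=
      ⟨d, IntermediateField.subset_adjoin κ _ (by simp [s])⟩
    have hc' : algebraMap _ L c' = c := rfl
    have hd' : algebraMap _ L d' = d := rfl
    have hY : PowerSeries.constantCoeff (Y - PowerSeries.C c) = 0 := by
      rw [map_sub, PowerSeries.constantCoeff_C, ← hc, sub_self]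
    have hZ : PowerSeries.constantCoeff (Z - PowerSeries.C d) = 0 := by
      rw [map_sub, PowerSeries.constantCoeff_C, ← hd, sub_self]
    have hne' : c' ≠ 0 ∨ d' ≠ 0 := by
      rcases hne with h | h
      · exact Or.inl fun h0 => h (by rw [← hc', h0, map_zero])
      · exact Or.inr fun h0 => h (by rw [← hd', h0, map_zero])
    have hbK' : a ≠ 1 ∨ bK 1 c' d' ≠ 0 := by
      rcases hbK with h | h
      · exact Or.inl h
      · exact Or.inr fun h0 => h (by rw [← hc', ← hd', ← EXPx.map_bK, h0, map_zero])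
    obtain ⟨-, -, hL, -⟩ := hS (IntermediateField.adjoin κ (s : Set L))
    obtain ⟨s1, s2⟩ := hL c' d' hne' hbK'
    have e1' := (EXPx.subL (hCen 0) hY hZ c').1
    have e2' := (EXPx.subL (hCen 0) hY hZ d').2
    exact hEXG κ L s G V (thL c' d') (MvPowerSeries.C c' + X 1) (MvPowerSeries.C d' + X 2) lexA
      M μ n g k z Y Z (Y - PowerSeries.C c) (Z - PowerSeries.C d) N a' e Finset.card_le_two
      ((hCHARTS _).2.1 c' d') rfl rfl rfl (hADM lexA (by decide)) (by decide) rfl rfl hV s1 s2 hK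
      hBig hFam hCen hord he h1 h2 hY hZ (by rw [e1', hc']; ring) (by rw [e2', hd']; ring)
      hdvd hCod h4 h6

end Pool.Agent.P.MP_6149fc_ag.V18

end

section

/-! Step EXS. -/

set_option autoImplicit false
set_option linter.unusedSectionVars false

namespace Pool.Agent.P.MP_6149fc_ag.V18

open scoped ENNReal
open MvPowerSeries (coeff X constantCoeff monomial)

namespace EXSx

theorem ex_sub {κ L : Type} [Field κ] [Field L] [Algebra κ L] {z : Fin 3 → PowerSeries L}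
    (hz : Cen z) (t : κ) {T Y : PowerSeries L} (h1 : z 1 = T - T ^ 2 - Y)
    (h2 : z 2 = T - PowerSeries.C (algebraMap κ L t)) :
    Y = sub z ((MvPowerSeries.C t + X 2) - (MvPowerSeries.C t + X 2) ^ 2 - X 1) ∧
    T * Y = sub z ((MvPowerSeries.C t + X 2) *
      ((MvPowerSeries.C t + X 2) - (MvPowerSeries.C t + X 2) ^ 2 - X 1)) := by
  obtain ⟨ψ, hψ, hX⟩ := exists_subHom (κ := κ) hz
  have e0 : ψ (MvPowerSeries.C t) = PowerSeries.C (algebraMap κ L t) := by
    rw [MvPowerSeries.c_eq_algebraMap, AlgHom.commutes, PowerSeries.algebraMap_apply]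
  have e2 : ψ (MvPowerSeries.C t + X 2) = T := by rw [map_add, hX, e0, h2, add_sub_cancel]
  have e1 : ψ ((MvPowerSeries.C t + X 2) - (MvPowerSeries.C t + X 2) ^ 2 - X 1) = Y := by
    rw [map_sub, map_sub, map_pow, e2, hX, h1, sub_sub_cancel]
  exact ⟨by rw [← hψ, e1], by rw [← hψ, map_mul, e1, e2]⟩

end EXSx

theorem p_EXS (hADM : S_ADM) (hEXG : S_EXG) (hSUMS : S_SUMS) (hCHARTS : S_CHARTS) :
    S_EXS := by
  intro κ _ _ a G V hB hK M μ n g k L _ _ z Y Z N b e hbig hfam hz he he1 hY hZ ⟨hcd, ha, hbk⟩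
    hdv hcod h4 h6
  simp only [bK, bq, one_mul] at hbk
  have hc : PowerSeries.constantCoeff Y ≠ 0 := fun h0 => by
    rw [h0, zero_mul, zero_sub, neg_eq_zero] at hbk
    exact hcd.elim (fun h => h h0) fun h => h (pow_eq_zero_iff two_ne_zero |>.1 hbk)
  obtain ⟨T, hT⟩ : ∃ T, Z = T * Y :=
    ⟨Z * Y⁻¹, by rw [mul_assoc, PowerSeries.inv_mul_cancel Y hc, mul_one]⟩
  set t := PowerSeries.constantCoeff T with ht
  have hct : PowerSeries.constantCoeff Y = t - t ^ 2 := by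
    rw [hT, map_mul, ← ht] at hbk
    refine mul_left_cancel₀ (pow_ne_zero 2 hc) ?_
    linear_combination -hbk
  let t' : IntermediateField.adjoin κ (({t} : Finset L) : Set L) :=
    ⟨t, IntermediateField.subset_adjoin κ _ (by simp)⟩
  have t0 : t' ≠ 0 := fun h => hc (by rw [hct, show t = 0 from congrArg Subtype.val h]; simp)
  have t1 : t' ≠ 1 := fun h => hc (by rw [hct, show t = 1 from congrArg Subtype.val h]; simp)
  obtain ⟨s1, s2⟩ := ((hSUMS κ a G V hB).2.2 _).2.2.2 t' ha t0 t1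
  have c1 : PowerSeries.constantCoeff (T - T ^ 2 - Y) = 0 := by
    rw [map_sub, map_sub, map_pow, hct, sub_self]
  have c2 : PowerSeries.constantCoeff (T - PowerSeries.C t) = 0 := by simp [ht]
  obtain ⟨e1, e2⟩ := EXSx.ex_sub (z := ![z 0, T - T ^ 2 - Y, T - PowerSeries.C t]) (fun j => by
    fin_cases j
    exacts [hz 0, c1, c2]) t' rfl rfl
  exact hEXG κ L {t} G V (thS t') _ _ lexA M μ n g k z Y Z _ _ N b e (by simp)
    ((hCHARTS _).2.2.1 t') rfl rfl rfl (hADM _ (by decide)) (by decide) rfl rfl hB.ctx.vol.nonneg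
    s1 s2 hK hbig hfam hz he he1 hY hZ c1 c2 e1 (hT.trans e2) hdv hcod h4 h6

end Pool.Agent.P.MP_6149fc_ag.V18

end

section

/-! Step EALL. -/

set_option autoImplicit false
set_option linter.unusedSectionVars false

namespace Pool.Agent.P.MP_6149fc_ag.V18

open scoped ENNReal
open MvPowerSeries (coeff X constantCoeff monomial)

theorem p_EALL (hADM : S_ADM) (hTRUNC : S_TRUNC) (hKB0 : S_KB0) (hSUMS : S_SUMS) (hCHARTS : S_CHARTS) (hEYZ : S_EYZ) (hET : S_ET) (hEX : S_EX) (hEXP : S_EXP) (hEXS : S_EXS) :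
    S_EALL := by
  intro κ _ _ a G V hB
  have hK : KBd G V := hKB0 κ (thP κ) AP G V (hCHARTS κ).1 (hADM AP (by decide)) (by decide)
    ((hSUMS κ a G V hB).2.2 κ).1.1
  have hX : RegX G V (fun _ _ _ _ _ => True) := by
    intro M μ n g k L _ _ z Y Z N b e h1 h2 h3 h4 h5 h6 h7 _
    by_cases c0 : PowerSeries.constantCoeff Y = 0 ∧ PowerSeries.constantCoeff Z = 0
    · exact (hEXP κ a G V hB hK).1 M μ n g k L z Y Z N b e h1 h2 h3 h4 h5 h6 h7 c0
    by_cases c1 : a = 1 ∧ bK 1 (PowerSeries.constantCoeff Y) (PowerSeries.constantCoeff Z) = 0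
    · exact hEXS κ a G V hB hK M μ n g k L z Y Z N b e h1 h2 h3 h4 h5 h6 h7 ⟨not_and_or.1 c0, c1⟩
    · exact (hEXP κ a G V hB hK).2 M μ n g k L z Y Z N b e h1 h2 h3 h4 h5 h6 h7
        ⟨not_and_or.1 c0, not_and_or.1 c1⟩
  have r4 := hEX κ G V hB.ctx.vol.nonneg hX
  have r3 := hET κ a G V hB hK
  obtain ⟨r1, r2⟩ := hEYZ κ a G V hB hK
  intro M μ n g k h1 h2
  refine hTRUNC κ _ μ fun L _ _ z N b o h3 => ?_
  have hc : (o 2 < 3 * o 0 ∧ 2 * o 2 < 3 * o 1) ∨ (o 1 < 2 * o 0 ∧ 3 * o 1 < 2 * o 2) ∨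
      (3 * o 1 = 2 * o 2 ∧ o 1 < 2 * o 0) ∨ (2 * o 0 ≤ o 1 ∧ 3 * o 0 ≤ o 2) := by omega
  rcases hc with hc | hc | hc | hc
  · exact r1 M μ n g k L z N b o h1 h2 h3 hc
  · exact r2 M μ n g k L z N b o h1 h2 h3 hc
  · exact r3 M μ n g k L z N b o h1 h2 h3 hc
  · exact r4 M μ n g k L z N b o h1 h2 h3 hc

end Pool.Agent.P.MP_6149fc_ag.V18

end

section

/-! Step SIMPLE. -/

set_option autoImplicit false
set_option linter.unusedSectionVars false

namespace Pool.Agent.P.MP_6149fc_ag.V18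

open scoped ENNReal
open MvPowerSeries (coeff X constantCoeff monomial)

theorem p_SIMPLE (hADM : S_ADM) (hSB : S_SB) (hENGS : S_ENGS) :
    S_SIMPLE := by
  intro κ _ A P U V hA hP b0 b1 b2 hC hX hPts
  have hA' := hADM A hA
  have e0 : (X 0 : PS κ) = mon κ 1 0 0 := by simp [mon]
  have e1 : (X 1 : PS κ) = mon κ 0 1 0 := by simp [mon]
  have e2 : (X 2 : PS κ) = mon κ 0 0 1 := by simp [mon]
  have hQ : Pts A U (unitP ++ P) := by
    intro q hq
    rcases List.mem_append.1 hq with hq | hq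
    · simp only [unitP, List.mem_cons, List.not_mem_nil, or_false] at hq
      rcases hq with rfl | rfl | rfl
      · exact ⟨_, hX 0, (init_mon 1 0 0).congr e0⟩
      · exact ⟨_, hX 1, (init_mon 0 1 0).congr e1⟩
      · exact ⟨_, hX 2, (init_mon 0 0 1).congr e2⟩
    · exact hPts q hq
  have h1 : ∀ p ∈ unitP ++ P, 1 ≤ p.1 := by
    intro q hq
    rcases List.mem_append.1 hq with hq | hq
    · simp only [unitP, List.mem_cons, List.not_mem_nil, or_false] at hq
      rcases hq with rfl | rfl | rfl <;> exact le_rfl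
    · exact hP q hq
  have key : ∀ i : Fin 3, Bary (unitP ++ P) i 1 → SumLe A U i 1 V := fun i b => by
    have := hSB κ A U V _ i 1 hA' hC.sys (gen_of_X hC.sys hX) hC.vol hC.le hQ h1 zero_le_one b
    simpa using this
  refine hENGS κ A U V hA' fun i => ?_
  fin_cases i
  · exact key 0 b0
  · exact key 1 b1
  · exact key 2 b2

end Pool.Agent.P.MP_6149fc_ag.V18

end

section

/-! Step WALL. -/

set_option autoImplicit false
set_option linter.unusedSectionVars false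

namespace Pool.Agent.P.MP_6149fc_ag.V18

open scoped ENNReal
open MvPowerSeries (coeff X constantCoeff monomial)

theorem p_WALL (hADM : S_ADM) (hSB : S_SB) (hENGC : S_ENGC) :
    S_WALL := by
  intro κ _ _ d P Q τ0 τ1 τ2 U V hd hP hQ b0 b1 b2 b3 ⟨t0, t1, t2, t3, t4, t5, t6, t7⟩ hc hX pP pQ
  have key : ∀ (s : ℤ) (R : List PT) (i : Fin 3) (τ : ℚ), s = 1 ∨ s = -1 → (∀ p ∈ R, 1 ≤ p.1) →
      Pts (WC d s) U R → 0 ≤ τ → Bary (unitP ++ R) i τ → SumLe (WC d s) U i τ V := by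
    intro s R i τ hs h1 h2 h3 h4
    refine hSB κ _ U V _ i τ (hADM _ ?_) hc.sys (gen_of_X hc.sys hX) hc.vol hc.le
      (fun p hp => ?_) (fun p hp => ?_) h3 h4
    · rcases hd with rfl | rfl <;> rcases hs with rfl | rfl <;> decide
    · refine (List.mem_append.1 hp).elim (fun hp => ⟨_, ?_, init_mon _ _ _⟩) (h2 p)
      simp only [unitP, List.mem_cons, List.not_mem_nil, or_false] at hp
      rcases hp with rfl | rfl | rfl <;> simpa [mon] using hX _
    · refine (List.mem_append.1 hp).elim (fun hp => ?_) (h1 p)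
      simp only [unitP, List.mem_cons, List.not_mem_nil, or_false] at hp
      rcases hp with rfl | rfl | rfl <;> rfl
  exact hENGC κ d U V τ0 τ1 τ2 hd hc.vol.nonneg (key 1 P 0 _ (.inl rfl) hP pP t0 b0)
    (key 1 P 1 _ (.inl rfl) hP pP t1 b1) (key 1 P 2 _ (.inl rfl) hP pP t2 b2)
    (by simpa using key (-1) Q 1 1 (.inr rfl) hQ pQ zero_le_one b3) (by exact_mod_cast t3)
    (by exact_mod_cast t4) (by exact_mod_cast t5) (by exact_mod_cast t6) (by exact_mod_cast t7)

end Pool.Agent.P.MP_6149fc_ag.V18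

end

section

/-! Step LA0A. -/

set_option autoImplicit false
set_option linter.unusedSectionVars false

namespace Pool.Agent.P.MP_6149fc_ag.V18

open scoped ENNReal
open MvPowerSeries (coeff X constantCoeff monomial)

theorem p_LA0A (hSIMPLE : S_SIMPLE) (hCERT : S_CERT) (hPA0A : S_PA0A) :
    S_LA0A := by
  intro κ _ _ _ U V p s t v0 v2 hc h hH hv
  obtain ⟨-, -, ex, ey, ez⟩ := id hH
  have hX : ∀ j, X j ∈ U 1 := fun j => by
    fin_cases j
    exacts [ex ▸ sub_mem h.my (Submodule.smul_mem _ _ h.mw), ey ▸ h.mw, ez ▸ h.mA]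
  exact hSIMPLE κ A_a0a P_a0a U V (by decide) (by decide) (c_a0a_0 hCERT) (c_a0a_1 hCERT)
    (c_a0a_2 hCERT) hc hX (hPA0A κ U p s t v0 v2 hc.sys h hH hv)

end Pool.Agent.P.MP_6149fc_ag.V18

end

section

/-! Step LA0B. -/

set_option autoImplicit false
set_option linter.unusedSectionVars false

namespace Pool.Agent.P.MP_6149fc_ag.V18

open scoped ENNReal
open MvPowerSeries (coeff X constantCoeff monomial)

theorem p_LA0B (hSIMPLE : S_SIMPLE) (hCERT : S_CERT) (hPA0B : S_PA0B) :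
    S_LA0B := by
  intro κ _ _ _ U V p s t v0 hc h hH
  obtain ⟨-, -, ex, ey, ez⟩ := id hH
  have hX : ∀ j, X j ∈ U 1 := fun j => by
    fin_cases j
    exacts [ex ▸ h.my, ey ▸ h.mz, ez ▸ h.mA]
  exact hSIMPLE κ A_a0b P_a0b U V (by decide) (by decide) (c_a0b_0 hCERT) (c_a0b_1 hCERT)
    (c_a0b_2 hCERT) hc hX (hPA0B κ U p s t v0 hc.sys h hH)

end Pool.Agent.P.MP_6149fc_ag.V18

end

section

/-! Step LA1I. -/

set_option autoImplicit false
set_option linter.unusedSectionVars false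

namespace Pool.Agent.P.MP_6149fc_ag.V18

open scoped ENNReal
open MvPowerSeries (coeff X constantCoeff monomial)

theorem p_LA1I (hSIMPLE : S_SIMPLE) (hCERT : S_CERT) (hPA1I : S_PA1I) :
    S_LA1I := by
  intro κ _ _ _ U V p s t ρ hc h hH hv
  obtain ⟨-, -, ex, ey, ez⟩ := id hH
  have hX : ∀ j, X j ∈ U 1 := fun j => by
    fin_cases j
    exacts [ex ▸ h.mx, ey ▸ h.mz, ez ▸ h.mB]
  exact hSIMPLE κ A_a1i P_a1i U V (by decide) (by decide) (c_a1i_0 hCERT) (c_a1i_1 hCERT)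
    (c_a1i_2 hCERT) hc hX (hPA1I κ U p s t ρ hc.sys h hH hv)

end Pool.Agent.P.MP_6149fc_ag.V18

end

section

/-! Step LA1J. -/

set_option autoImplicit false
set_option linter.unusedSectionVars false

namespace Pool.Agent.P.MP_6149fc_ag.V18

open scoped ENNReal
open MvPowerSeries (coeff X constantCoeff monomial)

theorem p_LA1J (hSIMPLE : S_SIMPLE) (hCERT : S_CERT) (hPA1J : S_PA1J) :
    S_LA1J := by
  intro κ _ _ _ U V p s t ρ hc h hH hv hw
  obtain ⟨-, -, ex, ey, ez⟩ := id hH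
  have hX : ∀ j, X j ∈ U 1 := fun j => by
    fin_cases j
    exacts [ex ▸ h.mx, ey ▸ h.mz, ez ▸ h.mA]
  exact hSIMPLE κ A_a1j P_a1j U V (by decide) (by decide) (c_a1j_0 hCERT) (c_a1j_1 hCERT)
    (c_a1j_2 hCERT) hc hX (hPA1J κ U p s t ρ hc.sys h hH hv hw)

end Pool.Agent.P.MP_6149fc_ag.V18

end

section

/-! Step LA2. -/

set_option autoImplicit false
set_option linter.unusedSectionVars false

namespace Pool.Agent.P.MP_6149fc_ag.V18

open scoped ENNReal
open MvPowerSeries (coeff X constantCoeff monomial)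

theorem p_LA2 (hSIMPLE : S_SIMPLE) (hCERT : S_CERT) (hPA21 : S_PA21) (hPA22 : S_PA22) (hPA23 : S_PA23) (hPA24 : S_PA24) (hPA25 : S_PA25) :
    S_LA2 := by
  intro κ _ _ _ U V p s t hC hO hH h1 h2
  have hX : ∀ j, X j ∈ U 1 := fun j => by
    fin_cases j
    exacts [hH.2.2.1 ▸ hO.mx, hH.2.2.2.1 ▸ hO.mw, hH.2.2.2.2 ▸ hO.mA]
  by_cases a : s.b1 = 0
  · have c3 := h2.resolve_left (not_not.2 a)
    by_cases b : t.b1 = 0
    · have c0 := h1.resolve_left (not_not.2 b)
      by_cases c : s.c0 = 0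
      · exact hSIMPLE κ A_a24 P_a24 U V (by decide) (by decide) (c_a24_0 hCERT) (c_a24_1 hCERT)
          (c_a24_2 hCERT) hC hX (hPA24 κ U p s t hC.sys hO hH a b c3 c0 c)
      · exact hSIMPLE κ A_a25 P_a25 U V (by decide) (by decide) (c_a25_0 hCERT) (c_a25_1 hCERT)
          (c_a25_2 hCERT) hC hX (hPA25 κ U p s t hC.sys hO hH a b c0 c)
    · exact hSIMPLE κ A_a23 P_a23 U V (by decide) (by decide) (c_a23_0 hCERT) (c_a23_1 hCERT)
        (c_a23_2 hCERT) hC hX (hPA23 κ U p s t hC.sys hO hH a b c3)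
  · by_cases b : t.b1 = 0
    · exact hSIMPLE κ A_a22 P_a22 U V (by decide) (by decide) (c_a22_0 hCERT) (c_a22_1 hCERT)
        (c_a22_2 hCERT) hC hX (hPA22 κ U p s t hC.sys hO hH a b (h1.resolve_left (not_not.2 b)))
    · exact hSIMPLE κ A_a21 P_a21 U V (by decide) (by decide) (c_a21_0 hCERT) (c_a21_1 hCERT)
        (c_a21_2 hCERT) hC hX (hPA21 κ U p s t hC.sys hO hH a b)

end Pool.Agent.P.MP_6149fc_ag.V18

end

section

/-! Step LA3. -/

set_option autoImplicit false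
set_option linter.unusedSectionVars false

namespace Pool.Agent.P.MP_6149fc_ag.V18

open scoped ENNReal
open MvPowerSeries (coeff X constantCoeff monomial)

theorem p_LA3 (hSIMPLE : S_SIMPLE) (hWALL : S_WALL) (hCERT : S_CERT) (hPA31 : S_PA31) (hPA32 : S_PA32) (hPA33 : S_PA33) (hPA34 : S_PA34) :
    S_LA3 := by
  intro κ _ _ _ U V p s t hC hO hH hc
  have hX : ∀ j, X j ∈ U 1 := fun j => by
    fin_cases j
    · exact hH.2.2.1 ▸ hO.mx
    · exact hH.2.2.2.1 ▸ hO.my
    · exact hH.2.2.2.2 ▸ hO.mA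
  by_cases h0 : t.c0 = 0
  · obtain ⟨h1, h2⟩ := hc.resolve_left fun h => h h0
    exact hSIMPLE κ A_a32 P_a32 U V (by decide) (by decide) (c_a32_0 hCERT) (c_a32_1 hCERT)
      (c_a32_2 hCERT) hC hX (hPA32 κ U p s t hC.sys hO hH h0 h1 h2)
  by_cases hd : t.c0 * s.b0 - s.c0 * t.b0 = 0
  swap
  · exact hSIMPLE κ A_a31 P_a31 U V (by decide) (by decide) (c_a31_0 hCERT) (c_a31_1 hCERT)
      (c_a31_2 hCERT) hC hX (hPA31 κ U p s t hC.sys hO hH h0 hd)
  by_cases hb : t.b0 = 0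
  · have hs : s.b0 = 0 := by
      rw [hb, mul_zero, sub_zero] at hd
      exact (mul_eq_zero.1 hd).resolve_left h0
    exact hSIMPLE κ A_a33 P_a33 U V (by decide) (by decide) (c_a33_0 hCERT) (c_a33_1 hCERT)
      (c_a33_2 hCERT) hC hX (hPA33 κ U p s t hC.sys hO hH h0 hs hb)
  obtain ⟨h1, h2⟩ := hPA34 κ U p s t hC.sys hO hH h0 hb hd
  exact hWALL κ 1 P_a3W P_a3Y (3 / 4) (3 / 2) (3 / 4) U V (Or.inl rfl) (by decide) (by decide)
    (c_a3W_0 hCERT) (c_a3W_1 hCERT) (c_a3W_2 hCERT) (c_a3Y_1 hCERT) (by norm_num) hC hX h1 h2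

end Pool.Agent.P.MP_6149fc_ag.V18

end

section

/-! Step LB1. -/

set_option autoImplicit false
set_option linter.unusedSectionVars false

namespace Pool.Agent.P.MP_6149fc_ag.V18

open scoped ENNReal
open MvPowerSeries (coeff X constantCoeff monomial)

theorem p_LB1 (hSIMPLE : S_SIMPLE) (hCERT : S_CERT) (hPB1 : S_PB1) :
    S_LB1 := by
  intro κ _ _ _ U V p s t hU hp H c1 c2 c3
  obtain ⟨h0, a, b, c⟩ := hPB1 κ U p s t hU.sys hp H c1 c2 c3
  obtain ⟨-, -, e0, e1, e2⟩ := H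
  have hX : ∀ j, X j ∈ U 1 := by
    intro j
    fin_cases j
    · exact e0 ▸ (U 1).sub_mem hp.mx hp.my
    · exact e1 ▸ (U 1).sub_mem hp.mw hp.my
    · exact e2 ▸ hp.my
  have key : ∀ q1 q2 q3 : PT, Pt A_b1 U q1.1 (ex q1.2.1 q1.2.2.1 q1.2.2.2) →
      Pt A_b1 U q2.1 (ex q2.2.1 q2.2.2.1 q2.2.2.2) →
      Pt A_b1 U q3.1 (ex q3.2.1 q3.2.2.1 q3.2.2.2) →
      Pts A_b1 U ([(1, 1, 0, 1), (1, 0, 1, 1), (1, 1, 1, 0), (1, 1, 1, 1)] ++ [q1, q2, q3]) := by
    intro q1 q2 q3 a b c q hq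
    rcases List.mem_append.1 hq with h | h
    · exact h0 q h
    · simp only [List.mem_cons, List.not_mem_nil, or_false] at h
      rcases h with rfl | rfl | rfl <;> assumption
  rcases a with a | a <;> rcases b with b | b <;> rcases c with c | c
  · exact hSIMPLE κ A_b1 P_b1000 U V (by decide) (by decide) (c_b1000_0 hCERT) (c_b1000_1 hCERT)
      (c_b1000_2 hCERT) hU hX (key _ _ _ a b c)
  · exact hSIMPLE κ A_b1 P_b1001 U V (by decide) (by decide) (c_b1001_0 hCERT) (c_b1001_1 hCERT)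
      (c_b1001_2 hCERT) hU hX (key _ _ _ a b c)
  · exact hSIMPLE κ A_b1 P_b1010 U V (by decide) (by decide) (c_b1010_0 hCERT) (c_b1010_1 hCERT)
      (c_b1010_2 hCERT) hU hX (key _ _ _ a b c)
  · exact hSIMPLE κ A_b1 P_b1011 U V (by decide) (by decide) (c_b1011_0 hCERT) (c_b1011_1 hCERT)
      (c_b1011_2 hCERT) hU hX (key _ _ _ a b c)
  · exact hSIMPLE κ A_b1 P_b1100 U V (by decide) (by decide) (c_b1100_0 hCERT) (c_b1100_1 hCERT)
      (c_b1100_2 hCERT) hU hX (key _ _ _ a b c)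
  · exact hSIMPLE κ A_b1 P_b1101 U V (by decide) (by decide) (c_b1101_0 hCERT) (c_b1101_1 hCERT)
      (c_b1101_2 hCERT) hU hX (key _ _ _ a b c)
  · exact hSIMPLE κ A_b1 P_b1110 U V (by decide) (by decide) (c_b1110_0 hCERT) (c_b1110_1 hCERT)
      (c_b1110_2 hCERT) hU hX (key _ _ _ a b c)
  · exact hSIMPLE κ A_b1 P_b1111 U V (by decide) (by decide) (c_b1111_0 hCERT) (c_b1111_1 hCERT)
      (c_b1111_2 hCERT) hU hX (key _ _ _ a b c)

end Pool.Agent.P.MP_6149fc_ag.V18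

end

section

/-! Step LB2. -/

set_option autoImplicit false
set_option linter.unusedSectionVars false

namespace Pool.Agent.P.MP_6149fc_ag.V18

open scoped ENNReal
open MvPowerSeries (coeff X constantCoeff monomial)

theorem p_LB2 (hSIMPLE : S_SIMPLE) (hWALL : S_WALL) (hCERT : S_CERT) (hPB21 : S_PB21) (hPB22 : S_PB22) (hPB23 : S_PB23) :
    S_LB2 := by
  intro κ _ _ _ U V p s t hC hO hH h1 h2
  have hX : ∀ j, X j ∈ U 1 := by
    intro j
    fin_cases j
    · exact hH.2.2.1 ▸ hO.mx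
    · exact hH.2.2.2.1 ▸ hO.my
    · exact hH.2.2.2.2 ▸ hO.mw
  by_cases c0 : t.b1 = 0
  · have h3 := h2.resolve_left (not_not.2 c0)
    have h4 := hPB23 κ U p s t hC.sys hO hH c0 h3.1 h3.2
    exact hWALL κ 2 P_b2W P_b2Y (3 / 4) (5 / 4) (7 / 8) U V (Or.inr rfl) (by decide) (by decide)
      (c_b2W_0 hCERT) (c_b2W_1 hCERT) (c_b2W_2 hCERT) (c_b2Y_1 hCERT) (by norm_num) hC hX h4.1 h4.2
  · by_cases c1 : t.b1 = 1
    · exact hSIMPLE κ A_b22 P_b22 U V (by decide) (by decide) (c_b22_0 hCERT) (c_b22_1 hCERT)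
        (c_b22_2 hCERT) hC hX
        (hPB22 κ U p s t hC.sys hO hH c1 (h1.resolve_left (not_not.2 (sub_eq_zero.2 c1))))
    · exact hSIMPLE κ A_b21 P_b21 U V (by decide) (by decide) (c_b21_0 hCERT) (c_b21_1 hCERT)
        (c_b21_2 hCERT) hC hX (hPB21 κ U p s t hC.sys hO hH c0 c1)

end Pool.Agent.P.MP_6149fc_ag.V18

end

section

/-! Step LB3A. -/

set_option autoImplicit false
set_option linter.unusedSectionVars false

namespace Pool.Agent.P.MP_6149fc_ag.V18

open scoped ENNReal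
open MvPowerSeries (coeff X constantCoeff monomial)

theorem p_LB3A (hWALL : S_WALL) (hCERT : S_CERT) (hPB3A : S_PB3A) :
    S_LB3A := by
  intro κ _ _ _ U V p s t r hc h hH h1 h2 h3
  obtain ⟨-, -, ex, ey, ez⟩ := id hH
  have hX : ∀ j, X j ∈ U 1 := fun j => by
    fin_cases j
    exacts [ex ▸ Submodule.smul_mem _ _ h.mx, ey ▸ Submodule.smul_mem _ _ h.my, ez ▸ Submodule.smul_mem _ _ h.mz]
  obtain ⟨a, b⟩ := hPB3A κ U p s t r hc.sys h hH h1 h2 h3
  exact hWALL κ 1 P_b3W P_b3Y _ _ _ U V (Or.inl rfl) (by decide) (by decide) (c_b3W_0 hCERT)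
    (c_b3W_1 hCERT) (c_b3W_2 hCERT) (c_b3Y_1 hCERT) (by norm_num) hc hX a b

end Pool.Agent.P.MP_6149fc_ag.V18

end

section

/-! Step LB3B. -/

set_option autoImplicit false
set_option linter.unusedSectionVars false

namespace Pool.Agent.P.MP_6149fc_ag.V18

open scoped ENNReal
open MvPowerSeries (coeff X constantCoeff monomial)

theorem p_LB3B (hADM : S_ADM) (hGR : S_GR) (hGRED : S_GRED) (hEALL : S_EALL) (hPB3B : S_PB3B) :
    S_LB3B := by
  intro κ _ _ _ U V p s t hC hp hH h0 h1 h2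
  obtain ⟨g1, g2⟩ := hGR κ w3 U hC.sys
  exact hGRED κ AZ w3 U V (hADM AZ (by decide)) (by decide)
    (hEALL κ t.b1 _ V ⟨⟨g1, VolN.mono hC.vol g2, hC.le⟩, h2, hPB3B κ U p s t hC.sys hp hH h0 h1⟩)

end Pool.Agent.P.MP_6149fc_ag.V18

end
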