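import Pool.Agent.P.MP_6149fc_ag.V18.BaseP

/-! Statements: initial exponents in all cases, the charts of the weighted blow-up. -/

set_option autoImplicit false

namespace Pool.Agent.P.MP_6149fc_ag.V18

open scoped ENNReal
open MvPowerSeries (coeff X constantCoeff monomial)

-- deps:
def S_PA0A : Prop :=
  ∀ (κ : Type) [Field κ] (U : ℕ → Submodule κ (PS κ)) (p : P14 κ) (s t : Tl κ) (v0 v2 : κ),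
    Sys U → p.Ok (U 1) → Ha0a p s t v0 v2 → v2 ^ 3 ≠ v0 →
    Pts A_a0a U P_a0a

-- deps:
def S_PA0B : Prop :=
  ∀ (κ : Type) [Field κ] (U : ℕ → Submodule κ (PS κ)) (p : P14 κ) (s t : Tl κ) (v0 : κ),
    Sys U → p.Ok (U 1) → Ha0b p s t v0 →
    Pts A_a0b U P_a0b

-- deps:
def S_PA1I : Prop :=
  ∀ (κ : Type) [Field κ] (U : ℕ → Submodule κ (PS κ)) (p : P14 κ) (s t : Tl κ) (ρ : κ),
    Sys U → p.Ok (U 1) → Ha1i p s t ρ → s.b0 + ρ * s.b1 ≠ 0 →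
    Pts A_a1i U P_a1i

-- deps:
def S_PA1J : Prop :=
  ∀ (κ : Type) [Field κ] (U : ℕ → Submodule κ (PS κ)) (p : P14 κ) (s t : Tl κ) (ρ : κ),
    Sys U → p.Ok (U 1) → Ha1j p s t ρ → s.b0 + ρ * s.b1 = 0 → s.c0 ≠ 0 →
    Pts A_a1j U P_a1j

-- deps:
def S_PA21 : Prop :=
  ∀ (κ : Type) [Field κ] (U : ℕ → Submodule κ (PS κ)) (p : P14 κ) (s t : Tl κ),
    Sys U → p.Ok (U 1) → Ha2 p s t → s.b1 ≠ 0 → t.b1 ≠ 0 →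
    Pts A_a21 U P_a21

-- deps:
def S_PA22 : Prop :=
  ∀ (κ : Type) [Field κ] (U : ℕ → Submodule κ (PS κ)) (p : P14 κ) (s t : Tl κ),
    Sys U → p.Ok (U 1) → Ha2 p s t → s.b1 ≠ 0 → t.b1 = 0 → t.c0 ≠ 0 →
    Pts A_a22 U P_a22

-- deps:
def S_PA23 : Prop :=
  ∀ (κ : Type) [Field κ] (U : ℕ → Submodule κ (PS κ)) (p : P14 κ) (s t : Tl κ),
    Sys U → p.Ok (U 1) → Ha2 p s t → s.b1 = 0 → t.b1 ≠ 0 → s.c3 ≠ 0 →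
    Pts A_a23 U P_a23

-- deps:
def S_PA24 : Prop :=
  ∀ (κ : Type) [Field κ] (U : ℕ → Submodule κ (PS κ)) (p : P14 κ) (s t : Tl κ),
    Sys U → p.Ok (U 1) → Ha2 p s t → s.b1 = 0 → t.b1 = 0 → s.c3 ≠ 0 → t.c0 ≠ 0 → s.c0 = 0 →
    Pts A_a24 U P_a24

-- deps:
def S_PA25 : Prop :=
  ∀ (κ : Type) [Field κ] (U : ℕ → Submodule κ (PS κ)) (p : P14 κ) (s t : Tl κ),
    Sys U → p.Ok (U 1) → Ha2 p s t → s.b1 = 0 → t.b1 = 0 → t.c0 ≠ 0 → s.c0 ≠ 0 →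
    Pts A_a25 U P_a25

-- deps:
def S_PA31 : Prop :=
  ∀ (κ : Type) [Field κ] (U : ℕ → Submodule κ (PS κ)) (p : P14 κ) (s t : Tl κ),
    Sys U → p.Ok (U 1) → Ha3 p s t → t.c0 ≠ 0 → t.c0 * s.b0 - s.c0 * t.b0 ≠ 0 →
    Pts A_a31 U P_a31

-- deps:
def S_PA32 : Prop :=
  ∀ (κ : Type) [Field κ] (U : ℕ → Submodule κ (PS κ)) (p : P14 κ) (s t : Tl κ),
    Sys U → p.Ok (U 1) → Ha3 p s t → t.c0 = 0 → s.c0 ≠ 0 → t.b0 ≠ 0 →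
    Pts A_a32 U P_a32

-- deps:
def S_PA33 : Prop :=
  ∀ (κ : Type) [Field κ] (U : ℕ → Submodule κ (PS κ)) (p : P14 κ) (s t : Tl κ),
    Sys U → p.Ok (U 1) → Ha3 p s t → t.c0 ≠ 0 → s.b0 = 0 → t.b0 = 0 →
    Pts A_a33 U P_a33

-- deps:
def S_PA34 : Prop :=
  ∀ (κ : Type) [Field κ] (U : ℕ → Submodule κ (PS κ)) (p : P14 κ) (s t : Tl κ),
    Sys U → p.Ok (U 1) → Ha3 p s t → t.c0 ≠ 0 → t.b0 ≠ 0 → t.c0 * s.b0 - s.c0 * t.b0 = 0 →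
    Pts (WC 1 1) U P_a3W ∧ Pts (WC 1 (-1)) U P_a3Y

-- deps:
def S_PB1 : Prop :=
  ∀ (κ : Type) [Field κ] (U : ℕ → Submodule κ (PS κ)) (p : P14 κ) (s t : Tl κ),
    Sys U → p.Ok (U 1) → Hb1 p s t → (t.b1 ≠ 0 ∨ t.b0 ≠ 0) → (t.b1 - 1 ≠ 0 ∨ t.b2 ≠ 0) →
    (t.b1 + t.b0 - 1 ≠ 0 ∨ t.b1 + t.b2 ≠ 0) →
    Pts A_b1 U [(1, 1, 0, 1), (1, 0, 1, 1), (1, 1, 1, 0), (1, 1, 1, 1)] ∧
    (Pt A_b1 U 1 (ex 2 1 0) ∨ Pt A_b1 U 1 (ex 2 0 1)) ∧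
    (Pt A_b1 U 1 (ex 1 2 0) ∨ Pt A_b1 U 1 (ex 0 2 1)) ∧
    (Pt A_b1 U 1 (ex 1 0 2) ∨ Pt A_b1 U 1 (ex 0 1 2))

-- deps:
def S_PB21 : Prop :=
  ∀ (κ : Type) [Field κ] (U : ℕ → Submodule κ (PS κ)) (p : P14 κ) (s t : Tl κ),
    Sys U → p.Ok (U 1) → Hb2 p s t → t.b1 ≠ 0 → t.b1 ≠ 1 →
    Pts A_b21 U P_b21

-- deps:
def S_PB22 : Prop :=
  ∀ (κ : Type) [Field κ] (U : ℕ → Submodule κ (PS κ)) (p : P14 κ) (s t : Tl κ),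
    Sys U → p.Ok (U 1) → Hb2 p s t → t.b1 = 1 → t.b2 ≠ 0 →
    Pts A_b22 U P_b22

-- deps:
def S_PB23 : Prop :=
  ∀ (κ : Type) [Field κ] (U : ℕ → Submodule κ (PS κ)) (p : P14 κ) (s t : Tl κ),
    Sys U → p.Ok (U 1) → Hb2 p s t → t.b1 = 0 → t.b0 ≠ 0 → s.b1 ≠ 0 →
    Pts (WC 2 1) U P_b2W ∧ Pts (WC 2 (-1)) U P_b2Y

-- deps:
def S_PB3A : Prop :=
  ∀ (κ : Type) [Field κ] (U : ℕ → Submodule κ (PS κ)) (p : P14 κ) (s t : Tl κ) (r : κ),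
    Sys U → p.Ok (U 1) → Hb3 p s t 1 → t.b0 ≠ 0 → s.b0 = r * t.b0 →
    r * (s.b1 - r * t.b1) + s.c0 - r * t.c0 ≠ 0 →
    Pts (WC 1 1) U P_b3W ∧ Pts (WC 1 (-1)) U P_b3Y

-- deps:
def S_PB3B : Prop :=
  ∀ (κ : Type) [Field κ] (U : ℕ → Submodule κ (PS κ)) (p : P14 κ) (s t : Tl κ),
    Sys U → p.Ok (U 1) → Hb3 p s t s.b0 → t.b0 = 0 → s.b0 ≠ 0 →
    B3in t.b1 (Gr w3 U 1) (X 0) (X 1) (X 2)

-- deps: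
def S_PTYZ : Prop :=
  ∀ (κ : Type) [Field κ] (a : κ) (U : ℕ → Submodule κ (PS κ)), a ≠ 0 →
    B3in a (U 1) (X 0) (X 1) (X 2) → Pts AZ U P_eZ ∧ Pts AY U P_eY

-- deps: ADM
def S_PTT : Prop :=
  ∀ (κ : Type) [Field κ] (a c : κ) (U : ℕ → Submodule κ (PS κ)), Sys U → c ≠ 0 →
    B3in a (U 1) (thT c 0) (thT c 1) (thT c 2) → Gen lexA U ∧ Pts lexA U P_eT

-- deps:
def S_PTP : Prop :=
  ∀ (κ : Type) [Field κ] (a : κ) (U : ℕ → Submodule κ (PS κ)), Sys U → a ≠ 0 →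
    B3in a (U 1) (thP κ 0) (thP κ 1) (thP κ 2) →
    Gen AP U ∧ (Pts AP U P_eP0 ∨ Pts AP U P_eP1)

-- deps:
def S_ALGT : Prop :=
  ∀ (κ : Type) [Field κ] (a c d : κ), a ≠ 0 → (c ≠ 0 ∨ d ≠ 0) → (a ≠ 1 ∨ bK 1 c d ≠ 0) →
    (a - 1) * (bq 1 c d * bH 1 c d) + d * bK 1 c d ≠ 0 ∨
      a * (a - 1) * bH 1 c d ^ 2 + bq 1 c d * bK 1 c d ≠ 0

-- deps: ADM ALGT
def S_PTL : Prop :=
  ∀ (κ : Type) [Field κ] (a c d : κ) (U : ℕ → Submodule κ (PS κ)), Sys U → a ≠ 0 →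
    (c ≠ 0 ∨ d ≠ 0) → (a ≠ 1 ∨ bK 1 c d ≠ 0) →
    B3in a (U 1) (thL c d 0) (thL c d 1) (thL c d 2) → Gen lexA U ∧
      (Pts lexA U P_eL9a ∨ Pts lexA U P_eL9b ∨ Pts lexA U P_eL10a ∨ Pts lexA U P_eL10b)

-- deps: ADM
def S_PTS : Prop :=
  ∀ (κ : Type) [Field κ] (t : κ) (U : ℕ → Submodule κ (PS κ)), Sys U → t ≠ 0 → t ≠ 1 →
    B3in 1 (U 1) (thS t 0) (thS t 1) (thS t 2) →
    Gen lexA U ∧ (Pts lexA U P_eS3 ∨ Pts lexA U P_eS4)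

-- deps:
def S_CHARTS : Prop :=
  ∀ (κ : Type) [Field κ], IsChart (thP κ) ∧ (∀ c d : κ, IsChart (thL c d)) ∧
    (∀ t : κ, IsChart (thS t)) ∧ ∀ c : κ, IsChart (thT c)

-- deps:
def S_PULLB : Prop :=
  ∀ (κ κ' : Type) [Field κ] [Field κ'] [Algebra κ κ'] (a : κ) (θ : Fin 3 → PS κ')
    (G : ℕ → Submodule κ (PS κ)), (∀ j, constantCoeff (θ j) = 0) →
    B3in a (G 1) (X 0) (X 1) (X 2) →
    B3in (algebraMap κ κ' a) (Pull κ' θ G 1) (θ 0) (θ 1) (θ 2)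

-- deps: ADM SB CERT PULL PULLB CHARTS PTYZ PTT PTP PTL PTS
-- imports: Pool.Agent.P.MP_6149fc_ag.V18.BaseCert
def S_SUMS : Prop :=
  ∀ (κ : Type) [Field κ] (a : κ) (G : ℕ → Submodule κ (PS κ)) (V : ℝ), B3 a G V →
    (SumLe AZ G 0 1 V ∧ SumLe AZ G 1 1 V) ∧ (SumLe AY G 0 1 V ∧ SumLe AY G 2 1 V) ∧
    ∀ (κ' : Type) [Field κ'] [Algebra κ κ'],
      (SumLe AP (Pull κ' (thP κ') G) 0 6 V ∧ SumLe AP (Pull κ' (thP κ') G) 1 1 V ∧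
        SumLe AP (Pull κ' (thP κ') G) 2 1 V) ∧
      (∀ c : κ', c ≠ 0 → SumLe lexA (Pull κ' (thT c) G) 1 1 V ∧
        SumLe lexA (Pull κ' (thT c) G) 2 1 V) ∧
      (∀ c d : κ', (c ≠ 0 ∨ d ≠ 0) → (a ≠ 1 ∨ bK 1 c d ≠ 0) →
        SumLe lexA (Pull κ' (thL c d) G) 1 1 V ∧ SumLe lexA (Pull κ' (thL c d) G) 2 1 V) ∧
      ∀ t : κ', a = 1 → t ≠ 0 → t ≠ 1 → SumLe lexA (Pull κ' (thS t) G) 1 1 V ∧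
        SumLe lexA (Pull κ' (thS t) G) 2 1 V

-- deps: ADM REGF SUMS
def S_EYZ : Prop :=
  ∀ (κ : Type) [Field κ] (a : κ) (G : ℕ → Submodule κ (PS κ)) (V : ℝ), B3 a G V → KBd G V →
    RegB G V (fun o => o 2 < 3 * o 0 ∧ 2 * o 2 < 3 * o 1) ∧
    RegB G V (fun o => o 1 < 2 * o 0 ∧ 3 * o 1 < 2 * o 2)

-- deps: ADM ARCT RECEN CHJET SUMS CHARTS
def S_ET : Prop :=
  ∀ (κ : Type) [Field κ] [CharZero κ] (a : κ) (G : ℕ → Submodule κ (PS κ)) (V : ℝ), B3 a G V →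
    KBd G V → RegB G V (fun o => 3 * o 1 = 2 * o 2 ∧ o 1 < 2 * o 0)

-- deps: ARCX
def S_EX : Prop :=
  ∀ (κ : Type) [Field κ] (G : ℕ → Submodule κ (PS κ)) (V : ℝ), 0 ≤ V →
    RegX G V (fun _ _ _ _ _ => True) → RegB G V (fun o => 2 * o 0 ≤ o 1 ∧ 3 * o 0 ≤ o 2)

-- deps: RECEN CHJET
def S_EXG : Prop :=
  ∀ (κ L : Type) [Field κ] [CharZero κ] [Field L] [Algebra κ L] (s : Finset L)
    (G : ℕ → Submodule κ (PS κ)) (V : ℝ)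
    (θ : Fin 3 → PS (IntermediateField.adjoin κ (s : Set L)))
    (η1 η2 : PS (IntermediateField.adjoin κ (s : Set L))) (A : Rows) (M μ n : ℕ)
    (g : Fin n → PS κ) (k : Fin n → ℕ) (z : Fin 3 → PowerSeries L) (Y Z ζ1 ζ2 : PowerSeries L)
    (N a e : ℕ), s.card ≤ 2 → IsChart θ → θ 0 = X 0 → θ 1 = X 0 ^ 2 * η1 → θ 2 = X 0 ^ 3 * η2 →
    Adm A → First A e1 → A 1 0 = 0 → A 2 0 = 0 → 0 ≤ V → SumLe A (Pull _ θ G) 1 1 V →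
    SumLe A (Pull _ θ G) 2 1 V → KBd G V → Big V M μ → Fam w3 G M g k → Cen z →
    (z 0).order = e → 1 ≤ e → z 1 = z 0 ^ 2 * Y → z 2 = z 0 ^ 3 * Z →
    PowerSeries.constantCoeff ζ1 = 0 → PowerSeries.constantCoeff ζ2 = 0 →
    Y = sub ![z 0, ζ1, ζ2] η1 → Z = sub ![z 0, ζ1, ζ2] η2 →
    PowerSeries.X ^ N ∣ sub z (∏ i, g i) → Cod κ ![z 0, Y, Z] (N - 3 * e) (a - 5 * e) →
    4 * e ≤ N → 6 * e ≤ a → N ≤ μ * (a + 3)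

-- deps: ADM EXG SUMS CHARTS
def S_EXP : Prop :=
  ∀ (κ : Type) [Field κ] [CharZero κ] (a : κ) (G : ℕ → Submodule κ (PS κ)) (V : ℝ), B3 a G V →
    KBd G V → RegX G V (fun _ _ _ c d => c = 0 ∧ d = 0) ∧
      RegX G V (fun _ _ _ c d => (c ≠ 0 ∨ d ≠ 0) ∧ (a ≠ 1 ∨ bK 1 c d ≠ 0))

-- deps: ADM EXG SUMS CHARTS
def S_EXS : Prop :=
  ∀ (κ : Type) [Field κ] [CharZero κ] (a : κ) (G : ℕ → Submodule κ (PS κ)) (V : ℝ), B3 a G V →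
    KBd G V → RegX G V (fun _ _ _ c d => (c ≠ 0 ∨ d ≠ 0) ∧ a = 1 ∧ bK 1 c d = 0)

-- deps: ADM TRUNC KB0 SUMS CHARTS EYZ ET EX EXP EXS
def S_EALL : Prop :=
  ∀ (κ : Type) [Field κ] [CharZero κ] (a : κ) (G : ℕ → Submodule κ (PS κ)) (V : ℝ), B3 a G V →
    HomB w3 G V

-- deps: ADM SB ENGS
def S_SIMPLE : Prop :=
  ∀ (κ : Type) [Field κ] (A : Rows) (P : List PT) (U : ℕ → Submodule κ (PS κ)) (V : ℝ),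
    admB A → (∀ p ∈ P, 1 ≤ p.1) → Bary (unitP ++ P) 0 1 → Bary (unitP ++ P) 1 1 →
    Bary (unitP ++ P) 2 1 → Ctx U V → (∀ j, X j ∈ U 1) → Pts A U P → Loc U V

-- deps: ADM SB ENGC
def S_WALL : Prop :=
  ∀ (κ : Type) [Field κ] [IsAlgClosed κ] (d : ℕ) (P Q : List PT) (τ0 τ1 τ2 : ℚ)
    (U : ℕ → Submodule κ (PS κ)) (V : ℝ), (d = 1 ∨ d = 2) → (∀ p ∈ P, 1 ≤ p.1) →
    (∀ p ∈ Q, 1 ≤ p.1) → Bary (unitP ++ P) 0 τ0 → Bary (unitP ++ P) 1 τ1 →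
    Bary (unitP ++ P) 2 τ2 → Bary (unitP ++ Q) 1 1 →
    (0 ≤ τ0 ∧ 0 ≤ τ1 ∧ 0 ≤ τ2 ∧ τ0 ≤ 1 ∧ τ2 ≤ 1 ∧ 2 * τ0 + d * τ1 ≤ 2 + d ∧ τ1 + 2 * τ2 ≤ 3 ∧
      τ1 ≤ 2) → Ctx U V → (∀ j, X j ∈ U 1) → Pts (WC d 1) U P → Pts (WC d (-1)) U Q → Loc U V

-- deps: SIMPLE CERT PA0A
-- imports: Pool.Agent.P.MP_6149fc_ag.V18.BaseCert
def S_LA0A : Prop :=
  ∀ (κ : Type) [Field κ] [IsAlgClosed κ] [CharZero κ] (U : ℕ → Submodule κ (PS κ)) (V : ℝ)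
    (p : P14 κ) (s t : Tl κ) (v0 v2 : κ), Ctx U V → p.Ok (U 1) → Ha0a p s t v0 v2 → v2 ^ 3 ≠ v0 →
    Loc U V

-- deps: SIMPLE CERT PA0B
-- imports: Pool.Agent.P.MP_6149fc_ag.V18.BaseCert
def S_LA0B : Prop :=
  ∀ (κ : Type) [Field κ] [IsAlgClosed κ] [CharZero κ] (U : ℕ → Submodule κ (PS κ)) (V : ℝ)
    (p : P14 κ) (s t : Tl κ) (v0 : κ), Ctx U V → p.Ok (U 1) → Ha0b p s t v0 →
    Loc U V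

-- deps: SIMPLE CERT PA1I
-- imports: Pool.Agent.P.MP_6149fc_ag.V18.BaseCert
def S_LA1I : Prop :=
  ∀ (κ : Type) [Field κ] [IsAlgClosed κ] [CharZero κ] (U : ℕ → Submodule κ (PS κ)) (V : ℝ)
    (p : P14 κ) (s t : Tl κ) (ρ : κ), Ctx U V → p.Ok (U 1) → Ha1i p s t ρ → s.b0 + ρ * s.b1 ≠ 0 →
    Loc U V

-- deps: SIMPLE CERT PA1J
-- imports: Pool.Agent.P.MP_6149fc_ag.V18.BaseCert
def S_LA1J : Prop :=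
  ∀ (κ : Type) [Field κ] [IsAlgClosed κ] [CharZero κ] (U : ℕ → Submodule κ (PS κ)) (V : ℝ)
    (p : P14 κ) (s t : Tl κ) (ρ : κ), Ctx U V → p.Ok (U 1) → Ha1j p s t ρ → s.b0 + ρ * s.b1 = 0 → s.c0 ≠ 0 →
    Loc U V

-- deps: SIMPLE CERT PA21 PA22 PA23 PA24 PA25
-- imports: Pool.Agent.P.MP_6149fc_ag.V18.BaseCert
def S_LA2 : Prop :=
  ∀ (κ : Type) [Field κ] [IsAlgClosed κ] [CharZero κ] (U : ℕ → Submodule κ (PS κ)) (V : ℝ)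
    (p : P14 κ) (s t : Tl κ), Ctx U V → p.Ok (U 1) → Ha2 p s t → (t.b1 ≠ 0 ∨ t.c0 ≠ 0) →
    (s.b1 ≠ 0 ∨ s.c3 ≠ 0) →
    Loc U V

-- deps: SIMPLE WALL CERT PA31 PA32 PA33 PA34
-- imports: Pool.Agent.P.MP_6149fc_ag.V18.BaseCert
def S_LA3 : Prop :=
  ∀ (κ : Type) [Field κ] [IsAlgClosed κ] [CharZero κ] (U : ℕ → Submodule κ (PS κ)) (V : ℝ)
    (p : P14 κ) (s t : Tl κ), Ctx U V → p.Ok (U 1) → Ha3 p s t →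
    (t.c0 ≠ 0 ∨ s.c0 ≠ 0 ∧ t.b0 ≠ 0) →
    Loc U V

-- deps: SIMPLE CERT PB1
-- imports: Pool.Agent.P.MP_6149fc_ag.V18.BaseCert
def S_LB1 : Prop :=
  ∀ (κ : Type) [Field κ] [IsAlgClosed κ] [CharZero κ] (U : ℕ → Submodule κ (PS κ)) (V : ℝ)
    (p : P14 κ) (s t : Tl κ), Ctx U V → p.Ok (U 1) → Hb1 p s t → (t.b1 ≠ 0 ∨ t.b0 ≠ 0) →
    (t.b1 - 1 ≠ 0 ∨ t.b2 ≠ 0) → (t.b1 + t.b0 - 1 ≠ 0 ∨ t.b1 + t.b2 ≠ 0) →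
    Loc U V

-- deps: SIMPLE WALL CERT PB21 PB22 PB23
-- imports: Pool.Agent.P.MP_6149fc_ag.V18.BaseCert
def S_LB2 : Prop :=
  ∀ (κ : Type) [Field κ] [IsAlgClosed κ] [CharZero κ] (U : ℕ → Submodule κ (PS κ)) (V : ℝ)
    (p : P14 κ) (s t : Tl κ), Ctx U V → p.Ok (U 1) → Hb2 p s t → (t.b1 - 1 ≠ 0 ∨ t.b2 ≠ 0) →
    (t.b1 ≠ 0 ∨ t.b0 ≠ 0 ∧ s.b1 ≠ 0) →
    Loc U V

-- deps: WALL CERT PB3A
-- imports: Pool.Agent.P.MP_6149fc_ag.V18.BaseCert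
def S_LB3A : Prop :=
  ∀ (κ : Type) [Field κ] [IsAlgClosed κ] [CharZero κ] (U : ℕ → Submodule κ (PS κ)) (V : ℝ)
    (p : P14 κ) (s t : Tl κ) (r : κ), Ctx U V → p.Ok (U 1) → Hb3 p s t 1 → t.b0 ≠ 0 → s.b0 = r * t.b0 →
    r * (s.b1 - r * t.b1) + s.c0 - r * t.c0 ≠ 0 →
    Loc U V

-- deps: ADM GR GRED EALL PB3B
def S_LB3B : Prop :=
  ∀ (κ : Type) [Field κ] [IsAlgClosed κ] [CharZero κ] (U : ℕ → Submodule κ (PS κ)) (V : ℝ)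
    (p : P14 κ) (s t : Tl κ), Ctx U V → p.Ok (U 1) → Hb3 p s t s.b0 → t.b0 = 0 → s.b0 ≠ 0 → t.b1 ≠ 0 →
    Loc U V

end Pool.Agent.P.MP_6149fc_ag.V18
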