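import Pool.Agent.P.MP_6149fc_ag.V18.IfaceG
import Pool.Agent.P.MP_6149fc_ag.V18.IfaceC

section

/-! Step QA0. -/

set_option autoImplicit false
set_option linter.unusedSectionVars false

namespace Pool.Agent.P.MP_6149fc_ag.V18

open scoped ENNReal
open MvPowerSeries (coeff X constantCoeff monomial)

namespace QA0x
variable {κ : Type} [Field κ]

/-- The linear form with linear part `a` and no other terms. -/
def ext (a : Fin 5 → κ) : Fin 14 → κ := ![0, a 0, a 1, a 2, a 3, 0, a 4, 0, 0, 0, 0, 0, 0, 0]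

theorem lin_ext (a : Fin 5 → κ) : Lin (ext a) = a := by
  funext i
  fin_cases i
  · rfl
  · rfl
  · rfl
  · rfl
  · exact add_zero _

theorem dot_ext {p : P14 κ} {W : Submodule κ (PS κ)} (h : p.Ok W) (a : Fin 5 → κ) :
    dot (ext a) p.vec = a 0 • p.x + a 1 • p.y + a 2 • p.z + a 3 • p.w + a 4 • p.A := by
  rw [dot_vec h _ rfl, lin_ext]
  have : tlOf (ext a) = ⟨-0, 0, -0, -0, -0, -0, -0, -0⟩ := rfl
  rw [this]
  simp [P14.tl]

end QA0x

open QA0x in
theorem p_QA0 (hPARG : S_PARG) (hLA0A : S_LA0A) (hLA0B : S_LA0B) :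
    S_QA0 := by
  intro κ _ _ _
  refine ⟨fun v0 v2 hv l1 l2 h1 h2 e1 e2 _ => ?_, fun v0 l1 l2 h1 h2 e1 e2 _ => ?_⟩
  · refine hPARG κ l1 l2 ![ext ![0, 1, 0, -v2 ^ 2, 0], ext ![0, 0, 0, 1, 0], ext ![0, 0, 0, 0, 1]]
      h1 h2 (fun j => by fin_cases j <;> rfl) (fun v a1 a2 a3 => ?_)
      fun p U V hc h d1 d2 d3 => ?_
    · have b0 := a3 0
      have b1 := a3 1
      have b2 := a3 2
      simp only [Matrix.cons_val_zero, Matrix.cons_val_one, Matrix.cons_val, lin_ext] at b0 b1 b2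
      rw [e1] at a1
      rw [e2] at a2
      simp [dotProduct, Fin.sum_univ_five] at a1 a2 b0 b1 b2
      funext i
      fin_cases i <;> simp_all
    · have b0 := d3 0
      have b1 := d3 1
      have b2 := d3 2
      simp only [Matrix.cons_val_zero, Matrix.cons_val_one, Matrix.cons_val, dot_ext h] at b0 b1 b2
      rw [dot_vec h l1 h1, e1] at d1
      rw [dot_vec h l2 h2, e2] at d2
      simp only [Matrix.cons_val_zero, Matrix.cons_val_one, Matrix.cons_val] at d1 d2
      refine hLA0A κ U V p (tlOf l1) (tlOf l2) v0 v2 hc h ⟨?_, ?_, ?_, ?_, ?_⟩ hv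
      · linear_combination (norm := module) d1
      · linear_combination (norm := module) d2
      · linear_combination (norm := module) b0
      · linear_combination (norm := module) b1
      · linear_combination (norm := module) b2
  · refine hPARG κ l1 l2 ![ext ![0, 1, 0, 0, 0], ext ![0, 0, 1, 0, 0], ext ![0, 0, 0, 0, 1]]
      h1 h2 (fun j => by fin_cases j <;> rfl) (fun v a1 a2 a3 => ?_)
      fun p U V hc h d1 d2 d3 => ?_
    · have b0 := a3 0
      have b1 := a3 1
      have b2 := a3 2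
      simp only [Matrix.cons_val_zero, Matrix.cons_val_one, Matrix.cons_val, lin_ext] at b0 b1 b2
      rw [e1] at a1
      rw [e2] at a2
      simp [dotProduct, Fin.sum_univ_five] at a1 a2 b0 b1 b2
      funext i
      fin_cases i <;> simp_all
    · have b0 := d3 0
      have b1 := d3 1
      have b2 := d3 2
      simp only [Matrix.cons_val_zero, Matrix.cons_val_one, Matrix.cons_val, dot_ext h] at b0 b1 b2
      rw [dot_vec h l1 h1, e1] at d1
      rw [dot_vec h l2 h2, e2] at d2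
      simp only [Matrix.cons_val_zero, Matrix.cons_val_one, Matrix.cons_val] at d1 d2
      refine hLA0B κ U V p (tlOf l1) (tlOf l2) v0 hc h ⟨?_, ?_, ?_, ?_, ?_⟩
      · linear_combination (norm := module) d1
      · linear_combination (norm := module) d2
      · linear_combination (norm := module) b0
      · linear_combination (norm := module) b1
      · linear_combination (norm := module) b2

end Pool.Agent.P.MP_6149fc_ag.V18

end

section

/-! Step QA1. -/

set_option autoImplicit false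
set_option linter.unusedSectionVars false

namespace Pool.Agent.P.MP_6149fc_ag.V18

open scoped ENNReal
open MvPowerSeries (coeff X constantCoeff monomial)

namespace QA1x

theorem lin_single {κ : Type} [Field κ] (k : Fin 14) (v : Fin 5 → κ) :
    Lin (Pi.single k (1 : κ)) ⬝ᵥ v =
      (if (1 : Fin 14) = k then v 0 else 0) + (if (2 : Fin 14) = k then v 1 else 0) +
      (if (3 : Fin 14) = k then v 2 else 0) + (if (4 : Fin 14) = k then v 3 else 0) +
      ((if (6 : Fin 14) = k then v 4 else 0) + (if (7 : Fin 14) = k then v 4 else 0)) := by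
  simp only [dotProduct, Fin.sum_univ_five, Lin, Pi.single_apply]
  simp [add_mul]

theorem dot_sing {κ : Type} [Field κ] (k : Fin 14) (q : Fin 14 → PS κ) :
    dot (Pi.single k (1 : κ)) q = q k := by
  simp [dot, Pi.single_apply]

theorem eqs {κ : Type} [Field κ] {p : P14 κ} {W : Submodule κ (PS κ)} (h : p.Ok W) (ρ : κ)
    {l1 l2 : Fin 14 → κ} (h1 : l1 0 = 0) (h2 : l2 0 = 0) (e1 : Lin l1 = ![0, 0, -ρ, 1, 0])
    (e2 : Lin l2 = ![0, 1, 0, 0, 0]) (d1 : dot l1 p.vec = 0) (d2 : dot l2 p.vec = 0) :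
    p.w = ρ • p.z + p.tl (tlOf l1) ∧ p.y = p.tl (tlOf l2) := by
  rw [dot_vec h l1 h1, e1] at d1
  rw [dot_vec h l2 h2, e2] at d2
  simp only [Matrix.cons_val_zero, Matrix.cons_val_one, Matrix.cons_val, zero_smul, one_smul,
    zero_add, add_zero, neg_smul] at d1 d2
  constructor
  · linear_combination d1
  · linear_combination d2

theorem inj {κ : Type} [Field κ] (ρ : κ) (v : Fin 5 → κ)
    (a : (![0, 0, -ρ, 1, 0] : Fin 5 → κ) ⬝ᵥ v = 0) (b : (![0, 1, 0, 0, 0] : Fin 5 → κ) ⬝ᵥ v = 0)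
    (c0 : v 0 = 0) (c2 : v 2 = 0) (c4 : v 4 = 0) : v = 0 := by
  simp [dotProduct, Fin.sum_univ_five, c2] at a b
  funext i
  fin_cases i
  · exact c0
  · exact b
  · exact c2
  · exact a
  · exact c4

end QA1x

theorem p_QA1 (hPARG : S_PARG) (hLA1I : S_LA1I) (hLA1J : S_LA1J) (hSML : S_SML) :
    S_QA1 := by
  intro κ _ _ _ ρ l1 l2 h1 h2 e1 e2 hSm
  have a1 : l1 1 = 0 := by simpa [Lin] using congrFun e1 0
  have a2 : l1 2 = 0 := by simpa [Lin] using congrFun e1 1
  have a3 : l1 3 = -ρ := by simpa [Lin] using congrFun e1 2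
  have a4 : l1 4 = 1 := by simpa [Lin] using congrFun e1 3
  have a6 : l1 6 + l1 7 = 0 := by simpa [Lin] using congrFun e1 4
  have b1 : l2 1 = 0 := by simpa [Lin] using congrFun e2 0
  by_cases hc : (tlOf l1).b0 + ρ * (tlOf l1).b1 = 0
  · have hc0 : (tlOf l1).c0 ≠ 0 := by
      intro h0
      have h0' : -l1 9 = 0 := h0
      have hc' : -l1 5 + ρ * l1 7 = 0 := hc
      refine hSML κ l1 l2 l1 0 (l1 7) 1 0 hSm h1 h2 ?_ ?_ (Or.inl one_ne_zero) ?_ ?_ ?_ ?_ ?_
      · linear_combination a1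
      · linear_combination b1
      · intro i; ring
      · linear_combination a2
      · linear_combination l1 7 * a3 - hc'
      · linear_combination l1 7 * a4
      · linear_combination l1 7 * a6 - h0'
    refine hPARG κ l1 l2 ![Pi.single 1 1, Pi.single 3 1, Pi.single 6 1] h1 h2 ?_ ?_ ?_
    · intro j; fin_cases j <;> simp
    · intro v a b c
      rw [e1] at a; rw [e2] at b
      have c0 := c 0
      have c1 := c 1
      have c2 := c 2
      simp only [Matrix.cons_val_zero, Matrix.cons_val_one, Matrix.cons_val,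
        QA1x.lin_single] at c0 c1 c2
      exact QA1x.inj ρ v a b (by simpa using c0) (by simpa using c1) (by simpa using c2)
    · intro p U V hU hp d1 d2 c
      obtain ⟨q1, q2⟩ := QA1x.eqs hp ρ h1 h2 e1 e2 d1 d2
      have c0 := c 0
      have c1 := c 1
      have c2 := c 2
      simp only [Matrix.cons_val_zero, Matrix.cons_val_one, Matrix.cons_val,
        QA1x.dot_sing] at c0 c1 c2
      exact hLA1J κ U V p (tlOf l1) (tlOf l2) ρ hU hp ⟨q1, q2, c0, c1, c2⟩ hc hc0
  · refine hPARG κ l1 l2 ![Pi.single 1 1, Pi.single 3 1, Pi.single 7 1] h1 h2 ?_ ?_ ?_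
    · intro j; fin_cases j <;> simp
    · intro v a b c
      rw [e1] at a; rw [e2] at b
      have c0 := c 0
      have c1 := c 1
      have c2 := c 2
      simp only [Matrix.cons_val_zero, Matrix.cons_val_one, Matrix.cons_val,
        QA1x.lin_single] at c0 c1 c2
      exact QA1x.inj ρ v a b (by simpa using c0) (by simpa using c1) (by simpa using c2)
    · intro p U V hU hp d1 d2 c
      obtain ⟨q1, q2⟩ := QA1x.eqs hp ρ h1 h2 e1 e2 d1 d2
      have c0 := c 0
      have c1 := c 1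
      have c2 := c 2
      simp only [Matrix.cons_val_zero, Matrix.cons_val_one, Matrix.cons_val,
        QA1x.dot_sing] at c0 c1 c2
      exact hLA1I κ U V p (tlOf l1) (tlOf l2) ρ hU hp ⟨q1, q2, c0, c1, c2⟩ hc

end Pool.Agent.P.MP_6149fc_ag.V18

end

section

/-! Step QA2. -/

set_option autoImplicit false
set_option linter.unusedSectionVars false

namespace Pool.Agent.P.MP_6149fc_ag.V18

open scoped ENNReal
open MvPowerSeries (coeff X constantCoeff monomial)

namespace QA2x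

theorem dot_one {κ C : Type} [Field κ] [CommRing C] [Algebra κ C] (j : Fin 14) (p : Fin 14 → C) :
    dot (Pi.single j (1 : κ)) p = p j := by
  simp [dot, Pi.single_apply, ite_smul]

end QA2x

theorem p_QA2 (hPARG : S_PARG) (hLA2 : S_LA2) (hSML : S_SML) (hSMW : S_SMW) :
    S_QA2 := by
  intro κ _ _ _ l1 l2 h1 h2 e1 e2 hSm
  have a1 : l1 1 = 0 := congrFun e1 0
  have a2 : l1 2 = 1 := congrFun e1 1
  have a3 : l1 3 = 0 := congrFun e1 2
  have a4 : l1 4 = 0 := congrFun e1 3
  have a5 : l1 6 + l1 7 = 0 := congrFun e1 4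
  have b1 : l2 1 = 0 := congrFun e2 0
  have b2 : l2 2 = 0 := congrFun e2 1
  have b3 : l2 3 = 1 := congrFun e2 2
  have b4 : l2 4 = 0 := congrFun e2 3
  have b5 : l2 6 + l2 7 = 0 := congrFun e2 4
  have n1 : (tlOf l2).b1 ≠ 0 ∨ (tlOf l2).c0 ≠ 0 := by
    by_contra hc
    obtain ⟨c1, c2⟩ := not_or.1 hc
    have c1 : l2 7 = 0 := not_not.1 c1
    have c2 : -l2 9 = 0 := not_not.1 c2
    exact hSML κ l1 l2 l2 0 (-l2 5) 0 1 hSm h1 h2 (by simp [a1]) (by simp [b1])
      (.inr one_ne_zero) (fun i => by ring) (by simp [b2]) (by rw [b3]; ring)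
      (by rw [b4, c1]; ring) (by rw [b5]; linear_combination -c2)
  have n2 : (tlOf l1).b1 ≠ 0 ∨ (tlOf l1).c3 ≠ 0 := by
    by_contra hc
    obtain ⟨c1, c2⟩ := not_or.1 hc
    have c1 : l1 7 = 0 := not_not.1 c1
    have c2 : -l1 12 = 0 := not_not.1 c2
    exact hSMW κ l1 l2 l1 (-l1 8) 1 0 hSm h1 h2 a4 b4 (.inl one_ne_zero) (fun i => by ring) a3
      (by rw [a2]; ring) (by rw [a1]; linear_combination a5 - c1)
      (by rw [a5]; linear_combination -c2)
  refine hPARG κ l1 l2 ![Pi.single 1 1, Pi.single 4 1, Pi.single 6 1] h1 h2 (fun j => ?_)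
    (fun v v1 v2 v3 => ?_) fun p U V hc h d1 d2 d3 => ?_
  · fin_cases j <;> simp
  · rw [e1] at v1
    rw [e2] at v2
    have w0 := v3 0
    have w1 := v3 1
    have w2 := v3 2
    simp [dotProduct, Fin.sum_univ_five, Lin] at v1 v2 w0 w1 w2
    funext i
    fin_cases i <;> assumption
  · rw [dot_vec h l1 h1, e1] at d1
    rw [dot_vec h l2 h2, e2] at d2
    have w0 : p.x = X 0 := (QA2x.dot_one (κ := κ) 1 p.vec).symm.trans (d3 0)
    have w1 : p.w = X 1 := (QA2x.dot_one (κ := κ) 4 p.vec).symm.trans (d3 1)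
    have w2 : p.A = X 2 := (QA2x.dot_one (κ := κ) 6 p.vec).symm.trans (d3 2)
    refine hLA2 κ U V p (tlOf l1) (tlOf l2) hc h ⟨?_, ?_, w0, w1, w2⟩ n1 n2
    · simpa [sub_eq_zero] using d1
    · simpa [sub_eq_zero] using d2

end Pool.Agent.P.MP_6149fc_ag.V18

end

section

/-! Step QA3. -/

set_option autoImplicit false
set_option linter.unusedSectionVars false

namespace Pool.Agent.P.MP_6149fc_ag.V18

open scoped ENNReal
open MvPowerSeries (coeff X constantCoeff monomial)

theorem p_QA3 (hPARG : S_PARG) (hLA3 : S_LA3) (hSML : S_SML) (hEIG : S_EIG) :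
    S_QA3 := by
  intro κ _ _ _ l1 l2 h1 h2 e1 e2 hSm
  have a1 : l1 1 = 0 := congrFun e1 0
  have a2 : l1 2 = 0 := congrFun e1 1
  have a3 : l1 3 = 1 := congrFun e1 2
  have a4 : l1 4 = 0 := congrFun e1 3
  have a5 : l1 6 + l1 7 = 0 := congrFun e1 4
  have b1 : l2 1 = 0 := congrFun e2 0
  have b2 : l2 2 = 0 := congrFun e2 1
  have b3 : l2 3 = 0 := congrFun e2 2
  have b4 : l2 4 = 1 := congrFun e2 3
  have b5 : l2 6 + l2 7 = 0 := congrFun e2 4
  have key : ∀ u r s : κ, (r ≠ 0 ∨ s ≠ 0) → u * r = r * -l1 5 + s * -l2 5 →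
      u * s = r * l1 7 + s * l2 7 → r * l1 9 + s * l2 9 = 0 → False := by
    intro u r s hrs c1 c2 c3
    refine hSML κ l1 l2 (fun i => r * l1 i + s * l2 i) 0 u r s hSm h1 h2 ?_ ?_ hrs
      (fun _ => rfl) ?_ ?_ ?_ ?_
    · rw [a1]; ring
    · rw [b1]; ring
    · simp only [a2, b2]; ring
    · simp only [a3, b3]; linear_combination c1
    · simp only [a4, b4]; linear_combination c2
    · linear_combination c3 + u * r * a5 + u * s * b5
  have hc : (tlOf l2).c0 ≠ 0 ∨ (tlOf l1).c0 ≠ 0 ∧ (tlOf l2).b0 ≠ 0 := by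
    change -l2 9 ≠ 0 ∨ -l1 9 ≠ 0 ∧ -l2 5 ≠ 0
    by_cases c : -l2 9 = 0
    · refine Or.inr ⟨fun d => ?_, fun d => ?_⟩
      · obtain ⟨u, r, s, hrs, c1, c2⟩ := hEIG κ (-l1 5) (l1 7) (-l2 5) (l2 7)
        exact key u r s hrs c1 c2 (by linear_combination -r * d - s * c)
      · exact key (l2 7) 0 1 (Or.inr one_ne_zero) (by linear_combination -d) (by ring)
          (by linear_combination -c)
    · exact Or.inl c
  refine hPARG κ l1 l2 ![Pi.single 1 1, Pi.single 2 1, Pi.single 6 1] h1 h2 ?_ ?_ ?_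
  · intro j
    fin_cases j <;> simp
  · intro v c1 c2 c3
    rw [e1] at c1
    rw [e2] at c2
    have d0 := c3 0
    have d1 := c3 1
    have d2 := c3 2
    simp [dotProduct, Fin.sum_univ_five, Lin] at c1 c2 d0 d1 d2
    funext i
    fin_cases i <;> simp [*]
  · intro p U V hU hp c1 c2 c3
    have d0 := c3 0
    have d1 := c3 1
    have d2 := c3 2
    rw [dot_vec hp l1 h1, e1] at c1
    rw [dot_vec hp l2 h2, e2] at c2
    simp [dot, Pi.single_apply, P14.vec] at d0 d1 d2
    simp [sub_eq_zero] at c1 c2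
    exact hLA3 κ U V p _ _ hU hp ⟨c1, c2, d0, d1, d2⟩ hc

end Pool.Agent.P.MP_6149fc_ag.V18

end

section

/-! Step QB1. -/

set_option autoImplicit false
set_option linter.unusedSectionVars false

namespace Pool.Agent.P.MP_6149fc_ag.V18

open scoped ENNReal
open MvPowerSeries (coeff X constantCoeff monomial)

theorem p_QB1 (hPARG : S_PARG) (hLB1 : S_LB1) (hSML : S_SML) (hSMW : S_SMW) :
    S_QB1 := by
  intro κ _ _ _ l1 l2 h1 h2 e1 e2 hSm
  have a1 : l1 1 = 0 := congrFun e1 0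
  have a2 : l1 2 = 1 := congrFun e1 1
  have a3 : l1 3 = -1 := congrFun e1 2
  have a4 : l1 4 = 0 := congrFun e1 3
  have b1 : l2 1 = 0 := congrFun e2 0
  have b2 : l2 2 = 0 := congrFun e2 1
  have b3 : l2 3 = 0 := congrFun e2 2
  have b4 : l2 4 = 0 := congrFun e2 3
  have b5 : l2 6 + l2 7 = 1 := congrFun e2 4
  have hl : ∀ i, l2 i = 0 * l1 i + 1 * l2 i := fun i => by ring
  have c1 : l2 7 ≠ 0 ∨ -l2 5 ≠ 0 := by
    by_contra hc
    push Not at hc
    obtain ⟨c, d⟩ := hc
    refine hSML κ l1 l2 l2 0 (-l2 9) 0 1 hSm h1 h2 ?_ ?_ (Or.inr one_ne_zero) hl ?_ ?_ ?_ ?_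
    · linear_combination a1
    · linear_combination b1
    · linear_combination b2
    · linear_combination (-l2 9) * b3 - d
    · linear_combination (-l2 9) * b4 - c
    · linear_combination (-l2 9) * b5
  have c2 : l2 7 - 1 ≠ 0 ∨ -l2 8 ≠ 0 := by
    by_contra hc
    push Not at hc
    obtain ⟨c, d⟩ := hc
    refine hSMW κ l1 l2 l2 (-l2 12) 0 1 hSm h1 h2 a4 b4 (Or.inr one_ne_zero) hl b3 ?_ ?_ ?_
    · linear_combination (-l2 12) * b2 - d
    · linear_combination (-l2 12) * b1 + b5 - c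
    · linear_combination (-l2 12) * b5
  have c3 : l2 7 + -l2 5 - 1 ≠ 0 ∨ l2 7 + -l2 8 ≠ 0 := by
    by_contra hc
    push Not at hc
    obtain ⟨c, d⟩ := hc
    refine hSML κ l1 l2 l2 1 (-(l2 9 + l2 10 + l2 11 + l2 12)) 0 1 hSm h1 h2 ?_ ?_
      (Or.inr one_ne_zero) hl ?_ ?_ ?_ ?_
    · linear_combination a1 + a2 + a3 + a4
    · linear_combination b1 + b2 + b3 + b4
    · linear_combination b2 + 2 * b3 + 3 * b4
    · linear_combination (-(l2 9 + l2 10 + l2 11 + l2 12)) * b3 + b5 - c + 2 * d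
    · linear_combination (-(l2 9 + l2 10 + l2 11 + l2 12)) * b4 - d
    · linear_combination (-(l2 9 + l2 10 + l2 11 + l2 12)) * b5
  refine hPARG κ l1 l2 ![![0, 1, -1, 0, 0, 0, 0, 0, 0, 0, 0, 0, 0, 0],
    ![0, 0, -1, 0, 1, 0, 0, 0, 0, 0, 0, 0, 0, 0], ![0, 0, 1, 0, 0, 0, 0, 0, 0, 0, 0, 0, 0, 0]]
    h1 h2 (fun j => by fin_cases j <;> rfl) ?_ ?_
  · intro v g1 g2 g3
    rw [e1] at g1
    rw [e2] at g2
    have m0 := g3 0
    have m1 := g3 1
    have m2 := g3 2
    simp [dotProduct, Fin.sum_univ_five, Lin] at g1 g2 m0 m1 m2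
    have v0 : v 0 = 0 := by linear_combination m0 + m2
    have v2 : v 2 = 0 := by linear_combination m2 - g1
    have v3 : v 3 = 0 := by linear_combination m1 + m2
    funext i
    fin_cases i
    exacts [v0, m2, v2, v3, g2]
  · intro p U V hC hO g1 g2 g3
    rw [dot_vec hO l1 h1, e1] at g1
    rw [dot_vec hO l2 h2, e2] at g2
    have m0 := g3 0
    have m1 := g3 1
    have m2 := g3 2
    simp [dot, sum14, P14.vec] at m0 m1 m2
    simp at g1 g2
    refine hLB1 κ U V p (tlOf l1) (tlOf l2) hC hO ⟨?_, ?_, ?_, ?_, ?_⟩ c1 c2 c3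
    · linear_combination g1
    · linear_combination g2
    · linear_combination m0
    · linear_combination m1
    · linear_combination m2

end Pool.Agent.P.MP_6149fc_ag.V18

end

section

/-! Step QB2. -/

set_option autoImplicit false
set_option linter.unusedSectionVars false

namespace Pool.Agent.P.MP_6149fc_ag.V18

open scoped ENNReal
open MvPowerSeries (coeff X constantCoeff monomial)

namespace QB2x

theorem dot_sing {κ C : Type} [Field κ] [CommRing C] [Algebra κ C] (j : Fin 14)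
    (p : Fin 14 → C) : dot (Pi.single j (1 : κ)) p = p j := by
  rw [dot, Finset.sum_eq_single j]
  · simp
  · intro b _ hb
    simp [Pi.single_apply, hb]
  · simp

end QB2x

theorem p_QB2 (hPARG : S_PARG) (hLB2 : S_LB2) (hSML : S_SML) (hSMW : S_SMW) (hEIG : S_EIG) :
    S_QB2 := by
  intro κ _ _ _ l1 l2 h1 h2 e1 e2 hSm
  have a1 : l1 1 = 0 := congrFun e1 0
  have a2 : l1 2 = 0 := congrFun e1 1
  have a3 : l1 3 = 1 := congrFun e1 2
  have a4 : l1 4 = 0 := congrFun e1 3
  have a5 : l1 6 + l1 7 = 0 := congrFun e1 4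
  have b1 : l2 1 = 0 := congrFun e2 0
  have b2 : l2 2 = 0 := congrFun e2 1
  have b3 : l2 3 = 0 := congrFun e2 2
  have b4 : l2 4 = 0 := congrFun e2 3
  have b5 : l2 6 + l2 7 = 1 := congrFun e2 4
  have c1 : (tlOf l2).b1 - 1 ≠ 0 ∨ (tlOf l2).b2 ≠ 0 := by
    change l2 7 - 1 ≠ 0 ∨ -l2 8 ≠ 0
    by_contra hc
    push Not at hc
    obtain ⟨d1, d2⟩ := hc
    refine hSMW κ l1 l2 l2 (-l2 12) 0 1 hSm h1 h2 a4 b4 (Or.inr one_ne_zero)
      (fun i => by ring) b3 ?_ ?_ ?_
    · linear_combination (-l2 12) * b2 - d2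
    · linear_combination (-l2 12) * b1 + b5 - d1
    · linear_combination (-l2 12) * b5
  have c2 : (tlOf l2).b1 ≠ 0 ∨ (tlOf l2).b0 ≠ 0 ∧ (tlOf l1).b1 ≠ 0 := by
    change l2 7 ≠ 0 ∨ -l2 5 ≠ 0 ∧ l1 7 ≠ 0
    by_cases d1 : l2 7 = 0
    · refine Or.inr ⟨fun d2 => ?_, fun d2 => ?_⟩
      · refine hSML κ l1 l2 l2 0 (-l2 9) 0 1 hSm h1 h2 ?_ ?_ (Or.inr one_ne_zero)
          (fun i => by ring) ?_ ?_ ?_ ?_
        · linear_combination a1
        · linear_combination b1
        · linear_combination b2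
        · linear_combination (-l2 9) * b3 - d2
        · linear_combination (-l2 9) * b4 - d1
        · linear_combination (-l2 9) * b5
      · obtain ⟨u, r, s, hrs, f1, f2⟩ := hEIG κ (-l1 5) (-l1 9) (-l2 5) (-l2 9)
        refine hSML κ l1 l2 (fun i => r * l1 i + s * l2 i) 0 u r s hSm h1 h2 ?_ ?_ hrs
          (fun i => rfl) ?_ ?_ ?_ ?_
        · linear_combination a1
        · linear_combination b1
        · linear_combination r * a2 + s * b2
        · linear_combination u * r * a3 + u * s * b3 + f1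
        · linear_combination u * r * a4 + u * s * b4 - r * d2 - s * d1
        · linear_combination u * r * a5 + u * s * b5 + f2
    · exact Or.inl d1
  refine hPARG κ l1 l2 ![Pi.single 1 1, Pi.single 2 1, Pi.single 4 1] h1 h2 ?_ ?_ ?_
  · intro j
    fin_cases j <;> simp
  · intro v v1 v2 v3
    have w0 := v3 0
    have w1 := v3 1
    have w2 := v3 2
    rw [e1] at v1
    rw [e2] at v2
    simp [dotProduct, Fin.sum_univ_five, Lin] at v1 v2 w0 w1 w2
    funext i
    fin_cases i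
    · exact w0
    · exact w1
    · exact v1
    · exact w2
    · exact v2
  · intro p U V hc hp d1 d2 d3
    rw [dot_vec hp l1 h1, e1] at d1
    rw [dot_vec hp l2 h2, e2] at d2
    have w0 : p.x = X 0 := (QB2x.dot_sing (κ := κ) 1 p.vec).symm.trans (d3 0)
    have w1 : p.y = X 1 := (QB2x.dot_sing (κ := κ) 2 p.vec).symm.trans (d3 1)
    have w2 : p.w = X 2 := (QB2x.dot_sing (κ := κ) 4 p.vec).symm.trans (d3 2)
    refine hLB2 κ U V p (tlOf l1) (tlOf l2) hc hp ⟨?_, ?_, w0, w1, w2⟩ c1 c2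
    · simpa [sub_eq_zero] using d1
    · simpa [sub_eq_zero] using d2

end Pool.Agent.P.MP_6149fc_ag.V18

end

section

/-! Step QB3. -/

set_option autoImplicit false
set_option linter.unusedSectionVars false

namespace Pool.Agent.P.MP_6149fc_ag.V18

open scoped ENNReal
open MvPowerSeries (coeff X constantCoeff monomial)

namespace QB3x

variable {κ : Type} [Field κ] {l1 l2 : Fin 14 → κ}

theorem par (hPARG : S_PARG) (h1 : l1 0 = 0) (h2 : l2 0 = 0) (e1 : Lin l1 = ![0, 0, 0, 1, 0])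
    (e2 : Lin l2 = ![0, 0, 0, 0, 1]) {β : κ} (hβ : β ≠ 0)
    (h : ∀ (p : P14 κ) (U : ℕ → Submodule κ (PS κ)) (V : ℝ), Ctx U V → p.Ok (U 1) →
      Hb3 p (tlOf l1) (tlOf l2) β → Loc U V) : Goal l1 l2 (e0 κ) := by
  refine hPARG κ l1 l2 ![Pi.single 1 β, Pi.single 2 β, Pi.single 3 β] h1 h2
    (fun j => by fin_cases j <;> simp) (fun v a1 a2 a3 => ?_) fun p U V hc ho a1 a2 a3 =>
      h p U V hc ho ?_
  · have b0 := a3 0
    have b1 := a3 1
    have b2 := a3 2
    rw [e1] at a1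
    rw [e2] at a2
    simp [dotProduct, Fin.sum_univ_five, Lin, hβ] at a1 a2 b0 b1 b2
    funext i
    fin_cases i <;> simpa
  · rw [dot_vec ho l1 h1, e1] at a1
    rw [dot_vec ho l2 h2, e2] at a2
    have b0 := a3 0
    have b1 := a3 1
    have b2 := a3 2
    simp only [dot, sum14] at b0 b1 b2
    refine ⟨by simpa [sub_eq_zero] using a1, by simpa [sub_eq_zero] using a2, ?_, ?_, ?_⟩
    · simpa [P14.vec] using b0
    · simpa [P14.vec] using b1
    · simpa [P14.vec] using b2

theorem sml (hSML : S_SML) (hS : Sm l1 l2) (h1 : l1 0 = 0) (h2 : l2 0 = 0)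
    (e1 : Lin l1 = ![0, 0, 0, 1, 0]) (e2 : Lin l2 = ![0, 0, 0, 0, 1]) (u r s : κ)
    (h : r ≠ 0 ∨ s ≠ 0) (c1 : r * l1 5 + s * l2 5 = 0) (c2 : u * r = r * l1 7 + s * l2 7)
    (c3 : u * s = r * -l1 9 + s * -l2 9) : False := by
  have a1 : l1 1 = 0 := congrFun e1 0
  have a2 : l1 2 = 0 := congrFun e1 1
  have a3 : l1 3 = 0 := congrFun e1 2
  have a4 : l1 4 = 1 := congrFun e1 3
  have a5 : l1 6 + l1 7 = 0 := congrFun e1 4
  have b1 : l2 1 = 0 := congrFun e2 0
  have b2 : l2 2 = 0 := congrFun e2 1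
  have b3 : l2 3 = 0 := congrFun e2 2
  have b4 : l2 4 = 0 := congrFun e2 3
  have b5 : l2 6 + l2 7 = 1 := congrFun e2 4
  exact hSML κ l1 l2 (fun i => r * l1 i + s * l2 i) 0 u r s hS h1 h2 (by linear_combination a1)
    (by linear_combination b1) h (fun _ => rfl) (by linear_combination r * a2 + s * b2)
    (by linear_combination c1 + u * r * a3 + u * s * b3)
    (by linear_combination c2 + u * r * a4 + u * s * b4)
    (by linear_combination c3 + u * r * a5 + u * s * b5)

end QB3x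

open QB3x in
theorem p_QB3 (hPARG : S_PARG) (hLB3A : S_LB3A) (hLB3B : S_LB3B) (hSML : S_SML) (hEIG : S_EIG) :
    S_QB3 := by
  intro κ _ _ _ l1 l2 h1 h2 e1 e2 hS
  have key := sml hSML hS h1 h2 e1 e2
  by_cases h : l2 5 = 0
  · have h3 : -l1 5 ≠ 0 := fun h3 => by
      obtain ⟨u, r, s, c0, c1, c2⟩ := hEIG κ (l1 7) (-l1 9) (l2 7) (-l2 9)
      exact key u r s c0 (by linear_combination s * h - r * h3) c1 c2
    have h4 : l2 7 ≠ 0 := fun h4 =>
      key (-l2 9) 0 1 (.inr one_ne_zero) (by linear_combination h) (by linear_combination -h4)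
        (by ring)
    exact par hPARG h1 h2 e1 e2 h3 fun p U V hc ho hH =>
      hLB3B κ U V p _ _ hc ho hH (neg_eq_zero.2 h) h3 h4
  · have h3 : l1 5 / l2 5 * l2 5 = l1 5 := div_mul_cancel₀ _ h
    refine par hPARG h1 h2 e1 e2 one_ne_zero fun p U V hc ho hH =>
      hLB3A κ U V p _ _ (l1 5 / l2 5) hc ho hH (neg_ne_zero.2 h) ?_ fun h4 => ?_
    · simp only [tlOf]
      linear_combination h3
    · simp only [tlOf] at h4
      exact key (l1 7 - l1 5 / l2 5 * l2 7) 1 (-(l1 5 / l2 5)) (.inl one_ne_zero)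
        (by linear_combination -h3) (by ring) (by linear_combination -h4)

end Pool.Agent.P.MP_6149fc_ag.V18

end
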