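import Pool.Agent.P.MP_6149fc_ag.V18.IfaceG

section

/-! Step NFE1. -/

set_option autoImplicit false
set_option linter.unusedSectionVars false

namespace Pool.Agent.P.MP_6149fc_ag.V18

open scoped ENNReal
open MvPowerSeries (coeff X constantCoeff monomial)

namespace NFE1x

variable {κ : Type} [Field κ] {Q : (Fin 5 → κ) → (Fin 5 → κ) → Prop}

theorem conv {a b a' b' : Fin 5 → κ} (h : Q a' b') (ha : a = a') (hb : b = b') : Q a b := by
  rw [ha, hb]; exact h

theorem lsh (hC : Clo Q) (c f2 f3 al be : κ)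
    (h : Q ![0, 1, f2 + 2 * c, f3 + c * f2 + c ^ 2, 0] ![0, 0, al, be + c * al, 0]) :
    Q ![0, 1, f2, f3, 0] ![0, 0, al, be, 0] := by
  refine hC.swp _ _ (hC.shf c _ _ (hC.swp _ _ (conv h ?_ ?_)))
  · funext i
    fin_cases i <;> simp [shf, swp]
  · funext i
    fin_cases i <;> simp [shf, swp]

theorem root [IsAlgClosed κ] [CharZero κ] (al be e : κ) (h : al ≠ 0 ∨ be ≠ 0) :
    ∃ c : κ, e + 2 * c * be + c ^ 2 * al = 0 := by
  by_cases ha : al = 0
  · have hb : be ≠ 0 := h.resolve_left (not_not.mpr ha)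
    refine ⟨-e / (2 * be), ?_⟩
    rw [ha]; field_simp; ring
  · obtain ⟨z, hz⟩ := IsAlgClosed.exists_pow_nat_eq (be ^ 2 - e * al) (n := 2) (by norm_num)
    refine ⟨(z - be) / al, ?_⟩
    field_simp
    linear_combination hz

theorem core [IsAlgClosed κ] [CharZero κ] (hC : Clo Q) (hN : NFs Q) (f2 f3 al be : κ) :
    Q ![0, 1, f2, f3, 0] ![0, 0, al, be, 0] := by
  by_cases h0 : al ≠ 0 ∨ be ≠ 0
  · obtain ⟨c, hc⟩ := root al be (f2 * be - f3 * al) h0
    refine lsh hC c f2 f3 al be ?_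
    by_cases hb : be + c * al = 0
    · have ha : al ≠ 0 := by
        intro ha
        rcases h0 with h | h
        · exact h ha
        · apply h; rw [ha] at hb; simpa using hb
      have h3 : f3 + c * f2 + c ^ 2 = 0 := by
        apply mul_left_cancel₀ ha
        linear_combination (f2 + 2 * c) * hb - hc
      rw [hb, h3]
      refine hC.gl 1 (-(f2 + 2 * c) / al) 0 (1 / al) _ _ (by simpa using ha) (conv hN.a2 ?_ ?_)
      · funext i
        fin_cases i <;> simp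
        field_simp
        ring
      · funext i
        fin_cases i <;> simp [ha]
    · generalize hbe : be + c * al = b' at hb
      generalize hf3 : f3 + c * f2 + c ^ 2 = g3
      have hrel : (f2 + 2 * c) * b' = g3 * al := by
        rw [← hbe, ← hf3]; linear_combination hc
      generalize f2 + 2 * c = g2 at hrel
      refine hC.gl 0 (1 / b') 1 (-(g3 / b')) _ _ (by simpa using hb)
        (conv (hN.a1 (-(al / b'))) ?_ ?_)
      · funext i
        fin_cases i <;> simp [hb]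
        field_simp
      · funext i
        fin_cases i <;> simp [hb]
        field_simp
        linear_combination hrel
  · push Not at h0
    obtain ⟨rfl, rfl⟩ := h0
    refine hC.dep 0 1 _ _ (Or.inr one_ne_zero) ?_
    funext i
    fin_cases i <;> simp

theorem low (hC : Clo Q) (hN : NFs Q) (a2 a3 b2 b3 : κ) :
    Q ![0, 0, a2, a3, 0] ![0, 0, b2, b3, 0] := by
  by_cases hd : a2 * b3 - a3 * b2 = 0
  · by_cases h3 : b3 ≠ 0 ∨ -a3 ≠ 0
    · refine hC.dep b3 (-a3) _ _ h3 ?_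
      funext i
      fin_cases i <;> simp
      · linear_combination hd
      · ring
    · by_cases h2 : b2 ≠ 0 ∨ -a2 ≠ 0
      · refine hC.dep b2 (-a2) _ _ h2 ?_
        funext i
        fin_cases i <;> simp
        · ring
        · linear_combination -hd
      · push Not at h3 h2
        have e3 : a3 = 0 := neg_eq_zero.mp h3.2
        have e2 : a2 = 0 := neg_eq_zero.mp h2.2
        refine hC.dep 1 0 _ _ (Or.inl one_ne_zero) ?_
        funext i
        fin_cases i <;> simp [e2, e3]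
  · generalize hD : a2 * b3 - a3 * b2 = d at hd
    refine hC.gl (b3 / d) (-(a3 / d)) (-(b2 / d)) (a2 / d) _ _ ?_ (conv hN.a3 ?_ ?_)
    · have : b3 / d * (a2 / d) - -(a3 / d) * -(b2 / d) = 1 / d := by
        field_simp
        linear_combination hD
      rw [this]; simpa using hd
    · funext i
      fin_cases i <;> simp
      · field_simp
        linear_combination hD
      · field_simp
        ring
    · funext i
      fin_cases i <;> simp
      · field_simp
        ring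
      · field_simp
        linear_combination hD

end NFE1x

theorem p_NFE1 :
    S_NFE1 := by
  intro κ _ _ _ Q hC hN a1 a2 a3 b1 b2 b3
  by_cases ha : a1 = 0
  · by_cases hb : b1 = 0
    · rw [ha, hb]; exact NFE1x.low hC hN a2 a3 b2 b3
    · refine hC.gl 0 (1 / b1) 1 0 _ _ (by simpa using hb)
        (NFE1x.conv (NFE1x.core hC hN (b2 / b1) (b3 / b1) a2 a3) ?_ ?_)
      · funext i
        fin_cases i <;> simp [hb] <;> field_simp
      · funext i
        fin_cases i <;> simp [ha]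
  · refine hC.gl (1 / a1) 0 (-(b1 / a1)) 1 _ _ (by simpa using ha)
      (NFE1x.conv (NFE1x.core hC hN (a2 / a1) (a3 / a1) (b2 - b1 * a2 / a1)
        (b3 - b1 * a3 / a1)) ?_ ?_)
    · funext i
      fin_cases i <;> simp [ha] <;> field_simp
    · funext i
      fin_cases i <;> simp [ha] <;> field_simp <;> ring

end Pool.Agent.P.MP_6149fc_ag.V18

end

section

/-! Step NFE0. -/

set_option autoImplicit false
set_option linter.unusedSectionVars false

namespace Pool.Agent.P.MP_6149fc_ag.V18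

open scoped ENNReal
open MvPowerSeries (coeff X constantCoeff monomial)

namespace NFE0x

variable {κ : Type} [Field κ] {Q : (Fin 5 → κ) → (Fin 5 → κ) → Prop}

theorem swp' (hC : Clo Q) {a0 a1 a2 a3 b0 b1 b2 b3 : κ}
    (h : Q ![a3, a2, a1, a0, 0] ![b3, b2, b1, b0, 0]) :
    Q ![a0, a1, a2, a3, 0] ![b0, b1, b2, b3, 0] :=
  hC.swp _ _ (by simpa [swp] using h)

theorem shf' (hC : Clo Q) (c : κ) {a0 a1 a2 a3 b0 b1 b2 b3 : κ}
    (h : Q ![a0 + c * a1 + c ^ 2 * a2 + c ^ 3 * a3, a1 + 2 * c * a2 + 3 * c ^ 2 * a3,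
      a2 + 3 * c * a3, a3, 0] ![b0 + c * b1 + c ^ 2 * b2 + c ^ 3 * b3,
      b1 + 2 * c * b2 + 3 * c ^ 2 * b3, b2 + 3 * c * b3, b3, 0]) :
    Q ![a0, a1, a2, a3, 0] ![b0, b1, b2, b3, 0] := hC.shf c _ _ h

theorem gl' (hC : Clo Q) (r s u : κ) (hr : r ≠ 0) (hu : u ≠ 0) {a0 a2 a3 b2 b3 : κ}
    (h : Q ![r * a0, 0, r * a2 + s * b2, r * a3 + s * b3, 0] ![0, 0, u * b2, u * b3, 0]) :
    Q ![a0, 0, a2, a3, 0] ![0, 0, b2, b3, 0] :=
  hC.gl r s 0 u _ _ (by simp [hr, hu]) (by simpa using h)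

theorem nf (hC : Clo Q) (hN : NFs Q)
    (h1 : ∀ a1 a2 a3 b1 b2 b3 : κ, Q ![0, a1, a2, a3, 0] ![0, b1, b2, b3, 0]) (v0 v2 : κ) :
    Q ![1, 0, 0, -v0, 0] ![0, 0, 1, -v2, 0] := by
  by_cases h : v2 ^ 3 = v0
  · subst h
    by_cases h0 : v2 = 0
    · subst h0
      refine swp' hC ?_
      simpa using h1 0 0 1 1 0 0
    · refine shf' hC v2⁻¹ ?_
      convert h1 _ _ _ _ _ _ using 2 <;> field_simp <;> ring
  · exact hN.a0a v0 v2 h

theorem mid (hC : Clo Q) (hN : NFs Q)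
    (h1 : ∀ a1 a2 a3 b1 b2 b3 : κ, Q ![0, a1, a2, a3, 0] ![0, b1, b2, b3, 0])
    {a0 : κ} (h0 : a0 ≠ 0) (a2 a3 b2 b3 : κ) : Q ![a0, 0, a2, a3, 0] ![0, 0, b2, b3, 0] := by
  by_cases h2 : b2 = 0
  · subst h2
    by_cases h3 : b3 = 0
    · subst h3
      exact hC.dep 0 1 _ _ (.inr one_ne_zero) (by simp)
    · refine gl' hC a0⁻¹ (-(a0⁻¹ * a3 * b3⁻¹)) b3⁻¹ (inv_ne_zero h0) (inv_ne_zero h3) ?_
      convert hN.a0b (-(a0⁻¹ * a2)) using 1 <;> funext i <;> fin_cases i <;> simp [h0, h3]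
  · refine gl' hC a0⁻¹ (-(a0⁻¹ * a2 * b2⁻¹)) b2⁻¹ (inv_ne_zero h0) (inv_ne_zero h2) ?_
    convert nf hC hN h1 (-(a0⁻¹ * a3 + -(a0⁻¹ * a2 * b2⁻¹) * b3)) (-(b2⁻¹ * b3)) using 1 <;>
      funext i <;> fin_cases i <;> simp [h0, h2]

end NFE0x

open NFE0x in
theorem p_NFE0 (hNFE1 : S_NFE1) :
    S_NFE0 := by
  intro κ _ _ _ Q hC hN a0 a1 a2 a3 b2 b3
  have h1 := hNFE1 κ Q hC hN
  by_cases h0 : a0 = 0
  · subst h0
    exact h1 _ _ _ _ _ _
  refine swp' hC (shf' hC (-a1 / (3 * a0)) (swp' hC ?_))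
  have e : a1 + 3 * (-a1 / (3 * a0)) * a0 = 0 := by
    field_simp
    ring
  rw [e]
  simpa only [mul_zero, add_zero] using mid hC hN h1 h0 _ _ _ _

end Pool.Agent.P.MP_6149fc_ag.V18

end

section

/-! Step NFA. -/

set_option autoImplicit false
set_option linter.unusedSectionVars false

namespace Pool.Agent.P.MP_6149fc_ag.V18

open scoped ENNReal
open MvPowerSeries (coeff X constantCoeff monomial)

namespace NFAx

variable {κ : Type} [Field κ] [IsAlgClosed κ] [CharZero κ]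
  {Q : (Fin 5 → κ) → (Fin 5 → κ) → Prop}

theorem key (h : S_NFE0) (hC : Clo Q) (hN : NFs Q) (v w : Fin 5 → κ) (h1 : v 4 = 0) (h2 : w 0 = 0)
    (h3 : w 1 = 0) (h4 : w 4 = 0) : Q v w := by
  have e1 : v = ![v 0, v 1, v 2, v 3, 0] := by funext i; fin_cases i <;> simp [h1]
  have e2 : w = ![0, 0, w 2, w 3, 0] := by funext i; fin_cases i <;> simp [h2, h3, h4]
  rw [e1, e2]
  exact h κ Q hC hN _ _ _ _ _ _

theorem zero (h : S_NFE0) (hC : Clo Q) (hN : NFs Q) (a b : Fin 5 → κ) (ha : a 4 = 0) (hb : b 4 = 0)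
    (hp : a 0 * b 1 - a 1 * b 0 = 0) : Q a b := by
  obtain ⟨r, s, h0, h1, h2⟩ : ∃ r s : κ, (r ≠ 0 ∨ s ≠ 0) ∧ r * a 0 + s * b 0 = 0 ∧
      r * a 1 + s * b 1 = 0 := by
    by_cases c : b 0 ≠ 0 ∨ -a 0 ≠ 0
    · exact ⟨_, _, c, by ring, by linear_combination -hp⟩
    by_cases c' : b 1 ≠ 0 ∨ -a 1 ≠ 0
    · exact ⟨_, _, c', by linear_combination hp, by ring⟩
    simp only [not_or, not_not, neg_eq_zero] at c c'
    exact ⟨1, 0, .inl one_ne_zero, by simp [c.2], by simp [c'.2]⟩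
  rcases h0 with h0 | h0
  · exact hC.gl 0 1 r s a b (by simpa using h0)
      (key h hC hN _ _ (by simp [hb]) h1 h2 (by simp [ha, hb]))
  · exact hC.gl 1 0 r s a b (by simpa using h0)
      (key h hC hN _ _ (by simp [ha]) h1 h2 (by simp [ha, hb]))

open Polynomial in
theorem root (p0 p1 p2 p3 p4 : κ) (h : p4 ≠ 0) :
    ∃ c : κ, p0 + p1 * c + p2 * c ^ 2 + p3 * c ^ 3 + p4 * c ^ 4 = 0 := by
  obtain ⟨c, hc⟩ := IsAlgClosed.exists_root
    (C p0 + C p1 * Polynomial.X + C p2 * Polynomial.X ^ 2 + C p3 * Polynomial.X ^ 3 +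
      C p4 * Polynomial.X ^ 4 : κ[X])
    (((by decide : (0 : WithBot ℕ) < (4 : ℕ)).trans_le (le_degree_of_ne_zero (by
      simpa [coeff_X, coeff_C] using h))).ne')
  exact ⟨c, by simpa using hc⟩

end NFAx

open NFAx in
theorem p_NFA (hNFE0 : S_NFE0) :
    S_NFA := by
  intro κ _ _ _ Q hC hN a b ha hb
  by_cases h : a 2 * b 3 - a 3 * b 2 = 0
  · refine hC.swp a b (zero hNFE0 hC hN _ _ (by simp [swp, ha]) (by simp [swp, hb]) ?_)
    simp only [swp, Matrix.cons_val]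
    linear_combination -h
  · obtain ⟨c, hc⟩ := root (a 0 * b 1 - a 1 * b 0) (2 * (a 0 * b 2 - a 2 * b 0))
      (3 * (a 0 * b 3 - a 3 * b 0) + (a 1 * b 2 - a 2 * b 1)) (2 * (a 1 * b 3 - a 3 * b 1)) _ h
    refine hC.shf c a b (zero hNFE0 hC hN _ _ (by simp [shf, ha]) (by simp [shf, hb]) ?_)
    simp only [shf, Matrix.cons_val]
    linear_combination hc

end Pool.Agent.P.MP_6149fc_ag.V18

end

section

/-! Step NFB. -/

set_option autoImplicit false
set_option linter.unusedSectionVars false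

namespace Pool.Agent.P.MP_6149fc_ag.V18

open scoped ENNReal
open MvPowerSeries (coeff X constantCoeff monomial)

namespace NFBx

variable {κ : Type} [Field κ] {Q : (Fin 5 → κ) → (Fin 5 → κ) → Prop}

theorem conv {a b a' b' : Fin 5 → κ} (h : Q a' b') (ha : a = a') (hb : b = b') : Q a b := by
  rw [ha, hb]; exact h

theorem scl (hC : Clo Q) (r u : κ) {a b : Fin 5 → κ} (hr : r ≠ 0) (hu : u ≠ 0)
    (h : Q (r • a) (u • b)) : Q a b :=
  hC.gl r 0 0 u a b (by simpa using ⟨hr, hu⟩) (by simpa using h)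

theorem pscl (hC : Clo Q) (r : κ) (hr : r ≠ 0) {a0 a1 a2 a3 : κ}
    (h : Q ![r * a0, r * a1, r * a2, r * a3, 0] ![0, 0, 0, 0, 1]) :
    Q ![a0, a1, a2, a3, 0] ![0, 0, 0, 0, 1] :=
  scl hC r 1 hr one_ne_zero (conv h (by funext i; fin_cases i <;> simp) (one_smul _ _))

theorem pshf (hC : Clo Q) (c : κ) {a0 a1 a2 a3 : κ}
    (h : Q ![a0 + c * a1 + c ^ 2 * a2 + c ^ 3 * a3, a1 + 2 * c * a2 + 3 * c ^ 2 * a3,
      a2 + 3 * c * a3, a3, 0] ![0, 0, 0, 0, 1]) : Q ![a0, a1, a2, a3, 0] ![0, 0, 0, 0, 1] :=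
  hC.shf c _ _ (conv h (by funext i; fin_cases i <;> simp [shf])
    (by funext i; fin_cases i <;> simp [shf]))

theorem pswp (hC : Clo Q) {a0 a1 a2 a3 : κ} (h : Q ![a3, a2, a1, a0, 0] ![0, 0, 0, 0, 1]) :
    Q ![a0, a1, a2, a3, 0] ![0, 0, 0, 0, 1] :=
  hC.swp _ _ (scl hC 1 (-1) one_ne_zero (by simp)
    (conv h (by funext i; fin_cases i <;> simp [swp]) (by funext i; fin_cases i <;> simp [swp])))

theorem ptor (hC : Clo Q) (s : κ) (hs : s ≠ 0) {a0 a1 a2 a3 : κ}
    (h : Q ![a0, s * a1, s ^ 2 * a2, s ^ 3 * a3, 0] ![0, 0, 0, 0, 1]) :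
    Q ![a0, a1, a2, a3, 0] ![0, 0, 0, 0, 1] :=
  hC.tor s _ _ hs (scl hC 1 (s ^ 3)⁻¹ one_ne_zero (by simp [hs])
    (conv h (by funext i; fin_cases i <;> simp [tor])
      (by funext i; fin_cases i <;> simp [tor, hs])))

theorem two (hC : Clo Q) (hN : NFs Q) (a1 : κ) {a2 : κ} (h2 : a2 ≠ 0) :
    Q ![0, a1, a2, 0, 0] ![0, 0, 0, 0, 1] := by
  by_cases h1 : a1 = 0
  · exact pscl hC a2⁻¹ (inv_ne_zero h2) (conv hN.b21 (by simp [h1, h2]) rfl)
  · refine ptor hC (-a1 / a2) (by simp [h1, h2]) (pscl hC (-a2 / a1 ^ 2) (by simp [h1, h2])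
      (conv hN.b111 ?_ rfl))
    funext i
    fin_cases i <;> simp <;> field_simp

theorem low [IsAlgClosed κ] (hC : Clo Q) (hN : NFs Q) (a0 a1 a2 : κ) :
    Q ![a0, a1, a2, 0, 0] ![0, 0, 0, 0, 1] := by
  by_cases h2 : a2 = 0
  · by_cases h1 : a1 = 0
    · by_cases h0 : a0 = 0
      · refine hC.dep 1 0 _ _ (Or.inl one_ne_zero) ?_
        funext i
        fin_cases i <;> simp [h0, h1, h2]
      · exact pswp hC (pscl hC a0⁻¹ (inv_ne_zero h0) (conv hN.b3 (by simp [h0, h1, h2]) rfl))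
    · refine pshf hC (-a0 / a1) (pswp hC (conv (two hC hN 0 h1) ?_ rfl))
      funext i
      fin_cases i <;> simp [h2]
      field_simp
      ring
  · obtain ⟨c, hc⟩ := IsAlgClosed.exists_root
      (Polynomial.C a2 * Polynomial.X ^ 2 + Polynomial.C a1 * Polynomial.X + Polynomial.C a0)
      (by rw [Polynomial.degree_quadratic h2]; decide)
    have hc' : a0 + c * a1 + c ^ 2 * a2 = 0 := by
      simp only [Polynomial.IsRoot.def, Polynomial.eval_add, Polynomial.eval_mul,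
        Polynomial.eval_C, Polynomial.eval_pow, Polynomial.eval_X] at hc
      linear_combination hc
    refine pshf hC c (conv (two hC hN (a1 + 2 * c * a2) h2) ?_ rfl)
    funext i
    fin_cases i <;> simp [hc']

end NFBx

open NFBx in
theorem p_NFB :
    S_NFB := by
  intro κ _ _ _ Q hC hN a0 a1 a2 a3
  by_cases h3 : a3 = 0
  · rw [h3]
    exact low hC hN a0 a1 a2
  · obtain ⟨c, hc⟩ := IsAlgClosed.exists_root
      (Polynomial.C a3 * Polynomial.X ^ 3 + Polynomial.C a2 * Polynomial.X ^ 2 +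
        Polynomial.C a1 * Polynomial.X + Polynomial.C a0)
      (by rw [Polynomial.degree_cubic h3]; decide)
    have hc' : a0 + c * a1 + c ^ 2 * a2 + c ^ 3 * a3 = 0 := by
      simp only [Polynomial.IsRoot.def, Polynomial.eval_add, Polynomial.eval_mul,
        Polynomial.eval_C, Polynomial.eval_pow, Polynomial.eval_X] at hc
      linear_combination hc
    refine pshf hC c (pswp hC ?_)
    rw [hc']
    exact low hC hN _ _ _

end Pool.Agent.P.MP_6149fc_ag.V18

end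

section

/-! Step NF. -/

set_option autoImplicit false
set_option linter.unusedSectionVars false

namespace Pool.Agent.P.MP_6149fc_ag.V18

open scoped ENNReal
open MvPowerSeries (coeff X constantCoeff monomial)

theorem p_NF (hNFA : S_NFA) (hNFB : S_NFB) :
    S_NF := by
  intro κ _ _ _ Q hC hN
  have key : ∀ a b : Fin 5 → κ, (∀ j : Fin 4, a j.castSucc = 0) → Q a b := by
    intro a b h
    have h0 : a 0 = 0 := h 0
    have h1 : a 1 = 0 := h 1
    have h2 : a 2 = 0 := h 2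
    have h3 : a 3 = 0 := h 3
    by_cases g : a 4 = 0
    · refine hC.dep 1 0 a b (Or.inl one_ne_zero) ?_
      funext i
      fin_cases i <;> simp [h0, h1, h2, h3, g]
    · refine hC.gl (-(b 4 / a 4)) 1 (a 4)⁻¹ 0 a b (by simpa using g) ?_
      have e1 : (-(b 4 / a 4)) • a + (1 : κ) • b = ![b 0, b 1, b 2, b 3, 0] := by
        funext i
        fin_cases i <;> simp [h0, h1, h2, h3, g]
      have e2 : (a 4)⁻¹ • a + (0 : κ) • b = ![0, 0, 0, 0, 1] := by
        funext i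
        fin_cases i <;> simp [h0, h1, h2, h3, g]
      rw [e1, e2]
      exact hNFB κ Q hC hN _ _ _ _
  have hh : ∀ (i j : Fin 4) (c : κ) (a : Fin 5 → κ), hei i c a j.castSucc = a j.castSucc := by
    intro i j c a
    fin_cases j <;> rfl
  have h4 : ∀ (i : Fin 4) (c : κ) (a : Fin 5 → κ), hei i c a 4 = a 4 + c * a i.castSucc :=
    fun _ _ _ => rfl
  intro a b
  by_cases m : ∃ i j : Fin 4, a i.castSucc * b j.castSucc - a j.castSucc * b i.castSucc ≠ 0
  · obtain ⟨i, j, m⟩ := m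
    refine hC.hei i ((a j.castSucc * b 4 - a 4 * b j.castSucc) /
      (a i.castSucc * b j.castSucc - a j.castSucc * b i.castSucc)) a b ?_
    refine hC.hei j ((a 4 * b i.castSucc - a i.castSucc * b 4) /
      (a i.castSucc * b j.castSucc - a j.castSucc * b i.castSucc)) _ _ ?_
    refine hNFA κ Q hC hN _ _ ?_ ?_
    · rw [h4, h4, hh, div_mul_eq_mul_div, div_mul_eq_mul_div, add_assoc, ← add_div,
        add_div' _ _ _ m, div_eq_zero_iff]
      left
      ring
    · rw [h4, h4, hh, div_mul_eq_mul_div, div_mul_eq_mul_div, add_assoc, ← add_div,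
        add_div' _ _ _ m, div_eq_zero_iff]
      left
      ring
  · push Not at m
    by_cases z : ∀ j : Fin 4, a j.castSucc = 0
    · exact key a b z
    · push Not at z
      obtain ⟨i, z⟩ := z
      refine hC.gl (b i.castSucc) (-a i.castSucc) 1 0 a b (by simpa using z) (key _ _ fun j => ?_)
      simp only [Pi.add_apply, Pi.smul_apply, smul_eq_mul]
      linear_combination -m i j

end Pool.Agent.P.MP_6149fc_ag.V18

end

section

/-! Step AUTG. -/

set_option autoImplicit false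
set_option linter.unusedSectionVars false

namespace Pool.Agent.P.MP_6149fc_ag.V18

open scoped ENNReal
open MvPowerSeries (coeff X constantCoeff monomial)

namespace AUTGx

variable {κ : Type} [Field κ]

theorem dual_act (g : Fin 14 → Fin 14 → κ) (p v : Fin 14 → κ) :
    dual (act g p) (act g v) = act g (dual p v) := by
  funext i
  simp only [dual, act, dot, smul_add, Finset.sum_add_distrib, TrivSqZeroExt.inl_sum,
    TrivSqZeroExt.inr_sum, TrivSqZeroExt.inl_smul, TrivSqZeroExt.inr_smul]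

/-- The action as a linear map. -/
def lin (g : Fin 14 → Fin 14 → κ) : (Fin 14 → κ) →ₗ[κ] (Fin 14 → κ) where
  toFun := act g
  map_add' p q := by
    funext i
    simp only [act, dot, Pi.add_apply, smul_add, Finset.sum_add_distrib]
  map_smul' c p := by
    funext i
    simp only [act, dot, Pi.smul_apply, smul_eq_mul, RingHom.id_apply, Finset.mul_sum,
      mul_left_comm]

theorem span_le {C : Type} [CommRing C] [Algebra κ C] (g : Fin 14 → Fin 14 → κ)
    (Ψ : Fin 14 → C) : Submodule.span κ (Set.range (act g Ψ)) ≤ Submodule.span κ (Set.range Ψ) := by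
  rw [Submodule.span_le]
  rintro _ ⟨i, rfl⟩
  change ∑ j, g i j • Ψ j ∈ Submodule.span κ (Set.range Ψ)
  refine Submodule.sum_mem _ fun j _ => Submodule.smul_mem _ _ ?_
  exact Submodule.subset_span (Set.mem_range_self j)

theorem map_act {C C' : Type} [CommRing C] [Algebra κ C] [CommRing C'] [Algebra κ C']
    (φ : C →ₐ[κ] C') (g : Fin 14 → Fin 14 → κ) (p : Fin 14 → C) (i : Fin 14) :
    φ (act g p i) = act g (fun j => φ (p j)) i := map_dot φ _ _

end AUTGx

open AUTGx in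
theorem p_AUTG :
    S_AUTG := by
  intro κ _ g l1 l2 p0 ⟨g', hg⟩ hT hS
  have hS' : Sm (pull g l1) (pull g l2) := by
    intro p hp h1 h2 v hv hl
    refine hS (act g p) (fun e => hp ?_) (dot_pull g l1 p ▸ h1) (dot_pull g l2 p ▸ h2)
      (fun a => act g (v a)) (fun a => ⟨?_, dot_pull g l1 (v a) ▸ (hv a).2.1,
        dot_pull g l2 (v a) ▸ (hv a).2.2⟩) ?_
    · rw [← (hg κ p).2.1, e]
      exact (lin g').map_zero
    · rw [dual_act]
      exact (hg _ _).2.2.1 (hv a).1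
    · refine LinearIndependent.of_comp (lin g') ?_
      convert hl using 1
      funext a
      exact (hg κ (v a)).2.1
  obtain ⟨Ψ, hΨ, hA⟩ := hT hS'
  have hU : UU κ (act g Ψ) = UU κ Ψ := by
    funext M
    have h1 := span_le g Ψ
    have h2 := span_le g' (act g Ψ)
    rw [(hg _ Ψ).2.1] at h2
    rw [UU, UU, le_antisymm h1 h2]
  refine ⟨act g Ψ, by unfold LocU at hΨ ⊢; rw [hU]; exact hΨ, fun L _ _ p hK h1 h2 h0 => ?_⟩
  obtain ⟨u, z, hz, hp⟩ := hA L (act g' p) ((hg _ p).2.2.2 hK)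
    (by rw [dot_pull, (hg _ p).1, h1]) (by rw [dot_pull, (hg _ p).1, h2]) fun i => by
      have e1 := map_act (ValA.cc κ L) g' p i
      have e2 := map_act (Algebra.ofId κ L) g' (act g p0) i
      rw [(hg κ p0).2.1] at e2
      refine e1.trans (Eq.trans ?_ e2.symm)
      congr 1
      funext j
      exact h0 j
  obtain ⟨ψ, hψ, -⟩ := exists_subHom (κ := κ) hz
  refine ⟨u, z, hz, fun i => ?_⟩
  rw [← hψ, map_act, ← congrFun (hg _ p).1 i, funext hp]
  simp only [← hψ]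
  exact dot_mul _ _ _

end Pool.Agent.P.MP_6149fc_ag.V18

end

section

/-! Step CLO. -/

set_option autoImplicit false
set_option linter.unusedSectionVars false

namespace Pool.Agent.P.MP_6149fc_ag.V18

open scoped ENNReal
open MvPowerSeries (coeff X constantCoeff monomial)

namespace CLOx

variable {κ : Type} [Field κ]

theorem mv (hAUTG : S_AUTG) {φ : (Fin 5 → κ) → Fin 5 → κ} (h : Mv φ) (a b : Fin 5 → κ)
    (H : QQ (φ a) (φ b)) : QQ a b := by
  obtain ⟨g, hg, h0, hl⟩ := h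
  intro l1 l2 a1 a2 b1 b2
  have z : ∀ l : Fin 14 → κ, l 0 = 0 → pull g l 0 = 0 := fun l e => by
    rw [pull_apply]
    change dot l (act g (e0 κ)) = 0
    rw [h0, e0, dot_single, e]
  have := hAUTG κ g l1 l2 (e0 κ) hg
    (H _ _ (z l1 a1) (z l2 a2) (by rw [hl l1 a1, b1]) (by rw [hl l2 a2, b2]))
  rwa [h0] at this

theorem dot_lin {C : Type} [CommRing C] [Algebra κ C] (r s : κ) (l1 l2 : Fin 14 → κ)
    (p : Fin 14 → C) : dot (r • l1 + s • l2) p = r • dot l1 p + s • dot l2 p := by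
  simp only [dot, Pi.add_apply, Pi.smul_apply, smul_eq_mul, add_smul, mul_smul,
    Finset.sum_add_distrib, Finset.smul_sum]

theorem lin_lin (r s : κ) (l1 l2 : Fin 14 → κ) :
    Lin (r • l1 + s • l2) = r • Lin l1 + s • Lin l2 := by
  funext i
  fin_cases i <;> simp [Lin]
  ring

theorem inv2 {r s t u x y : κ} (h : r * u - s * t ≠ 0) (h1 : r • x + s • y = 0)
    (h2 : t • x + u • y = 0) : x = 0 ∧ y = 0 := by
  simp only [smul_eq_mul] at h1 h2
  exact ⟨(mul_eq_zero.1 (by linear_combination u * h1 - s * h2)).resolve_left h,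
    (mul_eq_zero.1 (by linear_combination r * h2 - t * h1)).resolve_left h⟩

end CLOx

open CLOx in
theorem p_CLO (hAUTG : S_AUTG) (hMOVD : S_MOVD) (hSM0 : S_SM0) :
    S_CLO := by
  intro κ _
  obtain ⟨m1, m2, m3, m4⟩ := hMOVD κ
  refine ⟨fun c => mv hAUTG (m1 c), mv hAUTG m2, fun s a b hs => mv hAUTG (m3 s hs) a b,
    fun i c => mv hAUTG (m4 i c), fun r s t u a b hd H => ?_, fun r s a b h1 h2 => ?_⟩
  · intro l1 l2 a1 a2 b1 b2 hS
    obtain ⟨Ψ, k1, k2⟩ := H (r • l1 + s • l2) (t • l1 + u • l2) (by simp [a1, a2])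
      (by simp [a1, a2]) (by rw [lin_lin, b1, b2]) (by rw [lin_lin, b1, b2])
      fun p hp c1 c2 v hv => by
        rw [dot_lin] at c1 c2
        refine hS p hp (inv2 hd c1 c2).1 (inv2 hd c1 c2).2 v fun i => ?_
        obtain ⟨d0, d1, d2⟩ := hv i
        rw [dot_lin] at d1 d2
        exact ⟨d0, inv2 hd d1 d2⟩
    exact ⟨Ψ, k1, fun L _ _ p hp c1 c2 => k2 L p hp (by rw [dot_lin, c1, c2]; simp)
      (by rw [dot_lin, c1, c2]; simp)⟩
  · intro l1 l2 a1 a2 b1 b2 hS
    exact absurd (by rw [b1, b2, h2]) (hSM0 κ l1 l2 r s hS a1 a2 h1)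

end Pool.Agent.P.MP_6149fc_ag.V18

end

section

/-! Step TRANS. -/

set_option autoImplicit false
set_option linter.unusedSectionVars false

namespace Pool.Agent.P.MP_6149fc_ag.V18

open scoped ENNReal
open MvPowerSeries (coeff X constantCoeff monomial)

namespace TRANSx

variable {κ : Type} [Field κ]

/-- The point is in the orbit of the base point. -/
def Orb (p : Fin 14 → κ) : Prop := ∃ g : Fin 14 → Fin 14 → κ, IsAut g ∧ act g (e0 κ) = p

theorem act_comp (g1 g2 : Fin 14 → Fin 14 → κ) {C : Type} [CommRing C] [Algebra κ C]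
    (p : Fin 14 → C) : act (fun i => pull g2 (g1 i)) p = act g1 (act g2 p) :=
  funext fun i => dot_pull g2 (g1 i) p

theorem back {g : Fin 14 → Fin 14 → κ} (hg : IsAut g) {p : Fin 14 → κ} (hp : KK p)
    (h : KK (act g p) → Orb (act g p)) : Orb p := by
  obtain ⟨g', hg'⟩ := hg
  obtain ⟨k, ⟨k', hk⟩, e⟩ := h ((hg' κ p).2.2.1 hp)
  refine ⟨fun i => pull k (g' i), ⟨fun i => pull g (k' i), fun C _ _ q => ?_⟩, ?_⟩
  · simp only [act_comp]
    refine ⟨?_, ?_, fun hq => (hg' C _).2.2.2 ((hk C _).2.2.1 hq),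
      fun hq => (hk C _).2.2.2 ((hg' C _).2.2.1 hq)⟩
    · rw [(hk C _).1, (hg' C _).2.1]
    · rw [(hg' C _).1, (hk C _).2.1]
  · rw [act_comp, e, (hg' κ p).2.1]

end TRANSx

theorem p_TRANS (hTRD : S_TRD) (hCHK : S_CHK) :
    S_TRANS := by
  intro κ _
  obtain ⟨hT, hS⟩ := hTRD κ
  have s6 : ∀ p : Fin 14 → κ, p 0 ≠ 0 → p 1 = 0 → p 2 = 0 → p 3 = 0 → p 4 = 0 → p 6 = 0 → KK p →
      TRANSx.Orb p := by
    intro p h0 h1 h2 h3 h4 h6 hp
    obtain ⟨g, hg, e⟩ := (hT (p 0)).2.2.2.2.2 h0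
    refine ⟨g, hg, funext fun i => ?_⟩
    rw [e, hCHK.2.1 κ p (p 0)⁻¹ hp (inv_mul_cancel₀ h0) i, h1, h2, h3, h4, h6]
    congr 1
    fin_cases i <;> simp [psiv, psi, e0]
  have s5 : ∀ p : Fin 14 → κ, p 0 ≠ 0 → p 1 = 0 → p 2 = 0 → p 3 = 0 → p 4 = 0 → KK p →
      TRANSx.Orb p := by
    intro p h0 h1 h2 h3 h4 hp
    obtain ⟨g, hg, e⟩ := (hT (-p 6 / p 0)).2.2.2.2.1
    obtain ⟨e0, e1, e2, e3, e4, e6⟩ := e p
    exact TRANSx.back hg hp (s6 _ (e0 ▸ h0) (e1.trans h1) (e2.trans h2) (e3.trans h3) (e4.trans h4)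
      (by rw [e6, div_mul_cancel₀ _ h0, add_neg_cancel]))
  have s4 : ∀ p : Fin 14 → κ, p 0 ≠ 0 → p 1 = 0 → p 2 = 0 → p 3 = 0 → KK p → TRANSx.Orb p := by
    intro p h0 h1 h2 h3 hp
    obtain ⟨g, hg, e⟩ := (hT (-p 4 / p 0)).2.2.2.1
    obtain ⟨e0, e1, e2, e3, e4⟩ := e p
    exact TRANSx.back hg hp (s5 _ (e0 ▸ h0) (by simp [e1, h1]) (by simp [e2, h2])
      (by simp [e3, h3]) (by rw [e4, div_mul_cancel₀ _ h0, add_neg_cancel]))
  have s3 : ∀ p : Fin 14 → κ, p 0 ≠ 0 → p 1 = 0 → p 2 = 0 → KK p → TRANSx.Orb p := by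
    intro p h0 h1 h2 hp
    obtain ⟨g, hg, e⟩ := (hT (-p 3 / p 0)).2.2.1
    obtain ⟨e0, e1, e2, e3, -⟩ := e p
    exact TRANSx.back hg hp (s4 _ (e0 ▸ h0) (by simp [e1, h1]) (by simp [e2, h2])
      (by rw [e3, div_mul_cancel₀ _ h0, add_neg_cancel]))
  have s2 : ∀ p : Fin 14 → κ, p 0 ≠ 0 → p 1 = 0 → KK p → TRANSx.Orb p := by
    intro p h0 h1 hp
    obtain ⟨g, hg, e⟩ := (hT (-p 2 / p 0)).2.1
    obtain ⟨e0, e1, e2, -⟩ := e p
    exact TRANSx.back hg hp (s3 _ (e0 ▸ h0) (by simp [e1, h1])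
      (by rw [e2, div_mul_cancel₀ _ h0, add_neg_cancel]))
  have s1 : ∀ p : Fin 14 → κ, p 0 ≠ 0 → KK p → TRANSx.Orb p := by
    intro p h0 hp
    obtain ⟨g, hg, e⟩ := (hT (-p 1 / p 0)).1
    obtain ⟨e0, e1, -⟩ := e p
    exact TRANSx.back hg hp (s2 _ (e0 ▸ h0) (by rw [e1, div_mul_cancel₀ _ h0, add_neg_cancel]))
  intro p hne hp
  by_cases h0 : p 0 = 0
  swap
  · exact s1 p h0 hp
  have : ∃ i ∈ ([1, 4, 9, 12, 13] : List (Fin 14)), p i ≠ 0 := by
    by_contra hc
    push Not at hc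
    have h1 := hc 1 (by simp)
    have h4 := hc 4 (by simp)
    have h9 := hc 9 (by simp)
    have h12 := hc 12 (by simp)
    have h13 := hc 13 (by simp)
    have h2 : p 2 = 0 := by simpa [h0, h1] using hp.q17
    have h3 : p 3 = 0 := by simpa [h0, h4] using hp.q10
    have h5 : p 5 = 0 := by simpa [h1, h9] using hp.q16
    have h8 : p 8 = 0 := by simpa [h12, h4] using hp.q15
    have h10 : p 10 = 0 := by simpa [h9, h13] using hp.q6
    have h11 : p 11 = 0 := by simpa [h12, h13] using hp.q13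
    have h6 : p 6 = 0 := by simpa [h0, h4, h3] using hp.q25
    have h7 : p 7 = 0 := by simpa [h0, h1, h2] using hp.q28
    exact hne (funext fun i => by fin_cases i <;> assumption)
  obtain ⟨i, hi, hpi⟩ := this
  obtain ⟨g, hg, e⟩ := hS i hi
  exact TRANSx.back hg hp (s1 _ (e p hpi))

end Pool.Agent.P.MP_6149fc_ag.V18

end

section

/-! Step MOVE0. -/

set_option autoImplicit false
set_option linter.unusedSectionVars false

namespace Pool.Agent.P.MP_6149fc_ag.V18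

open scoped ENNReal
open MvPowerSeries (coeff X constantCoeff monomial)

theorem p_MOVE0 (hTRANS : S_TRANS) (hAUTG : S_AUTG) (hCLO : S_CLO) (hNF : S_NF) (hQA0 : S_QA0) (hQA1 : S_QA1) (hQA2 : S_QA2) (hQA3 : S_QA3) (hQB1 : S_QB1) (hQB2 : S_QB2) (hQB3 : S_QB3) :
    S_MOVE0 := by
  intro κ _ _ _ l1 l2 p0 h0 hK z1 z2
  obtain ⟨g, hg, rfl⟩ := hTRANS κ p0 h0 hK
  refine hAUTG κ g l1 l2 _ hg (hNF κ QQ (hCLO κ) ⟨(hQA0 κ).1, (hQA0 κ).2, hQA1 κ, hQA2 κ, hQA3 κ,
    hQB1 κ, hQB2 κ, hQB3 κ⟩ _ _ _ _ ((pull_apply g l1 0).trans z1) ((pull_apply g l2 0).trans z2)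
    rfl rfl)

end Pool.Agent.P.MP_6149fc_ag.V18

end
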