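import Pool.Agent.P.MP_6149fc_ag.V18.IfaceG
import Pool.Agent.P.MP_6149fc_ag.Hensel
import Pool.Agent.P.MP_6149fc_ag.V18.IfaceB
import Pool.Agent.P.MP_6149fc_ag.V18.IfaceA

section

/-! Step IFTE. -/

set_option autoImplicit false
set_option linter.unusedSectionVars false

namespace Pool.Agent.P.MP_6149fc_ag.V18

open scoped ENNReal

namespace IFTEx

open MvPolynomial

section
variable {σ : Type} [Fintype σ] [DecidableEq σ] {r : ℕ} {K C : Type} [Field K] [CommRing C] [Algebra K C]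

/-- The point attached to the parameters `y`. -/
noncomputable def pt (p : σ → C) (ww : Fin r → σ → C) (y : Fin r → C) (i : σ) : C :=
  p i + ∑ l, y l * ww l i

/-- The Newton iteration with frozen derivative. -/
noncomputable def seq (F : Fin r → MvPolynomial σ K) (p : σ → C) (ww : Fin r → σ → C)
    (τ : Fin r → C) : ℕ → Fin r → C
  | 0 => 0
  | k + 1 => fun l => seq F p ww τ k l - (aeval (pt p ww (seq F p ww τ k)) (F l) - τ l)

theorem aeval_sub_mem (I : Ideal C) (a b : σ → C) (hab : ∀ i, a i - b i ∈ I)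
    (G : MvPolynomial σ K) : aeval a G - aeval b G ∈ I := by
  obtain ⟨h, e, -⟩ := taylor I a b hab G
  rw [e]
  exact Ideal.sum_mem _ fun i _ => I.mul_mem_right _ (hab i)

omit [Fintype σ] [DecidableEq σ] in
theorem pt_sub (p : σ → C) (ww : Fin r → σ → C) (y y' : Fin r → C) (i : σ) :
    pt p ww y i - pt p ww y' i = ∑ l, (y l - y' l) * ww l i := by
  simp only [pt, sub_mul, Finset.sum_sub_distrib]; ring

omit [Fintype σ] [DecidableEq σ] in
theorem pt_sub_mem (I : Ideal C) (p : σ → C) (ww : Fin r → σ → C) (y y' : Fin r → C)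
    (h : ∀ l, y l - y' l ∈ I) (i : σ) : pt p ww y i - pt p ww y' i ∈ I := by
  rw [pt_sub]
  exact Ideal.sum_mem _ fun l _ => I.mul_mem_right _ (h l)

/-- One Newton step improves the error by one power of the ideal. -/
theorem step (F : Fin r → MvPolynomial σ K) (J : Ideal C) (p : σ → C) (ww : Fin r → σ → C)
    (τ : Fin r → C)
    (hd : ∀ s l, ∑ i, aeval p (pderiv i (F s)) * ww l i - (if s = l then 1 else 0) ∈ J)
    (m : ℕ) (hm : 1 ≤ m) (y : Fin r → C) (hy : ∀ l, y l ∈ J)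
    (hE : ∀ s, aeval (pt p ww y) (F s) - τ s ∈ J ^ m) (s : Fin r) :
    aeval (pt p ww fun l => y l - (aeval (pt p ww y) (F l) - τ l)) (F s) - τ s ∈ J ^ (m + 1) := by
  set E : Fin r → C := fun l => aeval (pt p ww y) (F l) - τ l with hEdef
  have hle : J ^ m ≤ J := Ideal.pow_le_self (by omega)
  have h1 : ∀ i, pt p ww (fun l => y l - E l) i - pt p ww y i ∈ J := fun i =>
    pt_sub_mem J p ww _ _ (fun l => by
      have := J.neg_mem (hle (hE l))
      convert this using 1
      simp only [hEdef]; ring) i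
  obtain ⟨h, e, hh⟩ := taylor J _ _ h1 (F s)
  have h2 : ∀ i, pt p ww y i - p i ∈ J := fun i => by
    simp only [pt, add_sub_cancel_left]
    exact Ideal.sum_mem _ fun l _ => J.mul_mem_right _ (hy l)
  have h3 : ∀ i, h i - aeval p (pderiv i (F s)) ∈ J := fun i => by
    have := J.add_mem (hh i) (aeval_sub_mem J _ _ h2 (pderiv i (F s)))
    convert this using 1
    ring
  have h4 : ∀ l, (if s = l then 1 else 0) - ∑ i, h i * ww l i ∈ J := fun l => by
    have h5 : ∑ i, (h i - aeval p (pderiv i (F s))) * ww l i ∈ J :=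
      Ideal.sum_mem _ fun i _ => J.mul_mem_right _ (h3 i)
    have := J.neg_mem (J.add_mem h5 (hd s l))
    convert this using 1
    simp only [sub_mul, Finset.sum_sub_distrib]; ring
  have h6 : aeval (pt p ww fun l => y l - E l) (F s) - τ s =
      ∑ l, E l * ((if s = l then 1 else 0) - ∑ i, h i * ww l i) := by
    have h7 : aeval (pt p ww fun l => y l - E l) (F s) - τ s =
        E s + ∑ i, (pt p ww (fun l => y l - E l) i - pt p ww y i) * h i := by
      rw [← e]; simp only [hEdef]; ring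
    rw [h7]
    simp only [pt_sub, mul_sub, Finset.sum_sub_distrib, mul_ite, mul_one, mul_zero,
      Finset.sum_ite_eq, Finset.mem_univ, if_true, Finset.mul_sum, Finset.sum_mul]
    rw [sub_eq_add_neg, ← Finset.sum_neg_distrib, Finset.sum_comm]
    congr 1
    refine Finset.sum_congr rfl fun l _ => ?_
    rw [← Finset.sum_neg_distrib]
    refine Finset.sum_congr rfl fun i _ => ?_
    ring
  rw [h6, pow_succ]
  exact Ideal.sum_mem _ fun l _ => Ideal.mul_mem_mul (hE l) (h4 l)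

end

theorem hens {σ : Type} [Fintype σ] [DecidableEq σ] {r : ℕ} {K C : Type} [Field K] [CommRing C]
    [Algebra K C] (F : Fin r → MvPolynomial σ K) (J : Ideal C) [IsAdicComplete J C] (e : ℕ)
    (p : σ → C) (ww : Fin r → σ → C) (τ : Fin r → C) (he : 1 ≤ e)
    (h0 : ∀ s, aeval p (F s) - τ s ∈ J ^ e)
    (hd : ∀ s l, ∑ i, aeval p (pderiv i (F s)) * ww l i - (if s = l then 1 else 0) ∈ J) :
    ∃ y : Fin r → C, (∀ l, y l ∈ J ^ e) ∧ ∀ s, aeval (pt p ww y) (F s) = τ s := by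
  have hle : ∀ k, J ^ (e + k) ≤ J ^ e := fun k => Ideal.pow_le_pow_right (by omega)
  have hle1 : J ^ e ≤ J := Ideal.pow_le_self (by omega)
  have key : ∀ k, (∀ l, seq F p ww τ k l ∈ J ^ e) ∧
      ∀ s, aeval (pt p ww (seq F p ww τ k)) (F s) - τ s ∈ J ^ (e + k) := by
    intro k
    induction k with
    | zero =>
      refine ⟨fun l => by simp [seq], fun s => ?_⟩
      have : pt p ww (seq F p ww τ 0) = p := by
        funext i; simp [pt, seq]
      rw [this]; exact h0 s
    | succ k ih =>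
      refine ⟨fun l => (J ^ e).sub_mem (ih.1 l) (hle k (ih.2 l)), fun s => ?_⟩
      exact step F J p ww τ hd (e + k) (by omega) _ (fun l => hle1 (ih.1 l)) ih.2 s
  have cau : ∀ l m n, m ≤ n → seq F p ww τ n l - seq F p ww τ m l ∈ J ^ (e + m) := by
    intro l m n hmn
    induction n, hmn using Nat.le_induction with
    | base => simp
    | succ n hmn ih =>
      have h1 : aeval (pt p ww (seq F p ww τ n)) (F l) - τ l ∈ J ^ (e + m) :=
        Ideal.pow_le_pow_right (by omega) ((key n).2 l)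
      have := (J ^ (e + m)).sub_mem ih h1
      convert this using 1
      simp only [seq]; ring
  have lim : ∀ l, ∃ L : C, ∀ n, L - seq F p ww τ n l ∈ J ^ n := by
    intro l
    obtain ⟨L, hL⟩ := IsPrecomplete.prec (I := J) (M := C) inferInstance
      (f := fun n => seq F p ww τ n l) (fun {m n} hmn => by
        rw [SModEq.sub_mem, smul_eq_mul, Ideal.mul_top]
        have := (J ^ m).neg_mem (Ideal.pow_le_pow_right (by omega) (cau l m n hmn))
        simpa using this)
    refine ⟨L, fun n => ?_⟩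
    have := hL n
    rw [SModEq.sub_mem, smul_eq_mul, Ideal.mul_top] at this
    simpa using (J ^ n).neg_mem this
  choose y hy using lim
  refine ⟨y, fun l => ?_, fun s => ?_⟩
  · have := (J ^ e).add_mem (hy l e) ((key e).1 l)
    simpa using this
  · rw [← sub_eq_zero]
    refine IsHausdorff.haus (I := J) inferInstance _ fun n => ?_
    rw [SModEq.sub_mem, smul_eq_mul, Ideal.mul_top, sub_zero]
    have h1 := aeval_sub_mem (J ^ n) _ _
      (pt_sub_mem (J ^ n) p ww y (seq F p ww τ n) fun l => hy l n) (F s)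
    have h2 : aeval (pt p ww (seq F p ww τ n)) (F s) - τ s ∈ J ^ n :=
      Ideal.pow_le_pow_right (by omega) ((key n).2 s)
    have := (J ^ n).add_mem h1 h2
    convert this using 1
    ring

end IFTEx

theorem p_IFTE :
    S_IFTE := by
  intro k C _ _ _ J _ n F τ h0 hJ hτ
  let M : Matrix (Fin n) (Fin n) k :=
    fun s i => MvPolynomial.constantCoeff (MvPolynomial.pderiv i (F s))
  have hinj : Function.Injective M.mulVecLin := by
    rw [injective_iff_map_eq_zero]
    intro v hv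
    exact hJ v fun s => congrFun hv s
  have hsur := LinearMap.injective_iff_surjective.1 hinj
  choose w hw using fun l : Fin n => hsur (Pi.single l 1)
  have e0 : ∀ G : MvPolynomial (Fin n) k, MvPolynomial.aeval (0 : Fin n → C) G =
      algebraMap k C (MvPolynomial.constantCoeff G) := fun G => MvPolynomial.aeval_zero G
  obtain ⟨y, hy, hs⟩ := IFTEx.hens F J 1 0 (fun l i => algebraMap k C (w l i)) τ le_rfl
    (fun s => by
      rw [e0, h0, map_zero, zero_sub, pow_one]
      exact J.neg_mem (hτ s))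
    (fun s l => by
      have a : ∑ i, M s i * w l i = (Pi.single l (1 : k) : Fin n → k) s := congrFun (hw l) s
      have b : ∑ i, MvPolynomial.aeval (0 : Fin n → C) (MvPolynomial.pderiv i (F s)) *
          algebraMap k C (w l i) = algebraMap k C (∑ i, M s i * w l i) := by
        rw [map_sum]
        exact Finset.sum_congr rfl fun i _ => by rw [e0, map_mul]
      rw [b, a, Pi.single_apply]
      split_ifs <;> simp)
  refine ⟨_, fun i => ?_, hs⟩
  simp only [IFTEx.pt, Pi.zero_apply, zero_add]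
  exact Ideal.sum_mem _ fun l _ => J.mul_mem_right _ (by simpa using hy l)

end Pool.Agent.P.MP_6149fc_ag.V18

end

section

/-! Step IFTU. -/

set_option autoImplicit false
set_option linter.unusedSectionVars false

namespace Pool.Agent.P.MP_6149fc_ag.V18

open scoped ENNReal
open MvPowerSeries (coeff X constantCoeff monomial)

namespace IFTUx

theorem const_aeval {k L : Type} [Field k] [Field L] [Algebra k L] {n : ℕ}
    (ζ : Fin n → PowerSeries L) (h : ∀ i, PowerSeries.constantCoeff (ζ i) = 0)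
    (G : MvPolynomial (Fin n) k) : PowerSeries.constantCoeff (MvPolynomial.aeval ζ G) =
      algebraMap k L (MvPolynomial.constantCoeff G) := by
  induction G using MvPolynomial.induction_on with
  | C c => simp [PowerSeries.algebraMap_apply]
  | add p q hp hq => simp only [map_add, hp, hq]
  | mul_X p j _ => simp [h j]

end IFTUx

theorem p_IFTU :
    S_IFTU := by
  intro k L _ _ _ n F ζ ζ' hJ h0 h0' hF
  classical
  have hab : ∀ i, ζ i - ζ' i ∈ RingHom.ker (PowerSeries.constantCoeff (R := L)) := fun i => by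
    rw [RingHom.mem_ker, map_sub, h0 i, h0' i, sub_zero]
  choose h h1 h2 using fun s => taylor (RingHom.ker (PowerSeries.constantCoeff (R := L))) ζ ζ'
    hab (F s)
  let J : Matrix (Fin n) (Fin n) k := fun s i =>
    MvPolynomial.constantCoeff (MvPolynomial.pderiv i (F s))
  have hJ0 : J.det ≠ 0 := fun e => by
    obtain ⟨v, hv, hv'⟩ := Matrix.exists_mulVec_eq_zero_iff.2 e
    exact hv (hJ v fun s => congrFun hv' s)
  let M : Matrix (Fin n) (Fin n) (PowerSeries L) := fun s i => h s i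
  have hM : (PowerSeries.constantCoeff (R := L)).mapMatrix M = (algebraMap k L).mapMatrix J := by
    ext s i
    have h3 := h2 s i
    rw [RingHom.mem_ker, map_sub, sub_eq_zero, IFTUx.const_aeval ζ' h0'] at h3
    exact h3
  have hM0 : M.det ≠ 0 := fun e => by
    have h3 := RingHom.map_det (PowerSeries.constantCoeff (R := L)) M
    rw [e, map_zero, hM, ← RingHom.map_det] at h3
    exact hJ0 ((algebraMap k L).injective (by rw [← h3, map_zero]))
  have h4 : M.mulVec (ζ - ζ') = 0 := by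
    funext s
    have h5 := h1 s
    rw [hF s, sub_self] at h5
    rw [Pi.zero_apply, h5]
    simp only [Matrix.mulVec, dotProduct, M, Pi.sub_apply]
    exact Finset.sum_congr rfl fun i _ => mul_comm (h s i) (ζ i - ζ' i)
  exact sub_eq_zero.1 (Matrix.eq_zero_of_mulVec_eq_zero hM0 h4)

end Pool.Agent.P.MP_6149fc_ag.V18

end

section

/-! Step CHK. -/

set_option autoImplicit false
set_option linter.unusedSectionVars false

namespace Pool.Agent.P.MP_6149fc_ag.V18

open scoped ENNReal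
open MvPowerSeries (coeff X constantCoeff monomial)

namespace CHKx

theorem ev {C : Type} [CommRing C] (ζ : Fin 5 → C) :
    psiv ζ 0 = 1 ∧ psiv ζ 1 = ζ 0 ∧ psiv ζ 2 = ζ 1 ∧ psiv ζ 3 = ζ 2 ∧ psiv ζ 4 = ζ 3 ∧
    psiv ζ 5 = ζ 0 * ζ 2 - ζ 1 ^ 2 ∧ psiv ζ 6 = ζ 4 ∧
    psiv ζ 7 = ζ 4 - (ζ 0 * ζ 3 - ζ 1 * ζ 2) ∧ psiv ζ 8 = ζ 1 * ζ 3 - ζ 2 ^ 2 ∧
    psiv ζ 9 = ζ 0 * ζ 4 - ζ 1 * (ζ 0 * ζ 2 - ζ 1 ^ 2) ∧
    psiv ζ 10 = ζ 1 * ζ 4 - ζ 2 * (ζ 0 * ζ 2 - ζ 1 ^ 2) ∧
    psiv ζ 11 = ζ 2 * (ζ 4 - (ζ 0 * ζ 3 - ζ 1 * ζ 2)) + ζ 1 * (ζ 1 * ζ 3 - ζ 2 ^ 2) ∧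
    psiv ζ 12 = ζ 3 * (ζ 4 - (ζ 0 * ζ 3 - ζ 1 * ζ 2)) + ζ 2 * (ζ 1 * ζ 3 - ζ 2 ^ 2) ∧
    psiv ζ 13 = ζ 4 * (ζ 4 - (ζ 0 * ζ 3 - ζ 1 * ζ 2)) +
      (ζ 0 * ζ 2 - ζ 1 ^ 2) * (ζ 1 * ζ 3 - ζ 2 ^ 2) :=
  ⟨rfl, rfl, rfl, rfl, rfl, rfl, rfl, rfl, rfl, rfl, rfl, rfl, rfl, rfl⟩

theorem chart {C : Type} [CommRing C] (p : Fin 14 → C) (u : C) (h : KK p) (hu : u * p 0 = 1)
    (i : Fin 14) : u * p i = psi (u * p 1) (u * p 2) (u * p 3) (u * p 4) (u * p 6) i := by
  have e5 : u * p 5 = u * p 1 * (u * p 3) - (u * p 2) ^ 2 := by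
    linear_combination -u ^ 2 * h.q17 - u * p 5 * hu
  have e7 : u * p 7 = u * p 6 - (u * p 1 * (u * p 4) - u * p 2 * (u * p 3)) := by
    linear_combination u ^ 2 * h.q27 + u * (p 6 - p 7) * hu
  have e8 : u * p 8 = u * p 2 * (u * p 4) - (u * p 3) ^ 2 := by
    linear_combination -u ^ 2 * h.q10 - u * p 8 * hu
  have e9 : u * p 9 = u * p 1 * (u * p 6) - u * p 2 * (u * p 5) := by
    linear_combination -u ^ 2 * h.q23 - u * p 9 * hu
  have e10 : u * p 10 = u * p 2 * (u * p 6) - u * p 3 * (u * p 5) := by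
    linear_combination u ^ 2 * h.q4 - u * p 10 * hu
  have e11 : u * p 11 = u * p 3 * (u * p 7) + u * p 2 * (u * p 8) := by
    linear_combination -u ^ 2 * h.q3 - u * p 11 * hu
  have e12 : u * p 12 = u * p 4 * (u * p 7) + u * p 3 * (u * p 8) := by
    linear_combination u ^ 2 * h.q24 - u * p 12 * hu
  have e13 : u * p 13 = u * p 6 * (u * p 7) + u * p 5 * (u * p 8) := by
    linear_combination -u ^ 2 * h.q8 - u ^ 2 * h.q5 - u * p 13 * hu
  rw [e5] at e9 e10
  rw [e7, e8] at e11 e12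
  rw [e5, e7, e8] at e13
  fin_cases i
  exacts [hu, rfl, rfl, rfl, rfl, e5, rfl, e7, e8, e9, e10, e11, e12, e13]

end CHKx

open CHKx in
theorem p_CHK :
    S_CHK := by
  refine ⟨fun C _ ζ => ?_, fun C _ p u h hu i => ?_, fun κ _ l => ⟨?_, fun i => ?_, fun C _ _ ζ => ?_⟩⟩
  · obtain ⟨e0, e1, e2, e3, e4, e5, e6, e7, e8, e9, e10, e11, e12, e13⟩ := ev ζ
    constructor <;>
      simp only [e0, e1, e2, e3, e4, e5, e6, e7, e8, e9, e10, e11, e12, e13] <;> ring
  · have := chart p u h hu i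
    change p i = p 0 * psi (u * p 1) (u * p 2) (u * p 3) (u * p 4) (u * p 6) i
    rw [← this, ← mul_assoc, mul_comm (p 0), hu, one_mul]
  · obtain ⟨e0, e1, e2, e3, e4, e5, e6, e7, e8, e9, e10, e11, e12, e13⟩ :=
      ev (MvPolynomial.X : Fin 5 → MvPolynomial (Fin 5) κ)
    rw [dot, sum14, e0, e1, e2, e3, e4, e5, e6, e7, e8, e9, e10, e11, e12, e13]
    simp
  · obtain ⟨e0, e1, e2, e3, e4, e5, e6, e7, e8, e9, e10, e11, e12, e13⟩ :=
      ev (MvPolynomial.X : Fin 5 → MvPolynomial (Fin 5) κ)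
    rw [dot, sum14, e0, e1, e2, e3, e4, e5, e6, e7, e8, e9, e10, e11, e12, e13]
    fin_cases i <;> simp [Lin]
  · rw [map_dot]
    congr 1
    funext i
    simpa using map_psiv (MvPolynomial.aeval ζ : MvPolynomial (Fin 5) κ →ₐ[κ] C).toRingHom
      MvPolynomial.X i

end Pool.Agent.P.MP_6149fc_ag.V18

end

section

/-! Step VOLE. -/

set_option autoImplicit false
set_option linter.unusedSectionVars false

namespace Pool.Agent.P.MP_6149fc_ag.V18

open scoped ENNReal
open MvPowerSeries (coeff X constantCoeff monomial)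

namespace VOLEx

theorem tay {κ R B σ : Type} [CommRing κ] [CommRing R] [CommRing B] [Algebra κ R] [Algebra κ B]
    [Fintype σ] [DecidableEq σ] (ι : R →ₐ[κ] B) (ζ : σ → R) (t : B) (d : σ → B)
    (G : MvPolynomial σ κ) (hG : MvPolynomial.aeval ζ G = 0) :
    ∃ r, MvPolynomial.aeval (fun a => ι (ζ a) + t * d a) G =
      t * (∑ a, d a * ι (MvPolynomial.aeval ζ (MvPolynomial.pderiv a G)) + t * r) := by
  obtain ⟨h, h1, h2⟩ := taylor (Ideal.span {t}) (fun a => ι (ζ a) + t * d a) (fun a => ι (ζ a))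
    (fun a => Ideal.mem_span_singleton'.2 ⟨d a, by ring⟩) G
  simp only [← MvPolynomial.comp_aeval_apply, hG, map_zero, sub_zero, add_sub_cancel_left,
    Ideal.mem_span_singleton'] at h1 h2
  choose c hc using h2
  refine ⟨∑ a, d a * c a, ?_⟩
  rw [h1, Finset.mul_sum, ← Finset.sum_add_distrib, Finset.mul_sum]
  refine Finset.sum_congr rfl fun a _ => ?_
  rw [eq_add_of_sub_eq (hc a).symm]
  ring

theorem cc {κ : Type} [Field κ] {ζ : Fin 5 → PS κ} (h : ∀ i, constantCoeff (ζ i) = 0)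
    (G : MvPolynomial (Fin 5) κ) :
    constantCoeff (MvPolynomial.aeval ζ G) = MvPolynomial.constantCoeff G := by
  induction G using MvPolynomial.induction_on with
  | C c => simp [MvPowerSeries.algebraMap_apply]
  | add p q hp hq => simp only [map_add, hp, hq]
  | mul_X p j hp => simp [h]

end VOLEx

theorem p_VOLE (hCHK : S_CHK) :
    S_VOLE := by
  intro κ _ l1 l2 δ1 δ2 ζ h0 z1 z2 a11 a12 a21 a22
  let ι : PS κ →ₐ[κ] PowerSeries (Polynomial (PS κ)) :=
    { (PowerSeries.C : Polynomial (PS κ) →+* _).comp Polynomial.C with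
      commutes' := fun c => by simp [PowerSeries.algebraMap_apply] }
  let F : (Fin 14 → κ) → MvPolynomial (Fin 5) κ := fun l => dot l (psiv MvPolynomial.X)
  let N : (Fin 14 → κ) → (Fin 5 → κ) → PS κ := fun l δ =>
    ∑ a, δ a • MvPolynomial.aeval ζ (MvPolynomial.pderiv a (F l))
  have hN : ∀ l δ, constantCoeff (N l δ) = Lin l ⬝ᵥ δ := by
    intro l δ
    simp only [N, map_sum, MvPowerSeries.smul_eq_C_mul, map_mul, MvPowerSeries.constantCoeff_C,
      VOLEx.cc h0, F, (hCHK.2.2 κ l).2.1, dotProduct, mul_comm]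
  obtain ⟨e, he⟩ : ∃ e, e * (N l1 δ1 * N l2 δ2 - N l1 δ2 * N l2 δ1) = 1 := by
    refine IsUnit.exists_left_inv (MvPowerSeries.isUnit_iff_constantCoeff.2 ?_)
    simp [hN, a11, a12, a21, a22]
  have he' := congrArg ι he
  simp only [map_mul, map_sub, map_one] at he'
  let S : PowerSeries (Polynomial (PS κ)) := PowerSeries.C Polynomial.X
  let al := ι e * (ι (N l2 δ2) - ι (N l1 δ2) * S)
  let be := ι e * (ι (N l1 δ1) * S - ι (N l2 δ1))
  let d : Fin 5 → PowerSeries (Polynomial (PS κ)) := fun a => δ1 a • al + δ2 a • be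
  have hd : ∀ l, ∑ a, d a * ι (MvPolynomial.aeval ζ (MvPolynomial.pderiv a (F l))) =
      al * ι (N l δ1) + be * ι (N l δ2) := by
    intro l
    simp only [N, d, map_sum, map_smul, Finset.mul_sum, ← Finset.sum_add_distrib, add_mul,
      smul_mul_assoc, mul_smul_comm]
  obtain ⟨r1, h1⟩ := VOLEx.tay ι ζ PowerSeries.X d (F l1) (((hCHK.2.2 κ l1).2.2 _ ζ).trans z1)
  obtain ⟨r2, h2⟩ := VOLEx.tay ι ζ PowerSeries.X d (F l2) (((hCHK.2.2 κ l2).2.2 _ ζ).trans z2)
  rw [hd, (hCHK.2.2 κ _).2.2] at h1 h2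
  refine ⟨_, r1, r2, fun i => ?_, h1.trans ?_, h2.trans ?_⟩
  · simp [ι]
  · congr 2
    simp only [al, be]
    linear_combination he'
  · congr 2
    simp only [al, be]
    linear_combination S * he'

end Pool.Agent.P.MP_6149fc_ag.V18

end

section

/-! Step VOLI. -/

set_option autoImplicit false
set_option linter.unusedSectionVars false

namespace Pool.Agent.P.MP_6149fc_ag.V18

open scoped ENNReal
open MvPowerSeries (coeff X constantCoeff monomial)

namespace VOLIx

theorem exists_sec {κ V V' N : Type} [Field κ] [AddCommGroup V] [Module κ V] [AddCommGroup V']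
    [Module κ V'] [AddCommGroup N] [Module κ N] (U : Submodule κ V) (W : Submodule κ V')
    (c : V →ₗ[κ] N) (C : V' →ₗ[κ] N) (h : W.map C ≤ U.map c) :
    ∃ s : W →ₗ[κ] U, ∀ x, c (s x) = C x := by
  let b := Module.Free.chooseBasis κ W
  choose F hF hF' using fun i => h (Submodule.mem_map_of_mem (b i).2)
  refine ⟨b.constr κ fun i => ⟨F i, hF i⟩, fun x => ?_⟩
  have : c ∘ₗ U.subtype ∘ₗ (b.constr κ fun i => (⟨F i, hF i⟩ : U)) = C ∘ₗ W.subtype :=
    b.ext fun i => by simpa using hF' i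
  exact LinearMap.congr_fun this x

/-- The constant coefficient as an algebra map. -/
noncomputable def cc (κ A : Type) [Field κ] [CommRing A] [Algebra κ A] :
    PowerSeries A →ₐ[κ] A :=
  { PowerSeries.constantCoeff with
    commutes' := fun r => by simp [PowerSeries.algebraMap_apply] }

theorem UU_pow {σ κ C : Type} [Field κ] [CommRing C] [Algebra κ C] {Ψ : σ → C} {f : C}
    (hf : f ∈ UU κ Ψ 1) (n : ℕ) : f ^ n ∈ UU κ Ψ n := by
  induction n with
  | zero => rw [pow_zero]; exact UU_zero Ψ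
  | succ n ih => rw [pow_succ]; exact UU_mul ih hf

theorem map_UU {σ κ C C' : Type} [Field κ] [CommRing C] [Algebra κ C] [CommRing C'] [Algebra κ C']
    (φ : C →ₐ[κ] C') (Ψ : σ → C) (n : ℕ) :
    (UU κ Ψ n).map φ.toLinearMap = UU κ (fun i => φ (Ψ i)) n := by
  rw [UU, UU, Submodule.map_pow, Submodule.map_span, ← Set.range_comp]
  rfl

theorem sep {A ι : Type} [CommRing A] [Fintype ι] (d e : ι → ℕ)
    (G : ι → PowerSeries (Polynomial A)) (x : ι → A)
    (hG : ∀ j, PowerSeries.constantCoeff (G j) = Polynomial.C (x j) * Polynomial.X ^ e j)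
    (h0 : ∀ j, x j = 0 → G j = 0) (hi : ∀ j j', d j = d j' → e j = e j' → j = j')
    (h : ∑ j, PowerSeries.X ^ d j * G j = 0) (j : ι) : x j = 0 := by
  classical
  by_contra hj
  obtain ⟨j0, h1, h2⟩ := (Finset.univ.filter fun j => x j ≠ 0).exists_min_image d
    ⟨j, by simpa using hj⟩
  have h3 := congrArg (fun F => (PowerSeries.coeff (d j0) F).coeff (e j0)) h
  simp only [map_sum, map_zero, Polynomial.finsetSum_coeff, Polynomial.coeff_zero] at h3
  rw [Finset.sum_eq_single j0] at h3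
  · rw [PowerSeries.coeff_X_pow_mul', if_pos le_rfl, Nat.sub_self,
      PowerSeries.coeff_zero_eq_constantCoeff_apply, hG, Polynomial.coeff_C_mul_X_pow,
      if_pos rfl] at h3
    exact (Finset.mem_filter.1 h1).2 h3
  · intro l _ hl
    by_cases hx : x l = 0
    · simp [h0 l hx]
    have h4 := h2 l (by simpa using hx)
    rw [PowerSeries.coeff_X_pow_mul']
    split_ifs with h5
    · have h6 : d l = d j0 := le_antisymm h5 h4
      rw [h6, Nat.sub_self, PowerSeries.coeff_zero_eq_constantCoeff_apply, hG,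
        Polynomial.coeff_C_mul_X_pow, if_neg fun h7 => hl (hi _ _ h6 h7.symm)]
    · simp
  · simp

end VOLIx

open VOLIx in
theorem p_VOLI :
    S_VOLI := by
  intro κ R σ _ _ _ _ Ψ Φ r1 r2 hΦ ha hb M
  have hs : ∀ n, ∃ s : UU κ Ψ n →ₗ[κ] UU κ Φ n,
      ∀ x, PowerSeries.constantCoeff (s x).1 = Polynomial.C x.1 := fun n =>
    exists_sec (UU κ Φ n) (UU κ Ψ n) (cc κ (Polynomial R)).toLinearMap
      (Polynomial.CAlgHom : R →ₐ[κ] Polynomial R).toLinearMap (by
        rw [map_UU, map_UU]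
        exact le_of_eq (congrArg (UU κ · n) (funext fun i => (hΦ i).symm)))
  choose s hs using hs
  let ι : Type := Σ n : Fin (M + 1), Fin (M - n + 1)
  let w : ι → PowerSeries (Polynomial R) := fun j =>
    (PowerSeries.X * (1 + PowerSeries.X * r1)) ^ (M - j.1 - j.2) *
      (PowerSeries.X * (PowerSeries.C Polynomial.X + PowerSeries.X * r2)) ^ (j.2 : ℕ)
  let T : (∀ j : ι, UU κ Ψ j.1) →ₗ[κ] PowerSeries (Polynomial R) :=
    ∑ j : ι, LinearMap.mulRight κ (w j) ∘ₗ (UU κ Φ j.1).subtype ∘ₗ s j.1 ∘ₗ LinearMap.proj j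
  have hT : ∀ x, T x = ∑ j : ι, (s j.1 (x j)).1 * w j := fun x => by
    simp [T, LinearMap.sum_apply]
  have hm : ∀ x, T x ∈ UU κ Φ M := fun x => by
    rw [hT]
    refine Submodule.sum_mem _ fun j _ => ?_
    have := UU_mul (s j.1 (x j)).2 (UU_mul (UU_pow ha (M - j.1 - j.2)) (UU_pow hb j.2))
    have e : (j.1 : ℕ) + (M - j.1 - j.2 + j.2) = M := by
      have := j.1.2
      have := j.2.2
      omega
    rwa [e] at this
  have hinj : Function.Injective (T.codRestrict _ hm) := by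
    rw [← LinearMap.ker_eq_bot, LinearMap.ker_codRestrict, LinearMap.ker_eq_bot']
    intro x hx
    funext j
    refine Subtype.ext (sep (fun j : ι => M - j.1) (fun j => j.2)
      (fun j => (s j.1 (x j)).1 * ((1 + PowerSeries.X * r1) ^ (M - j.1 - j.2) *
        (PowerSeries.C Polynomial.X + PowerSeries.X * r2) ^ (j.2 : ℕ))) (fun j => (x j).1)
      (fun j => ?_) (fun j h => ?_) ?_ ?_ j)
    · simp [hs]
    · rw [show x j = 0 from Subtype.ext h]; simp
    · rintro ⟨n, e⟩ ⟨n', e'⟩ h1 h2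
      have h3 : n = n' := Fin.ext (by
        have := n.2
        have := n'.2
        simp only at h1
        omega)
      subst h3
      rw [show e = e' from Fin.ext h2]
    · rw [← hx, hT]
      refine Finset.sum_congr rfl fun j _ => ?_
      have e : M - j.1 = M - j.1 - j.2 + j.2 := by
        have := j.2.2
        omega
      have e' : (PowerSeries.X : PowerSeries (Polynomial R)) ^ (M - j.1) =
          PowerSeries.X ^ (M - j.1 - j.2) * PowerSeries.X ^ (j.2 : ℕ) :=
        (congrArg _ e).trans (pow_add _ _ _)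
      simp only [w, mul_pow]
      rw [e']
      ring
  have := UU_fin (κ := κ) Φ M
  have := fun n => UU_fin (κ := κ) Ψ n
  have h := LinearMap.finrank_le_finrank_of_injective hinj
  rw [Module.finrank_pi_fintype, Fintype.sum_sigma] at h
  rw [Finset.sum_range]
  refine le_of_eq_of_le (Finset.sum_congr rfl fun n _ => ?_) h
  change _ = ∑ _e : Fin (M - n + 1), Module.finrank κ (UU κ Ψ n)
  rw [Finset.sum_const, Finset.card_univ, Fintype.card_fin, smul_eq_mul]

end Pool.Agent.P.MP_6149fc_ag.V18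

end

section

/-! Step GROBA. -/

set_option autoImplicit false
set_option linter.unusedSectionVars false

namespace Pool.Agent.P.MP_6149fc_ag.V18

open scoped ENNReal
open MvPowerSeries (coeff X constantCoeff monomial)

namespace GROBAx

open scoped Pointwise

theorem lift {ι : Type} (c : List ι) (s : Multiset ι) (h : ∀ i ∈ s, i ∈ c) :
    ∃ t : Multiset (Fin c.length), t.map c.get = s := by
  induction s using Multiset.induction_on with
  | empty => exact ⟨0, rfl⟩
  | cons a s ih =>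
    obtain ⟨t, ht⟩ := ih fun i hi => h i (Multiset.mem_cons_of_mem hi)
    obtain ⟨j, hj⟩ := List.get_of_mem (h a (Multiset.mem_cons_self a s))
    exact ⟨j ::ₘ t, by rw [Multiset.map_cons, ht, hj]⟩

theorem pow_mem {ι C : Type} [CommRing C] (Φ : ι → C) (M : ℕ) :
    ∀ f ∈ Set.range Φ ^ M, ∃ s : Multiset ι, s.card = M ∧ f = (s.map Φ).prod := by
  induction M with
  | zero => exact fun f hf => ⟨0, rfl, by simpa using hf⟩
  | succ M ih =>
    rw [pow_succ]
    rintro _ ⟨g, hg, _, ⟨i, rfl⟩, rfl⟩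
    obtain ⟨s, h1, rfl⟩ := ih g hg
    exact ⟨i ::ₘ s, by simp [h1], by simp [mul_comm]⟩

end GROBAx

open scoped Pointwise in
theorem p_GROBA :
    S_GROBA := by
  intro κ C _ _ _ n Φ ω bad cl hb hc hT M
  classical
  let F : List (Fin n) → Finset C := fun c => Finset.univ.image
    fun σ : Sym (Fin c.length) M => ((σ.1.map c.get).map Φ).prod
  let G : Finset C := cl.toFinset.biUnion F
  have key : ∀ (k : ℕ) (s : Multiset (Fin n)), (s.map ω).sum = k → s.card = M →
      (s.map Φ).prod ∈ Submodule.span κ (G : Set C) := by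
    intro k
    induction k using Nat.strong_induction_on with
    | _ k ih =>
      intro s h1 h2
      by_cases h : ∃ p ∈ bad, p.1 ∈ s ∧ p.2 ∈ s
      · obtain ⟨p, hp, a1, a2⟩ := h
        obtain ⟨s1, rfl⟩ := Multiset.exists_cons_of_mem a1
        obtain ⟨s2, rfl⟩ := Multiset.exists_cons_of_mem
          ((Multiset.mem_cons.1 a2).resolve_left (hb p hp).1.symm)
        have e : ((p.1 ::ₘ p.2 ::ₘ s2).map Φ).prod = Φ p.1 * Φ p.2 * (s2.map Φ).prod := by
          simp [mul_assoc]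
        rw [e]
        refine Submodule.span_induction (p := fun f _ => f * (s2.map Φ).prod ∈
          Submodule.span κ (G : Set C)) ?_ ?_ ?_ ?_ (hb p hp).2
        · rintro _ ⟨a, b, hl, rfl⟩
          have := ih _ (by simp at h1 ⊢; omega) (a ::ₘ b ::ₘ s2) rfl (by simpa using h2)
          simpa [mul_assoc] using this
        · simp
        · intro x y _ _ hx hy
          rw [add_mul]
          exact add_mem hx hy
        · intro a x _ hx
          rw [smul_mul_assoc]
          exact Submodule.smul_mem _ _ hx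
      · obtain ⟨c, hcl, hs⟩ := hT (fun i => decide (i ∈ s)) fun p hp => by
          by_cases a1 : p.1 ∈ s
          · exact Or.inr (decide_eq_false fun a2 => h ⟨p, hp, a1, a2⟩)
          · exact Or.inl (decide_eq_false a1)
        obtain ⟨t, rfl⟩ := GROBAx.lift c s fun i hi => hs i (decide_eq_true hi)
        refine Submodule.subset_span (Finset.mem_coe.2 (Finset.mem_biUnion.2
          ⟨c, List.mem_toFinset.2 hcl, Finset.mem_image.2 ⟨⟨t, ?_⟩, Finset.mem_univ _, rfl⟩⟩))
        simpa using h2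
  have le : UU κ Φ M ≤ Submodule.span κ (G : Set C) := by
    rw [UU, Submodule.span_pow, Submodule.span_le]
    intro f hf
    obtain ⟨s, h1, rfl⟩ := GROBAx.pow_mem Φ M f hf
    exact key _ s rfl h1
  refine (Submodule.finrank_mono le).trans ((finrank_span_finset_le_card G).trans ?_)
  refine (Finset.card_biUnion_le_card_mul _ _ ((M + 5).choose 5) fun c h => ?_).trans
    (Nat.mul_le_mul_right _ (List.toFinset_card_le cl))
  refine Finset.card_image_le.trans ?_
  rw [Finset.card_univ, Sym.card_sym_eq_choose, Fintype.card_fin, hc c (List.mem_toFinset.1 h),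
    show 6 + M - 1 = M + 5 by omega, Nat.choose_symm_add]

end Pool.Agent.P.MP_6149fc_ag.V18

end

section

/-! Step GROBC. -/

set_option autoImplicit false
set_option linter.unusedSectionVars false

namespace Pool.Agent.P.MP_6149fc_ag.V18

open scoped ENNReal
open MvPowerSeries (coeff X constantCoeff monomial)

namespace GROBCx

theorem all_chk : ∀ b0 b1 b2 b3 b4 b5 b6 b7 b8 b9 b10 b11 b12 b13 : Bool,
    (
    (b6 && b11) || (b7 && b10) || (b3 && b7) || (b0 && b10) || (b5 && b8) || (b9 && b11) ||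
    (b5 && b6) || (b6 && b7) || (b2 && b12) || (b2 && b4) || (b8 && b9) || (b4 && b10) ||
    (b10 && b12) || (b1 && b11) || (b3 && b12) || (b1 && b10) || (b1 && b3) || (b1 && b13) ||
    (b4 && b5) || (b5 && b12) || (b1 && b8) || (b6 && b12) || (b1 && b6) || (b0 && b12) ||
    (b4 && b9) || (b9 && b12) || (b1 && b4) || (b1 && b12) ||
    !(b3 || b4 || b6 || b8 || b10 || b11 || b12 || b13) ||
    !(b1 || b4 || b6 || b7 || b8 || b10 || b11 || b12) ||
    !(b1 || b4 || b6 || b7 || b8 || b9 || b10 || b12) ||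
    !(b1 || b4 || b5 || b7 || b9 || b10 || b11 || b12) ||
    !(b1 || b4 || b5 || b7 || b8 || b10 || b11 || b12) ||
    !(b1 || b4 || b5 || b6 || b7 || b9 || b10 || b12) ||
    !(b1 || b3 || b4 || b6 || b8 || b10 || b11 || b12) ||
    !(b1 || b3 || b4 || b6 || b8 || b9 || b10 || b12) ||
    !(b1 || b3 || b4 || b5 || b6 || b9 || b10 || b12) ||
    !(b1 || b2 || b5 || b7 || b9 || b10 || b11 || b12) ||
    !(b1 || b2 || b5 || b6 || b7 || b9 || b10 || b12) ||
    !(b1 || b2 || b3 || b5 || b6 || b9 || b10 || b12) ||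
    !(b0 || b1 || b4 || b6 || b7 || b8 || b11 || b12) ||
    !(b0 || b1 || b4 || b6 || b7 || b8 || b9 || b12) ||
    !(b0 || b1 || b4 || b5 || b7 || b9 || b11 || b12) ||
    !(b0 || b1 || b4 || b5 || b7 || b8 || b11 || b12) ||
    !(b0 || b1 || b4 || b5 || b6 || b7 || b9 || b12) ||
    !(b0 || b1 || b2 || b3 || b5 || b6 || b9 || b10)) = true := by
  decide +kernel

theorem of_not {T : Fin 14 → Bool} {c : List (Fin 14)} (hc : c ∈ gCl) (l : List (Fin 14))
    (hl : ∀ i, i ∈ c ∨ i ∈ l) (h : ∀ i ∈ l, T i = false) : ∃ c ∈ gCl, ∀ i, T i = true → i ∈ c :=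
  ⟨c, hc, fun i hi => (hl i).resolve_right fun e => by rw [h i e] at hi; exact absurd hi (by simp)⟩

end GROBCx

theorem p_GROBC :
    S_GROBC := by
  intro T h
  have h1 := GROBCx.all_chk (T 0) (T 1) (T 2) (T 3) (T 4) (T 5) (T 6) (T 7) (T 8) (T 9) (T 10)
    (T 11) (T 12) (T 13)
  have h2 : ∀ p ∈ gBad, (T p.1 && T p.2) = false := fun p hp => by
    rcases h p hp with a | a <;> simp [a]
  simp only [gBad, List.forall_mem_cons, List.not_mem_nil, IsEmpty.forall_iff, implies_true,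
    and_true] at h2
  simp only [h2, Bool.false_or, Bool.or_eq_true, Bool.not_eq_true', Bool.or_eq_false_iff] at h1
  rcases h1 with ((((((((((((((((h1 | h1) | h1) | h1) | h1) | h1) | h1) | h1) | h1) | h1) | h1) | h1) | h1) | h1) | h1) | h1) | h1) | h1
  · exact GROBCx.of_not (c := [0, 1, 2, 5, 7, 9]) (by decide) [3, 4, 6, 8, 10, 11, 12, 13]
      (by decide) (by simp [h1])
  · exact GROBCx.of_not (c := [0, 2, 3, 5, 9, 13]) (by decide) [1, 4, 6, 7, 8, 10, 11, 12]
      (by decide) (by simp [h1])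
  · exact GROBCx.of_not (c := [0, 2, 3, 5, 11, 13]) (by decide) [1, 4, 6, 7, 8, 9, 10, 12]
      (by decide) (by simp [h1])
  · exact GROBCx.of_not (c := [0, 2, 3, 6, 8, 13]) (by decide) [1, 4, 5, 7, 9, 10, 11, 12]
      (by decide) (by simp [h1])
  · exact GROBCx.of_not (c := [0, 2, 3, 6, 9, 13]) (by decide) [1, 4, 5, 7, 8, 10, 11, 12]
      (by decide) (by simp [h1])
  · exact GROBCx.of_not (c := [0, 2, 3, 8, 11, 13]) (by decide) [1, 4, 5, 6, 7, 9, 10, 12]
      (by decide) (by simp [h1])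
  · exact GROBCx.of_not (c := [0, 2, 5, 7, 9, 13]) (by decide) [1, 3, 4, 6, 8, 10, 11, 12]
      (by decide) (by simp [h1])
  · exact GROBCx.of_not (c := [0, 2, 5, 7, 11, 13]) (by decide) [1, 3, 4, 6, 8, 9, 10, 12]
      (by decide) (by simp [h1])
  · exact GROBCx.of_not (c := [0, 2, 7, 8, 11, 13]) (by decide) [1, 3, 4, 5, 6, 9, 10, 12]
      (by decide) (by simp [h1])
  · exact GROBCx.of_not (c := [0, 3, 4, 6, 8, 13]) (by decide) [1, 2, 5, 7, 9, 10, 11, 12]
      (by decide) (by simp [h1])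
  · exact GROBCx.of_not (c := [0, 3, 4, 8, 11, 13]) (by decide) [1, 2, 5, 6, 7, 9, 10, 12]
      (by decide) (by simp [h1])
  · exact GROBCx.of_not (c := [0, 4, 7, 8, 11, 13]) (by decide) [1, 2, 3, 5, 6, 9, 10, 12]
      (by decide) (by simp [h1])
  · exact GROBCx.of_not (c := [2, 3, 5, 9, 10, 13]) (by decide) [0, 1, 4, 6, 7, 8, 11, 12]
      (by decide) (by simp [h1])
  · exact GROBCx.of_not (c := [2, 3, 5, 10, 11, 13]) (by decide) [0, 1, 4, 6, 7, 8, 9, 12]
      (by decide) (by simp [h1])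
  · exact GROBCx.of_not (c := [2, 3, 6, 8, 10, 13]) (by decide) [0, 1, 4, 5, 7, 9, 11, 12]
      (by decide) (by simp [h1])
  · exact GROBCx.of_not (c := [2, 3, 6, 9, 10, 13]) (by decide) [0, 1, 4, 5, 7, 8, 11, 12]
      (by decide) (by simp [h1])
  · exact GROBCx.of_not (c := [2, 3, 8, 10, 11, 13]) (by decide) [0, 1, 4, 5, 6, 7, 9, 12]
      (by decide) (by simp [h1])
  · exact GROBCx.of_not (c := [4, 7, 8, 11, 12, 13]) (by decide) [0, 1, 2, 3, 5, 6, 9, 10]
      (by decide) (by simp [h1])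

end Pool.Agent.P.MP_6149fc_ag.V18

end

section

/-! Step GROB. -/

set_option autoImplicit false
set_option linter.unusedSectionVars false

namespace Pool.Agent.P.MP_6149fc_ag.V18

open scoped ENNReal
open MvPowerSeries (coeff X constantCoeff monomial)

theorem p_GROB (hGROBA : S_GROBA) (hGROBC : S_GROBC) :
    S_GROB := by
  intro κ C _ _ _ Φ h M
  refine hGROBA κ C 14 Φ gW gBad gCl ?_ (by decide) hGROBC M
  have g : ∀ a b c d : Fin 14, gW a + gW b < gW c + gW d → Φ a * Φ b ∈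
      Submodule.span κ {f | ∃ a b, gW a + gW b < gW c + gW d ∧ f = Φ a * Φ b} :=
    fun a b c d e => Submodule.subset_span ⟨a, b, e, rfl⟩
  intro p hp
  simp only [gBad, List.mem_cons, List.not_mem_nil, or_false] at hp
  rcases hp with rfl | rfl | rfl | rfl | rfl | rfl | rfl | rfl | rfl | rfl | rfl | rfl | rfl | rfl |
    rfl | rfl | rfl | rfl | rfl | rfl | rfl | rfl | rfl | rfl | rfl | rfl | rfl | rfl
  · exact ⟨by decide, h.q1 ▸ add_mem (g 3 13 6 11 (by decide)) (g 8 10 6 11 (by decide))⟩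
  · exact ⟨by decide, h.q2 ▸ sub_mem (g 2 13 7 10 (by decide)) (g 5 11 7 10 (by decide))⟩
  · exact ⟨by decide, h.q3 ▸ sub_mem (g 0 11 3 7 (by decide)) (g 2 8 3 7 (by decide))⟩
  · exact ⟨by decide, h.q4 ▸ sub_mem (g 2 6 0 10 (by decide)) (g 3 5 0 10 (by decide))⟩
  · exact ⟨by decide, h.q5 ▸ add_mem (neg_mem (g 2 11 5 8 (by decide))) (g 3 10 5 8 (by decide))⟩
  · exact ⟨by decide, h.q6 ▸ add_mem (g 5 13 9 11 (by decide)) (g 10 10 9 11 (by decide))⟩
  · exact ⟨by decide, h.q7 ▸ add_mem (neg_mem (g 2 10 5 6 (by decide))) (g 3 9 5 6 (by decide))⟩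
  · exact ⟨by decide, h.q8 ▸
      sub_mem (add_mem (g 0 13 6 7 (by decide)) (g 2 11 6 7 (by decide))) (g 3 10 6 7 (by decide))⟩
  · exact ⟨by decide, h.q9 ▸ add_mem (g 3 11 2 12 (by decide)) (g 7 8 2 12 (by decide))⟩
  · exact ⟨by decide, h.q10 ▸ add_mem (g 0 8 2 4 (by decide)) (g 3 3 2 4 (by decide))⟩
  · exact ⟨by decide, h.q11 ▸ add_mem (neg_mem (g 2 13 8 9 (by decide))) (g 6 10 8 9 (by decide))⟩
  · exact ⟨by decide, h.q12 ▸ add_mem (g 3 11 4 10 (by decide)) (g 6 8 4 10 (by decide))⟩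
  · exact ⟨by decide, h.q13 ▸ add_mem (g 8 13 10 12 (by decide)) (g 11 11 10 12 (by decide))⟩
  · exact ⟨by decide, h.q14 ▸ add_mem (g 2 10 1 11 (by decide)) (g 5 7 1 11 (by decide))⟩
  · exact ⟨by decide, h.q15 ▸ sub_mem (g 4 11 3 12 (by decide)) (g 8 8 3 12 (by decide))⟩
  · exact ⟨by decide, h.q16 ▸ sub_mem (g 2 9 1 10 (by decide)) (g 5 5 1 10 (by decide))⟩
  · exact ⟨by decide, h.q17 ▸ add_mem (g 0 5 1 3 (by decide)) (g 2 2 1 3 (by decide))⟩
  · exact ⟨by decide, h.q18 ▸ add_mem (g 5 10 1 13 (by decide)) (g 7 9 1 13 (by decide))⟩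
  · exact ⟨by decide, h.q19 ▸ add_mem (neg_mem (g 0 11 4 5 (by decide))) (g 3 6 4 5 (by decide))⟩
  · exact ⟨by decide, h.q20 ▸ sub_mem (g 3 13 5 12 (by decide)) (g 7 11 5 12 (by decide))⟩
  · exact ⟨by decide, h.q21 ▸
      sub_mem (sub_mem (g 2 6 1 8 (by decide)) (g 2 7 1 8 (by decide))) (g 3 5 1 8 (by decide))⟩
  · exact ⟨by decide, h.q22 ▸ add_mem (g 4 13 6 12 (by decide)) (g 8 11 6 12 (by decide))⟩
  · exact ⟨by decide, h.q23 ▸ add_mem (g 0 9 1 6 (by decide)) (g 2 5 1 6 (by decide))⟩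
  · exact ⟨by decide, h.q24 ▸ add_mem (g 3 8 0 12 (by decide)) (g 4 7 0 12 (by decide))⟩
  · exact ⟨by decide, h.q25 ▸
      add_mem (add_mem (neg_mem (g 0 13 4 9 (by decide))) (g 3 10 4 9 (by decide)))
        (g 6 6 4 9 (by decide))⟩
  · exact ⟨by decide, h.q26 ▸
      add_mem (sub_mem (g 6 13 9 12 (by decide)) (g 7 13 9 12 (by decide)))
        (g 10 11 9 12 (by decide))⟩
  · exact ⟨by decide, h.q27 ▸
      add_mem (sub_mem (g 0 6 1 4 (by decide)) (g 0 7 1 4 (by decide))) (g 2 3 1 4 (by decide))⟩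
  · exact ⟨by decide, h.q28 ▸
      sub_mem (add_mem (g 0 13 1 12 (by decide)) (g 2 11 1 12 (by decide)))
        (g 7 7 1 12 (by decide))⟩

end Pool.Agent.P.MP_6149fc_ag.V18

end

section

/-! Step VOL. -/

set_option autoImplicit false
set_option linter.unusedSectionVars false

namespace Pool.Agent.P.MP_6149fc_ag.V18

open scoped ENNReal
open MvPowerSeries (coeff X constantCoeff monomial)

theorem p_VOL (hCHK : S_CHK) (hVOLE : S_VOLE) (hVOLI : S_VOLI) (hGROB : S_GROB) (hVOLN : S_VOLN) :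
    S_VOL := by
  intro κ _ l1 l2 δ1 δ2 ζ h0 h1 h2 a11 a12 a21 a22
  obtain ⟨η, r1, r2, hη, e1, e2⟩ := hVOLE κ l1 l2 δ1 δ2 ζ h0 h1 h2 a11 a12 a21 a22
  have hd : ∀ l : Fin 14 → κ, dot l (psiv η) ∈ UU κ (psiv η) 1 := fun l => by
    rw [UU_one]
    exact Submodule.sum_mem _ fun i _ =>
      Submodule.smul_mem _ _ (Submodule.subset_span (Set.mem_range_self i))
  have hc : ∀ i, PowerSeries.constantCoeff (psiv η i) = Polynomial.C (psiv ζ i) := fun i => by
    rw [map_psiv, map_psiv, funext hη]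
  refine hVOLN _ fun M => ?_
  exact (hVOLI κ (PS κ) (Fin 14) (psiv ζ) (psiv η) r1 r2 hc (e1 ▸ hd l1) (e2 ▸ hd l2) M).trans
    (hGROB κ _ (psiv η) (hCHK.1 _ η) M)

end Pool.Agent.P.MP_6149fc_ag.V18

end

section

/-! Step PARF. -/

set_option autoImplicit false
set_option linter.unusedSectionVars false

namespace Pool.Agent.P.MP_6149fc_ag.V18

open scoped ENNReal
open MvPowerSeries (coeff X constantCoeff monomial)

namespace PARFx

theorem psiv_zero {C : Type} [CommRing C] (i : Fin 14) (hi : i ≠ 0) :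
    psiv (fun _ => (0 : C)) i = 0 := by
  fin_cases i <;> first | exact absurd rfl hi | simp [psiv, psi]

/-- A form without constant term vanishes at the centre of an arc. -/
theorem const_dot {κ L : Type} [Field κ] [Field L] [Algebra κ L] (l : Fin 14 → κ) (h : l 0 = 0)
    (ζ : Fin 5 → PowerSeries L) (hζ : ∀ a, PowerSeries.constantCoeff (ζ a) = 0) :
    PowerSeries.constantCoeff (dot l (psiv ζ)) = 0 := by
  rw [dot, map_sum]
  refine Finset.sum_eq_zero fun i _ => ?_
  by_cases hi : i = 0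
  · rw [hi, h, zero_smul, map_zero]
  · rw [Algebra.smul_def, map_mul, map_psiv]
    simp only [hζ]
    rw [psiv_zero i hi, mul_zero]

theorem hom_dot {κ C C' : Type} [Field κ] [CommRing C] [Algebra κ C] [CommRing C'] [Algebra κ C']
    (φ : C →ₐ[κ] C') (l : Fin 14 → κ) (ζ : Fin 5 → C) :
    φ (dot l (psiv ζ)) = dot l (psiv fun a => φ (ζ a)) := by
  rw [map_dot]
  exact congrArg (dot l) (funext fun i => map_psiv (φ : C →+* C') ζ i)

end PARFx

theorem p_PARF (hIFTU : S_IFTU) (hCHK : S_CHK) (hBC : S_BC) :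
    S_PARF := by
  intro κ _ l1 l2 m ζ hm hlin hζ h1 h2 h3 L _ _ p hK e1 e2 hc
  have hp0 : PowerSeries.constantCoeff (p 0) = 1 := by rw [hc 0]; simp [e0]
  have hpi : ∀ i, i ≠ 0 → PowerSeries.constantCoeff (p i) = 0 := fun i hi => by
    rw [hc i]; simp [e0, hi]
  obtain ⟨u, hu⟩ : ∃ u, u * p 0 = 1 :=
    (PowerSeries.isUnit_iff_constantCoeff.2 (hp0 ▸ isUnit_one)).exists_left_inv
  obtain ⟨ζ', hζ', hp⟩ : ∃ ζ' : Fin 5 → PowerSeries L,
      (∀ a, PowerSeries.constantCoeff (ζ' a) = 0) ∧ ∀ i, p i = p 0 * psiv ζ' i := by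
    refine ⟨_, fun a => ?_, hCHK.2.1 _ p u hK hu⟩
    fin_cases a <;> simp [hpi]
  have hd : ∀ l : Fin 14 → κ, dot l p = 0 → dot l (psiv ζ') = 0 := fun l hl => by
    have h4 : dot l p = p 0 * dot l (psiv ζ') := by
      rw [← dot_mul]; exact congrArg (dot l) (funext hp)
    rw [← one_mul (dot l _), ← hu, mul_assoc, ← h4, hl, mul_zero]
  let z : Fin 3 → PowerSeries L := fun j => dot (m j) (psiv ζ')
  have hz : Cen z := fun j => PARFx.const_dot _ (hm j) ζ' hζ'
  obtain ⟨ψ, hψ, hX⟩ := exists_subHom (κ := κ) hz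
  let l : Fin 5 → Fin 14 → κ := ![l1, l2, m 0, m 1, m 2]
  have key : (fun a => ψ (ζ a)) = ζ' := by
    refine hIFTU κ L 5 (fun s => dot (l s) (psiv MvPolynomial.X)) _ _ (fun v hv => ?_)
      (fun a => ?_) hζ' fun s => ?_
    · simp only [(hCHK.2.2 κ _).2.1] at hv
      refine hlin v (hv 0) (hv 1) fun j => ?_
      fin_cases j
      exacts [hv 2, hv 3, hv 4]
    · rw [hψ, ((hBC κ κ).2 L z hz).2.1, hζ a, map_zero]
    · rw [(hCHK.2.2 κ _).2.2, (hCHK.2.2 κ _).2.2, ← PARFx.hom_dot]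
      fin_cases s
      · exact ((congrArg ψ h1).trans (map_zero ψ)).trans (hd l1 e1).symm
      · exact ((congrArg ψ h2).trans (map_zero ψ)).trans (hd l2 e2).symm
      · exact (congrArg ψ (h3 0)).trans (hX 0)
      · exact (congrArg ψ (h3 1)).trans (hX 1)
      · exact (congrArg ψ (h3 2)).trans (hX 2)
  refine ⟨p 0, z, hz, fun i => ?_⟩
  rw [hp i, ← hψ, ← key]
  exact congrArg _ (map_psiv (ψ : PS κ →+* PowerSeries L) ζ i).symm

end Pool.Agent.P.MP_6149fc_ag.V18

end

section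

/-! Step PARG. -/

set_option autoImplicit false
set_option linter.unusedSectionVars false

namespace Pool.Agent.P.MP_6149fc_ag.V18

open scoped ENNReal
open MvPowerSeries (coeff X constantCoeff monomial)

namespace PARGx

/-- The data of a parametrisation from the five free coordinates. -/
noncomputable def pp {κ : Type} [Field κ] (ζ : Fin 5 → PS κ) : P14 κ :=
  ⟨ζ 0, ζ 1, ζ 2, ζ 3, ζ 4, psiv ζ 5, ζ 0 * ζ 3 - ζ 1 * ζ 2, psiv ζ 8, psiv ζ 7, psiv ζ 9,
    psiv ζ 10, psiv ζ 11, psiv ζ 12, psiv ζ 13⟩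

theorem pp_vec {κ : Type} [Field κ] (ζ : Fin 5 → PS κ) : (pp ζ).vec = psiv ζ := rfl

theorem mem1 {κ : Type} [Field κ] (Ψ : Fin 14 → PS κ) (i : Fin 14) : Ψ i ∈ UU κ Ψ 1 := by
  rw [UU_one]; exact Submodule.subset_span ⟨i, rfl⟩

theorem pp_ok {κ : Type} [Field κ] (ζ : Fin 5 → PS κ) (h : ∀ i, constantCoeff (ζ i) = 0) :
    (pp ζ).Ok (UU κ (psiv ζ) 1) :=
  ⟨h 0, h 1, h 2, h 3, h 4, rfl, rfl, rfl, rfl, rfl, rfl, rfl, rfl, rfl, mem1 (psiv ζ) 1,
    mem1 (psiv ζ) 2, mem1 (psiv ζ) 3, mem1 (psiv ζ) 4, mem1 (psiv ζ) 6, mem1 (psiv ζ) 5,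
    by
      have := sub_mem (mem1 (psiv ζ) 6) (mem1 (psiv ζ) 7)
      change ζ 4 - (ζ 4 - (ζ 0 * ζ 3 - ζ 1 * ζ 2)) ∈ _ at this
      rwa [sub_sub_cancel] at this,
    mem1 (psiv ζ) 8, mem1 (psiv ζ) 7, mem1 (psiv ζ) 9, mem1 (psiv ζ) 10, mem1 (psiv ζ) 11,
    mem1 (psiv ζ) 12, mem1 (psiv ζ) 13⟩

end PARGx

open PARGx in
theorem p_PARG (hIFTE : S_IFTE) (hCHK : S_CHK) (hVOL : S_VOL) (hPARF : S_PARF) :
    S_PARG := by
  intro κ _ l1 l2 m h1 h2 hm hinj hloc
  let l : Fin 5 → Fin 14 → κ := ![l1, l2, m 0, m 1, m 2]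
  have hl0 : ∀ s, l s 0 = 0 := fun s => by
    fin_cases s
    exacts [h1, h2, hm 0, hm 1, hm 2]
  have hli : ∀ v : Fin 5 → κ, (∀ s, Lin (l s) ⬝ᵥ v = 0) → v = 0 := fun v hv =>
    hinj v (hv 0) (hv 1) fun j => by
      fin_cases j
      exacts [hv 2, hv 3, hv 4]
  let J : Ideal (PS κ) := Ideal.span (Set.range X)
  obtain ⟨ζ, hJ, hζ⟩ := hIFTE κ (PS κ) J 5
    (fun s => dot (l s) (psiv (MvPolynomial.X : Fin 5 → MvPolynomial (Fin 5) κ)))
    ![0, 0, X 0, X 1, X 2] (fun s => (hCHK.2.2 κ (l s)).1.trans (hl0 s))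
    (fun v hv => hli v fun s => by
      have := hv s
      simp only [(hCHK.2.2 κ (l s)).2.1] at this
      exact this)
    (fun s => by
      fin_cases s
      exacts [J.zero_mem, J.zero_mem, Ideal.subset_span ⟨0, rfl⟩, Ideal.subset_span ⟨1, rfl⟩,
        Ideal.subset_span ⟨2, rfl⟩])
  have h0 : ∀ i, constantCoeff (ζ i) = 0 := fun i => by
    rw [← RingHom.mem_ker]
    refine Ideal.span_le.2 ?_ (hJ i)
    rintro _ ⟨a, rfl⟩
    exact MvPowerSeries.constantCoeff_X a
  simp only [(hCHK.2.2 κ _).2.2] at hζ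
  have e1 : dot l1 (psiv ζ) = 0 := hζ 0
  have e2 : dot l2 (psiv ζ) = 0 := hζ 1
  have e3 : ∀ j, dot (m j) (psiv ζ) = X j := fun j => by
    fin_cases j
    exacts [hζ 2, hζ 3, hζ 4]
  have hs : Function.Surjective (Matrix.mulVecLin (Matrix.of fun s => Lin (l s))) :=
    LinearMap.injective_iff_surjective.1 ((injective_iff_map_eq_zero _).2 fun v hv =>
      hli v fun s => congrFun hv s)
  obtain ⟨δ1, d1⟩ := hs ![1, 0, 0, 0, 0]
  obtain ⟨δ2, d2⟩ := hs ![0, 1, 0, 0, 0]
  have hone : 1 ∈ UU κ (psiv ζ) 1 := mem1 (psiv ζ) 0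
  refine ⟨psiv ζ, ⟨hone, fun j => ?_, hVOL κ l1 l2 δ1 δ2 ζ h0 e1 e2 (congrFun d1 0)
    (congrFun d2 0) (congrFun d1 1) (congrFun d2 1), fun V hV hV3 =>
      hloc (pp ζ) _ V ⟨UU_sys hone, hV, hV3⟩ (pp_ok ζ h0) e1 e2 e3⟩,
    hPARF κ l1 l2 m ζ hm hinj h0 e1 e2 e3⟩
  rw [← e3 j]
  exact Submodule.sum_mem _ fun i _ => Submodule.smul_mem _ _ (mem1 _ i)

end Pool.Agent.P.MP_6149fc_ag.V18

end
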