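import Pool.Agent.P.MP_6149fc_ag.V18.IfaceC

section

/-! Step PA0A. -/

set_option autoImplicit false
set_option linter.unusedSectionVars false

namespace Pool.Agent.P.MP_6149fc_ag.V18

open scoped ENNReal
open MvPowerSeries (coeff X constantCoeff monomial)

theorem p_PA0A :
    S_PA0A := by
  intro κ _ U p s t v0 v2 hU h ⟨ex', ez, ey, ew, eA⟩ hv
  let w : Fin 3 → ℕ := ![1, 1, 2]
  have hw : First A_a0a w := by decide
  have lw : Ld w 1 p.w (X 1) := (Ld.X 1).congr ew rfl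
  have lA : Ld w 2 p.A (X 2) := (Ld.X 2).congr eA rfl
  have l0' : Ld w 1 (X 0 : PS κ) (X 0) := Ld.X 0
  have ly : Ld w 1 p.y (X 0 + v2 ^ 2 • X 1) :=
    (l0'.add (lw.smul (v2 ^ 2))).congr (by rw [← ey, sub_add_cancel]) rfl
  have gx : Ge w 1 p.x := Ge.of_const h.cx (by decide)
  have gz : Ge w 1 p.z := Ge.of_const h.cz (by decide)
  obtain ⟨gh, gg, gk, -, g0, g1, g2, g3, gD⟩ := h.ge (nh := 2) (ng := 2) (nk := 2) (nB := 2)
    (n0 := 2) (n1 := 2) (n2 := 2) (n3 := 2) (nD := 2) gx ly.ge gz lw.ge lA.ge (by decide)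
  have lx : Ld w 1 p.x (v0 • X 1) :=
    ((lw.smul v0).add_ge (p.tl_ge s gh gg gk g0 g1 g2 g3 gD)).congr ex' rfl
  have lz : Ld w 1 p.z (v2 • X 1) :=
    ((lw.smul v2).add_ge (p.tl_ge t gh gg gk g0 g1 g2 g3 gD)).congr ez rfl
  have lh := ((lx.mul lz).sub (ly.mul ly)).congr (h.eh.trans (by rw [sq])) rfl
  have lg := ((lx.mul lw).sub (ly.mul lz)).congr h.eg rfl
  have lk := ((ly.mul lw).sub (lz.mul lz)).congr (h.ek.trans (by rw [sq])) rfl
  have lB := (lA.sub lg).congr h.eB rfl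
  have l0 := ((lx.mul lA).sub (ly.mul lh)).congr h.e0 rfl
  have l2 := ((lz.mul lB).add (ly.mul lk)).congr h.e2 rfl
  have l3 := ((lw.mul lB).add (lz.mul lk)).congr h.e3 rfl
  have lD := ((lA.mul lB).add (lh.mul lk)).congr h.eD rfl
  intro q hq
  simp only [P_a0a, List.mem_cons, List.not_mem_nil, or_false] at hq
  rcases hq with rfl | rfl | rfl | rfl
  · refine ⟨_, add_mem (sub_mem h.mh (Submodule.smul_mem _ v2 h.mg))
      (Submodule.smul_mem _ (v2 ^ 2) h.mK), ((lh.sub (lg.smul v2)).add (lk.smul (v2 ^ 2))).init hw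
      (init_of (t := -1) (e := 0) (by simp) (zero_mem _) ?_)⟩
    simp only [mon, Algebra.smul_def, map_neg, map_one, map_pow]; ring
  · refine ⟨_, h.mD, lD.init hw (init_of (t := 1)
      (e := (v2 ^ 3 - v0) • mon κ 0 2 1 + v2 • mon κ 1 1 1 + (v0 * v2 - v2 ^ 4) • mon κ 1 3 0 -
        (2 * v2 ^ 2) • mon κ 2 2 0 - mon κ 3 1 0) one_ne_zero ?_ ?_)⟩
    · exact sub_mem (sub_mem (add_mem (add_mem (Submodule.smul_mem _ _ (mon_gt (by decide)))
        (Submodule.smul_mem _ _ (mon_gt (by decide))))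
        (Submodule.smul_mem _ _ (mon_gt (by decide))))
        (Submodule.smul_mem _ _ (mon_gt (by decide)))) (mon_gt (by decide))
    · simp only [mon, Algebra.smul_def, map_one, map_pow, map_sub, map_mul, map_ofNat]; ring
  · refine ⟨_, sub_mem h.m2 (Submodule.smul_mem _ v2 h.m3), (l2.sub (l3.smul v2)).init hw
      (init_of (t := 1) (e := 0) one_ne_zero (zero_mem _) ?_)⟩
    simp only [mon, Algebra.smul_def, map_one, map_pow]; ring
  · refine ⟨_, sub_mem h.m0 (Submodule.smul_mem _ v0 h.m3), (l0.sub (l3.smul v0)).init hw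
      (init_of (t := (v2 ^ 3 - v0) ^ 2)
        (e := (3 * v2 ^ 4 - 3 * v0 * v2) • mon κ 1 2 0 + (3 * v2 ^ 2) • mon κ 2 1 0 + mon κ 3 0 0)
        (pow_ne_zero _ (sub_ne_zero.2 hv)) ?_ ?_)⟩
    · exact add_mem (add_mem (Submodule.smul_mem _ _ (mon_gt (by decide)))
        (Submodule.smul_mem _ _ (mon_gt (by decide)))) (mon_gt (by decide))
    · simp only [mon, Algebra.smul_def, map_pow, map_sub, map_mul, map_ofNat]; ring

end Pool.Agent.P.MP_6149fc_ag.V18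

end

section

/-! Step PA0B. -/

set_option autoImplicit false
set_option linter.unusedSectionVars false

namespace Pool.Agent.P.MP_6149fc_ag.V18

open scoped ENNReal
open MvPowerSeries (coeff X constantCoeff monomial)

theorem p_PA0B :
    S_PA0B := by
  intro κ _ U p s t v0 hU h ⟨ex', ew, ey, ez, eA⟩
  let w : Fin 3 → ℕ := ![1, 1, 2]
  have hw : First A_a0b w := by decide
  -- leading forms of the coordinates
  have ly : Ld w 1 p.y (X 0) := (Ld.X 0).congr ey rfl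
  have lz : Ld w 1 p.z (X 1) := (Ld.X 1).congr ez rfl
  have lA : Ld w 2 p.A (X 2) := (Ld.X 2).congr eA rfl
  have gx : Ge w 1 p.x := Ge.of_const h.cx (by decide)
  have gw : Ge w 1 p.w := Ge.of_const h.cw (by decide)
  obtain ⟨gh, gg, gk, -, g0, g1, g2, g3, gD⟩ := h.ge (nh := 2) (ng := 2) (nk := 2) (nB := 2)
    (n0 := 2) (n1 := 2) (n2 := 2) (n3 := 2) (nD := 2) gx ly.ge lz.ge gw lA.ge (by decide)
  have lx : Ld w 1 p.x (v0 • X 1) :=
    ((lz.smul v0).add_ge (p.tl_ge s gh gg gk g0 g1 g2 g3 gD)).congr ex' rfl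
  have gw2 : Ge w 2 p.w := (p.tl_ge t gh gg gk g0 g1 g2 g3 gD).congr ew
  have lh : Ld w 2 p.h (v0 • X 1 * X 1 - X 0 ^ 2) := ((lx.mul lz).sub (ly.pow 2)).congr h.eh rfl
  have lg : Ld w 2 p.g (-(X 0 * X 1)) :=
    ((ly.mul lz).neg.add_ge (gx.mul gw2)).congr (by rw [h.eg]; ring) rfl
  have lk : Ld w 2 p.k (-X 1 ^ 2) :=
    ((lz.pow 2).neg.add_ge (ly.ge.mul gw2)).congr (by rw [h.ek]; ring) rfl
  have lB := (lA.sub lg).congr h.eB rfl
  have l0 := ((lx.mul lA).sub (ly.mul lh)).congr h.e0 rfl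
  have l2 := ((lz.mul lB).add (ly.mul lk)).congr h.e2 rfl
  have l3 : Ld w 3 p.T3 (X 1 * -X 1 ^ 2) :=
    ((lz.mul lk).add_ge (gw2.mul lB.ge)).congr (by rw [h.e3]; ring) rfl
  have lD := ((lA.mul lB).add (lh.mul lk)).congr h.eD rfl
  intro q hq
  simp only [P_a0b, List.mem_cons, List.not_mem_nil, or_false] at hq
  rcases hq with rfl | rfl | rfl
  · refine ⟨_, h.mD, lD.init hw (init_of (t := 1)
      (e := mon κ 1 1 1 + mon κ 2 2 0 - v0 • mon κ 0 4 0) one_ne_zero ?_ ?_)⟩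
    · exact sub_mem (add_mem (mon_gt (by decide)) (mon_gt (by decide)))
        (Submodule.smul_mem _ _ (mon_gt (by decide)))
    · simp only [mon, Algebra.smul_def, map_one]; ring
  · refine ⟨_, h.m3, l3.init hw (init_of (t := -1) (e := 0) (by simp) (zero_mem _) ?_)⟩
    simp only [mon, Algebra.smul_def, map_neg, map_one]; ring
  · refine ⟨_, sub_mem h.m0 (Submodule.smul_mem _ v0 h.m2), (l0.sub (l2.smul v0)).init hw
      (init_of (t := 1) (e := -(v0 • mon κ 1 2 0)) one_ne_zero ?_ ?_)⟩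
    · exact neg_mem (Submodule.smul_mem _ _ (mon_gt (by decide)))
    · simp only [mon, Algebra.smul_def, map_one]; ring

end Pool.Agent.P.MP_6149fc_ag.V18

end

section

/-! Step PA1I. -/

set_option autoImplicit false
set_option linter.unusedSectionVars false

namespace Pool.Agent.P.MP_6149fc_ag.V18

open scoped ENNReal
open MvPowerSeries (coeff X constantCoeff monomial)

theorem p_PA1I :
    S_PA1I := by
  intro κ _ U p s t ρ hU h ⟨ew, ey, ex', ez, eB⟩ hβ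
  let w : Fin 3 → ℕ := ![1, 2, 3]
  have hw : First A_a1i w := by decide
  have lx : Ld w 1 p.x (X 0) := (Ld.X 0).congr ex' rfl
  have lz : Ld w 2 p.z (X 1) := (Ld.X 1).congr ez rfl
  have lB : Ld w 3 p.B (X 2) := (Ld.X 2).congr eB rfl
  have eA : p.A = p.B + p.g := by rw [h.eB]; ring
  obtain ⟨gh, gg, gk, -, g0, g1, g2, g3, gD⟩ := h.ge (nh := 2) (ng := 2) (nk := 2) (nB := 1)
    (n0 := 2) (n1 := 2) (n2 := 2) (n3 := 2) (nD := 2) lx.ge
    (Ge.of_const (n := 1) h.cy (by decide)) lz.ge (Ge.of_const (n := 1) h.cw (by decide))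
    (Ge.of_const (n := 1) h.cA (by decide)) (by decide)
  obtain ⟨gh, gg, gk, -, g0, g1, g2, g3, gD⟩ := h.ge (nh := 3) (ng := 3) (nk := 3) (nB := 2)
    (n0 := 3) (n1 := 3) (n2 := 3) (n3 := 3) (nD := 3) lx.ge
    ((p.tl_ge t gh gg gk g0 g1 g2 g3 gD).congr ey) lz.ge
    (((lz.ge.smul ρ).add (p.tl_ge s gh gg gk g0 g1 g2 g3 gD)).congr ew)
    (((lB.ge.mono (by decide)).add gg).congr eA) (by decide)
  have gy : Ge w 3 p.y := (p.tl_ge t gh gg gk g0 g1 g2 g3 gD).congr ey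
  have lw : Ld w 2 p.w (ρ • X 1) :=
    ((lz.smul ρ).add_ge (p.tl_ge s gh gg gk g0 g1 g2 g3 gD)).congr ew rfl
  obtain ⟨-, -, gk, -, g0, g1, g2, g3, gD⟩ := h.ge (nh := 3) (ng := 3) (nk := 4) (nB := 3)
    (n0 := 4) (n1 := 4) (n2 := 4) (n3 := 4) (nD := 4) lx.ge gy lz.ge lw.ge
    ((lB.ge.add gg).congr eA) (by decide)
  have lh : Ld w 3 p.h (X 0 * X 1) :=
    ((lx.mul lz).sub_ge (gy.mul' gy (by decide))).congr (by rw [h.eh, sq]) rfl
  have lg : Ld w 3 p.g (X 0 * ρ • X 1) :=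
    ((lx.mul lw).sub_ge (gy.mul' lz.ge (by decide))).congr h.eg rfl
  have lk : Ld w 4 p.k (-X 1 ^ 2) :=
    ((lz.pow 2).neg.add_ge (gy.mul lw.ge)).congr (by rw [h.ek]; ring) rfl
  have lA : Ld w 3 p.A (X 2 + X 0 * ρ • X 1) := (lB.add lg).congr eA rfl
  have ls : Ld w 3 (p.tl s) ((s.b0 + ρ * s.b1) • (X 0 * X 1)) :=
    ((((((((lh.smul s.b0).add (lg.smul s.b1)).add_ge (gk.smul _)).add_ge (g0.smul _)).add_ge
      (g1.smul _)).add_ge (g2.smul _)).add_ge (g3.smul _)).add_ge (gD.smul _)).congr rfl (by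
        simp only [Algebra.smul_def, map_add, map_mul]; ring)
  have lq : Ld w 4 (p.g - ρ • p.h) (X 0 * (s.b0 + ρ * s.b1) • (X 0 * X 1)) :=
    (((lx.mul ls).sub_ge (gy.mul lz.ge)).add_ge ((gy.mul' gy (by decide)).smul ρ)).congr (by
      rw [h.eg, h.eh, ew]; simp only [Algebra.smul_def]; ring) rfl
  have l0 : Ld w 4 p.T0 (X 0 * (X 2 + X 0 * ρ • X 1)) :=
    ((lx.mul lA).sub_ge (gy.mul' lh.ge (by decide))).congr h.e0 rfl
  have l1 : Ld w 5 p.T1 (-(X 1 * (X 0 * X 1))) :=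
    ((lz.mul lh).neg.add_ge (gy.mul lA.ge)).congr (by rw [h.e1]; ring) rfl
  have l2 : Ld w 5 p.T2 (X 1 * X 2) :=
    ((lz.mul lB).add_ge (gy.mul' lk.ge (by decide))).congr h.e2 rfl
  have l3 : Ld w 6 (p.T3 - ρ • p.T2)
      ((s.b0 + ρ * s.b1) • (X 0 * X 1) * X 2 + X 1 * -X 1 ^ 2) :=
    (((ls.mul lB).add (lz.mul lk)).sub_ge ((gy.mul lk.ge).smul ρ)).congr (by
      rw [h.e3, h.e2, ew]; simp only [Algebra.smul_def]; ring) rfl
  have lD : Ld w 6 p.D ((X 2 + X 0 * ρ • X 1) * X 2) :=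
    ((lA.mul lB).add_ge (lh.ge.mul lk.ge)).congr h.eD rfl
  have m3 := sub_mem h.m3 (Submodule.smul_mem _ ρ h.m2)
  intro q hq
  simp only [P_a1i, List.mem_cons, List.not_mem_nil, or_false] at hq
  rcases hq with rfl | rfl | rfl | rfl | rfl
  · refine ⟨_, sub_mem h.mg (Submodule.smul_mem _ ρ h.mh),
      lq.init hw (init_of (e := 0) hβ (zero_mem _) ?_)⟩
    simp only [mon, Algebra.smul_def]; ring
  · refine ⟨_, h.m0, l0.init hw (init_of (t := 1) (e := ρ • mon κ 2 1 0) one_ne_zero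
      (Submodule.smul_mem _ _ (mon_gt (by decide))) ?_)⟩
    simp only [mon, Algebra.smul_def, map_one]; ring
  · refine ⟨_, m3, l3.init hw (init_of (e := -mon κ 0 3 0) hβ (neg_mem (mon_gt (by decide))) ?_)⟩
    simp only [mon, Algebra.smul_def]; ring
  · refine ⟨_, h.mD, lD.init hw (init_of (t := 1) (e := ρ • mon κ 1 1 1) one_ne_zero
      (Submodule.smul_mem _ _ (mon_gt (by decide))) ?_)⟩
    simp only [mon, Algebra.smul_def, map_one]; ring
  · refine ⟨_, sub_mem (hU.mul 1 1 _ _ m3 h.mK)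
      (Submodule.smul_mem _ (s.b0 + ρ * s.b1) (hU.mul 1 1 _ _ h.m2 h.m1)),
      ((l3.mul lk).sub ((l2.mul l1).smul _)).init hw
        (init_of (t := 1) (e := 0) one_ne_zero (zero_mem _) ?_)⟩
    simp only [mon, Algebra.smul_def, map_one]; ring

end Pool.Agent.P.MP_6149fc_ag.V18

end

section

/-! Step PA1J. -/

set_option autoImplicit false
set_option linter.unusedSectionVars false

namespace Pool.Agent.P.MP_6149fc_ag.V18

open scoped ENNReal
open MvPowerSeries (coeff X constantCoeff monomial)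

theorem p_PA1J :
    S_PA1J := by
  intro κ _ U p s t ρ hU h ⟨ew, ey, ex', ez, eA⟩ hb hc
  let w : Fin 3 → ℕ := ![1, 4, 5]
  have hw : First A_a1j w := by decide
  have lx : Ld w 1 p.x (X 0) := (Ld.X 0).congr ex' rfl
  have lz : Ld w 4 p.z (X 1) := (Ld.X 1).congr ez rfl
  have lA : Ld w 5 p.A (X 2) := (Ld.X 2).congr eA rfl
  have step : ∀ n, 1 ≤ n → n ≤ 4 → Ge w n p.y → Ge w n p.w → ∀ r, Ge w (n + 1) (p.tl r) := by
    intro n h1 h4 gy gw r
    obtain ⟨gh, gg, gk, -, g0, g1, g2, g3, gD⟩ := h.ge (nh := n + 1) (ng := n + 1) (nk := n + 1)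
      (nB := n + 1) (n0 := n + 1) (n1 := n + 1) (n2 := n + 1) (n3 := n + 1) (nD := n + 1)
      lx.ge gy lz.ge gw lA.ge (by omega)
    exact p.tl_ge r gh gg gk g0 g1 g2 g3 gD
  have nxt : ∀ n, 1 ≤ n → n ≤ 3 → Ge w n p.y ∧ Ge w n p.w →
      Ge w (n + 1) p.y ∧ Ge w (n + 1) p.w := fun n h1 h3 ⟨gy, gw⟩ =>
    ⟨(step n h1 (by omega) gy gw t).congr ey,
      (((lz.ge.mono (by omega)).smul ρ).add (step n h1 (by omega) gy gw s)).congr ew⟩
  obtain ⟨gy4, gw4⟩ := nxt 3 (by decide) (by decide) (nxt 2 (by decide) (by decide)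
    (nxt 1 (by decide) (by decide)
      ⟨Ge.of_const h.cy (by decide), Ge.of_const h.cw (by decide)⟩))
  have gy : Ge w 5 p.y := (step 4 (by decide) (by decide) gy4 gw4 t).congr ey
  have gs : Ge w 5 (p.tl s) := step 4 (by decide) (by decide) gy4 gw4 s
  obtain ⟨-, -, gk, -, g0, g1, g2, g3, gD⟩ := h.ge (nh := 5) (ng := 5) (nk := 7)
    (nB := 5) (n0 := 6) (n1 := 7) (n2 := 7) (n3 := 7) (nD := 7)
    lx.ge gy lz.ge gw4 lA.ge (by decide)
  have lw : Ld w 4 p.w (ρ • X 1) := ((lz.smul ρ).add_ge gs).congr ew rfl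
  have lh : Ld w 5 p.h (X 0 * X 1) :=
    ((lx.mul lz).sub_ge (gy.mul' gy (by decide))).congr (by rw [h.eh]; ring) rfl
  have lg : Ld w 5 p.g (X 0 * ρ • X 1) :=
    ((lx.mul lw).sub_ge (gy.mul' lz.ge (by decide))).congr h.eg rfl
  have lk : Ld w 8 p.k (-X 1 ^ 2) :=
    ((lz.pow 2).neg.add_ge (gy.mul gw4)).congr (by rw [h.ek]; ring) rfl
  have lB := (lA.sub lg).congr h.eB rfl
  have l0 : Ld w 6 p.T0 (X 0 * X 2) :=
    ((lx.mul lA).sub_ge (gy.mul' lh.ge (by decide))).congr h.e0 rfl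
  have l1 : Ld w 9 p.T1 (-(X 1 * (X 0 * X 1))) :=
    ((lz.mul lh).neg.add_ge (gy.mul lA.ge)).congr (by rw [h.e1]; ring) rfl
  have lD : Ld w 10 p.D (X 2 * (X 2 - X 0 * ρ • X 1)) :=
    ((lA.mul lB).add_ge (lh.ge.mul' lk.ge (by decide))).congr h.eD rfl
  have eG : p.g - ρ • p.h = p.x * p.tl s + (ρ • (p.y * p.y) - p.y * p.z) := by
    have e : p.tl s = p.w - ρ • p.z := by rw [ew]; ring
    rw [e, h.eg, h.eh]
    simp only [Algebra.smul_def]; ring
  have gR : Ge w 8 (ρ • (p.y * p.y) - p.y * p.z) :=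
    ((gy.mul' gy (by decide)).smul ρ).sub (gy.mul' lz.ge (by decide))
  have eS : p.tl s = s.c0 • p.T0 + (s.b1 • (p.g - ρ • p.h) +
      (s.b2 • p.k + s.c1 • p.T1 + s.c2 • p.T2 + s.c3 • p.T3 + s.e • p.D)) := by
    have e : s.b0 = -(ρ * s.b1) := eq_neg_of_add_eq_zero_left hb
    rw [P14.tl, e]
    module
  have gT : Ge w 7 (s.b2 • p.k + s.c1 • p.T1 + s.c2 • p.T2 + s.c3 • p.T3 + s.e • p.D) :=
    ((((gk.smul _).add (g1.smul _)).add (g2.smul _)).add (g3.smul _)).add (gD.smul _)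
  have gG6 : Ge w 6 (p.g - ρ • p.h) := ((lx.ge.mul gs).add (gR.mono (by decide))).congr eG
  have gs6 : Ge w 6 (p.tl s) :=
    ((g0.smul _).add ((gG6.smul _).add (gT.mono (by decide)))).congr eS
  have gG7 : Ge w 7 (p.g - ρ • p.h) := ((lx.ge.mul gs6).add (gR.mono (by decide))).congr eG
  have ls : Ld w 6 (p.tl s) (s.c0 • (X 0 * X 2)) :=
    ((l0.smul _).add_ge ((gG7.smul _).add gT)).congr eS rfl
  have lG : Ld w 7 (p.g - ρ • p.h) (X 0 * s.c0 • (X 0 * X 2)) :=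
    ((lx.mul ls).add_ge gR).congr eG rfl
  intro q hq
  simp only [P_a1j, List.mem_cons, List.not_mem_nil, or_false] at hq
  rcases hq with rfl | rfl | rfl | rfl
  · refine ⟨_, sub_mem h.mg (Submodule.smul_mem _ ρ h.mh),
      lG.init hw (init_of (t := s.c0) (e := 0) hc (zero_mem _) ?_)⟩
    simp only [mon, Algebra.smul_def]; ring
  · refine ⟨_, h.mK, lk.init hw (init_of (t := -1) (e := 0) (by simp) (zero_mem _) ?_)⟩
    simp only [mon, Algebra.smul_def, map_neg, map_one]; ring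
  · refine ⟨_, h.m1, l1.init hw (init_of (t := -1) (e := 0) (by simp) (zero_mem _) ?_)⟩
    simp only [mon, Algebra.smul_def, map_neg, map_one]; ring
  · refine ⟨_, h.mD, lD.init hw (init_of (t := 1) (e := -(ρ • mon κ 1 1 1)) one_ne_zero ?_ ?_)⟩
    · exact neg_mem (Submodule.smul_mem _ _ (mon_gt (by decide)))
    · simp only [mon, Algebra.smul_def, map_one]; ring

end Pool.Agent.P.MP_6149fc_ag.V18

end

section

/-! Step PA21. -/

set_option autoImplicit false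
set_option linter.unusedSectionVars false

namespace Pool.Agent.P.MP_6149fc_ag.V18

open scoped ENNReal
open MvPowerSeries (coeff X constantCoeff monomial)

theorem p_PA21 :
    S_PA21 := by
  intro κ _ U p s t hU h ⟨ey, ez, ex', ew, eA⟩ hs ht
  let w : Fin 3 → ℕ := ![2, 2, 5]
  have hw : First A_a21 w := by decide
  have lx : Ld w 2 p.x (X 0) := (Ld.X 0).congr ex' rfl
  have lw : Ld w 2 p.w (X 1) := (Ld.X 1).congr ew rfl
  have lA : Ld w 5 p.A (X 2) := (Ld.X 2).congr eA rfl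
  have gy : Ge w 2 p.y := Ge.of_const h.cy (by decide)
  have gz : Ge w 2 p.z := Ge.of_const h.cz (by decide)
  obtain ⟨gh, gg, gk, -, g0, g1, g2, g3, gD⟩ := h.ge (nh := 4) (ng := 4) (nk := 4) (nB := 4)
    (n0 := 4) (n1 := 4) (n2 := 4) (n3 := 4) (nD := 4) lx.ge gy gz lw.ge lA.ge (by decide)
  have gy4 : Ge w 4 p.y := (p.tl_ge s gh gg gk g0 g1 g2 g3 gD).congr ey
  have gz4 : Ge w 4 p.z := (p.tl_ge t gh gg gk g0 g1 g2 g3 gD).congr ez
  clear gh gg gk g0 g1 g2 g3 gD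
  obtain ⟨gh, gg, gk, -, g0, g1, g2, g3, gD⟩ := h.ge (nh := 6) (ng := 4) (nk := 6) (nB := 4)
    (n0 := 6) (n1 := 6) (n2 := 6) (n3 := 6) (nD := 6) lx.ge gy4 gz4 lw.ge lA.ge (by decide)
  have gt : ∀ u : Tl κ, Ge w 6 (p.tl u - u.b1 • p.g) := fun u =>
    (((((((gh.smul u.b0).add (gk.smul u.b2)).add (g0.smul u.c0)).add (g1.smul u.c1)).add
      (g2.smul u.c2)).add (g3.smul u.c3)).add (gD.smul u.e)).congr (by unfold P14.tl; abel)
  have dy : Ge w 6 (p.y - s.b1 • p.g) := (gt s).congr (by rw [← ey])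
  have dz : Ge w 6 (p.z - t.b1 • p.g) := (gt t).congr (by rw [← ez])
  have lg : Ld w 4 p.g (X 0 * X 1) :=
    ((lx.mul lw).sub_ge (gy4.mul' gz4 (by norm_num))).congr h.eg rfl
  have ly : Ld w 4 p.y (s.b1 • (X 0 * X 1)) :=
    ((lg.smul s.b1).add_ge (dy.mono (by norm_num))).congr (by abel) rfl
  have lz : Ld w 4 p.z (t.b1 • (X 0 * X 1)) :=
    ((lg.smul t.b1).add_ge (dz.mono (by norm_num))).congr (by abel) rfl
  have lh : Ld w 6 p.h (X 0 * t.b1 • (X 0 * X 1)) :=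
    ((lx.mul lz).sub_ge (gy4.mul' gy4 (by norm_num))).congr (by rw [h.eh, sq]) rfl
  have lk : Ld w 6 p.k (s.b1 • (X 0 * X 1) * X 1) :=
    ((ly.mul lw).sub_ge (gz4.mul' gz4 (by norm_num))).congr (by rw [h.ek, sq]) rfl
  have l0 : Ld w 7 p.T0 (X 0 * X 2) :=
    ((lx.mul lA).sub_ge (gy4.mul' gh (by norm_num))).congr h.e0 rfl
  have l1 : Ld w 9 p.T1 (s.b1 • (X 0 * X 1) * X 2) :=
    ((ly.mul lA).sub_ge (gz4.mul' gh (by norm_num))).congr h.e1 rfl
  have l3 : Ld w 7 (s.b1 • p.T3 + p.k) (s.b1 • (X 1 * X 2)) :=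
    (((((lw.mul lA).smul s.b1).add_ge (lw.ge.mul' dy (by norm_num))).add_ge
      ((gz4.mul' gk (by norm_num)).smul s.b1)).sub_ge (gz4.mul' gz4 (by norm_num))).congr
      (by rw [h.e3, h.eB]; nth_rewrite 2 [h.ek]; simp only [Algebra.smul_def]; ring) rfl
  have lD : Ld w 10 (s.b1 • p.D + p.T1)
      (s.b1 • (X 2 * X 2) - t.b1 • (X 0 * X 1) * (X 0 * t.b1 • (X 0 * X 1))) :=
    (((((lA.mul lA).smul s.b1).sub (lz.mul lh)).add_ge (lA.ge.mul' dy (by norm_num))).add_ge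
      ((gh.mul' gk (by norm_num)).smul s.b1)).congr
      (by rw [h.eD, h.eB, h.e1]; simp only [Algebra.smul_def]; ring) rfl
  have mD : s.b1 • p.D + p.T1 ∈ U 1 := add_mem (Submodule.smul_mem _ _ h.mD) h.m1
  have lE := (lD.mul lh).sub ((l0.mul l1).smul t.b1)
  intro q hq
  simp only [P_a21, List.mem_cons, List.not_mem_nil, or_false] at hq
  rcases hq with rfl | rfl | rfl | rfl | rfl | rfl
  · refine ⟨_, h.mK, lk.init hw (init_of (t := s.b1) (e := 0) hs (zero_mem _) ?_)⟩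
    simp only [mon, Algebra.smul_def]; ring
  · refine ⟨_, h.m0, l0.init hw (init_of (t := 1) (e := 0) one_ne_zero (zero_mem _) ?_)⟩
    simp only [mon, Algebra.smul_def, map_one]; ring
  · refine ⟨_, h.m1, l1.init hw (init_of (t := s.b1) (e := 0) hs (zero_mem _) ?_)⟩
    simp only [mon, Algebra.smul_def]; ring
  · refine ⟨_, add_mem (Submodule.smul_mem _ _ h.m3) h.mK,
      l3.init hw (init_of (t := s.b1) (e := 0) hs (zero_mem _) ?_)⟩
    simp only [mon, Algebra.smul_def]; ring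
  · refine ⟨_, mD, lD.init hw (init_of (t := s.b1) (e := -((t.b1 ^ 2) • mon κ 3 2 0)) hs ?_ ?_)⟩
    · exact neg_mem (Submodule.smul_mem _ _ (mon_gt (by decide)))
    · simp only [mon, Algebra.smul_def, map_pow]; ring
  · refine ⟨_, sub_mem (hU.mul 1 1 _ _ mD h.mh)
      (Submodule.smul_mem _ t.b1 (hU.mul 1 1 _ _ h.m0 h.m1)),
      lE.init hw (init_of (t := -t.b1 ^ 3) (e := 0) (neg_ne_zero.2 (pow_ne_zero 3 ht))
        (zero_mem _) ?_)⟩
    simp only [mon, Algebra.smul_def, map_pow, map_neg]; ring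

end Pool.Agent.P.MP_6149fc_ag.V18

end

section

/-! Step PA22. -/

set_option autoImplicit false
set_option linter.unusedSectionVars false

namespace Pool.Agent.P.MP_6149fc_ag.V18

open scoped ENNReal
open MvPowerSeries (coeff X constantCoeff monomial)

theorem p_PA22 :
    S_PA22 := by
  intro κ _ U p s t hU h ⟨ey, ez, ex', ew, eA⟩ hs ht hc
  let w : Fin 3 → ℕ := ![1, 1, 2]
  have hw : First A_a22 w := by decide
  have lx : Ld w 1 p.x (X 0) := (Ld.X 0).congr ex' rfl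
  have lw : Ld w 1 p.w (X 1) := (Ld.X 1).congr ew rfl
  have lA : Ld w 2 p.A (X 2) := (Ld.X 2).congr eA rfl
  have gy1 : Ge w 1 p.y := Ge.of_const h.cy (by decide)
  have gz1 : Ge w 1 p.z := Ge.of_const h.cz (by decide)
  obtain ⟨ah, ag, ak, -, a0, a1, a2, a3, aD⟩ := h.ge (nh := 2) (ng := 2) (nk := 2) (nB := 2)
    (n0 := 2) (n1 := 2) (n2 := 2) (n3 := 2) (nD := 2) lx.ge gy1 gz1 lw.ge lA.ge (by decide)
  have gy : Ge w 2 p.y := (p.tl_ge s ah ag ak a0 a1 a2 a3 aD).congr ey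
  have gz2 : Ge w 2 p.z := (p.tl_ge t ah ag ak a0 a1 a2 a3 aD).congr ez
  obtain ⟨bh, -, bk, -, b0, b1, b2, b3, bD⟩ := h.ge (nh := 3) (ng := 2) (nk := 3) (nB := 2)
    (n0 := 3) (n1 := 3) (n2 := 3) (n3 := 3) (nD := 3) lx.ge gy gz2 lw.ge lA.ge (by decide)
  have gz : Ge w 3 p.z := (((((((bh.smul t.b0).add (bk.smul t.b2)).add (b0.smul t.c0)).add
    (b1.smul t.c1)).add (b2.smul t.c2)).add (b3.smul t.c3)).add (bD.smul t.e)).congr
    (by rw [ez, P14.tl, ht, zero_smul, add_zero])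
  obtain ⟨gh, -, -, -, -, g1, g2, -, gD⟩ := h.ge (nh := 4) (ng := 2) (nk := 3) (nB := 2)
    (n0 := 3) (n1 := 4) (n2 := 4) (n3 := 3) (nD := 4) lx.ge gy gz lw.ge lA.ge (by decide)
  have lg : Ld w 2 p.g (X 0 * X 1) :=
    ((lx.mul lw).sub_ge (gy.mul' gz (by decide))).congr h.eg rfl
  have ly : Ld w 2 p.y (s.b1 • (X 0 * X 1)) :=
    ((lg.smul s.b1).add_ge (((((((bh.smul s.b0).add (bk.smul s.b2)).add (b0.smul s.c0)).add
      (b1.smul s.c1)).add (b2.smul s.c2)).add (b3.smul s.c3)).add (bD.smul s.e))).congr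
      (by rw [ey, P14.tl]; abel) rfl
  have lk : Ld w 3 p.k (s.b1 • (X 0 * X 1) * X 1) :=
    ((ly.mul lw).sub_ge (gz.mul' gz (by decide))).congr (by rw [h.ek, sq]) rfl
  have lB : Ld w 2 p.B (X 2 - X 0 * X 1) := (lA.sub lg).congr h.eB rfl
  have l0 : Ld w 3 p.T0 (X 0 * X 2) :=
    ((lx.mul lA).sub_ge (gy.mul' gh (by decide))).congr h.e0 rfl
  have l3 : Ld w 3 p.T3 (X 1 * (X 2 - X 0 * X 1)) :=
    ((lw.mul lB).add_ge (gz.mul' bk (by decide))).congr h.e3 rfl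
  have lz : Ld w 3 p.z (t.b2 • (s.b1 • (X 0 * X 1) * X 1) + t.c0 • (X 0 * X 2) +
      t.c3 • (X 1 * (X 2 - X 0 * X 1))) :=
    ((((lk.smul t.b2).add (l0.smul t.c0)).add (l3.smul t.c3)).add_ge
      ((((gh.smul t.b0).add (g1.smul t.c1)).add (g2.smul t.c2)).add (gD.smul t.e))).congr
      (by rw [ez, P14.tl, ht, zero_smul]; abel) rfl
  have lh := ((lx.mul lz).sub (ly.pow 2)).congr h.eh rfl
  have l2 := ((lz.mul lB).add (ly.mul lk)).congr h.e2 rfl
  intro q hq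
  simp only [P_a22, List.mem_cons, List.not_mem_nil, or_false] at hq
  rcases hq with rfl | rfl | rfl | rfl
  · refine ⟨_, h.mh, lh.init hw (init_of (t := t.c0) (e := t.c3 • mon κ 1 1 1 +
      (s.b1 * t.b2 - t.c3 - s.b1 ^ 2) • mon κ 2 2 0) hc ?_ ?_)⟩
    · exact add_mem (Submodule.smul_mem _ _ (mon_gt (by decide)))
        (Submodule.smul_mem _ _ (mon_gt (by decide)))
    · simp only [mon, Algebra.smul_def, map_sub, map_mul, map_pow]; ring
  · refine ⟨_, h.mK, lk.init hw (init_of (t := s.b1) (e := 0) hs (zero_mem _) ?_)⟩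
    simp only [mon, Algebra.smul_def]; ring
  · refine ⟨_, h.m2, l2.init hw (init_of (t := t.c0) (e := t.c3 • mon κ 0 1 2 +
      (s.b1 * t.b2 - t.c3 - t.c3) • mon κ 1 2 1 - t.c0 • mon κ 2 1 1 +
      (t.c3 - s.b1 * t.b2 + s.b1 ^ 2) • mon κ 2 3 0) hc ?_ ?_)⟩
    · exact add_mem (sub_mem (add_mem (Submodule.smul_mem _ _ (mon_gt (by decide)))
        (Submodule.smul_mem _ _ (mon_gt (by decide))))
        (Submodule.smul_mem _ _ (mon_gt (by decide))))
        (Submodule.smul_mem _ _ (mon_gt (by decide)))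
    · simp only [mon, Algebra.smul_def, map_sub, map_add, map_mul, map_pow]; ring
  · refine ⟨_, h.m3, l3.init hw (init_of (t := 1) (e := -mon κ 1 2 0) one_ne_zero
      (neg_mem (mon_gt (by decide))) ?_)⟩
    simp only [mon, Algebra.smul_def, map_one]; ring

end Pool.Agent.P.MP_6149fc_ag.V18

end

section

/-! Step PA23. -/

set_option autoImplicit false
set_option linter.unusedSectionVars false

namespace Pool.Agent.P.MP_6149fc_ag.V18

open scoped ENNReal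
open MvPowerSeries (coeff X constantCoeff monomial)

theorem p_PA23 :
    S_PA23 := by
  intro κ _ U p s t hU h ⟨ey, ez, ex', ew, eA⟩ hs ht hc
  let w : Fin 3 → ℕ := ![1, 1, 2]
  have hw : First A_a23 w := by decide
  have lx : Ld w 1 p.x (X 0) := (Ld.X 0).congr ex' rfl
  have lw : Ld w 1 p.w (X 1) := (Ld.X 1).congr ew rfl
  have lA : Ld w 2 p.A (X 2) := (Ld.X 2).congr eA rfl
  have gy : Ge w 1 p.y := Ge.of_const h.cy (by decide)
  have gz : Ge w 1 p.z := Ge.of_const h.cz (by decide)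
  obtain ⟨gh, gg, gk, -, g0, g1, g2, g3, gD⟩ := h.ge (nh := 2) (ng := 2) (nk := 2) (nB := 2)
    (n0 := 2) (n1 := 2) (n2 := 2) (n3 := 2) (nD := 2) lx.ge gy gz lw.ge lA.ge (by decide)
  have gy2 : Ge w 2 p.y := (p.tl_ge s gh gg gk g0 g1 g2 g3 gD).congr ey
  have gz2 : Ge w 2 p.z := (p.tl_ge t gh gg gk g0 g1 g2 g3 gD).congr ez
  obtain ⟨gh, -, gk, -, g0, g1, g2, g3, gD⟩ := h.ge (nh := 3) (ng := 2) (nk := 3) (nB := 2)
    (n0 := 3) (n1 := 3) (n2 := 3) (n3 := 3) (nD := 3) lx.ge gy2 gz2 lw.ge lA.ge (by decide)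
  have gr : ∀ u : Tl κ, Ge w 3 (p.tl u - u.b1 • p.g) := fun u =>
    (((((((gh.smul u.b0).add (gk.smul u.b2)).add (g0.smul u.c0)).add (g1.smul u.c1)).add
      (g2.smul u.c2)).add (g3.smul u.c3)).add (gD.smul u.e)).congr (by rw [P14.tl]; abel)
  have gy3 : Ge w 3 p.y := (gr s).congr (by rw [hs, zero_smul, sub_zero, ey])
  have lg : Ld w 2 p.g (X 0 * X 1) :=
    ((lx.mul lw).sub_ge (gy2.mul' gz2 (by decide))).congr h.eg rfl
  have lz : Ld w 2 p.z (t.b1 • (X 0 * X 1)) :=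
    ((lg.smul t.b1).add_ge (gr t)).congr (by rw [add_sub_cancel, ez]) rfl
  obtain ⟨-, -, gk, -, -, g1, g2, -, gD⟩ := h.ge (nh := 3) (ng := 2) (nk := 4) (nB := 2)
    (n0 := 3) (n1 := 4) (n2 := 4) (n3 := 3) (nD := 4) lx.ge gy3 gz2 lw.ge lA.ge (by decide)
  have lh : Ld w 3 p.h (X 0 * t.b1 • (X 0 * X 1)) :=
    ((lx.mul lz).sub_ge (gy2.mul gy2)).congr (by rw [h.eh, sq]) rfl
  have l0 : Ld w 3 p.T0 (X 0 * X 2) :=
    ((lx.mul lA).sub_ge (gy2.mul' gh (by decide))).congr h.e0 rfl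
  have lB : Ld w 2 p.B (X 2 - X 0 * X 1) := (lA.sub lg).congr h.eB rfl
  have l3 : Ld w 3 p.T3 (X 1 * (X 2 - X 0 * X 1)) :=
    ((lw.mul lB).add_ge (gz2.mul' gk (by decide))).congr h.e3 rfl
  have ly := ((((lh.smul s.b0).add (l0.smul s.c0)).add (l3.smul s.c3)).add_ge
    ((((gk.smul s.b2).add (g1.smul s.c1)).add (g2.smul s.c2)).add (gD.smul s.e))).congr
    (f' := p.y) (by rw [ey, P14.tl, hs, zero_smul]; abel) rfl
  have lk := ((ly.mul lw).sub (lz.mul lz)).congr (f' := p.k) (by rw [h.ek, sq]) rfl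
  have l1 := ((ly.mul lA).sub (lz.mul lh)).congr h.e1 rfl
  intro q hq
  simp only [P_a23, List.mem_cons, List.not_mem_nil, or_false] at hq
  rcases hq with rfl | rfl | rfl | rfl
  · refine ⟨_, h.mh, lh.init hw (init_of (t := t.b1) (e := 0) ht (zero_mem _) ?_)⟩
    simp only [mon, Algebra.smul_def]; ring
  · refine ⟨_, h.mK, lk.init hw (init_of (t := s.c3) (e := s.c0 • mon κ 1 1 1 -
      s.c3 • mon κ 1 3 0 + (s.b0 * t.b1 - t.b1 ^ 2) • mon κ 2 2 0) hc ?_ ?_)⟩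
    · exact add_mem (sub_mem (Submodule.smul_mem _ _ (mon_gt (by decide)))
        (Submodule.smul_mem _ _ (mon_gt (by decide)))) (Submodule.smul_mem _ _ (mon_gt (by decide)))
    · simp only [mon, Algebra.smul_def, map_mul, map_sub, map_pow]; ring
  · refine ⟨_, h.m0, l0.init hw (init_of (t := 1) (e := 0) one_ne_zero (zero_mem _) ?_)⟩
    simp only [mon, Algebra.smul_def, map_one]; ring
  · refine ⟨_, h.m1, l1.init hw (init_of (t := s.c3) (e := s.c0 • mon κ 1 0 2 -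
      s.c3 • mon κ 1 2 1 + (s.b0 * t.b1) • mon κ 2 1 1 - (t.b1 ^ 2) • mon κ 3 2 0) hc ?_ ?_)⟩
    · exact sub_mem (add_mem (sub_mem (Submodule.smul_mem _ _ (mon_gt (by decide)))
        (Submodule.smul_mem _ _ (mon_gt (by decide)))) (Submodule.smul_mem _ _ (mon_gt (by decide))))
        (Submodule.smul_mem _ _ (mon_gt (by decide)))
    · simp only [mon, Algebra.smul_def, map_mul, map_pow]; ring

end Pool.Agent.P.MP_6149fc_ag.V18

end
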