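import Pool.Agent.P.MP_6149fc_ag.V18.IfaceC

section

/-! Step PA24. -/

set_option autoImplicit false
set_option linter.unusedSectionVars false

namespace Pool.Agent.P.MP_6149fc_ag.V18

open scoped ENNReal
open MvPowerSeries (coeff X constantCoeff monomial)

namespace PA24x

variable {κ : Type} [Field κ] {w : Fin 3 → ℕ} {n : ℕ} {p : P14 κ} {u : Tl κ}

theorem ge (hu : u.b1 = 0) (h1 : Ge w n p.h) (h3 : Ge w n p.k) (h4 : Ge w n p.T0)
    (h5 : Ge w n p.T1) (h6 : Ge w n p.T2) (h7 : Ge w n p.T3) (h8 : Ge w n p.D) :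
    Ge w n (p.tl u) :=
  (((((((h1.smul _).add (h3.smul _)).add (h4.smul _)).add (h5.smul _)).add
    (h6.smul _)).add (h7.smul _)).add (h8.smul _)).congr (by rw [P14.tl, hu, zero_smul, add_zero])

theorem ld {a b : PS κ} (hu : u.b1 = 0) (h1 : Ge w (n + 1) p.h) (h3 : Ge w (n + 1) p.k)
    (h4 : Ld w n p.T0 a) (h5 : Ge w (n + 1) p.T1) (h6 : Ge w (n + 1) p.T2) (h7 : Ld w n p.T3 b)
    (h8 : Ge w (n + 1) p.D) : Ld w n (p.tl u) (u.c0 • a + u.c3 • b) :=
  (((h4.smul u.c0).add (h7.smul u.c3)).add_ge (((((h1.smul u.b0).add (h3.smul u.b2)).add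
    (h5.smul u.c1)).add (h6.smul u.c2)).add (h8.smul u.e))).congr
    (by rw [P14.tl, hu, zero_smul]; abel) rfl

end PA24x

theorem p_PA24 :
    S_PA24 := by
  intro κ _ U p s t hU h ⟨ey, ez, ex', ew, eA⟩ s1 t1 s3 t0 s0
  let w : Fin 3 → ℕ := ![1, 1, 2]
  have hw : First A_a24 w := by decide
  have lx : Ld w 1 p.x (X 0) := (Ld.X 0).congr ex' rfl
  have lw : Ld w 1 p.w (X 1) := (Ld.X 1).congr ew rfl
  have lA : Ld w 2 p.A (X 2) := (Ld.X 2).congr eA rfl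
  have gy1 : Ge w 1 p.y := Ge.of_const h.cy (by decide)
  have gz1 : Ge w 1 p.z := Ge.of_const h.cz (by decide)
  obtain ⟨gh, gg, gk, -, g0, g1, g2, g3, gD⟩ := h.ge (nh := 2) (ng := 2) (nk := 2) (nB := 2)
    (n0 := 2) (n1 := 2) (n2 := 2) (n3 := 2) (nD := 2) lx.ge gy1 gz1 lw.ge lA.ge (by decide)
  have gy2 : Ge w 2 p.y := (p.tl_ge s gh gg gk g0 g1 g2 g3 gD).congr ey
  have gz2 : Ge w 2 p.z := (p.tl_ge t gh gg gk g0 g1 g2 g3 gD).congr ez
  obtain ⟨gh, -, gk, -, g0, g1, g2, g3, gD⟩ := h.ge (nh := 3) (ng := 2) (nk := 3) (nB := 2)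
    (n0 := 3) (n1 := 3) (n2 := 3) (n3 := 3) (nD := 3) lx.ge gy2 gz2 lw.ge lA.ge (by decide)
  have gy3 : Ge w 3 p.y := (PA24x.ge s1 gh gk g0 g1 g2 g3 gD).congr ey
  have gz3 : Ge w 3 p.z := (PA24x.ge t1 gh gk g0 g1 g2 g3 gD).congr ez
  obtain ⟨gh, -, gk, -, -, g1, g2, -, gD⟩ := h.ge (nh := 4) (ng := 2) (nk := 4) (nB := 2)
    (n0 := 3) (n1 := 4) (n2 := 4) (n3 := 3) (nD := 4) lx.ge gy3 gz3 lw.ge lA.ge (by decide)
  have lg : Ld w 2 p.g (X 0 * X 1) :=
    ((lx.mul lw).sub_ge (gy3.mul' gz3 (by norm_num))).congr h.eg rfl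
  have lB := (lA.sub lg).congr h.eB rfl
  have l0 : Ld w 3 p.T0 (X 0 * X 2) :=
    ((lx.mul lA).sub_ge (gy3.mul' gh (by norm_num))).congr h.e0 rfl
  have l3 : Ld w 3 p.T3 (X 1 * (X 2 - X 0 * X 1)) :=
    ((lw.mul lB).add_ge (gz3.mul' gk (by norm_num))).congr h.e3 rfl
  have ly := (PA24x.ld s1 gh gk l0 g1 g2 l3 gD).congr ey rfl
  have lz := (PA24x.ld t1 gh gk l0 g1 g2 l3 gD).congr ez rfl
  have lh := ((lx.mul lz).sub_ge (gy3.mul' gy3 (by norm_num))).congr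
    (show p.h = _ by rw [h.eh, sq]) rfl
  have lk := ((ly.mul lw).sub_ge (gz3.mul' gz3 (by norm_num))).congr
    (show p.k = _ by rw [h.ek, sq]) rfl
  have l2 := ((lz.mul lB).add_ge (gy3.mul' gk (by norm_num))).congr h.e2 rfl
  intro q hq
  simp only [P_a24, List.mem_cons, List.not_mem_nil, or_false] at hq
  rcases hq with rfl | rfl | rfl | rfl
  · refine ⟨_, h.mg, lg.init hw (init_of (t := 1) (e := 0) one_ne_zero (zero_mem _) ?_)⟩
    simp only [mon, Algebra.smul_def, map_one]; ring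
  · refine ⟨_, h.mh, lh.init hw (init_of (t := t.c0)
      (e := t.c3 • mon κ 1 1 1 - t.c3 • mon κ 2 2 0) t0 ?_ ?_)⟩
    · exact sub_mem (Submodule.smul_mem _ _ (mon_gt (by decide)))
        (Submodule.smul_mem _ _ (mon_gt (by decide)))
    · simp only [mon, Algebra.smul_def]; ring
  · refine ⟨_, h.mK, lk.init hw (init_of (t := s.c3) (e := -(s.c3 • mon κ 1 3 0)) s3 ?_ ?_)⟩
    · exact neg_mem (Submodule.smul_mem _ _ (mon_gt (by decide)))
    · simp only [mon, Algebra.smul_def, s0, map_zero]; ring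
  · refine ⟨_, h.m2, l2.init hw (init_of (t := t.c0)
      (e := t.c3 • mon κ 0 1 2 - t.c3 • mon κ 1 2 1 - t.c3 • mon κ 1 2 1 - t.c0 • mon κ 2 1 1 +
        t.c3 • mon κ 2 3 0) t0 ?_ ?_)⟩
    · refine add_mem (sub_mem (sub_mem (sub_mem ?_ ?_) ?_) ?_) ?_ <;>
        exact Submodule.smul_mem _ _ (mon_gt (by decide))
    · simp only [mon, Algebra.smul_def]; ring

end Pool.Agent.P.MP_6149fc_ag.V18

end

section

/-! Step PA25. -/

set_option autoImplicit false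
set_option linter.unusedSectionVars false

namespace Pool.Agent.P.MP_6149fc_ag.V18

open scoped ENNReal
open MvPowerSeries (coeff X constantCoeff monomial)

namespace PA25x

theorem tl_eq {κ : Type} [Field κ] (p : P14 κ) {t : Tl κ} (h : t.b1 = 0) :
    p.tl t = (t.c0 • p.T0 + t.c3 • p.T3) +
      (t.b0 • p.h + t.b2 • p.k + t.c1 • p.T1 + t.c2 • p.T2 + t.e • p.D) := by
  rw [P14.tl, h]; module

theorem rest {κ : Type} [Field κ] {w : Fin 3 → ℕ} {n : ℕ} {p : P14 κ} (t : Tl κ)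
    (h1 : Ge w n p.h) (h2 : Ge w n p.k) (h3 : Ge w n p.T1) (h4 : Ge w n p.T2) (h5 : Ge w n p.D) :
    Ge w n (t.b0 • p.h + t.b2 • p.k + t.c1 • p.T1 + t.c2 • p.T2 + t.e • p.D) :=
  ((((h1.smul _).add (h2.smul _)).add (h3.smul _)).add (h4.smul _)).add (h5.smul _)

end PA25x

theorem p_PA25 :
    S_PA25 := by
  intro κ _ U p s t hU h ⟨ey, ez, ex', ew, eA⟩ hs ht t0 s0
  let w : Fin 3 → ℕ := ![1, 1, 2]
  have hw : First A_a25 w := by decide
  have lx : Ld w 1 p.x (X 0) := (Ld.X 0).congr ex' rfl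
  have lw : Ld w 1 p.w (X 1) := (Ld.X 1).congr ew rfl
  have lA : Ld w 2 p.A (X 2) := (Ld.X 2).congr eA rfl
  have y1 : Ge w 1 p.y := Ge.of_const h.cy (by decide)
  have z1 : Ge w 1 p.z := Ge.of_const h.cz (by decide)
  obtain ⟨gh, gg, gk, -, g0, g1, g2, g3, gD⟩ := h.ge (nh := 2) (ng := 2) (nk := 2) (nB := 2)
    (n0 := 2) (n1 := 2) (n2 := 2) (n3 := 2) (nD := 2) lx.ge y1 z1 lw.ge lA.ge (by decide)
  have y2 : Ge w 2 p.y := (p.tl_ge s gh gg gk g0 g1 g2 g3 gD).congr ey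
  have z2 : Ge w 2 p.z := (p.tl_ge t gh gg gk g0 g1 g2 g3 gD).congr ez
  obtain ⟨gh, -, gk, -, g0, g1, g2, g3, gD⟩ := h.ge (nh := 3) (ng := 2) (nk := 3) (nB := 2)
    (n0 := 3) (n1 := 3) (n2 := 3) (n3 := 3) (nD := 3) lx.ge y2 z2 lw.ge lA.ge (by decide)
  have y3 : Ge w 3 p.y := (((g0.smul _).add (g3.smul _)).add (PA25x.rest s gh gk g1 g2 gD)).congr
    (ey.trans (PA25x.tl_eq p hs))
  have z3 : Ge w 3 p.z := (((g0.smul _).add (g3.smul _)).add (PA25x.rest t gh gk g1 g2 gD)).congr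
    (ez.trans (PA25x.tl_eq p ht))
  obtain ⟨gh, -, gk, -, -, g1, g2, -, gD⟩ := h.ge (nh := 4) (ng := 2) (nk := 4) (nB := 2)
    (n0 := 3) (n1 := 4) (n2 := 4) (n3 := 3) (nD := 4) lx.ge y3 z3 lw.ge lA.ge (by decide)
  have lg : Ld w 2 p.g (X 0 * X 1) :=
    ((lx.mul lw).sub_ge (y3.mul' z3 (by decide))).congr h.eg rfl
  have lB := (lA.sub lg).congr h.eB rfl
  have l0 : Ld w 3 p.T0 (X 0 * X 2) :=
    ((lx.mul lA).sub_ge (y3.mul' gh (by decide))).congr h.e0 rfl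
  have l3 : Ld w 3 p.T3 (X 1 * (X 2 - X 0 * X 1)) :=
    ((lw.mul lB).add_ge (z3.mul' gk (by decide))).congr h.e3 rfl
  have ly := (((l0.smul s.c0).add (l3.smul s.c3)).add_ge (PA25x.rest s gh gk g1 g2 gD)).congr
    (ey.trans (PA25x.tl_eq p hs)) rfl
  have lz := (((l0.smul t.c0).add (l3.smul t.c3)).add_ge (PA25x.rest t gh gk g1 g2 gD)).congr
    (ez.trans (PA25x.tl_eq p ht)) rfl
  have lh := ((lx.mul lz).sub_ge (y3.mul' y3 (by decide))).congr (h.eh.trans (by rw [sq])) rfl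
  have lk := ((ly.mul lw).sub_ge (z3.mul' z3 (by decide))).congr (h.ek.trans (by rw [sq])) rfl
  have lD := ((lA.mul lB).add_ge (gh.mul' gk (by decide))).congr h.eD rfl
  have l1 := ((ly.mul lA).sub_ge (z3.mul' gh (by decide))).congr h.e1 rfl
  have l2 := ((lz.mul lB).add_ge (y3.mul' gk (by decide))).congr h.e2 rfl
  intro q hq
  simp only [P_a25, List.mem_cons, List.not_mem_nil, or_false] at hq
  rcases hq with rfl | rfl | rfl | rfl | rfl
  · refine ⟨_, h.mh, lh.init hw (init_of (t := t.c0)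
      (e := t.c3 • (mon κ 1 1 1 - mon κ 2 2 0)) t0 ?_ ?_)⟩
    · exact Submodule.smul_mem _ _ (sub_mem (mon_gt (by decide)) (mon_gt (by decide)))
    · simp only [mon, Algebra.smul_def]; ring
  · refine ⟨_, add_mem h.mK (Submodule.smul_mem _ s.c0 h.mD), (lk.add (lD.smul s.c0)).init hw
      (init_of (t := s.c0) (e := s.c3 • (mon κ 0 2 1 - mon κ 1 3 0)) s0 ?_ ?_)⟩
    · exact Submodule.smul_mem _ _ (sub_mem (mon_gt (by decide)) (mon_gt (by decide)))
    · simp only [mon, Algebra.smul_def]; ring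
  · refine ⟨_, h.m1, l1.init hw (init_of (t := s.c0)
      (e := s.c3 • (mon κ 0 1 2 - mon κ 1 2 1)) s0 ?_ ?_)⟩
    · exact Submodule.smul_mem _ _ (sub_mem (mon_gt (by decide)) (mon_gt (by decide)))
    · simp only [mon, Algebra.smul_def]; ring
  · refine ⟨_, h.m2, l2.init hw (init_of (t := -t.c0) (e := t.c0 • mon κ 1 0 2 +
      t.c3 • (mon κ 0 1 2 - mon κ 1 2 1 - mon κ 1 2 1 + mon κ 2 3 0)) (neg_ne_zero.2 t0) ?_ ?_)⟩
    · exact add_mem (Submodule.smul_mem _ _ (mon_gt (by decide))) (Submodule.smul_mem _ _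
        (add_mem (sub_mem (sub_mem (mon_gt (by decide)) (mon_gt (by decide)))
          (mon_gt (by decide))) (mon_gt (by decide))))
    · simp only [mon, Algebra.smul_def, map_neg]; ring
  · refine ⟨_, h.m3, l3.init hw (init_of (t := -1) (e := mon κ 0 1 1) (by simp)
      (mon_gt (by decide)) ?_)⟩
    simp only [mon, Algebra.smul_def, map_neg, map_one]; ring

end Pool.Agent.P.MP_6149fc_ag.V18

end

section

/-! Step PA31. -/

set_option autoImplicit false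
set_option linter.unusedSectionVars false

namespace Pool.Agent.P.MP_6149fc_ag.V18

open scoped ENNReal
open MvPowerSeries (coeff X constantCoeff monomial)

theorem p_PA31 :
    S_PA31 := by
  intro κ _ U p s t hU h ⟨ez, ew, ex', ey, eA⟩ hc hd
  let w : Fin 3 → ℕ := ![1, 2, 3]
  have hw : First A_a31 w := by decide
  have lx : Ld w 1 p.x (X 0) := (Ld.X 0).congr ex' rfl
  have ly : Ld w 2 p.y (X 1) := (Ld.X 1).congr ey rfl
  have lA : Ld w 3 p.A (X 2) := (Ld.X 2).congr eA rfl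
  have step : ∀ r, r ≤ 3 → 1 ≤ r → Ge w r p.z → Ge w r p.w →
      Ge w (r + 1) p.z ∧ Ge w (r + 1) p.w := fun r h1 h2 gz gw => by
    obtain ⟨gh, gg, gk, -, g0, g1, g2, g3, gD⟩ := h.ge (nh := r + 1) (ng := r + 1) (nk := r + 1)
      (nB := 1) (n0 := r + 1) (n1 := r + 1) (n2 := r + 1) (n3 := r + 1) (nD := r + 1) lx.ge ly.ge
      gz gw lA.ge (by omega)
    exact ⟨(p.tl_ge s gh gg gk g0 g1 g2 g3 gD).congr ez,
      (p.tl_ge t gh gg gk g0 g1 g2 g3 gD).congr ew⟩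
  obtain ⟨z2, w2⟩ := step 1 (by norm_num) le_rfl (Ge.of_const h.cz (by decide))
    (Ge.of_const h.cw (by decide))
  obtain ⟨z3, w3⟩ := step 2 (by norm_num) (by norm_num) z2 w2
  obtain ⟨gz, gw⟩ := step 3 le_rfl (by norm_num) z3 w3
  obtain ⟨gh, gg, gk, -, g0, g1, g2, g3, gD⟩ := h.ge (nh := 4) (ng := 5) (nk := 6)
    (nB := 3) (n0 := 4) (n1 := 5) (n2 := 5) (n3 := 5) (nD := 5) lx.ge ly.ge gz gw lA.ge
    (by decide)
  have lh : Ld w 4 p.h (-X 1 ^ 2) :=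
    ((ly.pow 2).neg.add_ge (lx.ge.mul gz)).congr (by rw [h.eh]; ring) rfl
  have l0 : Ld w 4 p.T0 (X 0 * X 2) :=
    ((lx.mul lA).sub_ge (ly.ge.mul' gh (by norm_num))).congr h.e0 rfl
  have lt : ∀ u : Tl κ, Ld w 4 (p.tl u) (u.b0 • (-X 1 ^ 2) + u.c0 • (X 0 * X 2)) := fun u =>
    (((lh.smul u.b0).add (l0.smul u.c0)).add_ge ((((((gg.smul u.b1).add
      ((gk.mono (by norm_num)).smul u.b2)).add (g1.smul u.c1)).add (g2.smul u.c2)).add
      (g3.smul u.c3)).add (gD.smul u.e))).congr (by unfold P14.tl; abel) rfl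
  have lz := (lt s).congr ez rfl
  have lw := (lt t).congr ew rfl
  have lg := ((lx.mul lw).sub_ge (ly.ge.mul' gz (by norm_num))).congr h.eg rfl
  have lB : Ld w 3 p.B (X 2) := (lA.sub_ge (gg.mono (by norm_num))).congr h.eB rfl
  have l2 := ((lz.mul lB).add_ge (ly.ge.mul' gk (by norm_num))).congr h.e2 rfl
  have l3 := ((lw.mul lB).add_ge (gz.mul' gk (by norm_num))).congr h.e3 rfl
  have lD := ((lA.mul lB).add_ge (gh.mul' gk (by norm_num))).congr h.eD rfl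
  intro q hq
  simp only [P_a31, List.mem_cons, List.not_mem_nil, or_false] at hq
  rcases hq with rfl | rfl | rfl | rfl
  · refine ⟨_, h.mh, lh.init hw (init_of (t := -1) (e := 0) (by simp) (zero_mem _) ?_)⟩
    simp only [mon, Algebra.smul_def, map_neg, map_one]; ring
  · refine ⟨_, h.mD, lD.init hw (init_of (t := 1) (e := 0) one_ne_zero (zero_mem _) ?_)⟩
    simp only [mon, Algebra.smul_def, map_one]; ring
  · refine ⟨_, h.mg, lg.init hw (init_of (t := t.c0) (e := -(t.b0 • mon κ 1 2 0)) hc ?_ ?_)⟩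
    · exact neg_mem (Submodule.smul_mem _ _ (mon_gt (by decide)))
    · simp only [mon, Algebra.smul_def]; ring
  · refine ⟨_, sub_mem (Submodule.smul_mem _ t.c0 h.m2) (Submodule.smul_mem _ s.c0 h.m3),
      ((l2.smul t.c0).sub (l3.smul s.c0)).init hw
      (init_of (t := -(t.c0 * s.b0 - s.c0 * t.b0)) (e := 0) (neg_ne_zero.2 hd) (zero_mem _) ?_)⟩
    simp only [mon, Algebra.smul_def, map_neg, map_sub, map_mul]; ring

end Pool.Agent.P.MP_6149fc_ag.V18

end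

section

/-! Step PA32. -/

set_option autoImplicit false
set_option linter.unusedSectionVars false

namespace Pool.Agent.P.MP_6149fc_ag.V18

open scoped ENNReal
open MvPowerSeries (coeff X constantCoeff monomial)

theorem p_PA32 :
    S_PA32 := by
  intro κ _ U p s t hU h ⟨ez, ew, ex', ey, eA⟩ hc hs ht
  let w : Fin 3 → ℕ := ![1, 2, 3]
  have hw : First A_a32 w := by decide
  have lx : Ld w 1 p.x (X 0) := (Ld.X 0).congr ex' rfl
  have ly : Ld w 2 p.y (X 1) := (Ld.X 1).congr ey rfl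
  have lA : Ld w 3 p.A (X 2) := (Ld.X 2).congr eA rfl
  have step : ∀ n, n ≤ 3 → 1 ≤ n → Ge w n p.z → Ge w n p.w →
      Ge w (n + 1) p.z ∧ Ge w (n + 1) p.w := by
    intro n h1 h2 gz gw
    obtain ⟨gh, gg, gk, -, g0, g1, g2, g3, gD⟩ := h.ge (nh := n + 1) (ng := n + 1) (nk := n + 1)
      (nB := min 3 (n + 1)) (n0 := n + 1) (n1 := n + 1) (n2 := n + 1) (n3 := n + 1) (nD := n + 1)
      lx.ge ly.ge gz gw lA.ge (by omega)
    exact ⟨(p.tl_ge s gh gg gk g0 g1 g2 g3 gD).congr ez,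
      (p.tl_ge t gh gg gk g0 g1 g2 g3 gD).congr ew⟩
  obtain ⟨z2, w2⟩ := step 1 (by omega) (by omega) (Ge.of_const h.cz (by decide))
    (Ge.of_const h.cw (by decide))
  obtain ⟨z3, w3⟩ := step 2 (by omega) (by omega) z2 w2
  obtain ⟨gz, gw⟩ := step 3 (by omega) (by omega) z3 w3
  obtain ⟨gh, gg, gk, gB, g0, g1, g2, g3, gD⟩ := h.ge (nh := 4) (ng := 5) (nk := 6)
    (nB := 3) (n0 := 4) (n1 := 5) (n2 := 7) (n3 := 7) (nD := 6) lx.ge ly.ge gz gw lA.ge
    (by decide)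
  have lh : Ld w 4 p.h (-X 1 ^ 2) :=
    ((ly.pow 2).neg.add_ge (lx.ge.mul gz)).congr (by rw [h.eh]; ring) rfl
  have l0 : Ld w 4 p.T0 (X 0 * X 2) :=
    ((lx.mul lA).sub_ge (ly.ge.mul' gh (by decide))).congr h.e0 rfl
  have ltl : ∀ u : Tl κ, Ld w 4 (p.tl u) (u.b0 • (-X 1 ^ 2) + u.c0 • (X 0 * X 2)) := fun u =>
    (((lh.smul u.b0).add (l0.smul u.c0)).add_ge
      ((((((gg.smul u.b1).add ((gk.mono (by decide)).smul u.b2)).add (g1.smul u.c1)).add
        ((g2.mono (by decide)).smul u.c2)).add ((g3.mono (by decide)).smul u.c3)).add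
        ((gD.mono (by decide)).smul u.e))).congr (by unfold P14.tl; abel) rfl
  have lz : Ld w 4 p.z (s.b0 • (-X 1 ^ 2) + s.c0 • (X 0 * X 2)) := (ltl s).congr ez rfl
  have lw : Ld w 4 p.w (t.b0 • (-X 1 ^ 2)) := (ltl t).congr ew (by rw [hc, zero_smul, add_zero])
  have lg : Ld w 5 p.g (X 0 * t.b0 • (-X 1 ^ 2)) :=
    ((lx.mul lw).sub_ge (ly.ge.mul gz)).congr h.eg rfl
  have lB : Ld w 3 p.B (X 2) := (lA.sub_ge (gg.mono (by decide))).congr h.eB rfl
  have l2 := ((lz.mul lB).add_ge (ly.ge.mul' gk (by decide))).congr h.e2 rfl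
  have l3 := ((lw.mul lB).add_ge (gz.mul' gk (by decide))).congr h.e3 rfl
  have lD := ((lA.mul lB).add_ge (gh.mul' gk (by decide))).congr h.eD rfl
  intro q hq
  simp only [P_a32, List.mem_cons, List.not_mem_nil, or_false] at hq
  rcases hq with rfl | rfl | rfl | rfl | rfl
  · refine ⟨_, h.mh, lh.init hw (init_of (t := -1) (e := 0) (by simp) (zero_mem _) ?_)⟩
    simp only [mon, Algebra.smul_def, map_neg, map_one]; ring
  · refine ⟨_, h.mD, lD.init hw (init_of (t := 1) (e := 0) one_ne_zero (zero_mem _) ?_)⟩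
    simp only [mon, Algebra.smul_def, map_one]; ring
  · refine ⟨_, h.mg, lg.init hw (init_of (t := -t.b0) (e := 0) (neg_ne_zero.2 ht) (zero_mem _) ?_)⟩
    simp only [mon, Algebra.smul_def, map_neg]; ring
  · refine ⟨_, h.m3, l3.init hw (init_of (t := -t.b0) (e := 0) (neg_ne_zero.2 ht) (zero_mem _) ?_)⟩
    simp only [mon, Algebra.smul_def, map_neg]; ring
  · refine ⟨_, sub_mem (Submodule.smul_mem _ t.b0 h.m2) (Submodule.smul_mem _ s.b0 h.m3),
      ((l2.smul t.b0).sub (l3.smul s.b0)).init hw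
      (init_of (t := s.c0 * t.b0) (e := 0) (mul_ne_zero hs ht) (zero_mem _) ?_)⟩
    simp only [mon, Algebra.smul_def, map_mul]; ring

end Pool.Agent.P.MP_6149fc_ag.V18

end

section

/-! Step PA33. -/

set_option autoImplicit false
set_option linter.unusedSectionVars false

namespace Pool.Agent.P.MP_6149fc_ag.V18

open scoped ENNReal
open MvPowerSeries (coeff X constantCoeff monomial)

theorem p_PA33 :
    S_PA33 := by
  intro κ _ U p s t hU h ⟨ez, ew, ex', ey, eA⟩ hc hs0 ht0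
  let w : Fin 3 → ℕ := ![1, 2, 3]
  have hw : First A_a33 w := by decide
  have lx : Ld w 1 p.x (X 0) := (Ld.X 0).congr ex' rfl
  have ly : Ld w 2 p.y (X 1) := (Ld.X 1).congr ey rfl
  have lA : Ld w 3 p.A (X 2) := (Ld.X 2).congr eA rfl
  have gz1 : Ge w 1 p.z := Ge.of_const h.cz (by decide)
  have gw1 : Ge w 1 p.w := Ge.of_const h.cw (by decide)
  obtain ⟨gh, gg, gk, -, g0, g1, g2, g3, gD⟩ := h.ge (nh := 2) (ng := 2) (nk := 2) (nB := 2)
    (n0 := 2) (n1 := 2) (n2 := 2) (n3 := 2) (nD := 2) lx.ge ly.ge gz1 gw1 lA.ge (by decide)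
  have gz2 : Ge w 2 p.z := (p.tl_ge s gh gg gk g0 g1 g2 g3 gD).congr ez
  have gw2 : Ge w 2 p.w := (p.tl_ge t gh gg gk g0 g1 g2 g3 gD).congr ew
  clear gh gg gk g0 g1 g2 g3 gD
  obtain ⟨gh, gg, gk, -, g0, g1, g2, g3, gD⟩ := h.ge (nh := 3) (ng := 3) (nk := 3) (nB := 3)
    (n0 := 3) (n1 := 3) (n2 := 3) (n3 := 3) (nD := 3) lx.ge ly.ge gz2 gw2 lA.ge (by decide)
  have gz3 : Ge w 3 p.z := (p.tl_ge s gh gg gk g0 g1 g2 g3 gD).congr ez
  have gw3 : Ge w 3 p.w := (p.tl_ge t gh gg gk g0 g1 g2 g3 gD).congr ew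
  clear gh gg gk g0 g1 g2 g3 gD
  obtain ⟨gh, gg, gk, -, g0, g1, g2, g3, gD⟩ := h.ge (nh := 4) (ng := 4) (nk := 4) (nB := 3)
    (n0 := 4) (n1 := 4) (n2 := 4) (n3 := 4) (nD := 4) lx.ge ly.ge gz3 gw3 lA.ge (by decide)
  have gz4 : Ge w 4 p.z := (p.tl_ge s gh gg gk g0 g1 g2 g3 gD).congr ez
  have gw4 : Ge w 4 p.w := (p.tl_ge t gh gg gk g0 g1 g2 g3 gD).congr ew
  clear gh gg gk g0 g1 g2 g3 gD
  obtain ⟨gh, gg, gk, -, -, g1, g2, g3, gD⟩ := h.ge (nh := 4) (ng := 5) (nk := 6) (nB := 3)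
    (n0 := 4) (n1 := 5) (n2 := 7) (n3 := 7) (nD := 6) lx.ge ly.ge gz4 gw4 lA.ge (by decide)
  have lh : Ld w 4 p.h (-X 1 ^ 2) :=
    ((ly.pow 2).neg.add_ge (lx.ge.mul gz4)).congr (by rw [h.eh]; ring) rfl
  have l0 : Ld w 4 p.T0 (X 0 * X 2) :=
    ((lx.mul lA).sub_ge (ly.ge.mul' gh (by decide))).congr h.e0 rfl
  have l1 : Ld w 5 p.T1 (X 1 * X 2) :=
    ((ly.mul lA).sub_ge (gz4.mul' gh (by decide))).congr h.e1 rfl
  have lw : Ld w 4 p.w (t.c0 • (X 0 * X 2)) :=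
    ((l0.smul t.c0).add_ge ((((((gg.smul t.b1).add ((gk.mono (by decide)).smul t.b2)).add
      (g1.smul t.c1)).add ((g2.mono (by decide)).smul t.c2)).add
      ((g3.mono (by decide)).smul t.c3)).add ((gD.mono (by decide)).smul t.e))).congr
      (by rw [ew, P14.tl, ht0]; module) rfl
  have lg : Ld w 5 p.g (X 0 * t.c0 • (X 0 * X 2)) :=
    ((lx.mul lw).sub_ge (ly.ge.mul gz4)).congr h.eg rfl
  have lk : Ld w 6 p.k (X 1 * t.c0 • (X 0 * X 2)) :=
    ((ly.mul lw).sub_ge (gz4.mul' gz4 (by decide))).congr (by rw [h.ek, sq]) rfl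
  have lB : Ld w 3 p.B (X 2) := (lA.sub_ge (gg.mono (by decide))).congr h.eB rfl
  have lD : Ld w 6 p.D (X 2 * X 2) :=
    ((lA.mul lB).add_ge (gh.mul' gk (by decide))).congr h.eD rfl
  have lu : Ld w 5 (t.c0 • p.z - s.c0 • p.w)
      ((t.c0 * s.b1 - s.c0 * t.b1) • (X 0 * t.c0 • (X 0 * X 2)) +
        (t.c0 * s.c1 - s.c0 * t.c1) • (X 1 * X 2)) :=
    (((lg.smul _).add (l1.smul _)).add_ge ((((gk.smul (t.c0 * s.b2 - s.c0 * t.b2)).add
      ((g2.mono (by decide)).smul (t.c0 * s.c2 - s.c0 * t.c2))).add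
      ((g3.mono (by decide)).smul (t.c0 * s.c3 - s.c0 * t.c3))).add
      (gD.smul (t.c0 * s.e - s.c0 * t.e)))).congr
      (by rw [ez, ew, P14.tl, P14.tl, hs0, ht0]; module) rfl
  have lT : Ld w 8 (t.c0 • p.T2 - s.c0 • p.T3) _ :=
    (((lu.mul lB).add ((ly.mul lk).smul t.c0)).sub_ge
      ((gz4.mul' gk (by decide)).smul s.c0)).congr
      (by rw [h.e2, h.e3]; simp only [Algebra.smul_def]; ring) rfl
  intro q hq
  simp only [P_a33, List.mem_cons, List.not_mem_nil, or_false] at hq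
  rcases hq with rfl | rfl | rfl | rfl
  · refine ⟨_, h.mh, lh.init hw (init_of (t := -1) (e := 0) (by simp) (zero_mem _) ?_)⟩
    simp only [mon, Algebra.smul_def, map_neg, map_one]; ring
  · refine ⟨_, h.mD, lD.init hw (init_of (t := 1) (e := 0) one_ne_zero (zero_mem _) ?_)⟩
    simp only [mon, Algebra.smul_def, map_one]; ring
  · refine ⟨_, h.mg, lg.init hw (init_of (t := t.c0) (e := 0) hc (zero_mem _) ?_)⟩
    simp only [mon, Algebra.smul_def]; ring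
  · refine ⟨_, sub_mem (Submodule.smul_mem _ t.c0 h.m2) (Submodule.smul_mem _ s.c0 h.m3),
      lT.init hw (init_of (t := t.c0 * t.c0)
        (e := ((t.c0 * s.b1 - s.c0 * t.b1) * t.c0) • mon κ 2 0 2 +
          (t.c0 * s.c1 - s.c0 * t.c1) • mon κ 0 1 2) (mul_ne_zero hc hc) ?_ ?_)⟩
    · exact add_mem (Submodule.smul_mem _ _ (mon_gt (by decide)))
        (Submodule.smul_mem _ _ (mon_gt (by decide)))
    · simp only [mon, Algebra.smul_def, map_mul]; ring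

end Pool.Agent.P.MP_6149fc_ag.V18

end

section

/-! Step PA34. -/

set_option autoImplicit false
set_option linter.unusedSectionVars false

namespace Pool.Agent.P.MP_6149fc_ag.V18

open scoped ENNReal
open MvPowerSeries (coeff X constantCoeff monomial)

theorem p_PA34 :
    S_PA34 := by
  intro κ _ U p s t hU h ⟨ez, ew, ex', ey, eA⟩ hc hb hd
  let w : Fin 3 → ℕ := ![1, 2, 3]
  have hW : First (WC 1 1) w := by decide
  have hY : First (WC 1 (-1)) w := by decide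
  have lx : Ld w 1 p.x (X 0) := (Ld.X 0).congr ex' rfl
  have ly : Ld w 2 p.y (X 1) := (Ld.X 1).congr ey rfl
  have lA : Ld w 3 p.A (X 2) := (Ld.X 2).congr eA rfl
  have gz1 : Ge w 1 p.z := Ge.of_const h.cz (by decide)
  have gw1 : Ge w 1 p.w := Ge.of_const h.cw (by decide)
  -- first round
  obtain ⟨gh, gg, gk, -, g0, g1, g2, g3, gD⟩ := h.ge (nh := 2) (ng := 2) (nk := 2) (nB := 2)
    (n0 := 2) (n1 := 2) (n2 := 2) (n3 := 2) (nD := 2) lx.ge ly.ge gz1 gw1 lA.ge (by decide)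
  have gz2 : Ge w 2 p.z := (p.tl_ge s gh gg gk g0 g1 g2 g3 gD).congr ez
  have gw2 : Ge w 2 p.w := (p.tl_ge t gh gg gk g0 g1 g2 g3 gD).congr ew
  clear gh gg gk g0 g1 g2 g3 gD
  -- second round
  obtain ⟨gh, gg, gk, -, g0, g1, g2, g3, gD⟩ := h.ge (nh := 3) (ng := 3) (nk := 3) (nB := 3)
    (n0 := 3) (n1 := 3) (n2 := 3) (n3 := 3) (nD := 3) lx.ge ly.ge gz2 gw2 lA.ge (by decide)
  have gz3 : Ge w 3 p.z := (p.tl_ge s gh gg gk g0 g1 g2 g3 gD).congr ez
  have gw3 : Ge w 3 p.w := (p.tl_ge t gh gg gk g0 g1 g2 g3 gD).congr ew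
  clear gh gg gk g0 g1 g2 g3 gD
  -- third round
  obtain ⟨gh, gg, gk, -, g0, g1, g2, g3, gD⟩ := h.ge (nh := 4) (ng := 4) (nk := 4) (nB := 3)
    (n0 := 4) (n1 := 4) (n2 := 4) (n3 := 4) (nD := 4) lx.ge ly.ge gz3 gw3 lA.ge (by decide)
  have gz4 : Ge w 4 p.z := (p.tl_ge s gh gg gk g0 g1 g2 g3 gD).congr ez
  have gw4 : Ge w 4 p.w := (p.tl_ge t gh gg gk g0 g1 g2 g3 gD).congr ew
  clear gh gg gk g0 g1 g2 g3 gD
  -- final weights
  obtain ⟨gh, gg, gk, gB, g0, g1, g2, g3, gD⟩ := h.ge (nh := 4) (ng := 5) (nk := 6) (nB := 3)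
    (n0 := 4) (n1 := 5) (n2 := 7) (n3 := 7) (nD := 6) lx.ge ly.ge gz4 gw4 lA.ge (by decide)
  have lh : Ld w 4 p.h (-(X 1 ^ 2)) :=
    ((ly.pow 2).neg.add_ge (lx.ge.mul gz4)).congr (by rw [h.eh]; ring) rfl
  have l0 : Ld w 4 p.T0 (X 0 * X 2) :=
    ((lx.mul lA).sub_ge (ly.ge.mul' gh (by decide))).congr h.e0 rfl
  have l1 : Ld w 5 p.T1 (X 1 * X 2) :=
    ((ly.mul lA).sub_ge (gz4.mul' gh (by decide))).congr h.e1 rfl
  have lw : Ld w 4 p.w (t.b0 • (-(X 1 ^ 2)) + t.c0 • (X 0 * X 2)) :=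
    (((lh.smul t.b0).add (l0.smul t.c0)).add_ge
      ((((((gg.smul t.b1).add ((gk.mono (by decide)).smul t.b2)).add (g1.smul t.c1)).add
        ((g2.mono (by decide)).smul t.c2)).add ((g3.mono (by decide)).smul t.c3)).add
        ((gD.mono (by decide)).smul t.e))).congr (by rw [ew, P14.tl]; abel) rfl
  have lg : Ld w 5 p.g (X 0 * (t.b0 • (-(X 1 ^ 2)) + t.c0 • (X 0 * X 2))) :=
    ((lx.mul lw).sub_ge (ly.ge.mul gz4)).congr h.eg rfl
  have lk : Ld w 6 p.k (X 1 * (t.b0 • (-(X 1 ^ 2)) + t.c0 • (X 0 * X 2))) :=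
    ((ly.mul lw).sub_ge ((gz4.pow 2).mono (by decide))).congr h.ek rfl
  have lB : Ld w 3 p.B (X 2) := (lA.sub_ge (gg.mono (by decide))).congr h.eB rfl
  have lD : Ld w 6 p.D (X 2 * X 2) :=
    ((lA.mul lB).add_ge (gh.mul' gk (by decide))).congr h.eD rfl
  -- the combination without terms of weight four
  have eu : t.c0 • p.z - s.c0 • p.w =
      ((t.c0 * s.b1 - s.c0 * t.b1) • p.g + (t.c0 * s.c1 - s.c0 * t.c1) • p.T1) +
        ((t.c0 * s.b2 - s.c0 * t.b2) • p.k + (t.c0 * s.c2 - s.c0 * t.c2) • p.T2 +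
          (t.c0 * s.c3 - s.c0 * t.c3) • p.T3 + (t.c0 * s.e - s.c0 * t.e) • p.D) := by
    rw [ez, ew, P14.tl, P14.tl]
    linear_combination (norm := module) hd • p.h
  have lu := (((lg.smul (t.c0 * s.b1 - s.c0 * t.b1)).add
    (l1.smul (t.c0 * s.c1 - s.c0 * t.c1))).add_ge
      ((((gk.smul (t.c0 * s.b2 - s.c0 * t.b2)).add
        ((g2.mono (by decide)).smul (t.c0 * s.c2 - s.c0 * t.c2))).add
        ((g3.mono (by decide)).smul (t.c0 * s.c3 - s.c0 * t.c3))).add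
        (gD.smul (t.c0 * s.e - s.c0 * t.e)))).congr eu rfl
  have eE : t.c0 • p.T2 - s.c0 • p.T3 =
      ((t.c0 • p.z - s.c0 • p.w) * p.B + t.c0 • (p.y * p.k)) - s.c0 • (p.z * p.k) := by
    rw [h.e2, h.e3]
    simp only [Algebra.smul_def]
    ring
  have lE := (((lu.mul lB).add ((ly.mul lk).smul t.c0)).sub_ge
    ((gz4.mul' gk (by decide)).smul s.c0)).congr eE rfl
  refine ⟨fun q hq => ?_, fun q hq => ?_⟩
  · simp only [P_a3W, List.mem_cons, List.not_mem_nil, or_false] at hq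
    rcases hq with rfl | rfl | rfl | rfl
    · refine ⟨_, h.m0, l0.init hW (init_of (t := 1) (e := 0) one_ne_zero (zero_mem _) ?_)⟩
      simp only [mon, Algebra.smul_def, map_one]; ring
    · refine ⟨_, h.mD, lD.init hW (init_of (t := 1) (e := 0) one_ne_zero (zero_mem _) ?_)⟩
      simp only [mon, Algebra.smul_def, map_one]; ring
    · refine ⟨_, h.mg, lg.init hW (init_of (t := -t.b0) (e := t.c0 • mon κ 2 0 1)
        (neg_ne_zero.2 hb) (Submodule.smul_mem _ _ (mon_gt (by decide))) ?_)⟩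
      simp only [mon, Algebra.smul_def, map_neg]; ring
    · refine ⟨_, sub_mem (Submodule.smul_mem _ t.c0 h.m2) (Submodule.smul_mem _ s.c0 h.m3),
        lE.init hW (init_of (t := -(t.c0 * t.b0))
        (e := (t.c0 * t.c0 - (t.c0 * s.b1 - s.c0 * t.b1) * t.b0) • mon κ 1 2 1 +
          ((t.c0 * s.b1 - s.c0 * t.b1) * t.c0) • mon κ 2 0 2 +
          (t.c0 * s.c1 - s.c0 * t.c1) • mon κ 0 1 2)
        (neg_ne_zero.2 (mul_ne_zero hc hb)) ?_ ?_)⟩
      · exact add_mem (add_mem (Submodule.smul_mem _ _ (mon_gt (by decide)))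
          (Submodule.smul_mem _ _ (mon_gt (by decide))))
          (Submodule.smul_mem _ _ (mon_gt (by decide)))
      · simp only [mon, Algebra.smul_def, map_neg, map_sub, map_mul]; ring
  · simp only [P_a3Y, List.mem_cons, List.not_mem_nil, or_false] at hq
    rcases hq with rfl | rfl
    · refine ⟨_, h.mD, lD.init hY (init_of (t := 1) (e := 0) one_ne_zero (zero_mem _) ?_)⟩
      simp only [mon, Algebra.smul_def, map_one]; ring
    · refine ⟨_, h.mg, lg.init hY (init_of (t := t.c0) (e := (-t.b0) • mon κ 1 2 0)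
        hc (Submodule.smul_mem _ _ (mon_gt (by decide))) ?_)⟩
      simp only [mon, Algebra.smul_def, map_neg]; ring

end Pool.Agent.P.MP_6149fc_ag.V18

end

section

/-! Step PB1. -/

set_option autoImplicit false
set_option linter.unusedSectionVars false

namespace Pool.Agent.P.MP_6149fc_ag.V18

open scoped ENNReal
open MvPowerSeries (coeff X constantCoeff monomial)

namespace PB1x

theorem two {κ : Type} [Field κ] {A : Rows} {a b c a' b' c' : ℕ} {r r' : κ} {g : PS κ}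
    (hl : ltA A a b c a' b' c') (hr : r ≠ 0 ∨ (r = 0 → r' ≠ 0))
    (h : g = r • mon κ a b c + r' • mon κ a' b' c') :
    Init A g (ex a b c) ∨ Init A g (ex a' b' c') := by
  by_cases h0 : r = 0
  · refine Or.inr (init_of (e := 0) ((hr.resolve_left (not_not.2 h0)) h0) (zero_mem _) ?_)
    rw [h, h0, zero_smul, zero_add, add_zero]
  · exact Or.inl (init_of h0 (Submodule.smul_mem _ _ (mon_gt hl)) h)

end PB1x

theorem p_PB1 :
    S_PB1 := by
  intro κ _ U p s t hU h ⟨ey, eA, e0, e1, e2⟩ c0 c1 c2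
  let w : Fin 3 → ℕ := ![1, 1, 1]
  have hw : First A_b1 w := by decide
  have ly : Ld w 1 p.y (X 2) := (Ld.X 2).congr e2 rfl
  have lx : Ld w 1 p.x (X 0 + X 2) :=
    ((Ld.X 0).add (Ld.X 2)).congr (by rw [← e0, ← e2]; ring) rfl
  have lw : Ld w 1 p.w (X 1 + X 2) :=
    ((Ld.X 1).add (Ld.X 2)).congr (by rw [← e1, ← e2]; ring) rfl
  have gz : Ge w 1 p.z := Ge.of_const h.cz (by decide)
  have gA : Ge w 1 p.A := Ge.of_const h.cA (by decide)
  obtain ⟨gh, gg, gk, -, g0, g1, g2, g3, gD⟩ := h.ge (nh := 2) (ng := 2) (nk := 2) (nB := 1)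
    (n0 := 2) (n1 := 2) (n2 := 2) (n3 := 2) (nD := 2) lx.ge ly.ge gz lw.ge gA (by decide)
  have lz : Ld w 1 p.z (X 2) :=
    (ly.sub_ge (p.tl_ge s gh gg gk g0 g1 g2 g3 gD)).congr (eq_sub_of_add_eq ey.symm) rfl
  have gA2 : Ge w 2 p.A := (p.tl_ge t gh gg gk g0 g1 g2 g3 gD).congr eA
  obtain ⟨-, -, -, -, f0, f1, f2, f3, fD⟩ := h.ge (nh := 2) (ng := 2) (nk := 2) (nB := 2)
    (n0 := 3) (n1 := 3) (n2 := 3) (n3 := 3) (nD := 3) lx.ge ly.ge gz lw.ge gA2 (by decide)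
  have lh : Ld w 2 p.h (X 0 * X 2) := ((lx.mul lz).sub (ly.pow 2)).congr h.eh (by ring)
  have lg : Ld w 2 p.g (X 0 * X 1 + X 0 * X 2 + X 1 * X 2) :=
    ((lx.mul lw).sub (ly.mul lz)).congr h.eg (by ring)
  have lk : Ld w 2 p.k (X 1 * X 2) := ((ly.mul lw).sub (lz.pow 2)).congr h.ek (by ring)
  have lA := ((((((((lh.smul t.b0).add (lg.smul t.b1)).add (lk.smul t.b2)).add_ge
    (f0.smul t.c0)).add_ge (f1.smul t.c1)).add_ge (f2.smul t.c2)).add_ge (f3.smul t.c3)).add_ge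
    (fD.smul t.e)).congr eA rfl
  have lB := (lA.sub lg).congr h.eB rfl
  have l0 := ((lx.mul lA).sub (ly.mul lh)).congr h.e0 rfl
  have l1 := ((ly.mul lA).sub (lz.mul lh)).congr h.e1 rfl
  have l2 := ((lz.mul lB).add (ly.mul lk)).congr h.e2 rfl
  have l3 := ((lw.mul lB).add (lz.mul lk)).congr h.e3 rfl
  have lu : Ld w 3 (p.T1 - p.T2) (X 0 * X 1 * X 2) := (l1.sub l2).congr rfl (by ring)
  have mu := sub_mem h.m1 h.m2
  refine ⟨fun q hq => ?_, ?_, ?_, ?_⟩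
  · simp only [List.mem_cons, List.not_mem_nil, or_false] at hq
    rcases hq with rfl | rfl | rfl | rfl
    · refine ⟨_, h.mh, lh.init hw ((init_mon 1 0 1).congr ?_)⟩
      simp only [mon]; ring
    · refine ⟨_, h.mK, lk.init hw ((init_mon 0 1 1).congr ?_)⟩
      simp only [mon]; ring
    · refine ⟨_, sub_mem (sub_mem h.mg h.mh) h.mK,
        ((lg.sub lh).sub lk).init hw ((init_mon 1 1 0).congr ?_)⟩
      simp only [mon]; ring
    · refine ⟨_, mu, lu.init hw ((init_mon 1 1 1).congr ?_)⟩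
      simp only [mon]; ring
  · have l := (l0.sub l1).sub (lu.smul (t.b1 + t.b2))
    have m := sub_mem (sub_mem h.m0 h.m1) (Submodule.smul_mem _ (t.b1 + t.b2) mu)
    refine (PB1x.two (A := A_b1) (a := 2) (b := 1) (c := 0) (a' := 2) (b' := 0) (c' := 1)
      (r := t.b1) (r' := t.b0 + t.b1) (by decide) (c0.imp id fun a b => ?_) ?_).imp
      (fun i => ⟨_, m, l.init hw i⟩) fun i => ⟨_, m, l.init hw i⟩
    · rwa [b, add_zero]
    · simp only [mon, Algebra.smul_def, map_add]; ring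
  · have l := (l3.sub l2).sub (lu.smul (t.b1 - 1 + t.b0))
    have m := sub_mem (sub_mem h.m3 h.m2) (Submodule.smul_mem _ (t.b1 - 1 + t.b0) mu)
    refine (PB1x.two (A := A_b1) (a := 1) (b := 2) (c := 0) (a' := 0) (b' := 2) (c' := 1)
      (r := t.b1 - 1) (r' := t.b1 - 1 + t.b2) (by decide) (c1.imp id fun a b => ?_) ?_).imp
      (fun i => ⟨_, m, l.init hw i⟩) fun i => ⟨_, m, l.init hw i⟩
    · rwa [b, zero_add]
    · simp only [mon, Algebra.smul_def, map_add, map_sub, map_one]; ring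
  · have l := l1.sub (lu.smul t.b1)
    have m := sub_mem h.m1 (Submodule.smul_mem _ t.b1 mu)
    refine (PB1x.two (A := A_b1) (a := 1) (b := 0) (c := 2) (a' := 0) (b' := 1) (c' := 2)
      (r := t.b1 + t.b0 - 1) (r' := t.b1 + t.b2) (by decide) (c2.imp id fun a _ => a) ?_).imp
      (fun i => ⟨_, m, l.init hw i⟩) fun i => ⟨_, m, l.init hw i⟩
    simp only [mon, Algebra.smul_def, map_add, map_sub, map_one]; ring

end Pool.Agent.P.MP_6149fc_ag.V18

end
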