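import Pool.Agent.P.MP_6149fc_ag.V18.IfaceC

section

/-! Step PB21. -/

set_option autoImplicit false
set_option linter.unusedSectionVars false

namespace Pool.Agent.P.MP_6149fc_ag.V18

open scoped ENNReal
open MvPowerSeries (coeff X constantCoeff monomial)

theorem p_PB21 :
    S_PB21 := by
  intro κ _ U p s t hU h ⟨ez, eA, ex', ey, ew⟩ hb0 hb1
  let w : Fin 3 → ℕ := ![1, 1, 1]
  have hw : First A_b21 w := by decide
  have lx : Ld w 1 p.x (X 0) := (Ld.X 0).congr ex' rfl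
  have ly : Ld w 1 p.y (X 1) := (Ld.X 1).congr ey rfl
  have lw : Ld w 1 p.w (X 2) := (Ld.X 2).congr ew rfl
  have gz : Ge w 1 p.z := Ge.of_const h.cz (by decide)
  have gA : Ge w 1 p.A := Ge.of_const h.cA (by decide)
  obtain ⟨gh, gg, gk, -, g0, g1, g2, g3, gD⟩ := h.ge (nh := 2) (ng := 2) (nk := 2) (nB := 1)
    (n0 := 2) (n1 := 2) (n2 := 2) (n3 := 2) (nD := 2) lx.ge ly.ge gz lw.ge gA (by decide)
  have gz2 : Ge w 2 p.z := (p.tl_ge s gh gg gk g0 g1 g2 g3 gD).congr ez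
  have gA2 : Ge w 2 p.A := (p.tl_ge t gh gg gk g0 g1 g2 g3 gD).congr eA
  obtain ⟨-, -, -, gB, f0, f1, f2, f3, fD⟩ := h.ge (nh := 2) (ng := 2) (nk := 2) (nB := 2)
    (n0 := 3) (n1 := 3) (n2 := 3) (n3 := 3) (nD := 3) lx.ge ly.ge gz2 lw.ge gA2 (by decide)
  have lh : Ld w 2 p.h (-X 1 ^ 2) :=
    ((ly.pow 2).neg.add_ge (lx.ge.mul gz2)).congr (by rw [h.eh]; ring) rfl
  have lg : Ld w 2 p.g (X 0 * X 2) :=
    ((lx.mul lw).sub_ge (ly.ge.mul gz2)).congr h.eg rfl
  have lk : Ld w 2 p.k (X 1 * X 2) :=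
    ((ly.mul lw).sub_ge (gz2.mul' gz2 (by decide))).congr (by rw [h.ek, sq]) rfl
  have lA : Ld w 2 p.A (t.b0 • (-X 1 ^ 2) + t.b1 • (X 0 * X 2) + t.b2 • (X 1 * X 2)) :=
    ((((((((lh.smul t.b0).add (lg.smul t.b1)).add (lk.smul t.b2)).add_ge (f0.smul t.c0)).add_ge
      (f1.smul t.c1)).add_ge (f2.smul t.c2)).add_ge (f3.smul t.c3)).add_ge (fD.smul t.e)).congr
      eA rfl
  have lB := (lA.sub lg).congr h.eB rfl
  have l0 := ((lx.mul lA).sub (ly.mul lh)).congr h.e0 rfl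
  have l2 : Ld w 3 p.T2 (X 1 * (X 1 * X 2)) :=
    ((ly.mul lk).add_ge (gz2.mul gB)).congr (by rw [h.e2]; ring) rfl
  have l3 := ((lw.mul lB).add_ge (gz2.mul gk)).congr h.e3 rfl
  intro q hq
  simp only [P_b21, List.mem_cons, List.not_mem_nil, or_false] at hq
  rcases hq with rfl | rfl | rfl | rfl
  · refine ⟨_, h.mh, lh.init hw (init_of (t := -1) (e := 0) (by simp) (zero_mem _) ?_)⟩
    simp only [mon, Algebra.smul_def, map_neg, map_one]; ring
  · refine ⟨_, h.m0, l0.init hw (init_of (t := t.b1)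
      (e := mon κ 0 3 0 + t.b2 • mon κ 1 1 1 - t.b0 • mon κ 1 2 0) hb0 ?_ ?_)⟩
    · exact sub_mem (add_mem (mon_gt (by decide)) (Submodule.smul_mem _ _ (mon_gt (by decide))))
        (Submodule.smul_mem _ _ (mon_gt (by decide)))
    · simp only [mon, Algebra.smul_def]; ring
  · refine ⟨_, h.m2, l2.init hw (init_of (t := 1) (e := 0) one_ne_zero (zero_mem _) ?_)⟩
    simp only [mon, Algebra.smul_def, map_one]; ring
  · refine ⟨_, h.m3, l3.init hw (init_of (t := t.b1 - 1)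
      (e := t.b2 • mon κ 0 1 2 - t.b0 • mon κ 0 2 1) (sub_ne_zero.2 hb1) ?_ ?_)⟩
    · exact sub_mem (Submodule.smul_mem _ _ (mon_gt (by decide)))
        (Submodule.smul_mem _ _ (mon_gt (by decide)))
    · simp only [mon, Algebra.smul_def, map_sub, map_one]; ring

end Pool.Agent.P.MP_6149fc_ag.V18

end

section

/-! Step PB22. -/

set_option autoImplicit false
set_option linter.unusedSectionVars false

namespace Pool.Agent.P.MP_6149fc_ag.V18

open scoped ENNReal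
open MvPowerSeries (coeff X constantCoeff monomial)

theorem p_PB22 :
    S_PB22 := by
  intro κ _ U p s t hU h ⟨ez, eA, ex', ey, ew⟩ hb1 hb2
  let w : Fin 3 → ℕ := ![1, 1, 1]
  have hw : First A_b22 w := by decide
  have lx : Ld w 1 p.x (X 0) := (Ld.X 0).congr ex' rfl
  have ly : Ld w 1 p.y (X 1) := (Ld.X 1).congr ey rfl
  have lw : Ld w 1 p.w (X 2) := (Ld.X 2).congr ew rfl
  obtain ⟨gh, gg, gk, -, g0, g1, g2, g3, gD⟩ := h.ge (nh := 2) (ng := 2) (nk := 2) (nB := 1)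
    (n0 := 2) (n1 := 2) (n2 := 2) (n3 := 2) (nD := 2) lx.ge ly.ge
    (Ge.of_const (n := 1) h.cz (by decide)) lw.ge (Ge.of_const (n := 1) h.cA (by decide))
    (by decide)
  have gz : Ge w 2 p.z := (p.tl_ge s gh gg gk g0 g1 g2 g3 gD).congr ez
  have gA : Ge w 2 p.A := (p.tl_ge t gh gg gk g0 g1 g2 g3 gD).congr eA
  obtain ⟨-, -, -, gB, g0, g1, g2, g3, gD⟩ := h.ge (nh := 2) (ng := 2) (nk := 2) (nB := 2)
    (n0 := 3) (n1 := 3) (n2 := 3) (n3 := 3) (nD := 3) lx.ge ly.ge gz lw.ge gA (by decide)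
  have lh : Ld w 2 p.h (-X 1 ^ 2) :=
    ((ly.pow 2).neg.add_ge (lx.ge.mul gz)).congr (by rw [h.eh]; ring) rfl
  have lg : Ld w 2 p.g (X 0 * X 2) := ((lx.mul lw).sub_ge (ly.ge.mul gz)).congr h.eg rfl
  have lk : Ld w 2 p.k (X 1 * X 2) :=
    ((ly.mul lw).sub_ge (gz.mul' gz (by decide))).congr (by rw [h.ek, sq]) rfl
  have lA : Ld w 2 p.A (t.b0 • -X 1 ^ 2 + t.b1 • (X 0 * X 2) + t.b2 • (X 1 * X 2)) :=
    ((((((((lh.smul _).add (lg.smul _)).add (lk.smul _)).add_ge (g0.smul _)).add_ge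
      (g1.smul _)).add_ge (g2.smul _)).add_ge (g3.smul _)).add_ge (gD.smul _)).congr eA rfl
  rw [hb1] at lA
  have lB := (lA.sub lg).congr h.eB rfl
  have l0 := ((lx.mul lA).sub (ly.mul lh)).congr h.e0 rfl
  have l2 : Ld w 3 p.T2 (X 1 * (X 1 * X 2)) :=
    ((ly.mul lk).add_ge (gz.mul gB)).congr (by rw [h.e2]; ring) rfl
  have l3 := ((lw.mul lB).add_ge (gz.mul gk)).congr h.e3 rfl
  have lD := ((lA.mul lB).add (lh.mul lk)).congr h.eD rfl
  have sm := fun (γ : Ex) (c : κ) (f : PS κ) (hf : f ∈ GtK κ A_b22 γ) => Submodule.smul_mem _ c hf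
  intro q hq
  simp only [P_b22, List.mem_cons, List.not_mem_nil, or_false] at hq
  rcases hq with rfl | rfl | rfl | rfl | rfl
  · refine ⟨_, h.mh, lh.init hw (init_of (t := -1) (e := 0) (by simp) (zero_mem _) ?_)⟩
    simp only [mon, Algebra.smul_def, map_neg, map_one]; ring
  · refine ⟨_, h.m0, l0.init hw (init_of (t := 1)
      (e := mon κ 0 3 0 + t.b2 • mon κ 1 1 1 - t.b0 • mon κ 1 2 0) one_ne_zero ?_ ?_)⟩
    · exact sub_mem (add_mem (mon_gt (by decide)) (sm _ _ _ (mon_gt (by decide))))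
        (sm _ _ _ (mon_gt (by decide)))
    · simp only [mon, Algebra.smul_def, map_one]; ring
  · refine ⟨_, h.m2, l2.init hw (init_of (t := 1) (e := 0) one_ne_zero (zero_mem _) ?_)⟩
    simp only [mon, Algebra.smul_def, map_one]; ring
  · refine ⟨_, h.m3, l3.init hw (init_of (t := t.b2) (e := -(t.b0 • mon κ 0 2 1)) hb2 ?_ ?_)⟩
    · exact neg_mem (sm _ _ _ (mon_gt (by decide)))
    · simp only [mon, Algebra.smul_def, map_one]; ring
  · refine ⟨_, h.mD, lD.init hw (init_of (t := t.b2)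
      (e := t.b2 ^ 2 • mon κ 0 2 2 - (2 * t.b0 * t.b2 + 1) • mon κ 0 3 1 + t.b0 ^ 2 • mon κ 0 4 0 -
        t.b0 • mon κ 1 2 1) hb2 ?_ ?_)⟩
    · exact sub_mem (add_mem (sub_mem (sm _ _ _ (mon_gt (by decide)))
        (sm _ _ _ (mon_gt (by decide)))) (sm _ _ _ (mon_gt (by decide))))
        (sm _ _ _ (mon_gt (by decide)))
    · simp only [mon, Algebra.smul_def, map_one, map_add, map_mul, map_pow, map_ofNat]; ring

end Pool.Agent.P.MP_6149fc_ag.V18

end

section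

/-! Step PB23. -/

set_option autoImplicit false
set_option linter.unusedSectionVars false

namespace Pool.Agent.P.MP_6149fc_ag.V18

open scoped ENNReal
open MvPowerSeries (coeff X constantCoeff monomial)

theorem p_PB23 :
    S_PB23 := by
  intro κ _ U p s t _ h ⟨ez, eA, ex', ey, ew⟩ t1 t0 s1
  let w : Fin 3 → ℕ := ![1, 2, 2]
  have hw : First (WC 2 1) w := by decide
  have hw' : First (WC 2 (-1)) w := by decide
  have lx : Ld w 1 p.x (X 0) := (Ld.X 0).congr ex' rfl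
  have ly : Ld w 2 p.y (X 1) := (Ld.X 1).congr ey rfl
  have lw : Ld w 2 p.w (X 2) := (Ld.X 2).congr ew rfl
  have gz : Ge w 1 p.z := Ge.of_const h.cz (by decide)
  have gA : Ge w 1 p.A := Ge.of_const h.cA (by decide)
  obtain ⟨gh, gg, gk, -, g0, g1, g2, g3, gD⟩ := h.ge (nh := 2) (ng := 2) (nk := 2) (nB := 1)
    (n0 := 2) (n1 := 2) (n2 := 2) (n3 := 2) (nD := 2) lx.ge ly.ge gz lw.ge gA (by decide)
  have gz : Ge w 2 p.z := (p.tl_ge s gh gg gk g0 g1 g2 g3 gD).congr ez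
  have gA : Ge w 2 p.A := (p.tl_ge t gh gg gk g0 g1 g2 g3 gD).congr eA
  obtain ⟨gh, gg, gk, -, g0, g1, g2, g3, gD⟩ := h.ge (nh := 3) (ng := 3) (nk := 3) (nB := 2)
    (n0 := 3) (n1 := 3) (n2 := 3) (n3 := 3) (nD := 3) lx.ge ly.ge gz lw.ge gA (by decide)
  have gz : Ge w 3 p.z := (p.tl_ge s gh gg gk g0 g1 g2 g3 gD).congr ez
  have gA : Ge w 3 p.A := (p.tl_ge t gh gg gk g0 g1 g2 g3 gD).congr eA
  obtain ⟨gh, -, gk, -, g0, g1, g2, g3, gD⟩ := h.ge (nh := 4) (ng := 3) (nk := 4) (nB := 3)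
    (n0 := 4) (n1 := 4) (n2 := 4) (n3 := 4) (nD := 4) lx.ge ly.ge gz lw.ge gA (by decide)
  have gA : Ge w 4 p.A :=
    (((((((gh.smul t.b0).add (gk.smul t.b2)).add (g0.smul t.c0)).add (g1.smul t.c1)).add
      (g2.smul t.c2)).add (g3.smul t.c3)).add (gD.smul t.e)).congr
      (by rw [eA, P14.tl, t1, zero_smul, add_zero])
  have lg : Ld w 3 p.g (X 0 * X 2) :=
    ((lx.mul lw).sub_ge (ly.ge.mul' gz (by norm_num))).congr h.eg rfl
  have lz : Ld w 3 p.z (s.b1 • (X 0 * X 2)) :=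
    ((lg.smul s.b1).add_ge (((((((gh.smul s.b0).add (gk.smul s.b2)).add (g0.smul s.c0)).add
      (g1.smul s.c1)).add (g2.smul s.c2)).add (g3.smul s.c3)).add (gD.smul s.e))).congr
      (by rw [ez, P14.tl]; abel) rfl
  obtain ⟨-, -, -, -, g0, g1, g2, g3, gD⟩ := h.ge (nh := 4) (ng := 3) (nk := 4) (nB := 3)
    (n0 := 5) (n1 := 5) (n2 := 5) (n3 := 5) (nD := 5) lx.ge ly.ge gz lw.ge gA (by decide)
  have lh : Ld w 4 p.h (X 0 * s.b1 • (X 0 * X 2) - X 1 ^ 2) :=
    ((lx.mul lz).sub (ly.pow 2)).congr h.eh rfl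
  have lk : Ld w 4 p.k (X 1 * X 2) :=
    ((ly.mul lw).sub_ge ((gz.pow 2).mono (by norm_num))).congr h.ek rfl
  have lA : Ld w 4 p.A (t.b0 • (X 0 * s.b1 • (X 0 * X 2) - X 1 ^ 2) + t.b2 • (X 1 * X 2)) :=
    (((lh.smul t.b0).add (lk.smul t.b2)).add_ge (((((g0.smul t.c0).add (g1.smul t.c1)).add
      (g2.smul t.c2)).add (g3.smul t.c3)).add (gD.smul t.e))).congr
      (by rw [eA, P14.tl, t1, zero_smul, add_zero]; abel) rfl
  have lB : Ld w 3 p.B (-(X 0 * X 2)) := (lg.neg.add_ge gA).congr (by rw [h.eB]; ring) rfl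
  have l1 := ((ly.mul lA).sub_ge (gz.mul' gh (by norm_num))).congr h.e1 rfl
  have l2 := ((lz.mul lB).add (ly.mul lk)).congr h.e2 rfl
  have l3 := ((lw.mul lB).add_ge (gz.mul' gk (by norm_num))).congr h.e3 rfl
  have lD := ((lA.mul lB).add_ge (gh.mul' gk (by norm_num))).congr h.eD rfl
  constructor
  · intro q hq
    simp only [P_b2W, List.mem_cons, List.not_mem_nil, or_false] at hq
    rcases hq with rfl | rfl | rfl | rfl
    · refine ⟨_, h.m3, l3.init hw (init_of (t := -1) (e := 0) (by simp) (zero_mem _) ?_)⟩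
      simp only [mon, Algebra.smul_def, map_neg, map_one]; ring
    · refine ⟨_, h.m1, l1.init hw (init_of (t := -t.b0)
        (e := t.b2 • mon κ 0 2 1 + (s.b1 * t.b0) • mon κ 2 1 1) (neg_ne_zero.2 t0) ?_ ?_)⟩
      · exact add_mem (Submodule.smul_mem _ _ (mon_gt (by decide)))
          (Submodule.smul_mem _ _ (mon_gt (by decide)))
      · simp only [mon, Algebra.smul_def, map_neg, map_mul]; ring
    · refine ⟨_, h.m2, l2.init hw (init_of (t := 1) (e := -(s.b1 • mon κ 2 0 2)) one_ne_zero ?_ ?_)⟩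
      · exact neg_mem (Submodule.smul_mem _ _ (mon_gt (by decide)))
      · simp only [mon, Algebra.smul_def, map_one]; ring
    · refine ⟨_, h.mD, lD.init hw (init_of (t := t.b0)
        (e := -(t.b2 • mon κ 1 1 2) - (s.b1 * t.b0) • mon κ 3 0 2) t0 ?_ ?_)⟩
      · exact sub_mem (neg_mem (Submodule.smul_mem _ _ (mon_gt (by decide))))
          (Submodule.smul_mem _ _ (mon_gt (by decide)))
      · simp only [mon, Algebra.smul_def, map_mul]; ring
  · intro q hq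
    simp only [P_b2Y, List.mem_cons, List.not_mem_nil, or_false] at hq
    subst hq
    refine ⟨_, h.mD, lD.init hw' (init_of (t := -(s.b1 * t.b0))
      (e := t.b0 • mon κ 1 2 1 - t.b2 • mon κ 1 1 2) (neg_ne_zero.2 (mul_ne_zero s1 t0)) ?_ ?_)⟩
    · exact sub_mem (Submodule.smul_mem _ _ (mon_gt (by decide)))
        (Submodule.smul_mem _ _ (mon_gt (by decide)))
    · simp only [mon, Algebra.smul_def, map_neg, map_mul]; ring

end Pool.Agent.P.MP_6149fc_ag.V18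

end

section

/-! Step PB3A. -/

set_option autoImplicit false
set_option linter.unusedSectionVars false

namespace Pool.Agent.P.MP_6149fc_ag.V18

open scoped ENNReal
open MvPowerSeries (coeff X constantCoeff monomial)

namespace PB3Ax

theorem ld_tl {κ : Type} [Field κ] {w : Fin 3 → ℕ} {n : ℕ} (p : P14 κ) (t : Tl κ) {q : PS κ}
    (h1 : Ld w n p.h q) (h2 : Ge w (n + 1) p.g) (h3 : Ge w (n + 1) p.k)
    (h4 : Ge w (n + 1) p.T0) (h5 : Ge w (n + 1) p.T1) (h6 : Ge w (n + 1) p.T2)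
    (h7 : Ge w (n + 1) p.T3) (h8 : Ge w (n + 1) p.D) : Ld w n (p.tl t) (t.b0 • q) :=
  (((((((h1.smul _).add_ge (h2.smul _)).add_ge (h3.smul _)).add_ge (h4.smul _)).add_ge
    (h5.smul _)).add_ge (h6.smul _)).add_ge (h7.smul _)).add_ge (h8.smul _)

end PB3Ax

theorem p_PB3A :
    S_PB3A := by
  intro κ _ U p s t r hU h ⟨ew, eA, ex', ey, ez⟩ hb hs hc
  rw [one_smul] at ex' ey ez
  have hw : First (WC 1 1) w3 := by decide
  have hw' : First (WC 1 (-1)) w3 := by decide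
  have lx : Ld w3 1 p.x (X 0) := (Ld.X 0).congr ex' rfl
  have ly : Ld w3 2 p.y (X 1) := (Ld.X 1).congr ey rfl
  have lz : Ld w3 3 p.z (X 2) := (Ld.X 2).congr ez rfl
  have step : ∀ n, 1 ≤ n → n ≤ 3 → Ge w3 n p.w → Ge w3 n p.A →
      Ge w3 (n + 1) p.w ∧ Ge w3 (n + 1) p.A := by
    intro n h1 h3 gw gA
    obtain ⟨gh, gg, gk, -, g0, g1, g2, g3, gD⟩ := h.ge (nh := n + 1) (ng := n + 1)
      (nk := n + 1) (nB := n) (n0 := n + 1) (n1 := n + 1) (n2 := n + 1) (n3 := n + 1)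
      (nD := n + 1) lx.ge ly.ge lz.ge gw gA (by omega)
    exact ⟨(p.tl_ge s gh gg gk g0 g1 g2 g3 gD).congr ew,
      (p.tl_ge t gh gg gk g0 g1 g2 g3 gD).congr eA⟩
  obtain ⟨gw2, gA2⟩ := step 1 (by norm_num) (by norm_num) (Ge.of_const h.cw (by decide))
    (Ge.of_const h.cA (by decide))
  obtain ⟨gw3, gA3⟩ := step 2 (by norm_num) (by norm_num) gw2 gA2
  obtain ⟨gw4, gA4⟩ := step 3 (by norm_num) (by norm_num) gw3 gA3
  obtain ⟨gh, gg, gk, -, g0, g1, g2, g3, gD⟩ := h.ge (nh := 4) (ng := 5) (nk := 6) (nB := 4)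
    (n0 := 5) (n1 := 6) (n2 := 6) (n3 := 6) (nD := 6) lx.ge ly.ge lz.ge gw4 gA4 (by decide)
  have lh : Ld w3 4 p.h (X 0 * X 2 - X 1 ^ 2) := ((lx.mul lz).sub (ly.pow 2)).congr h.eh rfl
  have lw : Ld w3 4 p.w (s.b0 • (X 0 * X 2 - X 1 ^ 2)) :=
    (PB3Ax.ld_tl p s lh gg (gk.mono (by norm_num)) g0 (g1.mono (by norm_num))
      (g2.mono (by norm_num)) (g3.mono (by norm_num)) (gD.mono (by norm_num))).congr ew rfl
  have lA : Ld w3 4 p.A (t.b0 • (X 0 * X 2 - X 1 ^ 2)) :=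
    (PB3Ax.ld_tl p t lh gg (gk.mono (by norm_num)) g0 (g1.mono (by norm_num))
      (g2.mono (by norm_num)) (g3.mono (by norm_num)) (gD.mono (by norm_num))).congr eA rfl
  have lg := ((lx.mul lw).sub (ly.mul lz)).congr h.eg rfl
  have lk := ((ly.mul lw).sub (lz.pow 2)).congr h.ek rfl
  have lB := (lA.sub_ge gg).congr h.eB rfl
  have l0 := ((lx.mul lA).sub_ge (ly.ge.mul gh)).congr h.e0 rfl
  have l1 := ((ly.mul lA).sub_ge (lz.ge.mul gh)).congr h.e1 rfl
  have lD := ((lA.mul lB).add_ge (gh.mul' gk (by norm_num))).congr h.eD rfl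
  have eW : p.w - r • p.A = (s.b1 - r * t.b1) • p.g + (s.c0 - r * t.c0) • p.T0 +
      (s.b2 - r * t.b2) • p.k + (s.c1 - r * t.c1) • p.T1 + (s.c2 - r * t.c2) • p.T2 +
      (s.c3 - r * t.c3) • p.T3 + (s.e - r * t.e) • p.D := by
    have e1 : p.w - r • p.A = p.tl s - r • p.tl t := by rw [← ew, ← eA]
    rw [e1]
    unfold P14.tl
    rw [hs]
    module
  have lW := (((((((lg.smul (s.b1 - r * t.b1)).add (l0.smul (s.c0 - r * t.c0))).add_ge
    (gk.smul _)).add_ge (g1.smul _)).add_ge (g2.smul _)).add_ge (g3.smul _)).add_ge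
    (gD.smul _)).congr eW rfl
  have eE : p.T3 - r • p.D = (p.w - r • p.A) * p.B + p.z * p.k - r • (p.h * p.k) := by
    rw [h.e3, h.eD]
    simp only [Algebra.smul_def]
    ring
  have lE := (((lW.mul lB).add (lz.mul lk)).sub_ge ((gh.mul gk).smul r)).congr eE rfl
  have mE : p.T3 - r • p.D ∈ U 1 := sub_mem h.m3 (Submodule.smul_mem _ r h.mD)
  have hc' : t.b0 ^ 2 * (r * (s.b1 - r * t.b1) + s.c0 - r * t.c0) ≠ 0 :=
    mul_ne_zero (pow_ne_zero _ hb) hc
  refine ⟨fun q hq => ?_, fun q hq => ?_⟩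
  · simp only [P_b3W, List.mem_cons, List.not_mem_nil, or_false] at hq
    rcases hq with rfl | rfl | rfl
    · refine ⟨_, sub_mem h.mK (Submodule.smul_mem _ r h.m1), (lk.sub (l1.smul r)).init hw
        (init_of (t := -1) (e := 0) (by simp) (zero_mem _) ?_)⟩
      simp only [mon, hs, Algebra.smul_def, map_neg, map_one, map_mul]; ring
    · refine ⟨_, h.mD, lD.init hw (init_of (t := t.b0 ^ 2)
        (e := t.b0 ^ 2 • (mon κ 2 0 2 - mon κ 1 2 1 - mon κ 1 2 1)) (pow_ne_zero _ hb) ?_ ?_)⟩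
      · exact Submodule.smul_mem _ _ (sub_mem (sub_mem (mon_gt (by decide)) (mon_gt (by decide)))
          (mon_gt (by decide)))
      · simp only [mon, Algebra.smul_def, map_pow]; ring
    · refine ⟨_, mE, lE.init hw (init_of
        (e := (t.b0 ^ 2 * (r * (s.b1 - r * t.b1) + s.c0 - r * t.c0)) •
            (mon κ 3 0 2 - mon κ 2 2 1 - mon κ 2 2 1) +
          (t.b0 * (r - (s.b1 - r * t.b1))) • (mon κ 1 1 2 - mon κ 0 3 1) - mon κ 0 0 3)
        hc' ?_ ?_)⟩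
      · exact sub_mem (add_mem (Submodule.smul_mem _ _ (sub_mem (sub_mem (mon_gt (by decide))
          (mon_gt (by decide))) (mon_gt (by decide)))) (Submodule.smul_mem _ _
          (sub_mem (mon_gt (by decide)) (mon_gt (by decide))))) (mon_gt (by decide))
      · simp only [mon, hs, Algebra.smul_def, map_pow, map_mul, map_sub, map_add]; ring
  · simp only [P_b3Y, List.mem_cons, List.not_mem_nil, or_false] at hq
    subst hq
    refine ⟨_, mE, lE.init hw' (init_of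
      (e := (t.b0 ^ 2 * (r * (s.b1 - r * t.b1) + s.c0 - r * t.c0)) •
          (mon κ 1 4 0 - mon κ 2 2 1 - mon κ 2 2 1) +
        (t.b0 * (r - (s.b1 - r * t.b1))) • (mon κ 1 1 2 - mon κ 0 3 1) - mon κ 0 0 3)
      hc' ?_ ?_)⟩
    · exact sub_mem (add_mem (Submodule.smul_mem _ _ (sub_mem (sub_mem (mon_gt (by decide))
        (mon_gt (by decide))) (mon_gt (by decide)))) (Submodule.smul_mem _ _
        (sub_mem (mon_gt (by decide)) (mon_gt (by decide))))) (mon_gt (by decide))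
    · simp only [mon, hs, Algebra.smul_def, map_pow, map_mul, map_sub, map_add]; ring

end Pool.Agent.P.MP_6149fc_ag.V18

end

section

/-! Step PB3B. -/

set_option autoImplicit false
set_option linter.unusedSectionVars false

namespace Pool.Agent.P.MP_6149fc_ag.V18

open scoped ENNReal
open MvPowerSeries (coeff X constantCoeff monomial)

namespace PB3Bx

variable {κ : Type} [Field κ]

theorem unscale {w : Fin 3 → ℕ} {k : ℕ} {f : PS κ} {b : κ} (hb : b ≠ 0) (h : Ge w k (b • f)) :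
    Ge w k f :=
  (h.smul b⁻¹).congr (by rw [smul_smul, inv_mul_cancel₀ hb, one_smul])

theorem mem_gr {U : ℕ → Submodule κ (PS κ)} {k : ℕ} {f g : PS κ} (c : κ) (hf : f ∈ U 1)
    (h : Ld w3 k (c • f) g) : g ∈ Gr w3 U 1 :=
  Submodule.subset_span ⟨c • f, Submodule.smul_mem _ _ hf, k, h⟩

/-- The tail without the first term. -/
theorem tail1 {w : Fin 3 → ℕ} {n : ℕ} (p : P14 κ) (t : Tl κ)
    (h2 : Ge w n p.g) (h3 : Ge w n p.k) (h4 : Ge w n p.T0) (h5 : Ge w n p.T1) (h6 : Ge w n p.T2)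
    (h7 : Ge w n p.T3) (h8 : Ge w n p.D) : Ge w n (p.tl t - t.b0 • p.h) :=
  (((((((h2.smul t.b1).add (h3.smul t.b2)).add (h4.smul t.c0)).add (h5.smul t.c1)).add
    (h6.smul t.c2)).add (h7.smul t.c3)).add (h8.smul t.e)).congr (by rw [P14.tl]; abel)

/-- The tail without the first two terms. -/
theorem tail2 {w : Fin 3 → ℕ} {n : ℕ} (p : P14 κ) (t : Tl κ)
    (h3 : Ge w n p.k) (h4 : Ge w n p.T0) (h5 : Ge w n p.T1) (h6 : Ge w n p.T2)
    (h7 : Ge w n p.T3) (h8 : Ge w n p.D) : Ge w n (p.tl t - t.b0 • p.h - t.b1 • p.g) :=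
  ((((((h3.smul t.b2).add (h4.smul t.c0)).add (h5.smul t.c1)).add
    (h6.smul t.c2)).add (h7.smul t.c3)).add (h8.smul t.e)).congr (by rw [P14.tl]; abel)

end PB3Bx

open PB3Bx in
theorem p_PB3B :
    S_PB3B := by
  intro κ _ U p s t _ h ⟨ew, eA, ex', ey, ez⟩ ht hb
  have lx : Ld w3 1 (s.b0 • p.x) (X 0) := (Ld.X 0).congr ex' rfl
  have ly : Ld w3 2 (s.b0 • p.y) (X 1) := (Ld.X 1).congr ey rfl
  have lz : Ld w3 3 (s.b0 • p.z) (X 2) := (Ld.X 2).congr ez rfl
  have gx : Ge w3 1 p.x := unscale hb lx.ge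
  have gy : Ge w3 2 p.y := unscale hb ly.ge
  have gz : Ge w3 3 p.z := unscale hb lz.ge
  have gw1 : Ge w3 1 p.w := Ge.of_const h.cw (by decide)
  have gA1 : Ge w3 1 p.A := Ge.of_const h.cA (by decide)
  have step : ∀ n : ℕ, 1 ≤ n → n ≤ 3 → Ge w3 n p.w → Ge w3 n p.A →
      Ge w3 (n + 1) p.w ∧ Ge w3 (n + 1) p.A := by
    intro n h1 h3 gw gA
    obtain ⟨gh, gg, gk, -, g0, g1, g2, g3, gD⟩ := h.ge (nh := n + 1) (ng := n + 1) (nk := n + 1)
      (nB := n) (n0 := n + 1) (n1 := n + 1) (n2 := n + 1) (n3 := n + 1) (nD := n + 1)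
      gx gy gz gw gA (by omega)
    exact ⟨(p.tl_ge s gh gg gk g0 g1 g2 g3 gD).congr ew,
      (p.tl_ge t gh gg gk g0 g1 g2 g3 gD).congr eA⟩
  obtain ⟨gw2, gA2⟩ := step 1 (by decide) (by decide) gw1 gA1
  obtain ⟨gw3, gA3⟩ := step 2 (by decide) (by decide) gw2 gA2
  obtain ⟨gw4, gA4⟩ := step 3 (by decide) (by decide) gw3 gA3
  have gA5 : Ge w3 5 p.A := by
    obtain ⟨-, gg, gk, -, g0, g1, g2, g3, gD⟩ := h.ge (nh := 4) (ng := 5) (nk := 5)
      (nB := 4) (n0 := 5) (n1 := 5) (n2 := 5) (n3 := 5) (nD := 5) gx gy gz gw4 gA4 (by decide)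
    exact (tail1 p t gg gk g0 g1 g2 g3 gD).congr (by rw [ht, zero_smul, sub_zero, eA])
  obtain ⟨-, gg, gk, -, g0, g1, g2, g3, gD⟩ := h.ge (nh := 4) (ng := 5) (nk := 6)
    (nB := 5) (n0 := 6) (n1 := 6) (n2 := 6) (n3 := 6) (nD := 6) gx gy gz gw4 gA5 (by decide)
  have lh : Ld w3 4 ((s.b0 ^ 2) • p.h) (bq (X 0) (X 1) (X 2)) :=
    ((lx.mul lz).sub (ly.pow 2)).congr
      (by rw [h.eh]; simp only [Algebra.smul_def, map_pow]; ring) rfl
  have lw : Ld w3 4 (s.b0 • p.w) (bq (X 0) (X 1) (X 2)) :=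
    (lh.add_ge ((tail1 p s gg (gk.mono (by decide)) (g0.mono (by decide)) (g1.mono (by decide))
      (g2.mono (by decide)) (g3.mono (by decide)) (gD.mono (by decide))).smul s.b0)).congr
      (by rw [ew]; simp only [Algebra.smul_def, map_pow]; ring) rfl
  have lg : Ld w3 5 ((s.b0 ^ 2) • p.g) (bH (X 0) (X 1) (X 2)) :=
    ((lx.mul lw).sub (ly.mul lz)).congr
      (by rw [h.eg]; simp only [Algebra.smul_def, map_pow]; ring) rfl
  have lk : Ld w3 6 ((s.b0 ^ 2) • p.k) (bK (X 0) (X 1) (X 2)) :=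
    ((ly.mul lw).sub (lz.pow 2)).congr
      (by rw [h.ek]; simp only [Algebra.smul_def, map_pow]; ring) rfl
  have lA : Ld w3 5 ((s.b0 ^ 2) • p.A) (t.b1 • bH (X 0) (X 1) (X 2)) :=
    ((lg.smul t.b1).add_ge ((tail2 p t gk g0 g1 g2 g3 gD).smul (s.b0 ^ 2))).congr
      (by rw [eA, ht]; simp only [Algebra.smul_def, map_pow, map_zero]; ring) rfl
  have lB : Ld w3 5 ((s.b0 ^ 2) • p.B) ((t.b1 - 1) • bH (X 0) (X 1) (X 2)) :=
    (lA.sub lg).congr (by rw [h.eB, smul_sub]) (by rw [sub_smul, one_smul])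
  have l0 : Ld w3 6 ((s.b0 ^ 3) • p.T0)
      (t.b1 • (X 0 * bH (X 0) (X 1) (X 2)) - X 1 * bq (X 0) (X 1) (X 2)) :=
    ((lx.mul lA).sub (ly.mul lh)).congr
      (by rw [h.e0]; simp only [Algebra.smul_def, map_pow]; ring) (by rw [mul_smul_comm])
  have l1 : Ld w3 7 ((s.b0 ^ 3) • p.T1)
      (t.b1 • (X 1 * bH (X 0) (X 1) (X 2)) - X 2 * bq (X 0) (X 1) (X 2)) :=
    ((ly.mul lA).sub (lz.mul lh)).congr
      (by rw [h.e1]; simp only [Algebra.smul_def, map_pow]; ring) (by rw [mul_smul_comm])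
  have l2 : Ld w3 8 ((s.b0 ^ 3) • p.T2)
      ((t.b1 - 1) • (X 2 * bH (X 0) (X 1) (X 2)) + X 1 * bK (X 0) (X 1) (X 2)) :=
    ((lz.mul lB).add (ly.mul lk)).congr
      (by rw [h.e2]; simp only [Algebra.smul_def, map_pow]; ring) (by rw [mul_smul_comm])
  have l3 : Ld w3 9 ((s.b0 ^ 3) • p.T3)
      ((t.b1 - 1) • (bq (X 0) (X 1) (X 2) * bH (X 0) (X 1) (X 2)) +
        X 2 * bK (X 0) (X 1) (X 2)) :=
    ((lw.mul lB).add (lz.mul lk)).congr
      (by rw [h.e3]; simp only [Algebra.smul_def, map_pow]; ring) (by rw [mul_smul_comm])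
  have lD : Ld w3 10 ((s.b0 ^ 4) • p.D)
      ((t.b1 * (t.b1 - 1)) • bH (X 0) (X 1) (X 2) ^ 2 +
        bq (X 0) (X 1) (X 2) * bK (X 0) (X 1) (X 2)) :=
    ((lA.mul lB).add (lh.mul lk)).congr
      (by rw [h.eD]; simp only [Algebra.smul_def, map_pow]; ring)
      (by simp only [Algebra.smul_def, map_mul]; ring)
  exact ⟨mem_gr _ h.mx lx, mem_gr _ h.my ly, mem_gr _ h.mz lz, mem_gr _ h.mh lh,
    mem_gr _ h.mg lg, mem_gr _ h.mK lk, mem_gr _ h.m0 l0, mem_gr _ h.m1 l1, mem_gr _ h.m2 l2,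
    mem_gr _ h.m3 l3, mem_gr _ h.mD lD⟩

end Pool.Agent.P.MP_6149fc_ag.V18

end

section

/-! Step PTYZ. -/

set_option autoImplicit false
set_option linter.unusedSectionVars false

namespace Pool.Agent.P.MP_6149fc_ag.V18

open scoped ENNReal
open MvPowerSeries (coeff X constantCoeff monomial)

theorem p_PTYZ :
    S_PTYZ := by
  intro κ _ a U ha h
  refine ⟨fun q hq => ?_, fun q hq => ?_⟩
  · simp only [P_eZ, List.mem_cons, List.not_mem_nil, or_false] at hq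
    rcases hq with rfl | rfl | rfl
    · refine ⟨_, h.h2, init_of (t := -a)
        (e := (a - 1) • (mon κ 2 0 2 - mon κ 1 2 1) + mon κ 1 2 1 - mon κ 0 4 0)
        (neg_ne_zero.2 ha) ?_ ?_⟩
      · repeat' first
          | exact mon_gt (by decide)
          | apply sub_mem
          | apply add_mem
          | apply Submodule.smul_mem
      · simp only [mon, bH, bK, bq, Algebra.smul_def, map_neg, map_sub, map_one]; ring
    · refine ⟨_, h.h3, init_of (t := -1)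
        (e := (a - 1) • (mon κ 3 0 2 - mon κ 2 2 1 - mon κ 2 2 1 - mon κ 1 1 2 + mon κ 1 4 0 +
          mon κ 0 3 1) + mon κ 1 1 2 - mon κ 0 3 1) (by simp) ?_ ?_⟩
      · repeat' first
          | exact mon_gt (by decide)
          | apply sub_mem
          | apply add_mem
          | apply Submodule.smul_mem
      · simp only [mon, bH, bK, bq, Algebra.smul_def, map_neg, map_sub, map_one]; ring
    · refine ⟨_, h.hD, init_of (t := -1)
        (e := (a * (a - 1)) • (mon κ 4 0 2 + mon κ 2 4 0 + mon κ 0 2 2 - mon κ 3 2 1 -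
          mon κ 3 2 1 - mon κ 2 1 2 - mon κ 2 1 2 + mon κ 1 3 1 + mon κ 1 3 1) + mon κ 2 1 2 -
          mon κ 1 3 1 - mon κ 1 3 1 + mon κ 0 5 0 + mon κ 0 2 2) (by simp) ?_ ?_⟩
      · repeat' first
          | exact mon_gt (by decide)
          | apply sub_mem
          | apply add_mem
          | apply Submodule.smul_mem
      · simp only [mon, bH, bK, bq, Algebra.smul_def, map_neg, map_one]; ring
  · simp only [P_eY, List.mem_cons, List.not_mem_nil, or_false] at hq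
    subst hq
    refine ⟨_, h.hD, init_of (t := 1)
      (e := (a * (a - 1)) • (mon κ 4 0 2 + mon κ 2 4 0 + mon κ 0 2 2 - mon κ 3 2 1 -
        mon κ 3 2 1 - mon κ 2 1 2 - mon κ 2 1 2 + mon κ 1 3 1 + mon κ 1 3 1) + mon κ 2 1 2 -
        mon κ 1 3 1 - mon κ 1 3 1 - mon κ 1 0 3 + mon κ 0 2 2) one_ne_zero ?_ ?_⟩
    · repeat' first
        | exact mon_gt (by decide)
        | apply sub_mem
        | apply add_mem
        | apply Submodule.smul_mem
    · simp only [mon, bH, bK, bq, Algebra.smul_def, map_one]; ring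

end Pool.Agent.P.MP_6149fc_ag.V18

end

section

/-! Step ALGT. -/

set_option autoImplicit false
set_option linter.unusedSectionVars false

namespace Pool.Agent.P.MP_6149fc_ag.V18

open scoped ENNReal
open MvPowerSeries (coeff X constantCoeff monomial)

theorem p_ALGT :
    S_ALGT := by
  intro κ _ a c d ha hcd h1
  by_contra h
  obtain ⟨hD, hT⟩ := not_or.1 h
  rw [not_not] at hD hT
  have e1 : c * bK 1 c d - d * bH 1 c d + bq 1 c d ^ 2 = 0 := by simp only [bK, bH, bq]; ring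
  have e2 : bK 1 c d = c * bq 1 c d - d ^ 2 := rfl
  have e3 : bq 1 c d = 1 * d - c ^ 2 := rfl
  generalize bK 1 c d = K, bH 1 c d = H, bq 1 c d = q at *
  by_cases hK : K = 0
  · have h2 : a - 1 ≠ 0 := sub_ne_zero.2 (h1.resolve_right fun h => h hK)
    have h3 : H = 0 := pow_eq_zero_iff two_ne_zero |>.1
      (mul_left_cancel₀ (mul_ne_zero ha h2) (by linear_combination hT - q * hK))
    have h4 : q = 0 := pow_eq_zero_iff two_ne_zero |>.1
      (by linear_combination e1 - c * hK + d * h3)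
    have h5 : d = 0 := pow_eq_zero_iff two_ne_zero |>.1
      (by linear_combination e2 - hK + c * h4)
    have h6 : c = 0 := pow_eq_zero_iff two_ne_zero |>.1
      (by linear_combination e3 - h4 + h5)
    exact hcd.elim (fun h => h h6) fun h => h h5
  · have h2 : a * d * H - q ^ 2 = 0 :=
      mul_left_cancel₀ hK (by linear_combination a * H * hD - q * hT)
    exact hK (pow_eq_zero_iff two_ne_zero |>.1
      (by linear_combination K * e2 + q * e1 + q * h2 - d * hD))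

end Pool.Agent.P.MP_6149fc_ag.V18

end
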