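import Pool.Agent.P.MP_6149fc_ag.V18.IfaceG

section

/-! Step TAN6. -/

set_option autoImplicit false
set_option linter.unusedSectionVars false

namespace Pool.Agent.P.MP_6149fc_ag.V18

open scoped ENNReal
open MvPowerSeries (coeff X constantCoeff monomial)

namespace TAN6x

theorem kk_prod {C C' : Type} [CommRing C] [CommRing C'] {p : Fin 14 → C} {p' : Fin 14 → C'}
    (h : KK p) (h' : KK p') : KK fun i => ((p i, p' i) : C × C') := by
  obtain ⟨q1, q2, q3, q4, q5, q6, q7, q8, q9, q10, q11, q12, q13, q14, q15, q16, q17, q18, q19,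
    q20, q21, q22, q23, q24, q25, q26, q27, q28⟩ := h
  obtain ⟨r1, r2, r3, r4, r5, r6, r7, r8, r9, r10, r11, r12, r13, r14, r15, r16, r17, r18, r19,
    r20, r21, r22, r23, r24, r25, r26, r27, r28⟩ := h'
  constructor <;> apply Prod.ext <;>
    simp only [Prod.fst_mul, Prod.snd_mul, Prod.fst_add, Prod.snd_add, Prod.fst_sub, Prod.snd_sub,
      Prod.fst_neg, Prod.snd_neg] <;> assumption

theorem kk_inj {C C' : Type} [CommRing C] [CommRing C'] (φ : C →+* C')
    (hφ : Function.Injective φ) {p : Fin 14 → C} (h : KK fun i => φ (p i)) : KK p := by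
  obtain ⟨q1, q2, q3, q4, q5, q6, q7, q8, q9, q10, q11, q12, q13, q14, q15, q16, q17, q18, q19,
    q20, q21, q22, q23, q24, q25, q26, q27, q28⟩ := h
  constructor <;> apply hφ <;> simp only [map_mul, map_add, map_sub, map_neg] <;> assumption

variable {κ : Type} [Field κ]

theorem kk_lin {p v w : Fin 14 → κ} (hv : KK (dual p v)) (hw : KK (dual p w)) (s t : κ) :
    KK (dual p (s • v + t • w)) := by
  let P : Fin 14 → TrivSqZeroExt κ (κ × κ) :=
    fun i => TrivSqZeroExt.inl (p i) + TrivSqZeroExt.inr (v i, w i)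
  let φ : TrivSqZeroExt κ (κ × κ) →+* DualNumber κ × DualNumber κ :=
    RingHom.prod (TrivSqZeroExt.map (LinearMap.fst κ κ κ)).toRingHom
      (TrivSqZeroExt.map (LinearMap.snd κ κ κ)).toRingHom
  have hφ : Function.Injective φ := by
    intro x y hxy
    have h1 := congrArg (fun z => TrivSqZeroExt.fst z.1) hxy
    have h2 := congrArg (fun z => TrivSqZeroExt.snd z.1) hxy
    have h3 := congrArg (fun z => TrivSqZeroExt.snd z.2) hxy
    simp [φ] at h1 h2 h3
    exact TrivSqZeroExt.ext h1 (Prod.ext h2 h3)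
  have hP : KK P := by
    apply kk_inj φ hφ
    have := kk_prod hv hw
    convert this using 2 with i
    apply Prod.ext <;> apply TrivSqZeroExt.ext <;> simp [φ, P, dual]
  have := hP.map (TrivSqZeroExt.map
    (s • LinearMap.fst κ κ κ + t • LinearMap.snd κ κ κ)).toRingHom
  convert this using 2 with i
  apply TrivSqZeroExt.ext <;> simp [P, dual]

/-- The form as a linear map. -/
def dotL (l : Fin 14 → κ) : (Fin 14 → κ) →ₗ[κ] κ where
  toFun := fun w => dot l w
  map_add' := fun x y => by simp [dot, mul_add, Finset.sum_add_distrib]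
  map_smul' := fun c x => by simp [dot, Finset.mul_sum, mul_left_comm]

theorem five (p l m : Fin 14 → κ) (v : Fin 6 → Fin 14 → κ)
    (hv : ∀ a, KK (dual p (v a)) ∧ dot l (v a) = 0) (hli : LinearIndependent κ v) :
    ∃ w : Fin 5 → Fin 14 → κ, LinearIndependent κ w ∧
      ∀ a, KK (dual p (w a)) ∧ dot l (w a) = 0 ∧ dot m (w a) = 0 := by
  let T : Submodule κ (Fin 14 → κ) :=
    { carrier := {w | KK (dual p w)}
      add_mem' := fun {a b} ha hb => by simpa using kk_lin ha hb 1 1
      zero_mem' := by simpa using kk_lin (hv 0).1 (hv 0).1 0 0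
      smul_mem' := fun c a ha => by simpa using kk_lin ha ha c 0 }
  let L : (Fin 6 → κ) →ₗ[κ] (Fin 14 → κ) := Fintype.linearCombination κ v
  have hL : Function.Injective L := hli.fintypeLinearCombination_injective
  let K := LinearMap.ker ((dotL m).comp L)
  have hK : 5 ≤ Module.finrank κ K := by
    have h1 := LinearMap.finrank_range_add_finrank_ker ((dotL m).comp L)
    have h2 : Module.finrank κ (LinearMap.range ((dotL m).comp L)) ≤ 1 := by
      simpa using Submodule.finrank_le (LinearMap.range ((dotL m).comp L))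
    simp only [Module.finrank_fin_fun] at h1
    simp only [K]
    omega
  obtain ⟨u, hu⟩ := exists_linearIndependent_of_le_finrank hK
  refine ⟨fun a => L (u a), ?_, fun a => ⟨?_, ?_, ?_⟩⟩
  · exact hu.map' (L.comp K.subtype)
      (LinearMap.ker_eq_bot.2 (hL.comp Subtype.val_injective))
  · have : L (u a) ∈ T := by
      simp only [L, Fintype.linearCombination_apply]
      exact T.sum_mem fun b _ => T.smul_mem _ (hv b).1
    exact this
  · change dotL l (L (u a)) = 0
    simp only [L, Fintype.linearCombination_apply, map_sum, map_smul]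
    refine Finset.sum_eq_zero fun b _ => ?_
    have : dotL l (v b) = 0 := (hv b).2
    rw [this, smul_zero]
  · exact (u a).2

theorem dot_comb (l1 l2 l w : Fin 14 → κ) (r s : κ) (h : ∀ i, l i = r * l1 i + s * l2 i) :
    dot l w = r * dot l1 w + s * dot l2 w := by
  simp only [dot, h, smul_eq_mul, Finset.mul_sum, ← Finset.sum_add_distrib]
  exact Finset.sum_congr rfl fun i _ => by ring

end TAN6x

theorem p_TAN6 :
    S_TAN6 := by
  intro κ _ l1 l2 l p r s v hS hp h1 h2 hrs hl hv hli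
  rcases hrs with hr | hs
  · obtain ⟨w, hw, hw'⟩ := TAN6x.five p l l2 v hv hli
    refine hS p hp h1 h2 w (fun a => ⟨(hw' a).1, ?_, (hw' a).2.2⟩) hw
    have := TAN6x.dot_comb l1 l2 l (w a) r s hl
    rw [(hw' a).2.1, (hw' a).2.2, mul_zero, add_zero] at this
    exact (mul_eq_zero.1 this.symm).resolve_left hr
  · obtain ⟨w, hw, hw'⟩ := TAN6x.five p l l1 v hv hli
    refine hS p hp h1 h2 w (fun a => ⟨(hw' a).1, (hw' a).2.2, ?_⟩) hw
    have := TAN6x.dot_comb l1 l2 l (w a) r s hl
    rw [(hw' a).2.1, (hw' a).2.2, mul_zero, zero_add] at this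
    exact (mul_eq_zero.1 this.symm).resolve_left hs

end Pool.Agent.P.MP_6149fc_ag.V18

end

section

/-! Step SM0. -/

set_option autoImplicit false
set_option linter.unusedSectionVars false

namespace Pool.Agent.P.MP_6149fc_ag.V18

open scoped ENNReal
open MvPowerSeries (coeff X constantCoeff monomial)

namespace SM0x

variable {κ : Type} [Field κ]

def vec (c : Fin 6 → κ) : Fin 14 → κ := ![c 0, c 1, c 2, c 3, c 4, 0, c 5, c 5, 0, 0, 0, 0, 0, 0]

theorem e0_eq : e0 κ = ![1, 0, 0, 0, 0, 0, 0, 0, 0, 0, 0, 0, 0, 0] := by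
  funext i; fin_cases i <;> rfl

theorem kk (c : Fin 6 → κ) : KK (dual (e0 κ) (vec c)) := by
  rw [e0_eq]
  constructor <;> refine TrivSqZeroExt.ext ?_ ?_ <;> simp [dual, vec]

theorem dot_vec6 (l : Fin 14 → κ) (c : Fin 6 → κ) : dot l (vec c) =
    l 0 * c 0 + l 1 * c 1 + l 2 * c 2 + l 3 * c 3 + l 4 * c 4 + (l 6 + l 7) * c 5 := by
  simp only [dot, sum14, vec, smul_eq_mul]
  simp
  ring

theorem indep : LinearIndependent κ fun a : Fin 6 => vec (Pi.single a (1 : κ)) := by
  rw [Fintype.linearIndependent_iff]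
  intro g hg
  have h : ∀ (i : Fin 14) (a : Fin 6), (∀ c : Fin 6 → κ, vec c i = c a) → g a = 0 := fun i a hi => by
    have := congrFun hg i
    simpa [Finset.sum_apply, hi, Pi.single_apply] using this
  intro a
  fin_cases a
  exacts [h 0 0 fun _ => rfl, h 1 1 fun _ => rfl, h 2 2 fun _ => rfl, h 3 3 fun _ => rfl,
    h 4 4 fun _ => rfl, h 6 5 fun _ => rfl]

end SM0x

theorem p_SM0 (hTAN6 : S_TAN6) :
    S_SM0 := by
  intro κ _ l1 l2 r s hS h1 h2 hrs h
  have k0 := congrFun h 0
  have k1 := congrFun h 1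
  have k2 := congrFun h 2
  have k3 := congrFun h 3
  have k4 := congrFun h 4
  simp only [Lin, Pi.add_apply, Pi.smul_apply, smul_eq_mul, Pi.zero_apply, Matrix.cons_val] at k0 k1 k2 k3 k4
  refine hTAN6 κ l1 l2 (fun i => r * l1 i + s * l2 i) (e0 κ) r s _ hS
    (fun e => one_ne_zero (congrFun e 0)) ((dot_single l1 0).trans h1) ((dot_single l2 0).trans h2)
    hrs (fun _ => rfl) (fun a => ⟨SM0x.kk _, ?_⟩) SM0x.indep
  rw [SM0x.dot_vec6]
  generalize (Pi.single a (1 : κ) : Fin 6 → κ) = c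
  rw [h1, h2]
  linear_combination c 1 * k0 + c 2 * k1 + c 3 * k2 + c 4 * k3 + c 5 * k4

end Pool.Agent.P.MP_6149fc_ag.V18

end

section

/-! Step SML. -/

set_option autoImplicit false
set_option linter.unusedSectionVars false

namespace Pool.Agent.P.MP_6149fc_ag.V18

open scoped ENNReal
open MvPowerSeries (coeff X constantCoeff monomial)

namespace SMLx

variable {κ : Type} [Field κ]

/-- The point on the line. -/
def pt (t u : κ) : Fin 14 → κ := ![u, 1, t, t ^ 2, t ^ 3, 0, 0, 0, 0, 0, 0, 0, 0, 0]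

/-- The general tangent vector. -/
def W (t u : κ) (c : Fin 6 → κ) : Fin 14 → κ :=
  ![c 0, c 1, c 1 * t + c 2, c 1 * t ^ 2 + 2 * t * c 2 + u * c 3,
    c 1 * t ^ 3 + 3 * t ^ 2 * c 2 + u * c 4, c 3, t * c 3 + u * c 5,
    2 * t * c 3 - c 4 + u * c 5, -2 * t ^ 2 * c 3 + t * c 4, c 5, t * c 5, t ^ 2 * c 5,
    t ^ 3 * c 5, 0]

theorem tang (t u : κ) (c : Fin 6 → κ) : KK (dual (pt t u) (W t u c)) := by
  constructor <;> refine TrivSqZeroExt.ext ?_ ?_ <;> simp [dual, pt, W] <;> ring

theorem dot_W (l : Fin 14 → κ) (t u : κ) (c : Fin 6 → κ) : dot l (W t u c) =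
    c 0 * l 0 + c 1 * (l 1 + t * l 2 + t ^ 2 * l 3 + t ^ 3 * l 4) +
    c 2 * (l 2 + 2 * t * l 3 + 3 * t ^ 2 * l 4) +
    c 3 * (u * l 3 + (l 5 + t * l 6 + 2 * t * l 7 - 2 * t ^ 2 * l 8)) +
    c 4 * (u * l 4 + (t * l 8 - l 7)) +
    c 5 * (u * (l 6 + l 7) + (l 9 + t * l 10 + t ^ 2 * l 11 + t ^ 3 * l 12)) := by
  rw [dot, sum14]
  simp [W]
  ring

theorem dot_pt (l : Fin 14 → κ) (t u : κ) : dot l (pt t u) =
    u * l 0 + (l 1 + t * l 2 + t ^ 2 * l 3 + t ^ 3 * l 4) := by
  rw [dot, sum14]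
  simp [pt]
  ring

theorem indep (t u : κ) :
    LinearIndependent κ fun a : Fin 6 => W t u (Pi.single a (1 : κ)) := by
  rw [Fintype.linearIndependent_iff]
  intro g h
  have h0 := congrFun h 0
  have h1 := congrFun h 1
  have h2 := congrFun h 2
  have h5 := congrFun h 5
  have h7 := congrFun h 7
  have h9 := congrFun h 9
  simp [Fin.sum_univ_six, W] at h0 h1 h2 h5 h7 h9
  have g2 : g 2 = 0 := by linear_combination h2 - t * h1
  have g4 : g 4 = 0 := by linear_combination -h7 + 2 * t * h5 + u * h9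
  intro a
  fin_cases a
  exacts [h0, h1, g2, h5, g4, h9]

end SMLx

theorem p_SML (hTAN6 : S_TAN6) :
    S_SML := by
  intro κ _ l1 l2 l t u r s hS h10 h20 h1 h2 hrs hl e2 e3 e4 e5
  refine hTAN6 κ l1 l2 l (SMLx.pt t u) r s (fun a => SMLx.W t u (Pi.single a 1)) hS ?_ ?_ ?_ hrs
    hl (fun a => ⟨SMLx.tang t u _, ?_⟩) (SMLx.indep t u)
  · intro h
    have := congrFun h 1
    simp [SMLx.pt] at this
  · rw [SMLx.dot_pt, h10, h1]; ring
  · rw [SMLx.dot_pt, h20, h2]; ring
  · have e0 : l 0 = 0 := by rw [hl, h10, h20]; ring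
    have e1 : l 1 + t * l 2 + t ^ 2 * l 3 + t ^ 3 * l 4 = 0 := by
      rw [hl, hl, hl, hl]; linear_combination r * h1 + s * h2
    rw [SMLx.dot_W, e0, e1, e2, e3, e4, e5]; ring

end Pool.Agent.P.MP_6149fc_ag.V18

end

section

/-! Step SMW. -/

set_option autoImplicit false
set_option linter.unusedSectionVars false

namespace Pool.Agent.P.MP_6149fc_ag.V18

open scoped ENNReal
open MvPowerSeries (coeff X constantCoeff monomial)

namespace SMWx

variable {κ : Type} [Field κ]

/-- The point on the last line. -/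
def pt (u : κ) : Fin 14 → κ := ![u, 0, 0, 0, 1, 0, 0, 0, 0, 0, 0, 0, 0, 0]

/-- A general combination of the six tangent vectors. -/
def cb (u a b c d e f : κ) : Fin 14 → κ :=
  ![a, u * e, u * d, c, b, 0, e + u * f, u * f, d, 0, 0, 0, f, 0]

theorem kk (u a b c d e f : κ) : KK (dual (pt u) (cb u a b c d e f)) := by
  constructor <;> refine TrivSqZeroExt.ext ?_ ?_ <;> simp [dual, pt, cb] <;> ring

/-- The six tangent vectors. -/
def vv (u : κ) (i : Fin 6) : Fin 14 → κ :=
  cb u (if i = 0 then 1 else 0) (if i = 1 then 1 else 0) (if i = 2 then 1 else 0)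
    (if i = 3 then 1 else 0) (if i = 4 then 1 else 0) (if i = 5 then 1 else 0)

theorem li (u : κ) : LinearIndependent κ (vv u) := by
  rw [Fintype.linearIndependent_iff]
  intro g hg
  have h0 := congrFun hg 0
  have h4 := congrFun hg 4
  have h3 := congrFun hg 3
  have h8 := congrFun hg 8
  have h12 := congrFun hg 12
  have h6 := congrFun hg 6
  simp [Finset.sum_apply, vv, cb] at h0 h4 h3 h8 h12 h6
  intro i
  fin_cases i
  · exact h0
  · exact h4
  · exact h3
  · exact h8
  · simpa [Finset.sum_add_distrib, mul_add, h12] using h6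
  · exact h12

theorem dot_cb (l : Fin 14 → κ) (u a b c d e f : κ) :
    dot l (cb u a b c d e f) = a * l 0 + b * l 4 + c * l 3 + d * (u * l 2 + l 8) +
      e * (u * l 1 + l 6) + f * (u * (l 6 + l 7) + l 12) := by
  simp only [dot, sum14]
  simp [cb]
  ring

theorem dot_pt (l : Fin 14 → κ) (u : κ) : dot l (pt u) = l 0 * u + l 4 := by
  simp only [dot, sum14]
  simp [pt]

end SMWx

theorem p_SMW (hTAN6 : S_TAN6) :
    S_SMW := by
  intro κ _ l1 l2 l u r s hS h10 h20 h14 h24 hrs hl h3 h8 h6 h12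
  refine hTAN6 κ l1 l2 l (SMWx.pt u) r s (SMWx.vv u) hS ?_ ?_ ?_ hrs hl ?_ (SMWx.li u)
  · intro h
    have := congrFun h 4
    simp [SMWx.pt] at this
  · rw [SMWx.dot_pt, h10, h14]; simp
  · rw [SMWx.dot_pt, h20, h24]; simp
  · intro a
    refine ⟨SMWx.kk _ _ _ _ _ _ _, ?_⟩
    have h0 : l 0 = 0 := by rw [hl, h10, h20]; simp
    have h4 : l 4 = 0 := by rw [hl, h14, h24]; simp
    rw [SMWx.vv, SMWx.dot_cb, h0, h4, h3, h8, h6, h12]
    simp

end Pool.Agent.P.MP_6149fc_ag.V18

end

section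

/-! Step EIG. -/

set_option autoImplicit false
set_option linter.unusedSectionVars false

namespace Pool.Agent.P.MP_6149fc_ag.V18

open scoped ENNReal
open MvPowerSeries (coeff X constantCoeff monomial)

theorem p_EIG :
    S_EIG := by
  intro κ _ _ a b c d
  by_cases hc : c = 0
  · exact ⟨d, 0, 1, Or.inr one_ne_zero, by simp [hc], by simp⟩
  · obtain ⟨u, hu⟩ := IsAlgClosed.exists_root
      (Polynomial.C 1 * Polynomial.X ^ 2 + Polynomial.C (-(a + d)) * Polynomial.X +
        Polynomial.C (a * d - b * c)) (by rw [Polynomial.degree_quadratic one_ne_zero]; decide)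
    simp only [Polynomial.IsRoot, Polynomial.eval_add, Polynomial.eval_mul, Polynomial.eval_C,
      Polynomial.eval_pow, Polynomial.eval_X] at hu
    exact ⟨u, c, u - a, Or.inl hc, by ring, by linear_combination hu⟩

end Pool.Agent.P.MP_6149fc_ag.V18

end
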