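import Pool.Agent.P.MP_6149fc_ag.V18.IfaceA

section

/-! Step JC1. -/

set_option autoImplicit false
set_option linter.unusedSectionVars false

namespace Pool.Agent.P.MP_6149fc_ag.V18

open scoped ENNReal
open MvPowerSeries (coeff X constantCoeff monomial)

namespace JC1x

theorem dt0 (d : ℕ) (s : ℤ) (α : Ex) :
    dt (WC d s 0) α = α 0 + 2 * α 1 + (4 - d) * α 2 := by simp [dt, WC]

theorem dt1 (d : ℕ) (s : ℤ) (α : Ex) : dt (WC d s 1) α = α 1 + 2 * α 2 := by simp [dt, WC]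

theorem dt2 (d : ℕ) (s : ℤ) (α : Ex) : dt (WC d s 2) α = s * α 2 := by simp [dt, WC]

theorem coeff_wall {κ : Type} [Field κ] (d : ℕ) (γ : Ex) (m : ℕ) (c : ℕ → κ) (α : Ex) :
    coeff α (wallP d γ m c) = ∑ j ∈ Finset.range (m + 1),
      if α = ex (γ 0 + d * j) (γ 1 - 2 * j) (γ 2 + j) then c j else 0 := by
  classical
  simp only [wallP, map_sum, map_smul, mon_eq, MvPowerSeries.coeff_monomial, smul_eq_mul,
    mul_ite, mul_one, mul_zero]

end JC1x

theorem p_JC1 :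
    S_JC1 := by
  classical
  intro κ _ d g γ σ hd hk hγ hσ
  have hrow : ∀ α, coeff α g ≠ 0 → ((α 0 : ℤ) + 2 * α 1 + (4 - d) * α 2 =
      γ 0 + 2 * γ 1 + (4 - d) * γ 2) ∧ (α 1 : ℤ) + 2 * α 2 = γ 1 + 2 * γ 2 := by
    intro α hα
    have h := (kk_eq_iff _ _ _).1 (hk α hα)
    simp only [JC1x.dt0, JC1x.dt1] at h
    exact ⟨h.1, h.2.1⟩
  have hlo : ∀ α, coeff α g ≠ 0 → γ 2 ≤ α 2 := by
    intro α hα
    have h1 := hγ.le hα
    rw [← not_lt, kk_lt_iff] at h1
    simp only [JC1x.dt0, JC1x.dt1, JC1x.dt2] at h1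
    obtain ⟨a, b⟩ := hrow α hα
    by_contra hc
    exact h1 (Or.inr ⟨a, Or.inr ⟨b, by omega⟩⟩)
  have hhi : ∀ α, coeff α g ≠ 0 → α 2 ≤ σ 2 := by
    intro α hα
    have h1 := hσ.le hα
    rw [← not_lt, kk_lt_iff] at h1
    simp only [JC1x.dt0, JC1x.dt1, JC1x.dt2] at h1
    obtain ⟨a, b⟩ := hrow α hα
    obtain ⟨a', b'⟩ := hrow σ hσ.1
    by_contra hc
    exact h1 (Or.inr ⟨a.trans a'.symm, Or.inr ⟨b.trans b'.symm, by omega⟩⟩)
  have hform : ∀ α, coeff α g ≠ 0 → ∀ j, α 2 = γ 2 + j →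
      α = ex (γ 0 + d * j) (γ 1 - 2 * j) (γ 2 + j) := by
    intro α hα j hj
    obtain ⟨a, b⟩ := hrow α hα
    refine ex_ext ?_ ?_ ?_
    · rw [ex_0]
      rcases hd with rfl | rfl <;> push_cast at a <;> omega
    · rw [ex_1]; omega
    · rw [ex_2]; omega
  have h1 := hlo σ hσ.1
  obtain ⟨m, hm⟩ := Nat.exists_eq_add_of_le h1
  refine ⟨m, fun j => coeff (ex (γ 0 + d * j) (γ 1 - 2 * j) (γ 2 + j)) g, ?_, ?_, ?_, ?_⟩
  · have := hform γ hγ.1 0 rfl
    show coeff _ g ≠ 0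
    rw [← this]; exact hγ.1
  · have := hform σ hσ.1 m hm
    show coeff _ g ≠ 0
    rw [← this]; exact hσ.1
  · have := (hrow σ hσ.1).2
    omega
  · ext α
    rw [JC1x.coeff_wall]
    by_cases hα : coeff α g = 0
    · rw [hα]
      symm
      refine Finset.sum_eq_zero fun j _ => ?_
      split_ifs with h
      · rw [← h]; exact hα
      · rfl
    · obtain ⟨j, hj⟩ := Nat.exists_eq_add_of_le (hlo α hα)
      have h2 := hhi α hα
      have h3 := hform α hα j hj
      rw [Finset.sum_eq_single j]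
      · rw [if_pos h3, ← h3]
      · intro i _ hij
        rw [if_neg]
        intro h
        have h4 := congrArg (fun β : Ex => β 2) h
        simp only [ex_2] at h4
        omega
      · intro h
        exact absurd (Finset.mem_range.2 (by omega)) h

end Pool.Agent.P.MP_6149fc_ag.V18

end

section

/-! Step JC2. -/

set_option autoImplicit false
set_option linter.unusedSectionVars false

namespace Pool.Agent.P.MP_6149fc_ag.V18

open scoped ENNReal
open MvPowerSeries (coeff X constantCoeff monomial)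

namespace JC2x

/-- A sum with a unique term of least order. -/
theorem least {κ L : Type} [Field κ] [Field L] [Algebra κ L] {s : Finset ℕ} {N j0 : ℕ}
    {c : ℕ → κ} {T : ℕ → PowerSeries L} {E : ℕ → ℕ} (hT : ∀ j, (T j).order = E j)
    (h0 : j0 ∈ s) (hc : c j0 ≠ 0) (hE : ∀ j ∈ s, j ≠ j0 → E j0 < E j)
    (h : PowerSeries.X ^ N ∣ ∑ j ∈ s, c j • T j) : N ≤ E j0 := by
  by_contra hN
  have h1 := PowerSeries.X_pow_dvd_iff.1 h (E j0) (not_le.1 hN)
  rw [map_sum, Finset.sum_eq_single_of_mem j0 h0 fun j hj e => by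
    rw [Algebra.smul_def, PowerSeries.algebraMap_apply, PowerSeries.coeff_C_mul,
      PowerSeries.coeff_of_lt_order _ (by rw [hT]; exact_mod_cast hE j hj e), mul_zero],
    Algebra.smul_def, PowerSeries.algebraMap_apply, PowerSeries.coeff_C_mul] at h1
  exact mul_ne_zero ((map_ne_zero _).2 hc) (PowerSeries.order_eq_nat.1 (hT j0)).1 h1

theorem num1 {d μ g0 g1 g2 a b c : ℤ} (hd : 0 < d) (ha : 0 ≤ a) (hb : 0 ≤ b) (hc : 0 ≤ c)
    (h0 : g0 ≤ μ) (h2 : g2 ≤ μ) (h3 : 2 * g0 + d * g1 ≤ (2 + d) * μ) (h4 : g1 + 2 * g2 ≤ 3 * μ)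
    (h : 2 * b ≤ d * a + c) : g0 * a + g1 * b + g2 * c ≤ μ * (a + b + c) := by
  rcases le_total (2 * b) c with e | e
  · nlinarith [mul_le_mul_of_nonneg_left h0 ha, mul_le_mul_of_nonneg_left h4 hb,
      mul_le_mul_of_nonneg_left h2 (sub_nonneg.2 e)]
  · refine le_of_mul_le_mul_left (a := 2 * d) ?_ (by linarith)
    nlinarith [mul_le_mul_of_nonneg_left h3 (sub_nonneg.2 e),
      mul_le_mul_of_nonneg_left h4 (mul_nonneg hd.le hc),
      mul_le_mul_of_nonneg_left h0 (sub_nonneg.2 h)]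

theorem num2 {d μ s0 s1 s2 a b c : ℤ} (ha : 0 ≤ a) (hc : 0 ≤ c) (h1 : s1 ≤ μ)
    (h3 : 2 * s0 + d * s1 ≤ (2 + d) * μ) (h4 : s1 + 2 * s2 ≤ 3 * μ)
    (h : d * a + c ≤ 2 * b) : s0 * a + s1 * b + s2 * c ≤ μ * (a + b + c) := by
  nlinarith [mul_le_mul_of_nonneg_left h3 ha, mul_le_mul_of_nonneg_left h4 hc,
    mul_le_mul_of_nonneg_left h1 (sub_nonneg.2 h)]

end JC2x

theorem p_JC2 :
    S_JC2 := by
  intro κ L _ _ _ d m μ N γ c z o hd c0 cm hm g0 g2 g3 g4 g1 hz ho hne h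
  obtain ⟨ψ, hψ, hX⟩ := exists_subHom (κ := κ) hz
  rw [← hψ, wallP, map_sum] at h
  simp only [map_smul, mon, map_mul, map_pow, hX] at h
  obtain ⟨E, hE⟩ : ∃ E : ℕ → ℕ, ∀ j,
      E j = (γ 0 + d * j) * o 0 + (γ 1 - 2 * j) * o 1 + (γ 2 + j) * o 2 := ⟨_, fun _ => rfl⟩
  have hT : ∀ j, (z 0 ^ (γ 0 + d * j) * z 1 ^ (γ 1 - 2 * j) * z 2 ^ (γ 2 + j)).order = E j :=
    fun j => by
      rw [PowerSeries.order_mul, PowerSeries.order_mul, PowerSeries.order_pow,
        PowerSeries.order_pow, PowerSeries.order_pow, ho, ho, ho, hE]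
      simp only [nsmul_eq_mul]
      push_cast
      rfl
  have hZ : ∀ j ≤ m, (E j : ℤ) = (γ 0 + d * j) * o 0 + (γ 1 - 2 * j) * o 1 + (γ 2 + j) * o 2 :=
    fun j hj => by
      rw [hE]
      push_cast [Nat.cast_sub (show 2 * j ≤ γ 1 by omega)]
      rfl
  have d0 : (0 : ℤ) < d := by omega
  have z3 : 2 * (γ 0 : ℤ) + d * γ 1 ≤ (2 + d) * μ := by exact_mod_cast g3
  have z4 : (γ 1 : ℤ) + 2 * γ 2 ≤ 3 * μ := by exact_mod_cast g4
  rcases lt_or_gt_of_ne hne with e | e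
  · have e' : (d : ℤ) * o 0 + o 2 < 2 * o 1 := by exact_mod_cast e
    refine (JC2x.least hT (Finset.self_mem_range_succ m) cm (fun j hj hjm => ?_) h).trans ?_
    · have j1 : j ≤ m := Nat.lt_succ_iff.1 (Finset.mem_range.1 hj)
      have j2 : (j : ℤ) < m := by omega
      have : (E m : ℤ) < E j := by
        rw [hZ m le_rfl, hZ j j1]
        nlinarith [mul_pos (sub_pos.2 j2) (sub_pos.2 e')]
      exact_mod_cast this
    · have : (E m : ℤ) ≤ μ * (o 0 + o 1 + o 2) := by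
        rw [hZ m le_rfl]
        exact JC2x.num2 (d := d) (Nat.cast_nonneg _) (Nat.cast_nonneg _) (by omega)
          (by linarith) (by linarith) e'.le
      exact_mod_cast this
  · have e' : 2 * (o 1 : ℤ) < d * o 0 + o 2 := by exact_mod_cast e
    refine (JC2x.least hT (Finset.mem_range.2 (Nat.succ_pos m)) c0 (fun j hj hjm => ?_) h).trans ?_
    · have j1 : j ≤ m := Nat.lt_succ_iff.1 (Finset.mem_range.1 hj)
      have j2 : (0 : ℤ) < j := by omega
      have : (E 0 : ℤ) < E j := by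
        rw [hZ 0 (Nat.zero_le _), hZ j j1]
        push_cast
        nlinarith [mul_pos j2 (sub_pos.2 e')]
      exact_mod_cast this
    · have : (E 0 : ℤ) ≤ μ * (o 0 + o 1 + o 2) := by
        rw [hZ 0 (Nat.zero_le _)]
        simp only [Nat.cast_zero, mul_zero, add_zero, sub_zero]
        exact JC2x.num1 d0 (Nat.cast_nonneg _) (Nat.cast_nonneg _) (Nat.cast_nonneg _)
          (by exact_mod_cast g0) (by exact_mod_cast g2) z3 z4 e'.le
      exact_mod_cast this

end Pool.Agent.P.MP_6149fc_ag.V18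

end

section

/-! Step JC3A. -/

set_option autoImplicit false
set_option linter.unusedSectionVars false

namespace Pool.Agent.P.MP_6149fc_ag.V18

open scoped ENNReal
open MvPowerSeries (coeff X constantCoeff monomial)

namespace JC3Ax

theorem ord_le {L : Type} [Field L] (s : Multiset (PowerSeries L)) (e : ℕ)
    (h : ∀ f ∈ s, f.order ≤ e) : s.prod.order ≤ (s.card * e : ℕ) := by
  induction s using Multiset.induction_on with
  | empty => simp
  | cons f s ih =>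
    rw [Multiset.prod_cons, PowerSeries.order_mul, Multiset.card_cons, Nat.succ_mul, add_comm,
      Nat.cast_add]
    exact add_le_add (ih fun g hg => h g (Multiset.mem_cons_of_mem hg))
      (h f (Multiset.mem_cons_self _ _))

theorem root {κ L : Type} [Field κ] [IsAlgClosed κ] [Field L] [Algebra κ L] {P : Polynomial κ}
    (hP : P ≠ 0) {m n : ℕ} (hm : P.natDegree ≤ m) (hn : 0 < n) (W : PowerSeries L)
    (h : PowerSeries.X ^ n ∣ Polynomial.aeval W P) :
    ∃ (r : κ) (e : ℕ), PowerSeries.X ^ e ∣ W - algebraMap κ _ r ∧ n ≤ m * e := by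
  have hc : P.roots.card ≤ m := (Polynomial.card_roots' P).trans hm
  have hu : IsUnit (algebraMap κ (PowerSeries L) P.leadingCoeff) :=
    (IsUnit.mk0 _ (Polynomial.leadingCoeff_ne_zero.2 hP)).map _
  rw [(IsAlgClosed.splits P).eq_prod_roots, map_mul, Polynomial.aeval_C, hu.dvd_mul_left,
    map_multiset_prod, Multiset.map_map, dvd_iff_le_order] at h
  by_contra hcon
  have h1 := ord_le (P.roots.map (Polynomial.aeval W ∘ fun a => Polynomial.X - Polynomial.C a))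
    ((n - 1) / m) (by
      intro f hf
      obtain ⟨r, hr, rfl⟩ := Multiset.mem_map.1 hf
      have hm0 : 0 < m := (Multiset.card_pos_iff_exists_mem.2 ⟨r, hr⟩).trans_le hc
      by_contra hlt
      refine hcon ⟨r, (n - 1) / m + 1, ?_, ?_⟩
      · rw [dvd_iff_le_order, Nat.cast_succ]
        have := Order.add_one_le_of_lt (not_le.1 hlt)
        simpa using this
      · have := Nat.lt_mul_div_succ (n - 1) hm0
        omega)
  have h2 : n ≤ (P.roots.map (Polynomial.aeval W ∘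
      fun a => Polynomial.X - Polynomial.C a)).card * ((n - 1) / m) := by
    exact_mod_cast h.trans h1
  rw [Multiset.card_map] at h2
  have h3 := Nat.mul_le_mul_right ((n - 1) / m) hc
  have h4 := Nat.mul_div_le (n - 1) m
  omega

theorem term {R : Type} [CommRing R] (t u0 u1 u2 v : R) (hv : u1 * v = 1)
    (d j g0 g g2 o0 o1 o2 : ℕ) (hd : d * o0 + o2 = 2 * o1) :
    (t ^ o0 * u0) ^ (g0 + d * j) * (t ^ o1 * u1) ^ g * (t ^ o2 * u2) ^ (g2 + j) =
      t ^ (g0 * o0 + (g + 2 * j) * o1 + g2 * o2) *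
        (u0 ^ g0 * u1 ^ (g + 2 * j) * u2 ^ g2 * (u0 ^ d * u2 * v ^ 2) ^ j) := by
  have e : g0 * o0 + (g + 2 * j) * o1 + g2 * o2 =
      g0 * o0 + g * o1 + g2 * o2 + j * (d * o0 + o2) := by rw [hd]; ring
  have h1 : (u1 * v) ^ (2 * j) = 1 := by rw [hv, one_pow]
  rw [e]
  calc _ = t ^ (g0 * o0 + g * o1 + g2 * o2 + j * (d * o0 + o2)) *
        (u0 ^ g0 * u1 ^ g * u2 ^ g2 * (u0 ^ d * u2) ^ j) * 1 := by ring
    _ = _ := by rw [← h1]; ring

end JC3Ax

theorem p_JC3A :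
    S_JC3A := by
  intro κ L _ _ _ _ d m N γ c z u o hc hm hz hu hd hN
  rcases le_or_gt N (γ 0 * o 0 + γ 1 * o 1 + γ 2 * o 2) with hG | hG
  · exact ⟨0, 0, by simp, by omega⟩
  obtain ⟨ψ, hψ, hX⟩ := exists_subHom (κ := κ) hz
  have un : ∀ j, IsUnit (u j) := fun j =>
    PowerSeries.isUnit_iff_constantCoeff.2 (IsUnit.mk0 _ (hu j).2)
  obtain ⟨v, hv⟩ := (un 1).exists_right_inv
  set W := u 0 ^ d * u 2 * v ^ 2 with hW
  set P : Polynomial κ := ∑ j ∈ Finset.range (m + 1), Polynomial.monomial j (c j) with hPdef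
  have hP0 : P ≠ 0 := by
    intro h
    have := congrArg (fun Q : Polynomial κ => Q.coeff 0) h
    simp only [hPdef, Polynomial.finsetSum_coeff, Polynomial.coeff_monomial,
      Polynomial.coeff_zero, Finset.sum_ite_eq', Finset.mem_range, Nat.zero_lt_succ,
      if_true] at this
    exact hc this
  have hPm : P.natDegree ≤ m :=
    Polynomial.natDegree_sum_le_of_forall_le _ _ fun j hj =>
      (Polynomial.natDegree_monomial_le _).trans (Nat.lt_succ_iff.1 (Finset.mem_range.1 hj))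
  have key : sub z (wallP d γ m c) = PowerSeries.X ^ (γ 0 * o 0 + γ 1 * o 1 + γ 2 * o 2) *
      (u 0 ^ γ 0 * u 1 ^ γ 1 * u 2 ^ γ 2 * Polynomial.aeval W P) := by
    rw [← hψ, wallP, map_sum, hPdef, map_sum, Finset.mul_sum, Finset.mul_sum]
    refine Finset.sum_congr rfl fun j hj => ?_
    have hj' : 2 * j ≤ γ 1 := by have := Finset.mem_range.1 hj; omega
    obtain ⟨g, hg⟩ : ∃ g, γ 1 = g + 2 * j := ⟨γ 1 - 2 * j, by omega⟩
    rw [map_smul, mon, map_mul, map_mul, map_pow, map_pow, map_pow, hX, hX, hX, (hu 0).1,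
      (hu 1).1, (hu 2).1, hg, Nat.add_sub_cancel,
      JC3Ax.term _ _ _ _ v hv d j _ g _ _ _ _ hd, Polynomial.aeval_monomial, Algebra.smul_def]
    ring
  obtain ⟨n, hn⟩ : ∃ n, N = γ 0 * o 0 + γ 1 * o 1 + γ 2 * o 2 + n :=
    ⟨_, (Nat.add_sub_cancel' hG.le).symm⟩
  have hU : IsUnit (u 0 ^ γ 0 * u 1 ^ γ 1 * u 2 ^ γ 2) :=
    (((un 0).pow _).mul ((un 1).pow _)).mul ((un 2).pow _)
  rw [key, hn, pow_add, mul_dvd_mul_iff_left (pow_ne_zero _ PowerSeries.X_ne_zero),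
    hU.dvd_mul_left] at hN
  obtain ⟨r, e, h1, h2⟩ := JC3Ax.root hP0 hPm (by omega) W hN
  refine ⟨r, e, ?_, by omega⟩
  have : u 0 ^ d * u 2 - r • u 1 ^ 2 = u 1 ^ 2 * (W - algebraMap κ _ r) := by
    rw [Algebra.smul_def, hW]
    linear_combination (-(u 0 ^ d * u 2) * (u 1 * v + 1)) * hv
  rw [this]
  exact h1.mul_left _

end Pool.Agent.P.MP_6149fc_ag.V18

end

section

/-! Step JC3. -/

set_option autoImplicit false
set_option linter.unusedSectionVars false

namespace Pool.Agent.P.MP_6149fc_ag.V18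

open scoped ENNReal
open MvPowerSeries (coeff X constantCoeff monomial)

theorem p_JC3 (hJC3A : S_JC3A) (hRKA : S_RKA) (hCFA : S_CFA) :
    S_JC3 := by
  classical
  intro κ L _ _ _ _ d m μ N a γ c z o hc hm hmμ hμ h1 h2 hz hw hdv hcod
  have hord := fun j => PowerSeries.order_eq_nat.1 (hz.2 j).1
  choose u hu using fun j => PowerSeries.X_pow_dvd_iff.2 (hord j).2
  have hu0 : ∀ j, PowerSeries.constantCoeff (u j) ≠ 0 := fun j => by
    have h3 := (hord j).1
    have h4 := PowerSeries.coeff_X_pow_mul (u j) (o j) 0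
    rw [zero_add, ← hu j] at h4
    rwa [h4, PowerSeries.coeff_zero_eq_constantCoeff_apply] at h3
  obtain ⟨r, e, he, hN⟩ := hJC3A κ L d m N γ c z u o hc hm hz.1 (fun j => ⟨hu j, hu0 j⟩) hw hdv
  set e2 := min e (N - o 2) with he2
  let s : Finset L := (Finset.Ico (o 0) N).image (fun l => PowerSeries.coeff l (z 0)) ∪
    (Finset.Ico (o 1) N).image (fun l => PowerSeries.coeff l (z 1)) ∪
    (Finset.Ico (o 2 + e2) N).image (fun l => PowerSeries.coeff l (z 2))
  have hcard : s.card ≤ (N - o 0) + (N - o 1) + (N - (o 2 + e2)) := by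
    refine (Finset.card_union_le _ _).trans (add_le_add ((Finset.card_union_le _ _).trans
      (add_le_add ?_ ?_)) ?_) <;> exact Finset.card_image_le.trans (Nat.card_Ico _ _).le
  let F := IntermediateField.adjoin κ (s : Set L)
  have hs : ∀ x ∈ s, x ∈ F := fun x hx => IntermediateField.subset_adjoin κ _ hx
  obtain ⟨c1, c2, c3, c4, -⟩ := hCFA κ L F
  have hall : ∀ j b, CF F b (z j) → (∀ l, b ≤ l → l < N → PowerSeries.coeff l (z j) ∈ s) →
      ∀ n, CF F n (z j) := by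
    intro j b hb h n l _
    rcases lt_or_ge l b with h3 | h3
    · exact hb l h3
    rcases lt_or_ge l N with h4 | h4
    · exact hs _ (h l h3 h4)
    · rw [(hz.2 j).2.2.2 l h4]
      split_ifs
      exacts [F.one_mem, F.zero_mem]
  have hlow : ∀ j, CF F (o j) (z j) := fun j l hl => by rw [(hord j).2 l hl]; exact F.zero_mem
  have z0 := hall 0 _ (hlow 0) fun l a b => Finset.mem_union_left _ (Finset.mem_union_left _
    (Finset.mem_image_of_mem _ (Finset.mem_Ico.2 ⟨a, b⟩)))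
  have z1 := hall 1 _ (hlow 1) fun l a b => Finset.mem_union_left _ (Finset.mem_union_right _
    (Finset.mem_image_of_mem _ (Finset.mem_Ico.2 ⟨a, b⟩)))
  have u0 : CF F e2 (u 0) := (c3 e2 (o 0) _).2 (hu 0 ▸ z0 _)
  have u1 : CF F e2 (u 1) := (c3 e2 (o 1) _).2 (hu 1 ▸ z1 _)
  have u2 : CF F e2 (u 2) := by
    refine c4 e2 (u 0 ^ d) (u 2) (r • u 1 ^ 2) (by rw [map_pow]; exact pow_ne_zero _ (hu0 0))
      (c2 _ _ _ u0) (fun l hl => ?_) ((pow_dvd_pow _ (min_le_left _ _)).trans he)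
    exact F.smul_mem (c2 _ 2 _ u1 l hl)
  have z2 := hall 2 (o 2 + e2) (by rw [add_comm, hu 2]; exact (c3 e2 (o 2) _).1 u2)
    fun l a b => Finset.mem_union_right _ (Finset.mem_image_of_mem _ (Finset.mem_Ico.2 ⟨a, b⟩))
  have hrk : rk κ (cf z N) ≤ s.card := by
    refine ((hRKA κ L).1 _ _ ?_).trans ((hRKA κ L).2.2.1 s)
    rintro _ ⟨j, l, hl, rfl⟩
    fin_cases j
    exacts [z0 N l hl, z1 N l hl, z2 N l hl]
  have h3 : 3 * N ≤ s.card + a := by
    have := le_trans hcod (add_le_add_left hrk _)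
    exact_mod_cast this
  have o0 := (hz.2 0).2.2.1
  have o1 := (hz.2 1).2.2.1
  have o2 := (hz.2 2).2.2.1
  have h4 : o 0 + o 1 + o 2 + e2 ≤ a := by omega
  rcases le_total e (N - o 2) with h5 | h5
  · rw [he2, min_eq_left h5] at h4
    have h6 := Nat.mul_le_mul_left (o 0) h1
    have h7 := Nat.mul_le_mul_left (o 2) h2
    have h8 := Nat.mul_le_mul_right e hmμ
    have h9 := Nat.mul_le_mul_left μ h4
    have h10 : γ 1 * (d * o 0 + o 2) = γ 1 * (2 * o 1) := by rw [hw]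
    have h11 : μ * (d * o 0 + o 2) = μ * (2 * o 1) := by rw [hw]
    nlinarith
  · rw [he2, min_eq_right h5] at h4
    exact le_trans (by omega) (Nat.le_mul_of_pos_left a hμ)

end Pool.Agent.P.MP_6149fc_ag.V18

end

section

/-! Step JC. -/

set_option autoImplicit false
set_option linter.unusedSectionVars false

namespace Pool.Agent.P.MP_6149fc_ag.V18

open scoped ENNReal
open MvPowerSeries (coeff X constantCoeff monomial)

theorem p_JC (hJC1 : S_JC1) (hJC2 : S_JC2) (hJC3 : S_JC3) (hTRUNC : S_TRUNC) :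
    S_JC := by
  intro κ _ _ d μ g γ σ hd hk h1 h2 hμ g0 g2 g01 g12 g1 s1
  obtain ⟨m, c, c0, cm, hσ, rfl⟩ := hJC1 κ d g γ σ hd hk h1 h2
  refine hTRUNC κ _ μ fun L _ _ z N a o hN hdv hC ho => ?_
  by_cases h : d * o 0 + o 2 = 2 * o 1
  · exact (hJC3 κ L d m μ N a γ c z o c0 (by omega) (by omega) hμ g01 g12 hN h hdv hC).trans
      (Nat.mul_le_mul_left _ (by omega))
  · exact (hJC2 κ L d m μ N γ c z o hd c0 cm (by omega) g0 g2 g01 g12 (by omega) hN.1
      (fun j => (hN.2 j).1) h hdv).trans (Nat.mul_le_mul_left _ (by omega))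

end Pool.Agent.P.MP_6149fc_ag.V18

end

section

/-! Step ENGY. -/

set_option autoImplicit false
set_option linter.unusedSectionVars false

namespace Pool.Agent.P.MP_6149fc_ag.V18

open scoped ENNReal
open MvPowerSeries (coeff X constantCoeff monomial)

namespace ENGYx

theorem row0 (d : ℕ) (s t : ℤ) (α : Ex) : dt (WC d s 0) α = dt (WC d t 0) α := rfl

theorem row1' (d : ℕ) (s : ℤ) (α : Ex) : dt (WC d s 1) α = α 1 + 2 * α 2 := by
  simp [dt, WC]

theorem row2 (d : ℕ) (s : ℤ) (α : Ex) : dt (WC d s 2) α = s * α 2 := by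
  simp [dt, WC]

theorem refines (d : ℕ) : Refines (WC d (-1)) (WC d 0) := by
  intro α β h
  rw [kk_lt_iff] at h ⊢
  rw [row0 d (-1) 0 α, row0 d (-1) 0 β]
  simp only [row1', row2] at h ⊢
  omega

theorem one_le (d : ℕ) {σ γ : Ex} (h0 : kk (WC d 0) σ = kk (WC d 0) γ)
    (h1 : kk (WC d (-1)) σ ≤ kk (WC d (-1)) γ) : σ 1 ≤ γ 1 := by
  rw [kk_eq_iff] at h0
  rw [← not_lt, kk_lt_iff, row0 d (-1) 0 σ, row0 d (-1) 0 γ] at h1
  simp only [row1', row2] at h0 h1
  omega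

end ENGYx

theorem p_ENGY (hTWO2 : S_TWO2) (hADM : S_ADM) :
    S_ENGY := by
  classical
  intro κ _ d M n U V f g k σ hd hS hf hL hg hσ
  have hA : Adm (WC d (-1)) := by
    refine hADM _ ?_
    rcases hd with rfl | rfl <;> decide
  obtain ⟨f', g', γ, hγ, h⟩ := hTWO2 κ (WC d (-1)) (WC d 0) (Fin n) Key (U M) f g k
    (fun i => kk (WC d (-1)) (σ i)) hA (ENGYx.refines d) hf hL hg
  have hle : ∀ i, σ i 1 ≤ γ i 1 := by
    intro i
    obtain ⟨-, -, hsp, hI, -, hk⟩ := h i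
    refine ENGYx.one_le d ?_ ?_
    · rw [hk]; exact (hL i).1 _ (hσ i).1
    · have hsub : Submodule.span κ (g '' {j | k j = k i ∧
          kk (WC d (-1)) (σ i) ≤ kk (WC d (-1)) (σ j)}) ≤
          On κ fun α => kk (WC d (-1)) (σ i) ≤ kk (WC d (-1)) α := by
        rw [Submodule.span_le]
        rintro _ ⟨j, hj, rfl⟩ α hα
        exact hj.2.trans ((hσ j).le hα)
      exact hsub hsp _ hI.1
  have h2 := hS M (Finset.univ.image γ) (by
    intro δ hδ
    obtain ⟨i, -, rfl⟩ := Finset.mem_image.1 hδ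
    exact ⟨f' i, (h i).1, (h i).2.2.2.2.1⟩)
  rw [Finset.sum_image (fun a _ b _ e => hγ e), one_mul] at h2
  refine le_trans ?_ h2
  exact_mod_cast Finset.sum_le_sum fun i _ => hle i

end Pool.Agent.P.MP_6149fc_ag.V18

end

section

/-! Step ENGC. -/

set_option autoImplicit false
set_option linter.unusedSectionVars false

namespace Pool.Agent.P.MP_6149fc_ag.V18

open scoped ENNReal
open MvPowerSeries (coeff X constantCoeff monomial)

namespace ENGCx

theorem refines (d : ℕ) (s : ℤ) : Refines (WC d s) (WC d 0) := by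
  intro α β h
  rw [kk_lt_iff] at h ⊢
  have e0 : WC d s 0 = WC d 0 0 := rfl
  have e1 : WC d s 1 = WC d 0 1 := rfl
  have e2 : ∀ γ, dt (WC d 0 2) γ = 0 := fun γ => by simp [dt, WC]
  rw [e0, e1]
  rcases h with h | ⟨h, h' | ⟨-, h'⟩⟩
  · exact Or.inl h
  · exact Or.inr ⟨h, Or.inl h'⟩
  · rw [e2, e2] at h'
    exact absurd h' (lt_irrefl _)

theorem bound {κ : Type} [Field κ] {A : Rows} {U : ℕ → Submodule κ (PS κ)} {j : Fin 3} {τ V : ℝ}
    (h : SumLe A U j τ V) {M n : ℕ} {f : Fin n → PS κ} {γ : Fin n → Ex} (hf : ∀ i, f i ∈ U M)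
    (hγ : ∀ i, Init A (f i) (γ i)) (hi : Function.Injective γ) :
    (((∑ i, γ i) j : ℕ) : ℝ) ≤ τ * (V * ((M : ℝ) + 15) ^ 4) := by
  classical
  have := h M (Finset.univ.image γ) fun β hβ => by
    obtain ⟨i, -, rfl⟩ := Finset.mem_image.1 hβ
    exact ⟨f i, hf i, hγ i⟩
  rw [Finset.sum_image fun a _ b _ e => hi e] at this
  rwa [Finsupp.finsetSum_apply, ← mul_assoc]

end ENGCx

theorem p_ENGC (hRED : S_RED) (hENGY : S_ENGY) (hDEG : S_DEG) (hJC : S_JC) (hADM : S_ADM) :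
    S_ENGC := by
  intro κ _ _ d U V τ0 τ1 τ2 hd hV s0 s1 s2 s3 t0 t2 t01 t12 t1
  have a1 : Adm (WC d 1) := hADM _ (by rcases hd with rfl | rfl <;> decide)
  have a2 : Adm (WC d (-1)) := hADM _ (by rcases hd with rfl | rfl <;> decide)
  refine hRED κ (WC d 1) U V a1 fun M μ n f γ hB hf hγ hi => ?_
  choose g hg hg' using fun i => exists_lead (ENGCx.refines d 1) (hγ i)
  have hli := indep_of_init hg' hi
  choose σ hσ using fun i => exists_init a2 (hg' i).ne_zero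
  have hL := LeadK.prod Finset.univ hg
  have hI := Init.prod Finset.univ hg'
  have b0 := ENGCx.bound s0 hf hγ hi
  have b1 := ENGCx.bound s1 hf hγ hi
  have b2 := ENGCx.bound s2 hf hγ hi
  have b3 := hENGY κ d M n U V f g _ σ hd s3 hf hg hli hσ
  rw [← Finsupp.finsetSum_apply] at b3
  unfold Big at hB
  have hX : 0 ≤ V * ((M : ℝ) + 15) ^ 4 := by positivity
  generalize V * ((M : ℝ) + 15) ^ 4 = Y at *
  have hd0 : (0 : ℝ) ≤ d := Nat.cast_nonneg d
  refine hDEG κ _ _ _ _ μ hL (hJC κ d μ _ _ _ hd (fun α hα => (hL.1 α hα).trans (hL.1 _ hI.1).symm)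
    hI (Init.prod Finset.univ hσ) ?_ ?_ ?_ ?_ ?_ ?_ ?_)
  · exact_mod_cast (by linarith : (1 : ℝ) ≤ μ)
  · exact_mod_cast (by nlinarith : (((∑ i, γ i) 0 : ℕ) : ℝ) ≤ μ)
  · exact_mod_cast (by nlinarith : (((∑ i, γ i) 2 : ℕ) : ℝ) ≤ μ)
  · exact_mod_cast (by nlinarith [mul_le_mul_of_nonneg_left b1 hd0, mul_le_mul_of_nonneg_right t01 hX] :
      2 * (((∑ i, γ i) 0 : ℕ) : ℝ) + d * (((∑ i, γ i) 1 : ℕ) : ℝ) ≤ (2 + d) * μ)
  · exact_mod_cast (by nlinarith :
      (((∑ i, γ i) 1 : ℕ) : ℝ) + 2 * (((∑ i, γ i) 2 : ℕ) : ℝ) ≤ 3 * μ)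
  · exact_mod_cast (by nlinarith : (((∑ i, γ i) 1 : ℕ) : ℝ) ≤ 2 * μ)
  · exact_mod_cast (by linarith : (((∑ i, σ i) 1 : ℕ) : ℝ) ≤ μ)

end Pool.Agent.P.MP_6149fc_ag.V18

end
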