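import Pool.Agent.P.MP_6149fc_ag.V18.StepOrd
import Pool.Agent.P.MP_6149fc_ag.V18.StepDeg
import Pool.Agent.P.MP_6149fc_ag.V18.StepWall
import Pool.Agent.P.MP_6149fc_ag.V18.StepBlow
import Pool.Agent.P.MP_6149fc_ag.V18.StepCvx1
import Pool.Agent.P.MP_6149fc_ag.V18.StepCvx2
import Pool.Agent.P.MP_6149fc_ag.V18.StepPtA1
import Pool.Agent.P.MP_6149fc_ag.V18.StepPtA2
import Pool.Agent.P.MP_6149fc_ag.V18.StepPtB
import Pool.Agent.P.MP_6149fc_ag.V18.StepPtE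
import Pool.Agent.P.MP_6149fc_ag.V18.StepLoc
import Pool.Agent.P.MP_6149fc_ag.V18.StepPar
import Pool.Agent.P.MP_6149fc_ag.V18.StepSmo
import Pool.Agent.P.MP_6149fc_ag.V18.StepNf1
import Pool.Agent.P.MP_6149fc_ag.V18.StepNf2
import Pool.Agent.P.MP_6149fc_ag.V18.StepAut
import Pool.Agent.P.MP_6149fc_ag.V18.StepGlob

/-! All steps, unconditionally. -/

namespace Pool.Agent.P.MP_6149fc_ag.V18

theorem t_BR3 : S_BR3 := p_BR3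
theorem t_NULL2 : S_NULL2 := p_NULL2
theorem t_SEL : S_SEL := p_SEL
theorem t_RKA : S_RKA := p_RKA
theorem t_ARC1 : S_ARC1 := p_ARC1 t_RKA
theorem t_RKC : S_RKC := p_RKC t_RKA
theorem t_BC : S_BC := p_BC
theorem t_COUNT : S_COUNT := p_COUNT t_RKA
theorem t_REDUCE : S_REDUCE := p_REDUCE
theorem t_DEG0B : S_DEG0B := p_DEG0B
theorem t_DEG0 : S_DEG0 := p_DEG0 t_COUNT t_REDUCE t_DEG0B t_RKA
theorem t_SUBC : S_SUBC := p_SUBC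
theorem t_DEGR : S_DEGR := p_DEGR t_DEG0 t_SUBC t_RKA
theorem t_DEG : S_DEG := p_DEG t_DEGR
theorem t_MONO : S_MONO := p_MONO
theorem t_ORD : S_ORD := p_ORD t_RKA
theorem t_JET2 : S_JET2 := p_JET2 t_DEG t_MONO t_ORD
theorem t_ADM : S_ADM := p_ADM
theorem t_ARC2 : S_ARC2 := p_ARC2 t_RKC t_BC t_JET2 t_ADM
theorem t_BR1 : S_BR1 := p_BR1
theorem t_BR2 : S_BR2 := p_BR2
theorem t_SMB : S_SMB := p_SMB t_BR2 t_BR3
theorem t_TRD : S_TRD := p_TRD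
theorem t_CHK : S_CHK := p_CHK
theorem t_TRANS : S_TRANS := p_TRANS t_TRD t_CHK
theorem t_AUTG : S_AUTG := p_AUTG
theorem t_MOVD : S_MOVD := p_MOVD
theorem t_TAN6 : S_TAN6 := p_TAN6
theorem t_SM0 : S_SM0 := p_SM0 t_TAN6
theorem t_CLO : S_CLO := p_CLO t_AUTG t_MOVD t_SM0
theorem t_NFE1 : S_NFE1 := p_NFE1
theorem t_NFE0 : S_NFE0 := p_NFE0 t_NFE1
theorem t_NFA : S_NFA := p_NFA t_NFE0
theorem t_NFB : S_NFB := p_NFB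
theorem t_NF : S_NF := p_NF t_NFA t_NFB
theorem t_IFTE : S_IFTE := p_IFTE
theorem t_VOLE : S_VOLE := p_VOLE t_CHK
theorem t_VOLI : S_VOLI := p_VOLI
theorem t_GROBA : S_GROBA := p_GROBA
theorem t_GROBC : S_GROBC := p_GROBC
theorem t_GROB : S_GROB := p_GROB t_GROBA t_GROBC
theorem t_VOLN : S_VOLN := p_VOLN
theorem t_VOL : S_VOL := p_VOL t_CHK t_VOLE t_VOLI t_GROB t_VOLN
theorem t_IFTU : S_IFTU := p_IFTU
theorem t_PARF : S_PARF := p_PARF t_IFTU t_CHK t_BC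
theorem t_PARG : S_PARG := p_PARG t_IFTE t_CHK t_VOL t_PARF
theorem t_BODY0 : S_BODY0 := p_BODY0
theorem t_SB1 : S_SB1 := p_SB1
theorem t_SB : S_SB := p_SB t_BODY0 t_SB1
theorem t_TWOFLAG : S_TWOFLAG := p_TWOFLAG
theorem t_RED : S_RED := p_RED t_TWOFLAG
theorem t_ENGS : S_ENGS := p_ENGS t_RED t_JET2
theorem t_SIMPLE : S_SIMPLE := p_SIMPLE t_ADM t_SB t_ENGS
theorem t_TRAP1 : S_TRAP1 := p_TRAP1
theorem t_TRAP : S_TRAP := p_TRAP t_TRAP1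
theorem t_CERT1 : S_CERT1 := p_CERT1 t_TRAP
theorem t_SLICE1 : S_SLICE1 := p_SLICE1
theorem t_SLICE2 : S_SLICE2 := p_SLICE2
theorem t_CRA : S_CRA := p_CRA
theorem t_CRL : S_CRL := p_CRL t_CRA
theorem t_CRT : S_CRT := p_CRT
theorem t_CRIT : S_CRIT := p_CRIT t_CRT
theorem t_CERT : S_CERT := p_CERT t_CERT1 t_SLICE1 t_SLICE2 t_CRL t_CRIT
theorem t_PA0A : S_PA0A := p_PA0A
theorem t_LA0A : S_LA0A := p_LA0A t_SIMPLE t_CERT t_PA0A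
theorem t_PA0B : S_PA0B := p_PA0B
theorem t_LA0B : S_LA0B := p_LA0B t_SIMPLE t_CERT t_PA0B
theorem t_QA0 : S_QA0 := p_QA0 t_PARG t_LA0A t_LA0B
theorem t_PA1I : S_PA1I := p_PA1I
theorem t_LA1I : S_LA1I := p_LA1I t_SIMPLE t_CERT t_PA1I
theorem t_PA1J : S_PA1J := p_PA1J
theorem t_LA1J : S_LA1J := p_LA1J t_SIMPLE t_CERT t_PA1J
theorem t_SML : S_SML := p_SML t_TAN6
theorem t_QA1 : S_QA1 := p_QA1 t_PARG t_LA1I t_LA1J t_SML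
theorem t_PA21 : S_PA21 := p_PA21
theorem t_PA22 : S_PA22 := p_PA22
theorem t_PA23 : S_PA23 := p_PA23
theorem t_PA24 : S_PA24 := p_PA24
theorem t_PA25 : S_PA25 := p_PA25
theorem t_LA2 : S_LA2 := p_LA2 t_SIMPLE t_CERT t_PA21 t_PA22 t_PA23 t_PA24 t_PA25
theorem t_SMW : S_SMW := p_SMW t_TAN6
theorem t_QA2 : S_QA2 := p_QA2 t_PARG t_LA2 t_SML t_SMW
theorem t_TWO2 : S_TWO2 := p_TWO2 t_TWOFLAG
theorem t_ENGY : S_ENGY := p_ENGY t_TWO2 t_ADM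
theorem t_JC1 : S_JC1 := p_JC1
theorem t_JC2 : S_JC2 := p_JC2
theorem t_JC3A : S_JC3A := p_JC3A
theorem t_CFA : S_CFA := p_CFA
theorem t_JC3 : S_JC3 := p_JC3 t_JC3A t_RKA t_CFA
theorem t_TRUNC : S_TRUNC := p_TRUNC t_SUBC t_ORD
theorem t_JC : S_JC := p_JC t_JC1 t_JC2 t_JC3 t_TRUNC
theorem t_ENGC : S_ENGC := p_ENGC t_RED t_ENGY t_DEG t_JC t_ADM
theorem t_WALL : S_WALL := p_WALL t_ADM t_SB t_ENGC
theorem t_PA31 : S_PA31 := p_PA31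
theorem t_PA32 : S_PA32 := p_PA32
theorem t_PA33 : S_PA33 := p_PA33
theorem t_PA34 : S_PA34 := p_PA34
theorem t_LA3 : S_LA3 := p_LA3 t_SIMPLE t_WALL t_CERT t_PA31 t_PA32 t_PA33 t_PA34
theorem t_EIG : S_EIG := p_EIG
theorem t_QA3 : S_QA3 := p_QA3 t_PARG t_LA3 t_SML t_EIG
theorem t_PB1 : S_PB1 := p_PB1
theorem t_LB1 : S_LB1 := p_LB1 t_SIMPLE t_CERT t_PB1
theorem t_QB1 : S_QB1 := p_QB1 t_PARG t_LB1 t_SML t_SMW
theorem t_PB21 : S_PB21 := p_PB21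
theorem t_PB22 : S_PB22 := p_PB22
theorem t_PB23 : S_PB23 := p_PB23
theorem t_LB2 : S_LB2 := p_LB2 t_SIMPLE t_WALL t_CERT t_PB21 t_PB22 t_PB23
theorem t_QB2 : S_QB2 := p_QB2 t_PARG t_LB2 t_SML t_SMW t_EIG
theorem t_PB3A : S_PB3A := p_PB3A
theorem t_LB3A : S_LB3A := p_LB3A t_WALL t_CERT t_PB3A
theorem t_GR : S_GR := p_GR
theorem t_GRED : S_GRED := p_GRED t_RED t_DEG
theorem t_CHIND : S_CHIND := p_CHIND t_BC
theorem t_PULL : S_PULL := p_PULL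
theorem t_KB0 : S_KB0 := p_KB0 t_CHIND t_PULL t_TWO2
theorem t_PULLB : S_PULLB := p_PULLB
theorem t_CHARTS : S_CHARTS := p_CHARTS
theorem t_PTYZ : S_PTYZ := p_PTYZ
theorem t_PTT : S_PTT := p_PTT t_ADM
theorem t_PTP : S_PTP := p_PTP
theorem t_ALGT : S_ALGT := p_ALGT
theorem t_PTL : S_PTL := p_PTL t_ADM t_ALGT
theorem t_PTS : S_PTS := p_PTS t_ADM
theorem t_SUMS : S_SUMS := p_SUMS t_ADM t_SB t_CERT t_PULL t_PULLB t_CHARTS t_PTYZ t_PTT t_PTP t_PTL t_PTS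
theorem t_RKB : S_RKB := p_RKB t_RKA
theorem t_REGION : S_REGION := p_REGION t_DEGR t_MONO t_ORD t_RKB t_BC
theorem t_REGF : S_REGF := p_REGF t_TWO2 t_REGION
theorem t_EYZ : S_EYZ := p_EYZ t_ADM t_REGF t_SUMS
theorem t_ARCT : S_ARCT := p_ARCT t_RKA t_CFA
theorem t_RECEN : S_RECEN := p_RECEN t_RKA t_RKB t_CFA
theorem t_CHJET : S_CHJET := p_CHJET t_CHIND t_PULL t_TWO2 t_REGION t_SUBC t_BC
theorem t_ET : S_ET := p_ET t_ADM t_ARCT t_RECEN t_CHJET t_SUMS t_CHARTS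
theorem t_ARCX : S_ARCX := p_ARCX t_RKA t_CFA
theorem t_EX : S_EX := p_EX t_ARCX
theorem t_EXG : S_EXG := p_EXG t_RECEN t_CHJET
theorem t_EXP : S_EXP := p_EXP t_ADM t_EXG t_SUMS t_CHARTS
theorem t_EXS : S_EXS := p_EXS t_ADM t_EXG t_SUMS t_CHARTS
theorem t_EALL : S_EALL := p_EALL t_ADM t_TRUNC t_KB0 t_SUMS t_CHARTS t_EYZ t_ET t_EX t_EXP t_EXS
theorem t_PB3B : S_PB3B := p_PB3B
theorem t_LB3B : S_LB3B := p_LB3B t_ADM t_GR t_GRED t_EALL t_PB3B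
theorem t_QB3 : S_QB3 := p_QB3 t_PARG t_LB3A t_LB3B t_SML t_EIG
theorem t_MOVE0 : S_MOVE0 := p_MOVE0 t_TRANS t_AUTG t_CLO t_NF t_QA0 t_QA1 t_QA2 t_QA3 t_QB1 t_QB2 t_QB3
theorem t_PARB : S_PARB := p_PARB t_BR1 t_BR3 t_SMB t_MOVE0
theorem t_FIN1 : S_FIN1 := p_FIN1 t_RKA t_CFA
theorem t_FIN2 : S_FIN2 := p_FIN2 t_FIN1 t_JET2 t_ADM
theorem t_FINV : S_FINV := p_FINV t_FIN1
theorem t_FINW : S_FINW := p_FINW
theorem t_FINS : S_FINS := p_FINS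
theorem t_CONV2 : S_CONV2 := p_CONV2
theorem t_FIN : S_FIN := p_FIN t_FIN2 t_FINV t_FINW t_FINS t_CONV2 t_ADM
theorem t_MAIN : S_MAIN := p_MAIN t_BR3 t_NULL2 t_SEL t_ARC1 t_ARC2 t_PARB t_FIN

end Pool.Agent.P.MP_6149fc_ag.V18
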