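import Pool.Agent.P.MP_6149fc_ag.Iface

/-! Power series in three variables: orders, initial exponents, leading forms, arcs. -/

set_option autoImplicit false

namespace Pool.Agent.P.MP_6149fc_ag.V18

open scoped ENNReal
open MvPowerSeries (coeff X constantCoeff monomial)

/-- Power series in three variables. -/
abbrev PS (κ : Type) : Type := MvPowerSeries (Fin 3) κ
/-- Exponents. -/
abbrev Ex : Type := Fin 3 →₀ ℕ
/-- Three integer rows. -/
abbrev Rows : Type := Fin 3 → Fin 3 → ℤ
/-- Values of the three rows, ordered lexicographically. -/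
abbrev Key : Type := ℤ ×ₗ ℤ ×ₗ ℤ

/-! ### Exponents and keys -/

def dt (r : Fin 3 → ℤ) (α : Ex) : ℤ := r 0 * α 0 + r 1 * α 1 + r 2 * α 2

def kk (A : Rows) (α : Ex) : Key := toLex (dt (A 0) α, toLex (dt (A 1) α, dt (A 2) α))

def wt (w : Fin 3 → ℕ) (α : Ex) : ℕ := w 0 * α 0 + w 1 * α 1 + w 2 * α 2

noncomputable def ex (a b c : ℕ) : Ex := Finsupp.equivFunOnFinite.symm ![a, b, c]

@[simp] theorem ex_0 (a b c : ℕ) : ex a b c 0 = a := rfl
@[simp] theorem ex_1 (a b c : ℕ) : ex a b c 1 = b := rfl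
@[simp] theorem ex_2 (a b c : ℕ) : ex a b c 2 = c := rfl

theorem ex_ext {α β : Ex} (h0 : α 0 = β 0) (h1 : α 1 = β 1) (h2 : α 2 = β 2) : α = β := by
  ext i; fin_cases i <;> assumption

theorem ex_eta (α : Ex) : ex (α 0) (α 1) (α 2) = α := ex_ext rfl rfl rfl

theorem ex_add (a b c a' b' c' : ℕ) : ex a b c + ex a' b' c' = ex (a + a') (b + b') (c + c') :=
  ex_ext rfl rfl rfl

theorem ex_zero : ex 0 0 0 = 0 := ex_ext rfl rfl rfl

theorem dt_add (r : Fin 3 → ℤ) (α β : Ex) : dt r (α + β) = dt r α + dt r β := by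
  simp only [dt, Finsupp.add_apply]; push_cast; ring

theorem kk_add (A : Rows) (α β : Ex) : kk A (α + β) = kk A α + kk A β := by
  simp only [kk, dt_add]; rfl

theorem kk_zero (A : Rows) : kk A 0 = 0 := by
  simp only [kk, dt, Finsupp.coe_zero, Pi.zero_apply, Nat.cast_zero, mul_zero, add_zero]; rfl

theorem kk_sum {ι : Type} (A : Rows) (s : Finset ι) (γ : ι → Ex) :
    kk A (∑ i ∈ s, γ i) = ∑ i ∈ s, kk A (γ i) := by
  classical
  induction s using Finset.induction_on with
  | empty => simpa using kk_zero A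
  | insert a s ha ih => rw [Finset.sum_insert ha, Finset.sum_insert ha, kk_add, ih]

theorem wt_add (w : Fin 3 → ℕ) (α β : Ex) : wt w (α + β) = wt w α + wt w β := by
  simp only [wt, Finsupp.add_apply]; ring

theorem kk_lt_iff (A : Rows) (α β : Ex) : kk A α < kk A β ↔ dt (A 0) α < dt (A 0) β ∨
    dt (A 0) α = dt (A 0) β ∧ (dt (A 1) α < dt (A 1) β ∨
      dt (A 1) α = dt (A 1) β ∧ dt (A 2) α < dt (A 2) β) := by
  simp only [kk, Prod.Lex.toLex_lt_toLex]

theorem kk_eq_iff (A : Rows) (α β : Ex) : kk A α = kk A β ↔ dt (A 0) α = dt (A 0) β ∧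
    dt (A 1) α = dt (A 1) β ∧ dt (A 2) α = dt (A 2) β := by
  simp only [kk, toLex_inj, Prod.mk.injEq]

/-- Decidable comparison of the keys of two explicit exponents (use `by decide`). -/
def ltA (A : Rows) (a b c a' b' c' : ℕ) : Prop :=
  A 0 0 * a + A 0 1 * b + A 0 2 * c < A 0 0 * a' + A 0 1 * b' + A 0 2 * c' ∨
  A 0 0 * a + A 0 1 * b + A 0 2 * c = A 0 0 * a' + A 0 1 * b' + A 0 2 * c' ∧
  (A 1 0 * a + A 1 1 * b + A 1 2 * c < A 1 0 * a' + A 1 1 * b' + A 1 2 * c' ∨
  A 1 0 * a + A 1 1 * b + A 1 2 * c = A 1 0 * a' + A 1 1 * b' + A 1 2 * c' ∧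
  A 2 0 * a + A 2 1 * b + A 2 2 * c < A 2 0 * a' + A 2 1 * b' + A 2 2 * c')

instance (A : Rows) (a b c a' b' c' : ℕ) : Decidable (ltA A a b c a' b' c') := by
  unfold ltA; infer_instance

theorem kk_lt_of_ltA {A : Rows} {a b c a' b' c' : ℕ} (h : ltA A a b c a' b' c') :
    kk A (ex a b c) < kk A (ex a' b' c') := (kk_lt_iff A _ _).2 h

/-- The rows define a monomial well-order. -/
def Adm (A : Rows) : Prop :=
  Function.Injective (kk A) ∧ WellFounded fun α β : Ex => kk A α < kk A β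

/-- A decidable sufficient condition for `Adm`. -/
def admB (A : Rows) : Prop :=
  A 0 0 * (A 1 1 * A 2 2 - A 1 2 * A 2 1) - A 0 1 * (A 1 0 * A 2 2 - A 1 2 * A 2 0) +
    A 0 2 * (A 1 0 * A 2 1 - A 1 1 * A 2 0) ≠ 0 ∧ ((∀ j, 0 < A 0 j) ∨ ∀ i j, 0 ≤ A i j)

instance (A : Rows) : Decidable (admB A) := by unfold admB; infer_instance

/-- All keys are nonnegative. -/
def Pos (A : Rows) : Prop := ∀ α, 0 ≤ kk A α

theorem pos_of_nonneg {A : Rows} (h : ∀ i j, 0 ≤ A i j) : Pos A := fun α => by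
  have hd : ∀ i, 0 ≤ dt (A i) α := fun i => by
    have := h i 0; have := h i 1; have := h i 2
    unfold dt; positivity
  rw [← kk_zero A, ← not_lt, kk_lt_iff]
  have h0 := hd 0; have h1 := hd 1; have h2 := hd 2
  simp only [dt, Finsupp.coe_zero, Pi.zero_apply, Nat.cast_zero, mul_zero, add_zero] at *
  omega

theorem Adm.pos {A : Rows} (h : Adm A) : Pos A := fun α => by
  by_contra hc
  obtain ⟨β, -, hβ⟩ := h.2.has_min Set.univ ⟨0, trivial⟩
  refine hβ (β + α) trivial ?_
  rw [kk_add]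
  exact add_lt_of_neg_right _ (not_le.1 hc)

/-- `A` refines the coarser order `B`. -/
def Refines (A B : Rows) : Prop := ∀ α β, kk B α < kk B β → kk A α < kk A β

/-- The order given by a single weight. -/
def row1 (w : Fin 3 → ℕ) : Rows := ![fun j => (w j : ℤ), 0, 0]

/-- The first row of `A` is the weight `w`. -/
def First (A : Rows) (w : Fin 3 → ℕ) : Prop := ∀ j, A 0 j = w j

instance (A : Rows) (w : Fin 3 → ℕ) : Decidable (First A w) := by unfold First; infer_instance

theorem First.dt {A : Rows} {w : Fin 3 → ℕ} (h : First A w) (α : Ex) :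
    dt (A 0) α = wt w α := by
  simp only [V18.dt, wt, h 0, h 1, h 2]; push_cast; ring

theorem First.lt {A : Rows} {w : Fin 3 → ℕ} (h : First A w) {α β : Ex} (hl : wt w α < wt w β) :
    kk A α < kk A β := by
  rw [kk_lt_iff, h.dt, h.dt]; exact Or.inl (by exact_mod_cast hl)

theorem kk_row1 (w : Fin 3 → ℕ) (α : Ex) : kk (row1 w) α = toLex ((wt w α : ℤ), toLex (0, 0)) := by
  have h : First (row1 w) w := fun j => rfl
  have h1 : dt (row1 w 1) α = 0 := by simp [dt, row1]
  have h2 : dt (row1 w 2) α = 0 := by simp [dt, row1]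
  rw [kk, h.dt, h1, h2]

theorem First.refines {A : Rows} {w : Fin 3 → ℕ} (h : First A w) : Refines A (row1 w) := by
  intro α β hl
  rw [kk_row1, kk_row1, Prod.Lex.toLex_lt_toLex] at hl
  refine h.lt ?_
  rcases hl with hl | hl
  · exact Int.ofNat_lt.1 hl
  · exact absurd hl.2 (lt_irrefl _)

/-! ### Series supported on a set of exponents -/

section series
variable {κ : Type} [Field κ]

/-- Series all of whose exponents satisfy `P`. -/
def On (κ : Type) [Field κ] (P : Ex → Prop) : Submodule κ (PS κ) where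
  carrier := {f | ∀ α, coeff α f ≠ 0 → P α}
  add_mem' := fun {f g} hf hg α h => by
    by_cases h1 : coeff α f = 0
    · exact hg α (by simpa [h1] using h)
    · exact hf α h1
  zero_mem' := fun α h => absurd (map_zero _) h
  smul_mem' := fun c f hf α h => hf α fun h1 => h (by simp [h1])

theorem mem_On {P : Ex → Prop} {f : PS κ} : f ∈ On κ P ↔ ∀ α, coeff α f ≠ 0 → P α := Iff.rfl

theorem supp_mul {f g : PS κ} {α : Ex} (h : coeff α (f * g) ≠ 0) :
    ∃ β γ, β + γ = α ∧ coeff β f ≠ 0 ∧ coeff γ g ≠ 0 := by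
  classical
  rw [MvPowerSeries.coeff_mul] at h
  obtain ⟨⟨a, b⟩, hab, h⟩ := Finset.exists_ne_zero_of_sum_ne_zero h
  exact ⟨a, b, Finset.HasAntidiagonal.mem_antidiagonal.1 hab, left_ne_zero_of_mul h,
    right_ne_zero_of_mul h⟩

theorem On_mul {P Q S : Ex → Prop} (h : ∀ β γ, P β → Q γ → S (β + γ)) {f g : PS κ}
    (hf : f ∈ On κ P) (hg : g ∈ On κ Q) : f * g ∈ On κ S := fun α hα => by
  obtain ⟨β, γ, rfl, h1, h2⟩ := supp_mul hα
  exact h β γ (hf β h1) (hg γ h2)

theorem monomial_mem_On {P : Ex → Prop} {γ : Ex} (h : P γ) (c : κ) : monomial γ c ∈ On κ P := by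
  classical
  intro α hα
  rw [MvPowerSeries.coeff_monomial] at hα
  split_ifs at hα with h1
  · rwa [h1]
  · exact absurd rfl hα

/-- The monomial with exponent `(a, b, c)`. -/
noncomputable def mon (κ : Type) [Field κ] (a b c : ℕ) : PS κ := X 0 ^ a * X 1 ^ b * X 2 ^ c

theorem mon_eq (a b c : ℕ) : mon κ a b c = monomial (ex a b c) 1 := by
  simp only [mon, MvPowerSeries.X_pow_eq, MvPowerSeries.monomial_mul_monomial, mul_one]
  congr 2
  refine ex_ext ?_ ?_ ?_ <;> simp

theorem X_eq_monomial (j : Fin 3) : (X j : PS κ) = monomial (Finsupp.single j 1) 1 := rfl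

/-! ### The weight filtration and leading forms -/

/-- All terms have weight at least `k`. -/
def Ge (w : Fin 3 → ℕ) (k : ℕ) (f : PS κ) : Prop := f ∈ On κ fun α => k ≤ wt w α
/-- All terms have weight `k`. -/
def Hm (w : Fin 3 → ℕ) (k : ℕ) (f : PS κ) : Prop := f ∈ On κ fun α => wt w α = k
/-- `g` is the part of weight `k` of `f` and `f` has no terms of smaller weight. -/
def Ld (w : Fin 3 → ℕ) (k : ℕ) (f g : PS κ) : Prop := Hm w k g ∧ Ge w (k + 1) (f - g)

variable {w : Fin 3 → ℕ} {k l : ℕ} {f g f' g' : PS κ}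

theorem Ge.zero : Ge w k (0 : PS κ) := Submodule.zero_mem _
theorem Ge.triv (f : PS κ) : Ge w 0 f := fun _ _ => Nat.zero_le _
theorem Ge.add (h : Ge w k f) (h' : Ge w k g) : Ge w k (f + g) := Submodule.add_mem _ h h'
theorem Ge.sub (h : Ge w k f) (h' : Ge w k g) : Ge w k (f - g) := Submodule.sub_mem _ h h'
theorem Ge.neg (h : Ge w k f) : Ge w k (-f) := Submodule.neg_mem _ h
theorem Ge.smul (c : κ) (h : Ge w k f) : Ge w k (c • f) := Submodule.smul_mem _ c h
theorem Ge.mono (h : Ge w k f) (hl : l ≤ k) : Ge w l f := fun α hα => hl.trans (h α hα)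
theorem Ge.mul (h : Ge w k f) (h' : Ge w l g) : Ge w (k + l) (f * g) :=
  On_mul (fun β γ h1 h2 => by rw [wt_add]; exact Nat.add_le_add h1 h2) h h'
/-- Product with a free target: close the side goal by `by norm_num` or `by decide`. -/
theorem Ge.mul' {n : ℕ} (h : Ge w k f) (h' : Ge w l g) (hn : n ≤ k + l) : Ge w n (f * g) :=
  (h.mul h').mono hn
theorem Ge.pow (h : Ge w k f) (n : ℕ) : Ge w (n * k) (f ^ n) := by
  induction n with
  | zero => simpa using Ge.triv _
  | succ n ih => rw [pow_succ, Nat.succ_mul]; exact ih.mul h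
theorem Ge.congr (h : Ge w k f) (e : g = f) : Ge w k g := e ▸ h
/-- A series without constant term has weight at least the least weight of a variable. -/
theorem Ge.of_const {n : ℕ} (h : constantCoeff f = 0) (hw : ∀ j, n ≤ w j) : Ge w n f := by
  intro α hα
  have h0 : α ≠ 0 := by
    rintro rfl
    exact hα (by simpa using h)
  have h1 : ¬ (α 0 = 0 ∧ α 1 = 0 ∧ α 2 = 0) := fun h1 => h0 (ex_ext h1.1 h1.2.1 h1.2.2)
  have a0 := Nat.mul_le_mul_right (α 0) (hw 0)
  have a1 := Nat.mul_le_mul_right (α 1) (hw 1)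
  have a2 := Nat.mul_le_mul_right (α 2) (hw 2)
  have a3 : n * 1 ≤ n * (α 0 + α 1 + α 2) := Nat.mul_le_mul_left _ (by omega)
  unfold wt
  nlinarith

theorem Hm.zero : Hm w k (0 : PS κ) := Submodule.zero_mem _
theorem Hm.add (h : Hm w k f) (h' : Hm w k g) : Hm w k (f + g) := Submodule.add_mem _ h h'
theorem Hm.sub (h : Hm w k f) (h' : Hm w k g) : Hm w k (f - g) := Submodule.sub_mem _ h h'
theorem Hm.neg (h : Hm w k f) : Hm w k (-f) := Submodule.neg_mem _ h
theorem Hm.smul (c : κ) (h : Hm w k f) : Hm w k (c • f) := Submodule.smul_mem _ c h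
theorem Hm.mul (h : Hm w k f) (h' : Hm w l g) : Hm w (k + l) (f * g) :=
  On_mul (fun β γ h1 h2 => by rw [wt_add, h1, h2]) h h'
theorem Hm.ge (h : Hm w k f) : Ge w k f := fun α hα => (h α hα).ge
theorem Hm.C (c : κ) : Hm w 0 (MvPowerSeries.C c : PS κ) :=
  monomial_mem_On (γ := 0) (by simp [wt]) c
theorem Hm.one : Hm w 0 (1 : PS κ) := by simpa using Hm.C (w := w) (1 : κ)
theorem Hm.X (j : Fin 3) : Hm w (w j) (X j : PS κ) :=
  monomial_mem_On (γ := Finsupp.single j 1) (by fin_cases j <;> simp [wt]) 1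
theorem Hm.pow (h : Hm w k f) (n : ℕ) : Hm w (n * k) (f ^ n) := by
  induction n with
  | zero => simpa using Hm.one
  | succ n ih => rw [pow_succ, Nat.succ_mul]; exact ih.mul h
theorem Hm.prod {ι : Type} (s : Finset ι) {g : ι → PS κ} {k : ι → ℕ}
    (h : ∀ i, Hm w (k i) (g i)) : Hm w (∑ i ∈ s, k i) (∏ i ∈ s, g i) := by
  classical
  induction s using Finset.induction_on with
  | empty => simpa using Hm.one
  | insert a s ha ih => rw [Finset.sum_insert ha, Finset.prod_insert ha]; exact (h a).mul ih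

theorem Hm.ld (h : Hm w k f) : Ld w k f f := ⟨h, by rw [sub_self]; exact Ge.zero⟩
theorem Ld.X (j : Fin 3) : Ld w (w j) (X j : PS κ) (X j) := (Hm.X j).ld
theorem Ld.one : Ld w 0 (1 : PS κ) 1 := Hm.one.ld
theorem Ld.ge (h : Ld w k f g) : Ge w k f :=
  ((h.2.mono (Nat.le_succ k)).add h.1.ge).congr (by ring)
theorem Ge.ld (h : Ge w (k + 1) f) : Ld w k f 0 := ⟨Hm.zero, by rwa [sub_zero]⟩
theorem Ld.ge_succ (h : Ld w k f 0) : Ge w (k + 1) f := by simpa using h.2
theorem Ld.add (h : Ld w k f g) (h' : Ld w k f' g') : Ld w k (f + f') (g + g') :=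
  ⟨h.1.add h'.1, (h.2.add h'.2).congr (by ring)⟩
theorem Ld.sub (h : Ld w k f g) (h' : Ld w k f' g') : Ld w k (f - f') (g - g') :=
  ⟨h.1.sub h'.1, (h.2.sub h'.2).congr (by ring)⟩
theorem Ld.neg (h : Ld w k f g) : Ld w k (-f) (-g) :=
  ⟨h.1.neg, h.2.neg.congr (by ring)⟩
theorem Ld.smul (c : κ) (h : Ld w k f g) : Ld w k (c • f) (c • g) :=
  ⟨h.1.smul c, (h.2.smul c).congr (smul_sub c f g).symm⟩
theorem Ld.mul (h : Ld w k f g) (h' : Ld w l f' g') : Ld w (k + l) (f * f') (g * g') :=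
  ⟨h.1.mul h'.1, ((h.2.mul' h'.ge (by omega)).add (h.1.ge.mul' h'.2 (by omega))).congr (by ring)⟩
theorem Ld.pow (h : Ld w k f g) (n : ℕ) : Ld w (n * k) (f ^ n) (g ^ n) := by
  induction n with
  | zero => simpa using Ld.one
  | succ n ih => rw [pow_succ, pow_succ, Nat.succ_mul]; exact ih.mul h
theorem Ld.add_ge (h : Ld w k f g) (h' : Ge w (k + 1) f') : Ld w k (f + f') g :=
  ⟨h.1, (h.2.add h').congr (by ring)⟩
theorem Ld.sub_ge (h : Ld w k f g) (h' : Ge w (k + 1) f') : Ld w k (f - f') g :=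
  ⟨h.1, (h.2.sub h').congr (by ring)⟩
theorem Ld.congr (h : Ld w k f g) (e : f' = f) (e' : g' = g) : Ld w k f' g' := e ▸ e' ▸ h

/-! ### Initial exponents -/

/-- `γ` is the exponent of the smallest term of `f`. -/
def Init (A : Rows) (f : PS κ) (γ : Ex) : Prop :=
  coeff γ f ≠ 0 ∧ ∀ α, coeff α f ≠ 0 → α ≠ γ → kk A γ < kk A α

/-- Series all of whose terms are larger than `γ`. -/
def GtK (κ : Type) [Field κ] (A : Rows) (γ : Ex) : Submodule κ (PS κ) :=
  On κ fun α => kk A γ < kk A α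

/-- `g` is the part of `f` of key `k` and the other terms of `f` have larger key. -/
def LeadK (A : Rows) (k : Key) (f g : PS κ) : Prop :=
  (∀ α, coeff α g ≠ 0 → kk A α = k) ∧ ∀ α, coeff α (f - g) ≠ 0 → k < kk A α

variable {A : Rows} {γ η : Ex}

theorem Init.le (h : Init A f γ) {α : Ex} (hα : coeff α f ≠ 0) : kk A γ ≤ kk A α := by
  by_cases e : α = γ
  · rw [e]
  · exact (h.2 α hα e).le

theorem Init.unique (h : Init A f γ) (h' : Init A f η) : γ = η := by
  by_contra e
  exact absurd (h.2 η h'.1 (Ne.symm e)) (not_lt.2 (h'.le h.1))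

theorem Init.ne_zero (h : Init A f γ) : f ≠ 0 := fun e => h.1 (by simp [e])

theorem Init.add_gt (h : Init A f γ) (he : g ∈ GtK κ A γ) : Init A (f + g) γ := by
  have h0 : coeff γ g = 0 := by
    by_contra h1
    exact lt_irrefl _ (he γ h1)
  refine ⟨by rw [map_add, h0, add_zero]; exact h.1, fun α hα e => ?_⟩
  by_cases h1 : coeff α f = 0
  · exact he α (by simpa [h1] using hα)
  · exact h.2 α h1 e

theorem Init.smul (h : Init A f γ) {c : κ} (hc : c ≠ 0) : Init A (c • f) γ :=
  ⟨by simpa [hc] using h.1, fun α hα => h.2 α fun h1 => hα (by simp [h1])⟩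

theorem Init.neg (h : Init A f γ) : Init A (-f) γ := by
  simpa using h.smul (neg_ne_zero.2 (one_ne_zero (α := κ)))

theorem Init.congr (h : Init A f γ) (e : g = f) : Init A g γ := e ▸ h

theorem init_monomial (γ : Ex) {c : κ} (hc : c ≠ 0) : Init A (monomial γ c) γ :=
  ⟨by simpa using hc, fun α hα e => absurd (monomial_mem_On (P := fun α => α = γ) rfl c α hα) e⟩

theorem init_mon (a b c : ℕ) : Init A (mon κ a b c) (ex a b c) := by
  rw [mon_eq]; exact init_monomial _ one_ne_zero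

theorem init_one : Init A (1 : PS κ) 0 := init_monomial 0 one_ne_zero

theorem mon_gt {a b c a' b' c' : ℕ} (h : ltA A a b c a' b' c') :
    mon κ a' b' c' ∈ GtK κ A (ex a b c) := by
  rw [mon_eq]; exact monomial_mem_On (kk_lt_of_ltA h) _

/-- A nonzero multiple of a monomial plus larger terms. -/
theorem init_of {a b c : ℕ} {t : κ} {e : PS κ} (ht : t ≠ 0) (he : e ∈ GtK κ A (ex a b c))
    (h : g = t • mon κ a b c + e) : Init A g (ex a b c) :=
  (((init_mon a b c).smul ht).add_gt he).congr h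

theorem mul_mem_GtK (hA : Pos A) (he : f ∈ GtK κ A γ) (g : PS κ) : f * g ∈ GtK κ A γ :=
  On_mul (Q := fun _ => True) (fun β η h _ => by
    rw [kk_add]; exact lt_add_of_lt_of_nonneg h (hA η)) he fun _ _ => trivial

theorem init_unit (hA : Adm A) (h : constantCoeff f ≠ 0) : Init A f 0 :=
  ⟨by simpa using h, fun α _ e => lt_of_le_of_ne (by rw [kk_zero]; exact hA.pos α)
    fun h1 => e (hA.1 h1).symm⟩

theorem Init.mul (hf : Init A f γ) (hg : Init A g η) : Init A (f * g) (γ + η) := by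
  classical
  have key : ∀ a b, coeff a f ≠ 0 → coeff b g ≠ 0 → (a, b) ≠ (γ, η) →
      kk A (γ + η) < kk A (a + b) := fun a b ha hb hne => by
    rw [kk_add, kk_add]
    by_cases e : a = γ
    · subst e
      exact add_lt_add_of_le_of_lt le_rfl (hg.2 b hb fun e => hne (by rw [e]))
    · exact add_lt_add_of_lt_of_le (hf.2 a ha e) (hg.le hb)
  refine ⟨?_, fun α hα hne => ?_⟩
  · rw [MvPowerSeries.coeff_mul, Finset.sum_eq_single (γ, η)]
    · exact mul_ne_zero hf.1 hg.1
    · rintro ⟨a, b⟩ hab hne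
      by_contra h
      have := key a b (left_ne_zero_of_mul h) (right_ne_zero_of_mul h) hne
      rw [Finset.HasAntidiagonal.mem_antidiagonal.1 hab] at this
      exact lt_irrefl _ this
    · intro h
      rw [Finset.HasAntidiagonal.mem_antidiagonal] at h
      exact (h rfl).elim
  · obtain ⟨a, b, rfl, ha, hb⟩ := supp_mul hα
    refine key a b ha hb fun e => hne ?_
    rw [Prod.mk.injEq] at e
    rw [e.1, e.2]

theorem Init.prod {ι : Type} (s : Finset ι) {g : ι → PS κ} {γ : ι → Ex}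
    (h : ∀ i, Init A (g i) (γ i)) : Init A (∏ i ∈ s, g i) (∑ i ∈ s, γ i) := by
  classical
  induction s using Finset.induction_on with
  | empty => simpa using init_one
  | insert a s ha ih => rw [Finset.sum_insert ha, Finset.prod_insert ha]; exact (h a).mul ih

/-- The initial exponent of the leading form is the initial exponent. -/
theorem Ld.init (hA : First A w) (h : Ld w k f g) (hg : Init A g γ) : Init A f γ :=
  (hg.add_gt (g := f - g) fun α hα => hA.lt (by
    have := h.2 α hα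
    have := h.1 γ hg.1
    omega)).congr (by ring)

theorem Ld.leadK (h : Ld w k f g) : LeadK (row1 w) (toLex ((k : ℤ), toLex (0, 0))) f g :=
  ⟨fun α hα => by rw [kk_row1, h.1 α hα], fun α hα => by
    rw [kk_row1, Prod.Lex.toLex_lt_toLex]
    exact Or.inl (Int.ofNat_lt.2 (h.2 α hα))⟩

theorem LeadK.init {B : Rows} {k : Key} (hA : Refines A B) (h : LeadK B k f g) (hg : Init A g γ) :
    Init A f γ :=
  (hg.add_gt (g := f - g) fun α hα => hA _ _ (by
    rw [h.1 γ hg.1]; exact h.2 α hα)).congr (by ring)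

theorem Init.leadK (h : Init A f γ) : LeadK A (kk A γ) f (monomial γ (coeff γ f)) := by
  classical
  refine ⟨fun α hα => by rw [monomial_mem_On (P := fun α => α = γ) rfl _ α hα], fun α hα => ?_⟩
  rw [map_sub, MvPowerSeries.coeff_monomial] at hα
  by_cases e : α = γ
  · exact absurd (by simp [e]) hα
  · exact h.2 α (by simpa [e] using hα) e

theorem LeadK.le {k : Key} (h : LeadK A k f g) {α : Ex} (hα : coeff α f ≠ 0) : k ≤ kk A α := by
  by_cases h1 : coeff α g = 0
  · exact (h.2 α (by simpa [h1] using hα)).le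
  · exact (h.1 α h1).ge

theorem LeadK.mul {k l : Key} (h : LeadK A k f g) (h' : LeadK A l f' g') :
    LeadK A (k + l) (f * f') (g * g') := by
  refine ⟨On_mul (P := fun α => kk A α = k) (Q := fun α => kk A α = l)
    (fun β γ h1 h2 => by rw [kk_add, h1, h2]) h.1 h'.1, ?_⟩
  have e : f * f' - g * g' = (f - g) * f' + g * (f' - g') := by ring
  rw [e]
  refine (On κ fun α => k + l < kk A α).add_mem
    (On_mul (P := fun α => k < kk A α) (Q := fun α => l ≤ kk A α) (fun β γ h1 h2 => ?_) h.2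
      fun α hα => h'.le hα)
    (On_mul (P := fun α => kk A α = k) (Q := fun α => l < kk A α) (fun β γ h1 h2 => ?_) h.1 h'.2)
  · rw [kk_add]; exact add_lt_add_of_lt_of_le h1 h2
  · rw [kk_add]; exact add_lt_add_of_le_of_lt h1.ge h2

theorem LeadK.prod {ι : Type} (s : Finset ι) {f g : ι → PS κ} {k : ι → Key}
    (h : ∀ i, LeadK A (k i) (f i) (g i)) :
    LeadK A (∑ i ∈ s, k i) (∏ i ∈ s, f i) (∏ i ∈ s, g i) := by
  classical
  induction s using Finset.induction_on with
  | empty =>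
    simp only [Finset.sum_empty, Finset.prod_empty]
    exact ⟨fun α hα => by
      rw [monomial_mem_On (P := fun α => α = 0) rfl (1 : κ) α hα, kk_zero], by simp⟩
  | insert a s ha ih =>
    rw [Finset.sum_insert ha, Finset.prod_insert ha, Finset.prod_insert ha]; exact (h a).mul ih

/-- The leading form for a coarser order. -/
theorem exists_lead {B : Rows} (hA : Refines A B) (h : Init A f γ) :
    ∃ g, LeadK B (kk B γ) f g ∧ Init A g γ := by
  classical
  let g : PS κ := fun α => if kk B α = kk B γ then coeff α f else 0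
  have hg : ∀ α, coeff α g = if kk B α = kk B γ then coeff α f else 0 := fun α => rfl
  refine ⟨g, ⟨fun α hα => ?_, fun α hα => ?_⟩, ?_, fun α hα => h.2 α ?_⟩
  · by_contra e
    exact hα (by rw [hg, if_neg e])
  · rw [map_sub, hg] at hα
    by_cases e : kk B α = kk B γ
    · exact absurd (by rw [if_pos e, sub_self]) hα
    · rw [if_neg e, sub_zero] at hα
      exact lt_of_le_of_ne (not_lt.1 fun h1 => absurd (hA _ _ h1) (not_lt.2 (h.le hα))) (Ne.symm e)
  · rw [hg, if_pos rfl]; exact h.1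
  · intro e
    exact hα (by rw [hg, e, ite_self])

theorem LeadK.ld (h : LeadK (row1 w) (toLex ((k : ℤ), toLex (0, 0))) f g) : Ld w k f g := by
  refine ⟨fun α hα => ?_, fun α hα => ?_⟩
  · have := h.1 α hα
    rw [kk_row1, toLex_inj, Prod.mk.injEq] at this
    exact Int.ofNat_inj.1 this.1
  · have := h.2 α hα
    rw [kk_row1, Prod.Lex.toLex_lt_toLex] at this
    rcases this with h1 | h1
    · exact Int.ofNat_lt.1 h1
    · exact absurd h1.2 (lt_irrefl _)

theorem exists_ld (hA : First A w) (h : Init A f γ) : ∃ g, Ld w (wt w γ) f g ∧ Init A g γ := by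
  obtain ⟨g, h1, h2⟩ := exists_lead hA.refines h
  rw [kk_row1] at h1
  exact ⟨g, h1.ld, h2⟩

theorem exists_init (hA : Adm A) (hf : f ≠ 0) : ∃ γ, Init A f γ := by
  have hne : {α | coeff α f ≠ 0}.Nonempty := by
    by_contra h
    refine hf (MvPowerSeries.ext fun α => ?_)
    by_contra h'
    exact h ⟨α, by simpa using h'⟩
  obtain ⟨γ, hγ, hmin⟩ := hA.2.has_min _ hne
  exact ⟨γ, hγ, fun α hα e => lt_of_le_of_ne (not_lt.1 (hmin α hα)) fun h1 => e (hA.1 h1).symm⟩

/-- Series with distinct initial exponents are independent. -/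
theorem indep_of_init {ι : Type} {F : ι → PS κ} {γ : ι → Ex} (hF : ∀ i, Init A (F i) (γ i))
    (hγ : Function.Injective γ) : LinearIndependent κ F := by
  classical
  rw [linearIndependent_iff']
  intro s g hs i hi
  by_contra hg
  obtain ⟨j, hj, hmin⟩ := (s.filter fun i => g i ≠ 0).exists_min_image (fun i => kk A (γ i))
    ⟨i, Finset.mem_filter.2 ⟨hi, hg⟩⟩
  rw [Finset.mem_filter] at hj
  have h1 := congrArg (coeff (γ j)) hs
  simp only [map_sum, map_smul, smul_eq_mul, map_zero] at h1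
  rw [Finset.sum_eq_single j] at h1
  · exact mul_ne_zero hj.2 (hF j).1 h1
  · intro l hl hlj
    by_contra h
    have h2 := (hF l).2 (γ j) (right_ne_zero_of_mul h) fun e => hlj (hγ e).symm
    exact absurd h2 (not_lt.2 (hmin l (Finset.mem_filter.2 ⟨hl, left_ne_zero_of_mul h⟩)))
  · intro h
    exact absurd hj.1 h

/-- The number of initial exponents of a space is its dimension. -/
theorem init_count (hA : Adm A) (W : Submodule κ (PS κ)) [FiniteDimensional κ W] :
    ∃ Λ : Finset Ex, Λ.card = Module.finrank κ W ∧ ∀ γ, γ ∈ Λ ↔ ∃ f ∈ W, Init A f γ := by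
  classical
  let I : Set Ex := {γ | ∃ f ∈ W, Init A f γ}
  choose F hFW hF using fun γ : I => γ.2
  have hli : LinearIndependent κ fun γ : I => (⟨F γ, hFW γ⟩ : W) :=
    LinearIndependent.of_comp W.subtype (indep_of_init hF Subtype.val_injective)
  have hfin : Finite I := hli.finite_of_isNoetherian
  have : Fintype I := Fintype.ofFinite I
  refine ⟨I.toFinset, le_antisymm ?_ ?_, fun γ => Set.mem_toFinset⟩
  · rw [Set.toFinset_card]
    exact hli.fintype_card_le_finrank
  · let φ : W →ₗ[κ] (I → κ) := LinearMap.pi fun γ => (coeff (γ : Ex)).comp W.subtype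
    have hφ : Function.Injective φ := by
      rw [← LinearMap.ker_eq_bot, LinearMap.ker_eq_bot']
      intro w hw
      by_contra h0
      obtain ⟨γ, hγ⟩ := exists_init hA (f := (w : PS κ)) fun h => h0 (Subtype.ext h)
      exact hγ.1 (congrFun hw ⟨γ, w, w.2, hγ⟩)
    have := LinearMap.finrank_le_finrank_of_injective hφ
    rwa [Module.finrank_fintype_fun_eq_card, ← Set.toFinset_card] at this

end series

/-! ### Arcs -/

/-- The transcendence degree of the field generated by `T`. -/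
noncomputable def rk (κ : Type) {L : Type} [Field κ] [Field L] [Algebra κ L] (T : Set L) : ℕ∞ :=
  (AlgebraicIndependent.matroid κ L).eRk T

/-- The coefficients below `t ^ N` of a family of series. -/
def cf {L σ : Type} [Field L] (z : σ → PowerSeries L) (N : ℕ) : Set L :=
  {c | ∃ j, ∃ l < N, c = PowerSeries.coeff l (z j)}

/-- The arc is centred at the origin. -/
def Cen {L : Type} [Field L] (z : Fin 3 → PowerSeries L) : Prop :=
  ∀ j, PowerSeries.constantCoeff (z j) = 0

/-- The jet of order `N` of the arc is the generic point of a set of codimension at most `a`. -/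
def Cod (κ : Type) {L : Type} [Field κ] [Field L] [Algebra κ L] (z : Fin 3 → PowerSeries L)
    (N a : ℕ) : Prop := ((3 * N : ℕ) : ℕ∞) ≤ rk κ (cf z N) + a

/-- Series whose coefficients below `t ^ n` lie in the subfield `F`. -/
def CF {κ L : Type} [Field κ] [Field L] [Algebra κ L] (F : IntermediateField κ L) (n : ℕ)
    (f : PowerSeries L) : Prop := ∀ l < n, PowerSeries.coeff l f ∈ F

/-- The contact order of `f` with arcs is bounded by `μ` times the codimension. -/
def JetB {κ : Type} [Field κ] (f : PS κ) (μ : ℕ) : Prop :=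
  ∀ (L : Type) [Field L] [Algebra κ L] (z : Fin 3 → PowerSeries L) (N a : ℕ), Cen z →
    PowerSeries.X ^ N ∣ sub z f → Cod κ z N a → N ≤ μ * (a + 3)

/-- A normalised arc: finite orders `o`, and trivial coefficients from `t ^ N` on. -/
def Nrm {L : Type} [Field L] (z : Fin 3 → PowerSeries L) (N : ℕ) (o : Fin 3 → ℕ) : Prop :=
  Cen z ∧ ∀ j, (z j).order = o j ∧ 1 ≤ o j ∧ o j ≤ N ∧
    ∀ l, N ≤ l → PowerSeries.coeff l (z j) = if l = N then 1 else 0

/-- Arcs with prescribed vanishing and prescribed leading coefficients. -/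
def Typ {κ L : Type} [Field κ] [Field L] [Algebra κ L] (w : Fin 3 → ℕ) (w0 e : ℕ)
    (c : Fin 3 → κ) (z : Fin 3 → PowerSeries L) : Prop :=
  ∀ j l, (w0 * l < w j * e → PowerSeries.coeff l (z j) = 0) ∧
    (w0 * l = w j * e → PowerSeries.coeff l (z j) = algebraMap κ L (c j))

theorem dvd_iff_le_order {L : Type} [Field L] {N : ℕ} {f : PowerSeries L} :
    PowerSeries.X ^ N ∣ f ↔ (N : ℕ∞) ≤ f.order :=
  PowerSeries.X_pow_dvd_iff.trans
    ⟨PowerSeries.nat_le_order f N, fun h m hm =>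
      PowerSeries.coeff_of_lt_order m (lt_of_lt_of_le (by exact_mod_cast hm) h)⟩

/-! ### Graded systems -/

section systems
variable {κ : Type} [Field κ]

/-- A graded linear system of power series. -/
structure Sys (U : ℕ → Submodule κ (PS κ)) : Prop where
  fin : ∀ M, FiniteDimensional κ (U M)
  mul : ∀ M M' f g, f ∈ U M → g ∈ U M' → f * g ∈ U (M + M')
  one0 : 1 ∈ U 0
  one1 : 1 ∈ U 1

theorem Sys.one {U : ℕ → Submodule κ (PS κ)} (h : Sys U) (M : ℕ) : 1 ∈ U M := by
  induction M with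
  | zero => exact h.one0
  | succ M ih => simpa using h.mul _ _ _ _ ih h.one1

theorem Sys.pad {U : ℕ → Submodule κ (PS κ)} (h : Sys U) {M M' : ℕ} {f : PS κ} (hf : f ∈ U M)
    (hM : M ≤ M') : f ∈ U M' := by
  obtain ⟨k, rfl⟩ := Nat.exists_eq_add_of_le hM
  simpa using h.mul _ _ _ _ hf (h.one k)

/-- `V` is at least the lower growth rate of the sequence `d`. -/
def VolN (d : ℕ → ℕ) (V : ℝ) : Prop :=
  ∀ c : ℝ, (∀ᶠ M : ℕ in Filter.atTop, c * (M : ℝ) ^ 3 ≤ d M) → c ≤ V

/-- `V` is at least the volume of the system. -/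
def Vol (U : ℕ → Submodule κ (PS κ)) (V : ℝ) : Prop := VolN (fun M => Module.finrank κ (U M)) V

theorem VolN.nonneg {d : ℕ → ℕ} {V : ℝ} (h : VolN d V) : 0 ≤ V :=
  h 0 (Filter.Eventually.of_forall fun M => by simp)

theorem VolN.mono {d d' : ℕ → ℕ} {V : ℝ} (h : VolN d V) (hd : ∀ M, d' M ≤ d M) : VolN d' V :=
  fun c hc => h c (hc.mono fun M hM => hM.trans (by exact_mod_cast hd M))

/-- `γ` is an initial exponent of the system in degree `M`. -/
def Pt (A : Rows) (U : ℕ → Submodule κ (PS κ)) (M : ℕ) (γ : Ex) : Prop :=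
  ∃ f ∈ U M, Init A f γ

/-- All listed `(degree, exponent)` are initial exponents of the system. -/
def Pts (A : Rows) (U : ℕ → Submodule κ (PS κ)) (P : List (ℕ × ℕ × ℕ × ℕ)) : Prop :=
  ∀ p ∈ P, Pt A U p.1 (ex p.2.1 p.2.2.1 p.2.2.2)

/-- The initial exponents generate the lattice in low degree. -/
def Gen (A : Rows) (U : ℕ → Submodule κ (PS κ)) : Prop :=
  ∃ M0 γ0, 1 ≤ M0 ∧ M0 ≤ 5 ∧ Pt A U M0 γ0 ∧ ∀ i, Pt A U M0 (γ0 + Finsupp.single i 1)

theorem gen_of_X {A : Rows} {U : ℕ → Submodule κ (PS κ)} (h : Sys U) (hX : ∀ j, X j ∈ U 1) :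
    Gen A U :=
  ⟨1, 0, le_rfl, by norm_num, ⟨1, h.one1, init_one⟩, fun i =>
    ⟨X i, hX i, by rw [zero_add]; exact init_monomial _ one_ne_zero⟩⟩

/-- Bound for the sum of the `i`-th coordinates of distinct initial exponents. -/
def SumLe (A : Rows) (U : ℕ → Submodule κ (PS κ)) (i : Fin 3) (τ V : ℝ) : Prop :=
  ∀ (M : ℕ) (Λ : Finset Ex), (∀ γ ∈ Λ, Pt A U M γ) →
    ((∑ γ ∈ Λ, γ i : ℕ) : ℝ) ≤ τ * V * ((M : ℝ) + 15) ^ 4

/-- The exponent `μ` is large enough for degree `M`. -/
def Big (V : ℝ) (M μ : ℕ) : Prop := V * ((M : ℝ) + 15) ^ 4 + 2 ≤ μ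

/-- The local statement: products of independent members have bounded contact order. -/
def Loc (U : ℕ → Submodule κ (PS κ)) (V : ℝ) : Prop :=
  ∀ (M μ n : ℕ) (f : Fin n → PS κ), Big V M μ → (∀ i, f i ∈ U M) → LinearIndependent κ f →
    JetB (∏ i, f i) μ

/-- The local statement for families with distinct initial exponents. -/
def DistB (A : Rows) (U : ℕ → Submodule κ (PS κ)) (V : ℝ) : Prop :=
  ∀ (M μ n : ℕ) (f : Fin n → PS κ) (γ : Fin n → Ex), Big V M μ → (∀ i, f i ∈ U M) →
    (∀ i, Init A (f i) (γ i)) → Function.Injective γ → JetB (∏ i, f i) μ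

/-- An independent family of homogeneous members. -/
def Fam (w : Fin 3 → ℕ) (U : ℕ → Submodule κ (PS κ)) (M : ℕ) {n : ℕ} (g : Fin n → PS κ)
    (k : Fin n → ℕ) : Prop :=
  (∀ i, g i ∈ U M) ∧ (∀ i, Hm w (k i) (g i)) ∧ LinearIndependent κ g

/-- The local statement for families of homogeneous members. -/
def HomB (w : Fin 3 → ℕ) (U : ℕ → Submodule κ (PS κ)) (V : ℝ) : Prop :=
  ∀ (M μ n : ℕ) (g : Fin n → PS κ) (k : Fin n → ℕ), Big V M μ → Fam w U M g k →
    JetB (∏ i, g i) μ

/-- The system of leading forms. -/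
def Gr (w : Fin 3 → ℕ) (U : ℕ → Submodule κ (PS κ)) (M : ℕ) : Submodule κ (PS κ) :=
  Submodule.span κ {g | ∃ f ∈ U M, ∃ k, Ld w k f g}

/-- The pull-back of a system under a substitution. -/
noncomputable def Pull (κ' : Type) [Field κ'] [Algebra κ κ'] (θ : Fin 3 → PS κ')
    (U : ℕ → Submodule κ (PS κ)) (M : ℕ) : Submodule κ' (PS κ') :=
  Submodule.span κ' ((fun f => MvPowerSeries.subst θ f) '' (U M : Set (PS κ)))

/-- The rows of the wall engine. -/
def WC (d : ℕ) (s : ℤ) : Rows := ![![1, 2, 4 - d], ![0, 1, 2], ![0, 0, s]]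

/-- A form that is homogeneous for the first two rows of `WC d`. -/
noncomputable def wallP (d : ℕ) (γ : Ex) (m : ℕ) (c : ℕ → κ) : PS κ :=
  ∑ j ∈ Finset.range (m + 1), c j • mon κ (γ 0 + d * j) (γ 1 - 2 * j) (γ 2 + j)

/-- The weights of the weighted blow-up. -/
def w3 : Fin 3 → ℕ := ![1, 2, 3]

/-- The weight that counts the first variable. -/
def e1 : Fin 3 → ℕ := ![1, 0, 0]

/-- A polynomial chart of the weighted blow-up that dominates the torus. -/
def IsChart (θ : Fin 3 → PS κ) : Prop :=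
  (∀ j, Hm e1 (w3 j) (θ j)) ∧ ∃ q : Fin 3 → MvPolynomial (Fin 3) κ, (∀ j, θ j = q j) ∧
    ∀ a : Fin 3 → κ, (∀ j, a j ≠ 0) → ∃ u : Fin 3 → κ, ∀ j, MvPolynomial.eval u (q j) = a j

/-- Bound for the total degree of independent homogeneous members. -/
def KBd (U : ℕ → Submodule κ (PS κ)) (V : ℝ) : Prop :=
  ∀ (M n : ℕ) (g : Fin n → PS κ) (k : Fin n → ℕ), Fam w3 U M g k →
    ((∑ i, k i : ℕ) : ℝ) ≤ 6 * V * ((M : ℝ) + 15) ^ 4

/-- The lexicographic order. -/
def lexA : Rows := ![![1, 0, 0], ![0, 1, 0], ![0, 0, 1]]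

end systems

end Pool.Agent.P.MP_6149fc_ag.V18
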