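import Pool.Agent.P.MP_6149fc_ag.V18.Base

/-! Convex bodies, slices and the certificate checker. -/

set_option autoImplicit false

namespace Pool.Agent.P.MP_6149fc_ag.V18

open scoped ENNReal
open MeasureTheory

/-- The slice of `B` at height `t` in direction `i`. -/
def sl (B : Set (Fin 3 → ℝ)) (i : Fin 3) (t : ℝ) : Set (Fin 2 → ℝ) :=
  {y | (Fin.insertNth i t y : Fin 3 → ℝ) ∈ B}

/-- The square root of `g` is concave on `N` and `g` vanishes off `N`. -/
def Conc (g : ℝ → ℝ≥0∞) (N : Set ℝ) : Prop :=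
  (∀ s, g s ≠ 0 → s ∈ N) ∧ ∀ s ∈ N, ∀ t ∈ N, ∀ a b θ : ℝ, 0 ≤ a → 0 ≤ b → 0 ≤ θ → θ ≤ 1 →
    ENNReal.ofReal (a ^ 2) ≤ g s → ENNReal.ofReal (b ^ 2) ≤ g t →
    ENNReal.ofReal (((1 - θ) * a + θ * b) ^ 2) ≤ g ((1 - θ) * s + θ * t)

/-- A degree and an exponent. -/
abbrev PT : Type := ℕ × ℕ × ℕ × ℕ
/-- Rational points. -/
abbrev Q3 : Type := ℚ × ℚ × ℚ
/-- Sparse weights. -/
abbrev Wt : Type := List (ℕ × ℚ)

/-- The exponent divided by the degree. -/
noncomputable def pR (p : PT) : Fin 3 → ℝ :=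
  ![(p.2.1 : ℝ) / p.1, (p.2.2.1 : ℝ) / p.1, (p.2.2.2 : ℝ) / p.1]

/-- Barycentre bound for all convex bodies of volume at most three that contain the points. -/
def Bary (P : List PT) (i : Fin 3) (τ : ℚ) : Prop :=
  ∀ B : Set (Fin 3 → ℝ), Convex ℝ B → MeasurableSet B → (∀ x ∈ B, ∀ j, 0 ≤ x j) →
    volume B ≤ 3 → (0 : Fin 3 → ℝ) ∈ B → (∀ p ∈ P, pR p ∈ B) →
    ∫⁻ x in B, ENNReal.ofReal (x i) ≤ ENNReal.ofReal (τ : ℝ) * volume B

/-- Area of a chain of trapezoids given by abscissa, lower and upper ordinate. -/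
def trap : List Q3 → ℚ
  | a :: b :: l => (b.1 - a.1) * ((a.2.2 - a.2.1) + (b.2.2 - b.2.1)) / 2 + trap (b :: l)
  | _ => 0

/-- The first coordinates increase. -/
def incr {α : Type} : List (ℚ × α) → Bool
  | a :: b :: l => decide (a.1 ≤ b.1) && incr (b :: l)
  | _ => true

/-- Lower bound for the volume from levels `(t, a)` with `a ^ 2` at most the area. -/
def v0 : List (ℚ × ℚ) → ℚ
  | a :: b :: l => (b.1 - a.1) * (a.2 ^ 2 + a.2 * b.2 + b.2 ^ 2) / 3 + v0 (b :: l)
  | _ => 0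

/-- Lower bound for the moment about the cut `c`. -/
def m0 (c : ℚ) : List (ℚ × ℚ) → ℚ
  | a :: b :: l => (b.1 - a.1) * ((c - a.1) * (3 * a.2 ^ 2 + 2 * a.2 * b.2 + b.2 ^ 2) +
      (c - b.1) * (a.2 ^ 2 + 2 * a.2 * b.2 + 3 * b.2 ^ 2)) / 12 + m0 c (b :: l)
  | _ => 0

/-- The rational point of a degree and exponent. -/
def pq (p : PT) : Q3 := ((p.2.1 : ℚ) / p.1, (p.2.2.1 : ℚ) / p.1, (p.2.2.2 : ℚ) / p.1)

/-- The combination of the listed points with sparse weights. -/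
def comb (P : List PT) : Wt → Q3
  | [] => (0, 0, 0)
  | a :: l =>
    let q := pq (P.getD a.1 (1, 0, 0, 0))
    let r := comb P l
    (a.2 * q.1 + r.1, a.2 * q.2.1 + r.2.1, a.2 * q.2.2 + r.2.2)

/-- The weights are nonnegative with sum at most one (the rest goes to the origin). -/
def okW (w : Wt) : Bool := w.all (fun a => decide (0 ≤ a.2)) && decide ((w.map Prod.snd).sum ≤ 1)

/-- The `i`-th coordinate first, then the other two in order. -/
def co (i : Fin 3) (q : Q3) : Q3 :=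
  if i = 0 then q else if i = 1 then (q.2.1, q.1, q.2.2) else (q.2.2, q.1, q.2.1)

/-- The chain of trapezoids of a slice certificate. -/
def chainOf (P : List PT) (i : Fin 3) (S : List (Wt × Wt)) : List Q3 :=
  S.map fun s => ((co i (comb P s.1)).2.1, (co i (comb P s.1)).2.2, (co i (comb P s.2)).2.2)

/-- Check of a slice certificate at height `t`. -/
def okS (P : List PT) (i : Fin 3) (t : ℚ) (S : List (Wt × Wt)) : Bool :=
  !S.isEmpty && incr (chainOf P i S) && S.all fun s => okW s.1 && okW s.2 &&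
    decide ((co i (comb P s.1)).1 = t) && decide ((co i (comb P s.2)).1 = t) &&
    decide ((co i (comb P s.1)).2.1 = (co i (comb P s.2)).2.1) &&
    decide ((co i (comb P s.1)).2.2 ≤ (co i (comb P s.2)).2.2)

/-- Check of a barycentre certificate: levels `(t, a, slice)`, cut `c` with its slice. -/
def chk (P : List PT) (i : Fin 3) (τ : ℚ) (L : List (ℚ × ℚ × List (Wt × Wt))) (c : ℚ)
    (S : List (Wt × Wt)) : Bool :=
  decide (0 ≤ τ) && incr L && okS P i c S && decide (0 < trap (chainOf P i S)) &&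
  (L.all fun l => okS P i l.1 l.2.2 && decide (l.1 ≤ c) && decide (0 ≤ l.2.1) &&
    decide (l.2.1 ^ 2 ≤ trap (chainOf P i l.2.2))) &&
  decide (3 / 4 * (3 - v0 (L.map fun l => (l.1, l.2.1))) ^ 2 ≤
    trap (chainOf P i S) * (m0 c (L.map fun l => (l.1, l.2.1)) - 3 * (c - τ)))

/-- The three unit vectors in degree one. -/
def unitP : List PT := [(1, 1, 0, 0), (1, 0, 1, 0), (1, 0, 0, 1)]

end Pool.Agent.P.MP_6149fc_ag.V18
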