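import Pool.Agent.P.MP_6149fc_ag.Defs

/-!
Prime Fano threefolds of genus ten: linear sections of codimension two of the adjoint variety
of `G₂` in the Grassmannian of planes in a seven dimensional space.
-/

namespace Pool.Agent.P.MP_6149fc_ag.V18

open MvPolynomial

/-- The triples `(a, b, c)` of the three-form
`e₀₁₂ + e₃₄₅ + e₆ ∧ (e₀₃ + e₁₄ + e₂₅) = ∑ e_a ∧ e_b ∧ e_c`, whose stabiliser is `G₂`. -/
def triples : List (Fin 7 × Fin 7 × Fin 7) := [(0, 1, 2), (3, 4, 5), (6, 0, 3), (6, 1, 4), (6, 2, 5)]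

/-- The `k`-th coordinate of the contraction of the bivector `P` with the three-form. -/
noncomputable def contraction (k : Fin 7) : MvPolynomial (Fin 7 × Fin 7) ℂ :=
  (triples.map fun t => (if t.1 = k then X (t.2.1, t.2.2) else 0) +
    (if t.2.1 = k then X (t.2.2, t.1) else 0) + (if t.2.2 = k then X (t.1, t.2.1) else 0)).sum

/-- Equations in the coordinates `P i j`: skew symmetry, the Plücker quadrics of `Gr(2, 7)`,
the contraction with the three-form, and two further linear forms with coefficients `l`. -/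
def equations (l : Fin 2 → Fin 7 × Fin 7 → ℂ) : Set (MvPolynomial (Fin 7 × Fin 7) ℂ) :=
  {G | (∃ i j, G = X (i, j) + X (j, i)) ∨
    (∃ i j k m, i < j ∧ j < k ∧ k < m ∧
      G = X (i, j) * X (k, m) - X (i, k) * X (j, m) + X (i, m) * X (j, k)) ∨
    (∃ k, G = contraction k) ∨ ∃ s, G = ∑ i, C (l s i) * X i}

/-- The Zariski tangent space at `p` of the affine scheme defined by `S`: the kernel of the
Jacobian matrix. -/
def tangentSpace {σ Ω : Type} [Fintype σ] [Field Ω] [Algebra ℂ Ω] (S : Set (MvPolynomial σ ℂ))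
    (p : σ → Ω) : Submodule Ω (σ → Ω) where
  carrier := {q | ∀ G ∈ S, ∑ i, aeval p (pderiv i G) * q i = 0}
  add_mem' := fun ha hb G hG => by
    simp only [Pi.add_apply, mul_add, Finset.sum_add_distrib, ha G hG, hb G hG, add_zero]
  zero_mem' := fun G _ => by simp
  smul_mem' := fun c q hq G hG => by
    simp only [Pi.smul_apply, smul_eq_mul, mul_left_comm _ c, ← Finset.mul_sum, hq G hG, mul_zero]

/-- At every nonzero complex common zero of `S` the tangent space of the affine cone has
dimension at most `n + 1`. -/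
def SmoothOfDim {σ : Type} [Fintype σ] (n : ℕ) (S : Set (MvPolynomial σ ℂ)) : Prop :=
  ∀ p : σ → ℂ, p ≠ 0 → (∀ G ∈ S, aeval p G = 0) → Module.finrank ℂ (tangentSpace S p) ≤ n + 1

end Pool.Agent.P.MP_6149fc_ag.V18
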