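import Pool.Agent.P.MP_6149fc_ag.V18.BaseC
import Pool.Agent.P.MP_6149fc_ag.V18.Defs
import Pool.Agent.P.MP_6149fc_ag.Main

/-! The adjoint variety in fourteen coordinates
`0 o, 1 x, 2 y, 3 z, 4 w, 5 h, 6 A, 7 B, 8 k, 9 T0, 10 T1, 11 T2, 12 T3, 13 D`. -/

set_option autoImplicit false

namespace Pool.Agent.P.MP_6149fc_ag.V18

open scoped ENNReal
open MvPowerSeries (coeff X constantCoeff monomial)

/-- The quadrics that define the cone over the adjoint variety. -/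
structure KK {C : Type} [CommRing C] (p : Fin 14 → C) : Prop where
  q1 : p 6 * p 11 = p 3 * p 13 + p 8 * p 10
  q2 : p 7 * p 10 = p 2 * p 13 - p 5 * p 11
  q3 : p 3 * p 7 = p 0 * p 11 - p 2 * p 8
  q4 : p 0 * p 10 = p 2 * p 6 - p 3 * p 5
  q5 : p 5 * p 8 = -(p 2 * p 11) + p 3 * p 10
  q6 : p 9 * p 11 = p 5 * p 13 + p 10 * p 10
  q7 : p 5 * p 6 = -(p 2 * p 10) + p 3 * p 9
  q8 : p 6 * p 7 = p 0 * p 13 + p 2 * p 11 - p 3 * p 10
  q9 : p 2 * p 12 = p 3 * p 11 + p 7 * p 8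
  q10 : p 2 * p 4 = p 0 * p 8 + p 3 * p 3
  q11 : p 8 * p 9 = -(p 2 * p 13) + p 6 * p 10
  q12 : p 4 * p 10 = p 3 * p 11 + p 6 * p 8
  q13 : p 10 * p 12 = p 8 * p 13 + p 11 * p 11
  q14 : p 1 * p 11 = p 2 * p 10 + p 5 * p 7
  q15 : p 3 * p 12 = p 4 * p 11 - p 8 * p 8
  q16 : p 1 * p 10 = p 2 * p 9 - p 5 * p 5
  q17 : p 1 * p 3 = p 0 * p 5 + p 2 * p 2
  q18 : p 1 * p 13 = p 5 * p 10 + p 7 * p 9
  q19 : p 4 * p 5 = -(p 0 * p 11) + p 3 * p 6
  q20 : p 5 * p 12 = p 3 * p 13 - p 7 * p 11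
  q21 : p 1 * p 8 = p 2 * p 6 - p 2 * p 7 - p 3 * p 5
  q22 : p 6 * p 12 = p 4 * p 13 + p 8 * p 11
  q23 : p 1 * p 6 = p 0 * p 9 + p 2 * p 5
  q24 : p 0 * p 12 = p 3 * p 8 + p 4 * p 7
  q25 : p 4 * p 9 = -(p 0 * p 13) + p 3 * p 10 + p 6 * p 6
  q26 : p 9 * p 12 = p 6 * p 13 - p 7 * p 13 + p 10 * p 11
  q27 : p 1 * p 4 = p 0 * p 6 - p 0 * p 7 + p 2 * p 3
  q28 : p 1 * p 12 = p 0 * p 13 + p 2 * p 11 - p 7 * p 7

theorem KK.map {C C' : Type} [CommRing C] [CommRing C'] (φ : C →+* C') {p : Fin 14 → C}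
    (h : KK p) : KK fun i => φ (p i) := by
  obtain ⟨q1, q2, q3, q4, q5, q6, q7, q8, q9, q10, q11, q12, q13, q14, q15, q16, q17, q18, q19,
    q20, q21, q22, q23, q24, q25, q26, q27, q28⟩ := h
  constructor <;> simp only [← map_mul, ← map_add, ← map_sub, ← map_neg] <;> congr 1

theorem sum14 {M : Type} [AddCommMonoid M] (f : Fin 14 → M) : ∑ i, f i =
    f 0 + f 1 + f 2 + f 3 + f 4 + f 5 + f 6 + f 7 + f 8 + f 9 + f 10 + f 11 + f 12 + f 13 := by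
  simp only [Fin.sum_univ_castSucc, Fin.sum_univ_zero, zero_add]; rfl

section
variable {κ : Type} [Field κ] {C : Type} [CommRing C] [Algebra κ C]

/-- A linear form evaluated at a point. -/
def dot (l : Fin 14 → κ) (p : Fin 14 → C) : C := ∑ i, l i • p i

/-- A matrix acting on a point. -/
def act (g : Fin 14 → Fin 14 → κ) (p : Fin 14 → C) : Fin 14 → C := fun i => dot (g i) p

/-- The pull-back of a linear form. -/
def pull (g : Fin 14 → Fin 14 → κ) (l : Fin 14 → κ) : Fin 14 → κ := fun j => ∑ i, l i * g i j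

theorem dot_pull (g : Fin 14 → Fin 14 → κ) (l : Fin 14 → κ) (p : Fin 14 → C) :
    dot (pull g l) p = dot l (act g p) := by
  simp only [dot, pull, act, Finset.sum_smul, Finset.smul_sum, mul_smul]
  exact Finset.sum_comm

theorem dot_single (l : Fin 14 → κ) (j : Fin 14) : dot l (Pi.single j (1 : κ)) = l j := by
  simp [dot, Pi.single_apply]

theorem pull_apply (g : Fin 14 → Fin 14 → κ) (l : Fin 14 → κ) (j : Fin 14) :
    pull g l j = dot l (act g (Pi.single j (1 : κ))) := by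
  rw [← dot_pull, dot_single]

theorem map_dot {C' : Type} [CommRing C'] [Algebra κ C'] (φ : C →ₐ[κ] C') (l : Fin 14 → κ)
    (p : Fin 14 → C) : φ (dot l p) = dot l fun i => φ (p i) := by
  simp only [dot, map_sum, map_smul]

theorem dot_mul (l : Fin 14 → κ) (u : C) (p : Fin 14 → C) :
    dot l (fun i => u * p i) = u * dot l p := by
  simp only [dot, Finset.mul_sum, mul_smul_comm]

/-- The polynomial chart of the adjoint variety. -/
def psi {C : Type} [CommRing C] (x y z w A : C) : Fin 14 → C :=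
  ![1, x, y, z, w, x * z - y ^ 2, A, A - (x * w - y * z), y * w - z ^ 2,
    x * A - y * (x * z - y ^ 2), y * A - z * (x * z - y ^ 2),
    z * (A - (x * w - y * z)) + y * (y * w - z ^ 2),
    w * (A - (x * w - y * z)) + z * (y * w - z ^ 2),
    A * (A - (x * w - y * z)) + (x * z - y ^ 2) * (y * w - z ^ 2)]

theorem map_psi {C C' : Type} [CommRing C] [CommRing C'] (φ : C →+* C') (x y z w A : C)
    (i : Fin 14) : φ (psi x y z w A i) = psi (φ x) (φ y) (φ z) (φ w) (φ A) i := by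
  fin_cases i <;> simp [psi]

end

section
variable {κ : Type} [Field κ]

/-- An invertible matrix that preserves the quadrics, over every algebra. -/
def IsAut (g : Fin 14 → Fin 14 → κ) : Prop :=
  ∃ g' : Fin 14 → Fin 14 → κ, ∀ (C : Type) [CommRing C] [Algebra κ C] (p : Fin 14 → C),
    act g (act g' p) = p ∧ act g' (act g p) = p ∧ (KK p → KK (act g p)) ∧ (KK p → KK (act g' p))

/-- The base point. -/
def e0 (κ : Type) [Field κ] : Fin 14 → κ := Pi.single 0 1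

/-- The linear part of a form at the base point, in the coordinates `x, y, z, w, A`. -/
def Lin (l : Fin 14 → κ) : Fin 5 → κ := ![l 1, l 2, l 3, l 4, l 6 + l 7]

/-- The point `p + ε v` over the dual numbers. -/
def dual (p v : Fin 14 → κ) : Fin 14 → DualNumber κ :=
  fun i => TrivSqZeroExt.inl (p i) + TrivSqZeroExt.inr (v i)

/-- Smoothness of the linear section: five tangent vectors of the cone are dependent. -/
def Sm (l1 l2 : Fin 14 → κ) : Prop :=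
  ∀ p : Fin 14 → κ, p ≠ 0 → dot l1 p = 0 → dot l2 p = 0 → ∀ v : Fin 5 → Fin 14 → κ,
    (∀ a, KK (dual p (v a)) ∧ dot l1 (v a) = 0 ∧ dot l2 (v a) = 0) → ¬ LinearIndependent κ v

/-- The system generated by the coordinates of a parametrisation. -/
noncomputable def UU {σ : Type} (κ : Type) [Field κ] {C : Type} [CommRing C] [Algebra κ C]
    (Ψ : σ → C) (M : ℕ) : Submodule κ C := Submodule.span κ (Set.range Ψ) ^ M

/-- The system of the parametrisation satisfies the local statement. -/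
def LocU {σ : Type} (Ψ : σ → PS κ) : Prop :=
  1 ∈ UU κ Ψ 1 ∧ (∀ j, X j ∈ UU κ Ψ 1) ∧ Vol (UU κ Ψ) 3 ∧
    ∀ V, Vol (UU κ Ψ) V → V ≤ 3 → Loc (UU κ Ψ) V

/-- A parametrisation of the section at `p0` that satisfies the local statement. -/
def Goal (l1 l2 p0 : Fin 14 → κ) : Prop :=
  ∃ Ψ : Fin 14 → PS κ, LocU Ψ ∧
    ∀ (L : Type) [Field L] [Algebra κ L] (p : Fin 14 → PowerSeries L), KK p → dot l1 p = 0 →
      dot l2 p = 0 → (∀ i, PowerSeries.constantCoeff (p i) = algebraMap κ L (p0 i)) →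
      ∃ (u : PowerSeries L) (z : Fin 3 → PowerSeries L), Cen z ∧ ∀ i, p i = u * sub z (Ψ i)

/-- The statement at the point `p0`. -/
def TT (l1 l2 p0 : Fin 14 → κ) : Prop := Sm l1 l2 → Goal l1 l2 p0

/-- The statement at the base point for all forms with given linear parts. -/
def QQ (a b : Fin 5 → κ) : Prop :=
  ∀ l1 l2 : Fin 14 → κ, l1 0 = 0 → l2 0 = 0 → Lin l1 = a → Lin l2 = b → TT l1 l2 (e0 κ)

/-- Translation of the cubic. -/
def shf (c : κ) (a : Fin 5 → κ) : Fin 5 → κ :=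
  ![a 0 + c * a 1 + c ^ 2 * a 2 + c ^ 3 * a 3, a 1 + 2 * c * a 2 + 3 * c ^ 2 * a 3,
    a 2 + 3 * c * a 3, a 3, a 4]
/-- Reversal of the cubic. -/
def swp (a : Fin 5 → κ) : Fin 5 → κ := ![a 3, a 2, a 1, a 0, -a 4]
/-- Scaling of the cubic. -/
def tor (s : κ) (a : Fin 5 → κ) : Fin 5 → κ := ![a 0, s * a 1, s ^ 2 * a 2, s ^ 3 * a 3, s ^ 3 * a 4]
/-- The unipotent radical. -/
def hei (i : Fin 4) (c : κ) (a : Fin 5 → κ) : Fin 5 → κ :=
  ![a 0, a 1, a 2, a 3, a 4 + c * a i.castSucc]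

/-- `φ` is the effect of an automorphism that fixes the base point. -/
def Mv (φ : (Fin 5 → κ) → Fin 5 → κ) : Prop :=
  ∃ g : Fin 14 → Fin 14 → κ, IsAut g ∧ act g (e0 κ) = e0 κ ∧
    ∀ l : Fin 14 → κ, l 0 = 0 → Lin (pull g l) = φ (Lin l)

/-- Closure properties of a predicate on pairs of linear parts. -/
structure Clo (Q : (Fin 5 → κ) → (Fin 5 → κ) → Prop) : Prop where
  shf : ∀ c a b, Q (shf c a) (shf c b) → Q a b
  swp : ∀ a b, Q (swp a) (swp b) → Q a b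
  tor : ∀ s a b, s ≠ 0 → Q (tor s a) (tor s b) → Q a b
  hei : ∀ i c a b, Q (hei i c a) (hei i c b) → Q a b
  gl : ∀ (r s t u : κ) a b, r * u - s * t ≠ 0 → Q (r • a + s • b) (t • a + u • b) → Q a b
  dep : ∀ (r s : κ) a b, (r ≠ 0 ∨ s ≠ 0) → r • a + s • b = 0 → Q a b

/-- The normal forms. -/
structure NFs (Q : (Fin 5 → κ) → (Fin 5 → κ) → Prop) : Prop where
  a0a : ∀ v0 v2 : κ, v2 ^ 3 ≠ v0 → Q ![1, 0, 0, -v0, 0] ![0, 0, 1, -v2, 0]
  a0b : ∀ v0 : κ, Q ![1, 0, -v0, 0, 0] ![0, 0, 0, 1, 0]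
  a1 : ∀ ρ : κ, Q ![0, 0, -ρ, 1, 0] ![0, 1, 0, 0, 0]
  a2 : Q ![0, 1, 0, 0, 0] ![0, 0, 1, 0, 0]
  a3 : Q ![0, 0, 1, 0, 0] ![0, 0, 0, 1, 0]
  b111 : Q ![0, 1, -1, 0, 0] ![0, 0, 0, 0, 1]
  b21 : Q ![0, 0, 1, 0, 0] ![0, 0, 0, 0, 1]
  b3 : Q ![0, 0, 0, 1, 0] ![0, 0, 0, 0, 1]

/-! ### Local data at the base point -/

/-- The coordinates of a parametrisation; `g` is `A - B`. -/
structure P14 (κ : Type) where
  (x y z w A h g k B T0 T1 T2 T3 D : PS κ)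

/-- The coefficients of the nonlinear part of an equation. -/
structure Tl (κ : Type) where
  (b0 b1 b2 c0 c1 c2 c3 e : κ)

/-- The nonlinear part of an equation. -/
noncomputable def P14.tl (p : P14 κ) (t : Tl κ) : PS κ :=
  t.b0 • p.h + t.b1 • p.g + t.b2 • p.k + t.c0 • p.T0 + t.c1 • p.T1 + t.c2 • p.T2 + t.c3 • p.T3 +
    t.e • p.D

/-- The chart identities; all coordinates lie in `W`. -/
structure P14.Ok (p : P14 κ) (W : Submodule κ (PS κ)) : Prop where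
  cx : constantCoeff p.x = 0
  cy : constantCoeff p.y = 0
  cz : constantCoeff p.z = 0
  cw : constantCoeff p.w = 0
  cA : constantCoeff p.A = 0
  eh : p.h = p.x * p.z - p.y ^ 2
  eg : p.g = p.x * p.w - p.y * p.z
  ek : p.k = p.y * p.w - p.z ^ 2
  eB : p.B = p.A - p.g
  e0 : p.T0 = p.x * p.A - p.y * p.h
  e1 : p.T1 = p.y * p.A - p.z * p.h
  e2 : p.T2 = p.z * p.B + p.y * p.k
  e3 : p.T3 = p.w * p.B + p.z * p.k
  eD : p.D = p.A * p.B + p.h * p.k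
  mx : p.x ∈ W
  my : p.y ∈ W
  mz : p.z ∈ W
  mw : p.w ∈ W
  mA : p.A ∈ W
  mh : p.h ∈ W
  mg : p.g ∈ W
  mK : p.k ∈ W
  mB : p.B ∈ W
  m0 : p.T0 ∈ W
  m1 : p.T1 ∈ W
  m2 : p.T2 ∈ W
  m3 : p.T3 ∈ W
  mD : p.D ∈ W

/-- The fourteen coordinates. -/
noncomputable def P14.vec (p : P14 κ) : Fin 14 → PS κ :=
  ![1, p.x, p.y, p.z, p.w, p.h, p.A, p.B, p.k, p.T0, p.T1, p.T2, p.T3, p.D]

/-- The nonlinear part of a linear form. -/
def tlOf (l : Fin 14 → κ) : Tl κ := ⟨-l 5, l 7, -l 8, -l 9, -l 10, -l 11, -l 12, -l 13⟩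

theorem dot_vec {p : P14 κ} {W : Submodule κ (PS κ)} (h : p.Ok W) (l : Fin 14 → κ)
    (h0 : l 0 = 0) : dot l p.vec = Lin l 0 • p.x + Lin l 1 • p.y + Lin l 2 • p.z + Lin l 3 • p.w +
      Lin l 4 • p.A - p.tl (tlOf l) := by
  rw [dot, sum14, h0]
  change (0 : κ) • (1 : PS κ) + l 1 • p.x + l 2 • p.y + l 3 • p.z + l 4 • p.w + l 5 • p.h +
    l 6 • p.A + l 7 • p.B + l 8 • p.k + l 9 • p.T0 + l 10 • p.T1 + l 11 • p.T2 + l 12 • p.T3 +
    l 13 • p.D = l 1 • p.x + l 2 • p.y + l 3 • p.z + l 4 • p.w + (l 6 + l 7) • p.A -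
    (-l 5 • p.h + l 7 • p.g + -l 8 • p.k + -l 9 • p.T0 + -l 10 • p.T1 + -l 11 • p.T2 +
      -l 12 • p.T3 + -l 13 • p.D)
  rw [h.eB]
  module

theorem P14.tl_ge {w : Fin 3 → ℕ} {n : ℕ} (p : P14 κ) (t : Tl κ) (h1 : Ge w n p.h)
    (h2 : Ge w n p.g) (h3 : Ge w n p.k) (h4 : Ge w n p.T0) (h5 : Ge w n p.T1) (h6 : Ge w n p.T2)
    (h7 : Ge w n p.T3) (h8 : Ge w n p.D) : Ge w n (p.tl t) :=
  (((((((h1.smul _).add (h2.smul _)).add (h3.smul _)).add (h4.smul _)).add (h5.smul _)).add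
    (h6.smul _)).add (h7.smul _)).add (h8.smul _)

/-- Weights of the derived coordinates from the weights of `x, y, z, w, A`. -/
theorem P14.Ok.ge {w : Fin 3 → ℕ} {p : P14 κ} {W : Submodule κ (PS κ)} (h : p.Ok W)
    {nx ny nz nw nA nh ng nk nB n0 n1 n2 n3 nD : ℕ} (hx : Ge w nx p.x) (hy : Ge w ny p.y)
    (hz : Ge w nz p.z) (hw : Ge w nw p.w) (hA : Ge w nA p.A)
    (hn : (nh ≤ nx + nz ∧ nh ≤ ny + ny) ∧ (ng ≤ nx + nw ∧ ng ≤ ny + nz) ∧
      (nk ≤ ny + nw ∧ nk ≤ nz + nz) ∧ (nB ≤ nA ∧ nB ≤ ng) ∧ (n0 ≤ nx + nA ∧ n0 ≤ ny + nh) ∧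
      (n1 ≤ ny + nA ∧ n1 ≤ nz + nh) ∧ (n2 ≤ nz + nB ∧ n2 ≤ ny + nk) ∧
      (n3 ≤ nw + nB ∧ n3 ≤ nz + nk) ∧ nD ≤ nA + nB ∧ nD ≤ nh + nk) :
    Ge w nh p.h ∧ Ge w ng p.g ∧ Ge w nk p.k ∧ Ge w nB p.B ∧ Ge w n0 p.T0 ∧ Ge w n1 p.T1 ∧
      Ge w n2 p.T2 ∧ Ge w n3 p.T3 ∧ Ge w nD p.D := by
  obtain ⟨a1, a2, a3, a4, a5, a6, a7, a8, a9, a10⟩ := hn
  have gh : Ge w nh p.h := ((hx.mul' hz a1.1).sub (hy.mul' hy a1.2)).congr (by rw [h.eh, sq])
  have gg : Ge w ng p.g := ((hx.mul' hw a2.1).sub (hy.mul' hz a2.2)).congr h.eg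
  have gk : Ge w nk p.k := ((hy.mul' hw a3.1).sub (hz.mul' hz a3.2)).congr (by rw [h.ek, sq])
  have gB : Ge w nB p.B := ((hA.mono a4.1).sub (gg.mono a4.2)).congr h.eB
  exact ⟨gh, gg, gk, gB, ((hx.mul' hA a5.1).sub (hy.mul' gh a5.2)).congr h.e0,
    ((hy.mul' hA a6.1).sub (hz.mul' gh a6.2)).congr h.e1,
    ((hz.mul' gB a7.1).add (hy.mul' gk a7.2)).congr h.e2,
    ((hw.mul' gB a8.1).add (hz.mul' gk a8.2)).congr h.e3,
    ((hA.mul' gB a9).add (gh.mul' gk a10)).congr h.eD⟩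

/-- Standing hypotheses on a system. -/
structure Ctx (U : ℕ → Submodule κ (PS κ)) (V : ℝ) : Prop where
  sys : Sys U
  vol : Vol U V
  le : V ≤ 3

/-! ### The leading forms in the osculating case -/

section b3
variable {C : Type} [CommRing C]
def bq (x y z : C) : C := x * z - y ^ 2
def bH (x y z : C) : C := x * bq x y z - y * z
def bK (x y z : C) : C := y * bq x y z - z ^ 2
end b3

/-- The eleven leading forms lie in `W`. -/
structure B3in (a : κ) (W : Submodule κ (PS κ)) (x y z : PS κ) : Prop where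
  hx : x ∈ W
  hy : y ∈ W
  hz : z ∈ W
  hq : bq x y z ∈ W
  hH : bH x y z ∈ W
  hK : bK x y z ∈ W
  h0 : a • (x * bH x y z) - y * bq x y z ∈ W
  h1 : a • (y * bH x y z) - z * bq x y z ∈ W
  h2 : (a - 1) • (z * bH x y z) + y * bK x y z ∈ W
  h3 : (a - 1) • (bq x y z * bH x y z) + z * bK x y z ∈ W
  hD : (a * (a - 1)) • bH x y z ^ 2 + bq x y z * bK x y z ∈ W

/-- The chart at the special point of the exceptional divisor. -/
noncomputable def thP (κ : Type) [Field κ] : Fin 3 → PS κ :=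
  ![X 0, X 0 ^ 2 * X 1, X 0 ^ 3 * (X 2 + X 1 ^ 2)]
/-- The chart at a general point. -/
noncomputable def thL (c d : κ) : Fin 3 → PS κ :=
  ![X 0, X 0 ^ 2 * (MvPowerSeries.C c + X 1), X 0 ^ 3 * (MvPowerSeries.C d + X 2)]
/-- The chart along the nodal cubic. -/
noncomputable def thS (t : κ) : Fin 3 → PS κ :=
  ![X 0, X 0 ^ 2 * ((MvPowerSeries.C t + X 2) - (MvPowerSeries.C t + X 2) ^ 2 - X 1),
    X 0 ^ 3 * ((MvPowerSeries.C t + X 2) *
      ((MvPowerSeries.C t + X 2) - (MvPowerSeries.C t + X 2) ^ 2 - X 1))]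
/-- The chart along the curve `x = 0`. -/
noncomputable def thT (c : κ) : Fin 3 → PS κ :=
  ![X 0 * X 1, X 0 ^ 2 * (MvPowerSeries.C c + X 2), X 0 ^ 3 * (MvPowerSeries.C c + X 2)]

/-- The order in the chart `thP`. -/
def AP : Rows := ![![1, 0, 0], ![0, 2, 5], ![0, 1, 0]]
/-- The order for arcs with `z` of least order. -/
def AZ : Rows := ![![1, 2, 3], ![1, 1, 0], ![1, 0, 0]]
/-- The order for arcs with `y` of least order. -/
def AY : Rows := ![![1, 2, 3], ![1, 0, 1], ![1, 0, 0]]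

/-- The standing hypotheses of the osculating case. -/
structure B3 (a : κ) (G : ℕ → Submodule κ (PS κ)) (V : ℝ) : Prop where
  ctx : Ctx G V
  ne : a ≠ 0
  mem : B3in a (G 1) (X 0) (X 1) (X 2)

/-- The local statement for normalised arcs whose orders satisfy `Rg`. -/
def RegB (G : ℕ → Submodule κ (PS κ)) (V : ℝ) (Rg : (Fin 3 → ℕ) → Prop) : Prop :=
  ∀ (M μ n : ℕ) (g : Fin n → PS κ) (k : Fin n → ℕ) (L : Type) [Field L] [Algebra κ L]
    (z : Fin 3 → PowerSeries L) (N a : ℕ) (o : Fin 3 → ℕ), Big V M μ → Fam w3 G M g k →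
    Nrm z N o → Rg o → PowerSeries.X ^ N ∣ sub z (∏ i, g i) → Cod κ z N a →
    o 0 + o 1 + o 2 ≤ a → N ≤ μ * (a + 3)

/-- The local statement for arcs `(x, x ^ 2 Y, x ^ 3 Z)` whose centre `(c, d)` on the
exceptional divisor satisfies `Rg`. -/
def RegX (G : ℕ → Submodule κ (PS κ)) (V : ℝ)
    (Rg : ∀ (L : Type) [Field L] [Algebra κ L], L → L → Prop) : Prop :=
  ∀ (M μ n : ℕ) (g : Fin n → PS κ) (k : Fin n → ℕ) (L : Type) [Field L] [Algebra κ L]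
    (z : Fin 3 → PowerSeries L) (Y Z : PowerSeries L) (N a e : ℕ), Big V M μ → Fam w3 G M g k →
    Cen z → (z 0).order = e → 1 ≤ e → z 1 = z 0 ^ 2 * Y → z 2 = z 0 ^ 3 * Z →
    Rg L (PowerSeries.constantCoeff Y) (PowerSeries.constantCoeff Z) →
    PowerSeries.X ^ N ∣ sub z (∏ i, g i) → Cod κ ![z 0, Y, Z] (N - 3 * e) (a - 5 * e) →
    4 * e ≤ N → 6 * e ≤ a → N ≤ μ * (a + 3)

end

/-! ### The bridge to the coordinates `P i j` -/

/-- The skew matrix of a point. -/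
def emb {C : Type} [CommRing C] (p : Fin 14 → C) (i : Fin 7 × Fin 7) : C :=
  (![![0, -p 8, -p 2, p 6, p 0, -p 4, -p 3],
    ![p 8, 0, p 10, -p 13, -p 7, p 12, p 11],
    ![p 2, -p 10, 0, p 9, p 1, p 7 - p 6, -p 5],
    ![-p 6, p 13, -p 9, 0, -p 5, -p 11, -p 10],
    ![-p 0, p 7, -p 1, p 5, 0, -p 3, -p 2],
    ![p 4, -p 12, p 6 - p 7, p 11, p 3, 0, p 8],
    ![p 3, -p 11, p 5, p 10, p 2, -p 8, 0]] : Fin 7 → Fin 7 → C) i.1 i.2

/-- The fourteen coordinates of a skew matrix. -/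
def pr {C : Type} [CommRing C] (P : Fin 7 × Fin 7 → C) : Fin 14 → C :=
  ![P (0, 4), P (2, 4), -P (0, 2), -P (0, 6), -P (0, 5), -P (3, 4), P (0, 3), -P (1, 4),
    -P (0, 1), P (2, 3), P (1, 2), P (1, 6), P (1, 5), -P (1, 3)]

/-- A linear form in the coordinates `P i j`, restricted to the fourteen coordinates. -/
noncomputable def l14 (κ : Type) [Field κ] [Algebra ℂ κ] (l : Fin 7 × Fin 7 → ℂ) : Fin 14 → κ :=
  fun a => ∑ i, algebraMap ℂ κ (l i) * emb (Pi.single a (1 : κ)) i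

section global
variable {σ K : Type} [Field K] [Algebra ℂ K]

/-- An arc on the variety of `ξ`, centred at `x`. -/
def IsArc {κ L : Type} [Field κ] [Field L] [Algebra ℂ L] [Algebra κ L] (ξ : σ → K) (x : σ → κ)
    (j : σ) (p : σ → PowerSeries L) : Prop :=
  p j = 1 ∧ (∀ i, PowerSeries.constantCoeff (p i) = algebraMap κ L (x i)) ∧
    ∀ G : MvPolynomial σ ℂ, MvPolynomial.aeval ξ G = 0 → MvPolynomial.aeval p G = 0

/-- Generic arcs along the divisor of `v`. -/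
def Supply1 (κ : Type) [Field κ] [Algebra ℂ κ] (ξ : σ → K) (v : AddValuation K (WithTop ℤ))
    (x : σ → κ) (j : σ) (A : ℕ) : Prop :=
  ∀ q N : ℕ, 1 ≤ q → 1 ≤ N → ∃ (L : Type) (_ : Field L) (_ : Algebra ℂ L) (_ : Algebra κ L)
    (_ : IsScalarTower ℂ κ L) (p : σ → PowerSeries L), IsArc ξ x j p ∧
    (∀ (G : MvPolynomial σ ℂ) (lam : ℕ), ((lam : ℤ) : WithTop ℤ) ≤ v (MvPolynomial.aeval ξ G) →
      PowerSeries.X ^ (q * lam) ∣ MvPolynomial.aeval p G) ∧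
    ((3 * N : ℕ) : ℕ∞) ≤ rk κ (cf p N) + (q * A + 2 : ℕ)

/-- Arcs detect linear independence. -/
def Supply2 (κ : Type) [Field κ] [Algebra ℂ κ] (ξ : σ → K) (x : σ → κ) (j : σ) : Prop :=
  ∀ (n : ℕ) (G : Fin n → MvPolynomial σ ℂ) (c : Fin n → κ),
    LinearIndependent ℂ (fun i => MvPolynomial.aeval ξ (G i)) → c ≠ 0 →
    ∃ (L : Type) (_ : Field L) (_ : Algebra ℂ L) (_ : Algebra κ L) (_ : IsScalarTower ℂ κ L)
      (p : σ → PowerSeries L), IsArc ξ x j p ∧ ∑ i, c i • MvPolynomial.aeval p (G i) ≠ 0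

/-- Every arc factors through the parametrisation. -/
def Par {κ : Type} [Field κ] [Algebra ℂ κ] (ξ : σ → K) (x : σ → κ) (j : σ) (Ψ : σ → PS κ) :
    Prop :=
  ∀ (L : Type) [Field L] [Algebra ℂ L] [Algebra κ L] [IsScalarTower ℂ κ L]
    (p : σ → PowerSeries L), IsArc ξ x j p →
    ∃ (u : PowerSeries L) (z : Fin 3 → PowerSeries L), Cen z ∧ ∀ i, p i = u * sub z (Ψ i)

end global

end Pool.Agent.P.MP_6149fc_ag.V18
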