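import Pool.Agent.P.MP_6149fc_ag.V18.BaseP

/-! Definitions for the global steps. -/

set_option autoImplicit false

namespace Pool.Agent.P.MP_6149fc_ag.V18

/-- The chart as a function of a vector. -/
def psiv {C : Type} [CommRing C] (ζ : Fin 5 → C) : Fin 14 → C :=
  psi (ζ 0) (ζ 1) (ζ 2) (ζ 3) (ζ 4)

theorem map_psiv {C C' : Type} [CommRing C] [CommRing C'] (φ : C →+* C') (ζ : Fin 5 → C)
    (i : Fin 14) : φ (psiv ζ i) = psiv (fun a => φ (ζ a)) i := map_psi φ _ _ _ _ _ i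

theorem UU_one {σ κ C : Type} [Field κ] [CommRing C] [Algebra κ C] (Ψ : σ → C) :
    UU κ Ψ 1 = Submodule.span κ (Set.range Ψ) := pow_one _

theorem UU_fin {σ κ C : Type} [Finite σ] [Field κ] [CommRing C] [Algebra κ C] (Ψ : σ → C)
    (M : ℕ) : FiniteDimensional κ (UU κ Ψ M) :=
  Module.Finite.iff_fg.2 ((Submodule.fg_span (Set.finite_range Ψ)).pow M)

theorem UU_mul {σ κ C : Type} [Field κ] [CommRing C] [Algebra κ C] {Ψ : σ → C} {M M' : ℕ}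
    {f g : C} (hf : f ∈ UU κ Ψ M) (hg : g ∈ UU κ Ψ M') : f * g ∈ UU κ Ψ (M + M') := by
  rw [UU, pow_add]; exact Submodule.mul_mem_mul hf hg

theorem UU_zero {σ κ C : Type} [Field κ] [CommRing C] [Algebra κ C] (Ψ : σ → C) :
    1 ∈ UU κ Ψ 0 := by
  rw [UU, pow_zero]; exact Submodule.one_le.1 le_rfl

theorem UU_sys {σ κ : Type} [Finite σ] [Field κ] {Ψ : σ → PS κ} (h : 1 ∈ UU κ Ψ 1) :
    Sys (UU κ Ψ) :=
  ⟨UU_fin Ψ, fun _ _ _ _ => UU_mul, UU_zero Ψ, h⟩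

/-- Weights for which the left sides of the quadrics are the largest terms. -/
def gW : Fin 14 → ℕ := ![55, 92, 10, 21, 88, 38, 47, 51, 41, 63, 19, 16, 88, 23]

/-- The left sides of the quadrics. -/
def gBad : List (Fin 14 × Fin 14) :=
  [(6, 11), (7, 10), (3, 7), (0, 10), (5, 8), (9, 11), (5, 6), (6, 7), (2, 12), (2, 4), (8, 9),
    (4, 10), (10, 12), (1, 11), (3, 12), (1, 10), (1, 3), (1, 13), (4, 5), (5, 12), (1, 8),
    (6, 12), (1, 6), (0, 12), (4, 9), (9, 12), (1, 4), (1, 12)]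

/-- The maximal sets of coordinates that contain no left side. -/
def gCl : List (List (Fin 14)) :=
  [[0, 1, 2, 5, 7, 9], [0, 2, 3, 5, 9, 13], [0, 2, 3, 5, 11, 13], [0, 2, 3, 6, 8, 13],
    [0, 2, 3, 6, 9, 13], [0, 2, 3, 8, 11, 13], [0, 2, 5, 7, 9, 13], [0, 2, 5, 7, 11, 13],
    [0, 2, 7, 8, 11, 13], [0, 3, 4, 6, 8, 13], [0, 3, 4, 8, 11, 13], [0, 4, 7, 8, 11, 13],
    [2, 3, 5, 9, 10, 13], [2, 3, 5, 10, 11, 13], [2, 3, 6, 8, 10, 13], [2, 3, 6, 9, 10, 13],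
    [2, 3, 8, 10, 11, 13], [4, 7, 8, 11, 12, 13]]

/-- An automorphism that translates the first coordinates. -/
def Tr {κ : Type} [Field κ] (c1 c2 c3 c4 : κ) : Prop :=
  ∃ g : Fin 14 → Fin 14 → κ, IsAut g ∧ ∀ p : Fin 14 → κ, act g p 0 = p 0 ∧
    act g p 1 = p 1 + c1 * p 0 ∧ act g p 2 = p 2 + c2 * p 0 ∧ act g p 3 = p 3 + c3 * p 0 ∧
    act g p 4 = p 4 + c4 * p 0

/-- Arcs together with their tangent coordinates, over the residue field. -/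
def Supply0 {σ K : Type} [Field K] [Algebra ℂ K] (κ : Type) [Field κ] [Algebra ℂ κ] (ξ : σ → K)
    (v : AddValuation K (WithTop ℤ)) (x : σ → κ) (j : σ) (A : ℕ) (P : σ → PS κ) : Prop :=
  (∀ (n : ℕ) (G : Fin n → MvPolynomial σ ℂ),
    LinearIndependent ℂ (fun i => MvPolynomial.aeval ξ (G i)) →
    LinearIndependent κ fun i => MvPolynomial.aeval P (G i)) ∧
  ∀ q N : ℕ, 1 ≤ q → 1 ≤ N → ∃ (L : Type) (_ : Field L) (_ : Algebra ℂ L) (_ : Algebra κ L)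
    (_ : IsScalarTower ℂ κ L) (p : σ → PowerSeries L) (z : Fin 3 → PowerSeries L),
    IsArc ξ x j p ∧ Cen z ∧
    (∀ (G : MvPolynomial σ ℂ) (lam : ℕ), ((lam : ℤ) : WithTop ℤ) ≤ v (MvPolynomial.aeval ξ G) →
      PowerSeries.X ^ (q * lam) ∣ MvPolynomial.aeval p G) ∧
    (∀ G : MvPolynomial σ ℂ, sub z (MvPolynomial.aeval P G) = MvPolynomial.aeval p G) ∧
    Cod κ z N (q * A + 2) ∧ rk κ (cf z N) ≤ rk κ (cf p N)

end Pool.Agent.P.MP_6149fc_ag.V18
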