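import Pool.Agent.P.MP_6149fc_ag.V18.IfaceG

/-! Sparse matrices with entries `n * c ^ k`. -/

set_option autoImplicit false

namespace Pool.Agent.P.MP_6149fc_ag.V18

/-- A sparse row. -/
abbrev Row : Type := List (ℤ × ℕ × Fin 14)

section
variable {C : Type} [CommRing C]

/-- A sparse row applied to a point. -/
def lin (c : C) (p : Fin 14 → C) : Row → C
  | [] => 0
  | a :: r => (a.1 : C) * c ^ a.2.1 * p a.2.2 + lin c p r

/-- A sparse matrix applied to a point. -/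
def ap (R : Fin 14 → Row) (c : C) (p : Fin 14 → C) : Fin 14 → C := fun i => lin c p (R i)

/-- The fourteen coordinates of `q`. -/
def Co (q : Fin 14 → C) (a0 a1 a2 a3 a4 a5 a6 a7 a8 a9 a10 a11 a12 a13 : C) : Prop :=
  q 0 = a0 ∧ q 1 = a1 ∧ q 2 = a2 ∧ q 3 = a3 ∧ q 4 = a4 ∧ q 5 = a5 ∧ q 6 = a6 ∧ q 7 = a7 ∧
    q 8 = a8 ∧ q 9 = a9 ∧ q 10 = a10 ∧ q 11 = a11 ∧ q 12 = a12 ∧ q 13 = a13

theorem Co.kk {q : Fin 14 → C} {a0 a1 a2 a3 a4 a5 a6 a7 a8 a9 a10 a11 a12 a13 : C}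
    (e : Co q a0 a1 a2 a3 a4 a5 a6 a7 a8 a9 a10 a11 a12 a13)
    (q1 : a6 * a11 = a3 * a13 + a8 * a10)
    (q2 : a7 * a10 = a2 * a13 - a5 * a11)
    (q3 : a3 * a7 = a0 * a11 - a2 * a8)
    (q4 : a0 * a10 = a2 * a6 - a3 * a5)
    (q5 : a5 * a8 = -(a2 * a11) + a3 * a10)
    (q6 : a9 * a11 = a5 * a13 + a10 * a10)
    (q7 : a5 * a6 = -(a2 * a10) + a3 * a9)
    (q8 : a6 * a7 = a0 * a13 + a2 * a11 - a3 * a10)
    (q9 : a2 * a12 = a3 * a11 + a7 * a8)
    (q10 : a2 * a4 = a0 * a8 + a3 * a3)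
    (q11 : a8 * a9 = -(a2 * a13) + a6 * a10)
    (q12 : a4 * a10 = a3 * a11 + a6 * a8)
    (q13 : a10 * a12 = a8 * a13 + a11 * a11)
    (q14 : a1 * a11 = a2 * a10 + a5 * a7)
    (q15 : a3 * a12 = a4 * a11 - a8 * a8)
    (q16 : a1 * a10 = a2 * a9 - a5 * a5)
    (q17 : a1 * a3 = a0 * a5 + a2 * a2)
    (q18 : a1 * a13 = a5 * a10 + a7 * a9)
    (q19 : a4 * a5 = -(a0 * a11) + a3 * a6)
    (q20 : a5 * a12 = a3 * a13 - a7 * a11)
    (q21 : a1 * a8 = a2 * a6 - a2 * a7 - a3 * a5)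
    (q22 : a6 * a12 = a4 * a13 + a8 * a11)
    (q23 : a1 * a6 = a0 * a9 + a2 * a5)
    (q24 : a0 * a12 = a3 * a8 + a4 * a7)
    (q25 : a4 * a9 = -(a0 * a13) + a3 * a10 + a6 * a6)
    (q26 : a9 * a12 = a6 * a13 - a7 * a13 + a10 * a11)
    (q27 : a1 * a4 = a0 * a6 - a0 * a7 + a2 * a3)
    (q28 : a1 * a12 = a0 * a13 + a2 * a11 - a7 * a7) : KK q := by
  obtain ⟨rfl, rfl, rfl, rfl, rfl, rfl, rfl, rfl, rfl, rfl, rfl, rfl, rfl, rfl⟩ := e
  exact ⟨q1, q2, q3, q4, q5, q6, q7, q8, q9, q10, q11, q12, q13, q14, q15, q16, q17, q18, q19,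
    q20, q21, q22, q23, q24, q25, q26, q27, q28⟩

theorem ext14 {p q : Fin 14 → C} (h : Co p (q 0) (q 1) (q 2) (q 3) (q 4) (q 5) (q 6) (q 7) (q 8)
    (q 9) (q 10) (q 11) (q 12) (q 13)) : p = q := by
  obtain ⟨h0, h1, h2, h3, h4, h5, h6, h7, h8, h9, h10, h11, h12, h13⟩ := h
  funext i
  fin_cases i <;> assumption

end

variable {κ : Type} [Field κ]

/-- The matrix of a sparse matrix. -/
def mat (R : Fin 14 → Row) (c : κ) : Fin 14 → Fin 14 → κ := fun i j => ap R c (Pi.single j 1) i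

theorem act_mat {C : Type} [CommRing C] [Algebra κ C] (R : Fin 14 → Row) (c : κ)
    (p : Fin 14 → C) : act (mat R c) p = ap R (algebraMap κ C c) p := by
  funext i
  change ∑ j, lin c (Pi.single j 1) (R i) • p j = lin _ p (R i)
  induction R i with
  | nil => simp [lin]
  | cons a r ih =>
    simp only [lin, add_smul, Finset.sum_add_distrib, ih]
    congr 1
    rw [Finset.sum_eq_single a.2.2 (fun j _ h => by simp [Pi.single_eq_of_ne h.symm]) (by simp)]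
    simp [Algebra.smul_def]

theorem act_mat' (R : Fin 14 → Row) (c : κ) (p : Fin 14 → κ) : act (mat R c) p = ap R c p :=
  act_mat R c p

/-- The sparse matrix preserves the quadrics. -/
def Pres (R : Fin 14 → Row) : Prop :=
  ∀ (C : Type) [CommRing C] (c : C) (p : Fin 14 → C), KK p → KK (ap R c p)

theorem isAut_uni {R : Fin 14 → Row} (hK : Pres R)
    (hI : ∀ (C : Type) [CommRing C] (c : C) (p : Fin 14 → C), ap R c (ap R (-c) p) = p) (c : κ) :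
    IsAut (mat R c) :=
  ⟨mat R (-c), fun C _ _ p => by
    simp only [act_mat, map_neg]
    exact ⟨hI C _ p, by simpa using hI C (-algebraMap κ C c) p, hK C _ p, hK C _ p⟩⟩

theorem isAut_mul {R R' : Fin 14 → Row} (hK : Pres R) (hK' : Pres R')
    (hI : ∀ (C : Type) [CommRing C] (c d : C) (p : Fin 14 → C), c * d = 1 →
      ap R c (ap R' d p) = p)
    (hI' : ∀ (C : Type) [CommRing C] (c d : C) (p : Fin 14 → C), c * d = 1 →
      ap R' c (ap R d p) = p) {c : κ} (hc : c ≠ 0) : IsAut (mat R c) :=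
  ⟨mat R' c⁻¹, fun C _ _ p => by
    simp only [act_mat]
    exact ⟨hI C _ _ p (by rw [← map_mul, mul_inv_cancel₀ hc, map_one]),
      hI' C _ _ p (by rw [← map_mul, inv_mul_cancel₀ hc, map_one]), hK C _ p, hK' C _ p⟩⟩

theorem pull_mat (R : Fin 14 → Row) (c : κ) (l : Fin 14 → κ) (j : Fin 14) :
    pull (mat R c) l j = ∑ i, l i * ap R c (Pi.single j 1) i := rfl

end Pool.Agent.P.MP_6149fc_ag.V18
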