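import Pool.Agent.P.MP_6149fc_ag.V18.BaseG

/-! Orders and lists of `(degree, exponent)` for all cases. -/

set_option autoImplicit false

namespace Pool.Agent.P.MP_6149fc_ag.V18

def A_a0a : Rows := ![![1, 1, 2], ![0, 0, -1], ![1, 0, 0]]
def P_a0a : List PT := [(1, 2, 0, 0), (1, 0, 0, 2), (1, 2, 1, 0), (1, 0, 3, 0)]
def A_a0b : Rows := ![![1, 1, 2], ![0, 0, -1], ![0, 1, 0]]
def P_a0b : List PT := [(1, 0, 0, 2), (1, 0, 3, 0), (1, 3, 0, 0)]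
def A_a1i : Rows := ![![1, 2, 3], ![0, 0, -1], ![1, 0, 0]]
def P_a1i : List PT := [(1, 2, 1, 0), (1, 1, 0, 1), (1, 1, 1, 1), (1, 0, 0, 2), (2, 0, 5, 0)]
def A_a1j : Rows := ![![1, 4, 5], ![0, 0, -1], ![1, 0, 0]]
def P_a1j : List PT := [(1, 2, 0, 1), (1, 0, 2, 0), (1, 1, 2, 0), (1, 0, 0, 2)]
def A_a21 : Rows := ![![2, 2, 5], ![0, 0, -1], ![1, 0, 0]]
def P_a21 : List PT := [(1, 1, 2, 0), (1, 1, 0, 1), (1, 1, 1, 1), (1, 0, 1, 1), (1, 0, 0, 2), (2, 5, 3, 0)]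
def A_a22 : Rows := ![![1, 1, 2], ![0, 0, -1], ![0, 1, 0]]
def P_a22 : List PT := [(1, 2, 0, 1), (1, 1, 2, 0), (1, 1, 0, 2), (1, 0, 1, 1)]
def A_a23 : Rows := ![![1, 1, 2], ![0, 0, -1], ![1, 0, 0]]
def P_a23 : List PT := [(1, 2, 1, 0), (1, 0, 2, 1), (1, 1, 0, 1), (1, 0, 1, 2)]
def A_a24 : Rows := ![![1, 1, 2], ![0, 0, -1], ![0, 1, 0]]
def P_a24 : List PT := [(1, 1, 1, 0), (1, 2, 0, 1), (1, 0, 2, 1), (1, 1, 0, 2)]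
def A_a25 : Rows := ![![1, 1, 2], ![-1, 0, -1], ![0, 0, 1]]
def P_a25 : List PT := [(1, 2, 0, 1), (1, 0, 0, 2), (1, 1, 0, 2), (1, 2, 1, 1), (1, 1, 2, 0)]
def A_a31 : Rows := ![![1, 2, 3], ![0, 0, -1], ![1, 0, 0]]
def P_a31 : List PT := [(1, 0, 2, 0), (1, 0, 0, 2), (1, 2, 0, 1), (1, 0, 2, 1)]
def A_a32 : Rows := ![![1, 2, 3], ![0, 0, 1], ![1, 0, 0]]
def P_a32 : List PT := [(1, 0, 2, 0), (1, 0, 0, 2), (1, 1, 2, 0), (1, 0, 2, 1), (1, 1, 0, 2)]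
def A_a33 : Rows := ![![1, 2, 3], ![0, 0, 1], ![1, 0, 0]]
def P_a33 : List PT := [(1, 0, 2, 0), (1, 0, 0, 2), (1, 2, 0, 1), (1, 1, 2, 1)]
def P_a3W : List PT := [(1, 1, 0, 1), (1, 0, 0, 2), (1, 1, 2, 0), (1, 0, 4, 0)]
def P_a3Y : List PT := [(1, 0, 0, 2), (1, 2, 0, 1)]
def A_b21 : Rows := ![![1, 1, 1], ![0, 1, 0], ![0, 0, 1]]
def P_b21 : List PT := [(1, 0, 2, 0), (1, 2, 0, 1), (1, 0, 2, 1), (1, 1, 0, 2)]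
def A_b22 : Rows := ![![1, 1, 1], ![0, 1, 0], ![0, 0, 1]]
def P_b22 : List PT := [(1, 0, 2, 0), (1, 2, 0, 1), (1, 0, 2, 1), (1, 0, 1, 2), (1, 1, 1, 2)]
def P_b2W : List PT := [(1, 1, 0, 2), (1, 0, 3, 0), (1, 0, 2, 1), (1, 1, 2, 1)]
def P_b2Y : List PT := [(1, 3, 0, 2)]
def P_b3W : List PT := [(1, 0, 0, 2), (1, 0, 4, 0), (1, 1, 4, 0)]
def P_b3Y : List PT := [(1, 3, 0, 2)]
def P_eZ : List PT := [(1, 0, 1, 2), (1, 0, 0, 3), (1, 1, 0, 3)]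
def P_eY : List PT := [(1, 0, 5, 0)]
def P_eT : List PT := [(1, 6, 0, 0), (1, 6, 0, 1), (1, 1, 1, 0)]
def P_eP0 : List PT := [(1, 1, 0, 0), (1, 2, 1, 0), (1, 3, 2, 0), (1, 4, 0, 1), (1, 5, 0, 1), (1, 6, 0, 1), (1, 6, 1, 1), (1, 7, 1, 1), (1, 8, 2, 1), (1, 9, 0, 2), (1, 10, 0, 2)]
def P_eP1 : List PT := [(1, 1, 0, 0), (1, 2, 1, 0), (1, 3, 2, 0), (1, 4, 0, 1), (1, 5, 0, 1), (1, 6, 0, 1), (1, 6, 1, 1), (1, 7, 1, 1), (1, 8, 2, 1), (1, 9, 3, 1), (1, 10, 1, 2)]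
def P_eL9a : List PT := [(1, 9, 0, 0), (2, 2, 1, 0), (2, 3, 0, 1)]
def P_eL9b : List PT := [(1, 9, 0, 0), (2, 2, 1, 0), (2, 6, 0, 1)]
def P_eL10a : List PT := [(1, 10, 0, 0), (2, 2, 1, 0), (2, 3, 0, 1)]
def P_eL10b : List PT := [(1, 10, 0, 0), (2, 2, 1, 0), (2, 6, 0, 1)]
def P_eS3 : List PT := [(1, 6, 0, 0), (1, 6, 1, 0), (1, 10, 1, 0), (4, 4, 0, 3)]
def P_eS4 : List PT := [(1, 6, 0, 0), (1, 6, 1, 0), (1, 10, 1, 0), (4, 4, 0, 4)]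
def A_b1 : Rows := ![![1, 1, 1], ![0, 0, 1], ![0, 1, 0]]
def P_b1000 : List PT := [(1, 1, 0, 1), (1, 0, 1, 1), (1, 1, 1, 0), (1, 1, 1, 1), (1, 2, 1, 0), (1, 1, 2, 0), (1, 1, 0, 2)]
def P_b1001 : List PT := [(1, 1, 0, 1), (1, 0, 1, 1), (1, 1, 1, 0), (1, 1, 1, 1), (1, 2, 1, 0), (1, 1, 2, 0), (1, 0, 1, 2)]
def P_b1010 : List PT := [(1, 1, 0, 1), (1, 0, 1, 1), (1, 1, 1, 0), (1, 1, 1, 1), (1, 2, 1, 0), (1, 0, 2, 1), (1, 1, 0, 2)]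
def P_b1011 : List PT := [(1, 1, 0, 1), (1, 0, 1, 1), (1, 1, 1, 0), (1, 1, 1, 1), (1, 2, 1, 0), (1, 0, 2, 1), (1, 0, 1, 2)]
def P_b1100 : List PT := [(1, 1, 0, 1), (1, 0, 1, 1), (1, 1, 1, 0), (1, 1, 1, 1), (1, 2, 0, 1), (1, 1, 2, 0), (1, 1, 0, 2)]
def P_b1101 : List PT := [(1, 1, 0, 1), (1, 0, 1, 1), (1, 1, 1, 0), (1, 1, 1, 1), (1, 2, 0, 1), (1, 1, 2, 0), (1, 0, 1, 2)]
def P_b1110 : List PT := [(1, 1, 0, 1), (1, 0, 1, 1), (1, 1, 1, 0), (1, 1, 1, 1), (1, 2, 0, 1), (1, 0, 2, 1), (1, 1, 0, 2)]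
def P_b1111 : List PT := [(1, 1, 0, 1), (1, 0, 1, 1), (1, 1, 1, 0), (1, 1, 1, 1), (1, 2, 0, 1), (1, 0, 2, 1), (1, 0, 1, 2)]

open MvPowerSeries (X)

section
variable {κ : Type} [Field κ]

/-! Equations and local coordinates of the normal forms. -/

def Ha0a (p : P14 κ) (s t : Tl κ) (v0 v2 : κ) : Prop :=
  p.x = v0 • p.w + p.tl s ∧ p.z = v2 • p.w + p.tl t ∧
    p.y - v2 ^ 2 • p.w = X 0 ∧ p.w = X 1 ∧ p.A = X 2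
def Ha0b (p : P14 κ) (s t : Tl κ) (v0 : κ) : Prop :=
  p.x = v0 • p.z + p.tl s ∧ p.w = p.tl t ∧ p.y = X 0 ∧ p.z = X 1 ∧ p.A = X 2
def Ha1i (p : P14 κ) (s t : Tl κ) (ρ : κ) : Prop :=
  p.w = ρ • p.z + p.tl s ∧ p.y = p.tl t ∧ p.x = X 0 ∧ p.z = X 1 ∧ p.B = X 2
def Ha1j (p : P14 κ) (s t : Tl κ) (ρ : κ) : Prop :=
  p.w = ρ • p.z + p.tl s ∧ p.y = p.tl t ∧ p.x = X 0 ∧ p.z = X 1 ∧ p.A = X 2
def Ha2 (p : P14 κ) (s t : Tl κ) : Prop :=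
  p.y = p.tl s ∧ p.z = p.tl t ∧ p.x = X 0 ∧ p.w = X 1 ∧ p.A = X 2
def Ha3 (p : P14 κ) (s t : Tl κ) : Prop :=
  p.z = p.tl s ∧ p.w = p.tl t ∧ p.x = X 0 ∧ p.y = X 1 ∧ p.A = X 2
def Hb1 (p : P14 κ) (s t : Tl κ) : Prop :=
  p.y = p.z + p.tl s ∧ p.A = p.tl t ∧ p.x - p.y = X 0 ∧ p.w - p.y = X 1 ∧ p.y = X 2
def Hb2 (p : P14 κ) (s t : Tl κ) : Prop :=
  p.z = p.tl s ∧ p.A = p.tl t ∧ p.x = X 0 ∧ p.y = X 1 ∧ p.w = X 2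
def Hb3 (p : P14 κ) (s t : Tl κ) (β : κ) : Prop :=
  p.w = p.tl s ∧ p.A = p.tl t ∧ β • p.x = X 0 ∧ β • p.y = X 1 ∧ β • p.z = X 2

end

end Pool.Agent.P.MP_6149fc_ag.V18
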