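import Pool.Agent.P.MP_6149fc_ag.V18.IfaceA

section

/-! Step ADM. -/

set_option autoImplicit false
set_option linter.unusedSectionVars false

namespace Pool.Agent.P.MP_6149fc_ag.V18

open scoped ENNReal
open MvPowerSeries (coeff X constantCoeff monomial)

namespace ADMx

theorem cramer {a b c d e f g h i x y z : ℤ}
    (hD : a * (e * i - f * h) - b * (d * i - f * g) + c * (d * h - e * g) ≠ 0)
    (h0 : a * x + b * y + c * z = 0) (h1 : d * x + e * y + f * z = 0)
    (h2 : g * x + h * y + i * z = 0) : x = 0 ∧ y = 0 ∧ z = 0 := by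
  refine ⟨(mul_eq_zero.1 ?_).resolve_left hD, (mul_eq_zero.1 ?_).resolve_left hD,
    (mul_eq_zero.1 ?_).resolve_left hD⟩
  · linear_combination (e * i - f * h) * h0 - (b * i - c * h) * h1 + (b * f - c * e) * h2
  · linear_combination -(d * i - f * g) * h0 + (a * i - c * g) * h1 - (a * f - c * d) * h2
  · linear_combination (d * h - e * g) * h0 - (a * h - b * g) * h1 + (a * e - b * d) * h2

theorem le_dt {r : Fin 3 → ℤ} (hr : ∀ j, 0 < r j) (α : Ex) :
    (α 0 : ℤ) ≤ dt r α ∧ (α 1 : ℤ) ≤ dt r α ∧ (α 2 : ℤ) ≤ dt r α := by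
  have h0 := hr 0
  have h1 := hr 1
  have h2 := hr 2
  have a0 : (0 : ℤ) ≤ α 0 := Int.natCast_nonneg _
  have a1 : (0 : ℤ) ≤ α 1 := Int.natCast_nonneg _
  have a2 : (0 : ℤ) ≤ α 2 := Int.natCast_nonneg _
  unfold dt
  refine ⟨?_, ?_, ?_⟩ <;> nlinarith

theorem dt_nonneg' {r : Fin 3 → ℤ} (hr : ∀ j, 0 ≤ r j) (α : Ex) : 0 ≤ dt r α := by
  have h0 := hr 0
  have h1 := hr 1
  have h2 := hr 2
  unfold dt
  positivity

end ADMx

theorem p_ADM :
    S_ADM := by
  rintro A ⟨hD, hA⟩
  refine ⟨fun α β h => ?_, ?_⟩
  · obtain ⟨h0, h1, h2⟩ := (kk_eq_iff A α β).1 h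
    unfold dt at h0 h1 h2
    obtain ⟨e0, e1, e2⟩ := ADMx.cramer (x := (α 0 : ℤ) - β 0) (y := (α 1 : ℤ) - β 1)
      (z := (α 2 : ℤ) - β 2) hD (by linear_combination h0) (by linear_combination h1)
      (by linear_combination h2)
    exact ex_ext (by omega) (by omega) (by omega)
  rcases hA with hA | hA
  · have hfin : ∀ β : Ex, {α | kk A α < kk A β}.Finite := fun β => by
      set n := (dt (A 0) β).toNat with hn
      refine (Set.finite_Iic (ex n n n)).subset fun α hα => ?_
      have hle : dt (A 0) α ≤ dt (A 0) β := by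
        rcases (kk_lt_iff A α β).1 hα with h | h
        · exact h.le
        · exact h.1.le
      obtain ⟨b0, b1, b2⟩ := ADMx.le_dt hA α
      refine Set.mem_Iic.2 fun j => ?_
      fin_cases j
      · change α 0 ≤ n; omega
      · change α 1 ≤ n; omega
      · change α 2 ≤ n; omega
    refine Subrelation.wf (fun {α β} h => ?_)
      (InvImage.wf (fun β : Ex => {α | kk A α < kk A β}.ncard) Nat.lt_wfRel.wf)
    refine Set.ncard_lt_ncard ⟨fun γ hγ => lt_trans hγ h, fun hs => ?_⟩ (hfin β)
    exact lt_irrefl _ (show kk A α < kk A α from hs h)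
  · refine Subrelation.wf (fun {α β} h => ?_)
      (InvImage.wf (fun α : Ex => (toLex ((dt (A 0) α).toNat,
        toLex ((dt (A 1) α).toNat, (dt (A 2) α).toNat)) : ℕ ×ₗ ℕ ×ₗ ℕ)) wellFounded_lt)
    have a0 := ADMx.dt_nonneg' (hA 0) α
    have a1 := ADMx.dt_nonneg' (hA 1) α
    have a2 := ADMx.dt_nonneg' (hA 2) α
    have b0 := ADMx.dt_nonneg' (hA 0) β
    have b1 := ADMx.dt_nonneg' (hA 1) β
    have b2 := ADMx.dt_nonneg' (hA 2) β
    have := (kk_lt_iff A α β).1 h
    simp only [InvImage, Prod.Lex.toLex_lt_toLex]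
    omega

end Pool.Agent.P.MP_6149fc_ag.V18

end

section

/-! Step TWOFLAG. -/

set_option autoImplicit false
set_option linter.unusedSectionVars false

namespace Pool.Agent.P.MP_6149fc_ag.V18

open scoped ENNReal
open MvPowerSeries (coeff X constantCoeff monomial)

namespace TWOFLAGx

theorem fresh {κ : Type} [Field κ] {A : Rows} {ι : Type} {f : ι → PS κ} (hA : Adm A)
    (hf : LinearIndependent κ f) (T : Finset ι) (B : Finset Ex) (hB : B.card < T.card) :
    ∃ h ∈ Submodule.span κ (f '' (T : Set ι)), ∃ γ, γ ∉ B ∧ Init A h γ := by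
  classical
  have hli : LinearIndependent κ (fun j : T => f j) := hf.comp _ Subtype.val_injective
  have hr : Set.range (fun j : T => f j) = f '' (T : Set ι) := by
    ext x; simp
  have hd := finrank_span_eq_card hli
  rw [hr, Fintype.card_coe] at hd
  have : FiniteDimensional κ (Submodule.span κ (f '' (T : Set ι))) :=
    FiniteDimensional.span_of_finite κ (T.finite_toSet.image f)
  obtain ⟨L, hc, hL⟩ := init_count hA (Submodule.span κ (f '' (T : Set ι)))
  obtain ⟨γ, h1, h2⟩ := Finset.exists_mem_notMem_of_card_lt_card (s := B) (t := L) (by omega)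
  obtain ⟨h, hh, hi⟩ := (hL γ).1 h1
  exact ⟨h, hh, γ, h2, hi⟩

end TWOFLAGx

open TWOFLAGx in
theorem p_TWOFLAG :
    S_TWOFLAG := by
  classical
  intro κ _ A ι Λ C _ _ f r cl hA hf
  have main : ∀ s : Finset ι, ∃ (g : ι → PS κ) (γ : ι → Ex),
      (∀ i ∈ s, g i ∈ Submodule.span κ (f '' {j | cl j = cl i ∧ r i ≤ r j}) ∧
        Init A (g i) (γ i)) ∧ ∀ i ∈ s, ∀ j ∈ s, cl i = cl j → γ i = γ j → i = j := by
    intro s
    induction s using Finset.induction_on_min_value r with
    | empty => exact ⟨f, fun _ => 0, by simp, by simp⟩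
    | insert a s ha hmin ih =>
      obtain ⟨g, γ, h1, h2⟩ := ih
      obtain ⟨h, hh, γ0, hn, hi⟩ := fresh hA hf (insert a (s.filter fun j => cl j = cl a))
        ((s.filter fun j => cl j = cl a).image γ) (by
          rw [Finset.card_insert_of_notMem (by simp [ha])]
          exact Nat.lt_succ_of_le Finset.card_image_le)
      have hne : ∀ i ∈ s, i ≠ a := fun i hi e => ha (e ▸ hi)
      have hn' : ∀ j ∈ s, cl j = cl a → γ j ≠ γ0 := fun j hj e1 e2 =>
        hn (Finset.mem_image.2 ⟨j, Finset.mem_filter.2 ⟨hj, e1⟩, e2⟩)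
      refine ⟨Function.update g a h, Function.update γ a γ0, ?_, ?_⟩
      · intro i hi'
        rcases Finset.mem_insert.1 hi' with rfl | hi'
        · rw [Function.update_self, Function.update_self]
          refine ⟨Submodule.span_mono (Set.image_mono ?_) hh, hi⟩
          intro j hj
          rcases Finset.mem_insert.1 (Finset.mem_coe.1 hj) with rfl | hj
          · exact ⟨rfl, le_rfl⟩
          · rw [Finset.mem_filter] at hj
            exact ⟨hj.2, hmin j hj.1⟩
        · rw [Function.update_of_ne (hne i hi'), Function.update_of_ne (hne i hi')]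
          exact h1 i hi'
      · intro i hi0 j hj0 e1 e2
        rcases Finset.mem_insert.1 hi0 with ea | hi' <;>
          rcases Finset.mem_insert.1 hj0 with eb | hj
        · rw [ea, eb]
        · rw [ea, Function.update_self, Function.update_of_ne (hne j hj)] at e2
          exact absurd e2.symm (hn' j hj (ea ▸ e1.symm))
        · rw [eb, Function.update_self, Function.update_of_ne (hne i hi')] at e2
          exact absurd e2 (hn' i hi' (eb ▸ e1))
        · rw [Function.update_of_ne (hne i hi'), Function.update_of_ne (hne j hj)] at e2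
          exact h2 i hi' j hj e1 e2
  obtain ⟨g, γ, h1, h2⟩ := main Finset.univ
  exact ⟨g, γ, fun i => h1 i (Finset.mem_univ i),
    fun i j => h2 i (Finset.mem_univ i) j (Finset.mem_univ j)⟩

end Pool.Agent.P.MP_6149fc_ag.V18

end

section

/-! Step TWO2. -/

set_option autoImplicit false
set_option linter.unusedSectionVars false

namespace Pool.Agent.P.MP_6149fc_ag.V18

open scoped ENNReal
open MvPowerSeries (coeff X constantCoeff monomial)

namespace TWO2x

variable {κ : Type} [Field κ] {B : Rows} {k : Key} {f g f' g' : PS κ}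

theorem zero : LeadK B k (0 : PS κ) 0 :=
  ⟨fun _ h => absurd (map_zero _) h, fun _ h => absurd (by simp) h⟩

theorem add (h : LeadK B k f g) (h' : LeadK B k f' g') : LeadK B k (f + f') (g + g') := by
  refine ⟨(On κ fun α => kk B α = k).add_mem h.1 h'.1, ?_⟩
  have e : f + f' - (g + g') = (f - g) + (f' - g') := by ring
  rw [e]
  exact (On κ fun α => k < kk B α).add_mem h.2 h'.2

theorem smul (c : κ) (h : LeadK B k f g) : LeadK B k (c • f) (c • g) := by
  refine ⟨(On κ fun α => kk B α = k).smul_mem c h.1, ?_⟩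
  rw [← smul_sub]
  exact (On κ fun α => k < kk B α).smul_mem c h.2

end TWO2x

theorem p_TWO2 (hTWOFLAG : S_TWOFLAG) :
    S_TWO2 := by
  intro κ _ A B ι Λ _ _ W f g k r hA hR hf hL hg
  obtain ⟨g', γ, h1, h2⟩ := hTWOFLAG κ A ι Λ Key g r k hA hg
  have key : ∀ i, ∃ f' ∈ W, LeadK B (k i) f' (g' i) := fun i => by
    refine Submodule.span_induction (p := fun x _ => ∃ f' ∈ W, LeadK B (k i) f' x) ?_ ?_ ?_ ?_
      (h1 i).1
    · rintro _ ⟨j, hj, rfl⟩
      exact ⟨f j, hf j, hj.1 ▸ hL j⟩
    · exact ⟨0, W.zero_mem, TWO2x.zero⟩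
    · rintro x y - - ⟨a, ha, ha'⟩ ⟨b, hb, hb'⟩
      exact ⟨a + b, W.add_mem ha hb, TWO2x.add ha' hb'⟩
    · rintro c x - ⟨a, ha, ha'⟩
      exact ⟨c • a, W.smul_mem c ha, TWO2x.smul c ha'⟩
  choose f' hW hK using key
  have hk : ∀ i, kk B (γ i) = k i := fun i => (hK i).1 _ (h1 i).2.1
  refine ⟨f', g', γ, fun i j e => h2 i j (by rw [← hk i, ← hk j, e]) e, fun i =>
    ⟨hW i, hK i, (h1 i).1, (h1 i).2, (hK i).init hR (h1 i).2, hk i⟩⟩

end Pool.Agent.P.MP_6149fc_ag.V18

end

section

/-! Step RED. -/

set_option autoImplicit false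
set_option linter.unusedSectionVars false

namespace Pool.Agent.P.MP_6149fc_ag.V18

open scoped ENNReal
open MvPowerSeries (coeff X constantCoeff monomial)

namespace REDx

theorem le_span {κ L : Type} [Field κ] [Field L] [Algebra κ L]
    (ψ : PS κ →ₐ[κ] PowerSeries L) (S : Set (PS κ)) (r : ℕ∞)
    (hS : ∀ f ∈ S, r ≤ (ψ f).order) {g : PS κ} (hg : g ∈ Submodule.span κ S) :
    r ≤ (ψ g).order := by
  induction hg using Submodule.span_induction with
  | mem x hx => exact hS x hx
  | zero => rw [map_zero, PowerSeries.order_zero]; exact le_top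
  | add x y _ _ hx hy =>
    rw [map_add]
    exact (le_min hx hy).trans (PowerSeries.min_order_le_order_add _ _)
  | smul c x _ hx =>
    rw [map_smul, Algebra.smul_def]
    exact (hx.trans le_add_self).trans (PowerSeries.le_order_mul _ _)

end REDx

theorem p_RED (hTWOFLAG : S_TWOFLAG) :
    S_RED := by
  intro κ _ A U V hA hD M μ n f hB hU hli L _ _ z N a hz hdvd hcod
  obtain ⟨ψ, hψ, -⟩ := exists_subHom (κ := κ) hz
  obtain ⟨g, γ, hg, hinj⟩ := hTWOFLAG κ A (Fin n) ℕ∞ Unit f (fun i => (ψ (f i)).order)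
    (fun _ => ()) hA hli
  have hgU : ∀ i, g i ∈ U M := fun i =>
    (Submodule.span_le.2 (by rintro _ ⟨j, -, rfl⟩; exact hU j)) (hg i).1
  have hord : ∀ i, (ψ (f i)).order ≤ (ψ (g i)).order := fun i =>
    REDx.le_span ψ _ _ (by rintro _ ⟨j, hj, rfl⟩; exact hj.2) (hg i).1
  refine hD M μ n g γ hB hgU (fun i => (hg i).2) (fun i j h => hinj i j rfl h) L z N a hz ?_ hcod
  rw [← hψ, dvd_iff_le_order, map_prod, PowerSeries.order_prod] at hdvd ⊢
  exact hdvd.trans (Finset.sum_le_sum fun i _ => hord i)

end Pool.Agent.P.MP_6149fc_ag.V18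

end

section

/-! Step RKA. -/

set_option autoImplicit false
set_option linter.unusedSectionVars false

namespace Pool.Agent.P.MP_6149fc_ag.V18

open scoped ENNReal
open MvPowerSeries (coeff X constantCoeff monomial)

theorem p_RKA :
    S_RKA := by
  classical
  intro κ L _ _ _
  refine ⟨fun T T' h => ?_, fun T s => ?_, fun s => ?_, fun β _ x r => ⟨fun h => ?_, ?_⟩⟩
  · rw [rk, rk, ← Matroid.eRk_closure_eq _ T']
    refine Matroid.eRk_mono _ fun a ha => ?_
    rw [AlgebraicIndependent.matroid_closure_eq, SetLike.mem_coe, Subalgebra.mem_algebraicClosure,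
      ← IntermediateField.isAlgebraic_adjoin_iff]
    exact isAlgebraic_algebraMap (⟨a, h ha⟩ : IntermediateField.adjoin κ T')
  · rw [rk, rk, ← Set.encard_coe_eq_coe_finsetCard]
    exact Matroid.eRk_union_le_eRk_add_encard _ _ _
  · rw [rk, ← Set.encard_coe_eq_coe_finsetCard]
    exact Matroid.eRk_le_encard _ _
  · obtain ⟨I, h1, h2, h3⟩ := Matroid.le_eRk_iff.1 h
    obtain ⟨J, h4, h5⟩ := Set.exists_subset_bijOn (x ⁻¹' I) x
    rw [Set.image_preimage_eq_of_subset h1] at h5
    refine ⟨J.toFinset, ?_, ?_⟩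
    · have h6 : J.encard = r := by rw [← h3, ← h5.image_eq, h5.injOn.encard_image]
      rw [← Set.coe_toFinset J, Set.encard_coe_eq_coe_finsetCard] at h6
      exact_mod_cast h6
    · have h6 : AlgebraicIndependent κ fun b : (J.toFinset : Set β) => x b := by
        rw [Set.coe_toFinset, algebraicIndependent_image h5.injOn, h5.image_eq]
        exact h2
      exact h6
  · rintro ⟨S, rfl, h⟩
    have h1 : Set.InjOn x (S : Set β) := fun a ha b hb e =>
      congrArg Subtype.val (h.injective (a₁ := ⟨a, ha⟩) (a₂ := ⟨b, hb⟩) e)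
    refine Matroid.le_eRk_iff.2 ⟨x '' S, Set.image_subset_range _ _, ?_, ?_⟩
    · exact (algebraicIndependent_image h1).1 h
    · rw [h1.encard_image, Set.encard_coe_eq_coe_finsetCard]

end Pool.Agent.P.MP_6149fc_ag.V18

end

section

/-! Step RKB. -/

set_option autoImplicit false
set_option linter.unusedSectionVars false

namespace Pool.Agent.P.MP_6149fc_ag.V18

open scoped ENNReal
open MvPowerSeries (coeff X constantCoeff monomial)

theorem p_RKB (hRKA : S_RKA) :
    S_RKB := by
  intro κ L _ _ _ T s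
  set K := IntermediateField.adjoin κ (s : Set L) with hK
  obtain ⟨I, hI⟩ := (AlgebraicIndependent.matroid K L).exists_isBasis T
  have h1 : rk K T = I.encard := hI.eRk_eq_encard
  have hsub : T ⊆ (AlgebraicIndependent.matroid κ L).closure (I ∪ (s : Set L)) := by
    intro a ha
    have alg : IsAlgebraic (Algebra.adjoin K I) a :=
      (AlgebraicIndependent.matroid_isBasis_iff.1 hI).2.2 a ha
    rw [AlgebraicIndependent.matroid_closure_eq, SetLike.mem_coe, Subalgebra.mem_algebraicClosure,
      ← IntermediateField.isAlgebraic_adjoin_iff]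
    set F := IntermediateField.adjoin κ (I ∪ (s : Set L)) with hF
    have hle : ∀ x : L, x ∈ Algebra.adjoin K I → x ∈ F := by
      intro x hx
      induction hx using Algebra.adjoin_induction with
      | mem x hx => exact IntermediateField.subset_adjoin _ _ (Or.inl hx)
      | algebraMap r =>
        exact IntermediateField.adjoin.mono κ _ _ Set.subset_union_right r.2
      | add x y _ _ hx hy => exact F.add_mem hx hy
      | mul x y _ _ hx hy => exact F.mul_mem hx hy
    let f : Algebra.adjoin K I →+* F :=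
      RingHom.codRestrict (Algebra.adjoin K I).val.toRingHom F.toSubalgebra.toSubring
        fun x => hle x x.2
    have hf : Function.Injective f := by
      intro x y h
      exact Subtype.ext (congrArg (fun z : F => (z : L)) h)
    exact alg.ringHom_of_comp_eq f (RingHom.id L) hf (by ext x; rfl)
  have h2 : rk κ T ≤ rk κ (I ∪ (s : Set L)) := by
    unfold rk
    rw [← Matroid.eRk_closure_eq _ (I ∪ (s : Set L))]
    exact Matroid.eRk_mono _ hsub
  refine h2.trans (((hRKA κ L).2.1 I s).trans ?_)
  rw [h1]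
  exact add_le_add_left (Matroid.eRk_le_encard _ _) _

end Pool.Agent.P.MP_6149fc_ag.V18

end

section

/-! Step CFA. -/

set_option autoImplicit false
set_option linter.unusedSectionVars false

namespace Pool.Agent.P.MP_6149fc_ag.V18

open scoped ENNReal
open MvPowerSeries (coeff X constantCoeff monomial)

namespace CFAx

variable {κ L : Type} [Field κ] [Field L] [Algebra κ L] (F : IntermediateField κ L)

theorem cf_mul (n : ℕ) (f g : PowerSeries L) (hf : CF F n f) (hg : CF F n g) :
    CF F n (f * g) := by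
  intro l hl
  rw [PowerSeries.coeff_mul]
  refine F.sum_mem fun p hp => ?_
  have hp' := Finset.HasAntidiagonal.mem_antidiagonal.mp hp
  exact F.mul_mem (hf p.1 (by omega)) (hg p.2 (by omega))

theorem cf_one (n : ℕ) : CF F n (1 : PowerSeries L) := by
  intro l _
  rw [PowerSeries.coeff_one]
  split_ifs
  · exact F.one_mem
  · exact F.zero_mem

theorem cf_pow (n k : ℕ) (f : PowerSeries L) (hf : CF F n f) : CF F n (f ^ k) := by
  induction k with
  | zero => rw [pow_zero]; exact cf_one F n
  | succ k ih => rw [pow_succ]; exact cf_mul F n _ _ ih hf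

theorem cf_prod {ι : Type} (n : ℕ) (s : Finset ι) (f : ι → PowerSeries L)
    (hf : ∀ i ∈ s, CF F n (f i)) : CF F n (∏ i ∈ s, f i) := by
  classical
  induction s using Finset.induction_on with
  | empty => rw [Finset.prod_empty]; exact cf_one F n
  | insert a s ha ih =>
    rw [Finset.prod_insert ha]
    exact cf_mul F n _ _ (hf a (Finset.mem_insert_self a s))
      (ih fun i hi => hf i (Finset.mem_insert_of_mem hi))

theorem cf_shift (n e : ℕ) (f : PowerSeries L) :
    CF F n f ↔ CF F (n + e) (PowerSeries.X ^ e * f) := by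
  constructor
  · intro hf l hl
    rw [PowerSeries.coeff_X_pow_mul']
    split_ifs with h
    · exact hf _ (by omega)
    · exact F.zero_mem
  · intro hf l hl
    have h := hf (l + e) (by omega)
    rwa [PowerSeries.coeff_X_pow_mul] at h

theorem cf_div (n : ℕ) (u v h : PowerSeries L) (hu0 : PowerSeries.constantCoeff u ≠ 0)
    (hu : CF F n u) (hh : CF F n h) (hd : PowerSeries.X ^ n ∣ u * v - h) : CF F n v := by
  intro l
  induction l using Nat.strong_induction_on with
  | _ l ih =>
    intro hl
    have h1 := PowerSeries.X_pow_dvd_iff.mp hd l hl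
    rw [map_sub, sub_eq_zero, PowerSeries.coeff_mul] at h1
    have hmem : ((0, l) : ℕ × ℕ) ∈ Finset.HasAntidiagonal.antidiagonal l := by simp
    rw [← Finset.add_sum_erase _ _ hmem] at h1
    have h2 : (∑ p ∈ (Finset.HasAntidiagonal.antidiagonal l).erase (0, l),
        PowerSeries.coeff p.1 u * PowerSeries.coeff p.2 v) ∈ F := by
      refine F.sum_mem fun p hp => ?_
      obtain ⟨hp1, hp2⟩ := Finset.mem_erase.mp hp
      have hp' := Finset.HasAntidiagonal.mem_antidiagonal.mp hp2
      have hlt : p.2 < l := by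
        by_contra hc
        apply hp1
        have e1 : p.1 = 0 := by omega
        have e2 : p.2 = l := by omega
        exact Prod.ext e1 e2
      exact F.mul_mem (hu p.1 (by omega)) (ih p.2 hlt (by omega))
    have h0 : PowerSeries.coeff 0 u ≠ 0 := by
      rwa [PowerSeries.coeff_zero_eq_constantCoeff_apply]
    have h3 : PowerSeries.coeff l v = (PowerSeries.coeff 0 u)⁻¹ * (PowerSeries.coeff l h -
        ∑ p ∈ (Finset.HasAntidiagonal.antidiagonal l).erase (0, l),
          PowerSeries.coeff p.1 u * PowerSeries.coeff p.2 v) := by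
      rw [← h1, add_sub_cancel_right, ← mul_assoc, inv_mul_cancel₀ h0, one_mul]
    rw [h3]
    exact F.mul_mem (F.inv_mem (hu 0 (by omega))) (F.sub_mem (hh l hl) h2)

theorem cf_sub (n : ℕ) (z : Fin 3 → PowerSeries L) (θ : PS κ) (hz : Cen z)
    (hc : ∀ j, CF F n (z j)) : CF F n (sub z θ) := by
  intro l hl
  have hfin := Finsupp.finite_of_degree_le (σ := Fin 3) l
  rw [coeff_sub hz θ l hfin.toFinset fun α hα => hfin.mem_toFinset.mpr hα]
  refine F.sum_mem fun α _ => F.smul_mem ?_
  exact cf_prod F n _ _ (fun a _ => cf_pow F n _ _ (hc a)) l hl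

end CFAx

theorem p_CFA :
    S_CFA := by
  intro κ L _ _ _ F
  exact ⟨CFAx.cf_mul F, CFAx.cf_pow F, CFAx.cf_shift F, CFAx.cf_div F, CFAx.cf_sub F⟩

end Pool.Agent.P.MP_6149fc_ag.V18

end

section

/-! Step SUBC. -/

set_option autoImplicit false
set_option linter.unusedSectionVars false

namespace Pool.Agent.P.MP_6149fc_ag.V18

open scoped ENNReal
open MvPowerSeries (coeff X constantCoeff monomial)

theorem p_SUBC :
    S_SUBC := by
  intro κ L _ _ _ z z' N f hz hz' h
  rw [PowerSeries.X_pow_dvd_iff]
  intro s hs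
  have hA : ∀ α : Fin 3 →₀ ℕ, Finsupp.degree α ≤ s →
      α ∈ (Finsupp.finite_of_degree_le (σ := Fin 3) s).toFinset := fun α hα => by
    simpa using hα
  rw [map_sub, coeff_sub hz f s _ hA, coeff_sub hz' f s _ hA, sub_eq_zero]
  refine Finset.sum_congr rfl fun α _ => ?_
  congr 1
  have h1 : (PowerSeries.X : PowerSeries L) ^ N ∣ ∏ a, z a ^ α a - ∏ a, z' a ^ α a := by
    rw [← Ideal.mem_span_singleton, ← Ideal.Quotient.eq, map_prod, map_prod]
    refine Finset.prod_congr rfl fun a _ => ?_
    rw [map_pow, map_pow, Ideal.Quotient.eq.2 (Ideal.mem_span_singleton.2 (h a))]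
  have h2 := PowerSeries.X_pow_dvd_iff.1 h1 s hs
  rwa [map_sub, sub_eq_zero] at h2

end Pool.Agent.P.MP_6149fc_ag.V18

end

section

/-! Step BC. -/

set_option autoImplicit false
set_option linter.unusedSectionVars false

namespace Pool.Agent.P.MP_6149fc_ag.V18

open scoped ENNReal
open MvPowerSeries (coeff X constantCoeff monomial)

theorem p_BC :
    S_BC := by
  intro κ κ' _ _ _
  refine ⟨fun ι f hf => ?_, fun L _ _ _ _ z hz => ⟨fun f => ?_, fun f => ?_, fun θ f hθ => ?_⟩⟩
  · rw [linearIndependent_iff'] at hf ⊢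
    intro s c h i hi
    refine (Module.forall_dual_apply_eq_zero_iff κ (c i)).1 fun φ => ?_
    refine hf s (fun j => φ (c j)) ?_ i hi
    ext α
    have := congrArg (fun g => φ (coeff α g)) h
    simp only [map_sum, map_smul, MvPowerSeries.coeff_map, smul_eq_mul, map_zero] at this ⊢
    rw [← this]
    refine Finset.sum_congr rfl fun j _ => ?_
    rw [mul_comm (c j), ← Algebra.smul_def, map_smul, smul_eq_mul, mul_comm]
  · unfold sub
    ext s
    change MvPowerSeries.coeff (Finsupp.single () s) _ = MvPowerSeries.coeff (Finsupp.single () s) _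
    rw [MvPowerSeries.coeff_subst (hasSubst_of hz), MvPowerSeries.coeff_subst (hasSubst_of hz)]
    simp only [MvPowerSeries.coeff_map, algebraMap_smul]
  · rw [← PowerSeries.coeff_zero_eq_constantCoeff_apply,
      coeff_sub hz f 0 {0} fun α h => by
        rw [Finset.mem_singleton, ← Finsupp.degree_eq_zero_iff]; omega]
    simp [Algebra.smul_def]
  · exact MvPowerSeries.subst_comp_subst_apply
      (MvPowerSeries.hasSubst_of_constantCoeff_zero hθ) (hasSubst_of hz) f

end Pool.Agent.P.MP_6149fc_ag.V18

end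

section

/-! Step ORD. -/

set_option autoImplicit false
set_option linter.unusedSectionVars false

namespace Pool.Agent.P.MP_6149fc_ag.V18

open scoped ENNReal
open MvPowerSeries (coeff X constantCoeff monomial)

theorem p_ORD (hRKA : S_RKA) :
    S_ORD := by
  classical
  intro κ L _ _ _ z N a o hC ho
  obtain ⟨h1, -, h3, -⟩ := hRKA κ L
  let s : Finset L := Finset.univ.biUnion fun j : Fin 3 =>
    (Finset.Ico (o j) N).image fun l => PowerSeries.coeff l (z j)
  have hs : s.card ≤ ∑ j : Fin 3, (N - o j) := by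
    refine Finset.card_biUnion_le.trans (Finset.sum_le_sum fun j _ => ?_)
    exact Finset.card_image_le.trans (by rw [Nat.card_Ico])
  have hsub : cf z N ⊆ (IntermediateField.adjoin κ (s : Set L) : Set L) := by
    rintro c ⟨j, l, hl, rfl⟩
    by_cases hlo : l < o j
    · rw [PowerSeries.X_pow_dvd_iff.1 (ho j).2 l hlo]
      exact zero_mem _
    · refine IntermediateField.subset_adjoin κ _ ?_
      exact Finset.mem_coe.2 (Finset.mem_biUnion.2 ⟨j, Finset.mem_univ _,
        Finset.mem_image.2 ⟨l, Finset.mem_Ico.2 ⟨not_lt.1 hlo, hl⟩, rfl⟩⟩)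
  have h4 : ((3 * N : ℕ) : ℕ∞) ≤ ((s.card + a : ℕ) : ℕ∞) := by
    refine le_trans hC ?_
    push_cast
    exact add_le_add ((h1 _ _ hsub).trans (h3 s)) le_rfl
  have h5 : 3 * N ≤ s.card + a := by exact_mod_cast h4
  rw [Fin.sum_univ_three] at hs
  have := (ho 0).1
  have := (ho 1).1
  have := (ho 2).1
  omega

end Pool.Agent.P.MP_6149fc_ag.V18

end

section

/-! Step MONO. -/

set_option autoImplicit false
set_option linter.unusedSectionVars false

namespace Pool.Agent.P.MP_6149fc_ag.V18

open scoped ENNReal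
open MvPowerSeries (coeff X constantCoeff monomial)

theorem p_MONO :
    S_MONO := by
  classical
  intro κ L _ _ _ z N γ c hz hc hd
  obtain ⟨ψ, hψ, hX⟩ := exists_subHom (κ := κ) hz
  have h0 : sub z (monomial γ c : PS κ) = c • ∏ j, z j ^ γ j := by
    have : (monomial γ c : PS κ) = c • mon κ (γ 0) (γ 1) (γ 2) := by
      rw [mon_eq, ex_eta, ← map_smul, smul_eq_mul, mul_one]
    rw [← hψ, this, map_smul, mon, Fin.prod_univ_three]
    simp only [map_mul, map_pow, hX]
  have h1 : (N : ℕ∞) ≤ ∑ j, γ j • (z j).order := by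
    have : (N : ℕ∞) ≤ (∏ j, z j ^ γ j).order := by
      refine PowerSeries.nat_le_order _ _ fun s hs => ?_
      have := PowerSeries.X_pow_dvd_iff.1 hd s hs
      rw [h0, Algebra.smul_def, PowerSeries.algebraMap_apply, PowerSeries.coeff_C_mul] at this
      exact (mul_eq_zero.1 this).resolve_left ((map_ne_zero _).2 hc)
    simpa only [PowerSeries.order_prod, PowerSeries.order_pow] using this
  have h2 : ∀ j, ∃ o : ℕ, (o : ℕ∞) = min (N : ℕ∞) (z j).order := fun j =>
    ⟨_, ENat.natCast_toNat (ne_top_of_le_ne_top (ENat.natCast_ne_top N) (min_le_left _ _))⟩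
  choose o ho using h2
  have hoN : ∀ j, o j ≤ N := fun j => by
    have := ho j ▸ min_le_left (N : ℕ∞) (z j).order
    exact_mod_cast this
  have h3 : N ≤ ∑ j, γ j * o j := by
    by_cases hc : ∃ j, γ j ≠ 0 ∧ (N : ℕ∞) ≤ (z j).order
    · obtain ⟨j, hj, hj'⟩ := hc
      have : o j = N := by
        have := ho j
        rw [min_eq_left hj'] at this
        exact_mod_cast this
      refine le_trans ?_ (Finset.single_le_sum (f := fun j => γ j * o j)
        (fun _ _ => Nat.zero_le _) (Finset.mem_univ j))
      rw [this]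
      exact Nat.le_mul_of_pos_left _ (Nat.pos_of_ne_zero hj)
    · push Not at hc
      have : ∑ j, γ j • (z j).order = ((∑ j, γ j * o j : ℕ) : ℕ∞) := by
        rw [Nat.cast_sum]
        refine Finset.sum_congr rfl fun j _ => ?_
        by_cases hj : γ j = 0
        · simp [hj]
        · rw [Nat.cast_mul, ho, min_eq_right (hc j hj).le, nsmul_eq_mul]
      rw [this] at h1
      exact_mod_cast h1
  refine ⟨o, fun j => ⟨hoN j, PowerSeries.X_pow_dvd_iff.2 fun s hs => ?_, ?_⟩,
    by rwa [Fin.sum_univ_three] at h3⟩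
  · refine PowerSeries.coeff_of_lt_order _ (lt_of_lt_of_le ?_ (ho j ▸ min_le_right _ _))
    exact_mod_cast hs
  · rcases le_total (N : ℕ∞) (z j).order with h | h
    · have := ho j
      rw [min_eq_left h] at this
      exact .inl (by exact_mod_cast this)
    · exact .inr (by rw [ho, min_eq_right h])

end Pool.Agent.P.MP_6149fc_ag.V18

end

section

/-! Step TRUNC. -/

set_option autoImplicit false
set_option linter.unusedSectionVars false

namespace Pool.Agent.P.MP_6149fc_ag.V18

open scoped ENNReal
open MvPowerSeries (coeff X constantCoeff monomial)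

theorem p_TRUNC (hSUBC : S_SUBC) (hORD : S_ORD) :
    S_TRUNC := by
  intro κ _ f μ H L _ _ z N a hz hdvd hcod
  rcases Nat.eq_zero_or_pos N with rfl | hN
  · exact Nat.zero_le _
  let z' : Fin 3 → PowerSeries L := fun j => PowerSeries.mk fun l =>
    if l < N then PowerSeries.coeff l (z j) else if l = N then 1 else 0
  have hc : ∀ j l, PowerSeries.coeff l (z' j) =
      if l < N then PowerSeries.coeff l (z j) else if l = N then 1 else 0 := fun j l => by
    simp only [z', PowerSeries.coeff_mk]
  have hlow : ∀ j l, l < N → PowerSeries.coeff l (z' j) = PowerSeries.coeff l (z j) :=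
    fun j l hl => by rw [hc, if_pos hl]
  have hz' : Cen z' := fun j => by
    rw [← PowerSeries.coeff_zero_eq_constantCoeff_apply, hlow j 0 hN,
      PowerSeries.coeff_zero_eq_constantCoeff_apply]
    exact hz j
  have hcf : cf z' N = cf z N := by
    ext c
    constructor
    · rintro ⟨j, l, hl, rfl⟩
      exact ⟨j, l, hl, hlow j l hl⟩
    · rintro ⟨j, l, hl, rfl⟩
      exact ⟨j, l, hl, (hlow j l hl).symm⟩
  have hcod' : Cod κ z' N a := by
    unfold Cod at hcod ⊢
    rwa [hcf]
  have hle : ∀ j, (z' j).order ≤ N := fun j =>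
    PowerSeries.order_le N (by rw [hc, if_neg (lt_irrefl N), if_pos rfl]; exact one_ne_zero)
  have hfin : ∀ j, (z' j).order ≠ ⊤ := fun j h => by
    have := hle j
    rw [h] at this
    exact absurd this (by simp)
  let o : Fin 3 → ℕ := fun j => (z' j).order.toNat
  have ho : ∀ j, (z' j).order = o j := fun j => (ENat.natCast_toNat (hfin j)).symm
  have hoN : ∀ j, o j ≤ N := fun j => by
    have := hle j
    rw [ho j] at this
    exact_mod_cast this
  have ho1 : ∀ j, 1 ≤ o j := fun j => by
    have h1 : ((1 : ℕ) : ℕ∞) ≤ (z' j).order := PowerSeries.nat_le_order _ 1 fun i hi => by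
      have : i = 0 := by omega
      subst this
      rw [PowerSeries.coeff_zero_eq_constantCoeff_apply]
      exact hz' j
    rw [ho j] at h1
    exact_mod_cast h1
  have hnrm : Nrm z' N o := ⟨hz', fun j => ⟨ho j, ho1 j, hoN j, fun l hl => by
    rw [hc, if_neg (not_lt.2 hl)]⟩⟩
  have hsub := hSUBC κ L z z' N f hz hz' fun j => PowerSeries.X_pow_dvd_iff.2 fun m hm => by
    rw [map_sub, hlow j m hm, sub_self]
  have hdvd' : PowerSeries.X ^ N ∣ sub z' f := by
    have := dvd_sub hdvd hsub
    rwa [sub_sub_cancel] at this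
  exact H L z' N a o hnrm hdvd' hcod'
    (hORD κ L z' N a o hcod' fun j => ⟨hoN j, dvd_iff_le_order.2 (ho j).ge⟩)

end Pool.Agent.P.MP_6149fc_ag.V18

end

section

/-! Step GR. -/

set_option autoImplicit false
set_option linter.unusedSectionVars false

namespace Pool.Agent.P.MP_6149fc_ag.V18

open scoped ENNReal
open MvPowerSeries (coeff X constantCoeff monomial)

namespace GRx

variable {κ : Type} [Field κ] {w : Fin 3 → ℕ}

theorem indep {ι : Type} {f g : ι → PS κ} {k : ι → ℕ} (h : ∀ i, Ld w (k i) (f i) (g i))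
    (hg : LinearIndependent κ g) : LinearIndependent κ f := by
  classical
  rw [linearIndependent_iff'] at hg ⊢
  intro s c hs
  have key : ∀ n, ∀ i ∈ s, k i = n → c i = 0 := by
    intro n
    induction n using Nat.strong_induction_on with
    | _ n ih =>
      intro i hi hk
      refine hg (s.filter fun j => k j = n) c ?_ i (Finset.mem_filter.2 ⟨hi, hk⟩)
      ext α
      rw [map_sum, map_zero]
      by_cases hα : wt w α = n
      · have h0 := congrArg (coeff α) hs
        rw [map_sum, map_zero] at h0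
        rw [Finset.sum_filter]
        refine (Finset.sum_congr rfl fun j hj => ?_).trans h0
        split_ifs with e
        · have h1 : coeff α (f j - g j) = 0 := by
            by_contra h1
            have := (h j).2 α h1
            omega
          rw [map_sub, sub_eq_zero] at h1
          simp [h1]
        · rcases lt_or_gt_of_ne e with e | e
          · simp [ih _ e j hj rfl]
          · have h1 : coeff α (f j) = 0 := by
              by_contra h1
              have := (h j).ge α h1
              omega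
            simp [h1]
      · refine Finset.sum_eq_zero fun j hj => ?_
        have h1 : coeff α (g j) = 0 := by
          by_contra h1
          exact hα (((h j).1 α h1).trans (Finset.mem_filter.1 hj).2)
        simp [h1]
  exact fun i hi => key _ i hi rfl

theorem bound (W : Submodule κ (PS κ)) [FiniteDimensional κ W] :
    FiniteDimensional κ (Submodule.span κ {g | ∃ f ∈ W, ∃ k, Ld w k f g}) ∧
    Module.finrank κ (Submodule.span κ {g | ∃ f ∈ W, ∃ k, Ld w k f g}) ≤
      Module.finrank κ W := by
  obtain ⟨b, hb, hs, hi⟩ := exists_linearIndependent κ {g | ∃ f ∈ W, ∃ k, Ld w k f g}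
  have h1 : ∀ x : b, ∃ f : W, ∃ k, Ld w k (f : PS κ) x := fun x => by
    obtain ⟨f, hf, k, h⟩ := hb x.2
    exact ⟨⟨f, hf⟩, k, h⟩
  choose f k hfk using h1
  have h2 : LinearIndependent κ f :=
    LinearIndependent.of_comp W.subtype (indep hfk hi)
  have : Finite b := h2.finite
  have : Fintype b := Fintype.ofFinite b
  rw [← hs]
  refine ⟨FiniteDimensional.span_of_finite κ (Set.toFinite b), ?_⟩
  refine (finrank_span_le_card b).trans ?_
  rw [Set.toFinset_card]
  exact h2.fintype_card_le_finrank

end GRx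

theorem p_GR :
    S_GR := by
  intro κ _ w U hU
  refine ⟨⟨fun M => ?_, fun M M' f g hf hg => ?_, ?_, ?_⟩, fun M => ?_⟩
  · have := hU.fin M
    exact (GRx.bound (U M)).1
  · have := Submodule.mul_mem_mul hf hg
    rw [Gr, Gr, Submodule.span_mul_span] at this
    refine Submodule.span_mono ?_ this
    rintro _ ⟨a, ⟨F, hF, k, h⟩, b, ⟨F', hF', k', h'⟩, rfl⟩
    exact ⟨F * F', hU.mul _ _ _ _ hF hF', k + k', h.mul h'⟩
  · exact Submodule.subset_span ⟨1, hU.one0, 0, Ld.one⟩
  · exact Submodule.subset_span ⟨1, hU.one1, 0, Ld.one⟩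
  · have := hU.fin M
    exact (GRx.bound (U M)).2

end Pool.Agent.P.MP_6149fc_ag.V18

end

section

/-! Step GRED. -/

set_option autoImplicit false
set_option linter.unusedSectionVars false

namespace Pool.Agent.P.MP_6149fc_ag.V18

open scoped ENNReal
open MvPowerSeries (coeff X constantCoeff monomial)

theorem p_GRED (hRED : S_RED) (hDEG : S_DEG) :
    S_GRED := by
  intro κ _ A w U V hA hw hH
  refine hRED κ A U V hA fun M μ n f γ hB hf hi hγ => ?_
  choose g h1 h2 using fun i => exists_ld hw (hi i)
  exact hDEG κ _ _ _ _ μ (LeadK.prod Finset.univ fun i => (h1 i).leadK)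
    (hH M μ n g _ hB ⟨fun i => Submodule.subset_span ⟨f i, hf i, _, h1 i⟩, fun i => (h1 i).1,
      indep_of_init h2 hγ⟩)

end Pool.Agent.P.MP_6149fc_ag.V18

end
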