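import Pool.Agent.P.MP_6149fc_ag.V18.IfaceC
import Pool.Agent.P.MP_6149fc_ag.V18.IfaceA

section

/-! Step PTT. -/

set_option autoImplicit false
set_option linter.unusedSectionVars false

namespace Pool.Agent.P.MP_6149fc_ag.V18

open scoped ENNReal
open MvPowerSeries (coeff X constantCoeff monomial)

namespace PTTx

theorem key {κ : Type} [Field κ] {A : Rows} (hA : Adm A) {a b c a' b' c' : ℕ} {f u r : PS κ}
    (hu : constantCoeff u ≠ 0) (h : ltA A a b c a' b' c')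
    (e : f = mon κ a b c * u + mon κ a' b' c' * r) : Init A f (ex a b c) := by
  have h1 := (init_mon (κ := κ) (A := A) a b c).mul (init_unit hA hu)
  rw [add_zero] at h1
  exact (h1.add_gt (mul_mem_GtK hA.pos (mon_gt h) r)).congr e

end PTTx

theorem p_PTT (hADM : S_ADM) :
    S_PTT := by
  intro κ _ a c U hU hc h
  have hA : Adm lexA := hADM _ (by decide)
  obtain ⟨W, hW⟩ : ∃ W : PS κ, W = MvPowerSeries.C c + X 2 := ⟨_, rfl⟩
  have hWc : constantCoeff W = c := by simp [hW]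
  have ex' : thT c 0 = X 0 * X 1 := rfl
  have ey : thT c 1 = X 0 ^ 2 * W := by rw [hW]; rfl
  have ez : thT c 2 = X 0 ^ 3 * W := by rw [hW]; rfl
  rw [ex', ey, ez] at h
  have hC : (algebraMap κ (PS κ)) c = W - X 2 := by
    rw [hW, add_sub_cancel_right]; rfl
  have p600 : Pt lexA U 1 (ex 6 0 0) := by
    refine ⟨_, h.h0, PTTx.key hA (u := W ^ 3) (a' := 6) (b' := 1) (c' := 0)
      (r := a • (X 1 * (X 1 * W - W ^ 2) - W ^ 2) - W ^ 2) (by simp [hWc, hc]) (by decide) ?_⟩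
    simp only [mon, bH, bq, Algebra.smul_def]; ring
  have p601 : Pt lexA U 1 (ex 6 0 1) := by
    refine ⟨_, add_mem (Submodule.smul_mem _ c h.hK) (Submodule.smul_mem _ (c + 1) h.h0),
      PTTx.key hA (u := W ^ 2) (a' := 6) (b' := 1) (c' := 0)
      (r := c • W ^ 2 + (c + 1) • (a • (X 1 * (X 1 * W - W ^ 2) - W ^ 2) - W ^ 2))
      (by simp [hWc, hc]) (by decide) ?_⟩
    simp only [mon, bH, bq, bK, Algebra.smul_def, map_add, map_one, hC]; ring
  have p110 : Pt lexA U 1 (ex 1 1 0) :=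
    ⟨_, h.hx, (init_mon 1 1 0).congr (by simp [mon])⟩
  have p700 : Pt lexA U 2 (ex 7 0 0) := by
    refine ⟨_, hU.mul 1 1 _ _ h.hz h.hq, PTTx.key hA (u := -W ^ 3) (a' := 7) (b' := 1) (c' := 0)
      (r := W ^ 2) (by simp [hWc, hc]) (by decide) ?_⟩
    simp only [mon, bq]; ring
  have p610 : Pt lexA U 2 (ex 6 1 0) := by
    refine ⟨_, hU.mul 1 1 _ _ h.hx h.hH, PTTx.key hA (u := -W ^ 2) (a' := 6) (b' := 2) (c' := 0)
      (r := X 1 * W - W ^ 2) (by simp [hWc, hc]) (by decide) ?_⟩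
    simp only [mon, bH, bq]; ring
  have pad : ∀ γ, Pt lexA U 1 γ → Pt lexA U 2 γ := fun γ ⟨f, hf, hi⟩ =>
    ⟨f, hU.pad hf (by norm_num), hi⟩
  refine ⟨⟨2, ex 6 0 0, by norm_num, by norm_num, pad _ p600, fun i => ?_⟩, fun q hq => ?_⟩
  · fin_cases i
    · convert p700 using 1
      exact ex_ext (by simp) (by simp) (by simp)
    · convert p610 using 1
      exact ex_ext (by simp) (by simp) (by simp)
    · convert pad _ p601 using 1
      exact ex_ext (by simp) (by simp) (by simp)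
  · simp only [P_eT, List.mem_cons, List.not_mem_nil, or_false] at hq
    rcases hq with rfl | rfl | rfl
    · exact p600
    · exact p601
    · exact p110

end Pool.Agent.P.MP_6149fc_ag.V18

end

section

/-! Step PTP. -/

set_option autoImplicit false
set_option linter.unusedSectionVars false

namespace Pool.Agent.P.MP_6149fc_ag.V18

open scoped ENNReal
open MvPowerSeries (coeff X constantCoeff monomial)

namespace PTPx

variable {κ : Type} [Field κ]

theorem gt {a b c : ℕ} : ∀ (E : List (ℕ × ℕ)) (L : List κ), (∀ p ∈ E, ltA AP a b c a p.1 p.2) →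
    (List.zipWith (fun p t => t • mon κ a p.1 p.2) E L).sum ∈ GtK κ AP (ex a b c)
  | [], _, _ => zero_mem _
  | _ :: _, [], _ => zero_mem _
  | p :: E, t :: L, h => add_mem (Submodule.smul_mem _ t (mon_gt (h p List.mem_cons_self)))
      (gt E L fun q hq => h q (List.mem_cons_of_mem _ hq))

theorem pt {U : ℕ → Submodule κ (PS κ)} {M a b c : ℕ} {g : PS κ} (hg : g ∈ U M) {t : κ}
    (ht : t ≠ 0) (E : List (ℕ × ℕ)) (L : List κ) (hE : ∀ p ∈ E, ltA AP a b c a p.1 p.2)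
    (h : g = t • mon κ a b c + (List.zipWith (fun p t => t • mon κ a p.1 p.2) E L).sum) :
    Pt AP U M (ex a b c) := ⟨g, hg, init_of ht (gt E L hE) h⟩

end PTPx

open PTPx in
theorem p_PTP :
    S_PTP := by
  intro κ _ a U hU ha h
  change B3in a (U 1) (X 0) (X 0 ^ 2 * X 1) (X 0 ^ 3 * (X 2 + X 1 ^ 2)) at h
  have o : (1 : κ) ≠ 0 := one_ne_zero
  have p1 : Pt AP U 1 (ex 1 0 0) := pt h.hx o [] [] (by decide) (by simp [mon])
  have p2 : Pt AP U 1 (ex 2 1 0) := pt h.hy o [] [] (by decide) (by simp [mon])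
  have p3 : Pt AP U 1 (ex 3 2 0) := pt h.hz o [(0, 1)] [1] (by decide) (by simp [mon]; ring)
  have p4 : Pt AP U 1 (ex 4 0 1) := pt h.hq o [] [] (by decide) (by simp [mon, bq]; ring)
  have p5 : Pt AP U 1 (ex 5 0 1) := pt h.hH o [(1, 1), (3, 0)] [-1, -1] (by decide)
    (by simp [mon, bq, bH]; ring)
  have p6 : Pt AP U 1 (ex 6 0 1) := pt h.h0 ha [(1, 1), (3, 0)] [-a - 1, -a] (by decide)
    (by simp [mon, bq, bH, Algebra.smul_def]; ring)
  have p7 : Pt AP U 1 (ex 6 1 1) := pt h.hK o [(0, 2), (2, 1), (4, 0)] [-1, -2, -1] (by decide)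
    (by simp [mon, bq, bK, Algebra.smul_def, map_ofNat]; ring)
  have p8 : Pt AP U 1 (ex 7 1 1) := pt h.h1 ha [(0, 2), (2, 1), (4, 0)] [-1, -a - 1, -a]
    (by decide) (by simp [mon, bq, bH, Algebra.smul_def]; ring)
  have p9 : Pt AP U 1 (ex 8 2 1) := pt h.h2 ha [(0, 2), (5, 0), (3, 1), (1, 2)]
    [a - 1, -a, -a - a, -a] (by decide) (by simp [mon, bq, bH, bK, Algebra.smul_def]; ring)
  have x2 := hU.mul _ _ _ _ h.hx h.hx
  have x4 := hU.mul _ _ _ _ x2 x2
  refine ⟨⟨5, ex 4 0 0, by norm_num, le_rfl,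
    pt (hU.pad x4 (by norm_num)) o [] [] (by decide) (by simp [mon]; ring), fun i => ?_⟩, ?_⟩
  · fin_cases i
    · rw [show ex 4 0 0 + _ = ex 5 0 0 from ex_ext (by simp) (by simp) (by simp)]
      exact pt (hU.mul _ _ _ _ x4 h.hx) o [] [] (by decide) (by simp [mon]; ring)
    · rw [show ex 4 0 0 + _ = ex 4 1 0 from ex_ext (by simp) (by simp) (by simp)]
      exact pt (hU.pad (hU.mul _ _ _ _ x2 h.hy) (by norm_num)) o [] [] (by decide)
        (by simp [mon]; ring)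
    · rw [show ex 4 0 0 + _ = ex 4 0 1 from ex_ext (by simp) (by simp) (by simp)]
      exact let ⟨f, k, l⟩ := p4; ⟨f, hU.pad k (by norm_num), l⟩
  by_cases e : a = 1
  · subst e
    refine .inr fun q hq => ?_
    simp only [P_eP1, List.mem_cons, List.not_mem_nil, or_false] at hq
    rcases hq with rfl | rfl | rfl | rfl | rfl | rfl | rfl | rfl | rfl | rfl | rfl
    exacts [p1, p2, p3, p4, p5, p6, p7, p8, p9,
      pt h.h3 o [(1, 2), (6, 0), (4, 1), (2, 2), (0, 3)] [1, -1, -3, -3, -1] (by decide)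
        (by simp [mon, bq, bH, bK, Algebra.smul_def, map_ofNat]; ring),
      pt h.hD o [(0, 3), (2, 2), (4, 1)] [-1, -2, -1] (by decide)
        (by simp [mon, bq, bH, bK, Algebra.smul_def, map_ofNat]; ring)]
  · have e := sub_ne_zero.2 e
    refine .inl fun q hq => ?_
    simp only [P_eP0, List.mem_cons, List.not_mem_nil, or_false] at hq
    rcases hq with rfl | rfl | rfl | rfl | rfl | rfl | rfl | rfl | rfl | rfl | rfl
    exacts [p1, p2, p3, p4, p5, p6, p7, p8, p9,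
      pt h.h3 e [(3, 1), (1, 2), (6, 0), (4, 1), (2, 2), (0, 3)] [2 - a, 2 - a, -1, -3, -3, -1]
        (by decide) (by simp [mon, bq, bH, bK, Algebra.smul_def, map_ofNat]; ring),
      pt h.hD (mul_ne_zero ha e) [(1, 2), (3, 1), (2, 2), (4, 1), (6, 0), (0, 3)]
        [1 - 2 * (a * (a - 1)), -2 * (a * (a - 1)), a * (a - 1) - 2, 2 * (a * (a - 1)) - 1,
          a * (a - 1), -1]
        (by decide) (by simp [mon, bq, bH, bK, Algebra.smul_def, map_ofNat]; ring)]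

end Pool.Agent.P.MP_6149fc_ag.V18

end

section

/-! Step PTL. -/

set_option autoImplicit false
set_option linter.unusedSectionVars false

namespace Pool.Agent.P.MP_6149fc_ag.V18

open scoped ENNReal
open MvPowerSeries (coeff X constantCoeff monomial)

namespace PTLx

variable {κ : Type} [Field κ] {U : ℕ → Submodule κ (PS κ)}

theorem pt (hA : Adm lexA) {M : ℕ} {f : PS κ} (hf : f ∈ U M) (i j k : ℕ) (u : PS κ) {e : PS κ}
    (hu : constantCoeff u ≠ 0) (he : e ∈ GtK κ lexA (ex i j k)) (h : f = mon κ i j k * u + e) :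
    Pt lexA U M (ex i j k) :=
  ⟨f, hf, ((add_zero (ex i j k) ▸ (init_mon i j k).mul (init_unit hA hu)).add_gt he).congr h⟩

theorem gen (n : ℕ) (h0 : Pt lexA U 3 (ex n 0 0)) (h1 : Pt lexA U 3 (ex (n + 1) 0 0))
    (h2 : Pt lexA U 3 (ex n 1 0)) (h3 : Pt lexA U 3 (ex n 0 1)) : Gen lexA U := by
  refine ⟨3, _, by norm_num, by norm_num, h0, fun i => ?_⟩
  fin_cases i
  · convert h1 using 1
    exact ex_ext (by simp) (by simp) (by simp)
  · convert h2 using 1
    exact ex_ext (by simp) (by simp) (by simp)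
  · convert h3 using 1
    exact ex_ext (by simp) (by simp) (by simp)

theorem pad (hU : Sys U) {γ : Ex} (h : Pt lexA U 2 γ) : Pt lexA U 3 γ :=
  h.imp fun _ h => ⟨hU.pad h.1 (by norm_num), h.2⟩

end PTLx

open PTLx MvPowerSeries in
theorem p_PTL (hADM : S_ADM) (hALGT : S_ALGT) :
    S_PTL := by
  intro κ _ a c d U hU ha hcd hK h
  have hA := hADM lexA (by decide)
  replace h : B3in a (U 1) (X 0) (X 0 ^ 2 * (C c + X 1)) (X 0 ^ 3 * (C d + X 2)) := h
  have hxx := hU.mul _ _ _ _ h.hx h.hx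
  have hy := sub_mem (hU.pad h.hy one_le_two) (Submodule.smul_mem _ c hxx)
  have p2 := pt hA hy 2 1 0 1 (by simp) (zero_mem _)
    (by simp only [mon, smul_eq_C_mul]; ring)
  have p3 : Gen lexA U ∧ (Pt lexA U 2 (ex 3 0 1) ∨ Pt lexA U 2 (ex 6 0 1)) := by
    by_cases hc : c = 0
    · have hd := hcd.resolve_left (not_not.2 hc)
      subst hc
      have hzz := hU.mul _ _ _ _ h.hz h.hz
      have p4 := pt hA (sub_mem hzz (Submodule.smul_mem _ d (hU.mul _ _ _ _ h.hx h.hH))) 6 0 1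
        (C d + X 2) (by simpa) (mul_mem_GtK hA.pos (mon_gt (a' := 6) (b' := 1) (c' := 0)
          (by decide)) (C d * (X 1 + C d + X 2)))
        (by simp only [mon, smul_eq_C_mul, bH, bq, map_zero]; ring)
      exact ⟨gen 6 (pad hU (pt hA hzz 6 0 0 ((C d + X 2) ^ 2) (by simpa) (zero_mem _)
          (by simp only [mon]; ring)))
        (pt hA (hU.mul _ _ _ _ hzz h.hx) 7 0 0 ((C d + X 2) ^ 2) (by simpa) (zero_mem _)
          (by simp only [mon]; ring))
        (pt hA (hU.mul _ _ _ _ (hU.mul _ _ _ _ h.hx h.hy) h.hz) 6 1 0 (C d + X 2) (by simpa)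
          (zero_mem _) (by simp only [mon, map_zero]; ring)) (pad hU p4), .inr p4⟩
    · have p4 := pt hA (sub_mem (Submodule.smul_mem _ c (hU.pad h.hz one_le_two))
        (Submodule.smul_mem _ d (hU.mul _ _ _ _ h.hx h.hy))) 3 0 1 (C c) (by simpa)
        (mul_mem_GtK hA.pos (mon_gt (a' := 3) (b' := 1) (c' := 0) (by decide)) (-C d))
        (by simp only [mon, smul_eq_C_mul]; ring)
      exact ⟨gen 3 (pt hA (hU.mul _ _ _ _ hxx h.hx) 3 0 0 1 (by simp) (zero_mem _)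
          (by simp only [mon]; ring))
        (pt hA (hU.mul _ _ _ _ hxx h.hy) 4 0 0 (C c + X 1) (by simpa) (zero_mem _)
          (by simp only [mon]; ring))
        (pt hA (hU.mul _ _ _ _ hy h.hx) 3 1 0 1 (by simp) (zero_mem _)
          (by simp only [mon, smul_eq_C_mul]; ring)) (pad hU p4), .inl p4⟩
  have p1 : Pt lexA U 1 (ex 9 0 0) ∨ Pt lexA U 1 (ex 10 0 0) :=
    (hALGT κ a c d ha hcd hK).imp
      (fun h1 => pt hA h.h3 9 0 0 (C (a - 1) * (bq 1 (C c + X 1) (C d + X 2) *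
        bH 1 (C c + X 1) (C d + X 2)) + (C d + X 2) * bK 1 (C c + X 1) (C d + X 2))
        (by simpa [bq, bH, bK] using h1) (zero_mem _)
        (by simp only [mon, smul_eq_C_mul, bq, bH, bK]; ring))
      fun h1 => pt hA h.hD 10 0 0 (C (a * (a - 1)) * bH 1 (C c + X 1) (C d + X 2) ^ 2 +
        bq 1 (C c + X 1) (C d + X 2) * bK 1 (C c + X 1) (C d + X 2))
        (by simpa [bq, bH, bK] using h1) (zero_mem _)
        (by simp only [mon, smul_eq_C_mul, bq, bH, bK]; ring)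
  refine ⟨p3.1, ?_⟩
  have := p3.2
  simp only [Pts, P_eL9a, P_eL9b, P_eL10a, P_eL10b, List.forall_mem_cons, List.not_mem_nil,
    false_imp_iff, implies_true, and_true]
  tauto

end Pool.Agent.P.MP_6149fc_ag.V18

end

section

/-! Step PTS. -/

set_option autoImplicit false
set_option linter.unusedSectionVars false

namespace Pool.Agent.P.MP_6149fc_ag.V18

open scoped ENNReal
open MvPowerSeries (coeff X constantCoeff monomial)

namespace PTSx

theorem init_mu {κ : Type} [Field κ] {A : Rows} (hA : Adm A) (a b c : ℕ) {u g : PS κ}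
    (hu : constantCoeff u ≠ 0) (h : g = mon κ a b c * u) : Init A g (ex a b c) := by
  have := (init_mon (A := A) (κ := κ) a b c).mul (init_unit hA hu)
  rw [add_zero] at this
  exact this.congr h

theorem init_mur {κ : Type} [Field κ] (hA : Adm lexA) {j : ℕ} (hj : ltA lexA 4 0 j 4 1 0)
    {u r g : PS κ} (hu : constantCoeff u ≠ 0) (h : g = mon κ 4 0 j * u + mon κ 4 1 0 * r) :
    Init lexA g (ex 4 0 j) :=
  ((init_mu hA 4 0 j hu rfl).add_gt (mul_mem_GtK hA.pos (mon_gt hj) r)).congr h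

end PTSx

open PTSx in
theorem p_PTS (hADM : S_ADM) :
    S_PTS := by
  intro κ _ t U hU t0 t1 h
  have hA : Adm lexA := hADM _ (by decide)
  obtain ⟨T, hT⟩ : ∃ T : PS κ, T = MvPowerSeries.C t + X 2 := ⟨_, rfl⟩
  obtain ⟨Y, hY⟩ : ∃ Y : PS κ, Y = T - T ^ 2 - X 1 := ⟨_, rfl⟩
  have e0 : thS t 0 = X 0 := rfl
  have e1 : thS t 1 = X 0 ^ 2 * Y := by rw [hY, hT]; rfl
  have e2 : thS t 2 = X 0 ^ 3 * (T * Y) := by rw [hY, hT]; rfl
  rw [e0, e1, e2] at h
  have cT : constantCoeff T = t := by simp [hT]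
  have cY : constantCoeff Y = t * (1 - t) := by simp [hY, cT]; ring
  have t2 : 1 - t ≠ 0 := sub_ne_zero.2 t1.symm
  have i0 : Init lexA ((1 : κ) • (X 0 * bH (X 0) (X 0 ^ 2 * Y) (X 0 ^ 3 * (T * Y))) -
      X 0 ^ 2 * Y * bq (X 0) (X 0 ^ 2 * Y) (X 0 ^ 3 * (T * Y))) (ex 6 0 0) := by
    refine init_mu hA 6 0 0 (u := Y * (T ^ 4 + X 1 * (1 + 2 * T ^ 2 + X 1))) ?_ ?_
    · simp [cT, cY, t0, t2]
    · simp only [one_smul, bH, bq, mon, hY]; ring
  have iK : Init lexA (bK (X 0) (X 0 ^ 2 * Y) (X 0 ^ 3 * (T * Y))) (ex 6 1 0) := by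
    refine init_mu hA 6 1 0 (u := Y ^ 2) ?_ ?_
    · simp [cY, t0, t2]
    · simp only [bK, bq, mon, hY]; ring
  have iD : Init lexA (((1 : κ) * (1 - 1)) • bH (X 0) (X 0 ^ 2 * Y) (X 0 ^ 3 * (T * Y)) ^ 2 +
      bq (X 0) (X 0 ^ 2 * Y) (X 0 ^ 3 * (T * Y)) * bK (X 0) (X 0 ^ 2 * Y) (X 0 ^ 3 * (T * Y)))
      (ex 10 1 0) := by
    refine init_mu hA 10 1 0 (u := Y ^ 3 * (T ^ 2 + X 1)) ?_ ?_
    · simp [cT, cY, t0, t2]
    · simp only [sub_self, mul_zero, zero_smul, zero_add, bK, bq, mon, hY]; ring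
  have hxx := hU.mul _ _ _ _ h.hx h.hx
  refine ⟨⟨3, ex 6 0 0, by norm_num, by norm_num, ⟨_, hU.pad h.h0 (by norm_num), i0⟩,
    fun i => ?_⟩, ?_⟩
  · fin_cases i
    · refine ⟨_, hU.pad (hU.mul _ _ _ _ h.h0 h.hx) (by norm_num), i0.mul ?_⟩
      exact init_monomial _ one_ne_zero
    · refine ⟨_, hU.pad h.hK (by norm_num), ?_⟩
      convert iK using 1
      exact ex_ext (by simp) (by simp) (by simp)
    · refine ⟨_, sub_mem (hU.pad (hU.mul _ _ _ _ h.hz h.hz) (by norm_num))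
        (Submodule.smul_mem _ t (hU.mul _ _ _ _ (hU.mul _ _ _ _ h.hz h.hx) h.hy)), ?_⟩
      have e : ex 6 0 0 + Finsupp.single (2 : Fin 3) 1 = ex 6 0 1 :=
        ex_ext (by simp) (by simp) (by simp)
      refine e ▸ init_mu hA 6 0 1 (u := T * Y ^ 2) ?_ ?_
      · simp [cT, cY, t0, t2]
      · simp only [MvPowerSeries.smul_eq_C_mul, mon, hT]; ring
  · obtain ⟨al, hal⟩ : ∃ al : κ, al = -t ^ 3 - (1 - t) ^ 3 := ⟨_, rfl⟩
    obtain ⟨be, hbe⟩ : ∃ be : κ, be = (1 - t) ^ 4 - t ^ 4 := ⟨_, rfl⟩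
    have hm : (t ^ 4 * al - t ^ 3 * be) • (X 0 * X 0 * (X 0 * X 0)) +
        (3 * t ^ 2 * be - 4 * t ^ 3 * al) • (X 0 * X 0 * (X 0 ^ 2 * Y)) +
        (4 * t * al - al - be) • (X 0 * (X 0 ^ 3 * (T * Y))) -
        al • bq (X 0) (X 0 ^ 2 * Y) (X 0 ^ 3 * (T * Y)) ∈ U 4 :=
      sub_mem (add_mem (add_mem (Submodule.smul_mem _ _ (hU.mul _ _ _ _ hxx hxx))
        (Submodule.smul_mem _ _ (hU.pad (hU.mul _ _ _ _ hxx h.hy) (by norm_num))))
        (Submodule.smul_mem _ _ (hU.pad (hU.mul _ _ _ _ h.hx h.hz) (by norm_num))))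
        (Submodule.smul_mem _ _ (hU.pad h.hq (by norm_num)))
    obtain ⟨r, hr⟩ : ∃ r : PS κ, (t ^ 4 * al - t ^ 3 * be) • (X 0 * X 0 * (X 0 * X 0)) +
        (3 * t ^ 2 * be - 4 * t ^ 3 * al) • (X 0 * X 0 * (X 0 ^ 2 * Y)) +
        (4 * t * al - al - be) • (X 0 * (X 0 ^ 3 * (T * Y))) -
        al • bq (X 0) (X 0 ^ 2 * Y) (X 0 ^ 3 * (T * Y)) =
        mon κ 4 0 3 * (MvPowerSeries.C al * X 2 + MvPowerSeries.C be) + mon κ 4 1 0 * r := by
      refine ⟨-MvPowerSeries.C (3 * t ^ 2 * be - 4 * t ^ 3 * al) -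
        MvPowerSeries.C (4 * t * al - al - be) * T - MvPowerSeries.C al * (Y - T ^ 2), ?_⟩
      simp only [MvPowerSeries.smul_eq_C_mul, mon, bq, hY, hT, hal, hbe, map_sub, map_mul, map_pow,
        map_neg, map_one, map_ofNat]
      ring
    rw [hr] at hm
    by_cases hb : be = 0
    · have ha : al ≠ 0 := fun ha => pow_ne_zero 3 t2 (by
        rw [hal] at ha
        rw [hbe] at hb
        linear_combination hb - t * ha)
      refine Or.inr fun q hq => ?_
      simp only [P_eS4, List.mem_cons, List.not_mem_nil, or_false] at hq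
      rcases hq with rfl | rfl | rfl | rfl
      · exact ⟨_, h.h0, i0⟩
      · exact ⟨_, h.hK, iK⟩
      · exact ⟨_, h.hD, iD⟩
      · refine ⟨_, hm, init_mur hA (by decide) (u := MvPowerSeries.C al) (r := r)
          (by simpa using ha) ?_⟩
        simp only [hb, map_zero, mon]; ring
    · refine Or.inl fun q hq => ?_
      simp only [P_eS3, List.mem_cons, List.not_mem_nil, or_false] at hq
      rcases hq with rfl | rfl | rfl | rfl
      · exact ⟨_, h.h0, i0⟩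
      · exact ⟨_, h.hK, iK⟩
      · exact ⟨_, h.hD, iD⟩
      · exact ⟨_, hm, init_mur hA (by decide) (by simpa using hb) rfl⟩

end Pool.Agent.P.MP_6149fc_ag.V18

end

section

/-! Step CHARTS. -/

set_option autoImplicit false
set_option linter.unusedSectionVars false

namespace Pool.Agent.P.MP_6149fc_ag.V18

open scoped ENNReal
open MvPowerSeries (coeff X constantCoeff monomial)

namespace CHARTSx
variable {κ : Type} [Field κ]

theorem h0 : Hm e1 1 (X 0 : PS κ) := Hm.X 0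
theorem h1 : Hm e1 0 (X 1 : PS κ) := Hm.X 1
theorem h2 : Hm e1 0 (X 2 : PS κ) := Hm.X 2

theorem coe_sub (p q : MvPolynomial (Fin 3) κ) :
    ((p - q : MvPolynomial (Fin 3) κ) : PS κ) = p - q :=
  map_sub MvPolynomial.coeToMvPowerSeries.ringHom p q

theorem chart {θ : Fin 3 → PS κ} (q0 q1 q2 : MvPolynomial (Fin 3) κ) (a0 : Hm e1 1 (θ 0))
    (a1 : Hm e1 2 (θ 1)) (a2 : Hm e1 3 (θ 2)) (b0 : θ 0 = q0) (b1 : θ 1 = q1) (b2 : θ 2 = q2)
    (h : ∀ x y z : κ, x ≠ 0 → y ≠ 0 → z ≠ 0 → ∃ u : Fin 3 → κ, MvPolynomial.eval u q0 = x ∧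
      MvPolynomial.eval u q1 = y ∧ MvPolynomial.eval u q2 = z) : IsChart θ := by
  refine ⟨fun j => ?_, ![q0, q1, q2], fun j => ?_, fun a ha => ?_⟩
  · fin_cases j
    exacts [a0, a1, a2]
  · fin_cases j
    exacts [b0, b1, b2]
  · obtain ⟨u, c0, c1, c2⟩ := h (a 0) (a 1) (a 2) (ha 0) (ha 1) (ha 2)
    refine ⟨u, fun j => ?_⟩
    fin_cases j
    exacts [c0, c1, c2]

end CHARTSx

open CHARTSx in
theorem p_CHARTS :
    S_CHARTS := by
  intro κ _
  refine ⟨?_, fun c d => ?_, fun t => ?_, fun c => ?_⟩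
  · refine chart (.X 0) (.X 0 ^ 2 * .X 1) (.X 0 ^ 3 * (.X 2 + .X 1 ^ 2)) h0 ((h0.pow 2).mul h1)
      ((h0.pow 3).mul (h2.add (h1.pow 2))) (by simp [thP]) (by simp [thP]) (by simp [thP])
      fun x y z hx hy hz => ⟨![x, y / x ^ 2, z / x ^ 3 - (y / x ^ 2) ^ 2], by simp, ?_, ?_⟩
    · simp; field_simp
    · simp; field_simp
  · refine chart (.X 0) (.X 0 ^ 2 * (.C c + .X 1)) (.X 0 ^ 3 * (.C d + .X 2)) h0
      ((h0.pow 2).mul ((Hm.C c).add h1)) ((h0.pow 3).mul ((Hm.C d).add h2))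
      (by simp [thL]) (by simp [thL]) (by simp [thL])
      fun x y z hx hy hz => ⟨![x, y / x ^ 2 - c, z / x ^ 3 - d], by simp, ?_, ?_⟩
    · simp; field_simp
    · simp; field_simp
  · have hT : Hm e1 0 (MvPowerSeries.C t + X 2 : PS κ) := (Hm.C t).add h2
    have hY := (hT.sub (hT.pow 2)).sub h1
    refine chart (.X 0) (.X 0 ^ 2 * ((.C t + .X 2) - (.C t + .X 2) ^ 2 - .X 1))
      (.X 0 ^ 3 * ((.C t + .X 2) * ((.C t + .X 2) - (.C t + .X 2) ^ 2 - .X 1))) h0
      ((h0.pow 2).mul hY) ((h0.pow 3).mul (hT.mul hY))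
      (by simp [thS]) (by simp [thS, coe_sub]) (by simp [thS, coe_sub])
      fun x y z hx hy hz => ⟨![x, z / (x * y) - (z / (x * y)) ^ 2 - y / x ^ 2, z / (x * y) - t],
        by simp, ?_, ?_⟩
    · simp; field_simp
    · simp; field_simp
  · refine chart (.X 0 * .X 1) (.X 0 ^ 2 * (.C c + .X 2)) (.X 0 ^ 3 * (.C c + .X 2)) (h0.mul h1)
      ((h0.pow 2).mul ((Hm.C c).add h2)) ((h0.pow 3).mul ((Hm.C c).add h2))
      (by simp [thT]) (by simp [thT]) (by simp [thT])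
      fun x y z hx hy hz => ⟨![z / y, x / (z / y), y / (z / y) ^ 2 - c], ?_, ?_, ?_⟩
    · simp; field_simp
    · simp; field_simp
    · simp; field_simp

end Pool.Agent.P.MP_6149fc_ag.V18

end

section

/-! Step PULLB. -/

set_option autoImplicit false
set_option linter.unusedSectionVars false

namespace Pool.Agent.P.MP_6149fc_ag.V18

open scoped ENNReal
open MvPowerSeries (coeff X constantCoeff monomial)

theorem p_PULLB :
    S_PULLB := by
  intro κ κ' _ _ _ a θ G hθ h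
  have ha := MvPowerSeries.hasSubst_of_constantCoeff_zero hθ
  obtain ⟨φ, hφ⟩ : ∃ φ : PS κ →ₐ[κ] PS κ', ∀ f, φ f = MvPowerSeries.subst θ f :=
    ⟨MvPowerSeries.substAlgHom ha, MvPowerSeries.substAlgHom_apply ha⟩
  have hm : ∀ {f : PS κ} {g : PS κ'}, f ∈ G 1 → φ f = g → g ∈ Pull κ' θ G 1 := fun {f g} hf e =>
    Submodule.subset_span ⟨f, hf, (hφ f).symm.trans e⟩
  have hX : ∀ j, φ (X j) = θ j := fun j => (hφ _).trans (MvPowerSeries.subst_X ha j)
  have hs : ∀ (c : κ) (f : PS κ), φ (c • f) = algebraMap κ κ' c • φ f := fun c f => by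
    rw [map_smul, algebraMap_smul]
  have hq : φ (bq (X 0) (X 1) (X 2)) = bq (θ 0) (θ 1) (θ 2) := by
    simp only [bq, map_sub, map_mul, map_pow, hX]
  have hH : φ (bH (X 0) (X 1) (X 2)) = bH (θ 0) (θ 1) (θ 2) := by
    simp only [bH, map_sub, map_mul, hq, hX]
  have hK : φ (bK (X 0) (X 1) (X 2)) = bK (θ 0) (θ 1) (θ 2) := by
    simp only [bK, map_sub, map_mul, map_pow, hq, hX]
  refine ⟨hm h.hx (hX 0), hm h.hy (hX 1), hm h.hz (hX 2), hm h.hq hq, hm h.hH hH, hm h.hK hK,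
    hm h.h0 ?_, hm h.h1 ?_, hm h.h2 ?_, hm h.h3 ?_, hm h.hD ?_⟩ <;>
  simp only [map_sub, map_add, hs, map_mul, map_pow, map_one, hX, hq, hH, hK]

end Pool.Agent.P.MP_6149fc_ag.V18

end
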